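import Pool.Agent.P.MP_a6af55_an.GrpAlg

namespace Pool.Agent.P.MP_a6af55_an

open Pool.Agent.Lib.Tracial
open scoped ComplexOrder InnerProductSpace ComplexConjugate
open Filter Topology

section basis

variable {ι H K : Type*} [NormedAddCommGroup H] [InnerProductSpace ℂ H] [NormedAddCommGroup K]
  [InnerProductSpace ℂ K] (b : HilbertBasis ι ℂ H)

lemma exists_isom [CompleteSpace K] {v : ι → K} (hv : Orthonormal ℂ v) :
    ∃ V : H →ₗᵢ[ℂ] K, ∀ i, V (b i) = v i := by
  classical
  refine ⟨hv.orthogonalFamily.linearIsometry.comp b.repr.toLinearIsometry, fun i => ?_⟩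
  simp [b.repr_self, OrthogonalFamily.linearIsometry_apply_single]

lemma hb_ext {S T : H →L[ℂ] K} (h : ∀ i, S (b i) = T (b i)) : S = T :=
  ContinuousLinearMap.ext_on (Submodule.dense_iff_topologicalClosure_eq_top.2 b.dense_span)
    (by rintro _ ⟨i, rfl⟩; exact h i)

lemma hb_ext_inner {x y : H} (h : ∀ i, ⟪b i, x⟫_ℂ = ⟪b i, y⟫_ℂ) : x = y :=
  b.repr.injective (lp.ext (funext fun i => by rw [b.repr_apply_apply, b.repr_apply_apply, h]))

variable [CompleteSpace H]

/-- The unitary permuting a Hilbert basis. -/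
noncomputable def perm (σ : ι ≃ ι) : H →L[ℂ] H :=
  (exists_isom b (b.orthonormal.comp σ σ.injective)).choose.toContinuousLinearMap

lemma perm_apply (σ : ι ≃ ι) (i : ι) : perm b σ (b i) = b (σ i) :=
  (exists_isom b (b.orthonormal.comp σ σ.injective)).choose_spec i

lemma star_perm (σ : ι ≃ ι) : star (perm b σ) = perm b σ.symm := by
  classical
  refine hb_ext b fun i => hb_ext_inner b fun j => ?_
  rw [ContinuousLinearMap.star_eq_adjoint, ContinuousLinearMap.adjoint_inner_right, perm_apply,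
    perm_apply, orthonormal_iff_ite.1 b.orthonormal, orthonormal_iff_ite.1 b.orthonormal]
  simp only [Equiv.eq_symm_apply]

end basis

variable {G H : Type} [Group G] [NormedAddCommGroup H] [InnerProductSpace ℂ H] [CompleteSpace H]
  (b : HilbertBasis G ℂ H)

/-- The group von Neumann algebra. -/
noncomputable def vn : VonNeumannAlgebra H where
  toStarSubalgebra := StarSubalgebra.centralizer ℂ (Set.range fun g => perm b (Equiv.mulRight g))
  centralizer_centralizer' := Set.centralizer_centralizer_centralizer _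

lemma vn_apply (T : VNAlg (vn b)) (g : G) :
    T.op (b g) = perm b (Equiv.mulRight g) (T.op (b 1)) := by
  have := (((StarSubalgebra.mem_centralizer_iff ℂ).1 T.2) _ ⟨g, rfl⟩).1
  have h := congrArg (fun S : H →L[ℂ] H => S (b 1)) this
  simp only [ContinuousLinearMap.mul_apply, perm_apply, Equiv.coe_mulRight, one_mul] at h
  exact h.symm

lemma inner_star_op (S T : VNAlg (vn b)) :
    ⟪b 1, (star S * T).op (b 1)⟫_ℂ = ⟪S.op (b 1), T.op (b 1)⟫_ℂ :=
  ContinuousLinearMap.adjoint_inner_right S.op (b 1) (T.op (b 1))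

lemma hasSum_tr (S T : VNAlg (vn b)) :
    HasSum (fun g => ⟪b g⁻¹, S.op (b 1)⟫_ℂ * ⟪b g, T.op (b 1)⟫_ℂ) ⟪b 1, (S * T).op (b 1)⟫_ℂ := by
  have := b.hasSum_inner_mul_inner ((star S).op (b 1)) (T.op (b 1))
  rw [← inner_star_op, star_star] at this
  suffices h : ∀ g, ⟪b g⁻¹, S.op (b 1)⟫_ℂ = ⟪(star S).op (b 1), b g⟫_ℂ by simpa only [h] using this
  intro g
  change _ = ⟪ContinuousLinearMap.adjoint S.op _, _⟫_ℂ
  rw [ContinuousLinearMap.adjoint_inner_left, vn_apply b S g,
    ← ContinuousLinearMap.adjoint_inner_left (perm b _), ← ContinuousLinearMap.star_eq_adjoint,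
    star_perm,
    perm_apply]
  simp

/-- The vector trace. -/
noncomputable def vtr : TrState (VNAlg (vn b)) where
  τ :=
    { toFun T := ⟪b 1, T.op (b 1)⟫_ℂ
      map_add' _ _ := inner_add_right _ _ _
      map_smul' _ _ := inner_smul_right _ _ _ }
  map_one := by
    change ⟪b 1, b 1⟫_ℂ = 1
    simp [b.orthonormal.1 1]
  nonneg T := by
    change 0 ≤ ⟪b 1, (star T * T).op (b 1)⟫_ℂ
    rw [inner_star_op, inner_self_eq_norm_sq_to_K]
    exact pow_nonneg (Complex.zero_le_real.2 (norm_nonneg (T.op (b 1)))) 2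
  trace S T := (hasSum_tr b S T).unique (by
    simpa [mul_comm, Function.comp_def] using (Equiv.inv G).hasSum_iff.2 (hasSum_tr b T S))

lemma vtr_τ (T : VNAlg (vn b)) : (vtr b).τ T = ⟪b 1, T.op (b 1)⟫_ℂ := rfl

lemma vtr_n2 (T : VNAlg (vn b)) : (vtr b).n2 T = ‖T.op (b 1)‖ := by
  rw [← sq_eq_sq₀ (TrState.n2_nonneg _ _) (norm_nonneg _), TrState.n2_sq, vtr_τ, inner_star_op,
    @InnerProductSpace.norm_sq_eq_re_inner ℂ]
  rfl

lemma vtr_faithful : (vtr b).Faithful := fun T hT => by
  rw [vtr_τ, inner_star_op, inner_self_eq_zero] at hT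
  refine Subtype.ext (hb_ext b fun g => ?_)
  exact (vn_apply b T g).trans (by rw [hT, map_zero]; rfl)

lemma vtr_normal : IsNormalFun (VNAlg.op (M := vn b)) (vtr b).τ := fun _ _ _ h => h _ _

/-- The left regular representation. -/
noncomputable def lam (g : G) : VNAlg (vn b) :=
  ⟨perm b (Equiv.mulLeft g), (StarSubalgebra.mem_centralizer_iff ℂ).2 (by
    rintro _ ⟨h, rfl⟩
    rw [star_perm]
    exact ⟨hb_ext b fun k => by simp [perm_apply, mul_assoc],
      hb_ext b fun k => by simp [perm_apply, mul_assoc]⟩)⟩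

lemma lam_apply (g h : G) : (lam b g).op (b h) = b (g * h) := perm_apply b _ h

/-- The group algebra structure. -/
noncomputable def lg : GrpAlg G (vtr b) where
  u :=
    { toFun := lam b
      map_one' := Subtype.ext (hb_ext b fun k => (lam_apply b 1 k).trans (by simp))
      map_mul' g h := Subtype.ext (hb_ext b fun k => (lam_apply b _ k).trans (by
        change _ = (lam b g).op ((lam b h).op _)
        rw [lam_apply, lam_apply, mul_assoc])) }
  star_u g := Subtype.ext ((star_perm b _).trans (by rw [Equiv.mulLeft_symm]; rfl))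
  τ_u g hg := by
    change ⟪b 1, (lam b g).op (b 1)⟫_ℂ = 0
    rw [lam_apply, mul_one]
    exact b.orthonormal.2 hg.symm
  dense T ε hε := by
    obtain ⟨F, hF⟩ := (Metric.tendsto_nhds.1 (b.hasSum_repr (T.op (b 1))) _ hε).exists
    refine ⟨∑ g ∈ F, b.repr (T.op (b 1)) g • lam b g, Submodule.sum_mem _ fun g _ =>
      Submodule.smul_mem _ _ (Submodule.subset_span ⟨g, rfl⟩), ?_⟩
    let ev : VNAlg (vn b) →ₗ[ℂ] H :=
      { toFun T := T.op (b 1)
        map_add' _ _ := rfl
        map_smul' _ _ := rfl }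
    have h1 : ∀ g, ev (lam b g) = b g := fun g => (lam_apply b g 1).trans (by rw [mul_one])
    rw [dist_comm, dist_eq_norm] at hF
    rw [vtr_n2]
    change ‖ev (T - ∑ g ∈ F, b.repr (T.op (b 1)) g • lam b g)‖ ≤ ε
    simp only [map_sub, map_sum, map_smul, h1]
    exact hF.le

theorem exists_lg (G : Type) [Group G] (h : ∀ (A : Type) [CStarAlgebra A] (t : TrState A) [t.W],
    GrpAlg G t → IsInfFactor A) : ∃ N : II1Factor.{0}, Nonempty (GrpAlg G N.tr) := by
  let b : HilbertBasis G ℂ (lp (fun _ : G => ℂ) 2) := default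
  have := W_of_normal _ _ (vtr_faithful b) (vtr_normal b)
  exact ⟨⟨_, vn b, vtr b, vtr_faithful b, vtr_normal b, h _ _ (lg b)⟩, ⟨lg b⟩⟩

end Pool.Agent.P.MP_a6af55_an
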