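import Pool.Agent.P.MP_a6af55_an.GrpAlg

namespace Pool.Agent.P.MP_a6af55_an

open Pool.Agent.Lib.Tracial
open scoped ComplexOrder InnerProductSpace ComplexConjugate
open Filter Topology

variable {A : Type*} [CStarAlgebra A] {G : Type} [Group G] {t : TrState A} {bit : ℕ → Bool}

lemma dev_le (t : TrState A) (z : A) (c : ℂ) : t.dev z ≤ t.n2 (z - c • 1) := by
  have e : z - t.τ z • 1 = (z - c • 1) - t.τ (z - c • 1) • 1 := by
    rw [map_sub, t.τ_smul_one, sub_smul]; abel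
  rw [TrState.dev, e]
  generalize z - c • 1 = v
  rw [← sq_le_sq₀ (t.n2_nonneg _) (t.n2_nonneg _), TrState.n2, map_sub, map_smul, @norm_sub_sq ℂ,
    inner_smul_right, t.inner_Λ, mul_one, t.map_star, norm_smul, t.norm_Λ, t.norm_Λ, t.n2_one,
    Complex.mul_conj', mul_one, ← Complex.ofReal_pow]
  simp only [RCLike.re_to_complex, Complex.ofReal_re]
  nlinarith [sq_nonneg ‖t.τ v‖]

variable [t.W] (L : GrpAlg G t) (S : Sys G bit)

lemma loc_alg {l : ℕ} (X' : S.Pc l) {y : A} (hy : L.In y (S.grp X')) {ε : ℝ} (hε : 0 < ε) :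
    ∃ m0, ∀ (X : S.Pc l) m, m0 ≤ m → ∀ z, ‖z‖ ≤ 1 → L.In z (S.tail X m) → t.cm z y ≤ ε := by
  obtain ⟨F, hF, h⟩ := L.exists_fin hy hε
  choose! m hm using S.loc X'
  exact ⟨F.sup m, fun X k hk z hz hz' => h z hz fun g hg => hz'.comm_u fun a ha =>
    (hm g (hF g hg) X k ((Finset.le_sup hg).trans hk) a ha).symm⟩

lemma in_top (x : A) : L.In x (S.grp S.top) := fun g hg => (hg (by simp [S.grp_top])).elim

lemma tail_approx (n : ℕ) : ∃ a b : G, ∀ z, ‖z‖ ≤ 1 → ∀ ε > 0, ∃ k ∈ S.tail S.top n,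
    t.dev z ≤ t.cm (L.u k) z + 21 * (t.cm (L.u a) z + t.cm (L.u b) z) + ε := by
  obtain ⟨a, -, b, -, B, h, hB⟩ := S.gap S.top n
  refine ⟨a, b, fun z hz ε hε => ?_⟩
  obtain ⟨y, hy, h1, h2⟩ := L.gap (S.tail S.top n) hz (in_top L S z) hB h
  obtain ⟨y', -, h3, k, hk, h4⟩ := L.fc le_rfl (C := {1}) (S.icc n) hy h1 hε
  refine ⟨k, hk, ?_⟩
  have h5 := dev_le t z (t.τ y')
  rw [← h3.eq_smul] at h5
  have h6 := t.cm_le_add (L.norm_u k) y z
  rw [t.n2_sub_comm] at h6
  linarith [t.n2_triangle z y y']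

include L S in
theorem isInfFactor : IsInfFactor A := by
  refine ⟨isFac_of_ball t fun z hz hc => le_of_forall_pos_le_add fun ε hε => ?_, fun h => ?_⟩
  · obtain ⟨a, b, h⟩ := tail_approx L S 0
    obtain ⟨k, -, h⟩ := h z hz ε hε
    simpa [TrState.cm, hc] using h
  · have : Infinite G := Set.infinite_univ_iff.1 ((S.tail_inf 0).mono (Set.subset_univ _))
    exact (LinearIndependent.of_comp t.Λ L.orth.linearIndependent).finite.not_infinite this

lemma exists_tail {n : ℕ} (x : Fin n → A) {ε : ℝ} (hε : 0 < ε) :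
    ∃ m, ∀ k ∈ S.tail S.top m, ∀ i, t.cm (x i) (L.u k) ≤ ε := by
  choose m hm using fun i => loc_alg L S S.top (in_top L S (x i)) hε
  refine ⟨Finset.univ.sup m, fun k hk i => ?_⟩
  rw [t.cm_comm]
  exact hm i _ _ (Finset.le_sup (Finset.mem_univ i)) _ (L.norm_u k) (L.in_u hk)

include L S in
theorem superMcDuff [Countable G] (U : Ultrafilter ℕ) (hU : ∀ n, U ≠ pure n) :
    SuperMcDuff t U := by
  refine (commutantIsII1_iff (upTr t U) _).2 (super_of_PQ t U hU L.separable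
    (fun n ε hε x _ => ?_) fun n d ε hε x _ => ?_)
  · obtain ⟨m, hm⟩ := exists_tail L S x hε
    obtain ⟨a, b, h⟩ := tail_approx L S m
    refine ⟨![L.u a, L.u b, 0, 0, 0, 0, 0], fun j => ?_, fun z hz => ?_⟩
    · fin_cases j <;> simp [L.norm_u]
    obtain ⟨k, hk, h⟩ := h z hz ε hε
    refine ⟨L.u k, L.norm_u k, hm k hk, h.trans ?_⟩
    have : ∑ j, t.cm (![L.u a, L.u b, 0, 0, 0, 0, 0] j) z = t.cm (L.u a) z + t.cm (L.u b) z := by
      simp [Fin.sum_univ_succ, TrState.cm]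
    rw [this]
    linarith [t.cm_nonneg (L.u a) z, t.cm_nonneg (L.u b) z]
  · obtain ⟨m, hm⟩ := exists_tail L S x hε
    let f := (S.tail_inf m).natEmbedding
    let r : ℝ := (√((d : ℝ) + 1))⁻¹
    have hr0 : 0 ≤ r := by positivity
    have hr1 : r ≤ 1 := inv_le_one_of_one_le₀ (Real.one_le_sqrt.2 (by linarith [d.cast_nonneg (α := ℝ)]))
    have hr2 : (r : ℂ) * r = 1 / ((d : ℂ) + 1) := by
      rw [← Complex.ofReal_mul, ← mul_inv, Real.mul_self_sqrt (by positivity)]; simp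
    refine ⟨fun a => (r : ℂ) • L.u (f a), fun a => ?_, fun i a => ?_, fun a b => ?_⟩
    · rw [norm_smul, Complex.norm_real, Real.norm_of_nonneg hr0]
      exact mul_le_one₀ hr1 (norm_nonneg _) (L.norm_u _)
    · rw [TrState.cm, mul_smul_comm, smul_mul_assoc, ← smul_sub, t.n2_smul, Complex.norm_real,
        Real.norm_of_nonneg hr0]
      exact (mul_le_of_le_one_left (t.n2_nonneg _) hr1).trans (hm _ (f a).2 i)
    · rw [star_smul, smul_mul_smul_comm, map_smul, L.τ_star_mul, Complex.star_def,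
        Complex.conj_ofReal, hr2]
      by_cases hab : a = b
      · simp [hab, hε.le]
      · rw [if_neg hab, if_neg fun h => hab (Fin.ext (f.injective (Subtype.ext h)))]
        simp [hε.le]

end Pool.Agent.P.MP_a6af55_an
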