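import Pool.Agent.P.MP_a6af55_an.Raag

namespace Pool.Agent.P.MP_a6af55_an

open scoped Classical

/-- Letters attached to the nodes of the tree of finite sequences. -/
structure Lt (β : ℕ → Bool) where
  w : List ℕ
  k : Option (ℕ × Bool)
  h : k = none → β w.length = true

variable {β : ℕ → Bool}

lemma Lt.ext' {l l' : Lt β} (h : l.w = l'.w) (h' : l.k = l'.k) : l = l' := by
  cases l; cases l'; simp_all

instance : Countable (Lt β) :=
  Function.Injective.countable (f := fun l : Lt β => (l.w, l.k))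
    fun _ _ h => Lt.ext' (congrArg Prod.fst h) (congrArg Prod.snd h)

/-- The commutation relation. -/
def Rel (l l' : Lt β) : Prop := (¬ l.w <:+ l'.w ∧ ¬ l'.w <:+ l.w) ∨ (l.k = none ∧ l.w <:+ l'.w) ∨
  ∃ j s i, l.k = some (j, s) ∧ j ≤ i ∧ i :: l.w <:+ l'.w

variable (β) in
/-- The commutation graph. -/
def Gr : SimpleGraph (Lt β) := SimpleGraph.fromRel Rel

lemma cm_of {l l' : Lt β} (h : Rel l l') : Cm (Gr β) l l' := by
  by_cases e : l = l'
  exacts [Or.inl e, Or.inr ⟨e, Or.inl h⟩]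

lemma suf_eq {v v' w : List ℕ} (h : v <:+ w) (h' : v' <:+ w) (hl : v.length = v'.length) :
    v = v' := (List.suffix_of_suffix_length_le h h' hl.le).eq_of_length hl

lemma zc {l l' : Lt β} (h : l.k = none) (h' : l'.k = none ∨ l.w.length ≤ l'.w.length) :
    Cm (Gr β) l l' := by
  wlog h1 : l.w.length ≤ l'.w.length generalizing l l'
  · exact (this (h'.resolve_right h1) (Or.inl h) (by omega)).symm
  by_cases h2 : l.w <:+ l'.w
  · exact cm_of (Or.inr (Or.inl ⟨h, h2⟩))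
  · exact cm_of (Or.inl ⟨h2, fun h3 => h2 (h3.eq_of_length_le h1 ▸ List.suffix_rfl)⟩)

lemma inc {l l' : Lt β} {v v' : List ℕ} (hv : v ≠ v') (hl : v.length = v'.length) (h : v <:+ l.w)
    (h' : v' <:+ l'.w) : Cm (Gr β) l l' :=
  cm_of (Or.inl ⟨fun h1 => hv (suf_eq (h.trans h1) h' hl), fun h1 => hv (suf_eq h (h'.trans h1) hl)⟩)

lemma exists_child {v w : List ℕ} (h : v <:+ w) (hne : w ≠ v) : ∃ i, i :: v <:+ w := by
  obtain ⟨t, rfl⟩ := h
  rcases t.eq_nil_or_concat with rfl | ⟨t, i, rfl⟩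
  · simp at hne
  · exact ⟨i, t, by simp⟩

/-- The free letters. -/
def xl (w : List ℕ) (j : ℕ) (s : Bool) : Lt β := ⟨w, some (j, s), nofun⟩

/-- The link of the free letters. -/
def KK (w : List ℕ) (j : ℕ) : Set (Lt β) :=
  {l | Rel l (xl w j true) ∨ ∃ i, j ≤ i ∧ i :: w <:+ l.w}

lemma mem_KK {w : List ℕ} {j : ℕ} {l : Lt β} (h : w <:+ l.w) (hl : l ∈ KK w j) :
    (l.k = none ∧ l.w = w) ∨ ∃ i, j ≤ i ∧ i :: w <:+ l.w := by
  rcases hl with (h1 | h1 | ⟨_, _, i, _, _, h1⟩) | h1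
  · exact (h1.2 h).elim
  · exact Or.inl ⟨h1.1, h1.2.eq_of_length_le h.length_le⟩
  · have := (h1.trans h).length_le
    simp at this
  · exact Or.inr h1

lemma xl_not_mem (w : List ℕ) (j : ℕ) (s : Bool) : (xl w j s : Lt β) ∉ KK w j := fun h => by
  rcases mem_KK List.suffix_rfl h with h | ⟨i, -, h⟩
  · exact nomatch h.1
  · simpa [xl] using h.length_le

lemma adj_x (w : List ℕ) (j : ℕ) (s : Bool) (l : Lt β) :
    (Gr β).Adj l (xl w j s) ↔ l ∈ KK w j := by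
  constructor
  · rintro ⟨-, h | h | h | ⟨_, _, i, h1, h2, h⟩⟩
    · exact Or.inl h
    · exact Or.inl (Or.inl h.symm)
    · exact nomatch h.1
    · obtain ⟨rfl, -⟩ : j = _ ∧ s = _ := by simpa [xl] using h1
      exact Or.inr ⟨i, h2, h⟩
  · intro h
    refine ⟨fun e => xl_not_mem w j s (e ▸ h), h.imp id fun ⟨i, h1, h2⟩ => ?_⟩
    exact Or.inr (Or.inr ⟨j, s, i, rfl, h1, h2⟩)

lemma pp_x (w : List ℕ) (j : ℕ) : PP (gen (Gr β) (xl w j true)) (gen (Gr β) (xl w j false))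
    (sub (Gr β) (KK w j) : Set (RG (Gr β)))ᶜ :=
  pp_gen (by simp [xl]) (adj_x w j true) (adj_x w j false) (xl_not_mem w j false)

lemma mem_compl {L : Type} {Γ : SimpleGraph L} {A : Set L} {l : L} (h : l ∉ A) {g : RG Γ}
    (hg : g ∈ sub Γ A) : g ∈ sub Γ {l}ᶜ :=
  sub_mono (Set.subset_compl_singleton_iff.2 h) hg

lemma esc {A : Set (Lt β)} {v : List ℕ} (hA : ∀ l : Lt β, v <:+ l.w → l ∈ A) {l : Lt β}
    (h : v <:+ l.w) (h' : ¬ (l.k = none ∧ l.w = v)) {g : RG (Gr β)} (hg : g ∉ sub (Gr β) {l}ᶜ) :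
    Esc (sub (Gr β) A) g := by
  obtain ⟨j, hj⟩ : ∃ j, l ∉ KK v j := by
    by_cases e : l.w = v
    · refine ⟨0, fun hl => (mem_KK h hl).elim h' fun ⟨i, _, h1⟩ => ?_⟩
      simpa [e] using h1.length_le
    · obtain ⟨i, hi⟩ := exists_child h e
      refine ⟨i + 1, fun hl => (mem_KK h hl).elim h' fun ⟨i', h1, h2⟩ => ?_⟩
      have := suf_eq hi h2 rfl
      simp only [List.cons.injEq, and_true] at this
      omega
  exact ⟨_, gen_mem (hA _ List.suffix_rfl), _, gen_mem (hA _ List.suffix_rfl), _, pp_x v j,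
    fun h1 => hg (mem_compl hj h1)⟩

/-- Pieces. -/
structure Piece (n : ℕ) where
  J : Finset (List ℕ)
  Z : Set (List ℕ)
  ne : J.Nonempty
  hJ : ∀ w ∈ J, w.length = n
  hZ : ∀ w ∈ Z, w.length ≤ n

namespace Piece

variable (β) {n : ℕ} (X : Piece n)

/-- Letters of a piece. -/
def lts : Set (Lt β) := {l | (∃ w ∈ X.J, w <:+ l.w) ∨ (l.k = none ∧ l.w ∈ X.Z)}

/-- Central letters of the tails. -/
def zs : Set (Lt β) := {l | l.k = none ∧ (l.w ∈ X.Z ∨ l.w ∈ X.J)}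

/-- Letters of a tail. -/
def tl (m : ℕ) : Set (Lt β) := {l | (∃ w ∈ X.J, ∃ i, m ≤ i ∧ i :: w <:+ l.w) ∨ l ∈ X.zs β}

/-- Blocks. -/
def block (m d : ℕ) : Piece (n + 1) where
  J := Finset.image₂ List.cons (Finset.Ico m (m + d + 1)) X.J
  Z := {v | (v ∈ X.Z ∨ v ∈ X.J) ∨ ∃ w ∈ X.J, ∃ i, m + d + 1 ≤ i ∧ v = i :: w}
  ne := (Finset.nonempty_Ico.2 (by omega)).image₂ X.ne
  hJ v hv := by
    obtain ⟨i, -, w, hw, rfl⟩ := Finset.mem_image₂.1 hv
    simp [X.hJ w hw]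
  hZ := by
    rintro v ((h | h) | ⟨w, hw, i, -, rfl⟩)
    · exact (X.hZ v h).trans n.le_succ
    · exact (X.hJ v h).trans_le n.le_succ
    · simp [X.hJ w hw]

variable {β X}

lemma zs_len {l : Lt β} (h : l ∈ X.zs β) : l.w.length ≤ n :=
  h.2.elim (X.hZ _) fun h => (X.hJ _ h).le

lemma lts_len {l : Lt β} (h : l ∈ X.lts β) : l.k = none ∨ n ≤ l.w.length :=
  h.elim (fun ⟨w, hw, h⟩ => Or.inr (X.hJ w hw ▸ h.length_le)) fun h => Or.inl h.1

lemma tl_len {l : Lt β} {m : ℕ} (h : l ∈ X.tl β m) : l.k = none ∨ n + 1 ≤ l.w.length :=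
  h.elim (fun ⟨w, hw, _, _, h⟩ => Or.inr (X.hJ w hw ▸ h.length_le)) fun h => Or.inl h.1

lemma zs_comm {X' : Piece n} : ∀ a ∈ X.zs β, ∀ b ∈ X'.lts β, Cm (Gr β) a b :=
  fun _ ha _ hb => zc ha.1 ((lts_len hb).imp id (zs_len ha).trans)

lemma tl_sub (m : ℕ) : X.tl β m ⊆ X.lts β := by
  rintro l (⟨w, hw, i, -, h⟩ | ⟨h, h' | h'⟩)
  exacts [Or.inl ⟨w, hw, (List.suffix_cons i w).trans h⟩, Or.inr ⟨h, h'⟩,
    Or.inl ⟨_, h', List.suffix_rfl⟩]

lemma loc_letter {X' : Piece n} {a : Lt β} (ha : a ∈ X'.lts β) :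
    ∃ m0, ∀ (X : Piece n) m, m0 ≤ m → ∀ l ∈ X.tl β m, Cm (Gr β) a l := by
  have key : ∀ m0, (∀ w i (l : Lt β), w.length = n → m0 ≤ i → i :: w <:+ l.w → Cm (Gr β) a l) →
      ∃ m0, ∀ (X : Piece n) m, m0 ≤ m → ∀ l ∈ X.tl β m, Cm (Gr β) a l := fun m0 h =>
    ⟨m0, fun X m hm l hl => hl.elim (fun ⟨w, hw, i, h1, h2⟩ => h w i l (X.hJ w hw) (hm.trans h1) h2)
      fun hl => (zs_comm l hl a ha).symm⟩
  by_cases h1 : a.w.length ≤ n
  · rcases hk : a.k with _ | ⟨j, s⟩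
    · refine key 0 fun w i l hw _ h => zc hk (Or.inr ?_)
      have := h.length_le
      simp only [List.length_cons] at this
      omega
    · have h2 : a.w.length = n := h1.antisymm ((lts_len ha).resolve_left (by simp [hk]))
      refine key j fun w i l hw hi h => ?_
      by_cases e : a.w = w
      · exact cm_of (Or.inr (Or.inr ⟨j, s, i, hk, hi, e ▸ h⟩))
      · exact inc e (h2.trans hw.symm) List.suffix_rfl ((List.suffix_cons i w).trans h)
  · obtain ⟨w', hw', h2⟩ := ha.resolve_right fun h => h1 (X'.hZ _ h.2)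
    obtain ⟨i', h3⟩ := exists_child h2 fun e => h1 (e ▸ (X'.hJ _ hw').le)
    refine key (i' + 1) fun w i l hw hi h => inc (fun e => ?_) (by simp [hw, X'.hJ _ hw']) h3 h
    simp only [List.cons.injEq] at e
    omega

lemma exists_prod (m : ℕ) (s : Bool) (J : Finset (List ℕ)) (hJ : ∀ w ∈ J, w.length = n) :
    ∃ a ∈ sub (Gr β) {l | ∃ w ∈ J, w <:+ l.w}, ∀ w : List ℕ, w.length = n →
      ret (Gr β) {l | w <:+ l.w} a = if w ∈ J then gen (Gr β) (xl w m s) else 1 := by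
  induction J using Finset.induction_on with
  | empty => exact ⟨1, one_mem _, by simp⟩
  | insert v J hv ih =>
    obtain ⟨a, h1, h2⟩ := ih fun w hw => hJ w (Finset.mem_insert_of_mem hw)
    refine ⟨gen _ (xl v m s) * a, mul_mem (gen_mem ⟨v, Finset.mem_insert_self _ _, List.suffix_rfl⟩)
      (sub_mono ?_ h1), fun w hw => ?_⟩
    · exact fun l ⟨w, hw, h⟩ => ⟨w, Finset.mem_insert_of_mem hw, h⟩
    rw [map_mul, h2 w hw, ret_gen]
    by_cases e : w = v
    · simp [e, hv, xl]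
    · have : ¬ w <:+ v := fun h =>
        e (h.eq_of_length (hw.trans (hJ v (Finset.mem_insert_self _ _)).symm))
      simp [e, this, xl]

lemma gap (X : Piece n) (m : ℕ) : ∃ a ∈ sub (Gr β) (X.lts β), ∃ b ∈ sub (Gr β) (X.lts β), ∃ B,
    PP a b B ∧ ∀ g ∈ sub (Gr β) (X.lts β), g ∉ sub (Gr β) (X.tl β m) → g ∈ B := by
  obtain ⟨a, h1, h2⟩ := exists_prod (β := β) m true X.J X.hJ
  obtain ⟨b, h3, h4⟩ := exists_prod (β := β) m false X.J X.hJ
  refine ⟨a, sub_mono (fun _ => Or.inl) h1, b, sub_mono (fun _ => Or.inl) h3, _,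
    PP.prod X.J (fun w => ret (Gr β) {l | w <:+ l.w}) a b
      (fun w => (sub (Gr β) (KK w m) : Set (RG (Gr β)))ᶜ) fun w hw => ?_, fun g hg hg' => ?_⟩
  · rw [h2 w (X.hJ w hw), h4 w (X.hJ w hw), if_pos (Finset.mem_coe.1 hw),
      if_pos (Finset.mem_coe.1 hw)]
    exact pp_x w m
  by_contra hne
  refine hg' (mem_of_forall fun l hl => ?_)
  by_cases h : l ∈ X.lts β
  swap
  · exact mem_compl h hg
  obtain ⟨w, hw, h⟩ := h.resolve_right fun h => hl (Or.inr ⟨h.1, Or.inl h.2⟩)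
  rw [split (B := {l | w <:+ l.w}) ?_ hg]
  · refine mul_mem (mem_compl (A := KK w m) (fun ha => hl ?_) (not_not.1 fun h' => hne ⟨w, hw, h'⟩))
      (mem_compl (not_not_intro h) (ret_mem _ _))
    rcases mem_KK h ha with h' | h'
    exacts [Or.inr ⟨h'.1, Or.inr (h'.2 ▸ hw)⟩, Or.inl ⟨w, hw, h'⟩]
  · rintro a ⟨ha, -⟩ b ⟨hb, ⟨w', hw', hb'⟩ | hb'⟩
    · exact inc (fun e : w = w' => hb (e ▸ hb')) ((X.hJ w hw).trans (X.hJ w' hw').symm) ha hb'
    · exact (zc hb'.1 (Or.inr ((X.hZ _ hb'.2).trans (X.hJ w hw ▸ ha.length_le)))).symm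

lemma esc_of {A C : Set (Lt β)} {K : Subgroup (RG (Gr β))}
    (h : ∀ l ∈ A, l ∉ C → ∀ g ∉ sub (Gr β) {l}ᶜ, Esc K g) :
    ∀ g ∈ sub (Gr β) A, g ∉ sub (Gr β) C → Esc K g := fun g hg hg' => by
  by_contra hne
  refine hg' (mem_of_forall fun l hl => ?_)
  by_cases h1 : l ∈ A
  · exact not_not.1 fun h2 => hne (h l h1 hl g h2)
  · exact mem_compl h1 hg

lemma fc0 (hβ : β (n + 1) = false) (X : Piece n) (m : ℕ) : ∀ g ∈ sub (Gr β) (X.tl β m),
    g ∉ sub (Gr β) (X.zs β) → Esc (sub (Gr β) (X.tl β m)) g :=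
  esc_of fun l hl hl' g hg => by
    obtain ⟨w, hw, i, hi, h⟩ := hl.resolve_right hl'
    refine esc (fun l h => Or.inl ⟨w, hw, i, hi, h⟩) h (fun h' => ?_) hg
    have := l.h h'.1
    simp [h'.2, X.hJ w hw, hβ] at this

end Piece

open Piece in
/-- The system of pieces of the tree group. -/
noncomputable def treeSys (h0 : β 0 = false) (h1 : β 1 = false) :
    Sys (RG (Gr β)) fun n => β (n + 1) where
  Pc := Piece
  grp X := sub _ (X.lts β)
  tail X m := sub _ (X.tl β m)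
  block X := X.block
  top := ⟨{[]}, ∅, by simp, by simp, by simp⟩
  grp_top := by
    rw [← sub_univ]
    congr 1
    exact Set.eq_univ_of_forall fun l => Or.inl ⟨[], by simp, List.nil_suffix⟩
  tail_le X m := sub_mono (tl_sub m)
  tail_anti X _ _ h := sub_mono fun l hl =>
    hl.imp (fun ⟨w, hw, i, h1, h2⟩ => ⟨w, hw, i, h.trans h1, h2⟩) id
  gap := gap
  loc X' g hg := by
    induction hg using Subgroup.closure_induction with
    | mem _ h =>
      obtain ⟨a, ha, rfl⟩ := h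
      obtain ⟨m0, h⟩ := loc_letter ha
      exact ⟨m0, fun X m hm => comm_sub (A := {a}) (fun _ e => e ▸ h X m hm) _ (gen_mem rfl)⟩
    | one => exact ⟨0, fun _ _ _ _ _ => Commute.one_left _⟩
    | mul _ _ _ _ h h' =>
      obtain ⟨m1, h⟩ := h
      obtain ⟨m2, h'⟩ := h'
      exact ⟨max m1 m2, fun X m hm k hk => (h X m (le_of_max_le_left hm) k hk).mul_left
        (h' X m (le_of_max_le_right hm) k hk)⟩
    | inv _ _ h => exact h.imp fun m h X m hm k hk => (h X m hm k hk).inv_left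
  block_le X m d := sub_mono (by
    rintro l (⟨v, hv, h⟩ | ⟨h, h' | ⟨w, hw, i, hi, h'⟩⟩)
    · obtain ⟨i, hi, w, hw, rfl⟩ := Finset.mem_image₂.1 hv
      exact Or.inl ⟨w, hw, i, (Finset.mem_Ico.1 hi).1, h⟩
    · exact Or.inr ⟨h, h'⟩
    · exact Or.inl ⟨w, hw, i, by omega, h' ▸ List.suffix_rfl⟩)
  block_comm X X' m d := comm_sub (by
    rintro a ha b (⟨w', hw', i', hi', hb⟩ | hb)
    · rcases ha with ⟨v, hv, h⟩ | h
      · obtain ⟨i, hi, w, hw, rfl⟩ := Finset.mem_image₂.1 hv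
        refine inc (fun e => ?_) (by simp [X.hJ w hw, X'.hJ w' hw']) h hb
        have := (Finset.mem_Ico.1 hi).2
        simp only [List.cons.injEq] at e
        omega
      · exact zc h.1 (Or.inr (((X.block m d).hZ _ h.2).trans (X'.hJ w' hw' ▸ hb.length_le)))
    · exact (zc hb.1 ((lts_len ha).imp id fun h => (zs_len hb).trans (by omega))).symm)
  fc X m d := esc_of fun l hl hl' g hg => by
    obtain ⟨w, hw, i, hi, h⟩ := hl.resolve_right fun h => hl' (Or.inr ⟨h.1, Or.inl h.2⟩)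
    have hi' : m + d + 1 ≤ i := not_lt.1 fun h' => hl'
      (Or.inl ⟨_, Finset.mem_image₂_of_mem (Finset.mem_Ico.2 ⟨hi, h'⟩) hw, h⟩)
    exact esc (fun l h => Or.inl ⟨w, hw, i, hi', h⟩) h
      (fun h' => hl' (Or.inr ⟨h'.1, Or.inr ⟨w, hw, i, hi', h'.2⟩⟩)) hg
  bit_true {n} hβ X m := by
    obtain ⟨w, hw⟩ := X.ne
    let z : Lt β := ⟨m :: w, none, fun _ => by simpa [X.hJ w hw] using hβ⟩
    refine ⟨gen _ z, gen_mem (Or.inl ⟨w, hw, m, le_rfl, List.suffix_rfl⟩),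
      fun X' m' => comm_sub (A := {z}) (fun _ e b hb => e ▸ zc rfl ?_) _ (gen_mem rfl),
      gen _ (xl w (m + 1) true), gen_mem (Or.inl ⟨w, hw, List.suffix_rfl⟩), not_comm ?_⟩
    · simpa [z, X.hJ w hw] using tl_len hb
    · rintro (h | h)
      · exact nomatch congrArg Lt.k h
      · rcases mem_KK (List.suffix_cons m w) ((adj_x _ _ _ _).1 h) with h | ⟨i, h1, h2⟩
        · simpa [z] using h.2
        · have := h2.eq_of_length rfl
          simp only [z, List.cons.injEq, and_true] at this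
          omega
  bit_false hβ X m := ⟨_, comm_sub zs_comm, fc0 hβ X m⟩
  icc m g hg hne := fc0 h1 _ m g hg fun h => hne (by
    have : ∀ X : Piece 0, X.zs β = ∅ := fun X => Set.eq_empty_of_forall_notMem fun l hl => by
      have := l.h hl.1
      rw [Nat.le_zero.1 (zs_len hl), h0] at this
      exact nomatch this
    simpa [this, sub_empty] using h)
  tail_inf m := sub_infinite (a := xl [m] 0 true) (Or.inl ⟨[], by simp, m, le_rfl, List.suffix_rfl⟩)

end Pool.Agent.P.MP_a6af55_an
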