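import Pool.Agent.P.MP_a6af55_an.LG

namespace Pool.Agent.P.MP_a6af55_an

open Pool.Agent.Lib.Tracial
open scoped ComplexOrder InnerProductSpace ComplexConjugate
open Filter Topology

universe u

variable {A C : Type*} [CStarAlgebra A] [CStarAlgebra C] {G : Type*} [Group G] {t : TrState A}
  {s : TrState C}

section ext

variable (L : GrpAlg G t) (R : GrpRep G s) (V : t.L2 →ₗᵢ[ℂ] s.L2)
  (hV : ∀ g, V (t.Λ (L.u g)) = s.Λ (R.u g))

include hV

lemma V_rmul (g : G) (ξ : t.L2) : V (t.rmul (L.u g) ξ) = s.rmul (R.u g) (V ξ) := by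
  have : V.toContinuousLinearMap.comp (t.rmul (L.u g)) =
      (s.rmul (R.u g)).comp V.toContinuousLinearMap := hb_ext L.basis fun h => by
    simp [L.basis_apply, ← map_mul, hV]
  exact congrArg (fun T : t.L2 →L[ℂ] s.L2 => T ξ) this

lemma V_π {p : A} {b : C} (h : V (t.Λ p) = s.Λ b) (ξ : t.L2) : V (t.π p ξ) = s.π b (V ξ) := by
  have : V.toContinuousLinearMap.comp (t.π p) = (s.π b).comp V.toContinuousLinearMap :=
    hb_ext L.basis fun g => by
      have := V_rmul L R V hV g (t.Λ p)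
      simpa [L.basis_apply, hV, h] using this
  exact congrArg (fun T : t.L2 →L[ℂ] s.L2 => T ξ) this

lemma V_one : V (t.Λ 1) = s.Λ 1 := by simpa using hV 1

lemma V_mul {p q : A} {b c : C} (h : V (t.Λ p) = s.Λ b) (h' : V (t.Λ q) = s.Λ c) :
    V (t.Λ (p * q)) = s.Λ (b * c) := by
  rw [← t.π_Λ, V_π L R V hV h, h', s.π_Λ]

omit hV in
lemma V_n2 {p : A} {b : C} (h : V (t.Λ p) = s.Λ b) : s.n2 b = t.n2 p := by
  rw [← s.norm_Λ, ← h, V.norm_map, t.norm_Λ]

lemma V_star {p : A} {b : C} (h : V (t.Λ p) = s.Λ b) : V (t.Λ (star p)) = s.Λ (star b) := by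
  have h1 : ⟪V (t.Λ (star p)), s.Λ (star b)⟫_ℂ = (t.n2 p ^ 2 : ℝ) := by
    rw [← mul_one (star b), ← s.π_Λ, map_star s.π, ContinuousLinearMap.star_eq_adjoint,
      ContinuousLinearMap.adjoint_inner_right, ← V_π L R V hV h, ← V_one L R V hV,
      V.inner_map_map, t.π_Λ, t.inner_Λ, t.n2_sq', mul_one, star_mul, star_star, t.trace]
  rw [← sub_eq_zero, ← norm_eq_zero, ← pow_eq_zero_iff two_ne_zero, @norm_sub_sq ℂ, h1, V.norm_map,
    t.norm_Λ, s.norm_Λ, t.n2_star, s.n2_star, V_n2 V h]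
  simp only [RCLike.re_to_complex, Complex.ofReal_re]
  ring

lemma V_exists [s.W] (x : A) : ∃ b, V (t.Λ x) = s.Λ b := by
  wlog hx : ‖x‖ ≤ 1 generalizing x
  · have h0 : (‖x‖ : ℂ) ≠ 0 := by
      have : 0 < ‖x‖ := by linarith
      exact_mod_cast this.ne'
    obtain ⟨a, ha⟩ := this ((‖x‖ : ℂ)⁻¹ • x) (by
      rw [norm_smul, norm_inv, Complex.norm_real, norm_norm]
      exact inv_mul_le_one_of_le₀ le_rfl (norm_nonneg _))
    exact ⟨(‖x‖ : ℂ) • a, by rw [map_smul, ← ha, map_smul, map_smul, smul_inv_smul₀ h0]⟩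
  let B : StarSubalgebra ℂ C :=
    { carrier := {b | ∃ p, V (t.Λ p) = s.Λ b}
      mul_mem' := fun ⟨_, h⟩ ⟨_, h'⟩ => ⟨_, V_mul L R V hV h h'⟩
      add_mem' := fun ⟨p, h⟩ ⟨q, h'⟩ => ⟨p + q, by simp [h, h']⟩
      algebraMap_mem' := fun c => ⟨c • 1, by
        simp [Algebra.algebraMap_eq_smul_one, V_one L R V hV]⟩
      star_mem' := fun ⟨_, h⟩ => ⟨_, V_star L R V hV h⟩ }
  have h1 : V (t.Λ x) ∈ closure (s.Λ '' B.topologicalClosure) := by
    refine mem_closure_of_tendsto ((L.hasSum_c x).mapL V.toContinuousLinearMap)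
      (Eventually.of_forall fun F => ⟨∑ g ∈ F, L.c x g • R.u g, subset_closure
        ⟨∑ g ∈ F, L.c x g • L.u g, by simp [hV]⟩, by simp [hV]⟩)
  have hc := GrpAlg.cont_Λ s
  have h2 := s.key _ B.isClosed_topologicalClosure _ h1 fun b₁ h₁ b₂ h₂ => by
    have := map_mem_closure₂ (f := fun b₁ b₂ : C => ‖s.Λ b₁‖ * ‖s.Λ b₂‖ -
      ‖⟪s.Λ (b₁ * b₂), V (t.Λ x)⟫_ℂ‖) (u := Set.Ici 0) (by
        unfold Function.uncurry; fun_prop) h₁ h₂ (by
      rintro b₁ ⟨p₁, h₁⟩ b₂ ⟨p₂, h₂⟩
      rw [Set.mem_Ici, sub_nonneg, ← V_mul L R V hV h₁ h₂, V.inner_map_map, s.norm_Λ, s.norm_Λ,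
        V_n2 V h₁, V_n2 V h₂]
      exact t.key_hyp hx _ _)
    rwa [closure_Ici, Set.mem_Ici, sub_nonneg] at this
  obtain ⟨a, -, ha⟩ := s.exists_of_mem_closure (fun a ha => ha.2) h2
  exact ⟨a, ha.symm⟩

end ext

theorem exists_hom (L : GrpAlg G t) (R : GrpRep G s) [s.W] :
    ∃ φ : A →⋆ₐ[ℂ] C, ∀ a, s.τ (φ a) = t.τ a := by
  obtain ⟨V, hV⟩ := exists_isom L.basis R.orth
  simp only [L.basis_apply] at hV
  choose f hf using V_exists L R V hV
  have h1 := V_one L R V hV
  refine ⟨{ toFun := f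
            map_one' := s.Λ_injective (by rw [← hf, h1])
            map_mul' := fun a b => s.Λ_injective (by rw [← hf, V_mul L R V hV (hf a) (hf b)])
            map_zero' := s.Λ_injective (by simp [← hf])
            map_add' := fun a b => s.Λ_injective (by simp [← hf])
            commutes' := fun c => s.Λ_injective (by
              simp [← hf, Algebra.algebraMap_eq_smul_one, h1])
            map_star' := fun a => s.Λ_injective (by rw [← hf, V_star L R V hV (hf a)]) },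
    fun a => ?_⟩
  have := V.inner_map_map (t.Λ 1) (t.Λ a)
  rw [h1, hf, s.inner_Λ, t.inner_Λ, star_one, star_one, one_mul, one_mul] at this
  exact this

lemma exists_fin_rep [s.W] (hC : IsInfFactor C) (N : Subgroup G) [N.Normal] [N.FiniteIndex] :
    ∃ v : G →* C, (∀ g, star (v g) = v g⁻¹) ∧ ∀ g ∉ N, s.τ (v g) = 0 := by
  classical
  let _ := Fintype.ofFinite (G ⧸ N)
  obtain ⟨ψ⟩ := s.exists_matrix hC (G ⧸ N)
  refine ⟨{ toFun g := ψ (pm (Equiv.mulLeft (g : G ⧸ N)))
            map_one' := ?_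
            map_mul' g h := ?_ }, fun g => ?_, fun g hg => ?_⟩
  · rw [← map_one ψ]; congr 1; ext i j; simp [pm, Matrix.one_apply]
  · rw [← map_mul ψ]; congr 1; ext i j; rw [mul_pm]; simp [pm, mul_assoc]
  · change star (ψ _) = ψ _
    rw [← map_star, star_pm, Equiv.mulLeft_symm, QuotientGroup.mk_inv]
  · change s.τ (ψ _) = 0
    rw [Matrix.matrix_eq_sum_single (pm _)]
    simp only [map_sum]
    refine Finset.sum_eq_zero fun i _ => Finset.sum_eq_zero fun j _ => ?_
    by_cases h : i = j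
    · simp [pm, h, hg]
    · have e : ∀ c : ℂ, Matrix.single i j c = Matrix.single i i 1 * Matrix.single i j c := by simp
      rw [e, map_mul, s.trace, ← map_mul, Matrix.single_mul_single_of_ne _ _ _ _ (Ne.symm h),
        map_zero, map_zero]

theorem embedsUltra {A C : Type u} [CStarAlgebra A] [CStarAlgebra C] {t : TrState A} [t.W]
    (s : TrState C) [s.W] (hC : IsInfFactor C) [Countable G] (L : GrpAlg G t)
    (hG : ∀ g : G, g ≠ 1 → Det g) (U : Ultrafilter ℕ) (hU : ∀ n, U ≠ pure n) :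
    EmbedsUltra t s U := by
  obtain ⟨e, he⟩ := exists_surjective_nat G
  choose N h1 h2 h3 using fun n : ℕ => exists_common (e '' {i | i ≤ n} \ {1})
    (((Set.finite_le_nat n).image _).diff) fun g hg => hG g hg.2
  choose v hv hv' using fun n => exists_fin_rep (s := s) hC (N n)
  have hn : ∀ g n, ‖v n g‖ ≤ 1 := fun g n => norm_unitary_le
    ⟨by rw [hv, ← map_mul, inv_mul_cancel, map_one], by rw [hv, ← map_mul, mul_inv_cancel, map_one]⟩
  let R : GrpRep G (upTr s U) :=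
    { u :=
        { toFun g := mkU s U (BB.mk (fun n => v n g) 1 (hn g))
          map_one' := by rw [← map_one (mkU s U)]; congr 1; ext n; exact map_one (v n)
          map_mul' g h := by rw [← map_mul (mkU s U)]; congr 1; ext n; exact map_mul (v n) g h }
      star_u g := by
        change star (mkU s U _) = mkU s U _
        rw [← map_star]; congr 1; ext n; exact hv n g
      τ_u g hg := by
        refine tendsto_nhds_unique (tendsto_τ s U _) (tendsto_const_nhds.congr' ?_)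
        obtain ⟨i, rfl⟩ := he g
        filter_upwards [le_atTop U hU (eventually_ge_atTop i)] with n hn
        exact (hv' n _ (h3 n _ ⟨⟨i, hn, rfl⟩, hg⟩)).symm }
  obtain ⟨φ, hφ⟩ := exists_hom L R
  refine ⟨φ, (injective_iff_map_eq_zero φ).2 fun a ha => t.eq_zero_of_n2 ?_, fun a x hx => ?_⟩
  · rw [← TrState.n2_map _ φ hφ, ha, TrState.n2_zero]
  · obtain ⟨y, h4, h5⟩ := mkQ_eq s U x
    rw [← hφ, hx, ← h5]
    simpa only [h4] using tendsto_τ s U y

end Pool.Agent.P.MP_a6af55_an
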