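import Pool.Agent.P.MP_a6af55_an.Sys

namespace Pool.Agent.P.MP_a6af55_an

open FreeGroup

section sw

variable {α : Type*} [DecidableEq α]

lemma sw_mul (m : α × Bool) (f : FreeGroup α) : ∀ l, f * mk [m] ∈ startsWith l →
    f ∈ startsWith l ∨ (f = 1 ∧ m = l) := by
  obtain ⟨L, hL, rfl⟩ : ∃ L, IsReduced L ∧ f = mk L := ⟨_, isReduced_toWord, mk_toWord.symm⟩
  induction L with
  | nil =>
    intro l h
    exact Or.inr ⟨rfl, by simpa [startsWith, ← one_eq_mk] using h⟩
  | cons x L ih =>
    intro l h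
    have hL' : IsReduced L := List.IsChain.tail hL
    have h1 : mk (x :: L) ∈ startsWith x := by simp [startsWith, hL.reduce_eq]
    have e : mk (x :: L) = mk [x] * mk L := rfl
    by_cases h2 : mk L * mk [m] ∈ startsWith (x.1, !x.2)
    · exfalso
      rcases ih hL' _ h2 with h3 | ⟨h3, rfl⟩
      · simp only [startsWith, Set.mem_setOf_eq, toWord_mk, hL'.reduce_eq] at h3
        rcases L with _ | ⟨y, L⟩
        · simp at h3
        · obtain rfl : y = (x.1, !x.2) := by simpa using h3
          simpa using (isReduced_cons_cons.1 hL).1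
      · refine startsWith.ne_one _ h ?_
        rw [e, h3, mul_one, mul_eq_one_iff_eq_inv, inv_mk]
        simp [invRev]
    · have h3 := startsWith_mk_mul _ h2
      rw [← mul_assoc, ← e] at h3
      by_cases hx : x = l
      · exact Or.inl (hx ▸ h1)
      · exact (Set.disjoint_left.1 (startsWith.disjoint_iff_ne.2 hx) h3 h).elim

lemma sw_conj {x y : α} {s : Bool} {f : FreeGroup α} (h : f ∉ startsWith (x, !s))
    (h' : f = 1 → y ≠ x) : mk [(x, s)] * f * (mk [(y, s)])⁻¹ ∈ startsWith (x, s) := by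
  rw [mul_assoc, inv_mk]
  refine startsWith_mk_mul _ fun h1 => ?_
  rcases sw_mul _ f _ h1 with h2 | ⟨h2, h3⟩
  exacts [h h2, h' h2 (congrArg Prod.fst h3)]

end sw

lemma free_rf {α : Type} {f : FreeGroup α} (hf : f ≠ 1) :
    ∃ (P : Type) (_ : Group P) (_ : Finite P) (σ : FreeGroup α →* P), σ f ≠ 1 := by
  obtain ⟨L⟩ := f
  change mk L ≠ 1 at hf
  let T : Set (FreeGroup α) := mk '' {L' | L' ∈ L.tails}
  have hT : Finite T := ((List.finite_toSet _).image _).to_subtype
  have hm : ∀ L', L' <:+ L → mk L' ∈ T := fun L' h => ⟨L', (List.mem_tails _ _).2 h, rfl⟩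
  have h1 : ∀ y : α, ∃ π : Equiv.Perm T, ∀ a b : T, of y * a.1 = b.1 → π a = b := fun y => by
    obtain ⟨π, hπ⟩ := Equiv.Perm.exists_extending_pair (α := {t : T // of y * t.1 ∈ T})
      (f := Subtype.val) (g := fun t => (⟨_, t.2⟩ : T)) Subtype.val_injective
      fun a b h => Subtype.ext (Subtype.ext (mul_left_cancel (congrArg Subtype.val h)))
    exact ⟨π, fun a b h => (hπ ⟨a, h ▸ b.2⟩).trans (Subtype.ext h)⟩
  choose π hπ using h1
  have h2 : ∀ L' (h : L' <:+ L), lift π (mk L') ⟨_, hm [] List.nil_suffix⟩ = ⟨_, hm L' h⟩ := by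
    intro L' h
    induction L' with
    | nil => rfl
    | cons x L' ih =>
      have e : mk (x :: L') = mk [x] * mk L' := rfl
      have h' := (List.suffix_cons x L').trans h
      conv_lhs => rw [e, MonoidHom.map_mul, Equiv.Perm.mul_apply, ih h']
      obtain ⟨y, _ | _⟩ := x
      · have e2 : mk [(y, false)] = (of y)⁻¹ := rfl
        rw [e2, MonoidHom.map_inv, lift_apply_of, Equiv.Perm.inv_eq_iff_eq]
        exact (hπ y _ _ (by simp only [e, e2, mul_inv_cancel_left])).symm
      · exact (congrArg (fun p : Equiv.Perm T => p _) lift_apply_of).trans (hπ y _ _ rfl)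
  refine ⟨Equiv.Perm T, inferInstance, inferInstance, lift π, fun h => hf ?_⟩
  have := h2 L List.suffix_rfl
  change lift π (mk L) = 1 at h
  rw [h] at this
  exact (congrArg Subtype.val this).symm

end Pool.Agent.P.MP_a6af55_an
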