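import Mathlib

namespace Pool.Agent.P.MP_a6af55_an

variable {G : Type*} [Group G]

/-- Ping-pong data for the conjugation action of two elements on a set. -/
def PP (a b : G) (B : Set G) : Prop :=
  (∀ g, a * g * a⁻¹ ∈ B ↔ g ∈ B) ∧ (∀ g, b * g * b⁻¹ ∈ B ↔ g ∈ B) ∧
  ∃ S P M : Set G, S ⊆ B ∧ P ⊆ B \ S ∧ M ⊆ B \ S ∧ Disjoint P M ∧
    (∀ g ∈ B \ S, a * g * a⁻¹ ∈ S) ∧ (∀ g ∈ S, b * g * b⁻¹ ∈ P) ∧ ∀ g ∈ S, b⁻¹ * g * b ∈ M

/-- An element lies in a ping-pong set of two elements of the subgroup. -/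
def Esc (K : Subgroup G) (g : G) : Prop := ∃ a ∈ K, ∃ b ∈ K, ∃ B, PP a b B ∧ g ∈ B

lemma PP.prod {W : Type*} (J : Set W) (r : W → G →* G) (a b : G) (B : W → Set G)
    (h : ∀ w ∈ J, PP (r w a) (r w b) (B w)) : PP a b {g | ∃ w ∈ J, r w g ∈ B w} := by
  have ha : ∀ g w, (w ∈ J ∧ r w (a * g * a⁻¹) ∈ B w) ↔ (w ∈ J ∧ r w g ∈ B w) := fun g w =>
    and_congr_right fun hw => by rw [map_mul, map_mul, map_inv, (h w hw).1]
  have hb : ∀ g w, (w ∈ J ∧ r w (b * g * b⁻¹) ∈ B w) ↔ (w ∈ J ∧ r w g ∈ B w) := fun g w =>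
    and_congr_right fun hw => by rw [map_mul, map_mul, map_inv, (h w hw).2.1]
  have hb' : ∀ g w, (w ∈ J ∧ r w (b⁻¹ * g * b) ∈ B w) ↔ (w ∈ J ∧ r w g ∈ B w) := fun g w => by
    rw [← hb]; simp [mul_assoc]
  refine ⟨fun g => exists_congr (ha g), fun g => exists_congr (hb g), ?_⟩
  choose! S P M h1 h2 h3 h4 h5 h6 h7 using fun w hw => (h w hw).2.2
  rcases isEmpty_or_nonempty W with hW | hW
  · exact ⟨∅, ∅, ∅, by simp⟩
  let p : G → W := fun g => Classical.epsilon fun w => w ∈ J ∧ r w g ∈ B w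
  have hp : ∀ g, (∃ w ∈ J, r w g ∈ B w) → p g ∈ J ∧ r (p g) g ∈ B (p g) := fun g hg =>
    Classical.epsilon_spec hg
  have pa : ∀ g, p (a * g * a⁻¹) = p g := fun g => by simp only [p, ha]
  have pb : ∀ g, p (b * g * b⁻¹) = p g := fun g => by simp only [p, hb]
  have pb' : ∀ g, p (b⁻¹ * g * b) = p g := fun g => by simp only [p, hb']
  refine ⟨{g | (∃ w ∈ J, r w g ∈ B w) ∧ r (p g) g ∈ S (p g)},
    {g | (∃ w ∈ J, r w g ∈ B w) ∧ r (p g) g ∈ P (p g)},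
    {g | (∃ w ∈ J, r w g ∈ B w) ∧ r (p g) g ∈ M (p g)}, fun g hg => hg.1,
    fun g hg => ⟨hg.1, fun h' => (h2 _ (hp g hg.1).1 hg.2).2 h'.2⟩,
    fun g hg => ⟨hg.1, fun h' => (h3 _ (hp g hg.1).1 hg.2).2 h'.2⟩,
    Set.disjoint_left.2 fun g hg hg' => Set.disjoint_left.1 (h4 _ (hp g hg.1).1) hg.2 hg'.2,
    fun g hg => ⟨(exists_congr (ha g)).2 hg.1, ?_⟩, fun g hg => ⟨(exists_congr (hb g)).2 hg.1, ?_⟩,
    fun g hg => ⟨(exists_congr (hb' g)).2 hg.1, ?_⟩⟩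
  · rw [pa, map_mul, map_mul, map_inv]
    exact h5 _ (hp g hg.1).1 _ ⟨(hp g hg.1).2, fun h' => hg.2 ⟨hg.1, h'⟩⟩
  · rw [pb, map_mul, map_mul, map_inv]
    exact h6 _ (hp g hg.1).1 _ hg.2
  · rw [pb', map_mul, map_mul, map_inv]
    exact h7 _ (hp g hg.1).1 _ hg.2

/-- A system of pieces, tails and blocks in a group. -/
structure Sys (G : Type) [Group G] (bit : ℕ → Bool) where
  Pc : ℕ → Type
  grp : ∀ {l}, Pc l → Subgroup G
  tail : ∀ {l}, Pc l → ℕ → Subgroup G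
  block : ∀ {l}, Pc l → ℕ → ℕ → Pc (l + 1)
  top : Pc 0
  grp_top : grp top = ⊤
  tail_le : ∀ {l} (X : Pc l) n, tail X n ≤ grp X
  tail_anti : ∀ {l} (X : Pc l) {n n'}, n ≤ n' → tail X n' ≤ tail X n
  gap : ∀ {l} (X : Pc l) n, ∃ a ∈ grp X, ∃ b ∈ grp X, ∃ B, PP a b B ∧
    ∀ g ∈ grp X, g ∉ tail X n → g ∈ B
  loc : ∀ {l} (X' : Pc l), ∀ g ∈ grp X', ∃ m0, ∀ (X : Pc l) m, m0 ≤ m →
    ∀ h ∈ tail X m, Commute g h
  block_le : ∀ {l} (X : Pc l) n d, grp (block X n d) ≤ tail X n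
  block_comm : ∀ {l} (X X' : Pc l) n d, ∀ g ∈ grp (block X n d), ∀ h ∈ tail X' (n + d + 1),
    Commute g h
  fc : ∀ {l} (X : Pc l) n d, ∀ g ∈ tail X n, g ∉ grp (block X n d) → Esc (tail X (n + d + 1)) g
  bit_true : ∀ {l}, bit l = true → ∀ (X : Pc l) n, ∃ z ∈ tail X n,
    (∀ (X' : Pc l) m, ∀ h ∈ tail X' m, Commute z h) ∧ ∃ y ∈ grp X, ¬ Commute z y
  bit_false : ∀ {l}, bit l = false → ∀ (X : Pc l) n, ∃ C : Subgroup G,
    (∀ g ∈ C, ∀ h ∈ grp X, Commute g h) ∧ ∀ g ∈ tail X n, g ∉ C → Esc (tail X n) g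
  icc : ∀ n, ∀ g ∈ tail top n, g ≠ 1 → Esc (tail top n) g
  tail_inf : ∀ n, (tail top n : Set G).Infinite

/-- Detected by a finite quotient. -/
def Det (g : G) : Prop := ∃ N : Subgroup G, N.Normal ∧ N.FiniteIndex ∧ g ∉ N

lemma Det.of_hom {H : Type*} [Group H] [Finite H] (φ : G →* H) {g : G} (h : φ g ≠ 1) : Det g :=
  ⟨φ.ker, inferInstance, Subgroup.finiteIndex_ker φ, h⟩

lemma Det.comp {H : Type*} [Group H] (φ : G →* H) {g : G} (h : Det (φ g)) : Det g := by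
  obtain ⟨N, h1, h2, h3⟩ := h
  exact Det.of_hom ((QuotientGroup.mk' N).comp φ) (by simpa using h3)

lemma exists_common (s : Set G) (hs : s.Finite) (h : ∀ g ∈ s, Det g) :
    ∃ N : Subgroup G, N.Normal ∧ N.FiniteIndex ∧ ∀ g ∈ s, g ∉ N := by
  induction s, hs using Set.Finite.induction_on with
  | empty => exact ⟨⊤, inferInstance, inferInstance, by simp⟩
  | insert _ _ ih =>
    obtain ⟨N, h1, h2, h3⟩ := ih fun g hg => h g (Set.mem_insert_of_mem _ hg)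
    obtain ⟨M, h4, h5, h6⟩ := h _ (Set.mem_insert _ _)
    refine ⟨N ⊓ M, inferInstance, inferInstance, ?_⟩
    rintro g (rfl | hg) hg'
    exacts [h6 hg'.2, h3 g hg hg'.1]

end Pool.Agent.P.MP_a6af55_an
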