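import Pool.Agent.Lib.Tracial.ThmA
import Pool.Agent.P.MP_a6af55_an.Sys

namespace Pool.Agent.P.MP_a6af55_an

open Pool.Agent.Lib.Tracial
open scoped ComplexOrder InnerProductSpace ComplexConjugate
open Filter Topology

section mass

variable {G : Type*}

/-- The square mass of a function on a set. -/
noncomputable def mass (f : G → ℂ) (E : Set G) : ℝ := ∑' g : E, ‖f g‖ ^ 2

lemma mass_nonneg (f : G → ℂ) (E : Set G) : 0 ≤ mass f E := tsum_nonneg fun _ => by positivity

lemma mass_union {f : G → ℂ} (hf : Summable fun g => ‖f g‖ ^ 2) {E F : Set G} (h : Disjoint E F) :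
    mass f (E ∪ F) = mass f E + mass f F :=
  Summable.tsum_union_disjoint (f := fun g => ‖f g‖ ^ 2) h (hf.subtype _) (hf.subtype _)

lemma mass_mono {f : G → ℂ} (hf : Summable fun g => ‖f g‖ ^ 2) {E F : Set G} (h : E ⊆ F) :
    mass f E ≤ mass f F := by
  rw [← Set.union_diff_cancel h, mass_union hf Set.disjoint_sdiff_right]
  linarith [mass_nonneg f (F \ E)]

lemma mass_shift {f h : G → ℂ} (hf : Summable fun g => ‖f g‖ ^ 2) {δ : ℝ}
    (hh : HasSum (fun g => ‖h g‖ ^ 2) δ) (σ : G ≃ G) (hσ : ∀ g, h (σ g) = f g - f (σ g))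
    {E F : Set G} (hE : ∀ g ∈ E, σ g ∈ F) : mass f E ≤ 6 / 5 * mass f F + 6 * δ := by
  have h1 : ∀ g, ‖f g‖ ^ 2 ≤ 6 / 5 * ‖f (σ g)‖ ^ 2 + 6 * ‖h (σ g)‖ ^ 2 := fun g => by
    have : ‖f g‖ ≤ ‖f (σ g)‖ + ‖h (σ g)‖ := by
      rw [hσ]; simpa using norm_add_le (f (σ g)) (f g - f (σ g))
    nlinarith [norm_nonneg (f g), norm_nonneg (f (σ g)), norm_nonneg (h (σ g)),
      sq_nonneg (‖f (σ g)‖ - 5 * ‖h (σ g)‖)]
  have s1 : Summable fun g : E => ‖f (σ g)‖ ^ 2 := ((σ.summable_iff.2 hf).subtype E :)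
  have s2 : Summable fun g : E => ‖h (σ g)‖ ^ 2 := ((σ.summable_iff.2 hh.summable).subtype E :)
  have h2 : ∑' g : E, ‖f (σ g)‖ ^ 2 ≤ mass f F :=
    Summable.tsum_le_tsum_of_inj (fun g : E => (⟨σ g, hE g g.2⟩ : F))
      (fun a b hab => Subtype.ext (σ.injective (congrArg Subtype.val hab)))
      (fun _ _ => by positivity) (fun _ => le_rfl) s1 (hf.subtype _)
  have h3 : ∑' g : E, ‖h (σ g)‖ ^ 2 ≤ δ := by
    rw [← hh.tsum_eq]
    exact Summable.tsum_le_tsum_of_inj (fun g : E => σ g)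
      (fun a b hab => Subtype.ext (σ.injective hab))
      (fun _ _ => by positivity) (fun _ => le_rfl) s2 hh.summable
  refine (Summable.tsum_le_tsum (fun g : E => h1 g) (hf.subtype _)
    ((s1.mul_left _).add (s2.mul_left _))).trans ?_
  rw [(s1.mul_left _).tsum_add (s2.mul_left _), tsum_mul_left, tsum_mul_left]
  linarith

lemma le_mass {f : G → ℂ} (hf : Summable fun g => ‖f g‖ ^ 2) {E : Set G} {g : G} (hg : g ∈ E) :
    ‖f g‖ ^ 2 ≤ mass f E :=
  Summable.le_tsum (f := fun g : E => ‖f g‖ ^ 2) (hf.subtype _) ⟨g, hg⟩ fun _ _ => by positivity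

end mass

variable {A : Type*} [CStarAlgebra A] {G : Type*} [Group G]

/-- A unitary representation with the regular trace. -/
structure GrpRep (G : Type*) [Group G] (t : TrState A) where
  u : G →* A
  star_u : ∀ g, star (u g) = u g⁻¹
  τ_u : ∀ g, g ≠ 1 → t.τ (u g) = 0

/-- A unitary representation with the regular trace and dense span. -/
structure GrpAlg (G : Type*) [Group G] (t : TrState A) extends GrpRep G t where
  dense : ∀ x, ∀ ε > 0, ∃ p ∈ Submodule.span ℂ (Set.range u), t.n2 (x - p) ≤ ε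

variable {t : TrState A}

namespace GrpRep

variable (L : GrpRep G t)

lemma unit (g : G) : L.u g ∈ unitary A :=
  ⟨by rw [L.star_u, ← map_mul, inv_mul_cancel, map_one],
    by rw [L.star_u, ← map_mul, mul_inv_cancel, map_one]⟩

lemma norm_u (g : G) : ‖L.u g‖ ≤ 1 := norm_unitary_le (L.unit g)

open Classical in
lemma τ_star_mul (g h : G) : t.τ (star (L.u g) * L.u h) = if g = h then 1 else 0 := by
  rw [L.star_u, ← map_mul]
  split_ifs with hgh
  · rw [hgh, inv_mul_cancel, map_one, t.map_one]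
  · exact L.τ_u _ (by rwa [ne_eq, inv_mul_eq_one])

lemma orth : Orthonormal ℂ fun g => t.Λ (L.u g) := by
  classical
  rw [orthonormal_iff_ite]
  intro g h
  rw [t.inner_Λ, L.τ_star_mul]

lemma one_le_cm {g h : G} (hgh : ¬ Commute g h) : 1 ≤ t.cm (L.u g) (L.u h) := by
  have := t.norm_τ_mul_le (star (L.u (g * h))) (L.u (g * h) - L.u (h * g))
  rw [mul_sub, map_sub, L.τ_star_mul, L.τ_star_mul, if_pos rfl, if_neg (show ¬ g * h = h * g from hgh),
    t.n2_star,
    ← mul_one (L.u (g * h)), t.n2_unitary_mul (L.unit _), mul_one] at this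
  simpa [TrState.cm] using this

end GrpRep

namespace GrpAlg

variable (L : GrpAlg G t)

lemma dense' : ⊤ ≤ (Submodule.span ℂ (Set.range fun g => t.Λ (L.u g))).topologicalClosure := by
  intro ξ _
  refine t.denseRange_Λ.induction_on ξ (Submodule.isClosed_topologicalClosure _) fun x => ?_
  refine Metric.mem_closure_iff.2 fun ε hε => ?_
  obtain ⟨p, hp, h⟩ := L.dense x (ε / 2) (half_pos hε)
  refine ⟨t.Λ p, ?_, ?_⟩
  · have := Submodule.apply_mem_span_image_of_mem_span t.Λ hp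
    rwa [← Set.range_comp] at this
  · rw [dist_eq_norm, ← map_sub, t.norm_Λ]; linarith

/-- The Hilbert basis of group elements. -/
noncomputable def basis : HilbertBasis G ℂ t.L2 := HilbertBasis.mk L.orth L.dense'

lemma basis_apply (g : G) : L.basis g = t.Λ (L.u g) := congrFun (HilbertBasis.coe_mk _ _) g

/-- Fourier coefficients. -/
noncomputable def c (x : A) (g : G) : ℂ := t.τ (L.u g⁻¹ * x)

lemma c_eq (x : A) (g : G) : L.c x g = ⟪t.Λ (L.u g), t.Λ x⟫_ℂ := by
  rw [t.inner_Λ, L.star_u, c]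

lemma hasSum_c (x : A) : HasSum (fun g => L.c x g • t.Λ (L.u g)) (t.Λ x) := by
  simpa only [HilbertBasis.repr_apply_apply, basis_apply, ← c_eq] using L.basis.hasSum_repr (t.Λ x)

lemma parseval (x : A) : HasSum (fun g => ‖L.c x g‖ ^ 2) (t.n2 x ^ 2) := by
  have := (L.basis.hasSum_inner_mul_inner (t.Λ x) (t.Λ x)).mapL Complex.reCLM
  rw [t.n2_sq, ← t.inner_Λ]
  have e : (fun g => ‖L.c x g‖ ^ 2) =
      fun g => Complex.reCLM (⟪t.Λ x, L.basis g⟫_ℂ * ⟪L.basis g, t.Λ x⟫_ℂ) := by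
    funext g
    rw [basis_apply, ← inner_conj_symm (t.Λ x), ← c_eq, Complex.conj_mul', ← Complex.ofReal_pow]
    simp only [Complex.reCLM_apply, Complex.ofReal_re]
  rw [e]
  exact this

lemma c_sub (x y : A) (g : G) : L.c (x - y) g = L.c x g - L.c y g := by simp [c, mul_sub]

lemma c_u_mul (a : G) (x : A) (g : G) : L.c (L.u a * x) g = L.c x (a⁻¹ * g) := by
  simp [c, ← mul_assoc]

lemma c_mul_u (a : G) (x : A) (g : G) : L.c (x * L.u a) g = L.c x (g * a⁻¹) := by
  rw [c, ← mul_assoc, t.trace]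
  simp [c, ← mul_assoc]

lemma c_conj (a : G) (x : A) (g : G) :
    L.c (L.u a * x * star (L.u a)) g = L.c x (a⁻¹ * g * a) := by
  rw [L.star_u, c_mul_u, c_u_mul, inv_inv, mul_assoc]

lemma c_star (x : A) (g : G) : L.c (star x) g = conj (L.c x g⁻¹) := by
  rw [c, c, ← t.map_star, star_mul, L.star_u, t.trace, inv_inv]

/-- Fourier support in a set. -/
def In (x : A) (E : Set G) : Prop := ∀ g ∉ E, L.c x g = 0

variable {L} in
lemma In.mono {x : A} {E F : Set G} (h : L.In x E) (hEF : E ⊆ F) : L.In x F :=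
  fun g hg => h g fun h' => hg (hEF h')

lemma in_u {E : Set G} {h : G} (hh : h ∈ E) : L.In (L.u h) E := fun g hg => by
  rw [c, ← L.star_u, L.τ_star_mul, if_neg]
  rintro rfl
  exact hg hh

variable {L} in
lemma In.map_eq_zero {x : A} {E : Set G} (h : L.In x E) {H : Type*} [NormedAddCommGroup H]
    [NormedSpace ℂ H] (T : t.L2 →L[ℂ] H) (hT : ∀ g ∈ E, T (t.Λ (L.u g)) = 0) : T (t.Λ x) = 0 := by
  refine ((L.hasSum_c x).mapL T).unique ?_
  convert hasSum_zero with g
  by_cases hg : g ∈ E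
  · rw [map_smul, hT g hg, smul_zero]
  · rw [h g hg, zero_smul, map_zero]

/-- The algebra of a subgroup. -/
def alg (H : Subgroup G) : StarSubalgebra ℂ A where
  carrier := {x | L.In x H}
  mul_mem' {x y} hx hy g hg := by
    have := hy.map_eq_zero ((innerSL ℂ (t.Λ (L.u g))).comp (t.π x)) fun h hh => by
      rw [ContinuousLinearMap.comp_apply, t.π_Λ, innerSL_apply_apply, ← c_eq, c_mul_u]
      exact hx _ fun h' => hg (by simpa using H.mul_mem h' hh)
    rwa [ContinuousLinearMap.comp_apply, t.π_Λ, innerSL_apply_apply, ← c_eq] at this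
  add_mem' {x y} hx hy g hg := by
    have h1 := hx g hg
    have h2 := hy g hg
    simp only [c] at h1 h2 ⊢
    rw [mul_add, map_add, h1, h2, add_zero]
  algebraMap_mem' r g hg := by
    have := L.in_u (E := H) H.one_mem g hg
    rw [c, map_one] at this
    rw [c, Algebra.algebraMap_eq_smul_one, mul_smul_comm, map_smul, this, smul_zero]
  star_mem' {x} hx g hg := by rw [c_star, hx _ (by simpa using hg), map_zero]

lemma isClosed_In (E : Set G) : IsClosed {ξ : t.L2 | ∀ g ∉ E, ⟪t.Λ (L.u g), ξ⟫_ℂ = 0} := by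
  simp only [Set.setOf_forall]
  exact isClosed_iInter fun g => isClosed_iInter fun _ => isClosed_eq (by fun_prop) (by fun_prop)

lemma cont_Λ (t : TrState A) : Continuous t.Λ :=
  AddMonoidHomClass.continuous_of_bound t.Λ 1 fun x => by rw [one_mul]; exact t.n2_le_norm x

lemma exists_fin {y : A} {K : Set G} (hy : L.In y K) {ε : ℝ} (hε : 0 < ε) :
    ∃ F : Finset G, (∀ g ∈ F, g ∈ K) ∧ ∀ z, ‖z‖ ≤ 1 → (∀ g ∈ F, Commute (L.u g) z) →
      t.cm z y ≤ ε := by
  classical
  obtain ⟨F, hF⟩ := (Metric.tendsto_nhds.1 (L.hasSum_c y) _ (half_pos hε)).exists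
  refine ⟨F.filter (· ∈ K), fun g hg => (Finset.mem_filter.1 hg).2, fun z hz h => ?_⟩
  have h1 := t.cm_le_add hz y (∑ g ∈ F, L.c y g • L.u g)
  have h2 : Commute z (∑ g ∈ F, L.c y g • L.u g) := Commute.sum_right _ _ _ fun g hg => by
    by_cases hK : g ∈ K
    · exact (h g (Finset.mem_filter.2 ⟨hg, hK⟩)).symm.smul_right _
    · rw [hy g hK, zero_smul]; exact Commute.zero_right _
  rw [dist_comm, dist_eq_norm] at hF
  simp only [← map_smul, ← map_sum, ← map_sub, t.norm_Λ] at hF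
  rw [TrState.cm, TrState.cm, h2.eq, sub_self, t.n2_zero] at h1
  rw [TrState.cm]
  linarith

lemma pp {a b : G} {B : Set G} (h : PP a b B) (x : A) :
    mass (L.c x) B ≤ (7 * (t.cm (L.u a) x + t.cm (L.u b) x)) ^ 2 := by
  obtain ⟨-, -, S, P, M, h1, h2, h3, h4, h5, h6, h7⟩ := h
  have hf := (L.parseval x).summable
  have key : ∀ (k : G) {E F : Set G}, (∀ g ∈ E, k * g * k⁻¹ ∈ F) →
      mass (L.c x) E ≤ 6 / 5 * mass (L.c x) F + 6 * t.cm (L.u k) x ^ 2 := fun k E F hE => by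
    refine mass_shift hf (h := L.c (L.u k * x * star (L.u k) - x)) ?_ (MulAut.conj k).toEquiv
      (fun g => ?_) hE
    · rw [TrState.cm, ← t.n2_conj_sub (L.unit k)]; exact L.parseval _
    · rw [c_sub, c_conj]; simp [mul_assoc]
  have e1 := key a h5
  have e2 := key b h6
  have e3 := key b⁻¹ (F := M) (by simpa using h7)
  rw [← L.star_u, t.cm_star_unitary (L.unit b)] at e3
  have e4 := mass_mono hf (Set.union_subset h2 h3)
  rw [mass_union hf h4] at e4
  have e5 := mass_union hf (Set.disjoint_sdiff_right (s := S) (t := B))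
  rw [Set.union_diff_cancel h1] at e5
  nlinarith [mul_nonneg (t.cm_nonneg (L.u a) x) (t.cm_nonneg (L.u b) x),
    sq_nonneg (t.cm (L.u a) x), sq_nonneg (t.cm (L.u b) x)]

lemma c_eq_zero_of_esc {K : Subgroup G} {g : G} (hg : Esc K g) {y : A}
    (hy : ∀ k ∈ K, L.u k * y = y * L.u k) : L.c y g = 0 := by
  obtain ⟨a, ha, b, hb, B, h, hg⟩ := hg
  have := (le_mass (L.parseval y).summable hg).trans (L.pp h y)
  simpa [TrState.cm, hy a ha, hy b hb] using this

variable [t.W]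

lemma ext_c {x y : A} (h : ∀ g, L.c x g = L.c y g) : x = y :=
  t.Λ_injective ((L.hasSum_c x).unique (by simpa only [h] using L.hasSum_c y))

variable {L} in
lemma In.eq_smul {x : A} (h : L.In x {1}) : x = t.τ x • 1 := L.ext_c fun g => by
  by_cases hg : g = 1
  · simp [hg, c, t.map_one]
  · rw [h g hg, c, mul_smul_comm, mul_one, map_smul, L.τ_u _ (inv_ne_one.2 hg), smul_zero]

variable {L} in
lemma In.comm_of_u {y z : A} {K : Set G} (hy : L.In y K) (hz : ∀ k ∈ K, Commute (L.u k) z) :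
    Commute y z := by
  have := hy.map_eq_zero (t.rmul z - t.π z) fun k hk => by simp [(hz k hk).eq]
  exact t.Λ_injective (by simpa [sub_eq_zero] using this)

variable {L} in
lemma In.comm_u {x : A} {H : Set G} (hx : L.In x H) {k : G} (hk : ∀ h ∈ H, Commute h k) :
    Commute (L.u k) x :=
  (hx.comm_of_u fun h hh => (hk h hh).map L.u).symm

variable {L} in
lemma In.comm {x y : A} {H K : Set G} (hx : L.In x H) (hy : L.In y K)
    (h : ∀ g ∈ H, ∀ k ∈ K, Commute g k) : Commute x y :=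
  (hy.comm_of_u fun k hk => hx.comm_u fun g hg => h g hg k hk).symm

lemma cond (H : Subgroup G) {x : A} (hx : ‖x‖ ≤ 1) {E B : Set G} (hE : L.In x E)
    (hB : ∀ g ∈ E, g ∉ H → g ∈ B) :
    ∃ y, ‖y‖ ≤ 1 ∧ L.In y H ∧ t.n2 (x - y) ^ 2 ≤ mass (L.c x) B := by
  obtain ⟨y, hy, h1, h2⟩ := t.exists_condExp (L.alg H) (by
    have := (L.isClosed_In H).preimage (cont_Λ t)
    simp only [Set.preimage_setOf_eq, ← c_eq] at this
    exact this) hx
  have h3 : L.In y H := by
    have := (L.isClosed_In H).closure_subset_iff.2 (by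
      rintro _ ⟨a, ha, rfl⟩ g hg
      rw [← c_eq]; exact ha g hg) h1
    exact fun g hg => by rw [c_eq]; exact this g hg
  refine ⟨y, hy, h3, ?_⟩
  rw [← (L.parseval (x - y)).tsum_eq, mass, tsum_subtype B fun g => ‖L.c x g‖ ^ 2]
  refine Summable.tsum_le_tsum (fun g => ?_) (L.parseval _).summable
    ((L.parseval _).summable.indicator _)
  by_cases hg : g ∈ H
  · have := h2 _ (L.in_u hg)
    rw [L.star_u] at this
    rw [c_sub, c, c, this, sub_self, norm_zero, zero_pow two_ne_zero]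
    exact Set.indicator_nonneg (fun _ _ => by positivity) _
  · rw [c_sub, h3 g hg, sub_zero]
    by_cases hg' : g ∈ E
    · rw [Set.indicator_of_mem (hB g hg' hg)]
    · rw [hE g hg', norm_zero, zero_pow two_ne_zero]
      exact Set.indicator_nonneg (fun _ _ => by positivity) _

lemma gap (H : Subgroup G) {x : A} (hx : ‖x‖ ≤ 1) {E B : Set G} (hE : L.In x E)
    (hB : ∀ g ∈ E, g ∉ H → g ∈ B) {a b : G} (h : PP a b B) :
    ∃ y, ‖y‖ ≤ 1 ∧ L.In y H ∧ t.n2 (x - y) ≤ 7 * (t.cm (L.u a) x + t.cm (L.u b) x) := by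
  obtain ⟨y, h1, h2, h3⟩ := L.cond H hx hE hB
  refine ⟨y, h1, h2, (pow_le_pow_iff_left₀ (t.n2_nonneg _) ?_ two_ne_zero).1 (h3.trans (L.pp h x))⟩
  linarith [t.cm_nonneg (L.u a) x, t.cm_nonneg (L.u b) x]

lemma fc {H K : Subgroup G} (hK : K ≤ H) {C : Set G} (hC : ∀ g ∈ H, g ∉ C → Esc K g) {x : A}
    (hx : ‖x‖ ≤ 1) (hH : L.In x H) {ε : ℝ} (hε : 0 < ε) :
    ∃ y, ‖y‖ ≤ 1 ∧ L.In y C ∧ ∃ k ∈ K, t.n2 (x - y) ≤ t.cm (L.u k) x + ε := by
  obtain ⟨y, hy, h1, h2⟩ := t.exists_avg (L.u '' K) (by rintro _ ⟨k, -, rfl⟩; exact L.unit k)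
    (by rintro _ ⟨k, hk, rfl⟩ _ ⟨k', hk', rfl⟩; exact ⟨_, K.mul_mem hk hk', map_mul _ _ _⟩)
    ⟨_, 1, K.one_mem, rfl⟩ hx
  have h3 : L.In y H := fun g hg => by
    rw [c_eq]
    refine h2 _ (L.isClosed_In H) (fun a ha b hb s _ _ g hg => by
      rw [inner_add_right, inner_smul_right, inner_smul_right, ha g hg, hb g hg]; simp) ?_ g hg
    rintro _ ⟨k, hk, rfl⟩ g hg
    rw [← c_eq, c_conj]
    refine hH _ fun h => hg ?_
    simpa [mul_assoc] using H.mul_mem (H.mul_mem (hK hk) h) (H.inv_mem (hK hk))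
  refine ⟨y, hy, fun g hg => ?_, ?_⟩
  · by_cases hg' : g ∈ H
    · exact L.c_eq_zero_of_esc (hC g hg' hg) fun k hk => h1 _ ⟨k, hk, rfl⟩
    · exact h3 g hg'
  · by_contra hne
    push Not at hne
    have := h2 (Metric.closedBall (t.Λ x) (t.n2 (x - y) - ε)) Metric.isClosed_closedBall
      (cvxC_closedBall _ _) (by
        rintro _ ⟨k, hk, rfl⟩
        rw [mem_closedBall_iff_norm, ← map_sub, t.norm_Λ, t.n2_conj_sub (L.unit k)]
        have := hne k hk
        rw [TrState.cm] at this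
        linarith)
    rw [mem_closedBall_iff_norm, ← map_sub, t.norm_Λ, t.n2_sub_comm] at this
    linarith

omit [t.W] in
include L in
lemma separable [Countable G] : t.Separable := by
  have h1 : TopologicalSpace.IsSeparable (Set.range t.Λ) := by
    refine ((Set.countable_range fun g => t.Λ (L.u g)).isSeparable.span (R := ℂ)).closure.mono ?_
    exact fun ξ _ => L.dense' Submodule.mem_top
  obtain ⟨s, hs, hs', h⟩ := h1.exists_countable_dense_subset
  choose! f hf using fun ξ (hξ : ξ ∈ s) => hs hξ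
  refine ⟨f '' s, hs'.image _, fun x ε hε => ?_⟩
  obtain ⟨ξ, hξ, h2⟩ := Metric.mem_closure_iff.1 (h ⟨x, rfl⟩) (√ε) (Real.sqrt_pos.2 hε)
  refine ⟨_, ⟨ξ, hξ, rfl⟩, ?_⟩
  rw [← hf ξ hξ, dist_eq_norm, ← map_sub, t.norm_Λ] at h2
  rwa [t.norm_τ_star_mul, ← Real.lt_sqrt (t.n2_nonneg _)]

end GrpAlg

end Pool.Agent.P.MP_a6af55_an
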