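import Mathlib

namespace Pool.Agent.P.MP_a6af55_an

universe w

/-- A system of internal pieces, tails and blocks inside a monoid. -/
structure ISys (B : Type*) [Monoid B] (K : Set B) where
  bit : ℕ → Bool
  N : Type w
  le : N → N → Prop
  le_refl : ∀ n, le n n
  dir : ∀ a b, ∃ c, ∀ m, le c m → le a m ∧ le b m
  n0 : N
  P : ℕ → Type w
  alg : ∀ {l}, P l → Set B
  T : ∀ {l}, P l → N → Set B
  top : P 0
  alg_top : alg top = K
  T_sub : ∀ {l} (X : P l) n, T X n ⊆ alg X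
  gap : ∀ {l} (X : P l) n, ∃ a ∈ alg X, ∃ b ∈ alg X, ∀ x ∈ alg X,
    Commute a x → Commute b x → x ∈ T X n
  loc : ∀ {l} (X' : P l), ∀ a ∈ alg X', ∃ m0, ∀ (X : P l) m, le m0 m → ∀ x ∈ T X m, Commute a x
  blk : ∀ {l} (X : P l) n m0, ∃ n', le m0 n' ∧ ∃ Y : P (l + 1), alg Y ⊆ T X n ∧
    (∀ X' : P l, ∀ y ∈ alg Y, ∀ x ∈ T X' n', Commute y x) ∧
    ∀ x ∈ T X n, (∀ y ∈ T X n', Commute x y) → x ∈ alg Y
  bit_true : ∀ {l}, bit l = true → ∀ (X : P l) n, ∃ z ∈ T X n,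
    (∀ (X' : P l) m, ∀ x ∈ T X' m, Commute z x) ∧ ∃ y ∈ alg X, ¬ Commute z y
  bit_false : ∀ {l}, bit l = false → ∀ (X : P l) n, ∀ z ∈ T X n, (∀ x ∈ T X n, Commute z x) →
    ∀ y ∈ alg X, Commute z y

variable {B : Type*} [Monoid B] {K : Set B}

namespace ISys

lemma swap (S S' : ISys.{w} B K) {l : ℕ} {X X' : S.P l} {Y : S'.P l} (h1 : S.alg X ⊆ S'.alg Y)
    (h2 : S'.alg Y ⊆ S.alg X') (n : S'.N) : ∃ m0, ∀ m, S.le m0 m → S.T X m ⊆ S'.T Y n := by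
  obtain ⟨a, ha, b, hb, h⟩ := S'.gap Y n
  obtain ⟨m1, hm1⟩ := S.loc X' a (h2 ha)
  obtain ⟨m2, hm2⟩ := S.loc X' b (h2 hb)
  obtain ⟨c, hc⟩ := S.dir m1 m2
  exact ⟨c, fun m hm x hx => h x (h1 (S.T_sub X m hx)) (hm1 X m (hc m hm).1 x hx)
    (hm2 X m (hc m hm).2 x hx)⟩

/-- Alternating chains of inclusions. -/
def Chain (l : ℕ) : ℕ → ∀ (S S' : ISys.{w} B K), S.P l → Prop
  | 0, _, _, _ => True
  | k + 1, S, S', X => ∃ Y : S'.P l, S.alg X ⊆ S'.alg Y ∧ Chain l k S' S Y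

lemma step (l k : ℕ) : ∀ (S S' : ISys.{w} B K) (X : S.P l), Chain l (k + 2) S S' X →
    ∃ n, ∀ m0, ∃ n', S.le m0 n' ∧ ∃ Y : S.P (l + 1), (S.alg Y ⊆ S.T X n ∧
      (∀ X' : S.P l, ∀ y ∈ S.alg Y, ∀ x ∈ S.T X' n', Commute y x) ∧
      ∀ x ∈ S.T X n, (∀ y ∈ S.T X n', Commute x y) → x ∈ S.alg Y) ∧ Chain (l + 1) k S S' Y := by
  induction k with
  | zero =>
    intro S S' X _
    refine ⟨S.n0, fun m0 => ?_⟩
    obtain ⟨n', h, Y, hY⟩ := S.blk X S.n0 m0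
    exact ⟨n', h, Y, hY, trivial⟩
  | succ k ih =>
    rintro S S' X ⟨X1, h01, hc⟩
    obtain ⟨n1, h1⟩ := ih S' S X1 hc
    obtain ⟨X2, h12, X3, h23, -⟩ := hc
    obtain ⟨n, hn⟩ := S.swap S' h01 h12 n1
    refine ⟨n, fun m0 => ?_⟩
    obtain ⟨n', h, Y, hY⟩ := S.blk X n m0
    obtain ⟨m1, hm1⟩ := S'.swap S h12 h23 n'
    obtain ⟨n1', h', Y1, hY1, hc'⟩ := h1 m1
    refine ⟨n', h, Y, hY, Y1, fun y hy => hY1.2.2 y (hn n (S.le_refl n) (hY.1 hy)) fun x hx => ?_,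
      hc'⟩
    exact hY.2.1 X2 y hy x (hm1 n1' h' hx)

lemma exists_chain (l : ℕ) : ∀ k (S S' : ISys.{w} B K), ∃ X : S.P l, Chain l k S S' X := by
  induction l with
  | zero =>
    have : ∀ k (S S' : ISys.{w} B K), Chain 0 k S S' S.top := fun k => by
      induction k with
      | zero => exact fun _ _ => trivial
      | succ k ih => exact fun S S' => ⟨S'.top, by rw [S.alg_top, S'.alg_top], ih S' S⟩
    exact fun k S S' => ⟨_, this k S S'⟩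
  | succ l ih =>
    intro k S S'
    obtain ⟨X, hX⟩ := ih (k + 2) S S'
    obtain ⟨n, hn⟩ := step l k S S' X hX
    obtain ⟨_, _, Y, _, hY⟩ := hn S.n0
    exact ⟨Y, hY⟩

lemma false_of_bits (S S' : ISys.{w} B K) {l : ℕ} (h : S.bit l = true) (h' : S'.bit l = false) :
    False := by
  obtain ⟨X, Y, h1, X', h2, Y', h3, -⟩ := exists_chain l 3 S S'
  obtain ⟨p, hp⟩ := S'.swap S h2 h3 S.n0
  obtain ⟨n, hn⟩ := S.swap S' h1 h2 p
  obtain ⟨z, hz, hz', y, hy, hzy⟩ := S.bit_true h X n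
  exact hzy (S'.bit_false h' Y p z (hn n (S.le_refl n) hz)
    (fun x hx => hz' X' _ x (hp p (S'.le_refl p) hx)) y (h1 hy))

theorem bit_eq (S S' : ISys.{w} B K) : S.bit = S'.bit := by
  funext l
  cases h : S.bit l <;> cases h' : S'.bit l
  · rfl
  · exact (S'.false_of_bits S h' h).elim
  · exact (S.false_of_bits S' h h').elim
  · rfl

end ISys

end Pool.Agent.P.MP_a6af55_an
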