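import Pool.Agent.P.MP_a6af55_an.Super
import Pool.Agent.P.MP_a6af55_an.Sandwich

namespace Pool.Agent.P.MP_a6af55_an

open Pool.Agent.Lib.Tracial
open scoped ComplexOrder InnerProductSpace ComplexConjugate
open Filter Topology

universe u w

variable {A : Type*} [CStarAlgebra A] {B : Type*} [CStarAlgebra B]

/-- A presentation of an algebra as a countably incomplete ultrapower. -/
structure UModel (t : TrState A) (B : Type*) [CStarAlgebra B] where
  I : Type w
  U : Ultrafilter I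
  r : I → ℕ
  hr : Tendsto r U atTop
  π : BB I A →⋆ₐ[ℂ] B
  surj : Function.Surjective π
  ker : ∀ x, π x = 0 ↔ Tendsto (fun i : I => t.n2 (x i)) U (𝓝 0)

variable {t : TrState A} {G : Type} [Group G] {bit : ℕ → Bool}

namespace UModel

variable (M : UModel.{w} t B) (L : GrpAlg G t)

lemma comm_iff (x y : BB M.I A) : Commute (M.π x) (M.π y) ↔
    Tendsto (fun i : M.I => t.cm (x i) (y i)) M.U (𝓝 0) := by
  rw [Commute, SemiconjBy, ← sub_eq_zero, ← map_mul, ← map_mul, ← map_sub, M.ker]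
  rfl

lemma tendsto_r : Tendsto (fun i => 1 / ((M.r i : ℝ) + 1)) M.U (𝓝 0) :=
  tendsto_one_div_add_atTop_nhds_zero_nat.comp M.hr

/-- Internal unit balls. -/
def int (H : M.I → Set G) : Set B :=
  {b | ∃ x : BB M.I A, M.π x = b ∧ ∀ i : M.I, ‖x i‖ ≤ 1 ∧ L.In (x i) (H i)}

lemma int_mono {H K : M.I → Set G} (h : ∀ i, H i ⊆ K i) : M.int L H ⊆ M.int L K :=
  fun _ ⟨x, h1, h2⟩ => ⟨x, h1, fun i => ⟨(h2 i).1, (h2 i).2.mono (h i)⟩⟩

lemma mem_int {H : M.I → Set G} (x : BB M.I A) (y : M.I → A) (h1 : ∀ i, ‖y i‖ ≤ 1)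
    (h2 : ∀ i, L.In (y i) (H i)) {f : M.I → ℝ} (hf : Tendsto f M.U (𝓝 0))
    (h3 : ∀ i : M.I, t.n2 (x i - y i) ≤ f i) : M.π x ∈ M.int L H := by
  refine ⟨BB.mk y 1 h1, ?_, fun i => ⟨h1 i, h2 i⟩⟩
  rw [eq_comm, ← sub_eq_zero, ← map_sub, M.ker]
  exact squeeze_zero (fun _ => t.n2_nonneg _) h3 hf

/-- A family of group elements. -/
noncomputable def uu (g : M.I → G) : BB M.I A := BB.mk (fun i => L.u (g i)) 1 fun _ => L.norm_u _

lemma uu_mem {H : M.I → Set G} {g : M.I → G} (h : ∀ i, g i ∈ H i) : M.π (M.uu L g) ∈ M.int L H :=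
  ⟨_, rfl, fun i => ⟨L.norm_u _, L.in_u (h i)⟩⟩

variable [t.W]

lemma int_comm {H K : M.I → Set G} (h : ∀ i, ∀ g ∈ H i, ∀ k ∈ K i, Commute g k) :
    ∀ a ∈ M.int L H, ∀ b ∈ M.int L K, Commute a b := by
  rintro _ ⟨x, rfl, hx⟩ _ ⟨y, rfl, hy⟩
  rw [comm_iff]
  refine tendsto_const_nhds.congr fun i => ?_
  rw [TrState.cm, ((hx i).2.comm (hy i).2 (h i)).eq, sub_self, t.n2_zero]

lemma int_fc {H K : M.I → Subgroup G} (hK : ∀ i, K i ≤ H i) {C : M.I → Set G}
    (hC : ∀ i, ∀ g ∈ H i, g ∉ C i → Esc (K i) g) {a : B} (ha : a ∈ M.int L fun i => H i)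
    (h : ∀ b ∈ M.int L fun i => K i, Commute a b) : a ∈ M.int L C := by
  obtain ⟨x, rfl, hx⟩ := ha
  choose y h1 h2 k hk h3 using fun i => L.fc (hK i) (hC i) (hx i).1 (hx i).2
    (Nat.one_div_pos_of_nat (n := M.r i))
  have := ((M.comm_iff _ _).1 (h _ (M.uu_mem L hk)).symm).add M.tendsto_r
  rw [add_zero] at this
  exact M.mem_int L x y h1 h2 this h3

/-- The internal system. -/
def isys (S : Sys G bit) : ISys.{w} B (Metric.closedBall 0 1) where
  bit := bit
  N := M.I → ℕ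
  le := (· ≤ ·)
  le_refl := le_refl
  dir a b := ⟨a ⊔ b, fun _ => sup_le_iff.1⟩
  n0 := 0
  P l := M.I → S.Pc l
  alg X := M.int L fun i => S.grp (X i)
  T X n := M.int L fun i => S.tail (X i) (n i)
  top _ := S.top
  alg_top := by
    ext b
    rw [mem_closedBall_zero_iff]
    constructor
    · rintro ⟨x, rfl, hx⟩
      exact (NonUnitalStarAlgHom.norm_apply_le _ x).trans
        ((BoundedContinuousFunction.norm_le zero_le_one).2 fun i => (hx i).1)
    · intro hb
      obtain ⟨x, rfl⟩ := M.surj b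
      obtain ⟨y, h1, h2⟩ := exists_lift M.π x hb
      exact ⟨y, h1, fun i => ⟨(y.norm_apply_le i).trans h2, in_top L S _⟩⟩
  T_sub X n := M.int_mono L fun i => S.tail_le (X i) (n i)
  gap X n := by
    choose a ha b hb C h hC using fun i => S.gap (X i) (n i)
    refine ⟨_, M.uu_mem L ha, _, M.uu_mem L hb, ?_⟩
    rintro _ ⟨x, rfl, hx⟩ h1 h2
    choose y h3 h4 h5 using fun i => L.gap (S.tail (X i) (n i)) (hx i).1 (hx i).2 (hC i) (h i)
    have := (((M.comm_iff _ _).1 h1).add ((M.comm_iff _ _).1 h2)).const_mul 7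
    rw [add_zero, mul_zero] at this
    exact M.mem_int L x y h3 h4 this h5
  loc X' := by
    rintro _ ⟨y, rfl, hy⟩
    choose m0 hm using fun i => loc_alg L S (X' i) (hy i).2 (Nat.one_div_pos_of_nat (n := M.r i))
    refine ⟨m0, fun X m h => ?_⟩
    rintro _ ⟨x, rfl, hx⟩
    refine ((M.comm_iff _ _).2 ?_).symm
    exact squeeze_zero (fun _ => t.cm_nonneg _ _)
      (fun i => hm i (X i) (m i) (h i) _ (hx i).1 (hx i).2) M.tendsto_r
  blk X n m0 := ⟨fun i => n i + m0 i + 1, fun i => by simp only; omega,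
    fun i => S.block (X i) (n i) (m0 i), M.int_mono L fun i => S.block_le _ _ _,
    fun X' => M.int_comm L fun i => S.block_comm _ _ _ _,
    fun _ hx h => M.int_fc L (fun i => S.tail_anti _ (by omega)) (fun i => S.fc _ _ _) hx h⟩
  bit_true hl X n := by
    choose z hz h y hy hzy using fun i => S.bit_true hl (X i) (n i)
    refine ⟨_, M.uu_mem L hz, fun X' m => M.int_comm L (H := fun i => {z i}) (fun i g hg => ?_) _
      (M.uu_mem L fun i => rfl), _, M.uu_mem L hy, fun hc => ?_⟩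
    · rw [hg]; exact h i _ _
    · exact not_lt.2 (ge_of_tendsto' ((M.comm_iff _ _).1 hc) fun i => L.one_le_cm (hzy i)) one_pos
  bit_false hl X n z hz h := by
    choose C h1 h2 using fun i => S.bit_false hl (X i) (n i)
    exact M.int_comm L h1 _ (M.int_fc L (fun _ => le_rfl) h2 hz h)

end UModel

lemma tendsto_zero_iff {ι : Type*} {l : Filter ι} {f : ι → ℝ} (hf : ∀ i, 0 ≤ f i) :
    Tendsto f l (𝓝 0) ↔ ∀ ε > 0, ∀ᶠ i in l, f i < ε :=
  ⟨fun h ε hε => h.eventually (gt_mem_nhds hε), fun h => tendsto_order.2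
    ⟨fun _ ha => Eventually.of_forall fun i => ha.trans_le (hf i), h⟩⟩

section double

variable {I : Type w} {C : Type*} [CStarAlgebra C]

/-- A slice of a doubly indexed family. -/
noncomputable def slice (x : BB (ℕ × I) A) (k : ℕ) : BB I A :=
  BB.mk (fun i => x (k, i)) ‖x‖ fun _ => x.norm_apply_le _

/-- The slicewise image of a doubly indexed family. -/
noncomputable def dbl (ρ : BB I A →⋆ₐ[ℂ] C) : BB (ℕ × I) A →⋆ₐ[ℂ] BB ℕ C where
  toFun x := BB.mk (fun k => ρ (slice x k)) ‖x‖ fun _ =>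
    (NonUnitalStarAlgHom.norm_apply_le ρ _).trans (BB.norm_mk_le _ (norm_nonneg _) _)
  map_one' := by ext k; exact map_one ρ
  map_mul' x y := by ext k; exact map_mul ρ (slice x k) (slice y k)
  map_zero' := by ext k; exact map_zero ρ
  map_add' x y := by ext k; exact map_add ρ (slice x k) (slice y k)
  commutes' c := by ext k; exact AlgHomClass.commutes ρ c
  map_star' x := by ext k; exact map_star ρ (slice x k)

lemma exists_model (s : TrState C) [s.W] (U : Ultrafilter I) (ρ : BB I A →⋆ₐ[ℂ] C)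
    (hρ : Function.Surjective ρ)
    (h : ∀ x, Tendsto (fun i : I => t.n2 (x i)) U (𝓝 (s.n2 (ρ x)))) :
    Nonempty (UModel.{w} t (Ultrapower s (hyperfilter ℕ))) := by
  have ev : ∀ p : ℕ × I → Prop,
      (∀ᶠ q in ((hyperfilter ℕ).bind fun k => U.map (Prod.mk k) : Ultrafilter (ℕ × I)), p q) ↔
        ∀ᶠ k in (hyperfilter ℕ : Filter ℕ), ∀ᶠ i in (U : Filter I), p (k, i) := fun p => Iff.rfl
  refine ⟨⟨ℕ × I, (hyperfilter ℕ).bind fun k => U.map (Prod.mk k), Prod.fst,
    tendsto_atTop.2 fun n => ?_, (mkU s _).comp (dbl ρ), fun q => ?_, fun x => ?_⟩⟩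
  · rw [ev]
    exact ((eventually_ge_atTop n).filter_mono Nat.hyperfilter_le_atTop).mono
      fun k hk => Eventually.of_forall fun _ => hk
  · obtain ⟨y, rfl⟩ := mkU_surjective _ _ q
    choose x hx using fun k : ℕ => hρ (y k)
    choose z h1 h2 using fun k => exists_lift ρ (x k) (r := ‖y‖) (hx k ▸ y.norm_apply_le k)
    refine ⟨BB.mk (fun p => z p.1 p.2) ‖y‖ fun p => ((z p.1).norm_apply_le _).trans (h2 _), ?_⟩
    refine congrArg (mkU s _) ?_
    ext k
    exact (h1 k).trans (hx k)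
  · have h1 := tendsto_n2 s (hyperfilter ℕ) (dbl ρ x)
    constructor
    · intro h0
      rw [StarAlgHom.comp_apply] at h0
      rw [h0, TrState.n2_zero, tendsto_zero_iff fun _ => s.n2_nonneg _] at h1
      rw [tendsto_zero_iff fun _ => t.n2_nonneg _]
      intro ε hε
      rw [ev]
      exact (h1 ε hε).mono fun k hk => (h (slice x k)).eventually (gt_mem_nhds hk)
    · intro h0
      rw [tendsto_zero_iff fun _ => t.n2_nonneg _] at h0
      refine (upTr s _).eq_zero_of_n2 (tendsto_nhds_unique h1 ?_)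
      rw [tendsto_zero_iff fun _ => s.n2_nonneg _]
      intro ε hε
      refine ((ev _).1 (h0 _ (half_pos hε))).mono fun k hk => ?_
      exact (le_of_tendsto (h (slice x k)) (hk.mono fun i hi => hi.le)).trans_lt (half_lt_self hε)

end double

theorem bit_eq_of_elemEquiv {A A' : Type u} [CStarAlgebra A] [CStarAlgebra A'] {t : TrState A}
    {t' : TrState A'} [t.W] [t'.W] {G G' : Type} [Group G] [Group G'] {bit bit' : ℕ → Bool}
    (L : GrpAlg G t) (L' : GrpAlg G' t') (S : Sys G bit) (S' : Sys G' bit')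
    (h : ElemEquiv.{u, w} t t') : bit = bit' := by
  obtain ⟨I, J, U, V, ⟨e⟩⟩ := h
  have hτ := τ_equiv (upTr t U) (isInfFactor_up t U (isInfFactor L S)) (upTr t' V) e
  obtain ⟨M⟩ := exists_model (t := t) (upTr t' V) U
    ((e : Ultrapower t U →⋆ₐ[ℂ] Ultrapower t' V).comp (mkU t U))
    ((EquivLike.surjective e).comp (mkU_surjective t U)) fun x => by
      rw [StarAlgHom.comp_apply, TrState.n2_map _ _ hτ]
      exact tendsto_n2 t U x
  obtain ⟨M'⟩ := exists_model (t := t') (upTr t' V) V (mkU t' V) (mkU_surjective t' V)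
    (tendsto_n2 t' V)
  exact ISys.bit_eq (M.isys L S) (M'.isys L' S')

end Pool.Agent.P.MP_a6af55_an
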