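import Pool.Agent.P.MP_a6af55_an.SMMain

namespace Pool.Agent.P.MP_a6af55_an.Pw

open Pool.Agent.Lib.Tracial
open scoped ComplexOrder InnerProductSpace ComplexConjugate Pointwise Real
open Filter Topology

section abstract

variable {A B : Type*} [CStarAlgebra A] [CStarAlgebra B] {I : Type*}

/-- An inclusion with a symmetric one parameter deformation. -/
structure Def1 (t : TrState A) (s : TrState B) where
  ι : A →⋆ₐ[ℂ] B
  α : ℝ → B →⋆ₐ[ℂ] B
  γ : B →⋆ₐ[ℂ] B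
  tp_ι : TP t s ι
  tp_α : ∀ θ, TP s s (α θ)
  tp_γ : TP s s γ
  α_add : ∀ θ θ' x, α θ (α θ' x) = α (θ + θ') x
  α_zero : ∀ x, α 0 x = x
  α_cont : ∀ x, Tendsto (fun θ => s.n2 (α θ x - x)) (𝓝 0) (𝓝 0)
  γ_ι : ∀ a, γ (ι a) = ι a
  γ_α : ∀ θ x, γ (α θ x) = α (-θ) (γ x)

variable {t : TrState A} {s : TrState B}

/-- The ultrapower of a trace preserving homomorphism. -/
noncomputable abbrev upC (U : Ultrafilter I) {φ : A →⋆ₐ[ℂ] B} (h : TP t s φ) :
    Ultrapower t U →⋆ₐ[ℂ] Ultrapower s U := upMap U (fun _ => φ) fun _ => h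

/-- The commutant of the pair in the large ultrapower lies in the small one. -/
def Gap (U : Ultrafilter I) {ι : A →⋆ₐ[ℂ] B} (h : TP t s ι) (b : Fin 2 → Ultrapower t U) : Prop :=
  ∀ z : Ultrapower s U, (∀ k, Commute (upC U h (b k)) z) → ∃ a, upC U h a = z

/-- Represented by a family supported in a set. -/
def InU {Γ : Type*} [Group Γ] {ε : Γ →* Γ →* ℤˣ} (L : TwAlg ε s) (U : Ultrafilter I)
    (z : Ultrapower s U) (E : Set Γ) : Prop :=
  ∃ x : BB I B, mkU s U x = z ∧ ∀ i : I, L.In (x i) E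

end abstract

/-- The empty graph. -/
abbrev ΓE : SimpleGraph Empty := ⊥

/-- The small group. -/
abbrev FH : Type := HH ΓE

/-- The large group. -/
abbrev FT : Type := HT ΓE

variable {J : Type} [DecidableEq J] {G : Type} [Group G]

/-- Families with values in a subgroup on a set of coordinates, times the Pauli group. -/
noncomputable abbrev PK (R : Subgroup G) (T : Set J) : Subgroup ((J → G) × SG) :=
  (Subgroup.pi T fun _ => R).prod ⊤

/-- Changing one coordinate by a map. -/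
def upd (c : J) (f : G → G) (g : (J → G) × SG) : (J → G) × SG :=
  (Function.update g.1 c (f (g.1 c)), g.2)

/-- The deformation of one coordinate. -/
structure CDef {C : Type*} [CStarAlgebra C] {s : TrState C} (L : TwAlg (εP (J → FT)) s)
    (c : J) where
  α : ℝ → C →⋆ₐ[ℂ] C
  γ : C →⋆ₐ[ℂ] C
  tp_α : ∀ θ, TP s s (α θ)
  tp_γ : TP s s γ
  α_add : ∀ θ θ' x, α θ (α θ' x) = α (θ + θ') x
  α_zero : ∀ x, α 0 x = x
  α_cont : ∀ x, Tendsto (fun θ => s.n2 (α θ x - x)) (𝓝 0) (𝓝 0)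
  γ_α : ∀ θ x, γ (α θ x) = α (-θ) (γ x)
  α_end : ∀ g, ∃ a : ℂ, α (π / 2) (L.u g) = a • L.u (upd c (φT ΓE) g)
  α_end' : ∀ g, ∃ a : ℂ, α (-(π / 2)) (L.u g) = a • L.u (upd c (φT ΓE) g)
  α_in : ∀ θ x, L.In x (PK (HR ΓE) {c}ᶜ) → L.In (α θ x) (PK (HR ΓE) {c}ᶜ)
  γ_in : ∀ x, L.In x (PK (HR ΓE) {c}ᶜ) → L.In (γ x) (PK (HR ΓE) {c}ᶜ)
  γ_fix : ∀ x, L.In x (PK (HR ΓE) (Set.univ : Set J)) → γ x = x

end Pool.Agent.P.MP_a6af55_an.Pw
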