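import Pool.Agent.P.MP_a6af55_an.PwBase

namespace Pool.Agent.P.MP_a6af55_an.Pw

open Pool.Agent.Lib.Tracial
open scoped ComplexOrder InnerProductSpace ComplexConjugate Pointwise Real
open Filter Topology

section pwdef

variable {J : Type} [DecidableEq J] {C : Type*} [CStarAlgebra C] {s : TrState C}

lemma pwdef_single_mul (c : J) (k : FT) (f : J → FT) :
    Pi.mulSingle c k * Function.update f c 1 = Function.update f c k := by
  funext j
  by_cases h : j = c
  · subst h; simp
  · simp [h]

lemma pwdef_mul_single (c : J) (k : FT) (f : J → FT) :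
    Function.update f c 1 * Pi.mulSingle c k = Function.update f c k := by
  funext j
  by_cases h : j = c
  · subst h; simp
  · simp [h]

lemma pwdef_update_mul (c : J) (f f' : J → FT) :
    Function.update f c 1 * Function.update f' c 1 = Function.update (f * f') c 1 := by
  funext j
  by_cases h : j = c
  · subst h; simp
  · simp [h]

/-- The restriction to one coordinate. -/
noncomputable def pwdefRes (L : TwRep (εP (J → FT)) s) (c : J) : TwRep (εP FT) s where
  u g := L.u (Pi.mulSingle c g.1, g.2)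
  unit g := L.unit _
  u_one := by
    rw [Prod.fst_one, Prod.snd_one, Pi.mulSingle_one]
    exact L.u_one
  u_mul g h := by
    rw [L.u_mul, Prod.mk_mul_mk, ← Pi.mulSingle_mul]
    rfl
  τ_u g hg := L.τ_u _ fun e => hg (Prod.ext
    (by simpa using congrFun (congrArg Prod.fst e) c) (Prod.ext_iff.1 e).2)

variable (L : TwRep (εP (J → FT)) s) (c : J)

lemma pwdef_U_mul (k : FT) (f : J → FT) (σ : SG) :
    (pwdefRes L c).U k * L.u (Function.update f c 1, σ) = L.u (Function.update f c k, σ) := by
  change L.u (Pi.mulSingle c k, 1) * _ = _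
  rw [L.u_mul, Prod.mk_mul_mk, pwdef_single_mul, one_mul]
  simp [sg, εP_apply]

lemma pwdef_mul_U (k : FT) (f : J → FT) (σ : SG) :
    L.u (Function.update f c 1, σ) * (pwdefRes L c).U k = L.u (Function.update f c k, σ) := by
  change _ * L.u (Pi.mulSingle c k, 1) = _
  rw [L.u_mul, Prod.mk_mul_mk, pwdef_mul_single, mul_one]
  simp [sg, εP_apply]

variable {L c} {B : ℝ → FT →* C}

lemma pwdef_comm (hB : Dfm.IsB (pwdefRes L c) B) (θ : ℝ) (k : FT) (f : J → FT) (σ : SG) :
    L.u (Function.update f c 1, σ) * B θ k = B θ k * L.u (Function.update f c 1, σ) :=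
  hB.span θ k (p := fun x => L.u (Function.update f c 1, σ) * x =
      x * L.u (Function.update f c 1, σ))
    (fun k => by rw [pwdef_U_mul, pwdef_mul_U])
    (fun x y a b => by rw [mul_add, add_mul, a, b])
    (fun r x a => by rw [mul_smul_comm, smul_mul_assoc, a])

/-- The representation deformed in one coordinate. -/
noncomputable def pwdefRep (hB : Dfm.IsB (pwdefRes L c) B) (θ : ℝ) : TwRep (εP (J → FT)) s where
  u g := B θ (g.1 c) * L.u (Function.update g.1 c 1, g.2)
  unit g := mul_mem (hB.unit θ _) (L.unit _)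
  u_one := by
    rw [Prod.fst_one, Prod.snd_one, Pi.one_apply, map_one, one_mul,
      show Function.update (1 : J → FT) c 1 = 1 from Function.update_eq_self c _]
    exact L.u_one
  u_mul g h := by
    rw [mul_assoc, ← mul_assoc (L.u _), pwdef_comm hB, mul_assoc, L.u_mul, ← mul_assoc, ← map_mul,
      mul_smul_comm, Prod.mk_mul_mk, pwdef_update_mul]
    rfl
  τ_u g hg := by
    by_cases hs : (Function.update g.1 c 1, g.2) = 1
    · rw [hs, L.u_one, mul_one, hB.τ_eq]
      refine (pwdefRes L c).τ_u _ fun e => hg (Prod.ext ?_ (Prod.ext_iff.1 hs).2)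
      have h1 : g.1 c = 1 := congrArg Prod.fst e
      have h2 : Function.update g.1 c 1 = 1 := congrArg Prod.fst hs
      rw [← h1, Function.update_eq_self] at h2
      exact h2
    · exact hB.span θ (g.1 c) (p := fun x => s.τ (x * L.u (Function.update g.1 c 1, g.2)) = 0)
        (fun k => by
          rw [pwdef_U_mul]
          refine L.τ_u _ fun e => hs (Prod.ext ?_ (Prod.ext_iff.1 e).2)
          have h2 : Function.update g.1 c k = 1 := congrArg Prod.fst e
          have h1 : k = 1 := by simpa using congrFun h2 c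
          rw [h1] at h2
          exact h2)
        (fun x y a b => by rw [add_mul, map_add, a, b, add_zero])
        (fun r x a => by rw [smul_mul_assoc, map_smul, a, smul_zero])

lemma pwdef_mem_PK {g : (J → FT) × SG} (hg : g ∈ PK (HR ΓE) ({c}ᶜ : Set J)) (k : FT) :
    (Function.update g.1 c k, g.2) ∈ PK (HR ΓE) ({c}ᶜ : Set J) :=
  ⟨fun j hj => by
    change Function.update g.1 c k j ∈ HR ΓE
    rw [Function.update_of_ne hj]
    exact hg.1 j hj, trivial⟩

end pwdef

open Dfm in
theorem exists_cdef {J : Type} [DecidableEq J] {C : Type*} [CStarAlgebra C] {s : TrState C} [s.W]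
    (L : TwAlg (εP (J → FT)) s) (c : J) : Nonempty (CDef L c) := by
  obtain ⟨B, hB⟩ := exists_B (pwdefRes L.toTwRep c)
  choose α tα hα using fun θ => L.exists_hom (pwdefRep hB θ)
  replace hα : ∀ θ g, α θ (L.u g) = B θ (g.1 c) * L.u (Function.update g.1 c 1, g.2) := hα
  have hα' : ∀ θ f σ, α θ (L.u (f, σ)) = B θ (f c) * L.u (Function.update f c 1, σ) :=
    fun θ f σ => hα θ (f, σ)
  have tid : TP s s (StarAlgHom.id ℂ C) := fun _ => rfl
  have hS : ∀ θ f σ, α θ (L.u (Function.update f c 1, σ)) = L.u (Function.update f c 1, σ) :=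
    fun θ f σ => by rw [hα', Function.update_self, map_one, one_mul, Function.update_idem]
  have hU : ∀ θ k, α θ ((pwdefRes L.toTwRep c).U k) = B θ k := fun θ k => by
    change α θ (L.u (Pi.mulSingle c k, 1)) = _
    rw [hα', Pi.mulSingle_eq_same, show Function.update (Pi.mulSingle c k : J → FT) c 1 = 1 from
      (Function.update_idem _ _ _).trans (Function.update_eq_self c _),
      show L.u (1, 1) = 1 from L.u_one, mul_one]
  have hl : ∀ θ d, α θ (MonoidAlgebra.lift ℂ C FT (B 0) d) =
      MonoidAlgebra.lift ℂ C FT (B θ) d := fun θ d => by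
    induction d using MonoidAlgebra.induction_on with
    | of k => rw [MonoidAlgebra.lift_of, MonoidAlgebra.lift_of, hB.zero, hU]
    | add d d' a b => rw [map_add, map_add, map_add, a, b]
    | smul r d a => rw [map_smul, map_smul, map_smul, a]
  have h0 : ∀ g, α 0 (L.u g) = L.u g := fun g => by
    rw [hα, hB.zero, pwdef_U_mul, Function.update_eq_self]
  obtain ⟨χ, n1, c1, c2, c3⟩ := exists_char (Γ0 := ΓE) 1 (-1) (by simp) (by simp) (by simp)
  obtain ⟨χ', n2, d1, d2, d3⟩ := exists_char (Γ0 := ΓE) Complex.I 1 (by simp) (by simp) (by simp)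
  obtain ⟨γ, tγ, hγ⟩ : ∃ φ : C →⋆ₐ[ℂ] C, TP s s φ ∧ ∀ g, φ (L.u g) = χ (g.1 c) • L.u g :=
    L.exists_hom (L.twist (εP (J → FT)) (MonoidHom.id _) Function.injective_id (fun _ _ => rfl)
      (χ.comp ((Pi.evalMonoidHom (fun _ : J => FT) c).comp (MonoidHom.fst _ _))) fun g => n1 _)
  have hγ' : ∀ f σ, γ (L.u (f, σ)) = χ (f c) • L.u (f, σ) := fun f σ => hγ (f, σ)
  have hend : ∀ g, α (π / 2) (L.u g) = χ' (g.1 c) • L.u (upd c (φT ΓE) g) := fun g => by
    rw [hα, hB.endpt d1 d2 d3, smul_mul_assoc, pwdef_U_mul, upd]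
  have hγU : ∀ k, γ ((pwdefRes L.toTwRep c).U k) = χ k • (pwdefRes L.toTwRep c).U k := fun k => by
    change γ (L.u (Pi.mulSingle c k, 1)) = _
    rw [hγ', Pi.mulSingle_eq_same]
    rfl
  have hγB : ∀ θ k, γ (B θ k) = χ k • B (-θ) k := fun θ =>
    ext3 (f := (γ : C →* C).comp (B θ)) (f' :=
      { toFun g := χ g • B (-θ) g
        map_one' := by simp
        map_mul' g h := by simp only [map_mul, smul_mul_smul_comm] })
      (fun l => by
        change γ (B θ _) = χ _ • B (-θ) _
        rw [hB.inl, hB.inl, hγU])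
      (fun j => by
        change γ (B θ _) = χ _ • B (-θ) _
        rw [hB.at_t, hB.at_t, map_mul, hγU, smul_mul_assoc]
        simp [rot, hγU, c3])
      (fun j => by
        change γ (B θ _) = χ _ • B (-θ) _
        rw [hB.at_s, hB.at_s, hγU])
  have hadd : ∀ θ θ' x, α θ (α θ' x) = α (θ + θ') x := fun θ θ' x => by
    refine DFunLike.congr_fun (L.hom_ext ((tα θ).comp (tα θ')) (tα (θ + θ')) fun g => ?_) x
    obtain ⟨d, hd⟩ := hB.add θ' (g.1 c)
    rw [StarAlgHom.comp_apply, hα, hα, map_mul, hS, add_comm θ, hd, ← hl, ← hd, add_zero]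
  have hzero : ∀ x, α 0 x = x := fun x => DFunLike.congr_fun (L.hom_ext (tα 0) tid h0) x
  refine ⟨⟨α, γ, tα, tγ, hadd, hzero, fun x => ?_, fun θ x => ?_, fun g => ⟨_, hend g⟩,
    fun g => ?_, fun θ x hx => ?_, fun x hx => ?_, fun x hx => ?_⟩⟩
  · have h1 : ∀ p ∈ Submodule.span ℂ (Set.range L.u), Tendsto (fun θ => α θ p) (𝓝 0) (𝓝 p) := by
      intro p hp
      refine Submodule.span_induction (p := fun p _ => Tendsto (fun θ => α θ p) (𝓝 0) (𝓝 p)) ?_
        (by simp) (fun x y _ _ a b => by simpa only [map_add] using a.add b)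
        (fun c x _ a => by simpa only [map_smul] using a.const_smul c) hp
      rintro _ ⟨g, rfl⟩
      obtain ⟨D, -, hD⟩ := hB.deriv (g.1 c)
      have := hD.continuousAt.tendsto.mul_const (L.u (Function.update g.1 c 1, g.2))
      simpa only [← hα, h0] using this
    refine Metric.tendsto_nhds.2 fun δ hδ => ?_
    obtain ⟨p, hp, h⟩ := L.dense x (δ / 3) (by positivity)
    filter_upwards [Metric.tendsto_nhds.1 (h1 p hp) (δ / 3) (by positivity)] with θ hθ
    rw [dist_zero_right, Real.norm_of_nonneg (s.n2_nonneg _)]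
    rw [dist_eq_norm] at hθ
    have a1 := s.n2_triangle (α θ x) (α θ p) x
    have a2 := s.n2_triangle (α θ p) p x
    have a3 := (tα θ).n2 (x - p)
    rw [map_sub] at a3
    linarith [s.n2_le_norm (α θ p - p), s.n2_sub_comm p x]
  · refine DFunLike.congr_fun (L.hom_ext (tγ.comp (tα θ)) ((tα (-θ)).comp tγ) fun g => ?_) x
    rw [StarAlgHom.comp_apply, StarAlgHom.comp_apply, hα, map_mul, hγB, hγ', hγ, map_smul, hα,
      Function.update_self, map_one, one_smul, smul_mul_assoc]
  · have h1 : upd c (φT ΓE) (upd c (φT ΓE) g) = g := by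
      simp only [upd, Function.update_self, Function.update_idem, φT_φT, Function.update_eq_self]
    have h2 := hend (upd c (φT ΓE) g)
    have h3 : χ' ((upd c (φT ΓE) g).1 c) ≠ 0 := norm_ne_zero_iff.1 (by rw [n2]; exact one_ne_zero)
    rw [h1] at h2
    have h4 := congrArg (α (-(π / 2))) h2
    rw [hadd, neg_add_cancel, hzero, map_smul] at h4
    exact ⟨_, ((inv_smul_eq_iff₀ h3).2 h4).symm⟩
  · obtain ⟨V, hV, -⟩ := (tα θ).exists_clm
    rw [TwAlg.in_iff_m, TwAlg.m, norm_eq_zero, ← hV]
    refine hx.map_eq_zero ((L.PE _).comp V) fun g hg => ?_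
    have h1 : L.In (α θ (L.u g)) (PK (HR ΓE) ({c}ᶜ : Set J)) := by
      rw [hα]
      exact hB.span θ (g.1 c) (p := fun x => L.In (x * L.u (Function.update g.1 c 1, g.2))
          (PK (HR ΓE) ({c}ᶜ : Set J)))
        (fun k => by
          rw [pwdef_U_mul]
          exact L.in_u (pwdef_mem_PK hg k))
        (fun x y a b => by rw [add_mul]; exact a.add b)
        (fun r x a => by rw [smul_mul_assoc]; exact a.smul r)
    rw [TwAlg.in_iff_m, TwAlg.m, norm_eq_zero, ← hV] at h1
    exact h1
  · exact L.in_map L tγ (j := id) (fun g => ⟨_, hγ g⟩) hx fun g hg => hg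
  · refine hx.hom_eq tγ tid fun g hg => ?_
    obtain ⟨h, hh⟩ := hg.1 c trivial
    have : χ (ιH ΓE h) = 1 := by
      have := ext3 (f := χ.comp ((ιH ΓE).comp (liftT (MonoidHom.id _) (fun _ => 1) (by simp))))
        (f' := 1) (fun l => by simp only [MonoidHom.comp_apply, liftT_ι]; exact c1 l)
        (fun j => by simp only [MonoidHom.comp_apply, liftT_ι]; exact c2 j)
        (fun j => by simp only [MonoidHom.comp_apply, liftT_sj, map_one]; rfl) (ιH ΓE h)
      simpa only [MonoidHom.comp_apply, liftT_ι, MonoidHom.id_apply, MonoidHom.one_apply] using this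
    rw [hγ, ← hh, this, one_smul]
    rfl

end Pool.Agent.P.MP_a6af55_an.Pw
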