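import Pool.Agent.P.MP_a6af55_an.PwBase

namespace Pool.Agent.P.MP_a6af55_an.Pw

open Pool.Agent.Lib.Tracial
open scoped ComplexOrder InnerProductSpace ComplexConjugate Pointwise Real
open Filter Topology

variable {J : Type} {G : Type} [Group G]

theorem tails_pi [Fintype J] [Nonempty J] {R : Subgroup G} (T : Tails R) :
    Nonempty (Tails (Subgroup.pi Set.univ fun _ : J => R)) := by
  obtain ⟨i0⟩ := ‹Nonempty J›
  refine ⟨⟨fun m => Subgroup.pi Set.univ fun _ => T.H m,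
    fun m => (T.F m).map (Pi.constMonoidHom J G),
    fun _ _ h g hg i hi => T.mono h (hg i hi), fun g hg => ?_, fun m => ?_, fun m => ⟨?_, ?_⟩,
    fun m => ?_, fun m => ?_⟩⟩
  · choose f hf using fun i : J => T.exh (g i) (hg i (Set.mem_univ i))
    exact ⟨Finset.univ.sup f, fun i _ => T.mono (Finset.le_sup (Finset.mem_univ i)) (hf i)⟩
  · rintro _ ⟨c, hc, rfl⟩ i _
    exact T.F_le m hc
  · rintro _ hg ⟨c, hc, rfl⟩
    have : c = 1 := (T.free m).inter c (hg i0 (Set.mem_univ _)) hc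
    rw [this, map_one]
  · rintro p hp p' hp' h1 _ ⟨c, hc, rfl⟩ ⟨d, hd, e⟩
    obtain ⟨i, hi⟩ := Function.ne_iff.1 h1
    have e' : ∀ j, d = p j * c * (p' j)⁻¹ := fun j => congrFun e j
    obtain ⟨h2, h3⟩ := (T.free m).conj (p i) (hp i (Set.mem_univ _)) (p' i)
      (hp' i (Set.mem_univ _)) hi c hc (e' i ▸ hd)
    have h4 : d = 1 := by rw [e' i, h2, h3, mul_one, mul_inv_cancel]
    refine ⟨funext fun j => ?_, by rw [h3, map_one]⟩
    have h5 := e' j
    rw [h4, h3, mul_one] at h5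
    exact mul_inv_eq_one.1 h5.symm
  · rintro _ ⟨c, hc, rfl⟩ h1
    obtain ⟨a, ha, b, hb, B, h2, h3⟩ := T.esc m c hc fun h => h1 (by rw [h, map_one])
    exact ⟨_, ⟨a, ha, rfl⟩, _, ⟨b, hb, rfl⟩, Pi.evalMonoidHom (fun _ : J => G) i0 ⁻¹' B,
      g2_comap _ h2, h3⟩
  · exact (T.inf m).image (f := Pi.constMonoidHom J G) fun a _ b _ h => congrFun h i0

theorem freeOn_pi {R : Subgroup G} {R' : J → Subgroup G} {D : J → Set G}
    (h : ∀ c, FreeOn R (R' c) (D c)) :
    FreeOn (Subgroup.pi Set.univ fun _ : J => R) (Subgroup.pi Set.univ R') {g | ∀ c, g c ∈ D c} := by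
  refine ⟨fun k hk g => forall_congr' fun c => (h c).left _ (hk c (Set.mem_univ _)) _,
    fun k hk g => forall_congr' fun c => (h c).right _ (hk c (Set.mem_univ _)) _,
    fun k hk k' hk' g hg e => funext fun c => ?_⟩
  exact (h c).free (k c) (hk c (Set.mem_univ _)) (k' c) (hk' c (Set.mem_univ _)) (g c) (hg c)
    (congrFun e c)

lemma pwGrp_GR {m : FT} (hm : m ∈ GR ΓE) : m = 1 := by
  obtain ⟨x, hx, rfl⟩ := hm
  have h : Hm ΓE 0 ≤ ⊥ := sub_le fun a ha => by
    rcases a with a | a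
    exacts [a.elim, (Nat.not_lt_zero _ (ha a rfl)).elim]
  rw [Subgroup.mem_bot.1 (h hx), map_one]

theorem freeOn_φ_univ : FreeOn (HR ΓE) ((HR ΓE).map (φT ΓE)) Set.univ := by
  refine ⟨fun _ _ _ => Iff.rfl, fun _ _ _ => Iff.rfl, fun k hk k' hk' g _ e => ?_⟩
  by_cases hg : g ∈ DC (HR ΓE) ((HR ΓE).map (φT ΓE))
  · obtain ⟨h, hh, h', hh', rfl⟩ := hg
    have e1 : h' * k'⁻¹ * h'⁻¹ = h⁻¹ * k * h := by
      have e2 : k = h * h' * k'⁻¹ * (h * h')⁻¹ := by
        rw [eq_mul_inv_iff_mul_eq, eq_mul_inv_iff_mul_eq]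
        exact e
      rw [e2]
      group
    obtain ⟨m, hm, e3⟩ := mul_mem (mul_mem hh' (inv_mem hk')) (inv_mem hh')
    rw [e1] at e3
    have e4 : m = 1 := pwGrp_GR
      (mem_GR_of_φT hm (e3 ▸ mul_mem (mul_mem (inv_mem hh) hk) hh))
    rw [e4, map_one] at e3
    have e5 : k = h * (h⁻¹ * k * h) * h⁻¹ := by group
    rw [e5, ← e3, mul_one, mul_inv_cancel]
  · exact freeOn_φ.free k hk k' hk' g hg e

lemma pwGrp_pp [DecidableEq J] (c : J) :
    PP (Pi.mulSingle c (tj ΓE 0) : J → FH) (Pi.mulSingle c (tj ΓE 1))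
      (Pi.evalMonoidHom (fun _ : J => FH) c ⁻¹' ({1} : Set FH)ᶜ) := by
  refine g2_comap _ ?_
  rw [Pi.evalMonoidHom_apply, Pi.evalMonoidHom_apply, Pi.mulSingle_eq_same, Pi.mulSingle_eq_same]
  exact pp_tj 0

lemma pwGrp_comm [DecidableEq J] (c : J) (x : G) {k : J → G} (hk : k c = 1) :
    Commute (Pi.mulSingle c x : J → G) k := by
  refine funext fun j => ?_
  rw [Pi.mul_apply, Pi.mul_apply]
  by_cases h : j = c
  · rw [h, hk, mul_one, one_mul]
  · rw [Pi.mulSingle_eq_of_ne h, mul_one, one_mul]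

/-- The pair in one coordinate. -/
noncomputable def pwGrp_pair [DecidableEq J] (c : J) : Pair (J → FH) :=
  ⟨fun k => Pi.mulSingle c (tj ΓE k.val), (Pi.evalMonoidHom (fun _ : J => FH) c).ker, pwGrp_pp c,
    (liftH (1 : FH →* FreeGroup (Fin 2)) fun j =>
      FreeGroup.of (if j = 0 then 0 else 1)).comp (Pi.evalMonoidHom (fun _ : J => FH) c),
    fun i => by
      rw [MonoidHom.comp_apply, Pi.evalMonoidHom_apply, Pi.mulSingle_eq_same, liftH_tj]
      fin_cases i <;> rfl,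
    fun k hk => by rw [MonoidHom.comp_apply, MonoidHom.mem_ker.1 hk, map_one],
    fun _ _ hk => pwGrp_comm c _ hk⟩

theorem exists_pairs [DecidableEq J] : ∃ q : J → Pair (J → FH),
    (∀ c, ∀ g ∈ (q c).K, g ≠ 1 → Esc (q c).K g) ∧
      ∀ c c', c ≠ c' → ∀ k l, Commute ((q c).g k) ((q c').g l) := by
  refine ⟨pwGrp_pair, fun c g hg h1 => ?_, fun c c' h k l => ?_⟩
  · obtain ⟨i, hi⟩ := Function.ne_iff.1 h1
    have hc : c ≠ i := fun h => hi (h ▸ hg)
    exact ⟨_, Pi.mulSingle_eq_of_ne (M := fun _ : J => FH) hc _, _,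
      Pi.mulSingle_eq_of_ne (M := fun _ : J => FH) hc _, _, pwGrp_pp i, hi⟩
  · exact pwGrp_comm c _ (Pi.mulSingle_eq_of_ne (M := fun _ : J => FH) h _)

theorem pp_diag : PP (fun _ : J => tj ΓE 0) (fun _ : J => tj ΓE 1) ({1} : Set (J → FH))ᶜ := by
  have h := PP.prod (Set.univ : Set J) (fun _ => MonoidHom.id (J → FH)) (fun _ : J => tj ΓE 0)
    (fun _ : J => tj ΓE 1) (fun w => Pi.evalMonoidHom (fun _ : J => FH) w ⁻¹' ({1} : Set FH)ᶜ)
    fun w _ => g2_comap _ (pp_tj 0)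
  have e : ({1} : Set (J → FH))ᶜ = {g | ∃ w ∈ (Set.univ : Set J), MonoidHom.id (J → FH) g ∈
      Pi.evalMonoidHom (fun _ : J => FH) w ⁻¹' ({1} : Set FH)ᶜ} :=
    Set.ext fun g => Function.ne_iff.trans
      (exists_congr fun w => (and_iff_right (Set.mem_univ w)).symm)
  rw [e]
  exact h

theorem det_pi (g : J → FH) (hg : g ≠ 1) : Det g := by
  obtain ⟨i, hi⟩ := Function.ne_iff.1 hg
  exact Det.comp (Pi.evalMonoidHom (fun _ : J => FH) i) (det_all _ hi)

theorem fin_split (k : ℕ) : ∃ (j1 : (Fin 1 → G) →* (Fin (k + 2) → G))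
    (j2 : (Fin (k + 1) → G) →* (Fin (k + 2) → G)), Function.Injective j1 ∧ Function.Injective j2 ∧
    (∀ a b, Commute (j1 a) (j2 b)) ∧ (∀ a b, j1 a = j2 b → j1 a = 1) ∧
    ∀ g, ∃ a b, g = j1 a * j2 b := by
  refine ⟨MonoidHom.mk' (fun a => Fin.cons (a 0) 1) fun a b => funext fun i => ?_,
    MonoidHom.mk' (fun b => Fin.cons 1 b) fun a b => funext fun i => ?_,
    fun a b h => funext fun i => ?_, fun a b h => funext fun i => congrFun h i.succ,
    fun a b => funext fun i => ?_, fun a b h => funext fun i => ?_,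
    fun g => ⟨fun _ => g 0, fun i => g i.succ, funext fun i => ?_⟩⟩
  · refine Fin.cases rfl (fun i => ?_) i
    exact (one_mul (1 : G)).symm
  · refine Fin.cases ?_ (fun i => rfl) i
    exact (one_mul (1 : G)).symm
  · rw [Subsingleton.elim i 0]
    exact congrFun h 0
  · refine Fin.cases ?_ (fun i => ?_) i
    · exact (mul_one (a 0)).trans (one_mul (a 0)).symm
    · exact (one_mul (b i)).trans (mul_one (b i)).symm
  · refine Fin.cases ?_ (fun i => rfl) i
    exact congrFun h 0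
  · refine Fin.cases ?_ (fun i => ?_) i
    · exact (mul_one (g 0)).symm
    · exact (one_mul (g i.succ)).symm

end Pool.Agent.P.MP_a6af55_an.Pw
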