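import Pool.Agent.P.MP_a6af55_an.PwBase

namespace Pool.Agent.P.MP_a6af55_an.Pw

open Pool.Agent.Lib.Tracial
open scoped ComplexOrder InnerProductSpace ComplexConjugate Pointwise Real
open Filter Topology

variable {A B : Type*} [CStarAlgebra A] [CStarAlgebra B] {t : TrState A} {s : TrState B}
  {I : Type*} {U : Ultrafilter I}

/-- The doubling step with a uniform gap. -/
theorem over_doubling [t.W] [s.W] (ι : A →⋆ₐ[ℂ] B) (hι : TP t s ι) (α α' γ : B →⋆ₐ[ℂ] B)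
    (hα : TP s s α) (hγ : TP s s γ) (h1 : ∀ z, α (α' z) = z) (h2 : ∀ z, α' (α z) = z)
    (h3 : ∀ a, γ (ι a) = ι a) (h4 : ∀ a, γ (α (ι a)) = α' (ι a)) (b : Fin 2 → A)
    (hb : ∀ i, b i ∈ unitary A) (hQ : FacComm b) {δ : ℝ} (hδ : δ ≤ 1 / 16)
    (H1 : ∀ z : B, ‖z‖ ≤ 1 → ∑ i, s.cm (ι (b i)) z ≤ 2 * δ → ∃ a, s.n2 (z - ι a) ≤ 1 / 8)
    (H2 : ∀ z : B, (∀ y, (∀ i, Commute (b i) y) → Commute (ι y) z) → ∃ a, ι a = z)
    {v : B} (hv : ‖v‖ ≤ 1)
    (h : s.n2 (star v * v - 1) + ∑ i, s.n2 (ι (b i) * v - v * α (ι (b i))) ≤ δ) :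
    ∃ w ∈ unitary B, ∀ y, (∀ i, Commute (b i) y) → ι y * w = w * α (α (ι y)) := by
  have hV : ‖γ v‖ ≤ 1 := hom_norm_le γ hv
  have hd : 0 ≤ ∑ i, s.n2 (ι (b i) * v - v * α (ι (b i))) :=
    Finset.sum_nonneg fun _ _ => s.n2_nonneg _
  have hη := s.n2_nonneg (star v * v - 1)
  have hη' : s.n2 (star (γ v) * γ v - 1) = s.n2 (star v * v - 1) := by
    rw [← hγ.n2 (star v * v - 1), map_sub, map_mul, map_star, map_one]
  have hw : ‖α (star (γ v) * v)‖ ≤ 1 := hom_norm_le α (dbl_nmul (by simpa using hV) hv)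
  have est : ∀ y ∈ unitary A, (∀ i, Commute (b i) y) →
      s.n2 (ι y * α (star (γ v) * v) - α (star (γ v) * v) * α (α (ι y))) ≤ 3 / 8 := by
    intro y hy hyb
    have n1 : ‖ι y‖ ≤ 1 := norm_unitary_le (dbl_unit hy)
    have n2 : ‖α (ι y)‖ ≤ 1 := hom_norm_le α n1
    have e1 : ∑ i, s.cm (ι (b i)) (v * α (ι y) * star v) ≤
        2 * ∑ i, s.n2 (ι (b i) * v - v * α (ι (b i))) := by
      rw [Finset.mul_sum]
      exact Finset.sum_le_sum fun i _ => dbl_cm s (dbl_unit (hb i)) (dbl_unit (dbl_unit (hb i)))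
        n2 hv (((hyb i).map ι).map α).eq
    obtain ⟨a, ha⟩ := H1 (v * α (ι y) * star v) (dbl_nmul (dbl_nmul hv n2) (by simpa using hv))
      (by linarith)
    have e2 := hγ.n2 (v * α (ι y) * star v - ι a)
    rw [map_sub, h3, map_mul, map_mul, map_star, h4] at e2
    have e3 := s.n2_triangle (γ v * α' (ι y) * star (γ v)) (ι a) (v * α (ι y) * star v)
    rw [s.n2_sub_comm (ι a)] at e3
    have e4 := dbl_est s hv hV n2 (hom_norm_le α' n1)
    rw [← hα.n2, map_sub, map_mul, map_mul α (star (γ v) * v), h1] at e4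
    linarith
  obtain ⟨x, hx, hx'⟩ := dbl_avg s
    {u | ∃ y ∈ unitary A, (∀ i, Commute (b i) y) ∧ u = (ι y, α (α (ι y)))}
    (by rintro _ ⟨y, hy, -, rfl⟩; exact ⟨dbl_unit hy, dbl_unit (dbl_unit (dbl_unit hy))⟩)
    (by
      rintro _ ⟨y, hy, hy', rfl⟩ _ ⟨z, hz, hz', rfl⟩
      exact ⟨y * z, mul_mem hy hz, fun i => (hy' i).mul_right (hz' i), by simp⟩)
    ⟨_, 1, one_mem _, fun i => Commute.one_right _, rfl⟩ hw
    (by rintro _ ⟨y, hy, hy', rfl⟩; exact est y hy hy')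
  have hx0 : x ≠ 0 := by
    rintro rfl
    have := dbl_low s hv hV
    rw [zero_sub, s.n2_neg, hα.n2] at hx'
    linarith
  refine dbl_unitary ι hι (α.comp α) (α'.comp α') (hα.comp hα) (fun z => by simp [h1])
    (fun z => by simp [h2]) b hb hQ H2 hx0 fun y hy => ?_
  have hy' : y ∈ StarSubalgebra.centralizer ℂ (Set.range b) := by
    rw [StarSubalgebra.mem_centralizer_iff]
    rintro _ ⟨i, rfl⟩
    exact ⟨hy i, by simpa using (dbl_star (hb i) (hy i)).star_star.eq⟩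
  obtain ⟨u, c, e, -⟩ := CStarAlgebra.exists_sum_four_unitary
    (⟨y, hy'⟩ : StarSubalgebra.centralizer ℂ (Set.range b))
  have e' : y = ∑ i, c i • ((u i).1.1 : A) := by simpa using congrArg Subtype.val e
  rw [e']
  simp only [map_sum, map_smul, Finset.sum_mul, Finset.mul_sum, smul_mul_assoc, mul_smul_comm]
  refine Finset.sum_congr rfl fun i _ => congrArg _ (hx (_, _) ⟨(u i).1.1, ?_, fun j => ?_, rfl⟩)
  · exact dbl_unit (φ := (StarSubalgebra.centralizer ℂ (Set.range b)).subtype) (u i).2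
  · exact (((StarSubalgebra.mem_centralizer_iff ℂ).1 (u i).1.2) _ ⟨j, rfl⟩).1

/-- The gap is uniform. -/
theorem over_sat [t.W] {ι : A →⋆ₐ[ℂ] B} (hι : TP t s ι) {r : I → ℕ} (hr : Tendsto r U atTop)
    {b : Fin 2 → Ultrapower t U} (g : Gap U hι b) : ∃ δ > (0 : ℝ), δ ≤ 1 / 16 ∧
      ∀ z : Ultrapower s U, ‖z‖ ≤ 1 → ∑ k, (upTr s U).cm (upC U hι (b k)) z ≤ 2 * δ →
        ∃ a, (upTr s U).n2 (z - upC U hι a) ≤ 1 / 8 := by
  by_contra hn
  have h0 : ∀ n : ℕ, (0 : ℝ) < 1 / (n + 1) := fun n => Nat.one_div_pos_of_nat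
  have hz : ∀ n : ℕ, ∃ z : Ultrapower s U, ‖z‖ ≤ 1 ∧
      ∑ k, (upTr s U).cm (upC U hι (b k)) z < 1 / (n + 1) ∧
      ∀ a, 1 / 8 < (upTr s U).n2 (z - upC U hι a) := fun n => by
    by_contra h
    refine hn ⟨min (1 / (n + 1) / 4) (1 / 16), lt_min (by linarith [h0 n]) (by norm_num),
      min_le_right _ _, fun z h1 h2 => ?_⟩
    by_contra h3
    refine h ⟨z, h1, ?_, fun a => not_le.1 fun h4 => h3 ⟨a, h4⟩⟩
    linarith [min_le_left (1 / ((n : ℝ) + 1) / 4) (1 / 16), h0 n]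
  choose z z1 z2 z3 using hz
  choose ζ e hζ using fun n => exists_ball s U (z n) (z1 n)
  choose β e' using fun k => mkU_surjective t U (b k)
  obtain rfl : z = fun n => mkU s U (ζ n) := funext fun n => (e n).symm
  obtain rfl : b = fun k => mkU t U (β k) := funext fun k => (e' k).symm
  let P : I → ℕ → Prop := fun i n => ∑ k, s.cm (ι (β k i)) (ζ n i) < 1 / (n + 1) ∧
    ∀ a, ‖a‖ ≤ 1 → 1 / 8 < s.n2 (ζ n i - ι a)
  have hP : ∀ n, ∀ᶠ i : I in U, P i n := fun n => by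
    refine Eventually.and ?_ ?_
    · have h1 := z2 n
      simp only [upC, upMap_mkU] at h1
      exact (tendsto_finsetSum Finset.univ fun k _ =>
        tendsto_cm s U (bbMap (fun _ => ι) (β k)) (ζ n)).eventually (gt_mem_nhds h1)
    · by_contra h
      have key : ∀ i : I, ∃ a : A, ‖a‖ ≤ 1 ∧
          (¬ (∀ a, ‖a‖ ≤ 1 → 1 / 8 < s.n2 (ζ n i - ι a)) → s.n2 (ζ n i - ι a) ≤ 1 / 8) := fun i => by
        by_cases h1 : ∀ a, ‖a‖ ≤ 1 → 1 / 8 < s.n2 (ζ n i - ι a)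
        · exact ⟨0, by simp, fun h2 => absurd h1 h2⟩
        · simp only [not_forall, not_lt] at h1
          obtain ⟨a, h2, h3⟩ := h1
          exact ⟨a, h2, fun _ => h3⟩
      choose a a1 a2 using key
      have h1 := z3 n (mkU t U (BB.mk a 1 a1))
      rw [upC, upMap_mkU, ← map_sub] at h1
      exact h1.not_ge (n2_mkU_le s U ((Ultrafilter.eventually_not.2 h).mono a2))
  classical
  let m : I → ℕ := fun i => Nat.findGreatest (P i) (r i)
  have hm : Tendsto m U atTop := tendsto_atTop.2 fun n => by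
    filter_upwards [hP n, hr.eventually_ge_atTop n] with i h1 h2
    exact Nat.le_findGreatest h2 h1
  have hm' : ∀ᶠ i : I in U, P i (m i) :=
    (hP 0).mono fun i h1 => Nat.findGreatest_spec (Nat.zero_le _) h1
  obtain ⟨a, ha⟩ := g (mkU s U (BB.mk (fun i => ζ (m i) i) 1 fun i => hζ _ i)) fun k => by
    rw [upC, upMap_mkU, comm_mkU]
    refine squeeze_zero' (Eventually.of_forall fun _ => s.cm_nonneg _ _) (hm'.mono fun i h1 => ?_)
      (tendsto_one_div_add_atTop_nhds_zero_nat.comp hm)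
    exact (Finset.single_le_sum (f := fun k => s.cm (ι (β k i)) (ζ (m i) i))
      (fun _ _ => s.cm_nonneg _ _) (Finset.mem_univ k)).trans h1.1.le
  have ha' : ‖a‖ ≤ 1 := by
    rw [← (tp_upMap U (fun _ => ι) fun _ => hι).norm, ha]
    exact norm_mkU_le_one s U fun i => hζ _ i
  obtain ⟨a, rfl, a1⟩ := exists_ball t U a ha'
  rw [upC, upMap_mkU, eq_comm, mkU_eq_iff] at ha
  obtain ⟨i, h1, h2⟩ := (hm'.and (ha.eventually (gt_mem_nhds (show (0 : ℝ) < 1 / 8 by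
    norm_num)))).exists
  exact (h1.2 _ (a1 i)).not_gt h2

variable (D : Def1 t s)

/-- The ultraproduct of the deformation along a family of angles. -/
noncomputable abbrev overA (θ : I → ℝ) : Ultrapower s U →⋆ₐ[ℂ] Ultrapower s U :=
  upMap U (fun i => D.α (θ i)) fun _ => D.tp_α _

lemma overA_overA (θ θ' : I → ℝ) (z : Ultrapower s U) :
    overA D θ (overA D θ' z) = overA D (fun i => θ i + θ' i) z := by
  obtain ⟨z, rfl⟩ := mkU_surjective s U z
  simp only [overA, upMap_mkU]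
  congr 1
  ext i
  exact D.α_add _ _ _

lemma overA_zero {θ : I → ℝ} (h : ∀ i, θ i = 0) (z : Ultrapower s U) : overA D θ z = z := by
  obtain ⟨z, rfl⟩ := mkU_surjective s U z
  simp only [overA, upMap_mkU]
  congr 1
  ext i
  exact (congrArg (fun a => D.α a (z i)) (h i)).trans (D.α_zero _)

lemma over_up (β : Fin 2 → BB I A) (θ : I → ℝ) {δ : ℝ} (h : ∀ᶠ i : I in U, ∃ v : B, ‖v‖ ≤ 1 ∧
      kurD s (fun k => D.ι (β k i)) (fun k => D.α (θ i) (D.ι (β k i))) v < δ) :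
    ∃ v : Ultrapower s U, ‖v‖ ≤ 1 ∧
      kurD (upTr s U) (fun k => upC U D.tp_ι (mkU t U (β k)))
        (fun k => overA D θ (upC U D.tp_ι (mkU t U (β k)))) v ≤ δ := by
  have h' : ∀ i : I, ∃ v : B, ‖v‖ ≤ 1 ∧ ((∃ v : B, ‖v‖ ≤ 1 ∧
      kurD s (fun k => D.ι (β k i)) (fun k => D.α (θ i) (D.ι (β k i))) v < δ) →
      kurD s (fun k => D.ι (β k i)) (fun k => D.α (θ i) (D.ι (β k i))) v < δ) := fun i => by
    by_cases e : ∃ v : B, ‖v‖ ≤ 1 ∧
      kurD s (fun k => D.ι (β k i)) (fun k => D.α (θ i) (D.ι (β k i))) v < δ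
    · obtain ⟨v, h1, h2⟩ := e
      exact ⟨v, h1, fun _ => h2⟩
    · exact ⟨0, by simp, fun e' => (e e').elim⟩
  choose v hv hv' using h'
  refine ⟨mkU s U (BB.mk v 1 hv), norm_mkU_le_one s U hv, ?_⟩
  simp only [overA, upC, upMap_mkU]
  exact le_of_tendsto (kur_tendsto _ _ _) (h.mono fun i hi => (hv' i hi).le)

lemma over_down (β : Fin 2 → BB I A) (θ : I → ℝ) {δ : ℝ} (hδ : 0 < δ) {w : Ultrapower s U}
    (hw : w ∈ unitary (Ultrapower s U))
    (h : ∀ k, upC U D.tp_ι (mkU t U (β k)) * w = w * overA D θ (upC U D.tp_ι (mkU t U (β k)))) :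
    ∀ᶠ i : I in U, ∃ v : B, ‖v‖ ≤ 1 ∧
      kurD s (fun k => D.ι (β k i)) (fun k => D.α (θ i) (D.ι (β k i))) v < δ := by
  obtain ⟨v, rfl, hv⟩ := exists_ball s U w (norm_unitary_le hw)
  simp only [overA, upC, upMap_mkU] at h
  have := kur_tendsto (s := s) (U := U) (fun k => bbMap (fun _ => D.ι) (β k))
    (fun k => bbMap (fun i => D.α (θ i)) (bbMap (fun _ => D.ι) (β k))) v
  rw [kurD, hw.1] at this
  simp only [h, sub_self, TrState.n2_zero, Finset.sum_const_zero, add_zero] at this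
  exact (this.eventually (gt_mem_nhds hδ)).mono fun i hi => ⟨v i, hv i, hi⟩

variable [t.W] [s.W]

lemma over_dbl {b x : Fin 2 → Ultrapower t U} (hb : ∀ k, b k ∈ unitary (Ultrapower t U))
    (hc : ∀ k l, Commute (b k) (x l)) (g2 : Gap U D.tp_ι x) (h3 : FacComm b) {δ : ℝ}
    (hδ : δ ≤ 1 / 16) (H1 : ∀ z : Ultrapower s U, ‖z‖ ≤ 1 →
      ∑ k, (upTr s U).cm (upC U D.tp_ι (b k)) z ≤ 2 * δ →
        ∃ a, (upTr s U).n2 (z - upC U D.tp_ι a) ≤ 1 / 8)
    (θ : I → ℝ) {v : Ultrapower s U} (hv : ‖v‖ ≤ 1)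
    (h : kurD (upTr s U) (fun k => upC U D.tp_ι (b k))
      (fun k => overA D θ (upC U D.tp_ι (b k))) v ≤ δ) :
    ∃ w ∈ unitary (Ultrapower s U), ∀ y, (∀ k, Commute (b k) y) →
      upC U D.tp_ι y * w = w * overA D (fun i => θ i + θ i) (upC U D.tp_ι y) := by
  have hγ : ∀ a, upC U D.tp_γ (upC U D.tp_ι a) = upC U D.tp_ι a := fun a => by
    obtain ⟨a, rfl⟩ := mkU_surjective t U a
    simp only [upC, upMap_mkU]
    congr 1
    ext i
    exact D.γ_ι _
  simp only [← overA_overA]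
  refine over_doubling _ (tp_upMap U _ _) (overA D θ) (overA D fun i => -θ i)
    (upC U D.tp_γ) (tp_upMap U _ _) (tp_upMap U _ _)
    (fun z => by rw [overA_overA, overA_zero D fun i => add_neg_cancel _])
    (fun z => by rw [overA_overA, overA_zero D fun i => neg_add_cancel _]) hγ (fun a => ?_) b hb h3
    hδ H1 (fun z hz => g2 z fun l => hz _ fun k => hc k l) hv h
  conv_rhs => rw [← hγ]
  obtain ⟨z, hz⟩ := mkU_surjective s U (upC U D.tp_ι a)
  rw [← hz]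
  simp only [overA, upC, upMap_mkU]
  congr 1
  ext i
  exact D.γ_α _ _

theorem overspillP (D : Def1 t s) {r : I → ℕ} (hr : Tendsto r U atTop)
    {b x : Fin 2 → Ultrapower t U} (hb : ∀ k, b k ∈ unitary (Ultrapower t U))
    (hx : ∀ k, x k ∈ unitary (Ultrapower t U)) (hc : ∀ k l, Commute (b k) (x l))
    (g1 : Gap U D.tp_ι b) (g2 : Gap U D.tp_ι x) (h3 : FacComm b) (h4 : FacComm x) :
    ∃ v ∈ unitary (Ultrapower s U), ∀ y, (∀ k, Commute (b k) y) →
      upC U D.tp_ι y * v = v * upC U (D.tp_α (π / 2)) (upC U D.tp_ι y) := by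
  obtain ⟨δ, hδ, d1, H1⟩ := over_sat D.tp_ι hr g1
  obtain ⟨δ', hδ', d2, H2⟩ := over_sat D.tp_ι hr g2
  choose β e using fun k => mkU_surjective t U (b k)
  choose ξ e' using fun k => mkU_surjective t U (x k)
  obtain rfl : b = fun k => mkU t U (β k) := funext fun k => (e k).symm
  obtain rfl : x = fun k => mkU t U (ξ k) := funext fun k => (e' k).symm
  let P : I → ℝ → Prop := fun i θ => ∃ v : B, ‖v‖ ≤ 1 ∧
    kurD s (fun k => D.ι (β k i)) (fun k => D.α θ (D.ι (β k i))) v < δ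
  have hP : ∀ i, ∃ j : ℕ, P i (π / 4 * (1 / 4) ^ j) := fun i => by
    have a1 : Tendsto (fun j : ℕ => π / 4 * (1 / 4 : ℝ) ^ j) atTop (𝓝 0) := by
      simpa using (tendsto_pow_atTop_nhds_zero_of_lt_one (r := (1 / 4 : ℝ)) (by norm_num)
        (by norm_num)).const_mul (π / 4)
    have a2 := tendsto_finsetSum Finset.univ fun k _ => (D.α_cont (D.ι (β k i))).comp a1
    rw [Finset.sum_const_zero] at a2
    obtain ⟨j, hj⟩ := (a2.eventually (gt_mem_nhds hδ)).exists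
    refine ⟨j, 1, by have := s.nontrivial; simp, ?_⟩
    simpa only [kurD, star_one, mul_one, one_mul, sub_self, TrState.n2_zero, zero_add,
      Function.comp_def, s.n2_sub_comm (D.ι _)] using hj
  classical
  let θ : I → ℝ := fun i => π / 4 * (1 / 4) ^ Nat.find (hP i)
  obtain ⟨v, hv, a1⟩ := over_up D (U := U) β θ
    (Eventually.of_forall fun i => Nat.find_spec (hP i))
  obtain ⟨w, hw, a2⟩ := over_dbl D hb hc g2 h3 d1 H1 θ hv a1
  obtain ⟨v, hv, a1⟩ := over_up D ξ _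
    (over_down D ξ _ hδ' hw fun l => a2 _ fun k => hc k l)
  obtain ⟨w, hw, a2⟩ := over_dbl D hx (fun k l => (hc l k).symm) g1 h4 d2 H2 _ hv a1
  have a3 := over_down D β _ hδ hw fun l => a2 _ fun k => (hc l k).symm
  have a4 : ∀ᶠ i : I in U, P i (π / 4) := a3.mono fun i hi => by
    rcases Nat.eq_zero_or_eq_succ_pred (Nat.find (hP i)) with h0 | h0
    · simpa only [h0, pow_zero, mul_one] using Nat.find_spec (hP i)
    · refine (Nat.find_min (hP i) (m := (Nat.find (hP i)).pred) (by omega) ?_).elim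
      have : θ i + θ i + (θ i + θ i) = π / 4 * (1 / 4) ^ (Nat.find (hP i)).pred := by
        simp only [θ]
        conv_lhs => rw [h0, pow_succ]
        ring
      exact this ▸ hi
  obtain ⟨v, hv, a1⟩ := over_up D β (fun _ => π / 4) a4
  obtain ⟨w, hw, a2⟩ := over_dbl D hb hc g2 h3 d1 H1 _ hv a1
  rw [show (fun _ : I => π / 4 + π / 4) = fun _ => π / 2 from funext fun _ => by ring] at a2
  exact ⟨w, hw, a2⟩

end Pool.Agent.P.MP_a6af55_an.Pw
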