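import Pool.Agent.P.MP_a6af55_an.PwE
import Pool.Agent.P.MP_a6af55_an.PwGrp
import Pool.Agent.P.MP_a6af55_an.PwOver

namespace Pool.Agent.P.MP_a6af55_an.Pw

open Pool.Agent.Lib.Tracial
open scoped ComplexOrder InnerProductSpace ComplexConjugate Pointwise Real
open Filter Topology

lemma prod_comm_left {B : Type*} [CStarAlgebra B] {a a' z : B} (ha : a ∈ unitary B)
    (ha' : a' ∈ unitary B) (h : a * z = z * a') : Commute a (z * star z) := by
  have e := congrArg star (kur_star ha ha' h)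
  rw [star_mul, star_mul, star_star, star_star] at e
  rw [Commute, SemiconjBy, ← mul_assoc, h, mul_assoc, mul_assoc, e]

lemma prod_comm_right {B : Type*} [CStarAlgebra B] {a a' z : B} (ha : a ∈ unitary B)
    (ha' : a' ∈ unitary B) (h : a * z = z * a') : Commute a' (star z * z) := by
  have e := congrArg star (kur_star ha ha' h)
  rw [star_mul, star_mul, star_star, star_star] at e
  rw [Commute, SemiconjBy, ← mul_assoc, ← e, mul_assoc, mul_assoc, h]

lemma prod_scale {C : Type*} [CStarAlgebra C] {s : TrState C} {I : Type*} {U : Ultrafilter I}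
    {Γ : Type*} [Group Γ] {ε : Γ →* Γ →* ℤˣ} {L : TwAlg ε s} {z : Ultrapower s U} {E : Set Γ}
    (h : InU L U z E) : ∃ (a : ℂ) (x : BB I C), a ≠ 0 ∧ mkU s U x = a • z ∧
      ∀ i : I, ‖x i‖ ≤ 1 ∧ L.In (x i) E := by
  obtain ⟨x, rfl, hx⟩ := h
  have h1 : 0 < ‖x‖ + 1 := by positivity
  refine ⟨((‖x‖ + 1)⁻¹ : ℝ), (((‖x‖ + 1)⁻¹ : ℝ) : ℂ) • x,
    Complex.ofReal_ne_zero.2 (inv_pos.2 h1).ne', map_smul _ _ _, fun i => ⟨?_, (hx i).smul _⟩⟩
  change ‖(((‖x‖ + 1)⁻¹ : ℝ) : ℂ) • x i‖ ≤ 1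
  rw [norm_smul, Complex.norm_real, Real.norm_of_nonneg (inv_pos.2 h1).le, inv_mul_le_iff₀ h1]
  linarith [x.norm_apply_le i]

theorem prod_lemma {J : Type} [Fintype J] [DecidableEq J] [Nonempty J] {G : Type} [Group G]
    {R : Subgroup G} (T : Tails R) {A C : Type*} [CStarAlgebra A] [CStarAlgebra C] {t : TrState A}
    {s : TrState C} [t.W] [s.W] (L : TwAlg (εP (J → G)) s) {I : Type*} {U : Ultrafilter I}
    {ι : A →⋆ₐ[ℂ] C} (hι : TP t s ι) (hin : ∀ a, L.In (ι a) (PK R (Set.univ : Set J)))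
    (hpre : ∀ y, L.In y (PK R (Set.univ : Set J)) → ∃ a, ι a = y) {b : Fin 2 → Ultrapower t U}
    (hb : ∀ k, b k ∈ unitary (Ultrapower t U)) (h1 : NM (upTr t U) Set.univ 0 b) (h2 : FacComm b)
    (f : J → G →* G) (D : J → Set G) (hD : ∀ c, FreeOn R (R.map (f c)) (D c))
    (β β' : J → C →⋆ₐ[ℂ] C) (tβ : ∀ c, TP s s (β c)) (tβ' : ∀ c, TP s s (β' c))
    (hββ : ∀ c x, β' c (β c x) = x)
    (hβ : ∀ c g, ∃ a : ℂ, β c (L.u g) = a • L.u (upd c (f c) g))
    (hβ' : ∀ c g, ∃ a : ℂ, β' c (L.u g) = a • L.u (upd c (f c) g))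
    (z : J → Ultrapower s U) (hz0 : ∀ c, z c ≠ 0)
    (hz : ∀ c, InU L U (z c) {g | g.1 c ∈ D c ∧ ∀ i, i ≠ c → g.1 i ∈ R})
    (hi : ∀ c k, upC U hι (b k) * z c = z c * upC U (tβ c) (upC U hι (b k))) : False := by
  have hB : ∀ k, upC U hι (b k) ∈ unitary (Ultrapower s U) := fun k => map_unitary _ (hb k)
  have hinv : ∀ c x, upC U (tβ' c) (upC U (tβ c) x) = x := fun c x => by
    obtain ⟨x, rfl⟩ := mkU_surjective s U x
    rw [upMap_mkU, upMap_mkU]
    congr 1
    ext i
    exact hββ c _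
  have hc1 : ∀ c (g : (J → G) × SG), (upd c (f c) g).1 c = f c (g.1 c) := fun c g =>
    Function.update_self _ _ _
  have hc2 : ∀ c (g : (J → G) × SG) i, i ≠ c → (upd c (f c) g).1 i = g.1 i := fun c g i h =>
    Function.update_of_ne h _ _
  have key : ∀ S : Finset J, ∃ (W : Ultrapower s U) (b' : Fin 2 → Ultrapower s U), W ≠ 0 ∧
      InU L U W {g | ∀ i, (i ∈ S → g.1 i ∈ D i) ∧ (i ∉ S → g.1 i ∈ R)} ∧
      (∀ k, b' k ∈ unitary (Ultrapower s U)) ∧
      (∀ k, InU L U (b' k) {g | ∀ i, (i ∈ S → g.1 i ∈ R.map (f i)) ∧ (i ∉ S → g.1 i ∈ R)}) ∧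
      ∀ k, upC U hι (b k) * W = W * b' k := fun S => by
    induction S using Finset.induction_on with
    | empty =>
      have e : InU L U (upC U hι 1) (PK R (Set.univ : Set J)) := inU_up hι hin 1
      rw [map_one] at e
      refine ⟨1, fun k => upC U hι (b k), fun h => ?_, e.mono fun g hg i =>
        ⟨fun h => (Finset.notMem_empty _ h).elim, fun _ => hg.1 i trivial⟩, hB,
        fun k => (inU_up hι hin _).mono fun g hg i =>
          ⟨fun h => (Finset.notMem_empty _ h).elim, fun _ => hg.1 i trivial⟩,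
        fun k => by rw [mul_one, one_mul]⟩
      have e1 := (upTr s U).map_one
      rw [h, map_zero] at e1
      exact zero_ne_one e1
    | insert c S hc ih =>
      obtain ⟨W, b', w0, w1, u', w2, w3⟩ := ih
      have h0 : PK R ({c}ᶜ : Set J) ⊓ PK R ({c} : Set J) = PK R (Set.univ : Set J) := by
        refine le_antisymm (fun g hg => ⟨fun i _ => ?_, trivial⟩) (le_inf (fun g hg =>
          ⟨fun i _ => hg.1 i trivial, trivial⟩) fun g hg => ⟨fun i _ => hg.1 i trivial, trivial⟩)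
        by_cases h : i = c
        · exact hg.2.1 i h
        · exact hg.1.1 i h
      have z1 : InU L U (z c) (PK R ({c}ᶜ : Set J)) :=
        (hz c).mono fun g hg => ⟨fun i h => hg.2 i h, trivial⟩
      have p1 : InU L U (upC U (tβ' c) (star (z c) * z c)) (PK R ({c}ᶜ : Set J)) :=
        (z1.kstar.kmul z1).map (tβ' c) (hβ' c) fun g hg =>
          ⟨fun i h => (hc2 c g i h).symm ▸ hg.1 i h, trivial⟩
      have q0 : InU L U W (PK R ({c} : Set J)) :=
        w1.mono fun g hg => ⟨fun i h => (hg i).2 fun h' => hc (h ▸ h'), trivial⟩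
      have p2 : ∀ k, Commute (upC U hι (b k)) (upC U (tβ' c) (star (z c) * z c)) := fun k => by
        have e := (prod_comm_right (hB k) (map_unitary _ (hB k)) (hi c k)).map (upC U (tβ' c))
        rwa [hinv] at e
      obtain ⟨y, y1, y2⟩ := nv hι hin hpre h0 hb h2 p1 (q0.kmul q0.kstar) p2
        (fun k => prod_comm_left (hB k) (u' k) (w3 k))
        (fun h => hz0 c (upTr_faithful s U _ ((tp_upMap U _ _ _).symm.trans h)))
        (fun h => w0 (upTr_faithful s U _ (((upTr s U).trace _ _).trans h)))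
      have v1 : InU L U (upC U hι y * W)
          {g | ∀ i, (i ∈ S → g.1 i ∈ D i) ∧ (i ∉ S → g.1 i ∈ R)} :=
        ((inU_up hι hin y).mul w1).mono (by
          rintro _ ⟨r, hr, g, hg, rfl⟩ i
          exact ⟨fun h => ((hD i).left _ (hr.1 i trivial) _).2 ((hg i).1 h),
            fun h => R.mul_mem (hr.1 i trivial) ((hg i).2 h)⟩)
      have v2 : InU L U (upC U (tβ c) (upC U hι y * W)) {g | g.1 c ∈ R.map (f c) ∧
          ∀ i, i ≠ c → (i ∈ S → g.1 i ∈ D i) ∧ (i ∉ S → g.1 i ∈ R)} :=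
        v1.map (tβ c) (hβ c) fun g hg => ⟨⟨g.1 c, (hg c).2 hc, (hc1 c g).symm⟩,
          fun i h => (hc2 c g i h).symm ▸ hg i⟩
      refine ⟨z c * upC U (tβ c) (upC U hι y * W), fun k => upC U (tβ c) (b' k), fun h => y2 ?_,
        ((hz c).mul v2).mono ?_, fun k => map_unitary _ (u' k),
        fun k => (w2 k).map (tβ c) (hβ c) fun g hg i => ?_, fun k => ?_⟩
      · have e := congrArg (fun x => upC U (tβ' c) (star (z c) * x)) h
        simp only [mul_zero, map_zero] at e
        rw [← mul_assoc, map_mul, hinv] at e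
        rw [← mul_assoc (upC U hι y), ← mul_assoc, ← mul_assoc, e, zero_mul, zero_mul, map_zero]
      · rintro _ ⟨r, hr, g, hg, rfl⟩ i
        by_cases h : i = c
        · subst h
          exact ⟨fun _ => ((hD i).right _ hg.1 _).2 hr.1,
            fun h => (h (Finset.mem_insert_self _ _)).elim⟩
        · exact ⟨fun h' => ((hD i).left _ (hr.2 i h) _).2
            ((hg.2 i h).1 ((Finset.mem_insert.1 h').resolve_left h)),
            fun h' => R.mul_mem (hr.2 i h) ((hg.2 i h).2 fun e => h' (Finset.mem_insert_of_mem e))⟩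
      · by_cases h : i = c
        · subst h
          exact ⟨fun _ => ⟨g.1 i, (hg i).2 hc, (hc1 i g).symm⟩,
            fun h => (h (Finset.mem_insert_self _ _)).elim⟩
        · rw [hc2 c g i h]
          exact ⟨fun h' => (hg i).1 ((Finset.mem_insert.1 h').resolve_left h),
            fun h' => (hg i).2 fun e => h' (Finset.mem_insert_of_mem e)⟩
      · have e : upC U hι (b k) * (upC U hι y * W) = upC U hι y * W * b' k := by
          rw [← mul_assoc, ← map_mul, (y1 k).eq, map_mul, mul_assoc, w3, mul_assoc]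
        rw [← mul_assoc, hi, mul_assoc, ← map_mul, e, map_mul (upC U (tβ c)) _ (b' k), mul_assoc]
  obtain ⟨W, b', w0, w1, u', w2, w3⟩ := key Finset.univ
  obtain ⟨a, x, ha, e0, hx⟩ := prod_scale w1
  obtain ⟨T'⟩ := tails_pi (J := J) T
  choose γ e hγ using fun k => exists_ball t U (b k) (norm_unitary_le (hb k))
  obtain rfl : b = fun k => mkU t U (γ k) := funext fun k => (e k).symm
  have w4 : ∀ k, L.Conc U (b' k) fun _ =>
      ((Subgroup.pi Set.univ fun c => R.map (f c)).prod (⊤ : Subgroup SG) : Subgroup _) := fun k =>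
    InU.conc ((w2 k).mono fun g hg => ⟨fun i _ => (hg i).1 (Finset.mem_univ i), trivial⟩)
  choose γ' e' hγ' using fun k => (w4 k).rep
  have e1 : ∀ k, mkU s U (bbMap (fun _ => ι) (γ k)) = upC U hι (mkU t U (γ k)) := fun k =>
    (upMap_mkU U _ _ _).symm
  have main := gapU0 (U := U) L T' le_rfl (freeOn_pi hD) (b := fun k => bbMap (fun _ => ι) (γ k))
    (b' := γ') (fun k i => ⟨hom_norm_le ι (hγ k i), hin _⟩)
    (fun k i => ⟨(hγ' k i).1.trans (norm_unitary_le (u' k)), (hγ' k i).2⟩)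
    (fun _ hδ => (NM.down U h1 hδ).mono fun _ hi => NM.map hι (fun _ hy => hpre _ hy) hi)
    (z := x) (fun i => (hx i).1) (fun k => (e1 k).symm ▸ hB k) (fun k => (e' k).symm ▸ u' k)
    fun k => by rw [e1, e', e0, mul_smul_comm, smul_mul_assoc, w3]
  have e2 : ∀ i : I, L.m (x i) ({g : J → G | ∀ c, g c ∈ D c} ×ˢ Set.univ) = s.n2 (x i) := fun i =>
    TwAlg.In.m_self ((hx i).2.mono fun g hg => ⟨fun c => (hg c).1 (Finset.mem_univ c), trivial⟩)
  have e3 := tendsto_nhds_unique (tendsto_n2 s U x) (main.congr e2)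
  have e4 := (upTr s U).eq_zero_of_n2 e3
  rw [e0] at e4
  exact w0 (by rw [← one_smul ℂ W, ← inv_mul_cancel₀ ha, mul_smul, e4, smul_zero])

end Pool.Agent.P.MP_a6af55_an.Pw
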