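import Pool.Agent.P.MP_a6af55_an.PwOver
import Pool.Agent.P.MP_a6af55_an.PwDef
import Pool.Agent.P.MP_a6af55_an.PwProd

namespace Pool.Agent.P.MP_a6af55_an.Pw

open Pool.Agent.Lib.Tracial
open scoped ComplexOrder InnerProductSpace ComplexConjugate Pointwise Real
open Filter Topology

section up

variable {A B B' C : Type*} [CStarAlgebra A] [CStarAlgebra B] [CStarAlgebra B'] [CStarAlgebra C]
  {t : TrState A} {s : TrState B} {s' : TrState B'} {r : TrState C} {I : Type*} {U : Ultrafilter I}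

lemma upC_tri {φ : A →⋆ₐ[ℂ] B} {ψ : B →⋆ₐ[ℂ] C} {χ : A →⋆ₐ[ℂ] C} (h1 : TP t s φ) (h2 : TP s r ψ)
    (h3 : TP t r χ) (h : ∀ a, ψ (φ a) = χ a) (a : Ultrapower t U) :
    upC U h2 (upC U h1 a) = upC U h3 a := by
  obtain ⟨a, rfl⟩ := mkU_surjective t U a
  simp only [upMap_mkU]
  congr 1
  ext i
  exact h _

lemma upC_sq {φ : A →⋆ₐ[ℂ] B} {ψ : B →⋆ₐ[ℂ] C} {φ' : A →⋆ₐ[ℂ] B'} {ψ' : B' →⋆ₐ[ℂ] C}
    (h1 : TP t s φ) (h2 : TP s r ψ) (h3 : TP t s' φ') (h4 : TP s' r ψ')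
    (h : ∀ a, ψ (φ a) = ψ' (φ' a)) (a : Ultrapower t U) :
    upC U h2 (upC U h1 a) = upC U h4 (upC U h3 a) :=
  (upC_tri h1 h2 (h2.comp h1) (fun _ => rfl) a).trans
    (upC_tri h3 h4 (h2.comp h1) (fun a => (h a).symm) a).symm

lemma upC_id (h : TP t t (StarAlgHom.id ℂ A)) (a : Ultrapower t U) : upC U h a = a := by
  obtain ⟨a, rfl⟩ := mkU_surjective t U a
  rw [upMap_mkU]
  rfl

end up

variable {J : Type} [DecidableEq J] {A : Type*} [CStarAlgebra A] {t : TrState A}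

omit [DecidableEq J] in
lemma pk_le {G : Type} [Group G] (R : Subgroup G) (T : Set J) :
    PK R (Set.univ : Set J) ≤ PK R T := fun _ hg => ⟨fun i _ => hg.1 i trivial, trivial⟩

/-- The deformation restricted to the algebra of one coordinate. -/
noncomputable def CDef.def1 {C : Type*} [CStarAlgebra C] {s : TrState C}
    {L : TwAlg (εP (J → FT)) s} {c : J} (D : CDef L c) {ι : A →⋆ₐ[ℂ] C} (hι : TP t s ι)
    (hin : ∀ a, L.In (ι a) (PK (HR ΓE) (Set.univ : Set J))) :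
    Def1 t (L.trK (PK (HR ΓE) {c}ᶜ)) where
  ι := ι.codRestrict (L.alg _) fun a => (hin a).mono (pk_le _ _)
  α θ := ((D.α θ).comp (L.alg _).subtype).codRestrict (L.alg _) fun x => D.α_in θ _ x.2
  γ := (D.γ.comp (L.alg _).subtype).codRestrict (L.alg _) fun x => D.γ_in _ x.2
  tp_ι a := hι a
  tp_α θ x := D.tp_α θ x.1
  tp_γ x := D.tp_γ x.1
  α_add θ θ' x := Subtype.ext (D.α_add θ θ' x.1)
  α_zero x := Subtype.ext (D.α_zero x.1)
  α_cont x := (D.α_cont x.1).congr fun _ => (L.n2_trK _ _).symm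
  γ_ι a := Subtype.ext (D.γ_fix _ (hin a))
  γ_α θ x := Subtype.ext (D.γ_α θ x.1)

theorem count [Fintype J] [Nonempty J] {J' : Type} [Fintype J'] [t.W]
    (L : TwAlg (εP (J → FH)) t) {I : Type*} {U : Ultrafilter I} {r : I → ℕ}
    (hr : Tendsto r U atTop) (b : J' → Fin 2 → Ultrapower t U)
    (hb : ∀ j k, b j k ∈ unitary (Ultrapower t U))
    (hc : ∀ j j', j ≠ j' → ∀ k l, Commute (b j k) (b j' l))
    (h1 : ∀ j, NM (upTr t U) Set.univ 0 (b j)) (h2 : ∀ j, FacComm (b j)) :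
    Fintype.card J' ≤ Fintype.card J := by
  obtain ⟨C, _, s, _, ⟨L'⟩⟩ := exists_twAlg (εP (J → FT))
  have hinj : Function.Injective ((ιH ΓE).compLeft J) := fun g g' h =>
    funext fun i => ιH_injective (congrFun h i)
  obtain ⟨ι, hι, hu⟩ := L.exists_hom (L'.toTwRep.twist (εP (J → FH))
    (((ιH ΓE).compLeft J).prodMap (MonoidHom.id SG)) (hinj.prodMap Function.injective_id)
    (fun _ _ => rfl) 1 fun _ => norm_one)
  have hu' : ∀ g, ∃ a : ℂ, ι (L.u g) = a • L'.u ((ιH ΓE).compLeft J g.1, g.2) := fun g => ⟨_, hu g⟩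
  have hin : ∀ a, L'.In (ι a) (PK (HR ΓE) (Set.univ : Set J)) := fun a =>
    L.in_map L' hι hu' (L.in_univ a) fun g _ => ⟨fun i _ => ⟨g.1 i, rfl⟩, trivial⟩
  have hpre : ∀ y, L'.In y (PK (HR ΓE) (Set.univ : Set J)) → ∃ a, ι a = y := fun y hy =>
    L.exists_preimage L' hι hu' (hy.mono (by
      rintro ⟨g, σ⟩ ⟨hg, -⟩
      choose h hh using fun i => hg i trivial
      exact ⟨(h, σ), Prod.ext (funext hh) rfl⟩))
  have D : ∀ c, CDef L' c := fun c => (exists_cdef L' c).some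
  let Gp : J → (Fin 2 → Ultrapower t U) → Prop := fun c => Gap U ((D c).def1 hι hin).tp_ι
  have key : ∀ j, ∃ c, Gp c (b j) ∧ ∀ j', j' ≠ j → ¬ Gp c (b j') := by
    intro j
    by_contra hn
    push Not at hn
    have : ∀ c, ∃ (f : FT →* FT) (E : Set FT) (β β' : C →⋆ₐ[ℂ] C) (tβ : TP s s β)
        (z : Ultrapower s U), FreeOn (HR ΓE) ((HR ΓE).map f) E ∧ TP s s β' ∧
        (∀ x, β' (β x) = x) ∧ (∀ g, ∃ a : ℂ, β (L'.u g) = a • L'.u (upd c f g)) ∧
        (∀ g, ∃ a : ℂ, β' (L'.u g) = a • L'.u (upd c f g)) ∧ z ≠ 0 ∧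
        InU L' U z {g | g.1 c ∈ E ∧ ∀ i, i ≠ c → g.1 i ∈ HR ΓE} ∧
        ∀ k, upC U hι (b j k) * z = z * upC U tβ (upC U hι (b j k)) := by
      intro c
      have hj : TP (L'.trK (PK (HR ΓE) {c}ᶜ)) s (L'.alg _).subtype := fun _ => rfl
      have e1 : ∀ a, upC U hj (upC U ((D c).def1 hι hin).tp_ι a) = upC U hι a :=
        upC_tri _ _ _ fun _ => rfl
      have e2 : ∀ z, InU L' U (upC U hj z) (PK (HR ΓE) {c}ᶜ) := inU_up hj fun a => a.2
      by_cases hg : Gp c (b j)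
      · obtain ⟨j', hj', hg'⟩ := hn c hg
        obtain ⟨v, hv, h⟩ := overspillP ((D c).def1 hι hin) hr (hb j') (hb j) (hc j' j hj') hg' hg
          (h2 j') (h2 j)
        refine ⟨φT ΓE, Set.univ, (D c).α (π / 2), (D c).α (-(π / 2)), (D c).tp_α _, upC U hj v,
          freeOn_φ_univ, (D c).tp_α _, fun x => by rw [(D c).α_add, neg_add_cancel, (D c).α_zero],
          (D c).α_end, (D c).α_end', fun h0 => ?_,
          (e2 v).mono fun g hg => ⟨trivial, fun i hi => hg.1 i hi⟩, fun k => ?_⟩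
        · have := (dbl_unit (φ := upC U hj) hv).1
          rw [h0, mul_zero] at this
          have := congrArg (upTr s U).τ this
          rw [map_zero, (upTr s U).map_one] at this
          exact zero_ne_one this
        · have := congrArg (upC U hj) (h _ fun l => hc j' j hj' l k)
          rwa [map_mul, map_mul, e1, upC_sq _ hj hj ((D c).tp_α _) fun _ => rfl, e1] at this
      · obtain ⟨z, hz⟩ := not_forall.1 hg
        obtain ⟨hz, hz'⟩ := Classical.not_imp.1 hz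
        obtain ⟨z', p1, p2, p3⟩ := cut hι hin hpre (e2 z)
          (fun k => by rw [← e1]; exact (hz k).map _) fun a ha =>
            hz' ⟨a, (tp_upMap U _ fun _ => hj).injective ((e1 a).trans ha)⟩
        have e3 : ∀ g, ∃ a : ℂ, StarAlgHom.id ℂ C (L'.u g) =
            a • L'.u (upd c (MonoidHom.id FT) g) := fun g => ⟨1, by simp [upd]⟩
        refine ⟨MonoidHom.id _, (HR ΓE : Set FT)ᶜ, StarAlgHom.id ℂ C, StarAlgHom.id ℂ C,
          fun _ => rfl, z', by rw [Subgroup.map_id]; exact freeOn_HR, fun _ => rfl, fun _ => rfl,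
          e3, e3, p1, p2.mono fun g hg => ⟨fun h => hg.2 ⟨fun i _ => ?_, trivial⟩,
            fun i hi => hg.1.1 i hi⟩, fun k => by rw [upC_id]; exact p3 k⟩
        by_cases e : i = c
        exacts [e ▸ h, hg.1.1 i e]
    choose f E β β' tβ z p1 p2 p3 p4 p5 p6 p7 p8 using this
    obtain ⟨T⟩ := tails_HR (Γ0 := ΓE)
    exact prod_lemma T L' hι hin hpre (hb j) (h1 j) (h2 j) f E p1 β β' tβ p2 p3 p4 p5 z p6 p7 p8
  choose c hc1 hc2 using key
  exact Fintype.card_le_of_injective c fun j j' e =>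
    by_contra fun hne => hc2 j j' (Ne.symm hne) (e ▸ hc1 j')

end Pool.Agent.P.MP_a6af55_an.Pw
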