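import Pool.Agent.Lib.Tracial.Defs

namespace Pool.Agent.P.MP_a6af55_an

open Pool.Agent.Lib.Tracial

universe u

variable {A B C : Type u} [CStarAlgebra A] [CStarAlgebra B] [CStarAlgebra C]

/-- The third algebra is the tracial tensor product of the first two. -/
def IsTensor (t : TrState A) (s : TrState B) (r : TrState C) : Prop :=
  ∃ (φ : A →⋆ₐ[ℂ] C) (ψ : B →⋆ₐ[ℂ] C),
    (∀ a b, φ a * ψ b = ψ b * φ a ∧ r.τ (φ a * ψ b) = t.τ a * s.τ b) ∧
    ∀ x, ∀ δ > (0 : ℝ), ∃ y ∈ Submodule.span ℂ {z | ∃ a b, z = φ a * ψ b},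
      ‖r.τ (star (x - y) * (x - y))‖ < δ

end Pool.Agent.P.MP_a6af55_an
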