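import Pool.Agent.P.MP_a6af55_an.PwBase

namespace Pool.Agent.P.MP_a6af55_an.Pw

open Pool.Agent.Lib.Tracial
open scoped ComplexOrder InnerProductSpace ComplexConjugate Pointwise Real
open Filter Topology

variable {A C : Type*} [CStarAlgebra A] [CStarAlgebra C] {t : TrState A} {s : TrState C}
  {I : Type*} {U : Ultrafilter I} {Γ : Type*} [Group Γ] {ε : Γ →* Γ →* ℤˣ} {L : TwAlg ε s}

lemma InU.mono {z : Ultrapower s U} {E F : Set Γ} (h : InU L U z E) (hE : E ⊆ F) : InU L U z F :=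
  let ⟨x, h1, h2⟩ := h
  ⟨x, h1, fun i => (h2 i).mono hE⟩

lemma InU.mul {y z : Ultrapower s U} {E F : Set Γ} (h : InU L U y E) (h' : InU L U z F) :
    InU L U (y * z) (E * F) :=
  let ⟨x, h1, h2⟩ := h
  let ⟨x', h3, h4⟩ := h'
  ⟨x * x', by rw [map_mul, h1, h3], fun i => (h2 i).mul (h4 i)⟩

lemma InU.star {z : Ultrapower s U} {E : Set Γ} (h : InU L U z E) : InU L U (star z) E⁻¹ :=
  let ⟨x, h1, h2⟩ := h
  ⟨Star.star x, by rw [map_star, h1], fun i => (h2 i).star⟩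

lemma InU.kmul {y z : Ultrapower s U} {K : Subgroup Γ} (h : InU L U y K) (h' : InU L U z K) :
    InU L U (y * z) K :=
  let ⟨x, h1, h2⟩ := h
  let ⟨x', h3, h4⟩ := h'
  ⟨x * x', by rw [map_mul, h1, h3], fun i => (h2 i).kmul (h4 i)⟩

lemma InU.kstar {z : Ultrapower s U} {K : Subgroup Γ} (h : InU L U z K) :
    InU L U (Star.star z) K :=
  let ⟨x, h1, h2⟩ := h
  ⟨Star.star x, by rw [map_star, h1], fun i => (h2 i).kstar⟩

lemma InU.conc {z : Ultrapower s U} {E : Set Γ} (h : InU L U z E) : L.Conc U z fun _ => E :=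
  let ⟨_, h1, h2⟩ := h
  h1 ▸ L.conc_of_in h2

lemma InU.map {z : Ultrapower s U} {E F : Set Γ} (h : InU L U z E) {β : C →⋆ₐ[ℂ] C}
    (hβ : TP s s β) {j : Γ → Γ} (hj : ∀ g, ∃ a : ℂ, β (L.u g) = a • L.u (j g))
    (hE : ∀ g ∈ E, j g ∈ F) : InU L U (upC U hβ z) F := by
  obtain ⟨x, rfl, h2⟩ := h
  exact ⟨_, (upMap_mkU U _ _ x).symm, fun i => L.in_map L hβ hj (h2 i) hE⟩

lemma inU_up {ι : A →⋆ₐ[ℂ] C} (hι : TP t s ι) {E : Set Γ} (hin : ∀ a, L.In (ι a) E)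
    (a : Ultrapower t U) : InU L U (upC U hι a) E := by
  obtain ⟨x, rfl⟩ := mkU_surjective t U a
  exact ⟨_, (upMap_mkU U _ _ x).symm, fun i => hin _⟩

lemma pwe_comm {B : Type*} [CStarAlgebra B] {b : Fin 2 → B} (hb : ∀ k, b k ∈ unitary B) {y q : B}
    (h : ∀ u ∈ unitary B, (∀ k, Commute (b k) u) → u * y = y * u) (hq : ∀ k, Commute (b k) q) :
    Commute q y := by
  let S := StarSubalgebra.centralizer ℂ (Set.range b)
  have hS : ∀ z, z ∈ S ↔ ∀ k, Commute (b k) z := fun z => by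
    rw [StarSubalgebra.mem_centralizer_iff]
    refine ⟨fun h k => (h _ ⟨k, rfl⟩).1, ?_⟩
    rintro h _ ⟨k, rfl⟩
    exact ⟨h k, by simpa using (dbl_star (hb k) (h k)).star_star.eq⟩
  have : IsClosed (S : Set B) := Set.isClosed_centralizer _
  obtain ⟨u, c, e, -⟩ := CStarAlgebra.exists_sum_four_unitary (⟨q, (hS q).2 hq⟩ : S)
  have e' := congrArg S.subtype e
  simp only [map_sum, map_smul] at e'
  rw [show q = _ from e']
  exact Commute.sum_left _ _ _ fun i _ =>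
    Commute.smul_left (h _ (dbl_unit (u i).2) ((hS _).1 (u i).1.2)) _

lemma pwe_avg {B : Type*} [CStarAlgebra B] (r : TrState B) [r.W] {b : Fin 2 → B}
    (hb : ∀ k, b k ∈ unitary B) (h2 : FacComm b) {p q : B} (cq : ∀ k, Commute (b k) q)
    (hp : r.τ p ≠ 0) (hq : r.τ q ≠ 0) :
    ∃ y, (∀ k, Commute (b k) y) ∧ r.τ (p * (y * q * star y)) ≠ 0 := by
  wlog hn : ‖q‖ ≤ 1 generalizing q
  · have h0 : q ≠ 0 := fun h => hq (by rw [h, map_zero])
    have h1 : (‖q‖ : ℂ)⁻¹ ≠ 0 := by simpa using h0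
    obtain ⟨y, hy, hy'⟩ := this (q := (‖q‖ : ℂ)⁻¹ • q) (fun k => (cq k).smul_right _)
      (by rw [map_smul]; exact smul_ne_zero h1 hq) (by
        rw [norm_smul, norm_inv, Complex.norm_real, norm_norm,
          inv_mul_cancel₀ (by simpa using h0)])
    refine ⟨y, hy, fun h => hy' ?_⟩
    rw [mul_smul_comm, smul_mul_assoc, mul_smul_comm, map_smul, h, smul_zero]
  by_contra hne
  push Not at hne
  obtain ⟨y, -, h1, h3⟩ := r.exists_avg {u | u ∈ unitary B ∧ ∀ k, Commute (b k) u}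
    (fun _ h => h.1) (fun _ h _ h' => ⟨mul_mem h.1 h'.1, fun k => (h.2 k).mul_right (h'.2 k)⟩)
    ⟨1, one_mem _, fun _ => Commute.one_right _⟩ hn
  obtain ⟨c, rfl⟩ := h2 y (fun k => by
    have := h3 ((r.π (b k) - r.rmul (b k)) ⁻¹' {0}) (isClosed_singleton.preimage (by fun_prop))
      ((cvxC_singleton _).preimage _) fun u hu => by
        simp [(((hu.2 k).mul_right (cq k)).mul_right (dbl_star (hb k) (hu.2 k))).eq]
    exact r.Λ_injective (by simpa [sub_eq_zero] using this))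
    fun q hq => pwe_comm hb (fun u h h' => h1 u ⟨h, h'⟩) hq
  have h4 := h3 ((innerSL ℂ (r.Λ 1)) ⁻¹' {r.τ q}) (isClosed_singleton.preimage (by fun_prop))
    ((cvxC_singleton _).preimage _) fun u hu => by simp [r.inner_Λ, r.τ_conj hu.1]
  have h5 : c = r.τ q := by simpa [r.inner_Λ, r.map_one, r.norm_Λ] using h4
  have h6 := h3 ((innerSL ℂ (r.Λ (star p))) ⁻¹' {0}) (isClosed_singleton.preimage (by fun_prop))
    ((cvxC_singleton _).preimage _) fun u hu => by simpa [r.inner_Λ] using hne u hu.2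
  simp [r.inner_Λ, h5, hp, hq] at h6

lemma pwe_tr [s.W] {K0 K1 K2 : Subgroup Γ} (h0 : K1 ⊓ K2 = K0) {P W v : C} (hP : L.In P K1)
    (hW : L.In W K2) (hv : L.In v K0) :
    s.τ (P * (v * W * star v)) = s.τ (L.cE K0 P * (v * L.cE K0 W * star v)) := by
  have h1 : K0 ≤ K2 := h0 ▸ inf_le_right
  have h2 : L.In (L.cE K2 P) K0 := by rw [← h0, Subgroup.coe_inf]; exact hP.cE K2
  have h3 := hv.mono (F := K2) h1
  rw [← L.τ_cE K2, ((h3.kmul hW).kmul h3.kstar).cE_mul', ← L.τ_cE K0, h2.cE_mul, hv.kstar.cE_mul',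
    hv.cE_mul, ← L.cE_cE h1 P, h2.cE_eq]

variable [t.W] [s.W] {ι : A →⋆ₐ[ℂ] C} (hι : TP t s ι) {K0 K1 K2 : Subgroup Γ}
  (hin : ∀ a, L.In (ι a) K0) (hpre : ∀ y, L.In y K0 → ∃ a, ι a = y)
  {b : Fin 2 → Ultrapower t U}

include hin hpre

omit hin in
include hι in
lemma pwe_E (x : BB I C) : ∃ a : BB I A, ∀ i : I, ι (a i) = L.cE K0 (x i) := by
  choose f hf using fun i : I => hpre _ (L.cE_in K0 (x i))
  exact ⟨BB.mk f ‖x‖ fun i => by
    rw [← hι.norm, hf]; exact (L.norm_cE_le _ _).trans (x.norm_apply_le i), hf⟩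

omit hpre [t.W] in
lemma pwe_cm {x : BB I C} {a : BB I A} (ha : ∀ i : I, ι (a i) = L.cE K0 (x i))
    {c : Ultrapower t U} (h : Commute (upC U hι c) (mkU s U x)) : Commute c (mkU t U a) := by
  obtain ⟨β, rfl⟩ := mkU_surjective t U c
  rw [upMap_mkU, comm_mkU] at h
  rw [comm_mkU]
  refine squeeze_zero (fun i => t.cm_nonneg _ _) (fun i => ?_) h
  rw [← hι.cm, ha, bbMap_apply, TrState.cm, TrState.cm, ← (hin _).cE_mul, ← (hin _).cE_mul',
    ← map_sub]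
  exact L.n2_cE_le _ _

omit hin hpre [t.W] in
include hι in
lemma pwe_τ {x : BB I C} {a : BB I A} (ha : ∀ i : I, ι (a i) = L.cE K0 (x i)) :
    (upTr t U).τ (mkU t U a) = (upTr s U).τ (mkU s U x) :=
  tendsto_nhds_unique (tendsto_τ t U a) ((tendsto_τ s U x).congr fun i => by
    rw [← hι, ha, L.τ_cE])

theorem cut {z : Ultrapower s U} (hz : InU L U z K1) (hc : ∀ k, Commute (upC U hι (b k)) z)
    (hn : ∀ a, upC U hι a ≠ z) : ∃ z' : Ultrapower s U, z' ≠ 0 ∧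
      InU L U z' ((K1 : Set Γ) \ K0) ∧ ∀ k, Commute (upC U hι (b k)) z' := by
  obtain ⟨x, rfl, hx⟩ := hz
  obtain ⟨a, ha⟩ := pwe_E hι hpre x
  refine ⟨mkU s U x - upC U hι (mkU t U a), sub_ne_zero.2 (hn _).symm,
    ⟨x - bbMap (fun _ => ι) a, by rw [map_sub, upMap_mkU], fun i g hg => ?_⟩,
    fun k => (hc k).sub_right ((pwe_cm hι hin ha (hc k)).map _)⟩
  change L.c (x i - ι (a i)) g = 0
  rw [ha]
  by_cases h : g ∈ K0
  · rw [TwAlg.c, mul_sub, map_sub]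
    exact sub_eq_zero.2 (L.c_cE_mem h _).symm
  · exact ((hx i).sub (((hx i).cE K0).mono Set.inter_subset_left)) g fun h' => hg ⟨h', h⟩

theorem nv (h0 : K1 ⊓ K2 = K0) (hb : ∀ k, b k ∈ unitary (Ultrapower t U)) (h2 : FacComm b)
    {P W : Ultrapower s U} (hP : InU L U P K1) (hW : InU L U W K2)
    (cP : ∀ k, Commute (upC U hι (b k)) P) (cW : ∀ k, Commute (upC U hι (b k)) W)
    (tP : (upTr s U).τ P ≠ 0) (tW : (upTr s U).τ W ≠ 0) :
    ∃ y, (∀ k, Commute (b k) y) ∧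
      (upTr s U).τ (P * (upC U hι y * W * star (upC U hι y))) ≠ 0 := by
  obtain ⟨P, rfl, hP⟩ := hP
  obtain ⟨W, rfl, hW⟩ := hW
  obtain ⟨p, hp⟩ := pwe_E hι hpre P
  obtain ⟨q, hq⟩ := pwe_E hι hpre W
  obtain ⟨y, hy, h⟩ := pwe_avg (upTr t U) hb h2 (p := mkU t U p)
    (fun k => pwe_cm hι hin hq (cW k)) (by rwa [pwe_τ hι hp]) (by rwa [pwe_τ hι hq])
  obtain ⟨y, rfl⟩ := mkU_surjective t U y
  refine ⟨_, hy, fun h' => h (Eq.trans ?_ h')⟩
  rw [upMap_mkU]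
  simp only [← map_star, ← map_mul]
  refine tendsto_nhds_unique (tendsto_τ t U _) ((tendsto_τ s U _).congr fun i => ?_)
  change s.τ (P i * (ι (y i) * W i * ι (star (y i)))) = t.τ (p i * (y i * q i * star (y i)))
  rw [map_star, pwe_tr h0 (hP i) (hW i) (hin _), ← hι, map_mul ι, map_mul ι, map_mul ι, map_star ι,
    hp, hq]

end Pool.Agent.P.MP_a6af55_an.Pw
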