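import Pool.Agent.P.MP_a6af55_an.PwBase
import Pool.Agent.P.MP_a6af55_an.PwDefs

namespace Pool.Agent.P.MP_a6af55_an.Pw

open Pool.Agent.Lib.Tracial
open scoped ComplexOrder InnerProductSpace ComplexConjugate Pointwise Real
open Filter Topology

universe u

lemma ten_dot (e : Site ↪ Site) (b a : Site →₀ ZMod 2) :
    dot (b.embDomain e) (a.embDomain e) = dot b a := by
  unfold dot
  rw [Finsupp.sum_embDomain]
  simp only [Finsupp.embDomain_apply_self]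

lemma ten_range (e : Site ↪ Site) {a : Site →₀ ZMod 2} (h : ∀ i ∉ Set.range e, a i = 0) :
    ∃ b : Site →₀ ZMod 2, b.embDomain e = a :=
  ⟨_, Finsupp.embDomain_comapDomain fun i hi => by
    by_contra h'
    exact Finsupp.mem_support_iff.1 hi (h i h')⟩

lemma ten_emb (e : Site ↪ Site) : ∃ E : SG →* SG, Function.Injective E ∧
    (∀ s s', εS (E s) (E s') = εS s s') ∧ (∀ s, E s ∈ SJ (Set.range e)) ∧
    ∀ s ∈ SJ (Set.range e), ∃ r, E r = s := by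
  refine ⟨AddMonoidHom.toMultiplicative ((Finsupp.embDomain.addMonoidHom e).prodMap
    (Finsupp.embDomain.addMonoidHom e)), fun s s' h => ?_, fun s s' => ?_, fun s i hi => ?_,
    fun s hs => ?_⟩
  · have h1 : s.toAdd.1.embDomain e = s'.toAdd.1.embDomain e :=
      congrArg (fun s : SG => s.toAdd.1) h
    have h2 : s.toAdd.2.embDomain e = s'.toAdd.2.embDomain e :=
      congrArg (fun s : SG => s.toAdd.2) h
    exact Multiplicative.toAdd.injective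
      (Prod.ext (Finsupp.embDomain_injective e h1) (Finsupp.embDomain_injective e h2))
  · exact congrArg (fun x => sgn2 (Multiplicative.ofAdd x)) (ten_dot e s.toAdd.2 s'.toAdd.1)
  · exact ⟨Finsupp.embDomain_of_notMem_range e s.toAdd.1 i hi,
      Finsupp.embDomain_of_notMem_range e s.toAdd.2 i hi⟩
  · obtain ⟨a, ha⟩ := ten_range e fun i hi => (hs i hi).1
    obtain ⟨b, hb⟩ := ten_range e fun i hi => (hs i hi).2
    exact ⟨Multiplicative.ofAdd (a, b), Multiplicative.toAdd.injective (Prod.ext ha hb)⟩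

lemma ten_split (J : Set Site) (s : SG) : ∃ a ∈ SJ J, ∃ b ∈ SJ Jᶜ, s = a * b := by
  classical
  refine ⟨Multiplicative.ofAdd (s.toAdd.1.filter (· ∈ J), s.toAdd.2.filter (· ∈ J)),
    fun i hi => ⟨Finsupp.filter_apply_neg _ _ hi, Finsupp.filter_apply_neg _ _ hi⟩,
    Multiplicative.ofAdd (s.toAdd.1.filter (¬ · ∈ J), s.toAdd.2.filter (¬ · ∈ J)),
    fun i hi => ⟨Finsupp.filter_apply_neg _ _ hi, Finsupp.filter_apply_neg _ _ hi⟩, ?_⟩
  exact Multiplicative.toAdd.injective (Prod.ext (Finsupp.filter_add_filter_not _ _).symm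
    (Finsupp.filter_add_filter_not _ _).symm)

lemma ten_sites : ∃ e e' : Site ↪ Site, Set.range e' = (Set.range e)ᶜ := by
  refine ⟨⟨fun p => (2 * p.1, p.2), fun p q h => ?_⟩, ⟨fun p => (2 * p.1 + 1, p.2), fun p q h => ?_⟩,
    Set.ext fun p => ⟨?_, fun h => ?_⟩⟩
  · obtain ⟨h1, h2⟩ := Prod.mk.inj h
    exact Prod.ext (by omega) h2
  · obtain ⟨h1, h2⟩ := Prod.mk.inj h
    exact Prod.ext (by omega) h2
  · rintro ⟨q, rfl⟩ ⟨r, h⟩
    have : 2 * r.1 = 2 * q.1 + 1 := congrArg Prod.fst h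
    omega
  · rcases Nat.even_or_odd' p.1 with ⟨k, hk | hk⟩
    · exact (h ⟨(k, p.2), Prod.ext hk.symm rfl⟩).elim
    · exact ⟨(k, p.2), Prod.ext hk.symm rfl⟩

lemma ten_hom {X Y : Type} [Group X] [Group Y] (j : X →* Y) (hj : Function.Injective j)
    (e : Site ↪ Site) {A C : Type u} [CStarAlgebra A] [CStarAlgebra C] {t : TrState A}
    {r : TrState C} [r.W] (L : TwAlg (εP X) t) (L' : TwAlg (εP Y) r) :
    ∃ φ : A →⋆ₐ[ℂ] C, TP t r φ ∧ (∀ a, L'.In (φ a) (j.range.prod (SJ (Set.range e)))) ∧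
      ∀ g, ∀ s ∈ SJ (Set.range e), ∃ a, φ a = L'.u (j g, s) := by
  obtain ⟨E, h1, h2, h3, h4⟩ := ten_emb e
  obtain ⟨φ, hφ, hu⟩ := L.exists_hom (L'.toTwRep.twist (εP X) (j.prodMap E) (hj.prodMap h1)
    (fun g h => h2 g.2 h.2) 1 fun _ => norm_one)
  have hu' : ∀ g, φ (L.u g) = L'.u (j g.1, E g.2) := fun g => (hu g).trans (one_smul _ _)
  refine ⟨φ, hφ, fun a => L.in_map L' hφ (j := fun g => (j g.1, E g.2))
    (fun g => ⟨1, (hu' g).trans (one_smul _ _).symm⟩) (L.in_univ a)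
    fun g _ => ⟨⟨g.1, rfl⟩, h3 g.2⟩, fun g s hs => ?_⟩
  obtain ⟨s', rfl⟩ := h4 s hs
  exact ⟨_, hu' (g, s')⟩

theorem isTensor_tw {X1 X2 X3 : Type} [Group X1] [Group X2] [Group X3] (j1 : X1 →* X3)
    (j2 : X2 →* X3) (h1 : Function.Injective j1) (h2 : Function.Injective j2)
    (hc : ∀ a b, Commute (j1 a) (j2 b)) (hd : ∀ a b, j1 a = j2 b → j1 a = 1)
    (hs : ∀ g, ∃ a b, g = j1 a * j2 b) {A1 A2 A3 : Type u} [CStarAlgebra A1] [CStarAlgebra A2]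
    [CStarAlgebra A3] {t1 : TrState A1} {t2 : TrState A2} {t3 : TrState A3} [t3.W]
    (L1 : TwAlg (εP X1) t1) (L2 : TwAlg (εP X2) t2) (L3 : TwAlg (εP X3) t3) :
    IsTensor t1 t2 t3 := by
  obtain ⟨e, e', he⟩ := ten_sites
  obtain ⟨φ, hφ, a1, a2⟩ := ten_hom j1 h1 e L1 L3
  obtain ⟨ψ, hψ, b1, b2⟩ := ten_hom j2 h2 e' L2 L3
  rw [he] at b1 b2
  refine ⟨φ, ψ, fun a b => ⟨?_, ?_⟩, fun x δ hδ => ?_⟩
  · refine (a1 a).comm_prod (b1 b) ?_ disjoint_compl_right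
    rintro _ ⟨k, rfl⟩ _ ⟨k', rfl⟩
    exact hc k k'
  · rw [(a1 a).τ_mul (b1 b), hφ a, hψ b]
    rintro ⟨g, s⟩ ⟨⟨k, hk⟩, hs1⟩ ⟨⟨k', hk'⟩, hs2⟩
    have h3 := mem_SJ_inter hs1 hs2
    rw [Set.inter_compl_self, SJ_empty, Subgroup.mem_bot] at h3
    exact Prod.ext (hk.symm.trans (hd k k' (hk.trans hk'.symm))) h3
  · obtain ⟨p, hp, hx⟩ := L3.dense x (√(δ / 2)) (Real.sqrt_pos.2 (half_pos hδ))
    refine ⟨p, Submodule.span_le.2 ?_ hp, ?_⟩
    · rintro _ ⟨⟨g, s⟩, rfl⟩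
      obtain ⟨k, k', rfl⟩ := hs g
      obtain ⟨s1, hs1, s2, hs2, rfl⟩ := ten_split (Set.range e) s
      obtain ⟨a, ha⟩ := a2 k s1 hs1
      obtain ⟨b, hb⟩ := b2 k' s2 hs2
      have h3 := L3.toTwRep.u_mul' (j1 k, s1) (j2 k', s2)
      rw [← ha, ← hb] at h3
      exact h3 ▸ Submodule.smul_mem _ _ (Submodule.subset_span ⟨a, b, rfl⟩)
    · rw [t3.norm_τ_star_mul]
      refine (pow_le_pow_left₀ (t3.n2_nonneg _) hx 2).trans_lt ?_
      rw [Real.sq_sqrt (half_pos hδ).le]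
      exact half_lt_self hδ

end Pool.Agent.P.MP_a6af55_an.Pw
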