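import Pool.Agent.P.MP_a6af55_an.PwCount
import Pool.Agent.P.MP_a6af55_an.PwTen

namespace Pool.Agent.P.MP_a6af55_an.Pw

open Pool.Agent.Lib.Tracial
open Filter Topology

universe u w

theorem card_le {J J' : Type} [Fintype J] [DecidableEq J] [Nonempty J] [Fintype J'] [DecidableEq J']
    {A A' : Type u} [CStarAlgebra A] [CStarAlgebra A'] {t : TrState A} {t' : TrState A'} [t.W]
    [t'.W] (L : TwAlg (εP (J → FH)) t) (L' : TwAlg (εP (J' → FH)) t')
    (h : ElemEquiv.{u, w} t' t) : Fintype.card J' ≤ Fintype.card J := by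
  obtain ⟨I, I', U, V, r, r', θ, hr, hr', hθ⟩ := exists_iso (tw_isInfFactor L' pp_diag) h
  obtain ⟨q, q1, q2⟩ := exists_pairs (J := J')
  exact count L hr' (fun j k => θ (pairU L' U (fun _ => q j) k))
    (fun j k => dbl_unit (φ := (θ : Ultrapower t' U →⋆ₐ[ℂ] Ultrapower t V)) (L'.uu_unitary _))
    (fun j j' hj k l => (main_comm_uu L' U fun _ => q2 j j' hj k l).map θ)
    (fun j => NM.map (φ := (θ : Ultrapower t' U →⋆ₐ[ℂ] Ultrapower t V)) hθ
      (fun y _ => EquivLike.surjective θ y) (pairU_nm L' U _))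
    fun j => (pairU_fac L' hr _ (q1 j)).map θ

theorem symm_equiv {A A' : Type u} [CStarAlgebra A] [CStarAlgebra A'] {t : TrState A}
    {t' : TrState A'} (h : ElemEquiv.{u, w} t t') : ElemEquiv.{u, w} t' t :=
  let ⟨I, J, U, V, ⟨e⟩⟩ := h
  ⟨J, I, V, U, ⟨e.symm⟩⟩

end Pool.Agent.P.MP_a6af55_an.Pw
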