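import Pool.Agent.P.MP_a6af55_an.SMHom
import Pool.Agent.P.MP_a6af55_an.PwDefs

namespace Pool.Agent.P.MP_a6af55_an.Pw

open Pool.Agent.Lib.Tracial
open scoped ComplexOrder InnerProductSpace ComplexConjugate TensorProduct
open Filter Topology

section ext

variable {C C' : Type*} [CStarAlgebra C] [CStarAlgebra C'] {r : TrState C} {s : TrState C'}
  {D : Type*} [Ring D] [StarRing D] [Algebra ℂ D] (f : D →⋆ₐ[ℂ] C) (g : D →⋆ₐ[ℂ] C')
  (V : r.L2 →ₗᵢ[ℂ] s.L2) (hV : ∀ d, V (r.Λ (f d)) = s.Λ (g d))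
  (hd : DenseRange fun d => r.Λ (f d))

include hV hd

lemma uq_rmul (d : D) (ξ : r.L2) : V (r.rmul (f d) ξ) = s.rmul (g d) (V ξ) :=
  hd.induction_on ξ (isClosed_eq (by fun_prop) (by fun_prop)) fun e => by
    rw [hV, r.rmul_Λ, s.rmul_Λ, ← map_mul, ← map_mul, hV]

lemma uq_π {p : C} {b : C'} (h : V (r.Λ p) = s.Λ b) (ξ : r.L2) : V (r.π p ξ) = s.π b (V ξ) :=
  hd.induction_on ξ (isClosed_eq (by fun_prop) (by fun_prop)) fun e => by
    rw [hV, r.π_Λ, s.π_Λ, ← r.rmul_Λ, uq_rmul f g V hV hd, h, s.rmul_Λ]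

omit hd in
lemma uq_one : V (r.Λ 1) = s.Λ 1 := by simpa using hV 1

lemma uq_mul {p q : C} {b c : C'} (h : V (r.Λ p) = s.Λ b) (h' : V (r.Λ q) = s.Λ c) :
    V (r.Λ (p * q)) = s.Λ (b * c) := by
  rw [← r.π_Λ, uq_π f g V hV hd h, h', s.π_Λ]

lemma uq_star {p : C} {b : C'} (h : V (r.Λ p) = s.Λ b) : V (r.Λ (star p)) = s.Λ (star b) := by
  have h1 : ⟪V (r.Λ (star p)), s.Λ (star b)⟫_ℂ = (r.n2 p ^ 2 : ℝ) := by
    rw [← mul_one (star b), ← s.π_Λ, map_star s.π, ContinuousLinearMap.star_eq_adjoint,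
      ContinuousLinearMap.adjoint_inner_right, ← uq_π f g V hV hd h, ← uq_one f g V hV,
      V.inner_map_map, r.π_Λ, r.inner_Λ, r.n2_sq', mul_one, star_mul, star_star, r.trace]
  rw [← sub_eq_zero, ← norm_eq_zero, ← pow_eq_zero_iff two_ne_zero, @norm_sub_sq ℂ, h1, V.norm_map,
    r.norm_Λ, s.norm_Λ, r.n2_star, s.n2_star, V_n2 V h]
  simp only [RCLike.re_to_complex, Complex.ofReal_re]
  ring

lemma uq_exists [s.W] (x : C) : ∃ b, V (r.Λ x) = s.Λ b := by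
  wlog hx : ‖x‖ ≤ 1 generalizing x
  · have h0 : (‖x‖ : ℂ) ≠ 0 := by
      have : 0 < ‖x‖ := by linarith
      exact_mod_cast this.ne'
    obtain ⟨a, ha⟩ := this ((‖x‖ : ℂ)⁻¹ • x) (by
      rw [norm_smul, norm_inv, Complex.norm_real, norm_norm]
      exact inv_mul_le_one_of_le₀ le_rfl (norm_nonneg _))
    exact ⟨(‖x‖ : ℂ) • a, by rw [map_smul, ← ha, map_smul, map_smul, smul_inv_smul₀ h0]⟩
  let B : StarSubalgebra ℂ C' :=
    { carrier := {b | ∃ p, V (r.Λ p) = s.Λ b}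
      mul_mem' := fun ⟨_, h⟩ ⟨_, h'⟩ => ⟨_, uq_mul f g V hV hd h h'⟩
      add_mem' := fun ⟨p, h⟩ ⟨q, h'⟩ => ⟨p + q, by simp [h, h']⟩
      algebraMap_mem' := fun c => ⟨c • 1, by
        simp [Algebra.algebraMap_eq_smul_one, uq_one f g V hV]⟩
      star_mem' := fun ⟨_, h⟩ => ⟨_, uq_star f g V hV hd h⟩ }
  have h1 : V (r.Λ x) ∈ closure (s.Λ '' B.topologicalClosure) :=
    map_mem_closure V.continuous (hd _) (by
      rintro _ ⟨d, rfl⟩
      exact ⟨g d, subset_closure ⟨f d, hV d⟩, (hV d).symm⟩)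
  have hc := GrpAlg.cont_Λ s
  have h2 := s.key _ B.isClosed_topologicalClosure _ h1 fun b₁ h₁ b₂ h₂ => by
    have := map_mem_closure₂ (f := fun b₁ b₂ : C' => ‖s.Λ b₁‖ * ‖s.Λ b₂‖ -
      ‖⟪s.Λ (b₁ * b₂), V (r.Λ x)⟫_ℂ‖) (u := Set.Ici 0) (by
        unfold Function.uncurry; fun_prop) h₁ h₂ (by
      rintro b₁ ⟨p₁, h₁⟩ b₂ ⟨p₂, h₂⟩
      rw [Set.mem_Ici, sub_nonneg, ← uq_mul f g V hV hd h₁ h₂, V.inner_map_map, s.norm_Λ, s.norm_Λ,
        V_n2 V h₁, V_n2 V h₂]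
      exact r.key_hyp hx _ _)
    rwa [closure_Ici, Set.mem_Ici, sub_nonneg] at this
  obtain ⟨a, -, ha⟩ := s.exists_of_mem_closure (fun a ha => ha.2) h2
  exact ⟨a, ha.symm⟩

lemma uq_hom [s.W] : ∃ φ : C →⋆ₐ[ℂ] C', ∀ x, V (r.Λ x) = s.Λ (φ x) := by
  choose φ hφ using uq_exists f g V hV hd
  have h1 := uq_one f g V hV
  exact ⟨{ toFun := φ
           map_one' := s.Λ_injective (by rw [← hφ, h1])
           map_mul' := fun a b => s.Λ_injective (by rw [← hφ, uq_mul f g V hV hd (hφ a) (hφ b)])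
           map_zero' := s.Λ_injective (by simp [← hφ])
           map_add' := fun a b => s.Λ_injective (by simp [← hφ])
           commutes' := fun c => s.Λ_injective (by
             simp [← hφ, Algebra.algebraMap_eq_smul_one, h1])
           map_star' := fun a => s.Λ_injective (by rw [← hφ, uq_star f g V hV hd (hφ a)]) }, hφ⟩

end ext

universe u

variable {A B C C' : Type u} [CStarAlgebra A] [CStarAlgebra B] [CStarAlgebra C] [CStarAlgebra C']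
  {t : TrState A} {s : TrState B} {r : TrState C} {r' : TrState C'}

lemma uq_lift (h : IsTensor t s r) : ∃ f : A ⊗[ℂ] B →⋆ₐ[ℂ] C,
    (∀ a b, r.τ (f (a ⊗ₜ b)) = t.τ a * s.τ b) ∧ DenseRange fun d => r.Λ (f d) := by
  obtain ⟨φ, ψ, h1, h2⟩ := h
  let F : A ⊗[ℂ] B →ₐ[ℂ] C := Algebra.TensorProduct.lift φ.toAlgHom ψ.toAlgHom fun a b => (h1 a b).1
  have hF : ∀ a b, F (a ⊗ₜ b) = φ a * ψ b := fun a b => rfl
  refine ⟨⟨F, fun d => ?_⟩, fun a b => (h1 a b).2, fun ξ => ?_⟩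
  · change F (star d) = star (F d)
    induction d using TensorProduct.induction_on with
    | zero => simp
    | tmul a b => rw [TensorProduct.star_tmul, hF, hF, star_mul, (h1 _ _).1, map_star, map_star]
    | add x y a b => rw [star_add, map_add, map_add, star_add, a, b]
  · refine r.denseRange_Λ.induction_on ξ isClosed_closure fun x => ?_
    refine Metric.mem_closure_iff.2 fun δ hδ => ?_
    obtain ⟨y, hy, h3⟩ := h2 x (δ ^ 2) (by positivity)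
    have h4 : y ∈ LinearMap.range F.toLinearMap := Submodule.span_le.2 (by
      rintro _ ⟨a, b, rfl⟩
      exact ⟨a ⊗ₜ b, rfl⟩) hy
    obtain ⟨d, rfl⟩ := h4
    refine ⟨_, ⟨d, rfl⟩, ?_⟩
    rw [← r.n2_sq', Complex.norm_real, Real.norm_of_nonneg (sq_nonneg _)] at h3
    rw [dist_eq_norm, ← map_sub, r.norm_Λ]
    exact lt_of_pow_lt_pow_left₀ 2 hδ.le h3

theorem tensor_unique [r.W] [r'.W] (h : IsTensor t s r) (h' : IsTensor t s r') :
    Nonempty (C ≃⋆ₐ[ℂ] C') := by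
  obtain ⟨f, f1, f2⟩ := uq_lift h
  obtain ⟨g, g1, g2⟩ := uq_lift h'
  have hτ : ∀ d, r'.τ (g d) = r.τ (f d) := fun d => by
    induction d using TensorProduct.induction_on with
    | zero => simp
    | tmul a b => rw [f1, g1]
    | add x y a b => rw [map_add, map_add, map_add, map_add, a, b]
  let V := (LinearEquiv.refl ℂ (A ⊗[ℂ] B)).extendOfIsometry (r.Λ ∘ₗ f.toAlgHom.toLinearMap)
    (r'.Λ ∘ₗ g.toAlgHom.toLinearMap) f2 g2 fun d => by
      change r'.n2 (g d) = r.n2 (f d)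
      rw [← sq_eq_sq₀ (r'.n2_nonneg _) (r.n2_nonneg _), r.n2_sq, r'.n2_sq, ← map_star, ← map_star,
        ← map_mul, ← map_mul, hτ]
  have hV : ∀ d, V (r.Λ (f d)) = r'.Λ (g d) := fun d =>
    LinearEquiv.extendOfIsometry_eq _ _ _ f2 g2 _ d
  obtain ⟨φ, hφ⟩ := uq_hom f g V.toLinearIsometry hV f2
  obtain ⟨ψ, hψ⟩ := uq_hom g f V.symm.toLinearIsometry
    (fun d => (V.symm_apply_eq.2 (hV d).symm)) g2
  refine ⟨StarAlgEquiv.ofBijective φ ⟨fun x y e => r.Λ_injective (V.injective ?_), fun y =>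
    ⟨ψ y, r'.Λ_injective ?_⟩⟩⟩
  · exact (hφ x).trans ((congrArg r'.Λ e).trans (hφ y).symm)
  · rw [← hφ, ← hψ]
    exact V.apply_symm_apply _

end Pool.Agent.P.MP_a6af55_an.Pw
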