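import Pool.Agent.P.MP_a6af55_an.Raag

namespace Pool.Agent.P.MP_a6af55_an

open scoped Classical

lemma free_finite {α : Type*} (f : FreeGroup α) :
    ∃ T : Set α, T.Finite ∧ f ∈ Subgroup.closure (FreeGroup.of '' T) := by
  induction f using FreeGroup.induction_on with
  | C1 => exact ⟨∅, Set.finite_empty, one_mem _⟩
  | of a => exact ⟨{a}, Set.finite_singleton a, Subgroup.subset_closure ⟨a, rfl, rfl⟩⟩
  | inv_of _ h => exact h.imp fun F h => ⟨h.1, inv_mem h.2⟩
  | mul _ _ h h' =>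
    obtain ⟨F, h1, h2⟩ := h
    obtain ⟨F', h3, h4⟩ := h'
    exact ⟨F ∪ F', h1.union h3,
      mul_mem (Subgroup.closure_mono (Set.image_mono Set.subset_union_left) h2)
        (Subgroup.closure_mono (Set.image_mono Set.subset_union_right) h4)⟩

/-- Left translation on the first coordinate. -/
def lt (D P : Type) [Group D] : D →* Equiv.Perm (D × P) where
  toFun d := (Equiv.mulLeft d).prodCongr (Equiv.refl P)
  map_one' := by ext ⟨_, _⟩ <;> simp
  map_mul' _ _ := by ext ⟨_, _⟩ <;> simp [mul_assoc]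

lemma lt_apply {D P : Type} [Group D] (d e : D) (p : P) : lt D P d (e, p) = (d * e, p) := rfl

variable {L : Type} {Γ : SimpleGraph L}

lemma det_step {v : L} {F : Set L} (hv : v ∉ F) (ih : ∀ g ∈ sub Γ F, g ≠ 1 → Det g) :
    ∀ g ∈ sub Γ (insert v F), g ≠ 1 → Det g := by
  intro g hg h1
  let K := {l | Γ.Adj l v}
  have hV : ∀ w ∈ ({v} : Set L), ∀ l, Γ.Adj l w ↔ l ∈ K := by rintro _ rfl _; rfl
  have hK : ∀ w ∈ ({v} : Set L), w ∉ K := by rintro _ rfl; exact Γ.irrefl
  have h2 := nf_spec hV hK F hg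
  by_cases h3 : ret Γ F (nf hV hK g).right = 1
  swap
  · exact Det.comp ((ret Γ F).comp (SemidirectProduct.rightHom.comp (nf hV hK)))
      (ih _ (ret_mem _ _) h3)
  rw [h3, mul_one] at h2
  generalize (nf hV hK g).left = f at h2
  let κ : ({v} : Set L) × (RG Γ ⧸ sub Γ K) → RG Γ := fun x =>
    ret Γ F x.2.out * (ret Γ K (ret Γ F x.2.out))⁻¹
  have k1 : ∀ x, κ x ∈ sub Γ F := fun x => mul_mem (ret_mem _ _)
    (inv_mem (sub_mono Set.inter_subset_right (ret_mem_inter K (ret_mem _ _))))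
  have k2 : ∀ x, ret Γ K (κ x) = 1 := fun x => by
    rw [map_mul, map_inv, ret_eq (ret_mem K _), mul_inv_cancel]
  have k3 : ∀ x, ev {v} K F (FreeGroup.of x) = κ x * gen Γ v * (κ x)⁻¹ := fun x => by
    have := comm_sub (A := K) (B := {v}) (fun a ha b hb => Or.inr (hb ▸ ha)) _
      (ret_mem K (ret Γ F x.2.out)) _ (gen_mem rfl)
    rw [ev, FreeGroup.lift_apply_of, show x.1.1 = v from x.1.2]
    simp only [κ, mul_inv_rev, inv_inv, mul_assoc]
    rw [← mul_assoc (gen Γ v) (ret Γ K _), ← this.eq, mul_assoc, inv_mul_cancel_left]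
  have h4 : FreeGroup.map κ f ≠ 1 := fun h => h1 (by
    have : ev {v} K F = (FreeGroup.lift fun γ => γ * gen Γ v * γ⁻¹).comp (FreeGroup.map κ) :=
      FreeGroup.ext_hom _ _ fun x => by simp [k3]
    rw [h2, this, MonoidHom.comp_apply, h, map_one])
  obtain ⟨P, _, _, σ, hσ⟩ := free_rf h4
  obtain ⟨T, hT, hf⟩ := free_finite f
  obtain ⟨N, _, _, hN⟩ := exists_common (Set.image2 (fun x y => (κ x)⁻¹ * κ y) T T \ {1})
    (hT.image2 _ hT).diff (by
      rintro _ ⟨⟨x, -, y, -, rfl⟩, h⟩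
      exact ih _ (mul_mem (inv_mem (k1 x)) (k1 y)) h)
  have hinj : Set.InjOn (QuotientGroup.mk' N) (κ '' T) := by
    rintro _ ⟨x, hx, rfl⟩ _ ⟨y, hy, rfl⟩ h
    by_contra hne
    exact hN _ ⟨⟨x, hx, y, hy, rfl⟩, fun h => hne (inv_mul_eq_one.1 h)⟩ (QuotientGroup.eq.1 h)
  let σ' : RG Γ ⧸ N → P := fun q =>
    σ (FreeGroup.of (Function.invFunOn (QuotientGroup.mk' N) (κ '' T) q))
  let δ := (QuotientGroup.mk' N).prod ((QuotientGroup.mk' N).comp (ret Γ K))
  let ζ : Equiv.Perm (((RG Γ ⧸ N) × (RG Γ ⧸ N)) × P) :=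
    Equiv.prodShear (Equiv.refl _) fun d => Equiv.mulLeft (σ' (d.1⁻¹ * d.2))
  have hζ : ∀ d p, ζ (d, p) = (d, σ' (d.1⁻¹ * d.2) * p) := fun _ _ => rfl
  have key : ∀ l, Γ.Adj l v → Commute (lt _ P (δ (gen Γ l))) ζ := fun l hl =>
    Equiv.ext fun ⟨d, p⟩ => by
      simp [lt_apply, hζ, δ, ret_gen, show l ∈ K from hl, mul_assoc]
  let Φ := rlift (Γ := Γ) (fun l => if l = v then ζ else lt _ P (δ (gen Γ l))) fun a b h => by
    split_ifs with h1 h2 h2
    · exact Commute.refl _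
    · exact (key b (h1 ▸ h.symm)).symm
    · exact key a (h2 ▸ h)
    · exact ((gen_comm h).map _).map _
  have p1 : ∀ γ ∈ sub Γ F, Φ γ = lt _ P (δ γ) := fun γ hγ =>
    eq_on_sub (g := (lt _ P).comp δ) (fun a ha => (rlift_gen _ _ _).trans
      (if_neg fun h : a = v => hv (h ▸ ha))) hγ
  have p2 : Φ (gen Γ v) = ζ := (rlift_gen _ _ _).trans (if_pos rfl)
  have p3 : ∀ p, Φ (ev {v} K F f) (1, p) = (1, σ (FreeGroup.map κ f) * p) := by
    clear hσ h4 h2
    induction hf using Subgroup.closure_induction with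
    | mem _ h =>
      obtain ⟨x, hx, rfl⟩ := h
      intro p
      have : σ' (κ x) = σ (FreeGroup.of (κ x)) :=
        congrArg (fun y => σ (FreeGroup.of y)) (hinj.leftInvOn_invFunOn ⟨x, hx, rfl⟩)
      rw [k3, map_mul, map_mul, p1 _ (k1 x), p1 _ (inv_mem (k1 x)), p2, FreeGroup.map.of, ← this]
      simp [lt_apply, hζ, δ, k2]
    | one => simp
    | mul x y _ _ h h' => intro p; simp [h, h', mul_assoc]
    | inv x _ h =>
      intro p
      rw [map_inv, map_inv, Equiv.Perm.inv_eq_iff_eq, h]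
      simp
  refine Det.of_hom Φ fun h => hσ ?_
  have := p3 1
  rw [← h2, h] at this
  simpa using (congrArg Prod.snd this).symm

theorem det_all (g : RG Γ) (hg : g ≠ 1) : Det g := by
  obtain ⟨F, h1, h2⟩ := exists_finite g
  induction F, h1 using Set.Finite.induction_on generalizing g with
  | empty => exact (hg (by simpa [sub_empty] using h2)).elim
  | insert h _ ih => exact det_step h (fun g h1 h2 => ih g h2 h1) g h2 hg

end Pool.Agent.P.MP_a6af55_an
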