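import Pool.Agent.P.MP_a6af55_an.Free

namespace Pool.Agent.P.MP_a6af55_an

open scoped Classical

variable {L : Type} (Γ : SimpleGraph L)

/-- The commutation relations. -/
def rels : Set (FreeGroup L) := {r | ∃ a b, Γ.Adj a b ∧
  r = FreeGroup.of a * FreeGroup.of b * (FreeGroup.of b * FreeGroup.of a)⁻¹}

/-- The right-angled Artin group of a graph. -/
abbrev RG : Type := PresentedGroup (rels Γ)

instance [Countable L] : Countable (RG Γ) := (PresentedGroup.mk_surjective _).countable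

/-- The generators. -/
def gen (a : L) : RG Γ := PresentedGroup.of a

variable {Γ}

lemma gen_comm {a b : L} (h : Γ.Adj a b) : Commute (gen Γ a) (gen Γ b) :=
  PresentedGroup.mk_eq_mk_of_mul_inv_mem (rels := rels Γ) ⟨a, b, h, rfl⟩

/-- The universal property. -/
def rlift {H : Type*} [Group H] (f : L → H) (hf : ∀ a b, Γ.Adj a b → Commute (f a) (f b)) :
    RG Γ →* H :=
  PresentedGroup.toGroup (f := f) (by
    rintro _ ⟨a, b, h, rfl⟩
    simp [(hf a b h).eq])

@[simp] lemma rlift_gen {H : Type*} [Group H] (f : L → H)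
    (hf : ∀ a b, Γ.Adj a b → Commute (f a) (f b)) (a : L) : rlift f hf (gen Γ a) = f a :=
  PresentedGroup.toGroup.of _

lemma rg_ext {H : Type*} [Group H] {f g : RG Γ →* H} (h : ∀ a, f (gen Γ a) = g (gen Γ a)) :
    f = g := PresentedGroup.ext h

variable (Γ) in
/-- Standard subgroups. -/
def sub (A : Set L) : Subgroup (RG Γ) := Subgroup.closure (gen Γ '' A)

lemma gen_mem {A : Set L} {a : L} (h : a ∈ A) : gen Γ a ∈ sub Γ A :=
  Subgroup.subset_closure ⟨a, h, rfl⟩

lemma sub_mono {A B : Set L} (h : A ⊆ B) : sub Γ A ≤ sub Γ B :=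
  Subgroup.closure_mono (Set.image_mono h)

lemma sub_univ : sub Γ Set.univ = ⊤ := by
  rw [sub, Set.image_univ]; exact PresentedGroup.closure_range_of _

lemma sub_empty : sub Γ ∅ = ⊥ := by simp [sub]

lemma sub_le {A : Set L} {H : Subgroup (RG Γ)} (h : ∀ a ∈ A, gen Γ a ∈ H) : sub Γ A ≤ H :=
  (Subgroup.closure_le _).2 (by rintro _ ⟨a, ha, rfl⟩; exact h a ha)

lemma eq_on_sub {H : Type*} [Group H] {f g : RG Γ →* H} {A : Set L}
    (h : ∀ a ∈ A, f (gen Γ a) = g (gen Γ a)) {x : RG Γ} (hx : x ∈ sub Γ A) : f x = g x :=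
  sub_le (H := f.eqLocus g) h hx

variable (Γ) in
/-- Retractions onto standard subgroups. -/
noncomputable def ret (A : Set L) : RG Γ →* RG Γ :=
  rlift (fun a => if a ∈ A then gen Γ a else 1) fun a b h => by
    split_ifs
    exacts [gen_comm h, Commute.one_right _, Commute.one_left _, Commute.one_left _]

lemma ret_gen (A : Set L) (a : L) : ret Γ A (gen Γ a) = if a ∈ A then gen Γ a else 1 :=
  rlift_gen _ _ _

lemma ret_eq {A : Set L} {g : RG Γ} (h : g ∈ sub Γ A) : ret Γ A g = g :=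
  eq_on_sub (g := MonoidHom.id _) (fun a ha => by simp [ret_gen, ha]) h

lemma ret_mem_inter (A : Set L) {B : Set L} {g : RG Γ} (h : g ∈ sub Γ B) :
    ret Γ A g ∈ sub Γ (A ∩ B) :=
  sub_le (H := (sub Γ (A ∩ B)).comap (ret Γ A)) (fun a ha => by
    rw [Subgroup.mem_comap, ret_gen]
    split_ifs with h
    exacts [gen_mem ⟨h, ha⟩, one_mem _]) h

lemma ret_mem (A : Set L) (g : RG Γ) : ret Γ A g ∈ sub Γ A := by
  simpa using ret_mem_inter A (B := Set.univ) (g := g) (by simp [sub_univ])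

lemma mem_inter {A B : Set L} {g : RG Γ} (h : g ∈ sub Γ A) (h' : g ∈ sub Γ B) :
    g ∈ sub Γ (A ∩ B) := ret_eq h ▸ ret_mem_inter A h'

lemma exists_finite (g : RG Γ) : ∃ F : Set L, F.Finite ∧ g ∈ sub Γ F := by
  have : g ∈ sub Γ Set.univ := by simp [sub_univ]
  induction this using Subgroup.closure_induction with
  | mem _ h =>
    obtain ⟨a, -, rfl⟩ := h
    exact ⟨{a}, Set.finite_singleton a, gen_mem rfl⟩
  | one => exact ⟨∅, Set.finite_empty, one_mem _⟩
  | mul _ _ _ _ h h' =>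
    obtain ⟨F, h1, h2⟩ := h
    obtain ⟨F', h3, h4⟩ := h'
    exact ⟨F ∪ F', h1.union h3, mul_mem (sub_mono Set.subset_union_left h2)
      (sub_mono Set.subset_union_right h4)⟩
  | inv _ _ h => exact h.imp fun F h => ⟨h.1, inv_mem h.2⟩

lemma mem_of_forall {C : Set L} {g : RG Γ} (h : ∀ l ∉ C, g ∈ sub Γ {l}ᶜ) : g ∈ sub Γ C := by
  obtain ⟨F, h1, h2⟩ := exists_finite g
  have : ∀ E : Set L, E.Finite → E ⊆ Cᶜ → g ∈ sub Γ Eᶜ := fun E hE => by
    induction E, hE using Set.Finite.induction_on with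
    | empty => simp [sub_univ]
    | insert _ _ ih =>
      intro hs
      rw [Set.insert_eq, Set.compl_union]
      exact mem_inter (h _ (hs (Set.mem_insert _ _))) (ih ((Set.subset_insert _ _).trans hs))
  refine sub_mono ?_ (mem_inter h2 (this (F \ C) h1.diff fun _ h => h.2))
  exact fun l hl => not_not.1 fun h => hl.2 ⟨hl.1, h⟩

variable (Γ) in
/-- Equal or adjacent. -/
def Cm (a b : L) : Prop := a = b ∨ Γ.Adj a b

lemma Cm.symm {a b : L} (h : Cm Γ a b) : Cm Γ b a := h.imp Eq.symm fun h => h.symm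

lemma comm_sub {A B : Set L} (h : ∀ a ∈ A, ∀ b ∈ B, Cm Γ a b) : ∀ g ∈ sub Γ A, ∀ k ∈ sub Γ B,
    Commute g k := fun g hg k hk => by
  refine (sub_le (H := Subgroup.centralizer {k}) (fun a ha => ?_) hg k rfl).symm
  rw [Subgroup.mem_centralizer_singleton_iff]
  refine sub_le (H := Subgroup.centralizer {gen Γ a}) (fun b hb => ?_) hk _ rfl
  rw [Subgroup.mem_centralizer_singleton_iff]
  rcases h a ha b hb with rfl | h
  exacts [rfl, (gen_comm h).symm]

lemma split {A B : Set L} (h : ∀ a ∈ B ∩ A, ∀ b ∈ Bᶜ ∩ A, Cm Γ a b) {g : RG Γ}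
    (hg : g ∈ sub Γ A) : g = ret Γ B g * ret Γ Bᶜ g := by
  induction hg using Subgroup.closure_induction with
  | mem _ h =>
    obtain ⟨a, -, rfl⟩ := h
    by_cases ha : a ∈ B <;> simp [ret_gen, ha]
  | one => simp
  | mul x y hx hy h1 h2 =>
    have := comm_sub h _ (ret_mem_inter B hy) _ (ret_mem_inter Bᶜ hx)
    rw [map_mul, map_mul, mul_assoc, ← mul_assoc (ret Γ B y), this.eq, mul_assoc, ← h2,
      ← mul_assoc, ← h1]
  | inv x hx h1 =>
    have := comm_sub h _ (ret_mem_inter B hx) _ (ret_mem_inter Bᶜ hx)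
    rw [map_inv, map_inv, ← mul_inv_rev, ← this.eq, ← h1]

lemma not_comm {a b : L} (h : ¬ Cm Γ a b) : ¬ Commute (gen Γ a) (gen Γ b) := by
  intro hc
  rw [Cm, not_or] at h
  have := hc.map (rlift (H := Equiv.Perm (Fin 3))
    (fun l => if l = a then Equiv.swap 0 1 else if l = b then Equiv.swap 1 2 else 1) fun x y hxy => by
      split_ifs <;> subst_vars <;>
        first | exact Commute.refl _ | exact Commute.one_left _ | exact Commute.one_right _
              | exact (h.2 hxy).elim | exact (h.2 hxy.symm).elim)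
  rw [rlift_gen, rlift_gen, if_pos rfl, if_neg (Ne.symm h.1), if_pos rfl] at this
  exact absurd this.eq (by decide)

lemma sub_infinite {A : Set L} {a : L} (h : a ∈ A) : (sub Γ A : Set (RG Γ)).Infinite := by
  refine Set.infinite_of_injective_forall_mem (f := fun n : ℕ => gen Γ a ^ n) (fun m n hmn => ?_)
    fun n => pow_mem (gen_mem h) n
  have := congrArg (rlift (Γ := Γ) (fun _ => Multiplicative.ofAdd (1 : ℤ))
    fun _ _ _ => Commute.refl _) hmn
  simpa [← ofAdd_nsmul] using this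

section hnn

variable (V K : Set L)

/-- The action on the free group over the cosets. -/
def act : RG Γ →* MulAut (FreeGroup (V × (RG Γ ⧸ sub Γ K))) where
  toFun g := FreeGroup.freeGroupCongr ((Equiv.refl V).prodCongr (MulAction.toPerm g))
  map_one' := MulEquiv.toMonoidHom_injective (FreeGroup.ext_hom _ _ fun ⟨_, _⟩ => by simp)
  map_mul' g h := MulEquiv.toMonoidHom_injective (FreeGroup.ext_hom _ _ fun ⟨_, _⟩ => by
    simp [mul_smul])

lemma act_of (g : RG Γ) (v : V) (q : RG Γ ⧸ sub Γ K) :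
    act V K g (FreeGroup.of (v, q)) = FreeGroup.of (v, g • q) := by simp [act]

variable {V K} (hV : ∀ v ∈ V, ∀ l, Γ.Adj l v ↔ l ∈ K) (hK : ∀ v ∈ V, v ∉ K)

open SemidirectProduct

/-- The normal form map. -/
noncomputable def nf : RG Γ →* FreeGroup (V × (RG Γ ⧸ sub Γ K)) ⋊[act V K] RG Γ :=
  rlift (fun l => if h : l ∈ V then inl (FreeGroup.of (⟨l, h⟩, ((1 : RG Γ) : RG Γ ⧸ sub Γ K)))
    else inr (gen Γ l)) fun a b h => by
      have key : ∀ (v : V) l, Γ.Adj l v → Commute (inr (gen Γ l))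
          (inl (φ := act V K) (FreeGroup.of (v, ((1 : RG Γ) : RG Γ ⧸ sub Γ K)))) := fun v l hl => by
        rw [Commute, SemiconjBy, ← mul_inv_eq_iff_eq_mul, ← map_inv, ← inl_aut, act_of,
          MulAction.Quotient.smul_mk, QuotientGroup.eq.2]
        simpa using gen_mem ((hV v v.2 l).1 hl)
      split_ifs with h1 h2 h2
      · exact (hK a h1 ((hV b h2 a).1 h)).elim
      · exact (key ⟨a, h1⟩ b h.symm).symm
      · exact key ⟨b, h2⟩ a h
      · exact (gen_comm h).map _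

lemma nf_gen (v : V) : nf hV hK (gen Γ v) = inl (FreeGroup.of (v, ((1 : RG Γ) : RG Γ ⧸ sub Γ K))) :=
  (rlift_gen _ _ _).trans (dif_pos v.2)

include hV in
lemma conj_eq (C : Set L) (v : V) {g h : RG Γ} (hgh : (g : RG Γ ⧸ sub Γ K) = h) :
    ret Γ C g * gen Γ v * (ret Γ C g)⁻¹ = ret Γ C h * gen Γ v * (ret Γ C h)⁻¹ := by
  have := comm_sub (A := C ∩ K) (B := {v.1}) (fun a ha b hb => Or.inr (hb ▸ (hV v v.2 a).2 ha.2))
    _ (ret_mem_inter C (QuotientGroup.eq.1 hgh)) _ (gen_mem rfl)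
  rw [map_mul, map_inv] at this
  calc _ = ret Γ C g * (gen Γ v * ((ret Γ C g)⁻¹ * ret Γ C h)) * (ret Γ C h)⁻¹ := by group
    _ = _ := by rw [← this.eq]; group

variable (V K) in
/-- Evaluation of the free part. -/
noncomputable def ev (C : Set L) : FreeGroup (V × (RG Γ ⧸ sub Γ K)) →* RG Γ :=
  FreeGroup.lift fun x => ret Γ C x.2.out * gen Γ x.1 * (ret Γ C x.2.out)⁻¹

lemma nf_spec (C : Set L) {g : RG Γ}
    (hg : g ∈ sub Γ (V ∪ C)) : g = ev V K C (nf hV hK g).left * ret Γ C (nf hV hK g).right := by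
  have h1 : ∀ (v : V) (g : RG Γ), ev V K C (FreeGroup.of (v, (g : RG Γ ⧸ sub Γ K))) =
      ret Γ C g * gen Γ v * (ret Γ C g)⁻¹ := fun v g =>
    FreeGroup.lift_apply_of.trans (conj_eq hV C v (Quotient.out_eq _))
  refine eq_on_sub (f := MonoidHom.id _) (g := (lift (ev V K C) (ret Γ C) fun g =>
    FreeGroup.ext_hom _ _ ?_).comp (nf hV hK)) (fun a ha => ?_) hg
  · rintro ⟨v, ⟨q⟩⟩
    change ev V K C (act V K g (FreeGroup.of (v, (q : RG Γ ⧸ sub Γ K)))) = _ * ev V K C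
      (FreeGroup.of (v, (q : RG Γ ⧸ sub Γ K))) * _
    rw [act_of, MulAction.Quotient.smul_mk, h1, h1, smul_eq_mul, map_mul]
    group
  · by_cases h : a ∈ V
    · simp [nf_gen hV hK ⟨a, h⟩, h1]
    · simp [nf, h, ret_gen, ha.resolve_left h]

end hnn

theorem pp_gen {a b : L} (hab : a ≠ b) {K : Set L} (ha : ∀ l, Γ.Adj l a ↔ l ∈ K)
    (hb : ∀ l, Γ.Adj l b ↔ l ∈ K) (hb' : b ∉ K) :
    PP (gen Γ a) (gen Γ b) (sub Γ K : Set (RG Γ))ᶜ := by
  have ha' : a ∉ K := fun h => Γ.irrefl ((ha a).2 h)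
  have hV : ∀ v ∈ ({a, b} : Set L), ∀ l, Γ.Adj l v ↔ l ∈ K := by rintro v (rfl | rfl) <;> assumption
  have hK : ∀ v ∈ ({a, b} : Set L), v ∉ K := by rintro v (rfl | rfl) <;> assumption
  have inv : ∀ v ∈ ({a, b} : Set L), ∀ g, gen Γ v * g * (gen Γ v)⁻¹ ∈ (sub Γ K : Set (RG Γ))ᶜ ↔
      g ∈ (sub Γ K : Set (RG Γ))ᶜ := fun v hv g => not_congr (by
    have hc := comm_sub (A := {v}) (B := K)
      (fun x hx l hl => Or.inr (hx ▸ ((hV v hv l).2 hl).symm)) _ (gen_mem rfl)
    refine ⟨fun h => ?_, fun h => by rwa [(hc g h).eq, mul_inv_cancel_right]⟩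
    have := (hc _ h).eq
    rw [inv_mul_cancel_right, mul_assoc, mul_right_inj] at this
    rwa [← this, ← mul_assoc])
  let x : ({a, b} : Set L) → _ × (RG Γ ⧸ sub Γ K) := fun v => (v, ((1 : RG Γ) : RG Γ ⧸ sub Γ K))
  let A : ({a, b} : Set L) := ⟨a, Or.inl rfl⟩
  let B : ({a, b} : Set L) := ⟨b, Or.inr rfl⟩
  have hAB : ∀ s s' : Bool, (x A, s) ≠ (x B, s') := fun s s' h =>
    hab (congrArg (fun p => p.1.1.1) h)
  let St := fun l => {g : RG Γ | g ∉ sub Γ K ∧ (nf hV hK g).left ∈ FreeGroup.startsWith l}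
  have dj : ∀ {l l'}, l ≠ l' → ∀ g ∈ St l, g ∉ St l' := fun h g h1 h2 =>
    Set.disjoint_left.1 (FreeGroup.startsWith.disjoint_iff_ne.2 h) h1.2 h2.2
  have c1 : ∀ v g, (nf hV hK (gen Γ v.1 * g * (gen Γ v.1)⁻¹)).left = FreeGroup.mk [(x v, true)] *
      (nf hV hK g).left * (FreeGroup.mk [((v, (nf hV hK g).right • (x v).2), true)])⁻¹ := by
    intro v g
    simp [nf_gen, act_of, x]
    rfl
  have c2 : ∀ v g, (nf hV hK ((gen Γ v.1)⁻¹ * g * gen Γ v.1)).left = FreeGroup.mk [(x v, false)] *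
      (nf hV hK g).left * (FreeGroup.mk [((v, (nf hV hK g).right • (x v).2), false)])⁻¹ := by
    intro v g
    simp [nf_gen, act_of, x]
    rfl
  refine ⟨inv a (Or.inl rfl), inv b (Or.inr rfl), St (x A, true) ∪ St (x A, false), St (x B, true),
    St (x B, false), by rintro g (h | h) <;> exact h.1,
    fun g h => ⟨h.1, by rintro (h' | h') <;> exact dj (hAB _ _) g h' h⟩,
    fun g h => ⟨h.1, by rintro (h' | h') <;> exact dj (hAB _ _) g h' h⟩,
    Set.disjoint_left.2 (dj (by simp)), fun g h => Or.inl ⟨(inv a A.2 g).2 h.1, ?_⟩,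
    fun g h => ⟨(inv b B.2 g).2 (by rcases h with h | h <;> exact h.1), ?_⟩,
    fun g h => ⟨(inv b B.2 _).1 (by
      simp only [mul_assoc, mul_inv_cancel, mul_one, mul_inv_cancel_left]
      rcases h with h | h <;> exact h.1), ?_⟩⟩
  · rw [c1 A]
    refine sw_conj (fun h' => h.2 (Or.inr ⟨h.1, h'⟩)) fun h1 h2 => h.1 ?_
    have h3 := nf_spec hV hK Set.univ (g := g) (by simp [sub_univ])
    have h4 : ((nf hV hK g).right : RG Γ ⧸ sub Γ K) = (1 : RG Γ) := by
      simpa [x] using congrArg Prod.snd h2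
    rw [h3, h1, map_one, one_mul]
    simpa using ret_mem_inter Set.univ (QuotientGroup.eq.1 h4.symm)
  · rw [c1 B]
    rcases h with h | h <;> exact sw_conj (fun h' => dj (hAB _ _) g h ⟨h.1, h'⟩)
      fun h1 => (FreeGroup.startsWith.ne_one _ h.2 h1).elim
  · rw [c2 B]
    rcases h with h | h <;> exact sw_conj (fun h' => dj (hAB _ _) g h ⟨h.1, h'⟩)
      fun h1 => (FreeGroup.startsWith.ne_one _ h.2 h1).elim

end Pool.Agent.P.MP_a6af55_an
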