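import Pool.Agent.P.MP_a6af55_an.SMCoreB

namespace Pool.Agent.P.MP_a6af55_an

open Pool.Agent.Lib.Tracial
open scoped ComplexOrder InnerProductSpace ComplexConjugate Pointwise
open Filter Topology

variable {A : Type*} [CStarAlgebra A] {t : TrState A} [t.W]

lemma sum_sigma_fst {ι : Type*} [Fintype ι] (N : ι → ℕ) (g : ι → ℝ) :
    ∑ a : Σ i, Fin (N i), g a.1 = ∑ i, N i * g i := by
  simp [Fintype.sum_sigma]

lemma sum_sigma_lev {ι M : Type*} [Fintype ι] [AddCommMonoid M] (N : ι → ℕ) {N₀ : ℕ}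
    (hN : ∀ i, N i ≤ N₀) (g : ι → M) (b : Σ i, Fin (N i)) :
    ∑ a : Σ i, Fin (N i) with Fin.castLE (hN a.1) a.2 = Fin.castLE (hN b.1) b.2, g a.1 =
      ∑ i with (b.2 : ℕ) < N i, g i := by
  refine Finset.sum_bij (fun a _ => a.1) (fun a ha => ?_) (fun a ha a' ha' h => ?_)
    (fun i hi => ?_) fun _ _ => rfl
  · have := congrArg Fin.val (Finset.mem_filter.1 ha).2
    simp only [Fin.val_castLE] at this
    exact Finset.mem_filter.2 ⟨Finset.mem_univ _, this ▸ a.2.2⟩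
  · have h1 := congrArg Fin.val ((Finset.mem_filter.1 ha).2.trans (Finset.mem_filter.1 ha').2.symm)
    obtain ⟨i, k⟩ := a
    obtain ⟨i', k'⟩ := a'
    obtain rfl : i = i' := h
    exact congrArg _ (Fin.ext h1)
  · exact ⟨⟨i, ⟨b.2, (Finset.mem_filter.1 hi).2⟩⟩,
      Finset.mem_filter.2 ⟨Finset.mem_univ _, Fin.ext rfl⟩, rfl⟩

lemma core_num {r η δ γ F : ℝ} (hη : 0 ≤ η) (hδ : 0 ≤ δ) (hγ : 0 ≤ γ) (hF : 0 ≤ F)
    (h1 : (r ^ 2 - γ ^ 2) / 2048 ^ 2 ≤ F ^ 2)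
    (h2 : F ≤ 254 * ((509 * η + r / 1016 + γ) / 2048 + 2 * (r / 2048 ^ 2)) + δ) :
    r ≤ 10 ^ 6 * (η + δ) + 510 * γ := by
  have h3 : r ≤ 2048 * F + γ := by
    refine le_of_sq_le_sq ?_ (by positivity)
    rw [div_le_iff₀ (by positivity)] at h1
    nlinarith [mul_nonneg hF hγ]
  linarith

lemma core_step (S B : StarSubalgebra ℂ A) [IsClosed (S : Set A)] (hBS : B ≤ S) {e : A}
    (he : IsStarProjection e) (heB : e ∈ B) {n : ℕ} (hn : 0 < n) (hτ : t.τ e = 1 / n)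
    (hF : FreeUnits t S B e n) {ι : Type} [Fintype ι] [DecidableEq ι] (a : ι → A)
    (ha : ∀ i, a i ∈ B ∧ a i * e = a i) (h0 : ∀ i j, i ≠ j → t.τ (star (a i) * a j) = 0)
    (hL : ∀ x ∈ B, ∑ i, t.n2 (star (a i) * x) ^ 2 ≤ t.n2 x ^ 2) (b : Fin 2 → A)
    (hb : ∀ k, b k ∈ B ∧ ‖b k‖ ≤ 1) (y : Fin 2 → Matrix ι ι ℂ) {η δ : ℝ} (hη : 0 ≤ η) (hδ : 0 ≤ δ)
    (h1 : ∀ k, ∑ j, t.n2 (b k * a j - ∑ i, y k i j • a i) ^ 2 ≤ η ^ 2)
    (h2 : ∀ k, ∑ j, t.n2 (star (b k) * a j - ∑ i, conj (y k j i) • a i) ^ 2 ≤ η ^ 2)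
    (h : NM t S δ b) {γ : ℝ} (hγ : 0 ≤ γ) {N₀ : ℕ} (hN₀ : 0 < N₀)
    (hd : (Fintype.card ι : ℝ) ≤ γ ^ 2 * (n * N₀ : ℕ)) :
    √(∑ i, t.n2 (a i) ^ 2) ≤ 10 ^ 6 * (η + δ) + 510 * γ := by
  set r := √(∑ i, t.n2 (a i) ^ 2) with hr
  have hr0 : 0 ≤ r := Real.sqrt_nonneg _
  have hr2 : ∑ i, t.n2 (a i) ^ 2 = r ^ 2 := (Real.sq_sqrt (by positivity)).symm
  have hn' : (0 : ℝ) < n := by exact_mod_cast hn
  have hN' : (0 : ℝ) < N₀ := by exact_mod_cast hN₀
  have hr1 : r ^ 2 ≤ 1 := by simpa [hr2] using hL 1 (one_mem _)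
  have haa : ∑ i, ∑ j, t.n2 (star (a i) * a j) ^ 2 ≤ r ^ 2 := by
    rw [Finset.sum_comm, ← hr2]
    exact Finset.sum_le_sum fun j _ => hL _ (ha j).1
  have hl : ∀ i, n * t.n2 (a i) ^ 2 ≤ 1 := fun i => by
    have g1 : t.n2 (star (a i) * a i) ^ 2 ≤ t.n2 (a i) ^ 2 :=
      (Finset.single_le_sum (f := fun j => t.n2 (star (a j) * a i) ^ 2) (fun _ _ => by positivity)
        (Finset.mem_univ i)).trans (hL _ (ha i).1)
    have g2 := t.norm_τ_mul_le (star (a i) * a i) e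
    rw [mul_assoc, (ha i).2, t.norm_τ_star_mul] at g2
    have g3 : t.n2 e ^ 2 = 1 / n := by
      rw [← t.tr_proj he, TrState.tr, hτ, ← Complex.ofReal_natCast, ← Complex.ofReal_one,
        ← Complex.ofReal_div, Complex.ofReal_re]
    have g4 := pow_le_pow_left₀ (by positivity) g2 2
    rw [mul_pow, g3] at g4
    have g5 : n * (t.n2 (a i) ^ 2) ^ 2 ≤ t.n2 (a i) ^ 2 := by
      rw [mul_one_div, le_div_iff₀ hn'] at g4
      linarith
    rcases (sq_nonneg (t.n2 (a i))).eq_or_lt with g6 | g6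
    · rw [← g6]; simp
    · nlinarith
  set N : ι → ℕ := fun i => ⌊((n * N₀ : ℕ) : ℝ) * t.n2 (a i) ^ 2⌋₊ with hN
  have hN1 : ∀ i, (N i : ℝ) ≤ n * N₀ * t.n2 (a i) ^ 2 := fun i => by
    rw [← Nat.cast_mul]
    exact Nat.floor_le (by positivity)
  have hN2 : ∀ i, N i ≤ N₀ := fun i => by
    have : (N i : ℝ) ≤ N₀ := (hN1 i).trans (by nlinarith [hl i])
    exact_mod_cast this
  have hc : (Fintype.card (Σ i, Fin (N i)) : ℝ) = ∑ i, (N i : ℝ) := by simp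
  have hc1 : (n * N₀ : ℝ) * (r ^ 2 - γ ^ 2) ≤ Fintype.card (Σ i, Fin (N i)) := by
    have : ∑ i, ((n * N₀ : ℝ) * t.n2 (a i) ^ 2 - 1) ≤ ∑ i, (N i : ℝ) :=
      Finset.sum_le_sum fun i _ => by
        rw [← Nat.cast_mul]
        exact (Nat.sub_one_lt_floor _).le
    rw [Finset.sum_sub_distrib, ← Finset.mul_sum, hr2] at this
    simp only [Finset.sum_const, Finset.card_univ, nsmul_eq_mul, mul_one] at this
    rw [Nat.cast_mul] at hd
    rw [hc]
    linarith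
  rcases isEmpty_or_nonempty (Σ i, Fin (N i)) with hI | hI
  · rw [Fintype.card_eq_zero, Nat.cast_zero] at hc1
    have : r ≤ γ := le_of_sq_le_sq (by
      by_contra hh
      nlinarith [mul_pos (mul_pos hn' hN') (sub_pos.2 (not_le.1 hh))]) hγ
    nlinarith
  have hc2 : Fintype.card (Σ i, Fin (N i)) ≤ n * (N₀ * 2048 ^ 2) := by
    have : (Fintype.card (Σ i, Fin (N i)) : ℝ) ≤ n * (N₀ * 2048 ^ 2) := by
      rw [hc]
      refine (Finset.sum_le_sum fun i _ => hN1 i).trans ?_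
      rw [← Finset.mul_sum, hr2]
      nlinarith [mul_pos hn' hN']
    exact_mod_cast this
  obtain ⟨f, w, hw, f1, f2, f3, f4, f5, f6, f7, f8⟩ := hF (Σ i, Fin (N i)) N₀ (N₀ * 2048 ^ 2)
    (fun a => Fin.castLE (hN2 a.1) a.2) (Nat.le_mul_of_pos_right _ (by norm_num)) hc2
  have hU : ∀ s, Units (fun a : Σ i, Fin (N i) => Fin.castLE (hN2 a.1) a.2) f (w s) :=
    fun s => ⟨f1, f2, f4 s⟩
  set ξ : ι → A := fun i => ((t.n2 (a i) : ℂ))⁻¹ • a i with hξ
  have hξB : ∀ i, ξ i ∈ B ∧ ξ i * e = ξ i := fun i =>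
    ⟨SMulMemClass.smul_mem _ (ha i).1, by simp only [hξ, smul_mul_assoc, (ha i).2]⟩
  have hξ0 : ∀ i j, i ≠ j → t.τ (star (ξ i) * ξ j) = 0 := fun i j hij => by
    simp only [hξ, star_smul, smul_mul_smul_comm, map_smul, h0 i j hij, smul_zero]
  have hpos : ∀ c : Σ i, Fin (N i), t.n2 (a c.1) ≠ 0 := fun c hc0 => by
    have := hN1 c.1
    rw [hc0] at this
    have h3 : (0 : ℝ) < N c.1 := by exact_mod_cast c.2.pos
    nlinarith
  have hξ1 : ∀ c : Σ i, Fin (N i), t.n2 (ξ c.1) = 1 := fun c => by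
    simp only [hξ, t.n2_smul, norm_inv, Complex.norm_real, Real.norm_eq_abs,
      abs_of_nonneg (t.n2_nonneg _)]
    exact inv_mul_cancel₀ (hpos c)
  have hκ : ∀ c d : Σ i, Fin (N i), c.1 = d.1 →
      Fin.castLE (hN2 c.1) c.2 = Fin.castLE (hN2 d.1) d.2 → c = d := by
    rintro ⟨i, k⟩ ⟨i', k'⟩ (rfl : i = i') h3
    exact congrArg _ (Fin.castLE_injective _ h3)
  have hg : (∑ c : Σ i, Fin (N i), ∑ d : Σ i, Fin (N i), t.n2 (star (ξ c.1) * ξ d.1) ^ 2) /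
      (n * (N₀ * 2048 ^ 2 : ℕ)) ^ 2 ≤ (r / 2048 ^ 2) ^ 2 := by
    have g1 : ∑ c : Σ i, Fin (N i), ∑ d : Σ i, Fin (N i), t.n2 (star (ξ c.1) * ξ d.1) ^ 2 ≤
        (n * N₀) ^ 2 * r ^ 2 := by
      rw [Finset.sum_congr rfl fun (c : Σ i, Fin (N i)) _ =>
        sum_sigma_fst N fun j => t.n2 (star (ξ c.1) * ξ j) ^ 2, sum_sigma_fst N fun i => ∑ j, N j * t.n2 (star (ξ i) * ξ j) ^ 2]
      refine le_trans ?_ (mul_le_mul_of_nonneg_left haa (by positivity))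
      simp only [Finset.mul_sum]
      refine Finset.sum_le_sum fun i _ => Finset.sum_le_sum fun j _ => ?_
      have key : ∀ i, (N i : ℝ) * (t.n2 (a i))⁻¹ ^ 2 ≤ n * N₀ := fun i => by
        rcases eq_or_ne (t.n2 (a i)) 0 with g | g
        · rw [g]; simp; positivity
        · refine (mul_le_mul_of_nonneg_right (hN1 i) (by positivity)).trans (le_of_eq ?_)
          field_simp
      have e1 : t.n2 (star (ξ i) * ξ j) =
          (t.n2 (a i))⁻¹ * (t.n2 (a j))⁻¹ * t.n2 (star (a i) * a j) := by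
        simp only [hξ, star_smul, smul_mul_smul_comm, t.n2_smul, norm_mul, norm_star, norm_inv,
          Complex.norm_real, Real.norm_eq_abs, abs_of_nonneg (t.n2_nonneg _)]
      rw [e1]
      calc _ = (N i * (t.n2 (a i))⁻¹ ^ 2) * (N j * (t.n2 (a j))⁻¹ ^ 2) *
            t.n2 (star (a i) * a j) ^ 2 := by ring
        _ ≤ (n * N₀) * (n * N₀) * t.n2 (star (a i) * a j) ^ 2 :=
          mul_le_mul_of_nonneg_right (mul_le_mul (key i) (key j) (by positivity) (by positivity))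
            (by positivity)
        _ = _ := by ring
    rw [div_le_iff₀ (by positivity)]
    refine g1.trans (le_of_eq ?_)
    push_cast
    ring
  choose v hv hv1 hv2 hv3 using fun s => (hU s).exists_trunc he S hBS (hw s) heB f3 Sigma.fst hκ
    f7 f8 ξ hξB hξ0 hξ1 hn hτ (D := r / 2048 ^ 2) (by positivity) hg
  have hP : ∀ s c, ‖c‖ ≤ 1 → ‖Ph t (ξ ∘ Sigma.fst) (w s) c‖ ≤ 1 := fun s c hc =>
    (hU s).norm_Ph (fun c d hcd h3 => hξ0 _ _ fun h4 => hcd (hκ c d h4 h3))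
      (fun c => (hξ1 c).le) hc
  have lay : ∀ (c : A) (z : Matrix ι ι ℂ), c ∈ B → ‖c‖ ≤ 1 →
      ∑ j, t.n2 (c * a j - ∑ i, z i j • a i) ^ 2 ≤ η ^ 2 →
      ∑ j, t.n2 (star c * a j - ∑ i, conj (z j i) • a i) ^ 2 ≤ η ^ 2 → ∀ s,
      t.n2 (c * v s - v s * Ph t (ξ ∘ Sigma.fst) (w s) c) ≤
        (509 * η + r / 1016 + γ) / 2048 + 2 * (r / 2048 ^ 2) := fun c z hc hc1 g1 g2 s => by
    refine hv3 s c hc hc1 (hP s c hc1) _ (by positivity) ?_
    have g := layer (v := fun i => t.Λ (a i)) (fun i j hij => by rw [t.inner_Λ, h0 i j hij])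
      (t.π c) (t.π (star c)) (hom_norm_le t.π hc1) (hom_norm_le t.π (by rwa [norm_star]))
      (fun ξ η => by rw [map_star, ContinuousLinearMap.star_eq_adjoint,
        ContinuousLinearMap.adjoint_inner_left]) z hη hr0
      (by simpa only [t.π_Λ, ← map_smul, ← map_sum, ← map_sub, t.norm_Λ] using g1)
      (by simpa only [t.π_Λ, ← map_smul, ← map_sum, ← map_sub, t.norm_Λ] using g2) hr2
      (n * N₀) (fun i => t.Λ (ξ i)) fun i => by simp only [hξ, map_smul, t.norm_Λ]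
    simp only [t.π_Λ, t.inner_Λ, ← map_smul, ← map_sum, ← map_sub, t.norm_Λ] at g
    have e3 := fun d : Σ i, Fin (N i) =>
      sum_sigma_lev N hN2 (fun i => t.τ (star (ξ i) * (c * ξ d.1)) • ξ i) d
    simp only [e3]
    rw [Fintype.sum_sigma, div_le_iff₀ (by positivity)]
    simp only [Finset.sum_range] at g
    refine g.trans ?_
    push_cast at hd ⊢
    have g3 : η ^ 2 + 2 * η * r + γ ^ 2 ≤ (509 * η + r / 1016 + γ) ^ 2 := by
      nlinarith [sq_nonneg (508 * η - r / 1016), mul_nonneg hη hr0, mul_nonneg hη hγ,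
        mul_nonneg hr0 hγ, sq_nonneg η]
    nlinarith [mul_le_mul_of_nonneg_left g3 (mul_pos hn' hN').le]
  have fin := six S h (hU 0).tot_proj v (fun s => ⟨hv s, hv1 s⟩)
    (fun s k => Ph t (ξ ∘ Sigma.fst) (w s) (b k))
    (fun s k => ⟨sum_mem fun c _ => sum_mem fun d _ =>
      SMulMemClass.smul_mem _ (mul_mem (star_mem (hw s c)) (hw s d)), hP s _ (hb k).2⟩)
    (fun k => (hU 0).tot_Ph _)
    (fun k l => Commute.sum_left _ _ _ fun c _ => Commute.sum_left _ _ _ fun d _ =>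
      Commute.sum_right _ _ _ fun c' _ => Commute.sum_right _ _ _ fun d' _ =>
        ((f6 c d c' d').smul_left _).smul_right _)
    (Δ := (509 * η + r / 1016 + γ) / 2048 + 2 * (r / 2048 ^ 2))
    (fun s => by
      have g : t.n2 (star (v s) * v s - ∑ c, star (w 0 c) * w 0 c) ≤ r / 2048 ^ 2 := by
        fin_cases s
        · exact hv2 0
        · rw [f5]; exact hv2 1
      refine g.trans ?_
      have : 0 ≤ (509 * η + r / 1016 + γ) / 2048 := by positivity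
      have : 0 ≤ r / 2048 ^ 2 := by positivity
      linarith)
    (fun s k => lay _ (y k) (hb k).1 (hb k).2 (h1 k) (h2 k) s)
    (fun s k => by
      rw [star_Ph]
      exact lay _ (star (y k)) (star_mem (hb k).1) (by rw [norm_star]; exact (hb k).2) (h2 k)
        (by simpa using h1 k) s)
  refine core_num hη hδ hγ (t.n2_nonneg _) ?_ fin
  rw [(hU 0).n2_tot he heB f3 hτ f7, div_le_div_iff₀ (by positivity) (by positivity)]
  push_cast
  nlinarith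

theorem core_orth (S B : StarSubalgebra ℂ A) [IsClosed (S : Set A)] (hBS : B ≤ S) {e : A}
    (he : IsStarProjection e) (heB : e ∈ B) {n : ℕ} (hn : 0 < n) (hτ : t.τ e = 1 / n)
    (hF : FreeUnits t S B e n) {ι : Type} [Fintype ι] [DecidableEq ι] (a : ι → A)
    (ha : ∀ i, a i ∈ B ∧ a i * e = a i) (h0 : ∀ i j, i ≠ j → t.τ (star (a i) * a j) = 0)
    (hL : ∀ x ∈ B, ∑ i, t.n2 (star (a i) * x) ^ 2 ≤ t.n2 x ^ 2) (b : Fin 2 → A)
    (hb : ∀ k, b k ∈ B ∧ ‖b k‖ ≤ 1) (y : Fin 2 → Matrix ι ι ℂ) {η δ : ℝ} (hη : 0 ≤ η) (hδ : 0 ≤ δ)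
    (h1 : ∀ k, ∑ j, t.n2 (b k * a j - ∑ i, y k i j • a i) ^ 2 ≤ η ^ 2)
    (h2 : ∀ k, ∑ j, t.n2 (star (b k) * a j - ∑ i, conj (y k j i) • a i) ^ 2 ≤ η ^ 2)
    (h : NM t S δ b) : √(∑ i, t.n2 (a i) ^ 2) ≤ 10 ^ 6 * (η + δ) := by
  refine le_of_forall_pos_le_add fun ε hε => ?_
  obtain ⟨N₀, hN⟩ := exists_nat_gt ((Fintype.card ι : ℝ) / (ε / 510) ^ 2)
  have hN0 : (0 : ℝ) < N₀ := lt_of_le_of_lt (by positivity) hN
  have := core_step S B hBS he heB hn hτ hF a ha h0 hL b hb y hη hδ h1 h2 h (γ := ε / 510)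
    (by positivity) (N₀ := N₀) (by exact_mod_cast hN0) (by
      rw [div_lt_iff₀ (by positivity)] at hN
      have h3 : (1 : ℝ) ≤ n := by exact_mod_cast hn
      push_cast
      nlinarith [mul_nonneg (mul_pos hN0 (pow_pos (div_pos hε (by norm_num : (0 : ℝ) < 510)) 2)).le
        (sub_nonneg.2 h3)])
  linarith

omit [t.W] in
lemma sum_n2_unitary {ι : Type} [Fintype ι] [DecidableEq ι] {U : Matrix ι ι ℂ}
    (hU : U ∈ unitary (Matrix ι ι ℂ)) (x : ι → A) :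
    ∑ i, t.n2 (∑ k, U k i • x k) ^ 2 = ∑ k, t.n2 (x k) ^ 2 := by
  simpa only [← map_smul, ← map_sum, t.norm_Λ] using sum_norm_sq_unitary hU fun k => t.Λ (x k)

omit [t.W] in
lemma sum_n2_conj {ι : Type} [Fintype ι] [DecidableEq ι] {U : Matrix ι ι ℂ}
    (hU : U ∈ unitary (Matrix ι ι ℂ)) (a : ι → A) (c : A) (z : Matrix ι ι ℂ) :
    ∑ j, t.n2 (c * ∑ k, U k j • a k - ∑ i, (star U * z * U) i j • ∑ k, U k i • a k) ^ 2 =
      ∑ j, t.n2 (c * a j - ∑ i, z i j • a i) ^ 2 := by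
  rw [← sum_n2_unitary hU fun j => c * a j - ∑ i, z i j • a i]
  refine Finset.sum_congr rfl fun j _ => ?_
  have e1 : ∑ i, (star U * z * U) i j • ∑ k, U k i • a k = ∑ k, (z * U) k j • a k := by
    rw [show z * U = U * (star U * z * U) by
      rw [← mul_assoc, ← mul_assoc, hU.2, one_mul]]
    generalize star U * z * U = V
    simp only [Finset.smul_sum, smul_smul, Matrix.mul_apply, Finset.sum_smul]
    rw [Finset.sum_comm]
    simp only [mul_comm]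
  have e2 : ∑ k, (z * U) k j • a k = ∑ l, U l j • ∑ i, z i l • a i := by
    simp only [Finset.smul_sum, smul_smul, Matrix.mul_apply, Finset.sum_smul]
    rw [Finset.sum_comm]
    simp only [mul_comm]
  rw [e1, e2]
  simp only [Finset.mul_sum, mul_smul_comm, smul_sub, Finset.sum_sub_distrib]

theorem core (S B : StarSubalgebra ℂ A) [IsClosed (S : Set A)] (hBS : B ≤ S) {e : A}
    (he : IsStarProjection e) (heB : e ∈ B) {n : ℕ} (hn : 0 < n) (hτ : t.τ e = 1 / n)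
    (hF : FreeUnits t S B e n) {ι : Type} [Fintype ι] [DecidableEq ι] (a : ι → A)
    (ha : ∀ i, a i ∈ B ∧ a i * e = a i)
    (hL : ∀ x ∈ B, ∑ i, t.n2 (star (a i) * x) ^ 2 ≤ t.n2 x ^ 2) (b : Fin 2 → A)
    (hb : ∀ k, b k ∈ B ∧ ‖b k‖ ≤ 1) (y : Fin 2 → Matrix ι ι ℂ) {η δ : ℝ} (hη : 0 ≤ η) (hδ : 0 ≤ δ)
    (h1 : ∀ k, ∑ j, t.n2 (b k * a j - ∑ i, y k i j • a i) ^ 2 ≤ η ^ 2)
    (h2 : ∀ k, ∑ j, t.n2 (star (b k) * a j - ∑ i, conj (y k j i) • a i) ^ 2 ≤ η ^ 2)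
    (h : NM t S δ b) : √(∑ i, t.n2 (a i) ^ 2) ≤ 10 ^ 6 * (η + δ) := by
  obtain ⟨U, hU, hd⟩ := exists_diag fun i => t.Λ (a i)
  rw [← sum_n2_unitary hU a]
  refine core_orth S B hBS he heB hn hτ hF (fun i => ∑ k, U k i • a k)
    (fun i => ⟨sum_mem fun k _ => SMulMemClass.smul_mem _ (ha k).1, by
      simp only [Finset.sum_mul, smul_mul_assoc, (ha _).2]⟩)
    (fun i j hij => by rw [← t.inner_Λ]; simpa only [map_sum, map_smul] using hd i j hij)
    (fun x hx => ?_) b hb (fun k => star U * y k * U) hη hδ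
    (fun k => (sum_n2_conj hU a _ _).trans_le (h1 k)) (fun k => ?_) h
  · refine le_trans (le_of_eq ?_) (hL x hx)
    have key : ∀ c, t.n2 (star c * x) = t.n2 (star x * c) := fun c => by
      rw [← t.n2_star, star_mul, star_star]
    simp only [key, Finset.mul_sum, mul_smul_comm]
    exact sum_n2_unitary hU _
  · refine le_trans (le_of_eq ?_) ((sum_n2_conj hU a _ (star (y k))).trans_le (h2 k))
    have : star U * star (y k) * U = star (star U * y k * U) := by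
      rw [star_mul, star_mul, star_star, mul_assoc]
    rw [this]
    rfl

end Pool.Agent.P.MP_a6af55_an
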