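import Mathlib

namespace Pool.Agent.P.MP_a6af55_an

open scoped InnerProductSpace ComplexConjugate

variable {H : Type*} [NormedAddCommGroup H] [InnerProductSpace ℂ H] {ι : Type*} [Fintype ι]
  [DecidableEq ι]

omit [DecidableEq ι] in
theorem inner_sum_sum (U : Matrix ι ι ℂ) (v : ι → H) (i j : ι) :
    ⟪∑ k, U k i • v k, ∑ k, U k j • v k⟫_ℂ = ∑ k, ∑ l, conj (U k i) * ⟪v k, v l⟫_ℂ * U l j := by
  simp only [sum_inner, inner_sum, inner_smul_left, inner_smul_right, Finset.mul_sum]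
  rw [Finset.sum_comm]
  exact Finset.sum_congr rfl fun k _ => Finset.sum_congr rfl fun l _ => by ring

theorem sum_norm_sq_unitary {U : Matrix ι ι ℂ} (hU : U ∈ unitary (Matrix ι ι ℂ)) (v : ι → H) :
    ∑ i, ‖∑ k, U k i • v k‖ ^ 2 = ∑ k, ‖v k‖ ^ 2 := by
  have h1 : U * star U = 1 := (Unitary.mem_iff.mp hU).2
  have h2 : ∀ l k, ∑ i, U l i * conj (U k i) = if l = k then 1 else 0 := fun l k => by
    have := congrFun (congrFun h1 l) k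
    simpa [Matrix.mul_apply, Matrix.one_apply] using this
  have h3 : ∀ x : H, ((‖x‖ ^ 2 : ℝ) : ℂ) = ⟪x, x⟫_ℂ := fun x => by
    rw [inner_self_eq_norm_sq_to_K]; norm_cast
  apply Complex.ofReal_injective
  rw [Complex.ofReal_sum, Complex.ofReal_sum]
  simp only [h3, inner_sum_sum]
  rw [Finset.sum_comm]
  refine Finset.sum_congr rfl fun k _ => ?_
  rw [Finset.sum_comm]
  have h4 : ∀ l, ∑ i, conj (U k i) * ⟪v k, v l⟫_ℂ * U l i =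
      ⟪v k, v l⟫_ℂ * if l = k then 1 else 0 := fun l => by
    rw [← h2, Finset.mul_sum]
    exact Finset.sum_congr rfl fun i _ => by ring
  simp only [h4, mul_ite, mul_one, mul_zero, Finset.sum_ite_eq', Finset.mem_univ, if_true]

theorem exists_diag (v : ι → H) : ∃ U ∈ unitary (Matrix ι ι ℂ), ∀ i j, i ≠ j →
    ⟪∑ k, U k i • v k, ∑ k, U k j • v k⟫_ℂ = 0 := by
  have hG : (Matrix.of fun k l => ⟪v k, v l⟫_ℂ).IsHermitian := by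
    ext k l
    simp [Matrix.conjTranspose_apply]
  refine ⟨hG.eigenvectorUnitary, hG.eigenvectorUnitary.2, fun i j hij => ?_⟩
  have h := congrFun (congrFun hG.conjStarAlgAut_star_eigenvectorUnitary i) j
  rw [Matrix.diagonal_apply_ne _ hij, Unitary.conjStarAlgAut_star_apply] at h
  rw [inner_sum_sum, ← h, Finset.sum_comm]
  simp [Matrix.mul_apply, Finset.sum_mul]

omit [Fintype ι] in
theorem pyth {ξ : ι → H} (h0 : ∀ i j, i ≠ j → ⟪ξ i, ξ j⟫_ℂ = 0) (s : Finset ι) (c : ι → ℂ) :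
    ‖∑ i ∈ s, c i • ξ i‖ ^ 2 = ∑ i ∈ s, ‖c i‖ ^ 2 * ‖ξ i‖ ^ 2 := by
  induction s using Finset.induction_on with
  | empty => simp
  | insert a s ha ih =>
    rw [Finset.sum_insert ha, Finset.sum_insert ha, ← ih, ← mul_pow, ← norm_smul, sq, sq, sq]
    refine norm_add_sq_eq_norm_sq_add_norm_sq_of_inner_eq_zero (𝕜 := ℂ) _ _ ?_
    rw [inner_sum]
    refine Finset.sum_eq_zero fun i hi => ?_
    rw [inner_smul_left, inner_smul_right, h0 a i (by rintro rfl; exact ha hi), mul_zero, mul_zero]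

omit [Fintype ι] in
theorem bessel {ξ : ι → H} (h0 : ∀ i j, i ≠ j → ⟪ξ i, ξ j⟫_ℂ = 0) (h1 : ∀ i, ‖ξ i‖ ≤ 1)
    (s : Finset ι) (w : H) : ∑ i ∈ s, ‖⟪ξ i, w⟫_ℂ‖ ^ 2 ≤ ‖w‖ ^ 2 := by
  have a1 := pyth h0 s fun i => ⟪ξ i, w⟫_ℂ
  have a2 : ∑ i ∈ s, ‖⟪ξ i, w⟫_ℂ‖ ^ 2 * ‖ξ i‖ ^ 2 ≤ ∑ i ∈ s, ‖⟪ξ i, w⟫_ℂ‖ ^ 2 :=
    Finset.sum_le_sum fun i _ => mul_le_of_le_one_right (by positivity)
      (pow_le_one₀ (norm_nonneg _) (h1 i))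
  have a3 := norm_sub_sq (𝕜 := ℂ) (∑ i ∈ s, ⟪ξ i, w⟫_ℂ • ξ i) w
  have a4 : RCLike.re ⟪∑ i ∈ s, ⟪ξ i, w⟫_ℂ • ξ i, w⟫_ℂ = ∑ i ∈ s, ‖⟪ξ i, w⟫_ℂ‖ ^ 2 := by
    rw [sum_inner, map_sum]
    refine Finset.sum_congr rfl fun i _ => ?_
    rw [inner_smul_left, Complex.conj_mul']
    norm_cast
  nlinarith [sq_nonneg ‖∑ i ∈ s, ⟪ξ i, w⟫_ℂ • ξ i - w‖]

theorem sum_matrix_le {ξ : ι → H} (h0 : ∀ i j, i ≠ j → ⟪ξ i, ξ j⟫_ℂ = 0) (h1 : ∀ i, ‖ξ i‖ ≤ 1)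
    (T : H →L[ℂ] H) (hT : ‖T‖ ≤ 1) {K : Type*} [NormedAddCommGroup K] [InnerProductSpace ℂ K]
    (s : Finset ι) (η : ι → K) :
    ∑ i ∈ s, ‖∑ j ∈ s, ⟪ξ i, T (ξ j)⟫_ℂ • η j‖ ^ 2 ≤ ∑ j ∈ s, ‖η j‖ ^ 2 := by
  have scal : ∀ c : ι → ℂ, ∑ i ∈ s, ‖∑ j ∈ s, ⟪ξ i, T (ξ j)⟫_ℂ * c j‖ ^ 2 ≤ ∑ j ∈ s, ‖c j‖ ^ 2 := by
    intro c
    have a1 := bessel h0 h1 s (T (∑ j ∈ s, c j • ξ j))
    have a2 : ‖T (∑ j ∈ s, c j • ξ j)‖ ^ 2 ≤ ‖∑ j ∈ s, c j • ξ j‖ ^ 2 :=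
      pow_le_pow_left₀ (norm_nonneg _)
        ((T.le_opNorm _).trans (mul_le_of_le_one_left (norm_nonneg _) hT)) 2
    have a3 : ∑ i ∈ s, ‖c i‖ ^ 2 * ‖ξ i‖ ^ 2 ≤ ∑ i ∈ s, ‖c i‖ ^ 2 :=
      Finset.sum_le_sum fun i _ => mul_le_of_le_one_right (by positivity)
        (pow_le_one₀ (norm_nonneg _) (h1 i))
    rw [pyth h0] at a2
    refine le_trans (le_of_eq ?_) (a1.trans (a2.trans a3))
    refine Finset.sum_congr rfl fun i _ => ?_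
    rw [map_sum, inner_sum]
    simp only [map_smul, inner_smul_right, mul_comm]
  set W := Submodule.span ℂ (Set.range η) with hW
  have : FiniteDimensional ℂ W := FiniteDimensional.span_of_finite ℂ (Set.finite_range η)
  set b := stdOrthonormalBasis ℂ W with hb
  set η' : ι → W := fun j => ⟨η j, Submodule.subset_span ⟨j, rfl⟩⟩ with hη'
  have e1 : ∀ i, ‖∑ j ∈ s, ⟪ξ i, T (ξ j)⟫_ℂ • η j‖ ^ 2 =
      ∑ k, ‖∑ j ∈ s, ⟪ξ i, T (ξ j)⟫_ℂ * ⟪b k, η' j⟫_ℂ‖ ^ 2 := fun i => by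
    have := b.sum_sq_norm_inner_right (∑ j ∈ s, ⟪ξ i, T (ξ j)⟫_ℂ • η' j)
    simp only [inner_sum, inner_smul_right] at this
    rw [this, Submodule.coe_norm]
    simp [hη']
  have e2 : ∀ j, ‖η j‖ ^ 2 = ∑ k, ‖⟪b k, η' j⟫_ℂ‖ ^ 2 := fun j => by
    rw [b.sum_sq_norm_inner_right]; rfl
  simp only [e1, e2]
  rw [Finset.sum_comm, Finset.sum_comm (s := s)]
  exact Finset.sum_le_sum fun k _ => scal _

theorem proj_split {ξ : ι → H} (h0 : ∀ i j, i ≠ j → ⟪ξ i, ξ j⟫_ℂ = 0)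
    (h1 : ∀ i, ‖ξ i‖ = 1 ∨ ξ i = 0) (w : H) (c : ι → ℂ) :
    ‖w - ∑ i, c i • ξ i‖ ^ 2 = ‖w - ∑ i, ⟪ξ i, w⟫_ℂ • ξ i‖ ^ 2 +
      ∑ i, ‖⟪ξ i, w⟫_ℂ - c i‖ ^ 2 * ‖ξ i‖ ^ 2 := by
  have e : w - ∑ i, c i • ξ i =
      ∑ i, (⟪ξ i, w⟫_ℂ - c i) • ξ i + (w - ∑ i, ⟪ξ i, w⟫_ℂ • ξ i) := by
    simp only [sub_smul, Finset.sum_sub_distrib]; abel
  rw [e, ← pyth h0, add_comm (‖w - _‖ ^ 2), sq, sq, sq]
  refine norm_add_sq_eq_norm_sq_add_norm_sq_of_inner_eq_zero (𝕜 := ℂ) _ _ ?_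
  rw [sum_inner]
  refine Finset.sum_eq_zero fun i _ => ?_
  rw [inner_smul_left, inner_sub_right, inner_sum, Finset.sum_eq_single i
    (fun k _ hk => by rw [inner_smul_right, h0 i k hk.symm, mul_zero]) (by simp), inner_smul_right]
  rcases h1 i with h | h
  · rw [inner_self_eq_norm_sq_to_K, h]; simp
  · simp [h]

theorem layer {v : ι → H} (h0 : ∀ i j, i ≠ j → ⟪v i, v j⟫_ℂ = 0) (T T' : H →L[ℂ] H)
    (hT : ‖T‖ ≤ 1) (hT' : ‖T'‖ ≤ 1) (hadj : ∀ ξ η, ⟪ξ, T η⟫_ℂ = ⟪T' ξ, η⟫_ℂ) (y : Matrix ι ι ℂ)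
    {η r : ℝ} (hη : 0 ≤ η) (hr : 0 ≤ r) (h1 : ∑ j, ‖T (v j) - ∑ i, y i j • v i‖ ^ 2 ≤ η ^ 2)
    (h2 : ∑ j, ‖T' (v j) - ∑ i, conj (y j i) • v i‖ ^ 2 ≤ η ^ 2) (h3 : ∑ i, ‖v i‖ ^ 2 = r ^ 2)
    (N : ℕ) (ξ : ι → H) (hξ : ∀ i, ξ i = ((‖v i‖ : ℂ))⁻¹ • v i) :
    ∑ j, ∑ p ∈ Finset.range ⌊N * ‖v j‖ ^ 2⌋₊,
      ‖T (ξ j) - ∑ i with p < ⌊N * ‖v i‖ ^ 2⌋₊, ⟪ξ i, T (ξ j)⟫_ℂ • ξ i‖ ^ 2 ≤
      N * η ^ 2 + 2 * N * η * r + Fintype.card ι := by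
  have g0 : ∀ i j, i ≠ j → ⟪ξ i, ξ j⟫_ℂ = 0 := fun i j h => by
    rw [hξ, hξ, inner_smul_left, inner_smul_right, h0 i j h, mul_zero, mul_zero]
  have g2 : ∀ i, ‖ξ i‖ = 1 ∨ (ξ i = 0 ∧ ‖v i‖ = 0) := fun i => by
    by_cases h : ‖v i‖ = 0
    · right; rw [hξ, h]; simp
    · left; rw [hξ, norm_smul, norm_inv, Complex.norm_real, norm_norm, inv_mul_cancel₀ h]
  have g1 : ∀ i, ‖ξ i‖ = 1 ∨ ξ i = 0 := fun i => (g2 i).imp id And.left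
  have g3 : ∀ i, ‖ξ i‖ ≤ 1 := fun i => by rcases g1 i with h | h <;> simp [h]
  have g4 : ∀ i, v i = (‖v i‖ : ℂ) • ξ i := fun i => by
    by_cases h : ‖v i‖ = 0
    · rw [h, norm_eq_zero.mp h]; simp
    · rw [hξ, smul_smul, mul_inv_cancel₀ (by exact_mod_cast h), one_smul]
  have key : ∀ (S : H →L[ℂ] H) (z : ι → ℂ) (j : ι), ‖S (v j) - ∑ i, z i • v i‖ ^ 2 =
      ‖v j‖ ^ 2 * ‖S (ξ j) - ∑ i, ⟪ξ i, S (ξ j)⟫_ℂ • ξ i‖ ^ 2 +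
        ∑ i, ‖(‖v j‖ : ℂ) * ⟪ξ i, S (ξ j)⟫_ℂ - z i * ‖v i‖‖ ^ 2 := by
    intro S z j
    have e1 : S (v j) = (‖v j‖ : ℂ) • S (ξ j) := by rw [← map_smul, ← g4]
    have e2 : ∑ i, z i • v i = ∑ i, (z i * ‖v i‖) • ξ i :=
      Finset.sum_congr rfl fun i _ => by rw [mul_smul, ← g4]
    rw [e1, e2, proj_split g0 g1]
    congr 1
    · simp only [inner_smul_right, mul_smul]
      rw [← Finset.smul_sum, ← smul_sub, norm_smul, mul_pow, Complex.norm_real, norm_norm]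
    · refine Finset.sum_congr rfl fun i _ => ?_
      rw [inner_smul_right]
      rcases g2 i with h | h
      · rw [h, one_pow, mul_one]
      · simp [h.1, h.2]
  have col : ∀ (S : H →L[ℂ] H), ‖S‖ ≤ 1 → ∀ j, ∑ i, ‖⟪ξ i, S (ξ j)⟫_ℂ‖ ^ 2 ≤ 1 := fun S hS j =>
    (bessel g0 g3 _ _).trans (pow_le_one₀ (norm_nonneg _)
      ((S.le_opNorm _).trans (mul_le_one₀ hS (norm_nonneg _) (g3 j))))
  have adj : ∀ i j, ⟪ξ j, T' (ξ i)⟫_ℂ = conj ⟪ξ i, T (ξ j)⟫_ℂ := fun i j => by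
    rw [hadj, inner_conj_symm]
  simp only [key] at h1 h2
  rw [Finset.sum_add_distrib] at h1 h2
  set x : ι → ι → ℂ := fun i j => ⟪ξ i, T (ξ j)⟫_ℂ with hx
  set R : ι → ℝ := fun j => ‖T (ξ j) - ∑ i, ⟪ξ i, T (ξ j)⟫_ℂ • ξ i‖ ^ 2 with hR
  set a : ι × ι → ℝ := fun q => ‖(‖v q.1‖ : ℂ) * x q.2 q.1 - y q.2 q.1 * ‖v q.2‖‖ with ha
  set b : ι × ι → ℝ := fun q => ‖(‖v q.2‖ : ℂ) * x q.2 q.1 - y q.2 q.1 * ‖v q.1‖‖ with hb
  have hR0 : ∀ j, 0 ≤ R j := fun j => by positivity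
  have n1 : 0 ≤ ∑ j, ‖v j‖ ^ 2 * R j := Finset.sum_nonneg fun j _ => by have := hR0 j; positivity
  have A0 : ∑ j, ‖v j‖ ^ 2 * R j + ∑ q, a q ^ 2 ≤ η ^ 2 := by
    rw [Fintype.sum_prod_type]; exact h1
  have n2 : 0 ≤ ∑ q, a q ^ 2 := by positivity
  have B0 : ∑ q, b q ^ 2 ≤ η ^ 2 := by
    rw [Fintype.sum_prod_type_right]
    refine le_trans (le_of_eq ?_) (le_trans (le_add_of_nonneg_left (by positivity)) h2)
    refine Finset.sum_congr rfl fun i _ => Finset.sum_congr rfl fun j _ => ?_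
    rw [adj, ← Complex.norm_conj]
    simp [hb, hx]
  have C1 : ∑ q : ι × ι, (‖v q.1‖ * ‖x q.2 q.1‖) ^ 2 ≤ r ^ 2 := by
    rw [Fintype.sum_prod_type, ← h3]
    refine Finset.sum_le_sum fun j _ => ?_
    simp only [mul_pow]
    rw [← Finset.mul_sum]
    exact mul_le_of_le_one_right (by positivity) (col T hT j)
  have C2 : ∑ q : ι × ι, (‖v q.2‖ * ‖x q.2 q.1‖) ^ 2 ≤ r ^ 2 := by
    rw [Fintype.sum_prod_type_right, ← h3]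
    refine Finset.sum_le_sum fun i _ => ?_
    simp only [mul_pow]
    rw [← Finset.mul_sum]
    refine mul_le_of_le_one_right (by positivity) (le_trans (le_of_eq ?_) (col T' hT' i))
    exact Finset.sum_congr rfl fun j _ => by rw [adj, Complex.norm_conj]
  have cs : ∀ f g : ι × ι → ℝ, ∑ q, f q ^ 2 ≤ r ^ 2 → ∑ q, g q ^ 2 ≤ η ^ 2 →
      ∑ q, f q * g q ≤ η * r := fun f g hf hg => by
    refine le_of_sq_le_sq ?_ (mul_nonneg hη hr)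
    refine (Finset.sum_mul_sq_le_sq_mul_sq _ f g).trans ?_
    rw [mul_pow, mul_comm (η ^ 2)]
    exact mul_le_mul hf hg (by positivity) (by positivity)
  have D1 := cs _ a C1 (by linarith)
  have D2 := cs _ b C2 B0
  have D3 : ∑ q : ι × ι, |‖v q.1‖ ^ 2 - ‖v q.2‖ ^ 2| * ‖x q.2 q.1‖ ^ 2 ≤ 2 * η * r := by
    refine le_trans (Finset.sum_le_sum (g := fun q : ι × ι =>
      ‖v q.1‖ * ‖x q.2 q.1‖ * a q + ‖v q.2‖ * ‖x q.2 q.1‖ * b q) fun q _ => ?_) (by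
        rw [Finset.sum_add_distrib]; linarith)
    have e : ((‖v q.1‖ ^ 2 - ‖v q.2‖ ^ 2 : ℝ) : ℂ) * x q.2 q.1 =
        (‖v q.1‖ : ℂ) * ((‖v q.1‖ : ℂ) * x q.2 q.1 - y q.2 q.1 * ‖v q.2‖) -
          (‖v q.2‖ : ℂ) * ((‖v q.2‖ : ℂ) * x q.2 q.1 - y q.2 q.1 * ‖v q.1‖) := by
      push_cast; ring
    have f : |‖v q.1‖ ^ 2 - ‖v q.2‖ ^ 2| * ‖x q.2 q.1‖ ≤ ‖v q.1‖ * a q + ‖v q.2‖ * b q := by
      rw [← Real.norm_eq_abs, ← Complex.norm_real, ← norm_mul, e]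
      refine (norm_sub_le _ _).trans (le_of_eq ?_)
      rw [norm_mul, norm_mul, Complex.norm_real, Complex.norm_real, norm_norm, norm_norm]
    nlinarith [mul_le_mul_of_nonneg_right f (norm_nonneg (x q.2 q.1))]
  have D4 : ∑ q : ι × ι, ‖x q.2 q.1‖ ^ 2 ≤ Fintype.card ι := by
    rw [Fintype.sum_prod_type]
    refine (Finset.sum_le_sum fun j _ => col T hT j).trans (le_of_eq ?_)
    simp
  have hN : (0 : ℝ) ≤ N := Nat.cast_nonneg N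
  have main : ∀ j, ∑ p ∈ Finset.range ⌊N * ‖v j‖ ^ 2⌋₊,
      ‖T (ξ j) - ∑ i with p < ⌊N * ‖v i‖ ^ 2⌋₊, ⟪ξ i, T (ξ j)⟫_ℂ • ξ i‖ ^ 2 ≤
      N * (‖v j‖ ^ 2 * R j) + ∑ i, (N * (|‖v j‖ ^ 2 - ‖v i‖ ^ 2| * ‖x i j‖ ^ 2) + ‖x i j‖ ^ 2) := by
    intro j
    have t1 : ∀ p, ‖T (ξ j) - ∑ i with p < ⌊N * ‖v i‖ ^ 2⌋₊, ⟪ξ i, T (ξ j)⟫_ℂ • ξ i‖ ^ 2 ≤
        R j + ∑ i, (if p < ⌊N * ‖v i‖ ^ 2⌋₊ then 0 else 1) * ‖x i j‖ ^ 2 := fun p => by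
      have e : ∑ i with p < ⌊N * ‖v i‖ ^ 2⌋₊, ⟪ξ i, T (ξ j)⟫_ℂ • ξ i =
          ∑ i, (if p < ⌊N * ‖v i‖ ^ 2⌋₊ then ⟪ξ i, T (ξ j)⟫_ℂ else 0) • ξ i := by
        rw [Finset.sum_filter]
        exact Finset.sum_congr rfl fun i _ => by split_ifs <;> simp
      rw [e, proj_split g0 g1]
      refine add_le_add le_rfl (Finset.sum_le_sum fun i _ => ?_)
      split_ifs
      · simp
      · rw [sub_zero, one_mul]
        exact mul_le_of_le_one_right (by positivity) (pow_le_one₀ (norm_nonneg _) (g3 i))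
    refine (Finset.sum_le_sum fun p _ => t1 p).trans ?_
    rw [Finset.sum_add_distrib, Finset.sum_const, Finset.card_range, nsmul_eq_mul, Finset.sum_comm]
    have fl : ∀ k, (⌊N * ‖v k‖ ^ 2⌋₊ : ℝ) ≤ N * ‖v k‖ ^ 2 := fun k => Nat.floor_le (by positivity)
    refine add_le_add ?_ (Finset.sum_le_sum fun i _ => ?_)
    · rw [← mul_assoc]; exact mul_le_mul_of_nonneg_right (fl j) (hR0 j)
    · rw [← Finset.sum_mul, ← mul_assoc, ← add_one_mul]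
      refine mul_le_mul_of_nonneg_right ?_ (by positivity)
      have cnt : ∀ m n : ℕ, ∑ p ∈ Finset.range m, (if p < n then (0 : ℝ) else 1) ≤
          max ((m : ℝ) - n) 0 := by
        intro m n
        induction m with
        | zero => simp
        | succ m ih =>
          rw [Finset.sum_range_succ]
          split_ifs with h
          · exact (add_zero _).trans_le (ih.trans (max_le_max (by push_cast; linarith) le_rfl))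
          · have : (n : ℝ) ≤ m := by exact_mod_cast not_lt.mp h
            rw [max_eq_left (by linarith)] at ih
            exact le_trans (by push_cast; linarith) (le_max_left _ _)
      refine (cnt _ _).trans (max_le ?_ (by positivity))
      have f2 := (Nat.lt_floor_add_one (N * ‖v i‖ ^ 2)).le
      have f3 := mul_le_mul_of_nonneg_left (le_abs_self (‖v j‖ ^ 2 - ‖v i‖ ^ 2)) hN
      linarith [fl j]
  refine (Finset.sum_le_sum fun j _ => main j).trans ?_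
  rw [Fintype.sum_prod_type] at D3 D4
  simp only [Finset.sum_add_distrib, ← Finset.mul_sum]
  have E1 := mul_le_mul_of_nonneg_left (show ∑ j, ‖v j‖ ^ 2 * R j ≤ η ^ 2 by linarith) hN
  have E2 := mul_le_mul_of_nonneg_left D3 hN
  linarith

end Pool.Agent.P.MP_a6af55_an
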