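import Pool.Agent.P.MP_a6af55_an.SMNM
import Pool.Agent.P.MP_a6af55_an.SMLayer

namespace Pool.Agent.P.MP_a6af55_an

open Pool.Agent.Lib.Tracial
open scoped ComplexOrder InnerProductSpace ComplexConjugate Pointwise
open Filter Topology

variable {A : Type*} [CStarAlgebra A] {t : TrState A}

lemma n2_sum_sq {I : Type*} [Fintype I] (t : TrState A) (x : I → A)
    (h : ∀ a b, a ≠ b → t.τ (star (x a) * x b) = 0) : t.n2 (∑ a, x a) ^ 2 = ∑ a, t.n2 (x a) ^ 2 := by
  rw [← t.norm_Λ, map_sum, norm_sum_sq_of_orth _ _ fun a b hab => by rw [t.inner_Λ, h a b hab]]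
  rfl

/-- One system of partial isometries. -/
structure Units {I T : Type*} [DecidableEq I] [DecidableEq T] (τ : I → T) (f : T → A)
    (w : I → A) : Prop where
  sa : ∀ p, star (f p) = f p
  ff : ∀ p q, f p * f q = if p = q then f p else 0
  ww : ∀ a b, w a * star (w b) = if a = b then f (τ a) else 0

namespace Units

variable {I T : Type*} [DecidableEq I] [DecidableEq T] {τ : I → T} {f : T → A} {w : I → A}
  (h : Units τ f w)

include h

lemma f_mul_self (p : T) : f p * f p = f p := by rw [h.ff, if_pos rfl]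

lemma fw (a : I) : f (τ a) * w a = w a := by
  have h1 : w a * star (w a) = f (τ a) := by rw [h.ww, if_pos rfl]
  have := mul_star_eq_zero (y := w a - f (τ a) * w a) (by
    rw [star_sub, star_mul, h.sa, sub_mul, mul_sub, mul_sub, mul_assoc (f _), mul_assoc (f _),
      ← mul_assoc (w a), h1, h.f_mul_self, h.f_mul_self]
    simp)
  exact (sub_eq_zero.1 this).symm

lemma fw' (p : T) (a : I) : f p * w a = if τ a = p then w a else 0 := by
  rw [← h.fw a, ← mul_assoc, h.ff]
  split_ifs with h1 h2 h2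
  · rw [h1]
  · exact (h2 h1.symm).elim
  · exact (h1 h2.symm).elim
  · rw [zero_mul]

lemma wf (a : I) : star (w a) * f (τ a) = star (w a) := by
  simpa [h.sa] using congrArg star (h.fw a)

variable [Fintype I]

lemma w_tot (a : I) : w a * ∑ b, star (w b) * w b = w a := by
  simp [Finset.mul_sum, ← mul_assoc, h.ww, h.fw]

lemma tot_w (a : I) : (∑ b, star (w b) * w b) * star (w a) = star (w a) := by
  simpa [star_sum] using congrArg star (h.w_tot a)

lemma tot_proj : IsStarProjection (∑ b, star (w b) * w b) := by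
  refine ⟨?_, by simp [IsSelfAdjoint, star_sum]⟩
  rw [IsIdempotentElem, Finset.sum_mul]
  exact Finset.sum_congr rfl fun a _ => by rw [mul_assoc, h.w_tot]

lemma n2_col (ζ : I → A) :
    t.n2 (∑ a, ζ a * w a) ^ 2 = ∑ a, (t.τ (star (ζ a) * ζ a * f (τ a))).re := by
  have key : ∀ a b, t.τ (star (ζ a * w a) * (ζ b * w b)) =
      t.τ (star (ζ a) * ζ b * (w b * star (w a))) := fun a b => by
    rw [star_mul, mul_assoc, t.trace]; simp only [mul_assoc]
  rw [n2_sum_sq t _ fun a b hab => by rw [key, h.ww, if_neg hab.symm, mul_zero, map_zero]]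
  exact Finset.sum_congr rfl fun a _ => by rw [t.n2_sq, key, h.ww, if_pos rfl]

lemma n2_row (Y : I → A) :
    t.n2 (∑ a, star (w a) * Y a) ^ 2 = ∑ a, t.n2 (f (τ a) * Y a) ^ 2 := by
  have key : ∀ a b, star (star (w a) * Y a) * (star (w b) * Y b) =
      star (Y a) * (w a * star (w b)) * Y b := fun a b => by
    rw [star_mul, star_star]; simp only [mul_assoc]
  rw [n2_sum_sq t _ fun a b hab => by rw [key, h.ww, if_neg hab, mul_zero, zero_mul, map_zero]]
  refine Finset.sum_congr rfl fun a _ => ?_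
  rw [t.n2_sq, t.n2_sq, key, h.ww, if_pos rfl, star_mul, h.sa, mul_assoc (star (Y a)) _ (_ * _),
    ← mul_assoc (f _), h.f_mul_self, mul_assoc]

lemma n2_mat (P : I → I → A) : t.n2 (∑ a, ∑ b, star (w a) * P a b * w b) ^ 2 =
    ∑ a, ∑ b, t.n2 (f (τ a) * P a b * f (τ b)) ^ 2 := by
  simp only [mul_assoc, ← Finset.mul_sum]
  rw [h.n2_row]
  refine Finset.sum_congr rfl fun a _ => ?_
  simp only [Finset.mul_sum, ← mul_assoc]
  rw [h.n2_col]
  refine Finset.sum_congr rfl fun b _ => ?_
  rw [t.n2_sq, star_mul (_ * _) (f _), h.sa, mul_assoc (f (τ b)), t.trace (f (τ b)),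
    mul_assoc (star _) (_ * _) (f _), mul_assoc (star _) _ (f _), mul_assoc (_ * _) (f _) (f _),
    h.f_mul_self]

lemma sum_n2_le (y : A) : ∑ a, t.n2 (w a * y) ^ 2 ≤ t.n2 y ^ 2 := by
  have h1 : ∑ a, t.n2 (w a * y) ^ 2 = t.n2 ((∑ b, star (w b) * w b) * y) ^ 2 := by
    simp only [Finset.sum_mul, mul_assoc]
    rw [h.n2_row]
    simp only [← mul_assoc, h.fw]
  rw [h1]
  exact pow_le_pow_left₀ (t.n2_nonneg _) (t.n2_mul_le_of_le h.tot_proj.norm_le y) 2

end Units

/-- The matrix of an element in a system of partial isometries. -/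
noncomputable def Ph (t : TrState A) {I : Type*} [Fintype I] (ξ w : I → A) (c : A) : A :=
  ∑ a, ∑ b, t.τ (star (ξ a) * (c * ξ b)) • (star (w a) * w b)

lemma star_Ph {I : Type*} [Fintype I] (ξ w : I → A) (c : A) :
    star (Ph t ξ w c) = Ph t ξ w (star c) := by
  simp only [Ph, star_sum, star_smul, star_mul, star_star]
  rw [Finset.sum_comm]
  refine Finset.sum_congr rfl fun a _ => Finset.sum_congr rfl fun b _ => ?_
  rw [RCLike.star_def, ← t.map_star, star_mul, star_mul, star_star, mul_assoc]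

namespace Units

variable {I T : Type*} [DecidableEq I] [DecidableEq T] {τ : I → T} {f : T → A} {w : I → A}
  (h : Units τ f w) [Fintype I] {ξ : I → A}

include h

lemma tot_Ph (c : A) : (∑ b, star (w b) * w b) * Ph t ξ w c = Ph t ξ w c := by
  rw [Ph, Finset.mul_sum]
  refine Finset.sum_congr rfl fun a _ => ?_
  rw [Finset.mul_sum]
  refine Finset.sum_congr rfl fun b _ => ?_
  rw [mul_smul_comm, ← mul_assoc _ (star (w a)), h.tot_w]

lemma norm_Ph [t.W] [Fintype T] (h0 : ∀ a b, a ≠ b → τ a = τ b → t.τ (star (ξ a) * ξ b) = 0)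
    (h1 : ∀ a, t.n2 (ξ a) ≤ 1) {c : A} (hc : ‖c‖ ≤ 1) : ‖Ph t ξ w c‖ ≤ 1 := by
  refine norm_le_of_n2 t zero_le_one fun y => ?_
  rw [one_mul]
  refine le_of_sq_le_sq (le_trans ?_ (h.sum_n2_le (t := t) y)) (t.n2_nonneg _)
  have e : Ph t ξ w c * y = ∑ a, star (w a) * ∑ b, t.τ (star (ξ a) * (c * ξ b)) • (w b * y) := by
    simp only [Ph, Finset.sum_mul, Finset.mul_sum, smul_mul_assoc, mul_smul_comm, mul_assoc]
  rw [e, h.n2_row, ← Finset.sum_fiberwise (g := τ), ← Finset.sum_fiberwise (g := τ)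
    (f := fun a => t.n2 (w a * y) ^ 2)]
  refine Finset.sum_le_sum fun p _ => ?_
  have := sum_matrix_le (ξ := fun a => if τ a = p then t.Λ (ξ a) else 0) (fun a b hab => by
      split_ifs with h2 h3
      · rw [t.inner_Λ, h0 a b hab (h2.trans h3.symm)]
      · exact inner_zero_right _
      · exact inner_zero_left _
      · exact inner_zero_left _)
    (fun a => by
      split_ifs
      · exact h1 a
      · simp) (t.π c) (hom_norm_le t.π hc) (Finset.univ.filter (τ · = p)) fun b => t.Λ (w b * y)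
  refine le_trans (le_of_eq (Finset.sum_congr rfl fun a ha => ?_)) this
  have ha' := (Finset.mem_filter.1 ha).2
  rw [← t.norm_Λ, Finset.mul_sum, map_sum, Finset.sum_filter]
  congr 2
  refine Finset.sum_congr rfl fun b _ => ?_
  rw [mul_smul_comm, ← mul_assoc (f _), h.fw', ha', if_pos (rfl : p = p)]
  split_ifs with h2
  · rw [map_smul, t.π_Λ, t.inner_Λ]
  · simp

lemma mul_Ph (c : A) : c * (∑ a, ξ a * w a) - (∑ a, ξ a * w a) * Ph t ξ w c =
    ∑ b, (c * ξ b - ∑ a with τ a = τ b, t.τ (star (ξ a) * (c * ξ b)) • ξ a) * w b := by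
  have e : (∑ a, ξ a * w a) * Ph t ξ w c =
      ∑ a, ∑ b, t.τ (star (ξ a) * (c * ξ b)) • (ξ a * (f (τ a) * w b)) := by
    rw [Ph, Finset.mul_sum]
    refine Finset.sum_congr rfl fun a _ => ?_
    rw [Finset.mul_sum]
    refine Finset.sum_congr rfl fun b _ => ?_
    simp [Finset.sum_mul, mul_assoc, ← mul_assoc (w _), h.ww]
  rw [e, Finset.sum_comm, Finset.mul_sum, ← Finset.sum_sub_distrib]
  refine Finset.sum_congr rfl fun b _ => ?_
  rw [sub_mul, mul_assoc, Finset.sum_mul, Finset.sum_filter]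
  congr 1
  refine Finset.sum_congr rfl fun a _ => ?_
  rw [h.fw']
  by_cases h2 : τ a = τ b
  · simp [h2]
  · simp [h2, Ne.symm h2]

end Units

end Pool.Agent.P.MP_a6af55_an
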