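import Pool.Agent.P.MP_a6af55_an.SMCoreA

namespace Pool.Agent.P.MP_a6af55_an

open Pool.Agent.Lib.Tracial
open scoped ComplexOrder InnerProductSpace ComplexConjugate Pointwise
open Filter Topology

variable {A : Type*} [CStarAlgebra A] {t : TrState A}

lemma corner_of {e x y : A} (he : IsStarProjection e) (hx : x * e = x) (hy : y * e = y) :
    e * (star x * y) * e = star x * y := by
  have h : e * star x = star x := by simpa [he.isSelfAdjoint.star_eq] using congrArg star hx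
  rw [← mul_assoc, h, mul_assoc, hy]

lemma n2_sub_proj_le {e x : A} (he : IsStarProjection e) (hx : e * x = x) (hτ : t.τ x = t.τ e) :
    t.n2 (x - e) ^ 2 ≤ t.n2 x ^ 2 := by
  have h1 : ⟪t.Λ e, t.Λ (x - e)⟫_ℂ = 0 := by
    rw [t.inner_Λ, he.isSelfAdjoint.star_eq, mul_sub, hx, he.isIdempotentElem.eq, map_sub, hτ,
      sub_self]
  have h2 := norm_add_sq_eq_norm_sq_add_norm_sq_of_inner_eq_zero _ _ h1
  rw [← map_add, add_sub_cancel, t.norm_Λ, t.norm_Λ, t.norm_Λ] at h2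
  nlinarith [t.n2_nonneg e]

namespace Units

variable {I T : Type*} [DecidableEq I] [DecidableEq T] {τ : I → T} {f : T → A} {w : I → A}
  (h : Units τ f w) [Fintype I] {B : StarSubalgebra ℂ A} {e : A} (he : IsStarProjection e) {M : ℕ}

include h he

lemma col_eq (hT : ∀ p, ∀ x ∈ B, e * x * e = x → t.τ (x * f p) = t.τ x / M) (ζ : I → A)
    (hζ : ∀ a, ζ a ∈ B ∧ ζ a * e = ζ a) :
    t.n2 (∑ a, ζ a * w a) ^ 2 = (∑ a, t.n2 (ζ a) ^ 2) / M := by
  rw [h.n2_col, Finset.sum_div]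
  refine Finset.sum_congr rfl fun a _ => ?_
  rw [hT _ _ (mul_mem (star_mem (hζ a).1) (hζ a).1) (corner_of he (hζ a).2 (hζ a).2), ← t.n2_sq',
    ← Complex.ofReal_natCast, ← Complex.ofReal_div, Complex.ofReal_re]

lemma n2_tot (heB : e ∈ B) (hef : ∀ p, e * f p = f p) {n : ℕ} (hτ : t.τ e = 1 / n)
    (hT : ∀ p, ∀ x ∈ B, e * x * e = x → t.τ (x * f p) = t.τ x / M) :
    t.n2 (∑ a, star (w a) * w a) ^ 2 = Fintype.card I / (n * M) := by
  rw [← t.tr_proj h.tot_proj, t.tr_sum]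
  have : ∀ a, t.tr (star (w a) * w a) = 1 / (n * M) := fun a => by
    rw [t.tr_comm, h.ww, if_pos rfl, ← hef, TrState.tr, hT _ _ heB (by
      rw [he.isIdempotentElem.eq, he.isIdempotentElem.eq]), hτ, div_div]
    norm_cast
    rw [← Complex.ofReal_natCast, ← Complex.ofReal_one, ← Complex.ofReal_div, Complex.ofReal_re]
  simp only [this, Finset.sum_const, Finset.card_univ, nsmul_eq_mul]
  ring

lemma gram_le (heB : e ∈ B) (hef : ∀ p, e * f p = f p) {ι : Type*} [DecidableEq ι] (κ : I → ι)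
    (hκ : ∀ a b, κ a = κ b → τ a = τ b → a = b)
    (hT : ∀ p q, ∀ x ∈ B, e * x * e = x → t.τ x = 0 → t.n2 (f p * x * f q) ≤ t.n2 x / M)
    (ζ : ι → A) (hζ : ∀ i, ζ i ∈ B ∧ ζ i * e = ζ i)
    (h0 : ∀ i j, i ≠ j → t.τ (star (ζ i) * ζ j) = 0)
    (h1 : ∀ a, t.τ (star (ζ (κ a)) * ζ (κ a)) = t.τ e) :
    t.n2 (star (∑ a, ζ (κ a) * w a) * (∑ a, ζ (κ a) * w a) - ∑ a, star (w a) * w a) ^ 2 ≤
      (∑ a, ∑ b, t.n2 (star (ζ (κ a)) * ζ (κ b)) ^ 2) / M ^ 2 := by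
  have hew : ∀ a, e * w a = w a := fun a => by rw [← h.fw a, ← mul_assoc, hef]
  have key : ∀ a b, star (w a) * (if κ a = κ b then e else 0) * w b =
      if a = b then star (w a) * w a else 0 := fun a b => by
    by_cases hab : a = b
    · subst hab
      rw [if_pos rfl, if_pos rfl, mul_assoc, hew]
    · rw [if_neg hab]
      split_ifs with h2
      · rw [mul_assoc, hew, ← h.wf a, mul_assoc, h.fw', if_neg fun h3 => hab (hκ a b h2 h3.symm),
          mul_zero]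
      · simp
  have e1 : star (∑ a, ζ (κ a) * w a) * (∑ a, ζ (κ a) * w a) - ∑ a, star (w a) * w a =
      ∑ a, ∑ b, star (w a) * (star (ζ (κ a)) * ζ (κ b) - if κ a = κ b then e else 0) * w b := by
    simp only [mul_sub, sub_mul, key, Finset.sum_sub_distrib, Finset.sum_ite_eq, Finset.mem_univ,
      if_true, star_sum, Finset.sum_mul_sum, star_mul, mul_assoc]
  rw [e1, h.n2_mat, Finset.sum_div]
  refine Finset.sum_le_sum fun a _ => ?_
  rw [Finset.sum_div]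
  refine Finset.sum_le_sum fun b _ => ?_
  have hc := corner_of he (hζ (κ a)).2 (hζ (κ b)).2
  have hB := mul_mem (star_mem (hζ (κ a)).1) (hζ (κ b)).1
  by_cases h2 : κ a = κ b
  · rw [if_pos h2]
    have h3 : t.τ (star (ζ (κ a)) * ζ (κ b)) = t.τ e := by rw [← h2, h1]
    refine (pow_le_pow_left₀ (t.n2_nonneg _) (hT _ _ _ (sub_mem hB heB) (by
      rw [mul_sub, sub_mul, hc, he.isIdempotentElem.eq, he.isIdempotentElem.eq]) (by
      rw [map_sub, h3, sub_self])) 2).trans ?_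
    rw [div_pow]
    refine div_le_div_of_nonneg_right (n2_sub_proj_le he ?_ h3) (by positivity)
    rw [← hc, ← mul_assoc, ← mul_assoc, he.isIdempotentElem.eq]
  · rw [if_neg h2, sub_zero, ← div_pow]
    exact pow_le_pow_left₀ (t.n2_nonneg _) (hT _ _ _ hB hc (h0 _ _ h2)) 2

lemma exists_trunc (S : StarSubalgebra ℂ A) [IsClosed (S : Set A)] (hBS : B ≤ S)
    (hw : ∀ a, w a ∈ S) (heB : e ∈ B) (hef : ∀ p, e * f p = f p) {ι : Type*} [DecidableEq ι]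
    (κ : I → ι) (hκ : ∀ a b, κ a = κ b → τ a = τ b → a = b)
    (hT : ∀ p, ∀ x ∈ B, e * x * e = x → t.τ (x * f p) = t.τ x / M)
    (hT' : ∀ p q, ∀ x ∈ B, e * x * e = x → t.τ x = 0 → t.n2 (f p * x * f q) ≤ t.n2 x / M)
    (ξ : ι → A) (hξ : ∀ i, ξ i ∈ B ∧ ξ i * e = ξ i)
    (h0 : ∀ i j, i ≠ j → t.τ (star (ξ i) * ξ j) = 0) (h1 : ∀ a, t.n2 (ξ (κ a)) = 1)
    {n : ℕ} (hn : 0 < n) (hτ : t.τ e = 1 / n) {D : ℝ} (hD : 0 ≤ D)
    (h2 : (∑ a, ∑ b, t.n2 (star (ξ (κ a)) * ξ (κ b)) ^ 2) / (n * M) ^ 2 ≤ D ^ 2) :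
    ∃ v ∈ S, ‖v‖ ≤ 1 ∧ t.n2 (star v * v - ∑ a, star (w a) * w a) ≤ D ∧
      ∀ c ∈ B, ‖c‖ ≤ 1 → ‖Ph t (ξ ∘ κ) w c‖ ≤ 1 → ∀ E, 0 ≤ E →
        (∑ b, t.n2 (c * ξ (κ b) - ∑ a with τ a = τ b,
          t.τ (star (ξ (κ a)) * (c * ξ (κ b))) • ξ (κ a)) ^ 2) / (n * M) ≤ E ^ 2 →
        t.n2 (c * v - v * Ph t (ξ ∘ κ) w c) ≤ E + 2 * D := by
  have hn' : (0 : ℝ) < n := by exact_mod_cast hn
  set s : ℝ := (√n)⁻¹ with hs
  have hs0 : 0 ≤ s := by positivity
  have hs2 : s ^ 2 = 1 / n := by rw [hs, inv_pow, Real.sq_sqrt hn'.le, one_div]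
  have hss : ∀ i j, star ((s : ℂ) • ξ i) * ((s : ℂ) • ξ j) =
      ((1 / n : ℝ) : ℂ) • (star (ξ i) * ξ j) := fun i j => by
    rw [star_smul, smul_mul_smul_comm, RCLike.star_def, Complex.conj_ofReal, ← Complex.ofReal_mul,
      ← sq, hs2]
  have g := h.gram_le he heB hef κ hκ hT' (fun i => (s : ℂ) • ξ i)
    (fun i => ⟨SMulMemClass.smul_mem _ (hξ i).1, by rw [smul_mul_assoc, (hξ i).2]⟩)
    (fun i j hij => by rw [hss, map_smul, h0 i j hij, smul_zero])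
    (fun a => by rw [hss, map_smul, ← t.n2_sq', h1, hτ]; simp)
  have eu : ∑ a, ((s : ℂ) • ξ (κ a)) * w a = (s : ℂ) • ∑ a, ξ (κ a) * w a := by
    simp only [smul_mul_assoc, Finset.smul_sum]
  rw [eu] at g
  have g' : t.n2 (star ((s : ℂ) • ∑ a, ξ (κ a) * w a) * ((s : ℂ) • ∑ a, ξ (κ a) * w a) -
      ∑ a, star (w a) * w a) ≤ D := by
    refine le_of_sq_le_sq (g.trans (le_trans (le_of_eq ?_) h2)) hD
    simp only [hss, t.n2_smul, mul_pow, ← Finset.mul_sum, Complex.norm_real, Real.norm_eq_abs,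
      sq_abs]
    rw [mul_div_assoc, div_pow, one_pow, div_mul_div_comm, one_mul]
  obtain ⟨v, hv, hv1, hv2, hv3⟩ := trunc (t := t) S
    (u := (s : ℂ) • ∑ a, ξ (κ a) * w a) (SMulMemClass.smul_mem _
      (sum_mem fun a _ => mul_mem (hBS (hξ _).1) (hw a))) h.tot_proj (by
      rw [smul_mul_assoc, Finset.sum_mul]
      simp only [mul_assoc, h.w_tot])
  refine ⟨v, hv, hv1, hv3.trans g', fun c hc hc1 hP E hE h3 => ?_⟩
  set u := (s : ℂ) • ∑ a, ξ (κ a) * w a with hu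
  have g2 : t.n2 (c * u - u * Ph t (ξ ∘ κ) w c) ≤ E := by
    refine le_of_sq_le_sq (le_trans (le_of_eq ?_) h3) hE
    have := h.mul_Ph (t := t) (ξ := ξ ∘ κ) c
    simp only [Function.comp_apply] at this
    rw [hu, mul_smul_comm, smul_mul_assoc, ← smul_sub, this, t.n2_smul, mul_pow,
      h.col_eq he hT _ fun b => ⟨sub_mem (mul_mem hc (hξ _).1)
        (sum_mem fun a _ => SMulMemClass.smul_mem _ (hξ _).1), by
        simp only [sub_mul, Finset.sum_mul, smul_mul_assoc, mul_assoc, (hξ _).2]⟩,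
      Complex.norm_real, Real.norm_eq_abs, sq_abs, hs2, div_mul_div_comm, one_mul]
  have e2 : c * v - v * Ph t (ξ ∘ κ) w c = (c * u - u * Ph t (ξ ∘ κ) w c) - c * (u - v) +
      (u - v) * Ph t (ξ ∘ κ) w c := by noncomm_ring
  have g3 := t.n2_add_le (c * u - u * Ph t (ξ ∘ κ) w c - c * (u - v)) ((u - v) * Ph t (ξ ∘ κ) w c)
  have g4 := t.n2_sub_le (c * u - u * Ph t (ξ ∘ κ) w c) (c * (u - v))
  have g5 := t.n2_mul_le_of_le hc1 (u - v)
  have g6 := t.n2_mul_le_of_le' (u - v) hP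
  rw [e2]
  linarith

end Units

end Pool.Agent.P.MP_a6af55_an
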