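import Pool.Agent.P.MP_a6af55_an.SMGrp

namespace Pool.Agent.P.MP_a6af55_an

open scoped Classical

variable {L0 : Type} {Γ0 : SimpleGraph L0}

lemma g2_fixed {α : Type*} {f : α → α} (hf : Function.Injective f) {w : FreeGroup α} (hw : w ≠ 1)
    (h : FreeGroup.map f w = w) : ∃ a, f a = a := by
  have h1 : FreeGroup.IsReduced (w.toWord.map fun x => (f x.1, x.2)) := by
    rw [FreeGroup.IsReduced, List.isChain_map]
    exact (FreeGroup.isReduced_toWord (x := w)).imp fun a b hab e => hab (hf e)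
  have h2 : (FreeGroup.map f w).toWord = w.toWord.map fun x => (f x.1, x.2) := by
    conv_lhs => rw [← FreeGroup.mk_toWord (x := w), FreeGroup.map.mk, FreeGroup.toWord_mk]
    exact h1.reduce_eq
  rw [h] at h2
  cases e : w.toWord with
  | nil => exact (hw (FreeGroup.toWord_eq_nil_iff.1 e)).elim
  | cons a l =>
    rw [e, List.map_cons] at h2
    exact ⟨a.1, (congrArg Prod.fst (List.cons.inj h2).1).symm⟩

lemma g2_freeOn {G : Type*} [Group G] {K : Subgroup G}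
    (h : ∀ k ∈ K, ∀ k' ∈ K, ∀ g, g ∉ K → k * g * k' = g → k = 1) : FreeOn K K (K : Set G)ᶜ :=
  ⟨fun _ hk _ => not_congr (K.mul_mem_cancel_left hk),
    fun _ hk _ => not_congr (K.mul_mem_cancel_right hk), h⟩

theorem freeOn_Hm (m : ℕ) : FreeOn (Hm Γ0 m) (Hm Γ0 m) (Hm Γ0 m : Set (HH Γ0))ᶜ := by
  refine g2_freeOn fun k hk k' hk' g hg e => ?_
  let A : Set (L0 ⊕ ℕ) := {l | ∀ j, l = Sum.inr j → j < m}
  have hV : ∀ v ∈ Aᶜ, ∀ l, (HG Γ0).Adj l v ↔ l ∈ (∅ : Set (L0 ⊕ ℕ)) := fun v hv l => by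
    rcases v with v | v
    · exact (hv fun j h => by cases h).elim
    · exact iff_of_false (not_adj_inr l v) (Set.notMem_empty l)
  have hK : ∀ v ∈ Aᶜ, v ∉ (∅ : Set (L0 ⊕ ℕ)) := fun v _ => Set.notMem_empty v
  have h1 : ∀ x ∈ Hm Γ0 m, nf hV hK x = SemidirectProduct.inr x := fun x hx =>
    eq_on_sub (f := nf hV hK) (g := SemidirectProduct.inr)
      (fun a ha => (rlift_gen _ _ _).trans (dif_neg (not_not.2 ha))) hx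
  have h2 : act Aᶜ ∅ k (nf hV hK g).left = (nf hV hK g).left := by
    have := congrArg (fun x => (nf hV hK x).left) e
    simpa [h1 k hk, h1 k' hk'] using this
  have h3 : (nf hV hK g).left ≠ 1 := fun h => hg (by
    have h4 := nf_spec hV hK A (g := g) (by simp [sub_univ])
    rw [h4, h, map_one, one_mul]
    exact ret_mem A _)
  obtain ⟨⟨v, q⟩, h5⟩ := g2_fixed (f := fun x : ↥Aᶜ × (HH Γ0 ⧸ sub (HG Γ0) ∅) => (x.1, k • x.2))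
    (fun x y h => Prod.ext (Prod.mk.inj h).1 (MulAction.injective k (Prod.mk.inj h).2)) h3 h2
  induction q using QuotientGroup.induction_on with
  | H q =>
    have h6 : (k * q)⁻¹ * q ∈ sub (HG Γ0) ∅ := QuotientGroup.eq.1 (Prod.mk.inj h5).2
    rw [sub_empty, Subgroup.mem_bot, inv_mul_eq_one] at h6
    exact mul_eq_right.1 h6

theorem pp_tj (m : ℕ) : PP (tj Γ0 m) (tj Γ0 (m + 1)) ({1} : Set (HH Γ0))ᶜ := by
  have := pp_gen (Γ := HG Γ0) (a := Sum.inr m) (b := Sum.inr (m + 1)) (by simp) (K := ∅)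
    (fun l => iff_of_false (not_adj_inr l _) (Set.notMem_empty l))
    (fun l => iff_of_false (not_adj_inr l _) (Set.notMem_empty l)) (Set.notMem_empty _)
  rwa [sub_empty, Subgroup.coe_bot] at this

lemma g2_free2 (m : ℕ) : Free2 (Hm Γ0 m) (Fm Γ0 m) := by
  let A : Set (L0 ⊕ ℕ) := {l | ∀ j, l = Sum.inr j → j < m}
  let B : Set (L0 ⊕ ℕ) := {Sum.inr m, Sum.inr (m + 1)}
  have hAB : A ∩ B = ∅ := Set.eq_empty_of_forall_notMem fun l ⟨h1, h2⟩ => by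
    rcases h2 with h2 | h2
    · exact lt_irrefl _ (h1 _ h2)
    · have := h1 _ h2
      omega
  have hA : ∀ c ∈ Fm Γ0 m, ret (HG Γ0) A c = 1 := fun c hc => by
    have := ret_mem_inter A hc
    rwa [hAB, sub_empty, Subgroup.mem_bot] at this
  have hB : ∀ p ∈ Hm Γ0 m, ret (HG Γ0) B p = 1 := fun p hp => by
    have := ret_mem_inter B hp
    rwa [Set.inter_comm, hAB, sub_empty, Subgroup.mem_bot] at this
  have hi : ∀ g ∈ Hm Γ0 m, g ∈ Fm Γ0 m → g = 1 := fun g h1 h2 => (ret_eq h1).symm.trans (hA g h2)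
  refine ⟨hi, fun p hp p' hp' h1 c hc h => ?_⟩
  have e1 := hA _ h
  rw [map_mul, map_mul, map_inv, hA c hc, ret_eq hp, ret_eq hp', mul_one, mul_inv_eq_one] at e1
  refine ⟨e1, ?_⟩
  have e2 := ret_eq h
  rw [map_mul, map_mul, map_inv, hB p hp, hB p' hp', ret_eq hc, inv_one, one_mul, mul_one] at e2
  by_contra hc1
  exact h1 ((freeOn_Hm m).free p hp _ (inv_mem hp') c (fun h' => hc1 (hi c h' hc)) e2.symm)

lemma g2_mono : Monotone (Hm Γ0) := fun _ _ h => sub_mono fun _ hl j e => (hl j e).trans_le h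

lemma g2_exh (g : HH Γ0) : ∃ m, g ∈ Hm Γ0 m := by
  obtain ⟨F, h1, h2⟩ := exists_finite g
  obtain ⟨m, hm⟩ := (h1.preimage (f := Sum.inr) Sum.inr_injective.injOn).bddAbove
  refine ⟨m + 1, sub_mono ?_ h2⟩
  intro l hl j e
  subst e
  exact Nat.lt_succ_of_le (hm hl)

lemma g2_esc (m : ℕ) (g : HH Γ0) (hg : g ≠ 1) : Esc (Fm Γ0 m) g :=
  ⟨_, gen_mem (Or.inl rfl), _, gen_mem (Or.inr rfl), _, pp_tj m, hg⟩

theorem tails_top : Nonempty (Tails (⊤ : Subgroup (HH Γ0))) :=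
  ⟨⟨Hm Γ0, Fm Γ0, g2_mono, fun g _ => g2_exh g, fun _ => le_top, g2_free2,
    fun m g _ hg => g2_esc m g hg, fun _ => sub_infinite (Or.inl rfl)⟩⟩

lemma g2_comap {G H : Type*} [Group G] [Group H] (r : H →* G) {a b : H} {B : Set G}
    (h : PP (r a) (r b) B) : PP a b (r ⁻¹' B) := by
  obtain ⟨h1, h2, S, P, M, k1, k2, k3, k4, k5, k6, k7⟩ := h
  refine ⟨fun g => ?_, fun g => ?_, r ⁻¹' S, r ⁻¹' P, r ⁻¹' M, fun _ h => k1 h, fun _ h => k2 h,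
    fun _ h => k3 h, k4.preimage r, fun g h => ?_, fun g h => ?_, fun g h => ?_⟩ <;>
    simp only [Set.mem_preimage, map_mul, map_inv]
  exacts [h1 _, h2 _, k5 _ h, k6 _ h, k7 _ h]

theorem esc_map {K : Subgroup (HH Γ0)} {g : HH Γ0} (h : Esc K g) :
    Esc (K.map (ιH Γ0)) (ιH Γ0 g) := by
  obtain ⟨a, ha, b, hb, B, h1, h2⟩ := h
  let r : HT Γ0 →* HH Γ0 := liftT (MonoidHom.id _) (fun _ => 1) fun _ => one_mul _
  have hr : ∀ x, r (ιH Γ0 x) = x := fun x => liftT_ι _ _ _ x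
  refine ⟨_, ⟨a, ha, rfl⟩, _, ⟨b, hb, rfl⟩, r ⁻¹' B, g2_comap r ?_, ?_⟩
  · rwa [hr, hr]
  · rwa [Set.mem_preimage, hr]

theorem tails_HR : Nonempty (Tails (HR Γ0)) := by
  refine ⟨⟨fun m => (Hm Γ0 m).map (ιH Γ0), fun m => (Fm Γ0 m).map (ιH Γ0),
    fun _ _ h => Subgroup.map_mono (g2_mono h), ?_, fun _ => Subgroup.map_le_range _ _,
    fun m => ⟨?_, ?_⟩, ?_, fun m => ?_⟩⟩
  · rintro _ ⟨g, rfl⟩
    obtain ⟨m, hm⟩ := g2_exh g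
    exact ⟨m, g, hm, rfl⟩
  · rintro _ ⟨g, hg, rfl⟩ ⟨g', hg', e⟩
    rw [(g2_free2 m).inter g hg (ιH_injective e ▸ hg'), map_one]
  · rintro _ ⟨p, hp, rfl⟩ _ ⟨p', hp', rfl⟩ h1 _ ⟨c, hc, rfl⟩ ⟨g, hg, e⟩
    rw [← map_inv, ← map_mul, ← map_mul] at e
    obtain ⟨e1, e2⟩ := (g2_free2 m).conj p hp p' hp' (fun h => h1 (by rw [h, map_one])) c hc
      (ιH_injective e ▸ hg)
    exact ⟨by rw [e1], by rw [e2, map_one]⟩
  · rintro m _ ⟨g, -, rfl⟩ h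
    exact esc_map (g2_esc m g fun e => h (by rw [e, map_one]))
  · exact (sub_infinite (Γ := HG Γ0) (A := {Sum.inr m, Sum.inr (m + 1)})
      (Or.inl rfl)).image ιH_injective.injOn

section nfT

variable {G : Type} [Group G]

/-- Translation and inversion of the basis. -/
def g2E (p : G × ℤˣ) : FreeGroup (ℕ × G) →* FreeGroup (ℕ × G) :=
  FreeGroup.lift fun x => FreeGroup.of (x.1, p.1 * x.2) ^ (p.2 : ℤ)

lemma g2E_of (p : G × ℤˣ) (x : ℕ × G) :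
    g2E p (FreeGroup.of x) = FreeGroup.of (x.1, p.1 * x.2) ^ (p.2 : ℤ) := FreeGroup.lift_apply_of

lemma g2E_mul (p q : G × ℤˣ) : g2E (p * q) = (g2E p).comp (g2E q) :=
  FreeGroup.ext_hom _ _ fun x => by
    simp only [MonoidHom.comp_apply, g2E_of, map_zpow, ← zpow_mul, Prod.fst_mul, Prod.snd_mul,
      Units.val_mul, mul_assoc]

lemma g2E_one : g2E (1 : G × ℤˣ) = MonoidHom.id _ :=
  FreeGroup.ext_hom _ _ fun x => by simp [g2E_of]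

/-- The action on the free group. -/
def g2A : G × ℤˣ →* MulAut (FreeGroup (ℕ × G)) where
  toFun p := MonoidHom.toMulEquiv (g2E p) (g2E p⁻¹) (by rw [← g2E_mul, inv_mul_cancel, g2E_one])
    (by rw [← g2E_mul, mul_inv_cancel, g2E_one])
  map_one' := MulEquiv.ext fun w => DFunLike.congr_fun g2E_one w
  map_mul' p q := MulEquiv.ext fun w => DFunLike.congr_fun (g2E_mul p q) w

lemma g2A_apply (p : G × ℤˣ) (w : FreeGroup (ℕ × G)) : g2A p w = g2E p w := rfl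

end nfT

theorem freeOn_HR : FreeOn (HR Γ0) (HR Γ0) (HR Γ0 : Set (HT Γ0))ᶜ := by
  refine g2_freeOn ?_
  rintro _ ⟨k, rfl⟩ _ ⟨k', rfl⟩ g hg e
  let N : HT Γ0 →* FreeGroup (ℕ × HH Γ0) ⋊[g2A] (HH Γ0 × ℤˣ) :=
    liftT (SemidirectProduct.inr.comp (MonoidHom.inl _ _))
      (fun j => ⟨FreeGroup.of (j, 1), (1, -1)⟩) fun j => by
        ext1
        · simp [g2A_apply, g2E_of]
        · simp
  have N1 : ∀ x, N (ιH Γ0 x) = SemidirectProduct.inr (x, 1) := fun x => liftT_ι _ _ _ x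
  have N2 : ∀ j, N (sj Γ0 j) = ⟨FreeGroup.of (j, 1), (1, -1)⟩ := fun j => liftT_sj _ _ _ j
  let ev' : FreeGroup (ℕ × HH Γ0) →* HT Γ0 :=
    FreeGroup.lift fun x => ιH Γ0 x.2 * sj Γ0 x.1 * (ιH Γ0 x.2)⁻¹
  have ev1 : ∀ x, ev' (FreeGroup.of x) = ιH Γ0 x.2 * sj Γ0 x.1 * (ιH Γ0 x.2)⁻¹ := fun x =>
    FreeGroup.lift_apply_of
  let B : FreeGroup (ℕ × HH Γ0) ⋊[g2A] (HH Γ0 × ℤˣ) →* HT Γ0 :=
    SemidirectProduct.lift ev' ((ιH Γ0).comp (MonoidHom.fst _ _)) fun p =>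
      FreeGroup.ext_hom _ _ fun x => by
        change ev' (g2E p (FreeGroup.of x)) = ιH Γ0 p.1 * ev' (FreeGroup.of x) * (ιH Γ0 p.1)⁻¹
        rw [g2E_of, map_zpow, ev1, ev1, conj_zpow, map_mul]
        have : sj Γ0 x.1 ^ (p.2 : ℤ) = sj Γ0 x.1 := by
          rcases Int.units_eq_one_or p.2 with h | h <;> simp [h, sj_inv]
        rw [this]
        group
  have B1 : ∀ y, B y = ev' y.left * ιH Γ0 y.right.1 := fun _ => rfl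
  have hB : B.comp N = MonoidHom.id _ := HT_ext
    (fun l => by simp [N1, B1]) fun j => by simp [N2, B1, ev1]
  have h2 : g2E (k, 1) (N g).left = (N g).left := by
    have := congrArg (fun x => (N x).left) e
    simpa [N1, g2A_apply] using this
  have h3 : (N g).left ≠ 1 := fun h => hg (by
    have h4 : B (N g) = g := DFunLike.congr_fun hB g
    rw [B1, h, map_one, one_mul] at h4
    exact ⟨_, h4⟩)
  have h4 : g2E (k, (1 : ℤˣ)) = FreeGroup.map fun x : ℕ × HH Γ0 => (x.1, k * x.2) :=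
    FreeGroup.ext_hom _ _ fun x => by simp [g2E_of]
  rw [h4] at h2
  obtain ⟨x, h5⟩ := g2_fixed
    (fun x y h => Prod.ext (Prod.mk.inj h).1 (mul_left_cancel (Prod.mk.inj h).2)) h3 h2
  rw [mul_eq_right.1 (congrArg Prod.snd h5), map_one]

lemma g2_endo_inl (r σ : ℕ → HT Γ0) (hσ : ∀ j, σ j * σ j = 1) {g : HH Γ0} (hg : g ∈ Hm Γ0 0) :
    endo Γ0 r σ hσ (ιH Γ0 g) = ιH Γ0 g := (liftT_ι _ _ _ _).trans (liftH_zero _ _ hg)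

lemma g2_endo_tj (r σ : ℕ → HT Γ0) (hσ : ∀ j, σ j * σ j = 1) (j : ℕ) :
    endo Γ0 r σ hσ (ιH Γ0 (tj Γ0 j)) = ιH Γ0 (tj Γ0 j) * r j :=
  (liftT_ι _ _ _ _).trans (liftH_tj _ _ j)

lemma g2_inl_mem (l : L0) : gen (HG Γ0) (Sum.inl l) ∈ Hm Γ0 0 := gen_mem fun j h => by cases h

lemma g2_φ_tj (j : ℕ) : φT Γ0 (ιH Γ0 (tj Γ0 j)) = ιH Γ0 (tj Γ0 j) * sj Γ0 j := g2_endo_tj _ _ _ j

lemma g2_μ_tj (j : ℕ) : μT Γ0 (ιH Γ0 (tj Γ0 j)) = ιH Γ0 (tj Γ0 j) * sj Γ0 (2 * j) :=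
  g2_endo_tj _ _ _ j

lemma g2_φ_sj (j : ℕ) : φT Γ0 (sj Γ0 j) = sj Γ0 j := liftT_sj _ _ sj_mul_self j

lemma g2_μ_sj (j : ℕ) : μT Γ0 (sj Γ0 j) = sj Γ0 j := liftT_sj _ _ sj_mul_self j

lemma g2_φ_zero {g : HH Γ0} (hg : g ∈ Hm Γ0 0) : φT Γ0 (ιH Γ0 g) = ιH Γ0 g := g2_endo_inl _ _ _ hg

lemma g2_μ_zero {g : HH Γ0} (hg : g ∈ Hm Γ0 0) : μT Γ0 (ιH Γ0 g) = ιH Γ0 g := g2_endo_inl _ _ _ hg

lemma g2_ε_ι (e : ℕ) (g : HH Γ0) : εT Γ0 e (ιH Γ0 g) = ιH Γ0 g := liftT_ι _ _ _ g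

lemma g2_ε_sj (e j : ℕ) : εT Γ0 e (sj Γ0 j) = sj Γ0 (2 * j + e) := liftT_sj _ _ _ j

/-- The existence of the action used for the double cosets. -/
lemma g2_theta (ψ : HT Γ0 →* HT Γ0) (h0 : ∀ g ∈ Hm Γ0 0, ψ (ιH Γ0 g) = ιH Γ0 g) (c : ℕ → Option ℕ)
    (r : ℕ → HT Γ0) (h1 : ∀ j, ψ (ιH Γ0 (tj Γ0 j)) = ιH Γ0 (tj Γ0 j) * r j)
    (h2 : ∀ (Θ : HT Γ0 →* Equiv.Perm (HH Γ0 ⧸ Hm Γ0 0)) (σ : ℕ → Equiv.Perm (HH Γ0 ⧸ Hm Γ0 0)),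
      (∀ i, Θ (sj Γ0 i) = (c i).elim 1 σ) → ∀ j, Θ (r j) = σ j) :
    ∃ Θ : HT Γ0 →* Equiv.Perm (HH Γ0 ⧸ Hm Γ0 0),
      (∀ h, Θ (ιH Γ0 h) ((1 : HH Γ0) : HH Γ0 ⧸ Hm Γ0 0) = (1 : HH Γ0)) ∧
      ∀ k x, Θ (ψ (ιH Γ0 k)) x = k • x := by
  let x0 : HH Γ0 ⧸ Hm Γ0 0 := (1 : HH Γ0)
  let σ : ℕ → Equiv.Perm (HH Γ0 ⧸ Hm Γ0 0) := fun j => Equiv.swap x0 ((tj Γ0 j)⁻¹ • x0)
  let τ := MulAction.toPermHom (HH Γ0) (HH Γ0 ⧸ Hm Γ0 0)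
  let Θ : HT Γ0 →* Equiv.Perm (HH Γ0 ⧸ Hm Γ0 0) :=
    liftT (liftH τ fun j => τ (tj Γ0 j) * σ j) (fun i => (c i).elim 1 σ) fun i => by
      cases c i with
      | none => exact one_mul _
      | some j => exact Equiv.swap_mul_self _ _
  have t1 : ∀ l, Θ (ιH Γ0 (gen _ (Sum.inl l))) = τ (gen _ (Sum.inl l)) := fun l =>
    (liftT_ι _ _ _ _).trans (liftH_inl _ _ l)
  have t2 : ∀ j, Θ (ιH Γ0 (tj Γ0 j)) = τ (tj Γ0 j) * σ j := fun j =>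
    (liftT_ι _ _ _ _).trans (liftH_tj _ _ j)
  have t3 := h2 Θ σ fun i => liftT_sj _ _ _ i
  refine ⟨Θ, fun h => ?_, fun k x => ?_⟩
  · refine sub_le (Γ := HG Γ0) (A := Set.univ) (H := (MulAction.stabilizer
      (Equiv.Perm (HH Γ0 ⧸ Hm Γ0 0)) x0).comap (Θ.comp (ιH Γ0))) (fun a _ => ?_)
      (sub_univ.ge (Subgroup.mem_top h))
    change Θ (ιH Γ0 (gen _ a)) x0 = x0
    rcases a with a | a
    · rw [t1]
      exact QuotientGroup.eq.2 (by simpa using g2_inl_mem a)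
    · change Θ (ιH Γ0 (tj Γ0 a)) x0 = x0
      rw [t2, Equiv.Perm.mul_apply, Equiv.swap_apply_left]
      exact smul_inv_smul (tj Γ0 a) x0
  · have : Θ.comp (ψ.comp (ιH Γ0)) = τ := rg_ext fun a => by
      rcases a with a | a
      · exact (congrArg Θ (h0 _ (g2_inl_mem a))).trans (t1 a)
      · change Θ (ψ (ιH Γ0 (tj Γ0 a))) = τ (tj Γ0 a)
        rw [h1, map_mul, t2, t3, mul_assoc, Equiv.swap_mul_self, mul_one]
    exact congrArg (fun f : Equiv.Perm _ => f x) (DFunLike.congr_fun this k)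

lemma g2_freeOn_DC (ψ : HT Γ0 →* HT Γ0) (h0 : ∀ g ∈ Hm Γ0 0, ψ (ιH Γ0 g) = ιH Γ0 g)
    (Θ : HT Γ0 →* Equiv.Perm (HH Γ0 ⧸ Hm Γ0 0))
    (h1 : ∀ h, Θ (ιH Γ0 h) ((1 : HH Γ0) : HH Γ0 ⧸ Hm Γ0 0) = (1 : HH Γ0))
    (h2 : ∀ k x, Θ (ψ (ιH Γ0 k)) x = k • x) :
    FreeOn (HR Γ0) ((HR Γ0).map ψ) (DC (HR Γ0) ((HR Γ0).map ψ))ᶜ := by
  refine ⟨fun k hk g => not_congr ⟨?_, ?_⟩, fun k hk g => not_congr ⟨?_, ?_⟩, ?_⟩
  · rintro ⟨a, ha, b, hb, e⟩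
    exact ⟨k⁻¹ * a, mul_mem (inv_mem hk) ha, b, hb, by rw [mul_assoc, ← e, inv_mul_cancel_left]⟩
  · rintro ⟨a, ha, b, hb, rfl⟩
    exact ⟨k * a, mul_mem hk ha, b, hb, (mul_assoc _ _ _).symm⟩
  · rintro ⟨a, ha, b, hb, e⟩
    exact ⟨a, ha, b * k⁻¹, mul_mem hb (inv_mem hk), by rw [← mul_assoc, ← e, mul_inv_cancel_right]⟩
  · rintro ⟨a, ha, b, hb, rfl⟩
    exact ⟨a, ha, b * k, mul_mem hb hk, mul_assoc _ _ _⟩
  rintro _ ⟨h, rfl⟩ _ ⟨_, ⟨k, rfl⟩, rfl⟩ g hg e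
  obtain ⟨l, hl⟩ := QuotientGroup.mk_surjective (Θ g⁻¹ ((1 : HH Γ0) : HH Γ0 ⧸ Hm Γ0 0))
  have e1 : ψ (ιH Γ0 k) * g⁻¹ = g⁻¹ * ιH Γ0 h⁻¹ := by
    rw [map_inv, eq_mul_inv_iff_mul_eq]
    calc ψ (ιH Γ0 k) * g⁻¹ * ιH Γ0 h
        = ψ (ιH Γ0 k) * (ιH Γ0 h * g * ψ (ιH Γ0 k))⁻¹ * ιH Γ0 h := by rw [e]
      _ = g⁻¹ := by group
  have e2 : k • (l : HH Γ0 ⧸ Hm Γ0 0) = l := by
    rw [hl, ← h2, ← Equiv.Perm.mul_apply, ← map_mul, e1, map_mul, Equiv.Perm.mul_apply, h1]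
  have e3 : l⁻¹ * k * l ∈ Hm Γ0 0 := by
    rw [mul_assoc]
    exact QuotientGroup.eq.1 e2.symm
  refine freeOn_HR.free _ ⟨h, rfl⟩ _ ⟨l⁻¹ * k * l, rfl⟩ (g * ψ (ιH Γ0 l)) (fun hm => hg ?_) ?_
  · exact ⟨_, hm, _, inv_mem ⟨_, ⟨l, rfl⟩, rfl⟩, (mul_inv_cancel_right _ _).symm⟩
  · rw [← h0 _ e3]
    simp only [map_mul, map_inv]
    calc ιH Γ0 h * (g * ψ (ιH Γ0 l)) * ((ψ (ιH Γ0 l))⁻¹ * ψ (ιH Γ0 k) * ψ (ιH Γ0 l))
        = ιH Γ0 h * g * ψ (ιH Γ0 k) * ψ (ιH Γ0 l) := by group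
      _ = _ := by rw [e]

lemma g2_theta_φ : ∃ Θ : HT Γ0 →* Equiv.Perm (HH Γ0 ⧸ Hm Γ0 0),
    (∀ h, Θ (ιH Γ0 h) ((1 : HH Γ0) : HH Γ0 ⧸ Hm Γ0 0) = (1 : HH Γ0)) ∧
      ∀ k x, Θ (φT Γ0 (ιH Γ0 k)) x = k • x :=
  g2_theta _ (fun _ => g2_φ_zero) some (sj Γ0) g2_φ_tj fun _ _ h j => h j

theorem freeOn_φ :
    FreeOn (HR Γ0) ((HR Γ0).map (φT Γ0)) (DC (HR Γ0) ((HR Γ0).map (φT Γ0)))ᶜ := by
  obtain ⟨Θ, h1, h2⟩ := g2_theta_φ (Γ0 := Γ0)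
  exact g2_freeOn_DC _ (fun _ => g2_φ_zero) Θ h1 h2

theorem freeOn_ψ :
    FreeOn (HR Γ0) ((HR Γ0).map (ψT Γ0)) (DC (HR Γ0) ((HR Γ0).map (ψT Γ0)))ᶜ := by
  have h0 : ∀ g ∈ Hm Γ0 0, ψT Γ0 (ιH Γ0 g) = ιH Γ0 g := fun g hg => by
    change μT Γ0 (εT Γ0 1 (φT Γ0 (ιH Γ0 g))) = _
    rw [g2_φ_zero hg, g2_ε_ι, g2_μ_zero hg]
  obtain ⟨Θ, h1, h2⟩ := g2_theta (ψT Γ0) h0 (fun i => if i % 2 = 0 then some (i / 2) else none)
    (fun j => sj Γ0 (2 * j) * sj Γ0 (2 * j + 1)) (fun j => by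
      change μT Γ0 (εT Γ0 1 (φT Γ0 (ιH Γ0 (tj Γ0 j)))) = _
      rw [g2_φ_tj, map_mul, g2_ε_ι, g2_ε_sj, map_mul, g2_μ_tj, g2_μ_sj, mul_assoc])
    fun Θ σ h j => by
      rw [map_mul, h, h, if_pos (by omega), if_neg (by omega), show 2 * j / 2 = j by omega]
      exact mul_one _
  exact g2_freeOn_DC _ h0 Θ h1 h2

theorem φT_of_mem {g : HT Γ0} (hg : g ∈ GR Γ0) : φT Γ0 g = g := by
  obtain ⟨g, hg, rfl⟩ := hg
  exact g2_φ_zero hg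

theorem mem_GR_of_φT {g : HT Γ0} (hg : g ∈ HR Γ0) (h : φT Γ0 g ∈ HR Γ0) : g ∈ GR Γ0 := by
  obtain ⟨k, rfl⟩ := hg
  obtain ⟨k', e⟩ := h
  obtain ⟨Θ, h1, h2⟩ := g2_theta_φ (Γ0 := Γ0)
  have h3 := h1 k'
  rw [e, h2] at h3
  exact ⟨k, by simpa using QuotientGroup.eq.1 h3.symm, rfl⟩

theorem φT_φT (g : HT Γ0) : φT Γ0 (φT Γ0 g) = g := by
  refine DFunLike.congr_fun (HT_ext (f := (φT Γ0).comp (φT Γ0)) (f' := MonoidHom.id _)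
    (fun l => ?_) fun j => ?_) g
  · rcases l with l | l
    · exact (congrArg _ (g2_φ_zero (g2_inl_mem l))).trans (g2_φ_zero (g2_inl_mem l))
    · change φT Γ0 (φT Γ0 (ιH Γ0 (tj Γ0 l))) = ιH Γ0 (tj Γ0 l)
      rw [g2_φ_tj, map_mul, g2_φ_tj, g2_φ_sj, mul_assoc, sj_mul_self, mul_one]
  · exact (congrArg _ (g2_φ_sj j)).trans (g2_φ_sj j)

theorem μT_μT (g : HT Γ0) : μT Γ0 (μT Γ0 g) = g := by
  refine DFunLike.congr_fun (HT_ext (f := (μT Γ0).comp (μT Γ0)) (f' := MonoidHom.id _)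
    (fun l => ?_) fun j => ?_) g
  · rcases l with l | l
    · exact (congrArg _ (g2_μ_zero (g2_inl_mem l))).trans (g2_μ_zero (g2_inl_mem l))
    · change μT Γ0 (μT Γ0 (ιH Γ0 (tj Γ0 l))) = ιH Γ0 (tj Γ0 l)
      rw [g2_μ_tj, map_mul, g2_μ_tj, g2_μ_sj, mul_assoc, sj_mul_self, mul_one]
  · exact (congrArg _ (g2_μ_sj j)).trans (g2_μ_sj j)

theorem εT_injective {e : ℕ} (he : e < 2) : Function.Injective (εT Γ0 e) := by
  let r : HT Γ0 →* HT Γ0 := liftT (ιH Γ0) (fun i => sj Γ0 (i / 2)) fun _ => sj_mul_self _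
  have : r.comp (εT Γ0 e) = MonoidHom.id _ := HT_ext
    (fun l => (congrArg r (g2_ε_ι e _)).trans (liftT_ι _ _ _ _)) fun j =>
      (congrArg r (g2_ε_sj e j)).trans ((liftT_sj _ _ _ _).trans
        (congrArg (sj Γ0) (by omega : (2 * j + e) / 2 = j)))
  exact Function.LeftInverse.injective (g := r) fun g => DFunLike.congr_fun this g

theorem εT_of_mem (e : ℕ) {g : HT Γ0} (hg : g ∈ HR Γ0) : εT Γ0 e g = g := by
  obtain ⟨g, rfl⟩ := hg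
  exact g2_ε_ι e g

theorem μT_εT_φT {g : HT Γ0} (hg : g ∈ HR Γ0) : μT Γ0 (εT Γ0 0 (φT Γ0 g)) = g := by
  obtain ⟨g, rfl⟩ := hg
  refine DFunLike.congr_fun (rg_ext
    (f := (μT Γ0).comp ((εT Γ0 0).comp ((φT Γ0).comp (ιH Γ0)))) (g := ιH Γ0) fun l => ?_) g
  rcases l with l | l
  · simp only [MonoidHom.comp_apply]
    rw [g2_φ_zero (g2_inl_mem l), g2_ε_ι, g2_μ_zero (g2_inl_mem l)]
  · change μT Γ0 (εT Γ0 0 (φT Γ0 (ιH Γ0 (tj Γ0 l)))) = ιH Γ0 (tj Γ0 l)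
    rw [g2_φ_tj, map_mul, g2_ε_ι, g2_ε_sj, map_mul, g2_μ_tj, g2_μ_sj, add_zero, mul_assoc,
      sj_mul_self, mul_one]

theorem mem_GR_of_εT {k g : HT Γ0} (hk : k ∈ HR Γ0) (h : εT Γ0 1 (φT Γ0 k) = εT Γ0 0 g) :
    k ∈ GR Γ0 := by
  let r : HT Γ0 →* HT Γ0 := liftT (ιH Γ0) (fun i => if i % 2 = 0 then sj Γ0 i else 1) fun i => by
    split_ifs
    exacts [sj_mul_self _, one_mul _]
  have r1 : ∀ x, r (ιH Γ0 x) = ιH Γ0 x := fun x => liftT_ι _ _ _ x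
  have r2 : ∀ i, r (sj Γ0 i) = if i % 2 = 0 then sj Γ0 i else 1 := fun i => liftT_sj _ _ _ i
  have h1 : r.comp (εT Γ0 0) = εT Γ0 0 := HT_ext
    (fun l => by rw [MonoidHom.comp_apply, g2_ε_ι, r1]) fun j => by
      rw [MonoidHom.comp_apply, g2_ε_sj, r2, if_pos (by omega)]
  have h2 : r.comp ((εT Γ0 1).comp ((φT Γ0).comp (ιH Γ0))) = ιH Γ0 := rg_ext fun l => by
    rcases l with l | l
    · simp only [MonoidHom.comp_apply]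
      rw [g2_φ_zero (g2_inl_mem l), g2_ε_ι, r1]
    · change r (εT Γ0 1 (φT Γ0 (ιH Γ0 (tj Γ0 l)))) = ιH Γ0 (tj Γ0 l)
      rw [g2_φ_tj, map_mul, g2_ε_ι, g2_ε_sj, map_mul, r1, r2, if_neg (by omega), mul_one]
  have h3 : εT Γ0 1 (φT Γ0 k) = εT Γ0 1 k := by
    obtain ⟨k, rfl⟩ := hk
    have h4 : r (εT Γ0 1 (φT Γ0 (ιH Γ0 k))) = ιH Γ0 k := DFunLike.congr_fun h2 k
    have h5 : r (εT Γ0 0 g) = εT Γ0 0 g := DFunLike.congr_fun h1 g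
    rw [h, h5] at h4
    rw [g2_ε_ι, h, h4]
  exact mem_GR_of_φT hk ((εT_injective one_lt_two h3).symm ▸ hk)

end Pool.Agent.P.MP_a6af55_an
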