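import Pool.Agent.P.MP_a6af55_an.SMPauli
import Pool.Agent.P.MP_a6af55_an.SMGrp2

namespace Pool.Agent.P.MP_a6af55_an

open Pool.Agent.Lib.Tracial
open scoped ComplexOrder InnerProductSpace ComplexConjugate Pointwise Real
open Filter Topology

variable {L0 : Type} {Γ0 : SimpleGraph L0} {A : Type*} [CStarAlgebra A] {t : TrState A}

/-- The malleable deformation and the auxiliary endomorphisms. -/
structure Deform (L : TwAlg (εP (HT Γ0)) t) where
  α : ℝ → A →⋆ₐ[ℂ] A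
  γ : A →⋆ₐ[ℂ] A
  E : ℕ → A →⋆ₐ[ℂ] A
  μ : A →⋆ₐ[ℂ] A
  tp_α : ∀ θ, TP t t (α θ)
  tp_γ : TP t t γ
  tp_E : ∀ e < 2, TP t t (E e)
  tp_μ : TP t t μ
  α_add : ∀ θ θ' x, α θ (α θ' x) = α (θ + θ') x
  α_zero : ∀ x, α 0 x = x
  α_cont : ∀ x, Tendsto (fun θ => t.n2 (α θ x - x)) (𝓝 0) (𝓝 0)
  α_fix : ∀ θ x, L.In x ((GR Γ0).prod (⊤ : Subgroup SG)) → α θ x = x
  α_end : ∀ g, ∃ a : ℂ, α (π / 2) (L.u g) = a • L.u (φT Γ0 g.1, g.2)
  γ_fix : ∀ x, L.In x ((HR Γ0).prod (⊤ : Subgroup SG)) → γ x = x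
  γ_α : ∀ θ x, γ (α θ x) = α (-θ) (γ x)
  E_u : ∀ e < 2, ∀ g, E e (L.u g) = L.u (εT Γ0 e g.1, g.2)
  μ_u : ∀ g, ∃ a : ℂ, μ (L.u g) = a • L.u (μT Γ0 g.1, g.2)
  μ_E : ∀ x, L.In x ((HR Γ0).prod (⊤ : Subgroup SG)) → μ (E 0 (α (π / 2) x)) = x

namespace Dfm

lemma ext3 {M : Type*} [Monoid M] {f f' : HT Γ0 →* M}
    (h1 : ∀ l, f (ιH Γ0 (gen _ (Sum.inl l))) = f' (ιH Γ0 (gen _ (Sum.inl l))))
    (h2 : ∀ j, f (ιH Γ0 (tj Γ0 j)) = f' (ιH Γ0 (tj Γ0 j)))
    (h3 : ∀ j, f (sj Γ0 j) = f' (sj Γ0 j)) (g : HT Γ0) : f g = f' g :=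
  DFunLike.congr_fun (HT_ext (fun l => by
    rcases l with l | j
    exacts [h1 l, h2 j]) h3) g

lemma exists_char (a b : ℂ) (ha : ‖a‖ = 1) (hb : ‖b‖ = 1) (hbb : b * b = 1) :
    ∃ χ : HT Γ0 →* ℂ, (∀ g, ‖χ g‖ = 1) ∧ (∀ l, χ (ιH Γ0 (gen _ (Sum.inl l))) = 1) ∧
      (∀ j, χ (ιH Γ0 (tj Γ0 j)) = a) ∧ ∀ j, χ (sj Γ0 j) = b := by
  let a' : Circle := ⟨a, mem_sphere_zero_iff_norm.2 ha⟩
  let b' : Circle := ⟨b, mem_sphere_zero_iff_norm.2 hb⟩
  refine ⟨Circle.coeHom.comp (liftT (liftH 1 fun _ => a') (fun _ => b') fun _ => Circle.ext hbb),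
    fun g => Circle.norm_coe _, fun l => ?_, fun j => ?_, fun j => ?_⟩
  · rw [MonoidHom.comp_apply, liftT_ι, liftH_inl]; rfl
  · rw [MonoidHom.comp_apply, liftT_ι, liftH_tj]; rfl
  · rw [MonoidHom.comp_apply, liftT_sj]; rfl

lemma φT_inl (l : L0) : φT Γ0 (ιH Γ0 (gen _ (Sum.inl l))) = ιH Γ0 (gen _ (Sum.inl l)) := by
  rw [φT, endo, liftT_ι, liftH_inl]

lemma φT_tj (j : ℕ) : φT Γ0 (ιH Γ0 (tj Γ0 j)) = ιH Γ0 (tj Γ0 j) * sj Γ0 j := by
  rw [φT, endo, liftT_ι, liftH_tj]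

lemma φT_sj (j : ℕ) : φT Γ0 (sj Γ0 j) = sj Γ0 j := by
  rw [φT, endo, liftT_sj]

lemma εT_ι (e : ℕ) (h : HH Γ0) : εT Γ0 e (ιH Γ0 h) = ιH Γ0 h := by rw [εT, liftT_ι]

lemma εT_sj (e j : ℕ) : εT Γ0 e (sj Γ0 j) = sj Γ0 (2 * j + e) := by rw [εT, liftT_sj]

variable (L : TwRep (εP (HT Γ0)) t)

/-- The rotation in the plane of one involution. -/
noncomputable def rot (j : ℕ) (θ : ℝ) : A :=
  (Real.cos θ : ℂ) • 1 + (Complex.I * Real.sin θ) • L.U (sj Γ0 j)

lemma U_sq (j : ℕ) : L.U (sj Γ0 j) * L.U (sj Γ0 j) = 1 := by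
  rw [← map_mul, sj_mul_self, map_one]

lemma rot_mul (j : ℕ) (θ h : ℝ) : rot L j θ * rot L j h = rot L j (θ + h) := by
  simp only [rot, mul_add, add_mul, smul_mul_smul_comm, U_sq, one_mul, mul_one, Real.cos_add,
    Real.sin_add]
  match_scalars
  · linear_combination (Complex.sin θ * Complex.sin h) * Complex.I_mul_I
  · ring

lemma rot_zero (j : ℕ) : rot L j 0 = 1 := by simp [rot]

lemma star_rot (j : ℕ) (θ : ℝ) : star (rot L j θ) = rot L j (-θ) := by
  simp only [rot, star_add, star_smul, star_one, L.star_U, sj_inv, Real.cos_neg, Real.sin_neg,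
    RCLike.star_def, map_mul, Complex.conj_ofReal, Complex.conj_I]
  congr 2
  push_cast
  ring

lemma rot_unit (j : ℕ) (θ : ℝ) : rot L j θ ∈ unitary A :=
  ⟨by rw [star_rot, rot_mul, neg_add_cancel, rot_zero],
    by rw [star_rot, rot_mul, add_neg_cancel, rot_zero]⟩

lemma rot_deriv (j : ℕ) : HasDerivAt (rot L j) (Complex.I • L.U (sj Γ0 j)) 0 := by
  have h1 := ((Real.hasDerivAt_cos 0).ofReal_comp).smul_const (1 : A)
  have h2 := (((Real.hasDerivAt_sin 0).ofReal_comp).const_mul Complex.I).smul_const (L.U (sj Γ0 j))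
  exact (h1.add h2).congr_deriv (by simp)

/-- The defining properties of the deformed representation. -/
structure IsB (B : ℝ → HT Γ0 →* A) : Prop where
  unit : ∀ θ g, B θ g ∈ unitary A
  low : ∀ θ h, h ∈ Hm Γ0 0 → B θ (ιH Γ0 h) = L.U (ιH Γ0 h)
  inl : ∀ θ l, B θ (ιH Γ0 (gen _ (Sum.inl l))) = L.U (ιH Γ0 (gen _ (Sum.inl l)))
  at_t : ∀ θ j, B θ (ιH Γ0 (tj Γ0 j)) = L.U (ιH Γ0 (tj Γ0 j)) * rot L j θ
  at_s : ∀ θ j, B θ (sj Γ0 j) = L.U (sj Γ0 j)

lemma exists_B : ∃ B, IsB L B := by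
  let V : HT Γ0 →* unitary A := L.U.codRestrict _ fun g => L.unit _
  refine ⟨fun θ => (unitary A).subtype.comp (liftT (liftH (V.comp (ιH Γ0)) fun j =>
    V (ιH Γ0 (tj Γ0 j)) * ⟨rot L j θ, rot_unit L j θ⟩) (fun j => V (sj Γ0 j)) fun j => by
      rw [← map_mul, sj_mul_self, map_one]), fun θ g => Subtype.property _, fun θ h hh => ?_,
    fun θ l => ?_, fun θ j => ?_, fun θ j => ?_⟩
  · rw [MonoidHom.comp_apply, liftT_ι, liftH_zero _ _ hh]; rfl
  · rw [MonoidHom.comp_apply, liftT_ι, liftH_inl]; rfl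
  · rw [MonoidHom.comp_apply, liftT_ι, liftH_tj]; rfl
  · rw [MonoidHom.comp_apply, liftT_sj]; rfl

variable {L} {B : ℝ → HT Γ0 →* A} (hB : IsB L B)

include hB

lemma IsB.inv (θ : ℝ) (g : HT Γ0) : B θ g⁻¹ = star (B θ g) := by
  rw [← mul_one (star _), ← map_one (B θ), ← mul_inv_cancel g, map_mul, ← mul_assoc,
    (hB.unit θ g).1, one_mul]

lemma IsB.zero (g : HT Γ0) : B 0 g = L.U g :=
  ext3 (hB.inl 0) (fun j => by rw [hB.at_t, rot_zero, mul_one]) (hB.at_s 0) g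

lemma IsB.lift_rot (j : ℕ) (θ : ℝ) : ∃ c : MonoidAlgebra ℂ (HT Γ0), ∀ h,
    MonoidAlgebra.lift ℂ A (HT Γ0) (B h) c = rot L j θ :=
  ⟨(Real.cos θ : ℂ) • 1 + (Complex.I * Real.sin θ) • MonoidAlgebra.of ℂ _ (sj Γ0 j), fun h => by
    rw [map_add, map_smul, map_smul, map_one, MonoidAlgebra.lift_of, hB.at_s, rot]⟩

lemma IsB.add (θ : ℝ) (g : HT Γ0) : ∃ c : MonoidAlgebra ℂ (HT Γ0), ∀ h,
    B (θ + h) g = MonoidAlgebra.lift ℂ A (HT Γ0) (B h) c := by
  induction g using HT_induction with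
  | h1 => exact ⟨1, fun h => by rw [map_one, map_one]⟩
  | hm g k a b =>
    obtain ⟨c, hc⟩ := a
    obtain ⟨d, hd⟩ := b
    exact ⟨c * d, fun h => by rw [map_mul, map_mul, hc, hd]⟩
  | hl l =>
    rcases l with l | j
    · exact ⟨MonoidAlgebra.of ℂ _ _, fun h => by rw [MonoidAlgebra.lift_of, hB.inl, hB.inl]⟩
    · obtain ⟨c, hc⟩ := hB.lift_rot j θ
      refine ⟨MonoidAlgebra.of ℂ _ (ιH Γ0 (tj Γ0 j)) * c, fun h => ?_⟩
      rw [map_mul, MonoidAlgebra.lift_of, hc, hB.at_t, mul_assoc, rot_mul, add_comm h]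
      exact hB.at_t _ _
  | hl' l =>
    rcases l with l | j
    · exact ⟨MonoidAlgebra.of ℂ _ _, fun h => by
        rw [MonoidAlgebra.lift_of, hB.inv, hB.inv, hB.inl, hB.inl]⟩
    · obtain ⟨c, hc⟩ := hB.lift_rot j (-θ)
      refine ⟨c * MonoidAlgebra.of ℂ _ (ιH Γ0 (tj Γ0 j))⁻¹, fun h => ?_⟩
      rw [map_mul, MonoidAlgebra.lift_of, hc, hB.inv h, hB.at_t, ← star_rot, ← star_mul, mul_assoc,
        rot_mul, add_comm h, ← hB.at_t]
      exact hB.inv _ _
  | hs j => exact ⟨MonoidAlgebra.of ℂ _ _, fun h => by rw [MonoidAlgebra.lift_of, hB.at_s, hB.at_s]⟩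

lemma IsB.deriv (g : HT Γ0) : ∃ D ∈ Submodule.span ℂ
    {x | ∃ w j, x = L.U (g * (w * sj Γ0 j * w⁻¹))},
    HasDerivAt (fun h => B h g) D 0 := by
  induction g using HT_induction with
  | h1 => exact ⟨0, zero_mem _, by simpa using hasDerivAt_const (0 : ℝ) (1 : A)⟩
  | hm g k a b =>
    obtain ⟨D, hD, a⟩ := a
    obtain ⟨E, hE, b⟩ := b
    refine ⟨_, add_mem ?_ ?_, (a.mul b).congr_of_eventuallyEq
      (Eventually.of_forall fun h => map_mul (B h) g k)⟩
    · refine Submodule.span_induction (p := fun x _ => x * B 0 k ∈ _) ?_ (by simp)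
        (fun x y _ _ a b => by rw [add_mul]; exact add_mem a b)
        (fun c x _ a => by rw [smul_mul_assoc]; exact Submodule.smul_mem _ _ a) hD
      rintro _ ⟨w, j, rfl⟩
      refine Submodule.subset_span ⟨k⁻¹ * w, j, ?_⟩
      rw [hB.zero, ← map_mul]
      congr 1
      group
    · refine Submodule.span_induction (p := fun x _ => B 0 g * x ∈ _) ?_ (by simp)
        (fun x y _ _ a b => by rw [mul_add]; exact add_mem a b)
        (fun c x _ a => by rw [mul_smul_comm]; exact Submodule.smul_mem _ _ a) hE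
      rintro _ ⟨w, j, rfl⟩
      exact Submodule.subset_span ⟨w, j, by rw [hB.zero, ← map_mul, mul_assoc g]⟩
  | hl l =>
    rcases l with l | j
    · exact ⟨0, zero_mem _, by simpa only [hB.inl] using hasDerivAt_const (0 : ℝ) _⟩
    · refine ⟨_, ?_, ((rot_deriv L j).const_mul
        (L.U (ιH Γ0 (tj Γ0 j)))).congr_of_eventuallyEq
          (Eventually.of_forall fun h => hB.at_t h j)⟩
      rw [mul_smul_comm, ← map_mul]
      exact Submodule.smul_mem _ _ (Submodule.subset_span ⟨1, j, by simp; rfl⟩)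
  | hl' l =>
    rcases l with l | j
    · exact ⟨0, zero_mem _, by simpa only [hB.inv, hB.inl] using hasDerivAt_const (0 : ℝ) _⟩
    · refine ⟨_, ?_, (((rot_deriv L j).const_mul
        (L.U (ιH Γ0 (tj Γ0 j)))).star).congr_of_eventuallyEq
          (Eventually.of_forall fun h => (hB.inv h _).trans (congrArg star (hB.at_t h j)))⟩
      rw [mul_smul_comm, ← map_mul, star_smul, L.star_U]
      refine Submodule.smul_mem _ _ (Submodule.subset_span
        ⟨ιH Γ0 (tj Γ0 j), j, ?_⟩)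
      congr 1
      rw [mul_inv_rev, sj_inv]
      change _ = (ιH Γ0 (tj Γ0 j))⁻¹ * _
      group
  | hs j => exact ⟨0, zero_mem _, by simpa only [hB.at_s] using hasDerivAt_const (0 : ℝ) _⟩

lemma IsB.deriv_τ (g : HT Γ0) : HasDerivAt (fun h => t.τ (B h g)) 0 0 := by
  by_cases hg : ∃ w j, g * (w * sj Γ0 j * w⁻¹) = 1
  · obtain ⟨w, j, hg⟩ := hg
    have h1 : g = w * sj Γ0 j * w⁻¹ := by
      rw [eq_inv_of_mul_eq_one_left hg, mul_inv_rev, mul_inv_rev, sj_inv, inv_inv, mul_assoc]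
    have : ∀ h, t.τ (B h g) = t.τ (L.U (sj Γ0 j)) := fun h => by
      rw [h1, map_mul, t.trace, ← map_mul, ← mul_assoc, inv_mul_cancel, one_mul, hB.at_s]
    simpa only [this] using hasDerivAt_const (0 : ℝ) _
  · obtain ⟨D, hD, h⟩ := hB.deriv g
    have h0 : t.τ D = 0 := by
      refine Submodule.span_induction (p := fun x _ => t.τ x = 0) ?_ (map_zero _)
        (fun x y _ _ a b => by rw [map_add, a, b, add_zero])
        (fun c x _ a => by rw [map_smul, a, smul_zero]) hD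
      rintro _ ⟨w, j, rfl⟩
      exact L.τ_u _ fun e => hg ⟨w, j, congrArg Prod.fst e⟩
    let T : A →L[ℂ] ℂ := t.τ.mkContinuous 1 fun a => by simpa using t.norm_τ_le a
    have := (T.restrictScalars ℝ).hasFDerivAt.comp_hasDerivAt (0 : ℝ) h
    rwa [show (T.restrictScalars ℝ) D = 0 from h0] at this

lemma IsB.τ_eq (θ : ℝ) (g : HT Γ0) : t.τ (B θ g) = t.τ (L.U g) := by
  have h1 : ∀ c : MonoidAlgebra ℂ (HT Γ0),
      HasDerivAt (fun h => t.τ (MonoidAlgebra.lift ℂ A (HT Γ0) (B h) c)) 0 0 := fun c => by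
    induction c using MonoidAlgebra.induction_on with
    | of k => simpa only [MonoidAlgebra.lift_of] using hB.deriv_τ k
    | add c d a b => simpa only [map_add, add_zero] using a.fun_add b
    | smul r c a => simpa only [map_smul, smul_zero] using a.fun_const_smul r
  have h2 : ∀ θ, HasDerivAt (fun h => t.τ (B h g)) 0 θ := fun θ => by
    obtain ⟨c, hc⟩ := hB.add θ g
    have := h1 c
    simp only [← hc] at this
    rw [← sub_self θ] at this
    simpa only [add_sub_cancel] using this.comp_sub_const θ θ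
  rw [← hB.zero]
  exact is_const_of_deriv_eq_zero (fun θ => (h2 θ).differentiableAt) (fun θ => (h2 θ).deriv) θ 0

lemma IsB.span (θ : ℝ) (g : HT Γ0) {p : A → Prop} (h1 : ∀ k, p (L.U k))
    (h2 : ∀ x y, p x → p y → p (x + y)) (h3 : ∀ (r : ℂ) x, p x → p (r • x)) : p (B θ g) := by
  obtain ⟨c, hc⟩ := hB.add θ g
  have := hc 0
  rw [add_zero] at this
  rw [this]
  clear this hc
  induction c using MonoidAlgebra.induction_on with
  | of k => rw [MonoidAlgebra.lift_of, hB.zero]; exact h1 k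
  | add c d a b => rw [map_add]; exact h2 _ _ a b
  | smul r c a => rw [map_smul]; exact h3 _ _ a

lemma IsB.comm (θ : ℝ) (g : HT Γ0) (s : SG) : L.u (1, s) * B θ g = B θ g * L.u (1, s) :=
  hB.span θ g (p := fun x => L.u (1, s) * x = x * L.u (1, s))
    (fun k => by simp [TwRep.U_apply, L.u_mul, sg, εP_apply])
    (fun x y a b => by rw [mul_add, add_mul, a, b])
    (fun r x a => by rw [mul_smul_comm, smul_mul_assoc, a])

/-- The deformed twisted representation. -/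
noncomputable def IsB.rep (θ : ℝ) : TwRep (εP (HT Γ0)) t where
  u g := B θ g.1 * L.u (1, g.2)
  unit g := mul_mem (hB.unit θ _) (L.unit _)
  u_one := by
    change B θ 1 * L.u 1 = 1
    rw [map_one, L.u_one, one_mul]
  u_mul g h := by
    rw [mul_assoc, ← mul_assoc (L.u _), hB.comm, mul_assoc, L.u_mul, ← mul_assoc, ← map_mul,
      mul_smul_comm, Prod.mk_mul_mk, mul_one]
    rfl
  τ_u g hg := by
    by_cases hs : g.2 = 1
    · rw [hs, show L.u (1, 1) = 1 from L.u_one, mul_one, hB.τ_eq]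
      exact L.τ_u _ fun e => hg (Prod.ext (Prod.ext_iff.1 e).1 hs)
    · exact hB.span θ g.1 (p := fun x => t.τ (x * L.u (1, g.2)) = 0)
        (fun k => by
          rw [TwRep.U_apply, L.u_prod]
          exact L.τ_u _ fun e => hs (congrArg Prod.snd e))
        (fun x y a b => by rw [add_mul, map_add, a, b, add_zero])
        (fun r x a => by rw [smul_mul_assoc, map_smul, a, smul_zero])

lemma IsB.endpt {χ : HT Γ0 →* ℂ} (h1 : ∀ l, χ (ιH Γ0 (gen _ (Sum.inl l))) = 1)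
    (h2 : ∀ j, χ (ιH Γ0 (tj Γ0 j)) = Complex.I)
    (h3 : ∀ j, χ (sj Γ0 j) = 1) (g : HT Γ0) :
    B (π / 2) g = χ g • L.U (φT Γ0 g) :=
  ext3 (f' :=
    { toFun g := χ g • L.U (φT Γ0 g)
      map_one' := by simp
      map_mul' g h := by simp only [map_mul, smul_mul_smul_comm] })
    (fun l => by
      change _ = χ _ • L.U _
      rw [hB.inl, h1, φT_inl, one_smul])
    (fun j => by
      change _ = χ _ • L.U _
      rw [hB.at_t, h2, φT_tj, map_mul, ← mul_smul_comm]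
      simp [rot])
    (fun j => by
      change _ = χ _ • L.U _
      rw [hB.at_s, h3, φT_sj, one_smul]) g

end Dfm

open Dfm in
theorem exists_deform [t.W] (L : TwAlg (εP (HT Γ0)) t) : Nonempty (Deform L) := by
  obtain ⟨B, hB⟩ := exists_B L.toTwRep
  choose α tα hα using fun θ => L.exists_hom (hB.rep θ)
  replace hα : ∀ θ g, α θ (L.u g) = B θ g.1 * L.u (1, g.2) := hα
  have tid : TP t t (StarAlgHom.id ℂ A) := fun _ => rfl
  have hU : ∀ θ k, α θ (L.U k) = B θ k := fun θ k => by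
    rw [TwRep.U_apply, hα, show L.u (1, 1) = 1 from L.u_one, mul_one]
  have hS : ∀ θ s, α θ (L.u (1, s)) = L.u (1, s) := fun θ s => by rw [hα, map_one, one_mul]
  have hl : ∀ θ c, α θ (MonoidAlgebra.lift ℂ A (HT Γ0) (B 0) c) =
      MonoidAlgebra.lift ℂ A (HT Γ0) (B θ) c := fun θ c => by
    induction c using MonoidAlgebra.induction_on with
    | of k => rw [MonoidAlgebra.lift_of, MonoidAlgebra.lift_of, hB.zero, hU]
    | add c d a b => rw [map_add, map_add, map_add, a, b]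
    | smul r c a => rw [map_smul, map_smul, map_smul, a]
  have h0 : ∀ g, α 0 (L.u g) = L.u g := fun g => by rw [hα, hB.zero, TwRep.U_apply, L.u_prod]
  obtain ⟨χ, n1, c1, c2, c3⟩ := exists_char (Γ0 := Γ0) 1 (-1) (by simp) (by simp) (by simp)
  obtain ⟨χ', n2, d1, d2, d3⟩ := exists_char (Γ0 := Γ0) Complex.I 1 (by simp) (by simp) (by simp)
  obtain ⟨χ'', n3, e1, e2, e3⟩ :=
    exists_char (Γ0 := Γ0) (-Complex.I) 1 (by simp) (by simp) (by simp)
  have tw : ∀ (f : HT Γ0 →* HT Γ0), Function.Injective f → ∀ χ : HT Γ0 →* ℂ, (∀ g, ‖χ g‖ = 1) →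
      ∃ φ : A →⋆ₐ[ℂ] A, TP t t φ ∧ ∀ g, φ (L.u g) = χ g.1 • L.u (f g.1, g.2) := fun f hf χ hχ =>
    L.exists_hom (L.twist (εP (HT Γ0)) (f.prodMap (MonoidHom.id SG))
      (hf.prodMap Function.injective_id) (fun _ _ => rfl) (χ.comp (MonoidHom.fst _ _))
      fun g => hχ _)
  obtain ⟨γ, tγ, hγ⟩ := tw (MonoidHom.id _) Function.injective_id χ n1
  obtain ⟨μ, tμ, hμ⟩ := tw (μT Γ0) (Function.LeftInverse.injective μT_μT) χ'' n3
  have : ∀ e : ℕ, ∃ φ : A →⋆ₐ[ℂ] A, e < 2 → TP t t φ ∧ ∀ g, φ (L.u g) = L.u (εT Γ0 e g.1, g.2) :=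
    fun e => by
      by_cases he : e < 2
      · obtain ⟨φ, a, b⟩ := tw (εT Γ0 e) (εT_injective he) 1 (by simp)
        exact ⟨φ, fun _ => ⟨a, fun g => by simpa using b g⟩⟩
      · exact ⟨StarAlgHom.id ℂ A, fun h => (he h).elim⟩
  choose E hE using this
  have hend : ∀ g, α (π / 2) (L.u g) = χ' g.1 • L.u (φT Γ0 g.1, g.2) := fun g => by
    rw [hα, hB.endpt d1 d2 d3, smul_mul_assoc, TwRep.U_apply, L.u_prod]
  have hγU : ∀ k, γ (L.U k) = χ k • L.U k := fun k => hγ (k, 1)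
  have hγB : ∀ θ k, γ (B θ k) = χ k • B (-θ) k := fun θ =>
    ext3 (f := (γ : A →* A).comp (B θ)) (f' :=
      { toFun g := χ g • B (-θ) g
        map_one' := by simp
        map_mul' g h := by simp only [map_mul, smul_mul_smul_comm] })
      (fun l => by
        change γ (B θ _) = χ _ • B (-θ) _
        rw [hB.inl, hB.inl, hγU])
      (fun j => by
        change γ (B θ _) = χ _ • B (-θ) _
        rw [hB.at_t, hB.at_t, map_mul, hγU, smul_mul_assoc]
        simp [rot, hγU, c3])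
      (fun j => by
        change γ (B θ _) = χ _ • B (-θ) _
        rw [hB.at_s, hB.at_s, hγU])
  refine ⟨⟨α, γ, E, μ, tα, tγ, fun e he => (hE e he).1, tμ, fun θ θ' x => ?_, fun x => ?_,
    fun x => ?_, fun θ x hx => ?_, fun g => ⟨_, hend g⟩, fun x hx => ?_, fun θ x => ?_,
    fun e he => (hE e he).2, fun g => ⟨_, hμ g⟩, fun x hx => ?_⟩⟩
  · refine DFunLike.congr_fun (L.hom_ext ((tα θ).comp (tα θ')) (tα (θ + θ')) fun g => ?_) x
    obtain ⟨c, hc⟩ := hB.add θ' g.1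
    rw [StarAlgHom.comp_apply, hα, hα, map_mul, hS, add_comm θ, hc, ← hl, ← hc, add_zero]
  · exact DFunLike.congr_fun (L.hom_ext (tα 0) tid h0) x
  · have h1 : ∀ p ∈ Submodule.span ℂ (Set.range L.u), Tendsto (fun θ => α θ p) (𝓝 0) (𝓝 p) := by
      intro p hp
      refine Submodule.span_induction (p := fun p _ => Tendsto (fun θ => α θ p) (𝓝 0) (𝓝 p)) ?_
        (by simp) (fun x y _ _ a b => by simpa only [map_add] using a.add b)
        (fun c x _ a => by simpa only [map_smul] using a.const_smul c) hp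
      rintro _ ⟨g, rfl⟩
      obtain ⟨D, -, hD⟩ := hB.deriv g.1
      have := hD.continuousAt.tendsto.mul_const (L.u (1, g.2))
      simpa only [← hα, h0] using this
    refine Metric.tendsto_nhds.2 fun δ hδ => ?_
    obtain ⟨p, hp, h⟩ := L.dense x (δ / 3) (by positivity)
    filter_upwards [Metric.tendsto_nhds.1 (h1 p hp) (δ / 3) (by positivity)] with θ hθ
    rw [dist_zero_right, Real.norm_of_nonneg (t.n2_nonneg _)]
    rw [dist_eq_norm] at hθ
    have a1 := t.n2_triangle (α θ x) (α θ p) x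
    have a2 := t.n2_triangle (α θ p) p x
    have a3 := (tα θ).n2 (x - p)
    rw [map_sub] at a3
    linarith [t.n2_le_norm (α θ p - p), t.n2_sub_comm p x]
  · refine hx.hom_eq (tα θ) tid ?_
    rintro ⟨_, s⟩ ⟨⟨h, hh, rfl⟩, -⟩
    rw [hα, hB.low θ h hh, TwRep.U_apply, L.u_prod]
    rfl
  · refine hx.hom_eq tγ tid ?_
    rintro ⟨_, s⟩ ⟨⟨h, rfl⟩, -⟩
    have : χ (ιH Γ0 h) = 1 := by
      have := ext3 (f := χ.comp ((ιH Γ0).comp (liftT (MonoidHom.id _) (fun _ => 1) (by simp))))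
        (f' := 1) (fun l => by simp only [MonoidHom.comp_apply, liftT_ι]; exact c1 l)
        (fun j => by simp only [MonoidHom.comp_apply, liftT_ι]; exact c2 j)
        (fun j => by simp only [MonoidHom.comp_apply, liftT_sj, map_one]; rfl) (ιH Γ0 h)
      simpa only [MonoidHom.comp_apply, liftT_ι, MonoidHom.id_apply, MonoidHom.one_apply] using this
    rw [hγ, this, one_smul]
    rfl
  · refine DFunLike.congr_fun (L.hom_ext (tγ.comp (tα θ)) ((tα (-θ)).comp tγ) fun g => ?_) x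
    rw [StarAlgHom.comp_apply, StarAlgHom.comp_apply, hα, map_mul, hγB, hγ, hγ, map_smul, hα,
      map_one, one_smul, smul_mul_assoc]
    rfl
  · refine hx.hom_eq (tμ.comp ((hE 0 two_pos).1.comp (tα (π / 2)))) tid fun g hg => ?_
    have h1 : χ' g.1 * χ'' (εT Γ0 0 (φT Γ0 g.1)) = 1 :=
      ext3 (f := χ' * χ''.comp ((εT Γ0 0).comp (φT Γ0))) (f' := 1)
        (fun l => by simp [φT_inl, εT_ι, d1, e1])
        (fun j => by simp [φT_tj, εT_ι, εT_sj, d2, e2, e3])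
        (fun j => by simp [φT_sj, εT_sj, d3, e3]) g.1
    rw [StarAlgHom.comp_apply, StarAlgHom.comp_apply, hend, map_smul, (hE 0 two_pos).2, map_smul,
      hμ, smul_smul, h1, one_smul, μT_εT_φT hg.1]
    rfl

end Pool.Agent.P.MP_a6af55_an
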