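import Pool.Agent.Lib.Tracial.Defs

namespace Pool.Agent.P.MP_a6af55_an

open Pool.Agent.Lib.Tracial

universe u

variable {A : Type u} [CStarAlgebra A]

/-- The square of the trace norm. -/
noncomputable def nsq (t : TrState A) (x : A) : ℝ := ‖t.τ (star x * x)‖

/-- Property Gamma of a subalgebra. -/
def HasGamma (t : TrState A) (P : StarSubalgebra ℂ A) : Prop :=
  ∀ F : Finset A, (∀ x ∈ F, x ∈ P) → ∀ δ > (0 : ℝ), ∃ v ∈ P, v ∈ unitary A ∧ t.τ v = 0 ∧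
    ∀ x ∈ F, nsq t (v * x - x * v) < δ

/-- Approximation of a subalgebra by its unital matrix subalgebras. -/
def Hyperfinite (t : TrState A) (R : StarSubalgebra ℂ A) : Prop :=
  ∀ F : Finset A, (∀ x ∈ F, x ∈ R) → ∀ δ > (0 : ℝ), ∃ (n : ℕ)
    (φ : Matrix (Fin n) (Fin n) ℂ →⋆ₐ[ℂ] A), (∀ M, φ M ∈ R) ∧ ∀ x ∈ F, ∃ M, nsq t (x - φ M) < δ

/-- The tensor product of a factor without property Gamma and a hyperfinite factor. -/
def StronglyMcDuff (t : TrState A) : Prop :=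
  ∃ P R : StarSubalgebra ℂ A, IsII1 P ∧ IsII1 R ∧ ¬ HasGamma t P ∧ Hyperfinite t R ∧
    (∀ p ∈ P, ∀ r ∈ R, p * r = r * p ∧ t.τ (p * r) = t.τ p * t.τ r) ∧
    ∀ x, ∀ δ > (0 : ℝ), ∃ y ∈ Submodule.span ℂ {z | ∃ p ∈ P, ∃ r ∈ R, z = p * r}, nsq t (x - y) < δ

end Pool.Agent.P.MP_a6af55_an
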