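import Pool.Agent.P.MP_a6af55_an.SMHom

namespace Pool.Agent.P.MP_a6af55_an

open Pool.Agent.Lib.Tracial
open scoped ComplexOrder InnerProductSpace ComplexConjugate
open Filter Topology

variable {A B : Type*} [CStarAlgebra A] [CStarAlgebra B] {t : TrState A} {s : TrState B}

/-- Two sided averaging over a semigroup of pairs of unitaries. -/
theorem dbl_avg (s : TrState B) [s.W] (S : Set (B × B))
    (hS : ∀ u ∈ S, u.1 ∈ unitary B ∧ u.2 ∈ unitary B) (hmul : ∀ u ∈ S, ∀ v ∈ S, u * v ∈ S)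
    (hne : S.Nonempty) {x : B} (hx : ‖x‖ ≤ 1) {r : ℝ}
    (hr : ∀ u ∈ S, s.n2 (u.1 * x - x * u.2) ≤ r) :
    ∃ y, (∀ u ∈ S, u.1 * y = y * u.2) ∧ s.n2 (y - x) ≤ r := by
  have hsub : ∀ u ∈ S, ∀ a, s.n2 (u.1 * a * star u.2 - a) = s.n2 (u.1 * a - a * u.2) :=
    fun u hu a => by
      rw [← s.n2_mul_unitary _ (hS u hu).2, sub_mul, mul_assoc _ (star u.2),
        Unitary.star_mul_self_of_mem (hS u hu).2, mul_one]
  let F : Set (Set s.L2) := {C | IsClosed C ∧ CvxC C ∧ ∀ u ∈ S, s.Λ (u.1 * x * star u.2) ∈ C}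
  have hKc : IsClosed (⋂₀ F) := isClosed_sInter fun C hC => hC.1
  have hKv : CvxC (⋂₀ F) := fun a ha b hb s h0 h1 C hC => hC.2.1 a (ha C hC) b (hb C hC) s h0 h1
  have hKo : ∀ u ∈ S, s.Λ (u.1 * x * star u.2) ∈ ⋂₀ F := fun u hu C hC => hC.2.2 u hu
  obtain ⟨u₀, hu₀⟩ := hne
  obtain ⟨v, hv, h⟩ := exists_proj hKc hKv ⟨_, hKo u₀ hu₀⟩ 0
  have hball : s.Λ '' Metric.closedBall 0 1 ∈ F := by
    refine ⟨TrState.W.closed, ?_, fun u hu => ⟨_, ?_, rfl⟩⟩
    · have := s.cvxC_ball ⊤
      simpa [Metric.closedBall] using this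
    · rw [mem_closedBall_zero_iff, CStarRing.norm_mul_mem_unitary _ (Unitary.star_mem (hS u hu).2),
        CStarRing.norm_mem_unitary_mul _ (hS u hu).1]
      exact hx
  obtain ⟨y, -, rfl⟩ := hv _ hball
  refine ⟨y, fun u hu => ?_, ?_⟩
  · let T : s.L2 →L[ℂ] s.L2 := s.π u.1 * s.rmul (star u.2)
    have hT : ∀ a, T (s.Λ a) = s.Λ (u.1 * a * star u.2) := fun a => by simp [T, mul_assoc]
    have hpre : T ⁻¹' (⋂₀ F) ∈ F := by
      refine ⟨hKc.preimage T.continuous, hKv.preimage T, fun w hw => ?_⟩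
      rw [Set.mem_preimage, hT]
      have := hKo _ (hmul u hu w hw)
      simpa [mul_assoc] using this
    have hw : T (s.Λ y) ∈ ⋂₀ F := hv _ hpre
    have h1 := h _ hw
    rw [hT] at h1
    have h2 : ‖s.Λ (u.1 * y * star u.2)‖ = ‖s.Λ y‖ := by
      rw [s.norm_Λ, s.norm_Λ, s.n2_mul_unitary _ (Unitary.star_mem (hS u hu).2),
        s.n2_unitary_mul (hS u hu).1]
    have h3 : ‖s.Λ (u.1 * y * star u.2) - s.Λ y‖ ^ 2 ≤ 0 := by
      rw [@norm_sub_sq ℂ, h2, ← inner_re_symm]
      rw [zero_sub, inner_neg_left, inner_sub_right, Complex.neg_re, Complex.sub_re] at h1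
      have := @InnerProductSpace.norm_sq_eq_re_inner ℂ _ _ _ _ (s.Λ y)
      simp only [RCLike.re_to_complex] at this ⊢
      linarith
    rw [← map_sub, s.norm_Λ, hsub u hu] at h3
    exact s.eq_of_n2 (by nlinarith [s.n2_nonneg (u.1 * y - y * u.2)])
  · have := hv (Metric.closedBall (s.Λ x) r) ⟨Metric.isClosed_closedBall, cvxC_closedBall _ _,
      fun u hu => by rw [mem_closedBall_iff_norm, ← map_sub, s.norm_Λ, hsub u hu]; exact hr u hu⟩
    rwa [mem_closedBall_iff_norm, ← map_sub, s.norm_Λ] at this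

/-- A cut of the polar part of a non-zero element. -/
theorem dbl_polar (s : TrState B) [s.W] {x : B} (hx0 : x ≠ 0) :
    ∃ w, w ≠ 0 ∧ IsStarProjection (star w * w) ∧
      ∀ a c, a * x = x * c → star a * x = x * star c → a * w = w * c := by
  have hsa : IsSelfAdjoint (star x * x) := IsSelfAdjoint.star_mul_self x
  have hδ : 0 < ‖star x * x‖ / 2 := by
    rw [CStarRing.norm_star_mul_self]; have := norm_pos_iff.2 hx0; positivity
  set δ := ‖star x * x‖ / 2 with hδ'
  have hm : ∀ s : ℝ, 0 < max s δ := fun s => lt_max_of_lt_right hδ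
  let g : ℝ → ℝ := fun s => (√(max s δ))⁻¹
  have hg : Continuous g := Continuous.inv₀ (by fun_prop) fun s => (Real.sqrt_pos.2 (hm s)).ne'
  let k := cfc (fun s : ℝ => max (s - δ) 0) (star x * x)
  have hk0 : k ≠ 0 := by
    intro h0
    have h1 : ‖cfc (fun s : ℝ => s - max (s - δ) 0) (star x * x)‖ ≤ δ :=
      norm_cfc_le hδ.le fun s hs => by
        have := spec_nonneg x s hs
        rw [Real.norm_eq_abs, abs_le]
        constructor <;> rcases le_total (s - δ) 0 with h | h <;> simp [h] <;> linarith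
    rw [cfcC_sub _ continuous_id' (by fun_prop), cfc_id' ℝ _ hsa] at h1
    change ‖star x * x - k‖ ≤ δ at h1
    rw [h0, sub_zero] at h1
    linarith
  obtain ⟨e, he, hek, he'⟩ := s.exists_range k
  have h1 : cfc (fun s => g s * s * g s) (star x * x) * e = e := by
    have := he' (1 - cfc (fun s => g s * s * g s) (star x * x)) (by
      rw [← cfc_const_one ℝ _ hsa, ← cfcC_sub _ continuous_const (by fun_prop),
        ← cfcC_mul _ (by fun_prop) (by fun_prop), cfc_congr (g := fun _ => 0), cfc_const_zero]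
      intro s _
      rcases le_total s δ with h | h
      · simp [h]
      · have h2 : 0 < s := hδ.trans_le h
        have h3 : √s * √s = s := Real.mul_self_sqrt h2.le
        have h4 : 0 < √s := Real.sqrt_pos.2 h2
        simp only [g, max_eq_left h]
        rw [mul_eq_zero]; left
        field_simp
        linarith)
    rw [sub_mul, one_mul, sub_eq_zero] at this
    exact this.symm
  have h2 : star (x * cfc g (star x * x) * e) * (x * cfc g (star x * x) * e) = e := by
    rw [star_mul, he.isSelfAdjoint.star_eq, mul_assoc, ← mul_assoc (star _), star_mul_cfc x g g hg hg,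
      h1, he.isIdempotentElem.eq]
  have h3 : ∀ c, Commute k c → e * (c * e) = c * e := fun c hc => by
    have := he' ((1 - e) * c) (by
      rw [mul_assoc, ← hc.eq, ← mul_assoc, sub_mul, one_mul, hek, sub_self, zero_mul])
    rw [mul_assoc, sub_mul, one_mul, sub_eq_zero] at this
    exact this.symm
  refine ⟨x * cfc g (star x * x) * e, fun h0 => hk0 ?_, by rw [h2]; exact he, fun a c e1 e2 => ?_⟩
  · rw [h0, mul_zero] at h2
    rw [← hek, ← h2, zero_mul]
  have e3 : star x * a = c * star x := by simpa using congrArg star e2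
  have e4 : Commute (star x * x) c := by
    rw [Commute, SemiconjBy, mul_assoc, ← e1, ← mul_assoc, e3, mul_assoc]
  have e5 : Commute (star x * x) (star c) := by simpa [hsa.star_eq] using e4.star_star
  have e6 : e * c = c * e := by
    have := congrArg star (h3 _ (e5.cfc_real _))
    simp only [star_mul, star_star, he.isSelfAdjoint.star_eq] at this
    rw [← this, mul_assoc, h3 _ (e4.cfc_real _)]
  rw [← mul_assoc, ← mul_assoc, e1, mul_assoc x c, ← (e4.cfc_real g).eq, mul_assoc _ e, e6]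
  simp only [mul_assoc]

lemma dbl_n2_swap (s : TrState B) (x : B) : s.n2 (x * star x - 1) = s.n2 (star x * x - 1) := by
  rw [← sq_eq_sq₀ (s.n2_nonneg _) (s.n2_nonneg _), s.n2_sq, s.n2_sq]
  have h1 : s.τ (x * star x * (x * star x)) = s.τ (star x * x * (star x * x)) := by
    rw [← mul_assoc, s.trace]; simp only [mul_assoc]
  simp only [star_sub, star_mul, star_star, star_one, sub_mul, mul_sub, map_sub, one_mul, mul_one,
    h1, s.trace x (star x)]

lemma dbl_mul3 (s : TrState B) {a c : B} (ha : ‖a‖ ≤ 1) (hc : ‖c‖ ≤ 1) (x : B) :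
    s.n2 (a * x * c) ≤ s.n2 x := (s.n2_mul_le_of_le' _ hc).trans (s.n2_mul_le_of_le ha x)

lemma dbl_nmul {a c : B} (ha : ‖a‖ ≤ 1) (hc : ‖c‖ ≤ 1) : ‖a * c‖ ≤ 1 :=
  (norm_mul_le _ _).trans (mul_le_one₀ ha (norm_nonneg _) hc)

lemma dbl_cm (s : TrState B) {b b' y v : B} (hb : b ∈ unitary B) (hb' : b' ∈ unitary B)
    (hy : ‖y‖ ≤ 1) (hv : ‖v‖ ≤ 1) (h : b' * y = y * b') :
    s.cm b (v * y * star v) ≤ 2 * s.n2 (b * v - v * b') := by
  have hv' : ‖star v‖ ≤ 1 := by simpa using hv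
  have h1 : s.n2 (b' * star v - star v * b) = s.n2 (b * v - v * b') := by
    rw [← s.n2_star, ← s.n2_unitary_mul hb, ← s.n2_mul_unitary _ hb']
    congr 1
    simp only [star_sub, star_mul, star_star, mul_sub, sub_mul, mul_assoc,
      Unitary.star_mul_self_of_mem hb', mul_one]
    rw [← mul_assoc b (star b), Unitary.mul_star_self_of_mem hb, one_mul]
  have e : b * (v * y * star v) - v * y * star v * b =
      1 * (b * v - v * b') * (y * star v) + v * y * (b' * star v - star v * b) * 1 := by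
    have : v * (b' * (y * star v)) = v * (y * (b' * star v)) := by
      rw [← mul_assoc b', h, mul_assoc]
    simp only [mul_sub, sub_mul, mul_assoc, one_mul, mul_one, this]
    abel
  haveI := s.nontrivial
  have h2 := dbl_mul3 s (norm_one (α := B)).le (dbl_nmul hy hv') (b * v - v * b')
  have h3 := dbl_mul3 s (dbl_nmul hv hy) (norm_one (α := B)).le (b' * star v - star v * b)
  rw [TrState.cm, e]
  linarith [s.n2_add_le (1 * (b * v - v * b') * (y * star v))
    (v * y * (b' * star v - star v * b) * 1)]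

lemma dbl_est (s : TrState B) {v V y y' : B} (hv : ‖v‖ ≤ 1) (hV : ‖V‖ ≤ 1) (hy : ‖y‖ ≤ 1)
    (hy' : ‖y'‖ ≤ 1) : s.n2 (y' * (star V * v) - star V * v * y) ≤
      s.n2 (V * y' * star V - v * y * star v) + s.n2 (star V * V - 1) + s.n2 (star v * v - 1) := by
  have hV' : ‖star V‖ ≤ 1 := by simpa using hV
  haveI := s.nontrivial
  have e : y' * (star V * v) - star V * v * y =
      star V * (V * y' * star V - v * y * star v) * v - 1 * (star V * V - 1) * (y' * (star V * v)) +
        star V * v * y * (star v * v - 1) * 1 := by noncomm_ring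
  have h1 := dbl_mul3 s hV' hv (V * y' * star V - v * y * star v)
  have h2 := dbl_mul3 s (norm_one (α := B)).le (dbl_nmul hy' (dbl_nmul hV' hv)) (star V * V - 1)
  have h3 := dbl_mul3 s (dbl_nmul (dbl_nmul hV' hv) hy) (norm_one (α := B)).le (star v * v - 1)
  rw [e]
  refine (s.n2_add_le _ _).trans (add_le_add ((s.n2_sub_le _ _).trans ?_) h3)
  linarith

lemma dbl_low (s : TrState B) {v V : B} (hv : ‖v‖ ≤ 1) (hV : ‖V‖ ≤ 1) :
    1 - s.n2 (star V * V - 1) - s.n2 (star v * v - 1) ≤ s.n2 (star V * v) := by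
  have h1 := s.n2_mul_le_of_le hV (star V * v)
  have h2 := s.n2_mul_le_of_le' (V * star V - 1) hv
  have h3 := s.n2_mul_le_of_le (a := star v) (by simpa using hv) v
  have h4 := s.n2_sub_le (V * (star V * v)) ((V * star V - 1) * v)
  have h5 := s.n2_sub_le (star v * v) (star v * v - 1)
  rw [sub_sub_cancel, s.n2_one] at h5
  rw [show V * (star V * v) - (V * star V - 1) * v = v by noncomm_ring] at h4
  rw [dbl_n2_swap] at h2
  linarith

lemma dbl_star {b y : A} (hb : b ∈ unitary A) (h : Commute b y) : Commute b (star y) := by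
  have h1 : Commute (star b) y := by
    have h2 : star b * (b * y) * star b = star b * (y * b) * star b := by rw [h.eq]
    rw [← mul_assoc, Unitary.star_mul_self_of_mem hb, one_mul, mul_assoc, mul_assoc,
      Unitary.mul_star_self_of_mem hb, mul_one] at h2
    exact h2.symm
  simpa using h1.star_star

lemma dbl_unit {φ : A →⋆ₐ[ℂ] B} {u : A} (hu : u ∈ unitary A) : φ u ∈ unitary B :=
  ⟨by rw [← map_star, ← map_mul, hu.1, map_one], by rw [← map_star, ← map_mul, hu.2, map_one]⟩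

lemma dbl_prime [t.W] [s.W] (ι : A →⋆ₐ[ℂ] B) (hι : TP t s ι) (b : Fin 2 → A)
    (hb : ∀ i, b i ∈ unitary A)
    (hQ : ∀ z : A, (∀ i, Commute (b i) z) → (∀ y, (∀ i, Commute (b i) y) → Commute y z) →
      ∃ c : ℂ, z = c • 1)
    (H2 : ∀ z : B, (∀ y, (∀ i, Commute (b i) y) → Commute (ι y) z) → ∃ a, ι a = z)
    {e : A} (he : IsStarProjection e) (h0 : e ≠ 0)
    (heZ : ∀ y, (∀ i, Commute (b i) y) → Commute y e) {X : B} (hX : X ≠ 0) :
    ∃ u, (∀ y, (∀ i, Commute (b i) y) → Commute y u) ∧ ι e * ι u * X ≠ 0 := by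
  by_contra hne
  push Not at hne
  let Z : Set A := {u | u ∈ unitary A ∧ ∀ y, (∀ i, Commute (b i) y) → Commute y u}
  have hZ : ∀ u ∈ Z, ∀ y, (∀ i, Commute (b i) y) → Commute y (star u) := fun u hu y hy => by
    simpa using (hu.2 _ fun i => dbl_star (hb i) (hy i)).star_star
  obtain ⟨y, -, h1, h2⟩ := s.exists_avg (ι '' Z) (by rintro _ ⟨u, hu, rfl⟩; exact dbl_unit hu.1)
    (by
      rintro _ ⟨u, hu, rfl⟩ _ ⟨v, hv, rfl⟩
      exact ⟨u * v, ⟨mul_mem hu.1 hv.1, fun y hy => (hu.2 y hy).mul_right (hv.2 y hy)⟩,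
        map_mul _ _ _⟩)
    ⟨_, 1, ⟨one_mem _, fun y _ => Commute.one_right y⟩, rfl⟩ (hom_norm_le ι he.norm_le)
  have h3 : ∀ q, (∀ i, Commute (b i) q) → Commute (ι q) y := fun q hq => by
    have := h2 ((s.π (ι q) - s.rmul (ι q)) ⁻¹' {0}) (isClosed_singleton.preimage (by fun_prop))
      ((cvxC_singleton _).preimage _) (by
        rintro _ ⟨u, hu, rfl⟩
        have := (((hu.2 q hq).mul_right (heZ q hq)).mul_right (hZ u hu q hq)).map ι
        rw [map_mul, map_mul, map_star] at this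
        simp [this.eq])
    exact s.Λ_injective (by simpa [sub_eq_zero] using this)
  obtain ⟨a, rfl⟩ := H2 y h3
  obtain ⟨c, rfl⟩ := hQ a (fun i => hι.injective (by
    rw [map_mul, map_mul]
    exact h1 _ ⟨b i, ⟨hb i, fun y hy => (hy i).symm⟩, rfl⟩)) fun q hq =>
      hι.injective (by rw [map_mul, map_mul]; exact h3 q hq)
  have h4 := h2 ((innerSL ℂ (s.Λ 1)) ⁻¹' {s.τ (ι e)}) (isClosed_singleton.preimage (by fun_prop))
    ((cvxC_singleton _).preimage _) (by
      rintro _ ⟨u, hu, rfl⟩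
      simp [s.inner_Λ, s.τ_conj (dbl_unit hu.1)])
  have h5 : c = t.τ e := by simpa [s.inner_Λ, s.map_one, s.norm_Λ, hι e] using h4
  have h6 := h2 ((s.rmul X) ⁻¹' {0}) (isClosed_singleton.preimage (by fun_prop))
    ((cvxC_singleton _).preimage _) (by
      rintro _ ⟨u, hu, rfl⟩
      have := hne _ (hZ u hu)
      rw [map_star, mul_assoc] at this
      simp [mul_assoc, this])
  rw [Set.mem_preimage, s.rmul_Λ, Set.mem_singleton_iff, ← map_zero s.Λ] at h6
  have h7 := s.Λ_injective h6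
  rw [map_smul, map_one, smul_mul_assoc, one_mul, smul_eq_zero, h5, t.τ_sa he.isSelfAdjoint] at h7
  rcases h7 with h7 | h7
  · exact (t.tr_proj_pos he h0).ne' (by exact_mod_cast h7)
  · exact hX h7

lemma dbl_proj [t.W] {φ : A →⋆ₐ[ℂ] B} (h : TP t s φ) {p : A} (hp : IsStarProjection (φ p)) :
    IsStarProjection p :=
  ⟨h.injective (by rw [map_mul]; exact hp.isIdempotentElem.eq),
    h.injective (by rw [map_star]; exact hp.isSelfAdjoint.star_eq)⟩

/-- A non-zero intertwiner gives a unitary one. -/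
theorem dbl_unitary [t.W] [s.W] (ι : A →⋆ₐ[ℂ] B) (hι : TP t s ι) (β β' : B →⋆ₐ[ℂ] B)
    (hβ : TP s s β) (h1 : ∀ z, β (β' z) = z) (h2 : ∀ z, β' (β z) = z) (b : Fin 2 → A)
    (hb : ∀ i, b i ∈ unitary A)
    (hQ : ∀ z : A, (∀ i, Commute (b i) z) → (∀ y, (∀ i, Commute (b i) y) → Commute y z) →
      ∃ c : ℂ, z = c • 1)
    (H2 : ∀ z : B, (∀ y, (∀ i, Commute (b i) y) → Commute (ι y) z) → ∃ a, ι a = z)
    {x : B} (hx0 : x ≠ 0) (hx : ∀ y, (∀ i, Commute (b i) y) → ι y * x = x * β (ι y)) :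
    ∃ w ∈ unitary B, ∀ y, (∀ i, Commute (b i) y) → ι y * w = w * β (ι y) := by
  obtain ⟨v, ⟨hv, hvi⟩, hmax⟩ := s.exists_maximal
    {v | v * (star v * v) = v ∧ ∀ y, (∀ i, Commute (b i) y) → ι y * v = v * β (ι y)}
    (fun v hv => hv.1) (fun z a hz ha h => ⟨h, fun y hy => by
      have e1 := s.lim_mul_const (ι y) 1 ha
      have e2 := s.lim_mul_const 1 (β (ι y)) ha
      simp only [mul_one, one_mul, (hz _).2 y hy] at e1 e2
      exact s.eq_of_lim e1 e2⟩) (by simp)
  have hst : ∀ y, (∀ i, Commute (b i) y) → star v * ι y = β (ι y) * star v := fun y hy => by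
    simpa [map_star] using congrArg star (hvi _ fun i => dbl_star (hb i) (hy i))
  obtain ⟨p, hp⟩ := H2 (v * star v) fun y hy => by
    rw [Commute, SemiconjBy, ← mul_assoc, hvi y hy, mul_assoc, ← hst y hy, mul_assoc]
  obtain ⟨q, hq⟩ := H2 (β' (star v * v)) fun y hy => by
    have : Commute (β (ι y)) (star v * v) := by
      rw [Commute, SemiconjBy, ← mul_assoc, ← hst y hy, mul_assoc, hvi y hy, mul_assoc]
    simpa only [h2] using this.map β'
  have hq' : β (ι q) = star v * v := by rw [hq, h1]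
  have hpp : IsStarProjection p := dbl_proj hι (hp ▸ proj_of_pi' hv)
  have hqq : IsStarProjection q := dbl_proj (hβ.comp hι) (by
    rw [StarAlgHom.comp_apply, hq']; exact proj_of_pi hv)
  have hpZ : ∀ y, (∀ i, Commute (b i) y) → Commute y (1 - p) := fun y hy =>
    (Commute.one_right y).sub_right (hι.injective (by
      rw [map_mul, map_mul, hp, ← mul_assoc, hvi y hy, mul_assoc, ← hst y hy, mul_assoc]))
  have hqZ : ∀ y, (∀ i, Commute (b i) y) → Commute y (1 - q) := fun y hy =>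
    (Commute.one_right y).sub_right ((hβ.comp hι).injective (by
      simp only [map_mul, StarAlgHom.comp_apply]
      rw [hq', ← mul_assoc, ← hst y hy, mul_assoc, hvi y hy, mul_assoc]))
  have htr : t.tr (1 - p) = t.tr (1 - q) := by
    rw [t.tr_sub, t.tr_sub, TrState.tr, TrState.tr, TrState.tr, ← hι p, ← hι q, ← hβ (ι q), hp, hq',
      s.trace]
  by_cases hp0 : 1 - p = 0
  · have hq0 := t.proj_eq_zero hqq.one_sub (by rw [← htr, hp0, t.tr_zero])
    rw [sub_eq_zero] at hp0 hq0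
    exact ⟨v, ⟨by rw [← hq', ← hq0, map_one, map_one], by rw [← hp, ← hp0, map_one]⟩, hvi⟩
  have hq0 : 1 - q ≠ 0 := fun h =>
    hp0 (t.proj_eq_zero hpp.one_sub (by rw [htr, h, t.tr_zero]))
  obtain ⟨u, hu, hX⟩ := dbl_prime ι hι b hb hQ H2 hpp.one_sub hp0 hpZ hx0
  obtain ⟨u', hu', hX'⟩ := dbl_prime ι hι b hb hQ H2 hqq.one_sub hq0 hqZ
    (X := β' (star (ι (1 - p) * ι u * x))) fun h => hX (by
      simpa only [h1, map_zero, star_eq_zero] using congrArg β h)
  have hu'' : ∀ y, (∀ i, Commute (b i) y) → Commute y (star u') := fun y hy => by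
    simpa using (hu' _ fun i => dbl_star (hb i) (hy i)).star_star
  have hz0 : ι ((1 - p) * u) * x * β (ι (star u' * (1 - q))) ≠ 0 := fun h => hX' (by
    have := congrArg (fun z => β' (star z)) h
    simp only [star_mul (ι _ * x), map_mul β', ← map_star β, ← map_star ι, h2, star_zero,
      map_zero] at this
    rw [star_mul (star u'), star_star, hqq.one_sub.isSelfAdjoint.star_eq, map_mul ι,
      map_mul ι] at this
    exact this)
  set z := ι ((1 - p) * u) * x * β (ι (star u' * (1 - q))) with hz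
  have hzi : ∀ y, (∀ i, Commute (b i) y) → ι y * z = z * β (ι y) := fun y hy => by
    have e1 := (((hpZ y hy).mul_right (hu y hy)).map ι).eq
    have e2 := ((((hu'' y hy).mul_right (hqZ y hy)).map ι).map β).eq
    rw [hz, ← mul_assoc, ← mul_assoc, e1, mul_assoc (ι _), hx y hy, mul_assoc, mul_assoc, e2]
    simp only [mul_assoc]
  have hz1 : ι (1 - p) * z = z := by
    rw [hz, ← mul_assoc, ← mul_assoc, ← map_mul, ← mul_assoc, hpp.one_sub.isIdempotentElem.eq]
  have hz2 : z * β (ι (1 - q)) = z := by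
    rw [hz, mul_assoc, ← map_mul, ← map_mul, mul_assoc (star u'), hqq.one_sub.isIdempotentElem.eq]
  obtain ⟨w, hw0, hw, hw'⟩ := dbl_polar s hz0
  have hw1 := hw' (ι (1 - p)) 1 (by rw [hz1, mul_one]) (by
    rw [← map_star, hpp.one_sub.isSelfAdjoint.star_eq, hz1, star_one, mul_one])
  have hw2 := hw' 1 (β (ι (1 - q))) (by rw [hz2, one_mul]) (by
    rw [← map_star β, ← map_star ι, hqq.one_sub.isSelfAdjoint.star_eq, hz2, star_one, one_mul])
  rw [map_sub, map_one, hp, mul_one] at hw1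
  rw [map_sub, map_sub, map_one, map_one, hq', one_mul] at hw2
  have hsv : star v * (v * star v) = star v := by simpa [mul_assoc] using congrArg star hv
  have e1 : star v * w = 0 := by
    rw [← hw1, ← mul_assoc, mul_sub, mul_one, hsv, sub_self, zero_mul]
  have e2 : w * star v = 0 := by
    rw [hw2, mul_assoc, sub_mul, one_mul, mul_assoc, hsv, sub_self, mul_zero]
  have e1' : star w * v = 0 := by simpa using congrArg star e1
  have e2' : v * star w = 0 := by simpa using congrArg star e2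
  refine absurd (hmax w ⟨?_, fun y hy => ?_⟩ e1 e2) hw0
  · rw [star_add, add_mul (star v), mul_add (star v), mul_add (star w), e1, e1', add_zero, zero_add,
      add_mul, mul_add, mul_add, hv, pi_mul_of_proj hw, ← mul_assoc, ← mul_assoc, e2, e2']
    simp
  · rw [mul_add, add_mul, hvi y hy, hw' _ _ (hzi y hy) (by
      rw [← map_star β, ← map_star ι]; exact hzi _ fun i => dbl_star (hb i) (hy i))]

/-- The doubling step. -/
theorem doubling [t.W] [s.W] (ι : A →⋆ₐ[ℂ] B) (hι : TP t s ι) (α α' γ : B →⋆ₐ[ℂ] B)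
    (hα : TP s s α) (hγ : TP s s γ) (h1 : ∀ z, α (α' z) = z) (h2 : ∀ z, α' (α z) = z)
    (h3 : ∀ a, γ (ι a) = ι a) (h4 : ∀ a, γ (α (ι a)) = α' (ι a)) (b : Fin 2 → A)
    (hb : ∀ i, b i ∈ unitary A)
    (hQ : ∀ z : A, (∀ i, Commute (b i) z) → (∀ y, (∀ i, Commute (b i) y) → Commute y z) →
      ∃ c : ℂ, z = c • 1) {C δ : ℝ} (hC : 0 ≤ C)
    (H1 : ∀ z : B, ‖z‖ ≤ 1 → ∃ a, s.n2 (z - ι a) ≤ C * ∑ i, s.cm (ι (b i)) z)
    (H2 : ∀ z : B, (∀ y, (∀ i, Commute (b i) y) → Commute (ι y) z) → ∃ a, ι a = z)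
    (hδ : (4 * C + 4) * δ < 1) {v : B} (hv : ‖v‖ ≤ 1)
    (h : s.n2 (star v * v - 1) + ∑ i, s.n2 (ι (b i) * v - v * α (ι (b i))) ≤ δ) :
    ∃ w ∈ unitary B, ∀ y, (∀ i, Commute (b i) y) → ι y * w = w * α (α (ι y)) := by
  have hV : ‖γ v‖ ≤ 1 := hom_norm_le γ hv
  have hd : 0 ≤ ∑ i, s.n2 (ι (b i) * v - v * α (ι (b i))) :=
    Finset.sum_nonneg fun _ _ => s.n2_nonneg _
  have hη := s.n2_nonneg (star v * v - 1)
  have hη' : s.n2 (star (γ v) * γ v - 1) = s.n2 (star v * v - 1) := by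
    rw [← hγ.n2 (star v * v - 1), map_sub, map_mul, map_star, map_one]
  have hw : ‖α (star (γ v) * v)‖ ≤ 1 := hom_norm_le α (dbl_nmul (by simpa using hV) hv)
  have est : ∀ y ∈ unitary A, (∀ i, Commute (b i) y) →
      s.n2 (ι y * α (star (γ v) * v) - α (star (γ v) * v) * α (α (ι y))) ≤ (4 * C + 2) * δ := by
    intro y hy hyb
    have n1 : ‖ι y‖ ≤ 1 := norm_unitary_le (dbl_unit hy)
    have n2 : ‖α (ι y)‖ ≤ 1 := hom_norm_le α n1
    obtain ⟨a, ha⟩ := H1 (v * α (ι y) * star v) (dbl_nmul (dbl_nmul hv n2) (by simpa using hv))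
    have e1 : ∑ i, s.cm (ι (b i)) (v * α (ι y) * star v) ≤
        2 * ∑ i, s.n2 (ι (b i) * v - v * α (ι (b i))) := by
      rw [Finset.mul_sum]
      exact Finset.sum_le_sum fun i _ => dbl_cm s (dbl_unit (hb i)) (dbl_unit (dbl_unit (hb i)))
        n2 hv (((hyb i).map ι).map α).eq
    have e2 := hγ.n2 (v * α (ι y) * star v - ι a)
    rw [map_sub, h3, map_mul, map_mul, map_star, h4] at e2
    have e3 := s.n2_triangle (γ v * α' (ι y) * star (γ v)) (ι a) (v * α (ι y) * star v)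
    rw [s.n2_sub_comm (ι a)] at e3
    have e4 := dbl_est s hv hV n2 (hom_norm_le α' n1)
    rw [← hα.n2, map_sub, map_mul, map_mul α (star (γ v) * v), h1] at e4
    nlinarith [mul_le_mul_of_nonneg_left e1 hC, mul_nonneg hC hη]
  obtain ⟨x, hx, hx'⟩ := dbl_avg s
    {u | ∃ y ∈ unitary A, (∀ i, Commute (b i) y) ∧ u = (ι y, α (α (ι y)))}
    (by rintro _ ⟨y, hy, -, rfl⟩; exact ⟨dbl_unit hy, dbl_unit (dbl_unit (dbl_unit hy))⟩)
    (by
      rintro _ ⟨y, hy, hy', rfl⟩ _ ⟨z, hz, hz', rfl⟩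
      exact ⟨y * z, mul_mem hy hz, fun i => (hy' i).mul_right (hz' i), by simp⟩)
    ⟨_, 1, one_mem _, fun i => Commute.one_right _, rfl⟩ hw
    (by rintro _ ⟨y, hy, hy', rfl⟩; exact est y hy hy')
  have hx0 : x ≠ 0 := by
    rintro rfl
    have := dbl_low s hv hV
    rw [zero_sub, s.n2_neg, hα.n2] at hx'
    nlinarith
  refine dbl_unitary ι hι (α.comp α) (α'.comp α') (hα.comp hα) (fun z => by simp [h1])
    (fun z => by simp [h2]) b hb hQ H2 hx0 fun y hy => ?_
  have hy' : y ∈ StarSubalgebra.centralizer ℂ (Set.range b) := by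
    rw [StarSubalgebra.mem_centralizer_iff]
    rintro _ ⟨i, rfl⟩
    exact ⟨hy i, by simpa using (dbl_star (hb i) (hy i)).star_star.eq⟩
  obtain ⟨u, c, e, -⟩ := CStarAlgebra.exists_sum_four_unitary
    (⟨y, hy'⟩ : StarSubalgebra.centralizer ℂ (Set.range b))
  have e' : y = ∑ i, c i • ((u i).1.1 : A) := by simpa using congrArg Subtype.val e
  rw [e']
  simp only [map_sum, map_smul, Finset.sum_mul, Finset.mul_sum, smul_mul_assoc, mul_smul_comm]
  refine Finset.sum_congr rfl fun i _ => congrArg _ (hx (_, _) ⟨(u i).1.1, ?_, fun j => ?_, rfl⟩)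
  · exact dbl_unit (φ := (StarSubalgebra.centralizer ℂ (Set.range b)).subtype) (u i).2
  · exact (((StarSubalgebra.mem_centralizer_iff ℂ).1 (u i).1.2) _ ⟨j, rfl⟩).1

end Pool.Agent.P.MP_a6af55_an
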