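import Pool.Agent.P.MP_a6af55_an.SMPauli

namespace Pool.Agent.P.MP_a6af55_an

open Pool.Agent.Lib.Tracial
open scoped ComplexOrder InnerProductSpace ComplexConjugate Pointwise
open Filter Topology

/-- Extension by zero. -/
noncomputable def ex0 (J : Finset Site) : (J → ZMod 2) →+ (Site →₀ ZMod 2) where
  toFun a := ∑ i : J, Finsupp.single (i : Site) (a i)
  map_zero' := by simp
  map_add' a b := by simp [Finset.sum_add_distrib]

lemma ex0_mem {J : Finset Site} (a : J → ZMod 2) (i : J) : ex0 J a i = a i := by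
  classical
  simp [ex0, Finsupp.finsetSum_apply, Finsupp.single_apply]

lemma ex0_not {J : Finset Site} (a : J → ZMod 2) {i : Site} (hi : i ∉ J) : ex0 J a i = 0 := by
  refine (Finsupp.finsetSum_apply _ _ _).trans (Finset.sum_eq_zero fun j _ => ?_)
  exact Finsupp.single_eq_of_ne fun e => hi (by rw [e]; exact j.2)

lemma ex0_eq {J : Finset Site} {f : Site →₀ ZMod 2} (hf : ∀ i ∉ J, f i = 0) :
    ex0 J (fun i => f i) = f := Finsupp.ext fun i => by
  by_cases hi : i ∈ J
  · exact ex0_mem _ ⟨i, hi⟩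
  · rw [ex0_not _ hi, hf i hi]

lemma ex0_single {J : Finset Site} (i : J) : ex0 J (Pi.single i 1) = Finsupp.single i.1 1 := by
  classical
  ext j
  by_cases hj : j ∈ J
  · rw [show j = (⟨j, hj⟩ : J) from rfl, ex0_mem]
    simp [Pi.single_apply, Finsupp.single_apply, Subtype.ext_iff, eq_comm]
  · rw [ex0_not _ hj, Finsupp.single_eq_of_ne fun e => hj (by rw [e]; exact i.2)]

/-- The sign character. -/
noncomputable def ch (J : Finset Site) (b a : J → ZMod 2) : ℂ :=
  ((sgn2 (Multiplicative.ofAdd (dot (ex0 J b) (ex0 J a))) : ℤ) : ℂ)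

lemma ch_add {J : Finset Site} (b a a' : J → ZMod 2) : ch J b (a + a') = ch J b a * ch J b a' := by
  simp [ch, dot_add_right]

lemma ch_comm {J : Finset Site} (b a : J → ZMod 2) : ch J b a = ch J a b := by
  rw [ch, dot_comm, ch]

lemma ch_zero {J : Finset Site} (a : J → ZMod 2) : ch J 0 a = 1 := by simp [ch]

lemma exists_ch {J : Finset Site} {a : J → ZMod 2} (ha : a ≠ 0) : ∃ b, ch J b a = -1 := by
  obtain ⟨i, hi⟩ := Function.ne_iff.1 ha
  have h1 : ∀ x : ZMod 2, x ≠ 0 → sgn2 (Multiplicative.ofAdd x) = -1 := by decide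
  refine ⟨Pi.single i 1, ?_⟩
  rw [ch, ex0_single, dot_single_left, one_mul, ex0_mem, h1 _ hi]
  simp

lemma sum_ch {J : Finset Site} {b : J → ZMod 2} (hb : b ≠ 0) : ∑ a, ch J b a = 0 := by
  obtain ⟨c, hc⟩ := exists_ch hb
  have h := Equiv.sum_comp (Equiv.addRight c) (ch J b)
  simp only [Equiv.coe_addRight, ch_add, ch_comm b c, hc, mul_neg, mul_one,
    Finset.sum_neg_distrib] at h
  linear_combination (-1 / 2 : ℂ) * h

variable {X : Type*} [Group X] {A : Type*} [CStarAlgebra A] {t : TrState A}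

namespace TwAlg

variable (L : TwAlg (εP X) t) [t.W]

lemma In.eq_sum {Γ : Type*} [Group Γ] {ε : Γ →* Γ →* ℤˣ} {L : TwAlg ε t} {x : A} {F : Finset Γ}
    (h : L.In x F) : x = ∑ g ∈ F, L.c x g • L.u g := L.ext_c fun k => by
  classical
  rw [c, c, Finset.mul_sum, map_sum]
  simp only [mul_smul_comm, map_smul, L.τ_star_mul, smul_eq_mul, mul_ite, mul_one, mul_zero,
    Finset.sum_ite_eq]
  split_ifs with hk
  · rfl
  · exact h k hk

/-- Pauli unitaries on a finite set of sites. -/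
noncomputable def pw (J : Finset Site) (a b : J → ZMod 2) : A :=
  L.u (1, Multiplicative.ofAdd (ex0 J a, ex0 J b))

omit [t.W] in
lemma pw_mul {J : Finset Site} (a b a' b' : J → ZMod 2) :
    L.pw J a b * L.pw J a' b' = ch J b a' • L.pw J (a + a') (b + b') := by
  simp only [pw, L.u_mul, map_add, Prod.mk_mul_mk, mul_one, ← ofAdd_add, Prod.mk_add_mk]
  rfl

omit [t.W] in
lemma pw_zero (J : Finset Site) : L.pw J 0 0 = 1 := by
  simp only [pw, map_zero]
  exact L.u_one

omit [t.W] in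
lemma star_pw {J : Finset Site} {a b : J → ZMod 2} (h : ch J b a = 1) :
    star (L.pw J a b) = L.pw J a b := by
  have h2 : ∀ c : J → ZMod 2, c + c = 0 := fun c => funext fun i => CharTwo.add_self_eq_zero _
  have h1 := L.pw_mul a b a b
  rw [h, h2, h2, pw_zero, one_smul] at h1
  calc _ = star (L.pw J a b) * (L.pw J a b * L.pw J a b) := by rw [h1, mul_one]
    _ = _ := by rw [← mul_assoc, pw, (L.unit _).1, one_mul]

omit [t.W] in
lemma pw_in {J : Finset Site} (a b : J → ZMod 2) :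
    L.pw J a b ∈ L.alg ((⊥ : Subgroup X).prod (SJ J)) :=
  L.in_u (Subgroup.mem_prod.2 ⟨one_mem _, fun _ hi => ⟨ex0_not a hi, ex0_not b hi⟩⟩)

/-- Finitely many sites give a full matrix algebra. -/
theorem exists_pauli (J : Finset Site) (n : Type*) [Fintype n] [DecidableEq n]
    (hn : Fintype.card n = 2 ^ J.card) : ∃ φ : Matrix n n ℂ →⋆ₐ[ℂ] A,
      (∀ M, L.In (φ M) ((⊥ : Subgroup X).prod (SJ J))) ∧
      ∀ x, L.In x ((⊥ : Subgroup X).prod (SJ J)) → ∃ M, φ M = x := by
  classical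
  have h2 : ∀ c : J → ZMod 2, c + c = 0 := fun c => funext fun i => CharTwo.add_self_eq_zero _
  have hN : (Fintype.card (J → ZMod 2) : ℂ) ≠ 0 := by simp
  have c0 : ∀ b : J → ZMod 2, ch J b 0 = 1 := fun b => by rw [ch_comm, ch_zero]
  let e : n ≃ (J → ZMod 2) := Fintype.equivOfCardEq (by simp [hn])
  obtain ⟨p, hp⟩ : ∃ p, p = (Fintype.card (J → ZMod 2) : ℂ)⁻¹ • ∑ b, L.pw J 0 b := ⟨_, rfl⟩
  have sp : star p = p := by
    rw [hp, star_smul, star_sum]
    simp [L.star_pw (c0 _)]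
  have zp : ∀ b, L.pw J 0 b * p = p := fun b => by
    rw [hp, mul_smul_comm, Finset.mul_sum]
    simp only [pw_mul, c0, one_smul, add_zero]
    rw [← Equiv.sum_comp (Equiv.addLeft b) (L.pw J 0)]
    rfl
  have pz : ∀ b, p * L.pw J 0 b = p := fun b => by
    have := congrArg star (zp b)
    rwa [star_mul, sp, L.star_pw (c0 _)] at this
  have pp : p * p = p := by
    nth_rw 1 [hp]
    rw [smul_mul_assoc, Finset.sum_mul]
    simp only [zp, Finset.sum_const, Finset.card_univ, ← Nat.cast_smul_eq_nsmul ℂ, smul_smul,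
      inv_mul_cancel₀ hN, one_smul]
  have zx : ∀ a b, L.pw J 0 b * L.pw J a 0 = ch J b a • (L.pw J a 0 * L.pw J 0 b) := fun a b => by
    simp [pw_mul, ch_zero]
  have xx : ∀ a a', L.pw J a 0 * L.pw J a' 0 = L.pw J (a + a') 0 := fun a a' => by
    simp [pw_mul, ch_zero]
  have sv : ∀ a, star (L.pw J a 0 * p) = p * L.pw J a 0 := fun a => by
    rw [star_mul, sp, L.star_pw (ch_zero _)]
  have hv : ∀ i j, star (L.pw J (e i) 0 * p) * (L.pw J (e j) 0 * p) = if i = j then p else 0 := by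
    intro i j
    rw [sv, mul_assoc, ← mul_assoc (L.pw J _ 0), xx]
    split_ifs with h
    · rw [h, h2, pw_zero, one_mul, pp]
    · obtain ⟨b, hb⟩ := exists_ch (a := e i + e j) fun h0 => h (e.injective (by
        rw [← add_zero (e i), ← h2 (e j), ← add_assoc, h0, zero_add]))
      have h3 : p * (L.pw J (e i + e j) 0 * p) = -(p * (L.pw J (e i + e j) 0 * p)) := by
        calc _ = p * L.pw J 0 b * (L.pw J (e i + e j) 0 * p) := by rw [pz]
          _ = _ := by
            rw [mul_assoc, ← mul_assoc (L.pw J 0 b), zx, hb, smul_mul_assoc, mul_assoc, zp]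
            simp
      have h4 : (2 : ℂ) • (p * (L.pw J (e i + e j) 0 * p)) = 0 := by
        rw [two_smul]; exact add_eq_zero_iff_eq_neg.2 h3
      exact (smul_eq_zero.1 h4).resolve_left two_ne_zero
  have h1' : ∑ a, L.pw J a 0 * p * star (L.pw J a 0 * p) = 1 := by
    have : ∀ a, L.pw J a 0 * p * star (L.pw J a 0 * p) =
        (Fintype.card (J → ZMod 2) : ℂ)⁻¹ • ∑ b, ch J b a • L.pw J 0 b := fun a => by
      rw [sv, mul_assoc, ← mul_assoc p, pp, hp, smul_mul_assoc, mul_smul_comm, Finset.sum_mul,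
        Finset.mul_sum]
      simp [pw_mul, ch_zero, h2]
    simp only [this]
    rw [← Finset.smul_sum, Finset.sum_comm]
    simp only [← Finset.sum_smul]
    rw [Finset.sum_eq_single 0 (fun b _ hb => by rw [sum_ch hb, zero_smul]) (by simp)]
    simp only [ch_zero, Finset.sum_const, Finset.card_univ, nsmul_eq_mul, mul_one, smul_smul,
      inv_mul_cancel₀ hN, one_smul, pw_zero]
  have h1 : ∑ i, L.pw J (e i) 0 * p * star (L.pw J (e i) 0 * p) = 1 :=
    (e.sum_comp fun a => L.pw J a 0 * p * star (L.pw J a 0 * p)).trans h1'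
  let φ := unitsHom (v := fun i => L.pw J (e i) 0 * p) ⟨pp, sp⟩ hv h1
  have hφ : ∀ M, φ M = ∑ i, ∑ j, M i j • (L.pw J (e i) 0 * p * star (L.pw J (e j) 0 * p)) :=
    fun _ => rfl
  refine ⟨φ, fun M => ?_, fun x hx => ?_⟩
  · have hpm : p ∈ L.alg ((⊥ : Subgroup X).prod (SJ J)) :=
      hp ▸ SMulMemClass.smul_mem _ (sum_mem fun b _ => L.pw_in 0 b)
    rw [← mem_alg, hφ]
    exact sum_mem fun i _ => sum_mem fun j _ => SMulMemClass.smul_mem _
      (mul_mem (mul_mem (L.pw_in _ _) hpm) (star_mem (mul_mem (L.pw_in _ _) hpm)))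
  have hu : ∀ a a', L.pw J a 0 * p * star (L.pw J a' 0 * p) ∈ φ.range := fun a a' =>
    ⟨Matrix.single (e.symm a) (e.symm a') 1, by
      change φ _ = _
      simp [hφ, Matrix.single_apply, ite_and]⟩
  have hw : ∀ a b, L.pw J a b ∈ φ.range := fun a b => by
    rw [← mul_one (L.pw J a b), ← h1', Finset.mul_sum]
    refine sum_mem fun c _ => ?_
    have : L.pw J a b * L.pw J c 0 = ch J b c • (L.pw J (a + c) 0 * L.pw J 0 b) := by
      simp [pw_mul, ch_zero]
    rw [← mul_assoc, ← mul_assoc, this, smul_mul_assoc, smul_mul_assoc, mul_assoc _ _ p, zp]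
    exact SMulMemClass.smul_mem _ (hu _ _)
  have hx' : L.In x (Finset.univ.image fun q : (J → ZMod 2) × (J → ZMod 2) =>
      ((1, Multiplicative.ofAdd (ex0 J q.1, ex0 J q.2)) : X × SG) : Finset _) := by
    refine hx.mono ?_
    rintro ⟨g, s⟩ ⟨hg, hs⟩
    obtain rfl : g = 1 := hg
    refine Finset.mem_coe.2 (Finset.mem_image.2 ⟨(fun i => s.toAdd.1 i, fun i => s.toAdd.2 i),
      Finset.mem_univ _, ?_⟩)
    rw [ex0_eq fun i hi => (hs i hi).1, ex0_eq fun i hi => (hs i hi).2]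
    rfl
  have : x ∈ φ.range := by
    rw [hx'.eq_sum]
    refine sum_mem fun g hg => SMulMemClass.smul_mem _ ?_
    obtain ⟨q, -, rfl⟩ := Finset.mem_image.1 hg
    exact hw _ _
  exact this

omit [t.W] L in
lemma exists_central {n : ℕ} [NeZero n] (φ : Matrix (Pl n) (Pl n) ℂ →⋆ₐ[ℂ] A) :
    ∃ m : Fin 6 → Matrix (Pl n) (Pl n) ℂ, (∀ j, ‖φ (m j)‖ ≤ 1) ∧ ∀ z, ∃ z₀,
      (∀ M, φ M * z₀ = z₀ * φ M) ∧ t.n2 (z - z₀) ≤ 34 * ∑ j, t.cm (φ (m j)) z := by
  have hX : ∀ v, φ (mX v) ∈ unitary A := fun v => map_unitary φ (pm_unitary (Equiv.addRight v))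
  have hZ := fun v : Pl n => map_unitary φ (mZ_unitary v)
  have hP := fun σ : Pl n ≃ Pl n => map_unitary φ (pm_unitary σ)
  refine ⟨![mX (1, 0), mX (0, 1), mZ (1, 0), mZ (0, 1), pm shear₁, pm shear₂], fun j => ?_,
    fun z => ?_⟩
  · fin_cases j
    exacts [norm_unitary_le (hX _), norm_unitary_le (hX _), norm_unitary_le (hZ _),
      norm_unitary_le (hZ _), norm_unitary_le (hP _), norm_unitary_le (hP _)]
  have hXa : ∀ v v' : Pl n, φ (mX (v + v')) = φ (mX v) * φ (mX v') := by simp [mX_add]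
  have hZa : ∀ v v' : Pl n, φ (mZ (v + v')) = φ (mZ v) * φ (mZ v') := by simp [mZ_add]
  have g1 := t.gap_alg (fun v => φ (mX v)) hX (by
      rw [← map_one φ]; congr 1; ext i j; simp [mX, pm, Matrix.one_apply]) hXa
    (hP shear₂.symm) (hP shear₁.symm)
    (fun v => by
      rw [← map_mul, ← map_mul]; congr 1; ext i j
      simp only [mX, mul_pm]; simp [pm, shear₂, Prod.ext_iff]; grind)
    (fun v => by
      rw [← map_mul, ← map_mul]; congr 1; ext i j
      simp only [mX, mul_pm]; simp [pm, shear₁, Prod.ext_iff]; grind) z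
  have g2 := t.gap_alg (fun v => φ (mZ v)) hZ (by
      rw [← map_one φ]; congr 1; ext i j; simp [mZ, Matrix.one_apply, Matrix.diagonal_apply]) hZa
    (hP shear₁) (hP shear₂)
    (fun v => by
      rw [← map_mul, ← map_mul]; congr 1; ext i j
      simp only [mZ, Matrix.mul_diagonal, Matrix.diagonal_mul, pm, Matrix.of_apply]
      split_ifs with h
      · simp only [h, chi, shear₁, shear₂]; simp; congr 1; ring
      · simp)
    (fun v => by
      rw [← map_mul, ← map_mul]; congr 1; ext i j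
      simp only [mZ, Matrix.mul_diagonal, Matrix.diagonal_mul, pm, Matrix.of_apply]
      split_ifs with h
      · simp only [h, chi, shear₁, shear₂]; simp; congr 1; ring
      · simp) z
  rw [← star_pm, ← star_pm, map_star, map_star, t.cm_star_unitary (hP _),
    t.cm_star_unitary (hP _)] at g1
  set z₀ := avg (fun v => φ (mX v)) (avg (fun v => φ (mZ v)) z) with hz₀
  have c0 : ∀ M, φ M * z₀ = z₀ * φ M := comm_of_XZ φ (fun v => comm_avg hX hXa v _) fun b => by
    rw [hz₀, avg_apply, mul_smul_comm, smul_mul_assoc, Finset.mul_sum, Finset.sum_mul]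
    congr 1
    refine Finset.sum_congr rfl fun v _ => ?_
    have h1 : φ (mZ b) * φ (mX v) = chi b v • (φ (mX v) * φ (mZ b)) := by
      rw [← map_mul, mZ_mul_mX, map_smul, map_mul]
    have h2 : star (φ (mX v)) * φ (mZ b) = chi b v • (φ (mZ b) * star (φ (mX v))) := by
      calc _ = star (φ (mX v)) * (φ (mZ b) * φ (mX v)) * star (φ (mX v)) := by
            rw [mul_assoc, mul_assoc, (hX v).2, mul_one]
        _ = _ := by
            rw [h1, mul_smul_comm, ← mul_assoc, (hX v).1, one_mul, smul_mul_assoc]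
    rw [mul_assoc _ _ (φ (mZ b)), h2, ← mul_assoc, ← mul_assoc, h1, smul_mul_assoc, smul_mul_assoc,
      mul_smul_comm, mul_assoc (φ (mX v)), comm_avg hZ hZa]
    simp only [mul_assoc]
  have g3 : t.n2 (z - z₀) ≤ t.n2 (z - avg (fun v => φ (mX v)) z) +
      t.n2 (z - avg (fun v => φ (mZ v)) z) := by
    refine (t.n2_triangle _ _ _).trans (add_le_add le_rfl ?_)
    rw [hz₀, ← map_sub]
    exact t.n2_avg_le hX _
  refine ⟨z₀, c0, ?_⟩
  simp only [Fin.sum_univ_succ, Matrix.cons_val_zero, Matrix.cons_val_succ, Finset.univ_eq_empty,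
    Finset.sum_empty, add_zero]
  linarith [t.cm_nonneg (φ (mX (1, 0))) z, t.cm_nonneg (φ (mX (0, 1))) z,
    t.cm_nonneg (φ (mZ (1, 0))) z, t.cm_nonneg (φ (mZ (0, 1))) z, t.cm_nonneg (φ (pm shear₁)) z,
    t.cm_nonneg (φ (pm shear₂)) z]

/-- Uniform test elements. -/
theorem exists_tests (a b : ℕ) : ∃ y : Fin 6 → A,
    (∀ j, ‖y j‖ ≤ 1 ∧ L.In (y j) ((⊥ : Subgroup X).prod (SJ (mid a b)))) ∧
      ∀ z, L.m z ((⊤ : Subgroup X).prod (SJ (mid a b : Set Site)ᶜ) : Set (X × SG))ᶜ ≤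
        34 * ∑ j, t.cm (y j) z := by
  obtain ⟨φ, h1, h2⟩ := L.exists_pauli (mid a b) (Pl (2 ^ (b - a))) (by
    rw [Fintype.card_prod, ZMod.card, card_mid, two_mul, pow_add])
  obtain ⟨m, h3, h4⟩ := exists_central (t := t) φ
  refine ⟨fun j => φ (m j), fun j => ⟨h3 j, h1 _⟩, fun z => ?_⟩
  obtain ⟨z₀, h5, h6⟩ := h4 z
  have h7 := L.in_iff_m.1 (L.in_of_comm (J := mid a b) (x := z₀) fun s hs => by
    obtain ⟨M, hM⟩ := h2 _ (L.in_u (h := (1, s)) (Subgroup.mem_prod.2 ⟨one_mem _, hs⟩))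
    rw [← hM, h5])
  refine (L.m_le_add z z₀ _).trans ?_
  rw [h7, zero_add]
  exact h6

end TwAlg

end Pool.Agent.P.MP_a6af55_an
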