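import Pool.Agent.P.MP_a6af55_an.RF

namespace Pool.Agent.P.MP_a6af55_an

open scoped Classical

variable {L0 : Type} (Γ0 : SimpleGraph L0)

/-- A graph with countably many isolated vertices added. -/
def HG : SimpleGraph (L0 ⊕ ℕ) := Γ0 ⊕g ⊥

/-- The free product with a free group. -/
abbrev HH : Type := RG (HG Γ0)

/-- The free generators. -/
def tj (j : ℕ) : HH Γ0 := gen (HG Γ0) (Sum.inr j)

/-- The subgroup with finitely many free generators. -/
def Hm (m : ℕ) : Subgroup (HH Γ0) := sub (HG Γ0) {l | ∀ j, l = Sum.inr j → j < m}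

/-- A free subgroup of rank two. -/
def Fm (m : ℕ) : Subgroup (HH Γ0) := sub (HG Γ0) {Sum.inr m, Sum.inr (m + 1)}

/-- The free product of countably many groups of order two. -/
abbrev WG : Type :=
  PresentedGroup (Set.range fun j : ℕ => FreeGroup.of j * FreeGroup.of j)

/-- The extended group. -/
abbrev HT : Type := Monoid.Coprod (HH Γ0) WG

/-- The inclusion. -/
abbrev ιH : HH Γ0 →* HT Γ0 := Monoid.Coprod.inl

/-- The involutions. -/
def sj (j : ℕ) : HT Γ0 := Monoid.Coprod.inr (PresentedGroup.of j)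

variable {Γ0}

lemma not_adj_inr (l : L0 ⊕ ℕ) (j : ℕ) : ¬ (HG Γ0).Adj l (Sum.inr j) := by
  cases l <;> simp [HG]

lemma sj_mul_self (j : ℕ) : sj Γ0 j * sj Γ0 j = 1 := by
  rw [sj, ← map_mul]
  exact (congrArg _ (PresentedGroup.one_of_mem (rels := Set.range fun j : ℕ =>
    FreeGroup.of j * FreeGroup.of j) ⟨j, rfl⟩)).trans (map_one _)

lemma sj_inv (j : ℕ) : (sj Γ0 j)⁻¹ = sj Γ0 j := inv_eq_of_mul_eq_one_right (sj_mul_self j)

section lift

variable {Λ : Type*} [Group Λ]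

/-- Changing a homomorphism on the free generators. -/
def liftH (f : HH Γ0 →* Λ) (r : ℕ → Λ) : HH Γ0 →* Λ :=
  rlift (Sum.elim (fun l => f (gen _ (Sum.inl l))) r) fun a b h => by
    rcases a with a | a
    · rcases b with b | b
      · exact (gen_comm h).map f
      · exact (not_adj_inr _ _ h).elim
    · exact (not_adj_inr _ _ h.symm).elim

lemma liftH_tj (f : HH Γ0 →* Λ) (r : ℕ → Λ) (j : ℕ) : liftH f r (tj Γ0 j) = r j := rlift_gen _ _ _

lemma liftH_inl (f : HH Γ0 →* Λ) (r : ℕ → Λ) (l : L0) :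
    liftH f r (gen _ (Sum.inl l)) = f (gen _ (Sum.inl l)) := rlift_gen _ _ _

lemma eq_on_Hm_zero {f f' : HH Γ0 →* Λ} (h : ∀ l, f (gen _ (Sum.inl l)) = f' (gen _ (Sum.inl l)))
    {g : HH Γ0} (hg : g ∈ Hm Γ0 0) : f g = f' g :=
  eq_on_sub (fun a ha => by
    rcases a with a | a
    exacts [h a, (Nat.not_lt_zero _ (ha a rfl)).elim]) hg

lemma liftH_zero (f : HH Γ0 →* Λ) (r : ℕ → Λ) {g : HH Γ0} (hg : g ∈ Hm Γ0 0) :
    liftH f r g = f g := eq_on_Hm_zero (liftH_inl f r) hg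

/-- The universal property of the extended group. -/
def liftT (f : HH Γ0 →* Λ) (σ : ℕ → Λ) (hσ : ∀ j, σ j * σ j = 1) : HT Γ0 →* Λ :=
  Monoid.Coprod.lift f (PresentedGroup.toGroup (f := σ) (by
    rintro _ ⟨j, rfl⟩
    simp [hσ]))

lemma liftT_ι (f : HH Γ0 →* Λ) (σ : ℕ → Λ) (hσ : ∀ j, σ j * σ j = 1) (h : HH Γ0) :
    liftT f σ hσ (ιH Γ0 h) = f h := Monoid.Coprod.lift_apply_inl _ _ _

lemma liftT_sj (f : HH Γ0 →* Λ) (σ : ℕ → Λ) (hσ : ∀ j, σ j * σ j = 1) (j : ℕ) :
    liftT f σ hσ (sj Γ0 j) = σ j :=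
  (Monoid.Coprod.lift_apply_inr _ _ _).trans (PresentedGroup.toGroup.of _)

end lift

lemma HT_induction {p : HT Γ0 → Prop} (h1 : p 1) (hm : ∀ g h, p g → p h → p (g * h))
    (hl : ∀ l, p (ιH Γ0 (gen _ l))) (hl' : ∀ l, p (ιH Γ0 (gen _ l))⁻¹) (hs : ∀ j, p (sj Γ0 j))
    (g : HT Γ0) : p g := by
  induction g using Monoid.Coprod.induction_on with
  | inl h =>
    have : h ∈ Subgroup.closure (Set.range (gen (HG Γ0))) := by
      rw [← Set.image_univ]; exact (sub_univ (Γ := HG Γ0)).ge (Subgroup.mem_top h)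
    induction this using Subgroup.closure_induction'' with
    | mem _ h => obtain ⟨l, rfl⟩ := h; exact hl l
    | inv_mem _ h => obtain ⟨l, rfl⟩ := h; rw [map_inv]; exact hl' l
    | one => rw [map_one]; exact h1
    | mul _ _ _ _ a b => rw [map_mul]; exact hm _ _ a b
  | inr w =>
    have : w ∈ Subgroup.closure (Set.range PresentedGroup.of) :=
      PresentedGroup.closure_range_of _ ▸ Subgroup.mem_top w
    induction this using Subgroup.closure_induction'' with
    | mem _ h => obtain ⟨l, rfl⟩ := h; exact hs l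
    | inv_mem _ h => obtain ⟨l, rfl⟩ := h; rw [map_inv]; exact sj_inv (Γ0 := Γ0) l ▸ hs l
    | one => rw [map_one]; exact h1
    | mul _ _ _ _ a b => rw [map_mul]; exact hm _ _ a b
  | mul _ _ a b => exact hm _ _ a b

lemma HT_ext {M : Type*} [Monoid M] {f f' : HT Γ0 →* M}
    (hl : ∀ l, f (ιH Γ0 (gen _ l)) = f' (ιH Γ0 (gen _ l))) (hs : ∀ j, f (sj Γ0 j) = f' (sj Γ0 j)) :
    f = f' := MonoidHom.ext fun g => HT_induction (p := fun g => g ∈ f.eqLocus f') (one_mem _)
      (fun _ _ => mul_mem) hl (fun l => inv_mem (hl l)) hs g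

variable (Γ0)

/-- The endomorphism given by new values on the free generators and on the involutions. -/
def endo (r : ℕ → HT Γ0) (σ : ℕ → HT Γ0) (hσ : ∀ j, σ j * σ j = 1) : HT Γ0 →* HT Γ0 :=
  liftT (liftH (ιH Γ0) fun j => ιH Γ0 (tj Γ0 j) * r j) σ hσ

/-- The end point of the deformation. -/
def φT : HT Γ0 →* HT Γ0 := endo Γ0 (sj Γ0) (sj Γ0) sj_mul_self

/-- The two copies. -/
def εT (e : ℕ) : HT Γ0 →* HT Γ0 :=
  liftT (ιH Γ0) (fun j => sj Γ0 (2 * j + e)) fun _ => sj_mul_self _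

/-- The end point of the deformation in the first copy. -/
def μT : HT Γ0 →* HT Γ0 := endo Γ0 (fun j => sj Γ0 (2 * j)) (sj Γ0) sj_mul_self

/-- The image of the free product. -/
def HR : Subgroup (HT Γ0) := (ιH Γ0).range

/-- The set of products of two subgroups. -/
def DC {G : Type*} [Group G] (K K' : Subgroup G) : Set G := {g | ∃ k ∈ K, ∃ k' ∈ K', g = k * k'}

/-- A set on which a pair of subgroups acts freely on the left coordinate. -/
structure FreeOn {G : Type*} [Group G] (K K' : Subgroup G) (D : Set G) : Prop where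
  left : ∀ k ∈ K, ∀ g, k * g ∈ D ↔ g ∈ D
  right : ∀ k ∈ K', ∀ g, g * k ∈ D ↔ g ∈ D
  free : ∀ k ∈ K, ∀ k' ∈ K', ∀ g ∈ D, k * g * k' = g → k = 1

/-- Two subgroups in free position. -/
structure Free2 {G : Type*} [Group G] (K F : Subgroup G) : Prop where
  inter : ∀ g ∈ K, g ∈ F → g = 1
  conj : ∀ p ∈ K, ∀ p' ∈ K, p ≠ 1 → ∀ c ∈ F, p * c * p'⁻¹ ∈ F → p = p' ∧ c = 1

/-- An exhaustion with free complements. -/
structure Tails {G : Type*} [Group G] (N : Subgroup G) where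
  H : ℕ → Subgroup G
  F : ℕ → Subgroup G
  mono : Monotone H
  exh : ∀ g ∈ N, ∃ m, g ∈ H m
  F_le : ∀ m, F m ≤ N
  free : ∀ m, Free2 (H m) (F m)
  esc : ∀ m, ∀ g ∈ F m, g ≠ 1 → Esc (F m) g
  inf : ∀ m, (F m : Set G).Infinite

/-- The image of the first free factor. -/
def GR : Subgroup (HT Γ0) := (Hm Γ0 0).map (ιH Γ0)

/-- The second end point seen from the first one. -/
def ψT : HT Γ0 →* HT Γ0 := (μT Γ0).comp ((εT Γ0 1).comp (φT Γ0))

variable {Γ0}

lemma ιH_injective : Function.Injective (ιH Γ0) := Monoid.Coprod.inl_injective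

end Pool.Agent.P.MP_a6af55_an
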