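import Pool.Agent.P.MP_a6af55_an.SMHom

namespace Pool.Agent.P.MP_a6af55_an

open Pool.Agent.Lib.Tracial
open scoped ComplexOrder InnerProductSpace ComplexConjugate Pointwise
open Filter Topology

/-- Sites. -/
abbrev Site : Type := ℕ × Bool

/-- The index group of the Pauli unitaries. -/
abbrev SG : Type := Multiplicative ((Site →₀ ZMod 2) × (Site →₀ ZMod 2))

/-- The sign of a class mod two. -/
def sgn2 : Multiplicative (ZMod 2) →* ℤˣ where
  toFun x := if x = 1 then 1 else -1
  map_one' := by simp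
  map_mul' := by decide

/-- The standard pairing. -/
noncomputable def dot (b a : Site →₀ ZMod 2) : ZMod 2 := b.sum fun i x => x * a i

lemma dot_add_left (b b' a : Site →₀ ZMod 2) : dot (b + b') a = dot b a + dot b' a :=
  Finsupp.sum_add_index' (by simp) fun _ _ _ => add_mul _ _ _

lemma dot_add_right (b a a' : Site →₀ ZMod 2) : dot b (a + a') = dot b a + dot b a' := by
  simp [dot, mul_add, Finsupp.sum_add]

@[simp] lemma dot_zero_left (a : Site →₀ ZMod 2) : dot 0 a = 0 := by simp [dot]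

@[simp] lemma dot_zero_right (b : Site →₀ ZMod 2) : dot b 0 = 0 := by simp [dot]

lemma dot_single_left (i : Site) (x : ZMod 2) (a : Site →₀ ZMod 2) :
    dot (Finsupp.single i x) a = x * a i := Finsupp.sum_single_index (zero_mul _)

lemma dot_comm (a b : Site →₀ ZMod 2) : dot a b = dot b a := by
  induction a using Finsupp.induction_linear with
  | zero => simp
  | add a a' h h' => rw [dot_add_left, dot_add_right, h, h']
  | single i x =>
    induction b using Finsupp.induction_linear with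
    | zero => simp
    | add b b' h h' => rw [dot_add_left, dot_add_right, h, h']
    | single j y =>
      rw [dot_single_left, dot_single_left]
      by_cases h : i = j
      · simp [h, mul_comm]
      · simp [h, Ne.symm h]

/-- The Pauli bicharacter. -/
noncomputable def εS : SG →* SG →* ℤˣ where
  toFun s :=
    { toFun s' := sgn2 (Multiplicative.ofAdd (dot s.toAdd.2 s'.toAdd.1))
      map_one' := by simp
      map_mul' a b := by simp [dot_add_right] }
  map_one' := by ext; simp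
  map_mul' a b := MonoidHom.ext fun c => by simp [dot_add_left]

lemma εS_apply (s s' : SG) : εS s s' = sgn2 (Multiplicative.ofAdd (dot s.toAdd.2 s'.toAdd.1)) := rfl

/-- The Pauli bicharacter on a product. -/
noncomputable def εP (X : Type*) [Group X] : X × SG →* X × SG →* ℤˣ :=
  (εS.comp (MonoidHom.snd X SG)).compl₂ (MonoidHom.snd X SG)

lemma εP_apply {X : Type*} [Group X] (g h : X × SG) : εP X g h = εS g.2 h.2 := rfl

/-- Elements supported on a set of sites. -/
def SJ (J : Set Site) : Subgroup SG where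
  carrier := {s | ∀ i ∉ J, s.toAdd.1 i = 0 ∧ s.toAdd.2 i = 0}
  mul_mem' h h' i hi := by simp [h i hi, h' i hi]
  one_mem' i _ := by simp
  inv_mem' h i hi := by simp [h i hi]

lemma mem_SJ {J : Set Site} {s : SG} :
    s ∈ SJ J ↔ ∀ i ∉ J, s.toAdd.1 i = 0 ∧ s.toAdd.2 i = 0 := Iff.rfl

lemma SJ_mono {J J' : Set Site} (h : J ⊆ J') : SJ J ≤ SJ J' := fun _ hs i hi => hs i (mt (@h i) hi)

lemma SJ_univ : SJ Set.univ = ⊤ := eq_top_iff.2 fun _ _ _ hi => (hi trivial).elim

lemma SJ_empty : SJ ∅ = ⊥ := eq_bot_iff.2 fun s hs => by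
  rw [Subgroup.mem_bot, ← toAdd_eq_zero]
  exact Prod.ext (Finsupp.ext fun i => (hs i id).1) (Finsupp.ext fun i => (hs i id).2)

lemma mem_SJ_inter {J J' : Set Site} {s : SG} (h : s ∈ SJ J) (h' : s ∈ SJ J') : s ∈ SJ (J ∩ J') :=
  fun i hi => (not_and_or.1 hi).elim (h i) (h' i)

/-- The sites below a level. -/
def lo (n : ℕ) : Set Site := {p | p.1 < n}

/-- The sites between two levels. -/
def mid (a b : ℕ) : Finset Site := Finset.Ico a b ×ˢ Finset.univ

lemma mem_mid {a b : ℕ} {p : Site} : p ∈ mid a b ↔ a ≤ p.1 ∧ p.1 < b := by simp [mid]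

lemma coe_mid_zero (n : ℕ) : (mid 0 n : Set Site) = lo n := Set.ext fun p => by simp [mem_mid, lo]

lemma card_mid (a b : ℕ) : (mid a b).card = 2 * (b - a) := by simp [mid, mul_comm]

lemma lo_mono : Monotone lo := fun _ _ h _ hp => lt_of_lt_of_le hp h

lemma exists_lo (s : SG) : ∃ n, s ∈ SJ (lo n) := by
  refine ⟨(s.toAdd.1.support ∪ s.toAdd.2.support).sup Prod.fst + 1, fun i hi => ?_⟩
  by_contra h
  refine hi (Nat.lt_succ_of_le (Finset.le_sup (f := Prod.fst) ?_))
  simpa [← not_and_or] using h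

lemma εS_eq_one {J J' : Set Site} (h : Disjoint J J') {s s' : SG} (hs : s ∈ SJ J)
    (hs' : s' ∈ SJ J') : εS s s' = 1 := by
  have : dot s.toAdd.2 s'.toAdd.1 = 0 := Finset.sum_eq_zero fun i _ => by
    by_cases hi : i ∈ J
    · simp [(hs' i (Set.disjoint_left.1 h hi)).1]
    · simp [(hs i hi).2]
  rw [εS_apply, this]
  exact map_one _

lemma exists_anti {J : Set Site} {s : SG} (hs : s ∉ SJ Jᶜ) :
    ∃ i ∈ J, ∃ k ∈ SJ {i}, εS k s ≠ εS s k := by
  simp only [mem_SJ, not_forall, Set.mem_compl_iff, not_not] at hs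
  obtain ⟨i, hi, h⟩ := hs
  have h1 : ∀ x : ZMod 2, x ≠ 0 → sgn2 (Multiplicative.ofAdd x) ≠ 1 := by decide
  have h2 : ∀ j ∉ ({i} : Set Site), (Finsupp.single i (1 : ZMod 2)) j = 0 := fun j hj =>
    Finsupp.single_eq_of_ne hj
  refine ⟨i, hi, ?_⟩
  rcases not_and_or.1 h with h | h
  · refine ⟨Multiplicative.ofAdd (0, Finsupp.single i 1), fun j hj => ⟨rfl, h2 j hj⟩, ?_⟩
    simpa [εS_apply, dot_single_left] using h1 _ h
  · refine ⟨Multiplicative.ofAdd (Finsupp.single i 1, 0), fun j hj => ⟨h2 j hj, rfl⟩, ?_⟩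
    simpa [εS_apply, dot_comm _ (Finsupp.single _ _), dot_single_left] using (h1 _ h).symm

/-- A Pauli element at one site. -/
noncomputable def px (n : ℕ) : SG := Multiplicative.ofAdd (Finsupp.single (n, true) 1, 0)

lemma px_injective : Function.Injective px := fun m n h => by
  have := congrArg (fun s : SG => s.toAdd.1) h
  simpa [px, Finsupp.single_left_inj] using this

lemma px_mem {J : Set Site} {n : ℕ} (h : (n, true) ∈ J) : px n ∈ SJ J := fun _ hi =>
  ⟨Finsupp.single_eq_of_ne fun e => hi (e ▸ h), rfl⟩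

instance : Infinite SG := Infinite.of_injective _ px_injective

instance : Countable SG := inferInstanceAs (Countable ((Site →₀ ZMod 2) × (Site →₀ ZMod 2)))

variable {X : Type*} [Group X]

lemma tesc_of_site {K : Subgroup (X × SG)} {J : Set Site} (hK : ∀ s ∈ SJ J, (1, s) ∈ K)
    {g : X × SG} (hg : g.2 ∉ SJ Jᶜ) : TEsc (εP X) K g := by
  obtain ⟨i, hi, k, hk, h⟩ := exists_anti hg
  exact Or.inr ⟨(1, k), hK k (SJ_mono (Set.singleton_subset_iff.2 hi) hk),
    Prod.ext (by simp) (mul_comm _ _), h⟩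

lemma Esc.prod {K : Subgroup X} {g : X × SG} (h : Esc K g.1) {K' : Subgroup (X × SG)}
    (hK : ∀ k ∈ K, (k, 1) ∈ K') : Esc K' g := by
  obtain ⟨a, ha, b, hb, B, h1, h2⟩ := h
  exact ⟨_, hK a ha, _, hK b hb, _, PP.comap (MonoidHom.fst X SG) (a := (a, 1)) (b := (b, 1)) h1,
    h2⟩

variable {A : Type*} [CStarAlgebra A] {t : TrState A}

lemma TwRep.u_prod (L : TwRep (εP X) t) (g : X) (s : SG) :
    L.u (g, 1) * L.u (1, s) = L.u (g, s) := by simp [L.u_mul, sg, εP_apply]

/-- The untwisted part. -/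
def TwRep.U (L : TwRep (εP X) t) : X →* A where
  toFun g := L.u (g, 1)
  map_one' := L.u_one
  map_mul' g h := by simp [L.u_mul, sg, εP_apply]

lemma TwRep.U_apply (L : TwRep (εP X) t) (g : X) : L.U g = L.u (g, 1) := rfl

lemma TwRep.star_U (L : TwRep (εP X) t) (g : X) : star (L.U g) = L.U g⁻¹ := by
  simp [U_apply, L.star_u, sg, εP_apply]

namespace TwAlg

variable (L : TwAlg (εP X) t) [t.W]

variable {L} in
lemma In.comm_prod {x y : A} {K K' : Subgroup X} {J J' : Set Site} (hx : L.In x (K.prod (SJ J)))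
    (hy : L.In y (K'.prod (SJ J'))) (h : ∀ k ∈ K, ∀ k' ∈ K', Commute k k') (hJ : Disjoint J J') :
    Commute x y :=
  hx.comm hy fun g hg k hk => ⟨Prod.ext (h _ hg.1 _ hk.1) (mul_comm _ _), by
    rw [εP_apply, εP_apply, εS_eq_one hJ hg.2 hk.2, εS_eq_one hJ.symm hk.2 hg.2]⟩

omit [t.W] in
lemma in_of_comm {J : Set Site} {x : A} (h : ∀ s ∈ SJ J, L.u (1, s) * x = x * L.u (1, s)) :
    L.In x ((⊤ : Subgroup X).prod (SJ Jᶜ)) := fun g hg =>
  L.c_eq_zero_of_tesc (K := (⊥ : Subgroup X).prod (SJ J))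
    (tesc_of_site (J := J) (fun _ hs => Subgroup.mem_prod.2 ⟨one_mem _, hs⟩)
      fun h' => hg ⟨trivial, h'⟩)
    fun k hk => by
      obtain ⟨k, s⟩ := k
      obtain rfl : k = 1 := hk.1
      exact h s hk.2

end TwAlg

end Pool.Agent.P.MP_a6af55_an
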