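import Pool.Agent.P.MP_a6af55_an.SMNM
import Pool.Agent.P.MP_a6af55_an.SMPauli
import Pool.Agent.P.MP_a6af55_an.SMGrp

namespace Pool.Agent.P.MP_a6af55_an

open Pool.Agent.Lib.Tracial
open scoped ComplexOrder InnerProductSpace ComplexConjugate Pointwise
open Filter Topology

lemma units_calc {A : Type*} [Ring A] [StarRing A] {α I P : Type*} [DecidableEq α] [Fintype I]
    [DecidableEq I] [DecidableEq P] (E : α → α → A)
    (hm : ∀ a b c d, E a b * E c d = if b = c then E a d else 0)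
    (hs : ∀ a b, star (E a b) = E b a) (i : I × I → α) (hi : Function.Injective i)
    (r : P × I → α) (hr : Function.Injective r) (τ : I → P) :
    ∃ w : Fin 2 → I → A, (∀ s a, ∃ k : I → α, w s a = ∑ c, E (r (τ a, c)) (k c)) ∧
      (∀ p, star (∑ c, E (r (p, c)) (r (p, c))) = ∑ c, E (r (p, c)) (r (p, c))) ∧
      (∀ p q, (∑ c, E (r (p, c)) (r (p, c))) * ∑ c, E (r (q, c)) (r (q, c)) =
        if p = q then ∑ c, E (r (p, c)) (r (p, c)) else 0) ∧
      (∀ s a b, w s a * star (w s b) = if a = b then ∑ c, E (r (τ a, c)) (r (τ a, c)) else 0) ∧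
      ∑ a, star (w 0 a) * w 0 a = ∑ a, star (w 1 a) * w 1 a ∧
      ∀ a b c d, Commute (star (w 0 a) * w 0 b) (star (w 1 c) * w 1 d) := by
  have h0 : ∀ a b, star (∑ c, E (r (τ a, c)) (i (a, c))) * ∑ c, E (r (τ b, c)) (i (b, c)) =
      if τ a = τ b then ∑ c, E (i (a, c)) (i (b, c)) else 0 := fun a b => by
    by_cases h : τ a = τ b <;>
      simp [star_sum, hs, Finset.sum_mul_sum, hm, hr.eq_iff, h]
  have h1 : ∀ a b, star (∑ c, E (r (τ a, c)) (i (c, a))) * ∑ c, E (r (τ b, c)) (i (c, b)) =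
      if τ a = τ b then ∑ c, E (i (c, a)) (i (c, b)) else 0 := fun a b => by
    by_cases h : τ a = τ b <;>
      simp [star_sum, hs, Finset.sum_mul_sum, hm, hr.eq_iff, h]
  refine ⟨![fun a => ∑ c, E (r (τ a, c)) (i (a, c)), fun a => ∑ c, E (r (τ a, c)) (i (c, a))],
    Fin.forall_fin_two.2 ⟨fun a => ⟨_, rfl⟩, fun a => ⟨_, rfl⟩⟩, fun p => by simp [star_sum, hs],
    fun p q => ?_, Fin.forall_fin_two.2 ⟨fun a b => ?_, fun a b => ?_⟩, ?_, fun a b c d => ?_⟩
  · by_cases h : p = q <;> simp [Finset.sum_mul_sum, hm, hr.eq_iff, h]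
  · by_cases h : a = b <;> simp [star_sum, hs, Finset.sum_mul_sum, hm, hi.eq_iff, h]
  · by_cases h : a = b <;> simp [star_sum, hs, Finset.sum_mul_sum, hm, hi.eq_iff, h]
  · simp only [Matrix.cons_val_zero, Matrix.cons_val_one, h0, h1, if_true]
    exact Finset.sum_comm
  · simp only [Matrix.cons_val_zero, Matrix.cons_val_one, h0, h1]
    split_ifs
    · simp [Commute, SemiconjBy, Finset.sum_mul_sum, hm, hi.eq_iff, ite_and]
    all_goals simp

variable {X : Type*} [Group X] {A : Type*} [CStarAlgebra A] {t : TrState A} [t.W]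

theorem freeUnits (L : TwAlg (εP X) t) {N K H F : Subgroup X} (hK : K ≤ H) (hF : F ≤ N)
    (h : Free2 H F) (hesc : ∀ g ∈ F, g ≠ 1 → Esc F g) (hinf : (F : Set X).Infinite)
    (J : Set Site) {n : Type} [Fintype n] [DecidableEq n] (φ : Matrix n n ℂ →⋆ₐ[ℂ] A)
    (h1 : ∀ M, L.In (φ M) ((⊥ : Subgroup X).prod (SJ J)))
    (h2 : ∀ x, L.In x ((⊥ : Subgroup X).prod (SJ J)) → ∃ M, φ M = x) (o : n) :
    FreeUnits t (L.alg (N.prod ⊤)) (L.alg (K.prod (SJ J))) (φ (Matrix.single o o 1))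
      (Fintype.card n) := by
  intro I _ _ _ N₀ M₀ τ hN hI
  have hM : 0 < M₀ := Nat.pos_of_mul_pos_left (Fintype.card_pos.trans_le hI)
  have : Nonempty (Fin M₀) := ⟨⟨0, hM⟩⟩
  have hfac : IsInfFactor (L.alg (F.prod ⊥)) := by
    refine L.isInfFactor_alg _ (fun g hg hg1 => Or.inl (Esc.prod (hesc g.1 hg.1 fun e =>
      hg1 (Prod.ext e hg.2)) fun k hk => ⟨hk, one_mem _⟩)) ?_
    exact (hinf.image (f := fun k => ((k, 1) : X × SG))
      fun a _ b _ e => congrArg Prod.fst e).mono (by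
        rintro _ ⟨k, hk, rfl⟩
        exact ⟨hk, one_mem _⟩)
  obtain ⟨ψ₀⟩ := (L.trK (F.prod ⊥)).exists_matrix hfac (Fin M₀ × I)
  let ψ : Matrix (Fin M₀ × I) (Fin M₀ × I) ℂ →⋆ₐ[ℂ] A := (L.alg (F.prod ⊥)).subtype.comp ψ₀
  have hψ : ∀ M, L.In (ψ M) (F.prod (⊥ : Subgroup SG)) := fun M => (ψ₀ M).2
  have hc : ∀ M y, L.In y (F.prod (⊥ : Subgroup SG)) → Commute (φ M) y := fun M y hy =>
    (h1 M).comm_prod (K' := F) (J' := ∅) (by rwa [SJ_empty])
      (fun k hk k' _ => by rw [Subgroup.mem_bot.1 hk]; exact Commute.one_left _)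
      (Set.disjoint_empty J)
  obtain ⟨j⟩ : Nonempty (I ↪ n × Fin M₀) :=
    Function.Embedding.nonempty_of_card_le (by simpa using hI)
  let E : n × Fin M₀ × I → n × Fin M₀ × I → A := fun a b =>
    φ (Matrix.single a.1 b.1 1) * ψ (Matrix.single a.2 b.2 1)
  have hm : ∀ a b c d, E a b * E c d = if b = c then E a d else 0 := by
    intro a b c d
    have e1 : E a b * E c d = φ (Matrix.single a.1 b.1 1 * Matrix.single c.1 d.1 1) *
        ψ (Matrix.single a.2 b.2 1 * Matrix.single c.2 d.2 1) := by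
      simp only [E, map_mul, mul_assoc]
      rw [← mul_assoc (ψ _), ← (hc _ _ (hψ _)).eq, mul_assoc]
    rw [e1]
    split_ifs with e
    · subst e
      simp [E]
    · by_cases e2 : b.1 = c.1
      · rw [Matrix.single_mul_single_of_ne (h := fun e3 => e (Prod.ext e2 e3)), map_zero, mul_zero]
      · rw [Matrix.single_mul_single_of_ne (h := e2), map_zero, zero_mul]
  have hs : ∀ a b, star (E a b) = E b a := fun a b => by
    simp only [E, star_mul, ← map_star]
    rw [← (hc _ _ (hψ _)).eq]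
    simp [Matrix.star_eq_conjTranspose]
  have hE : ∀ a b, E a b ∈ L.alg (N.prod ⊤) := fun a b =>
    mul_mem ((h1 _).mono fun g hg => ⟨(Subgroup.mem_bot.1 hg.1).symm ▸ one_mem _, trivial⟩)
      ((hψ _).mono fun g hg => ⟨hF hg.1, trivial⟩)
  obtain ⟨w, w1, w2, w3, w4, w5, w6⟩ := units_calc E hm hs
    (fun u : I × I => ((j u.1).1, (j u.1).2, u.2)) (fun u v e => by
      simp only [Prod.mk.injEq] at e
      exact Prod.ext (j.injective (Prod.ext e.1 e.2.1)) e.2.2)
    (fun u : Fin N₀ × I => (o, Fin.castLE hN u.1, u.2)) (fun u v e => by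
      simp only [Prod.mk.injEq] at e
      exact Prod.ext (Fin.castLE_injective hN e.2.1) e.2.2) τ
  set e := φ (Matrix.single o o 1) with he
  have hee : e * e = e := by rw [he, ← map_mul]; simp
  let g : Fin N₀ → A := fun p =>
    ∑ c, ψ (Matrix.single (Fin.castLE hN p, c) (Fin.castLE hN p, c) 1)
  have hg : ∀ p, L.In (g p) (F.prod (⊥ : Subgroup SG)) := fun p => L.in_sum _ fun c _ => hψ _
  have hf : ∀ p, ∑ c, E (o, Fin.castLE hN p, c) (o, Fin.castLE hN p, c) = e * g p := fun p => by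
    simp only [E, g, Finset.mul_sum, he]
  have hτ : ∀ p, t.τ (g p) = (M₀ : ℂ)⁻¹ := fun p => by
    have hI0 : (Fintype.card I : ℂ) ≠ 0 := by exact_mod_cast Fintype.card_ne_zero
    have hM0 : (M₀ : ℂ) ≠ 0 := by exact_mod_cast hM.ne'
    have e1 : ∀ i, t.τ (ψ (Matrix.single i i 1)) = ((M₀ : ℂ) * Fintype.card I)⁻¹ := fun i => by
      have := t.τ_single_mul ψ (b := 1) (by simp) i
      rw [mul_one, t.map_one, Fintype.card_prod, Fintype.card_fin, Nat.cast_mul] at this
      exact eq_inv_of_mul_eq_one_right this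
    simp only [g, map_sum, e1, Finset.sum_const, Finset.card_univ, nsmul_eq_mul]
    field_simp
  have hn2 : ∀ p, t.n2 (g p) ^ 2 = (M₀ : ℝ)⁻¹ := fun p => by
    have e1 : star (g p) * g p = g p := by
      simp only [g, star_sum, ← map_star, Finset.sum_mul_sum, ← map_mul]
      refine Finset.sum_congr rfl fun c _ => ?_
      rw [Finset.sum_eq_single c]
      · simp [Matrix.star_eq_conjTranspose]
      · intro d _ hd
        rw [Matrix.star_eq_conjTranspose, Matrix.conjTranspose_single,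
          Matrix.single_mul_single_of_ne (h := fun e3 => hd (congrArg Prod.snd e3).symm), map_zero]
      · simp
    have := t.n2_sq' (g p)
    rw [e1, hτ] at this
    exact Complex.ofReal_injective (this.trans (by push_cast; rfl))
  refine ⟨fun p => e * g p, w, fun s a => ?_, fun p => by simpa only [hf] using w2 p,
    fun p q => by simpa only [hf] using w3 p q, fun p => by rw [← mul_assoc, hee],
    fun s a b => by simpa only [hf] using w4 s a b, w5, w6, fun p x hx hex => ?_,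
    fun p q x hx hex hx0 => ?_⟩
  · obtain ⟨k, hk⟩ := w1 s a
    rw [hk]
    exact sum_mem fun c _ => hE _ _
  · have e1 : x * e = x := by rw [← hex, mul_assoc, hee]
    rw [← mul_assoc, e1, TwAlg.In.τ_mul hx (hg p) fun y hy hy' =>
      Prod.ext (h.inter _ (hK hy.1) hy'.1) hy'.2, hτ, div_eq_mul_inv]
  · have e1 : e * g p * x * (e * g q) = g p * (x * g q) := by
      rw [(hc _ _ (hg p)).eq, mul_assoc (g p), mul_assoc (g p), ← mul_assoc, ← mul_assoc,
        mul_assoc (g p), hex, mul_assoc]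
    have e2 : L.cE ((⊥ : Subgroup X).prod (SJ J)) x = 0 := by
      obtain ⟨M, hM'⟩ := h2 _ (L.cE_in ((⊥ : Subgroup X).prod (SJ J)) x)
      have e3 : φ M = M o o • e := by
        rw [hM', ← hex, (h1 _).cE_mul', (h1 _).cE_mul, ← hM', ← map_mul, ← map_mul, ← map_smul]
        simp
      have e4 : (Fintype.card n : ℂ) * t.τ e = 1 := by
        simpa [t.map_one] using t.τ_single_mul φ (b := 1) (by simp) o
      have e5 : M o o * t.τ e = 0 := by
        rw [← smul_eq_mul, ← map_smul, ← e3, hM', L.τ_cE, hx0]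
      have e6 : M o o = 0 := (mul_eq_zero.1 e5).resolve_right
        (right_ne_zero_of_mul_eq_one e4)
      rw [← hM', e3, e6, zero_smul]
    have hZ : L.In x {y | y.1 ∈ K ∧ y.1 ≠ 1} := fun y hy => by
      by_cases hy' : y ∈ K.prod (SJ J)
      · have e3 : y ∈ (⊥ : Subgroup X).prod (SJ J) :=
          ⟨by_contra fun e4 => hy ⟨hy'.1, e4⟩, hy'.2⟩
        rw [← L.c_cE_mem e3, e2]
        simp [TwAlg.c]
      · exact hx y hy'
    have e3 : t.n2 (x * g q) = t.n2 x * t.n2 (g q) :=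
      (hg q).n2_mul' hZ fun y hy y' hy' e4 => inv_mul_eq_one.1
        (Prod.ext (h.inter _ (H.mul_mem (H.inv_mem (hK hy.1)) (hK hy'.1)) e4.1) e4.2)
    have e4 : t.n2 (g p * (x * g q)) = t.n2 (g p) * t.n2 (x * g q) := by
      refine (hg p).n2_mul (hZ.mul (hg q)) ?_
      rintro _ ⟨a, ha, b, hb, rfl⟩ _ ⟨a', ha', b', hb', rfl⟩ e5
      have e6 := h.conj a.1 (hK ha.1) a'.1 (hK ha'.1) ha.2 (b.1 * b'.1⁻¹)
        (F.mul_mem hb.1 (F.inv_mem hb'.1)) (by simpa [mul_assoc] using e5.1)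
      refine Prod.ext ?_ (mul_inv_eq_one.1 e5.2)
      show a.1 * b.1 = a'.1 * b'.1
      rw [e6.1, mul_inv_eq_one.1 e6.2]
    have e5 : t.n2 (g p) = t.n2 (g q) :=
      (pow_left_inj₀ (t.n2_nonneg _) (t.n2_nonneg _) two_ne_zero).1 (by rw [hn2, hn2])
    rw [e1, e4, e3, e5, div_eq_mul_inv, ← hn2 q]
    exact le_of_eq (by ring)

end Pool.Agent.P.MP_a6af55_an
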