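import Pool.Agent.P.MP_a6af55_an.SMCore
import Pool.Agent.P.MP_a6af55_an.SMUnits
import Pool.Agent.P.MP_a6af55_an.SMPauli2

namespace Pool.Agent.P.MP_a6af55_an

open Pool.Agent.Lib.Tracial
open scoped ComplexOrder InnerProductSpace ComplexConjugate Pointwise
open Filter Topology

theorem FreeOn.exists_reps {X : Type*} [Group X] {K K' : Subgroup X} {D : Set X}
    (hD : FreeOn K K' D) : ∃ R : Set X, R ⊆ D ∧ (∀ g ∈ D, ∃ r ∈ R, g * r⁻¹ ∈ K) ∧
      ∀ g ∈ R, ∀ g' ∈ R, ∀ k' ∈ K', g' * k' * g⁻¹ ∈ K → g' * k' * g⁻¹ = 1 := by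
  let s : Setoid X := ⟨fun g h => ∃ k ∈ K, ∃ k' ∈ K', h = k * g * k',
    fun g => ⟨1, one_mem _, 1, one_mem _, by simp⟩,
    by
      rintro g _ ⟨k, hk, k', hk', rfl⟩
      exact ⟨k⁻¹, inv_mem hk, k'⁻¹, inv_mem hk', by group⟩,
    by
      rintro g _ _ ⟨k, hk, k', hk', rfl⟩ ⟨l, hl, l', hl', rfl⟩
      exact ⟨l * k, mul_mem hl hk, k' * l', mul_mem hk' hl', by group⟩⟩
  refine ⟨{g | g ∈ D ∧ ∃ a ∈ K', g = (Quotient.mk s g).out * a}, fun g hg => hg.1, fun g hg => ?_, ?_⟩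
  · obtain ⟨k, hk, k', hk', h⟩ := Quotient.mk_out (s := s) g
    have e : k⁻¹ * g = (Quotient.mk s g).out * k' := by
      rw [inv_mul_eq_iff_eq_mul, ← mul_assoc]; exact h
    have e' : Quotient.mk s (k⁻¹ * g) = Quotient.mk s g :=
      Quotient.sound ⟨k, hk, 1, one_mem _, by group⟩
    exact ⟨k⁻¹ * g, ⟨(hD.left _ (inv_mem hk) g).2 hg, k', hk', by rw [e', e]⟩, by simpa using hk⟩
  · rintro g ⟨hg, a, ha, e⟩ g' ⟨-, a', ha', e'⟩ k' hk' h
    have e1 : Quotient.mk s g = Quotient.mk s g' :=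
      Quotient.sound ⟨_, h, k'⁻¹, inv_mem hk', by group⟩
    rw [← e1] at e'
    set r := (Quotient.mk s g).out
    have hr : r ∈ D := (hD.right a ha r).1 (e ▸ hg)
    refine hD.free _ h (a * k'⁻¹ * a'⁻¹) (mul_mem (mul_mem ha (inv_mem hk')) (inv_mem ha')) r hr ?_
    rw [e, e']
    group

section units

variable {A : Type*} [CStarAlgebra A] (t : TrState A) {n : Type*} [Fintype n] [DecidableEq n]
  (φ : Matrix n n ℂ →⋆ₐ[ℂ] A)

lemma gap_star_single (i j : n) : star (φ (Matrix.single i j 1)) = φ (Matrix.single j i 1) := by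
  rw [← map_star, Matrix.star_eq_conjTranspose, Matrix.conjTranspose_single, star_one]

lemma gap_sum_units (o : n) (x : A) :
    ∑ l, t.n2 (x * φ (Matrix.single l o 1)) ^ 2 = t.n2 x ^ 2 := by
  have h1 : ∑ j : n, Matrix.single j j (1 : ℂ) = 1 := by
    ext a b
    simp [Matrix.sum_apply, Matrix.single_apply, Matrix.one_apply, ite_and]
  have h2 : ∀ l, t.n2 (x * φ (Matrix.single l o 1)) ^ 2 =
      t.tr (star x * x * φ (Matrix.single l l 1)) := fun l => by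
    rw [← t.tr_star_mul, star_mul, gap_star_single, mul_assoc, t.tr_comm, ← mul_assoc, mul_assoc,
      ← map_mul, Matrix.single_mul_single_same, one_mul]
  simp only [h2]
  rw [← t.tr_sum, ← Finset.mul_sum, ← map_sum, h1, map_one, mul_one, t.tr_star_mul]

lemma gap_col (M : Matrix n n ℂ) (l o : n) :
    φ M * φ (Matrix.single l o 1) = ∑ i, M i l • φ (Matrix.single i o 1) := by
  simp only [← map_smul, ← map_sum, ← map_mul]
  congr 1
  ext i j
  simp [Matrix.mul_apply, Matrix.sum_apply, Matrix.single_apply, ite_and]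

end units

section piece

variable {Γ : Type*} [Group Γ] {ε : Γ →* Γ →* ℤˣ} {A : Type*} [CStarAlgebra A] {t : TrState A}
  (L : TwAlg ε t)

lemma gap_PE_sum {ι : Type*} (s : Finset ι) (E : ι → Set Γ)
    (h : ∀ i ∈ s, ∀ j ∈ s, i ≠ j → Disjoint (E i) (E j)) (ξ : t.L2) :
    L.PE (⋃ i ∈ s, E i) ξ = ∑ i ∈ s, L.PE (E i) ξ ∧
      ‖L.PE (⋃ i ∈ s, E i) ξ‖ ^ 2 = ∑ i ∈ s, ‖L.PE (E i) ξ‖ ^ 2 := by
  classical
  induction s using Finset.induction_on with
  | empty => simp [L.PE_empty]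
  | insert a s ha ih =>
    have hd : Disjoint (E a) (⋃ i ∈ s, E i) := by
      simp only [Set.disjoint_iUnion_right]
      exact fun i hi => h a (Finset.mem_insert_self a s) i (Finset.mem_insert_of_mem hi)
        fun e => ha (e ▸ hi)
    obtain ⟨h1, h2⟩ := ih fun i hi j hj =>
      h i (Finset.mem_insert_of_mem hi) j (Finset.mem_insert_of_mem hj)
    rw [Finset.set_biUnion_insert, Finset.sum_insert ha, Finset.sum_insert ha, L.norm_PE_union hd,
      L.PE_union hd, h2, h1]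
    exact ⟨rfl, rfl⟩

variable [t.W]

lemma gap_piece (K : Subgroup Γ) (k : Γ) (x : A) :
    t.Λ (L.cE K (x * star (L.u k)) * L.u k) = L.PE {g | g * k⁻¹ ∈ K} (t.Λ x) := by
  rw [← t.rmul_Λ, L.Λ_cE, ← (L.in_u (E := {k}) rfl).PE_rmul (E' := {g | g * k⁻¹ ∈ K}) (by simp),
    t.rmul_Λ, mul_assoc, (L.unit k).1, mul_one]

lemma gap_n2_piece (K : Subgroup Γ) (k : Γ) (x : A) :
    t.n2 (L.cE K (x * star (L.u k))) = L.m x {g | g * k⁻¹ ∈ K} := by
  rw [L.n2_cE, L.m_mul_star_u]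
  rfl

end piece

variable {X : Type} [Group X] {A : Type*} [CStarAlgebra A] {t : TrState A} [t.W]

theorem gap_level (L : TwAlg (εP X) t) {N K K' H F : Subgroup X} (hK : K ≤ N) (hH : K ≤ H)
    (hF : F ≤ N) (hfree : Free2 H F) (hesc : ∀ g ∈ F, g ≠ 1 → Esc F g) (hinf : (F : Set X).Infinite)
    (J : Finset Site) {D : Set X} (hD : ∀ k ∈ K', ∀ g, g * k ∈ D ↔ g ∈ D) (R : Finset X)
    (hR : ∀ g ∈ R, ∀ k ∈ K, k * g ∈ D)
    (hR' : ∀ g ∈ R, ∀ g' ∈ R, ∀ k' ∈ K', g' * k' * g⁻¹ ∈ K → g' * k' * g⁻¹ = 1) {b b' : Fin 2 → A}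
    (hb : ∀ i, ‖b i‖ ≤ 1 ∧ L.In (b i) (K.prod (SJ J)))
    (hb' : ∀ i, ‖b' i‖ ≤ 1 ∧ L.In (b' i) (K'.prod (⊤ : Subgroup SG))) {z : A} (hz : ‖z‖ ≤ 1)
    {η δ e : ℝ} (hδ : 0 ≤ δ) (h : NM t (L.alg (N.prod ⊤)) δ b)
    (h1 : ∀ i, t.n2 (b i * z - z * b' i) ≤ η)
    (h2 : ∀ i, t.n2 (star (b i) * z - z * star (b' i)) ≤ η)
    (h3 : L.m z ((D ×ˢ Set.univ) \ ⋃ g ∈ R, {x | x * (g, 1)⁻¹ ∈ K.prod (SJ J)}) ≤ e) :
    L.m z (D ×ˢ Set.univ) ≤ 10 ^ 6 * (η + e + δ) + e := by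
  classical
  obtain ⟨φ, hφ, hφ'⟩ := L.exists_pauli J (Fin (2 ^ J.card)) (Fintype.card_fin _)
  let o : Fin (2 ^ J.card) := ⟨0, by positivity⟩
  let B : Subgroup (X × SG) := K.prod (SJ J)
  let W : X → Set (X × SG) := fun g => {x | x * (g, 1)⁻¹ ∈ B}
  have hφB : ∀ M, L.In (φ M) B := fun M => (hφ M).mono (Subgroup.prod_mono bot_le le_rfl)
  have hWD : ∀ g ∈ R, W g ⊆ D ×ˢ Set.univ := fun g hg x hx =>
    ⟨by simpa using hR g hg _ hx.1, trivial⟩
  have hWd : ∀ g ∈ R, ∀ g' ∈ R, g ≠ g' → Disjoint (W g) (W g') := fun g hg g' hg' hne =>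
    Set.disjoint_left.2 fun x hx hx' => hne (by
      have := hR' g hg g' hg' 1 (one_mem _)
        (by simpa [mul_assoc] using K.mul_mem (K.inv_mem hx'.1) hx.1)
      rw [mul_one, mul_inv_eq_one] at this
      exact this.symm)
  have bessel : ∀ y, ∑ g ∈ R, t.n2 (L.cE B (y * star (L.u (g, 1)))) ^ 2 ≤
      L.m y (D ×ˢ Set.univ) ^ 2 := fun y => by
    simp only [gap_n2_piece]
    exact L.sum_m_le R W hWD hWd y
  let a : X → A := fun g => L.cE B (z * star (L.u (g, 1)))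
  have ha : ∀ g, L.In (a g) B := fun g => L.cE_in _ _
  let zF := ∑ g ∈ R, a g * L.u (g, 1)
  have hzF : t.Λ zF = L.PE (⋃ g ∈ R, W g) (t.Λ z) := by
    rw [(gap_PE_sum L R W hWd _).1, map_sum]
    exact Finset.sum_congr rfl fun g _ => gap_piece L B _ z
  have hzF' : L.m (z - zF) (D ×ˢ Set.univ) ≤ e := by
    rw [TwAlg.m, map_sub, hzF, sub_eq_of_eq_add' (L.PE_add_compl (⋃ g ∈ R, W g) (t.Λ z)).symm,
      L.PE_PE]
    exact h3
  have hr : t.n2 zF ^ 2 = ∑ g ∈ R, t.n2 (a g) ^ 2 := by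
    rw [← t.norm_Λ, hzF, (gap_PE_sum L R W hWd _).2]
    exact Finset.sum_congr rfl fun g _ => by rw [gap_n2_piece]; rfl
  have hY : ∀ c, L.In c (K'.prod (⊤ : Subgroup SG)) → ∀ g' ∈ R, ∀ g ∈ R,
      ∃ M, φ M = L.cE B (L.u (g', 1) * c * star (L.u (g, 1))) := fun c hc g' hg' g hg => by
    refine hφ' _ (((((L.in_u (E := {(g', 1)}) rfl).mul hc).mul
      (L.in_u (E := {(g, 1)}) rfl).star).cE B).mono ?_)
    rintro _ ⟨⟨_, ⟨_, rfl, k, hk, rfl⟩, y, hy, rfl⟩, hx⟩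
    obtain rfl : y = (g, 1)⁻¹ := by simpa using hy
    exact ⟨hR' g hg g' hg' k.1 hk.1 hx.1, hx.2⟩
  have key : ∀ c c', L.In c B → ‖c'‖ ≤ 1 → L.In c' (K'.prod (⊤ : Subgroup SG)) →
      t.n2 (c * z - z * c') ≤ η → ∀ y : Matrix (R × Fin (2 ^ J.card)) (R × Fin (2 ^ J.card)) ℂ,
      (∀ g' g : R, φ (Matrix.of fun i l => y (g', i) (g, l)) =
        L.cE B (L.u (g'.1, 1) * c' * star (L.u (g.1, 1)))) →
      ∑ j : R × Fin (2 ^ J.card), t.n2 (c * (a j.1 * φ (Matrix.single j.2 o 1)) -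
        ∑ i, y i j • (a i.1 * φ (Matrix.single i.2 o 1))) ^ 2 ≤ (η + e) ^ 2 := by
    intro c c' hc n' hc' hcz y hy
    have e1 : ∀ (g : R) l, c * (a g * φ (Matrix.single l o 1)) -
        ∑ i, y i (g, l) • (a i.1 * φ (Matrix.single i.2 o 1)) =
        L.cE B ((c * z - zF * c') * star (L.u (g.1, 1))) * φ (Matrix.single l o 1) := fun g l => by
      rw [sub_mul, map_sub, mul_assoc c z, hc.cE_mul, sub_mul, mul_assoc c, Finset.sum_mul,
        Finset.sum_mul, map_sum, Finset.sum_mul, Fintype.sum_prod_type, ← Finset.sum_coe_sort R]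
      congr 1
      refine Finset.sum_congr rfl fun g' _ => ?_
      rw [mul_assoc (a _), mul_assoc (a _), (ha _).cE_mul, ← hy, mul_assoc, gap_col, Finset.mul_sum]
      simp only [Matrix.of_apply, mul_smul_comm]
    rw [Fintype.sum_prod_type]
    simp only [e1, gap_sum_units]
    rw [Finset.sum_coe_sort R fun g => t.n2 (L.cE B ((c * z - zF * c') * star (L.u (g, 1)))) ^ 2]
    refine (bessel _).trans (pow_le_pow_left₀ (L.m_nonneg _ _) ?_ 2)
    have e2 := L.m_le_add (c * z - zF * c') ((z - zF) * c') (D ×ˢ Set.univ)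
    have e3 := hc'.m_mul_le' (E := D ×ˢ Set.univ) (E' := D ×ˢ Set.univ) n'
      (fun k hk g => by simp [hD k.1 hk.1 g.1]) (z - zF)
    rw [show c * z - zF * c' - (z - zF) * c' = c * z - z * c' by noncomm_ring] at e2
    linarith
  choose! M hM using fun k => hY (b' k) (hb' k).2
  have he : 0 ≤ e := (L.m_nonneg _ _).trans h3
  have hη : 0 ≤ η := (t.n2_nonneg _).trans (h1 0)
  have hcard : (Fintype.card (Fin (2 ^ J.card)) : ℂ) ≠ 0 := by simp
  have main := core (L.alg (N.prod ⊤)) (L.alg B)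
    (fun x hx => TwAlg.In.mono hx (Subgroup.prod_mono hK le_top))
    (e := φ (Matrix.single o o 1))
    ⟨by rw [IsIdempotentElem, ← map_mul, Matrix.single_mul_single_same, one_mul],
      gap_star_single φ o o⟩ (hφB _) Fintype.card_pos
    (by
      have := t.τ_single_mul φ (b := 1) (by simp) o
      rw [mul_one, t.map_one] at this
      rw [eq_div_iff hcard, mul_comm, this])
    (freeUnits L hH hF hfree hesc hinf J φ hφ hφ' o) (ι := R × Fin (2 ^ J.card))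
    (fun j => a j.1 * φ (Matrix.single j.2 o 1))
    (fun j => ⟨(ha _).kmul (hφB _), by
      rw [mul_assoc, ← map_mul, Matrix.single_mul_single_same, one_mul]⟩)
    (fun x hx => by
      have e1 : ∀ j : R × Fin (2 ^ J.card), t.n2 (star (a j.1 * φ (Matrix.single j.2 o 1)) * x) =
          t.n2 (L.cE B (star x * z * star (L.u (j.1.1, 1))) * φ (Matrix.single j.2 o 1)) := fun j => by
        rw [← t.n2_star, star_mul, star_star, mul_assoc (star x) z,
          (TwAlg.In.kstar (L := L) hx).cE_mul, mul_assoc]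
      simp only [e1]
      rw [Fintype.sum_prod_type]
      simp only [gap_sum_units]
      rw [Finset.sum_coe_sort R fun g => t.n2 (L.cE B (star x * z * star (L.u (g, 1)))) ^ 2]
      refine (bessel _).trans (pow_le_pow_left₀ (L.m_nonneg _ _) ((L.m_le_n2 _ _).trans ?_) 2)
      exact (t.n2_mul_le_of_le' _ hz).trans_eq (t.n2_star x))
    b (fun k => ⟨(hb k).2, (hb k).1⟩) (fun k => Matrix.of fun i j => M k i.1 j.1 i.2 j.2)
    (add_nonneg hη he) hδ
    (fun k => key _ _ (hb k).2 (hb' k).1 (hb' k).2 (h1 k) _ fun g' g => hM k _ g'.2 _ g.2)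
    (fun k => key _ _ (hb k).2.kstar (by simpa using (hb' k).1) (hb' k).2.kstar (h2 k)
      (Matrix.of fun i j => conj (M k j.1 i.1 j.2 i.2)) fun g' g => by
        have := congrArg star (hM k _ g.2 _ g'.2)
        rw [← L.cE_star, star_mul, star_mul, star_star, ← mul_assoc, ← map_star] at this
        exact this) h
  rw [Fintype.sum_prod_type] at main
  simp only [gap_sum_units] at main
  rw [Finset.sum_coe_sort R fun g => t.n2 (a g) ^ 2, ← hr, Real.sqrt_sq (t.n2_nonneg _)] at main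
  have e4 := L.m_add_le zF (z - zF) (D ×ˢ Set.univ)
  rw [add_sub_cancel] at e4
  linarith [L.m_le_n2 zF (D ×ˢ Set.univ)]

theorem gapL (L : TwAlg (εP X) t) {N K K' : Subgroup X} (T : Tails N) (hK : K ≤ N) {D : Set X}
    (hD : FreeOn K K' D) {b b' : Fin 2 → A}
    (hb : ∀ i, ‖b i‖ ≤ 1 ∧ L.In (b i) (K.prod (⊤ : Subgroup SG)))
    (hb' : ∀ i, ‖b' i‖ ≤ 1 ∧ L.In (b' i) (K'.prod (⊤ : Subgroup SG))) {z : A} (hz : ‖z‖ ≤ 1)
    {η δ : ℝ} (hδ : 0 ≤ δ) (h : NM t (L.alg (N.prod ⊤)) δ b)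
    (h1 : ∀ i, t.n2 (b i * z - z * b' i) ≤ η)
    (h2 : ∀ i, t.n2 (star (b i) * z - z * star (b' i)) ≤ η) :
    L.m z (D ×ˢ Set.univ) ≤ 10 ^ 6 * (η + δ) := by
  classical
  obtain ⟨R, hR, hR1, hR2⟩ := hD.exists_reps
  choose! r hr hr' using hR1
  let B : ℕ → Subgroup (X × SG) := fun m => (K ⊓ T.H m).prod (SJ (mid 0 m : Finset Site))
  have hB : Monotone B := fun m m' hm => Subgroup.prod_mono (inf_le_inf_left _ (T.mono hm))
    (SJ_mono (by rw [coe_mid_zero, coe_mid_zero]; exact lo_mono hm))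
  have hex : ∀ g ∈ K.prod (⊤ : Subgroup SG), ∃ m, g ∈ B m := fun g hg => by
    obtain ⟨m, hm⟩ := T.exh _ (hK hg.1)
    obtain ⟨m', hm'⟩ := exists_lo g.2
    exact ⟨max m m', ⟨hg.1, T.mono (le_max_left _ _) hm⟩, SJ_mono
      (by rw [coe_mid_zero]; exact lo_mono (le_max_right _ _)) hm'⟩
  have main : ∀ e > 0, L.m z (D ×ˢ Set.univ) ≤ 10 ^ 6 * (η + e + e + (δ + 210 * e)) + e := by
    intro e he
    obtain ⟨F, hF, hF'⟩ := L.exists_fin_PE (D ×ˢ Set.univ) (t.Λ z) he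
    choose! l hl using fun g (hg : g ∈ F) => hex (g * (r g.1, 1)⁻¹) ⟨hr' _ (hF g hg).1, trivial⟩
    choose n hn using fun i => L.exists_level (b i) (fun m => B m) hB hex he
    let m := max (F.sup l) (Finset.univ.sup n)
    have hc : ∀ i, t.n2 (b i - L.cE (B m) (b i)) ≤ e := fun i => by
      rw [L.n2_sub_cE, (hb i).2.m_eq, Set.inter_comm]
      exact hn i m ((Finset.le_sup (Finset.mem_univ i)).trans (le_max_right _ _))
    refine gap_level L (K := K ⊓ T.H m) (K' := K') (inf_le_left.trans hK) inf_le_right (T.F_le m)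
      (T.free m) (T.esc m) (T.inf m) (mid 0 m) hD.right (F.image fun g => r g.1) ?_ ?_
      (b := fun i => L.cE (B m) (b i))
      (fun i => ⟨(L.norm_cE_le _ _).trans (hb i).1, L.cE_in _ _⟩) hb' hz (by positivity)
      (h.perturb hc) (fun i => ?_) (fun i => ?_) ((L.m_mono z ?_).trans hF')
    · intro g hg k hk
      obtain ⟨x, hx, rfl⟩ := Finset.mem_image.1 hg
      exact (hD.left k hk.1 _).2 (hR (hr _ (hF x hx).1))
    · intro g hg g' hg' k' hk' hk
      obtain ⟨x, hx, rfl⟩ := Finset.mem_image.1 hg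
      obtain ⟨x', hx', rfl⟩ := Finset.mem_image.1 hg'
      exact hR2 _ (hr _ (hF x hx).1) _ (hr _ (hF x' hx').1) k' hk' hk.1
    · have e1 := t.n2_triangle (L.cE (B m) (b i) * z) (b i * z) (z * b' i)
      have e2 := t.n2_mul_le_of_le' (L.cE (B m) (b i) - b i) hz
      rw [sub_mul, t.n2_sub_comm _ (b i)] at e2
      linarith [hc i, h1 i]
    · have e1 := t.n2_triangle (star (L.cE (B m) (b i)) * z) (star (b i) * z) (z * star (b' i))
      have e2 := t.n2_mul_le_of_le' (star (L.cE (B m) (b i) - b i)) hz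
      rw [t.n2_star, star_sub, sub_mul, t.n2_sub_comm _ (b i)] at e2
      linarith [hc i, h2 i]
    · refine fun x hx => ⟨hx.1, fun hxF => hx.2 ?_⟩
      simp only [Set.mem_iUnion]
      exact ⟨_, Finset.mem_image_of_mem _ hxF,
        hB ((Finset.le_sup hxF).trans (le_max_left _ _)) (hl x hxF)⟩
  refine le_of_forall_pos_le_add fun e he => (main (e / 10 ^ 9) (by positivity)).trans ?_
  linarith

end Pool.Agent.P.MP_a6af55_an
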