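import Pool.Agent.P.MP_a6af55_an.SMTw2

namespace Pool.Agent.P.MP_a6af55_an

open Pool.Agent.Lib.Tracial
open scoped ComplexOrder InnerProductSpace ComplexConjugate Pointwise
open Filter Topology

variable {A C : Type*} [CStarAlgebra A] [CStarAlgebra C] {Γ : Type*} [Group Γ]
  {ε : Γ →* Γ →* ℤˣ} {t : TrState A} {s : TrState C}

section ext

variable (L : TwAlg ε t) (R : TwRep ε s) (V : t.L2 →ₗᵢ[ℂ] s.L2)
  (hV : ∀ g, V (t.Λ (L.u g)) = s.Λ (R.u g))

include hV

lemma W_rmul (g : Γ) (ξ : t.L2) : V (t.rmul (L.u g) ξ) = s.rmul (R.u g) (V ξ) := by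
  have : V.toContinuousLinearMap.comp (t.rmul (L.u g)) =
      (s.rmul (R.u g)).comp V.toContinuousLinearMap := L.ext_u fun h => by
    simp [L.u_mul, R.u_mul, hV]
  exact congrArg (fun T : t.L2 →L[ℂ] s.L2 => T ξ) this

lemma W_π {p : A} {b : C} (h : V (t.Λ p) = s.Λ b) (ξ : t.L2) : V (t.π p ξ) = s.π b (V ξ) := by
  have : V.toContinuousLinearMap.comp (t.π p) = (s.π b).comp V.toContinuousLinearMap :=
    L.ext_u fun g => by
      have := W_rmul L R V hV g (t.Λ p)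
      simpa [hV, h] using this
  exact congrArg (fun T : t.L2 →L[ℂ] s.L2 => T ξ) this

lemma W_one : V (t.Λ 1) = s.Λ 1 := by simpa [L.u_one, R.u_one] using hV 1

lemma W_mul {p q : A} {b c : C} (h : V (t.Λ p) = s.Λ b) (h' : V (t.Λ q) = s.Λ c) :
    V (t.Λ (p * q)) = s.Λ (b * c) := by
  rw [← t.π_Λ, W_π L R V hV h, h', s.π_Λ]

lemma W_star {p : A} {b : C} (h : V (t.Λ p) = s.Λ b) : V (t.Λ (star p)) = s.Λ (star b) := by
  have h1 : ⟪V (t.Λ (star p)), s.Λ (star b)⟫_ℂ = (t.n2 p ^ 2 : ℝ) := by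
    rw [← mul_one (star b), ← s.π_Λ, map_star s.π, ContinuousLinearMap.star_eq_adjoint,
      ContinuousLinearMap.adjoint_inner_right, ← W_π L R V hV h, ← W_one L R V hV,
      V.inner_map_map, t.π_Λ, t.inner_Λ, t.n2_sq', mul_one, star_mul, star_star, t.trace]
  rw [← sub_eq_zero, ← norm_eq_zero, ← pow_eq_zero_iff two_ne_zero, @norm_sub_sq ℂ, h1, V.norm_map,
    t.norm_Λ, s.norm_Λ, t.n2_star, s.n2_star, V_n2 V h]
  simp only [RCLike.re_to_complex, Complex.ofReal_re]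
  ring

lemma W_exists [s.W] (x : A) : ∃ b, V (t.Λ x) = s.Λ b := by
  wlog hx : ‖x‖ ≤ 1 generalizing x
  · have h0 : (‖x‖ : ℂ) ≠ 0 := by
      have : 0 < ‖x‖ := by linarith
      exact_mod_cast this.ne'
    obtain ⟨a, ha⟩ := this ((‖x‖ : ℂ)⁻¹ • x) (by
      rw [norm_smul, norm_inv, Complex.norm_real, norm_norm]
      exact inv_mul_le_one_of_le₀ le_rfl (norm_nonneg _))
    exact ⟨(‖x‖ : ℂ) • a, by rw [map_smul, ← ha, map_smul, map_smul, smul_inv_smul₀ h0]⟩
  let B : StarSubalgebra ℂ C :=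
    { carrier := {b | ∃ p, V (t.Λ p) = s.Λ b}
      mul_mem' := fun ⟨_, h⟩ ⟨_, h'⟩ => ⟨_, W_mul L R V hV h h'⟩
      add_mem' := fun ⟨p, h⟩ ⟨q, h'⟩ => ⟨p + q, by simp [h, h']⟩
      algebraMap_mem' := fun c => ⟨c • 1, by
        simp [Algebra.algebraMap_eq_smul_one, W_one L R V hV]⟩
      star_mem' := fun ⟨_, h⟩ => ⟨_, W_star L R V hV h⟩ }
  have h1 : V (t.Λ x) ∈ closure (s.Λ '' B.topologicalClosure) := by
    refine mem_closure_of_tendsto ((L.hasSum_c x).mapL V.toContinuousLinearMap)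
      (Eventually.of_forall fun F => ⟨∑ g ∈ F, L.c x g • R.u g, subset_closure
        ⟨∑ g ∈ F, L.c x g • L.u g, by simp [hV]⟩, by simp [hV]⟩)
  have hc := GrpAlg.cont_Λ s
  have h2 := s.key _ B.isClosed_topologicalClosure _ h1 fun b₁ h₁ b₂ h₂ => by
    have := map_mem_closure₂ (f := fun b₁ b₂ : C => ‖s.Λ b₁‖ * ‖s.Λ b₂‖ -
      ‖⟪s.Λ (b₁ * b₂), V (t.Λ x)⟫_ℂ‖) (u := Set.Ici 0) (by
        unfold Function.uncurry; fun_prop) h₁ h₂ (by
      rintro b₁ ⟨p₁, h₁⟩ b₂ ⟨p₂, h₂⟩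
      rw [Set.mem_Ici, sub_nonneg, ← W_mul L R V hV h₁ h₂, V.inner_map_map, s.norm_Λ, s.norm_Λ,
        V_n2 V h₁, V_n2 V h₂]
      exact t.key_hyp hx _ _)
    rwa [closure_Ici, Set.mem_Ici, sub_nonneg] at this
  obtain ⟨a, -, ha⟩ := s.exists_of_mem_closure (fun a ha => ha.2) h2
  exact ⟨a, ha.symm⟩

end ext

/-- Trace preserving homomorphisms. -/
def TP (t : TrState A) (s : TrState C) (φ : A →⋆ₐ[ℂ] C) : Prop := ∀ a, s.τ (φ a) = t.τ a

lemma TP.n2 {φ : A →⋆ₐ[ℂ] C} (h : TP t s φ) (a : A) : s.n2 (φ a) = t.n2 a := s.n2_map φ h a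

lemma TP.cm {φ : A →⋆ₐ[ℂ] C} (h : TP t s φ) (a b : A) : s.cm (φ a) (φ b) = t.cm a b :=
  cm_map φ h a b

lemma TP.injective [t.W] {φ : A →⋆ₐ[ℂ] C} (h : TP t s φ) : Function.Injective φ :=
  (injective_iff_map_eq_zero φ).2 fun a ha => t.eq_zero_of_n2 (by rw [← h.n2, ha, s.n2_zero])

lemma TP.norm [t.W] {φ : A →⋆ₐ[ℂ] C} (h : TP t s φ) (a : A) : ‖φ a‖ = ‖a‖ :=
  NonUnitalStarAlgHom.norm_map φ h.injective a

lemma TP.comp {D : Type*} [CStarAlgebra D] {r : TrState D} {φ : A →⋆ₐ[ℂ] C} {ψ : C →⋆ₐ[ℂ] D}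
    (h' : TP s r ψ) (h : TP t s φ) : TP t r (ψ.comp φ) := fun a => (h' _).trans (h a)

lemma hom_norm_le (φ : A →⋆ₐ[ℂ] C) {a : A} (ha : ‖a‖ ≤ 1) : ‖φ a‖ ≤ 1 :=
  (NonUnitalStarAlgHom.norm_apply_le φ a).trans ha

/-- The isometry of a trace preserving homomorphism. -/
lemma TP.exists_clm {φ : A →⋆ₐ[ℂ] C} (h : TP t s φ) :
    ∃ V : t.L2 →L[ℂ] s.L2, (∀ a, V (t.Λ a) = s.Λ (φ a)) ∧ ∀ ξ, ‖V ξ‖ = ‖ξ‖ := by
  let f : t.PreL2 →L[ℂ] s.L2 := LinearMap.mkContinuous
    ((s.Λ.comp φ.toAlgHom.toLinearMap).comp t.toPre.symm.toLinearMap) 1 fun a => by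
      rw [one_mul]
      exact (h.n2 (t.toPre.symm a)).le.trans_eq (UniformSpace.Completion.norm_coe a)
  let V₀ : UniformSpace.Completion t.PreL2 →L[ℂ] s.L2 := f.extend UniformSpace.Completion.toComplL
  let V : t.L2 →L[ℂ] s.L2 := V₀
  have hV₀ : ∀ a : t.PreL2, V₀ (UniformSpace.Completion.toComplL (𝕜 := ℂ) a) = f a := fun a =>
    f.extend_eq UniformSpace.Completion.denseRange_coe
      (UniformSpace.Completion.isUniformInducing_coe _) a
  have hV : ∀ a, V (t.Λ a) = s.Λ (φ a) := fun a => hV₀ (t.toPre a)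
  refine ⟨V, hV, fun ξ => ?_⟩
  refine t.denseRange_Λ.induction_on ξ (isClosed_eq (by fun_prop) (by fun_prop)) fun a => ?_
  rw [hV, s.norm_Λ, t.norm_Λ, h.n2]

namespace TwAlg

variable (L : TwAlg ε t)

theorem exists_hom (R : TwRep ε s) [s.W] :
    ∃ φ : A →⋆ₐ[ℂ] C, TP t s φ ∧ ∀ g, φ (L.u g) = R.u g := by
  obtain ⟨V, hV⟩ := exists_isom L.basis R.orth
  simp only [L.basis_apply] at hV
  choose f hf using W_exists L R V hV
  have h1 := W_one L R V hV
  refine ⟨{ toFun := f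
            map_one' := s.Λ_injective (by rw [← hf, h1])
            map_mul' := fun a b => s.Λ_injective (by rw [← hf, W_mul L R V hV (hf a) (hf b)])
            map_zero' := s.Λ_injective (by simp [← hf])
            map_add' := fun a b => s.Λ_injective (by simp [← hf])
            commutes' := fun c => s.Λ_injective (by
              simp [← hf, Algebra.algebraMap_eq_smul_one, h1])
            map_star' := fun a => s.Λ_injective (by rw [← hf, W_star L R V hV (hf a)]) },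
    fun a => ?_, fun g => s.Λ_injective ((hf _).symm.trans (hV g))⟩
  have := V.inner_map_map (t.Λ 1) (t.Λ a)
  rw [h1, hf, s.inner_Λ, t.inner_Λ, star_one, star_one, one_mul, one_mul] at this
  exact this

variable {L} in
lemma In.hom_eq [s.W] {x : A} {E : Set Γ} (hx : L.In x E) {φ ψ : A →⋆ₐ[ℂ] C} (h1 : TP t s φ)
    (h2 : TP t s ψ) (h : ∀ g ∈ E, φ (L.u g) = ψ (L.u g)) : φ x = ψ x := by
  obtain ⟨V, hV, -⟩ := h1.exists_clm
  obtain ⟨V', hV', -⟩ := h2.exists_clm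
  have := hx.map_eq_zero (V - V') fun g hg => by simp [hV, hV', h g hg]
  exact s.Λ_injective (by simpa [hV, hV', sub_eq_zero] using this)

lemma hom_ext [s.W] {φ ψ : A →⋆ₐ[ℂ] C} (h1 : TP t s φ) (h2 : TP t s ψ)
    (h : ∀ g, φ (L.u g) = ψ (L.u g)) : φ = ψ :=
  StarAlgHom.ext fun x => (L.in_univ x).hom_eq h1 h2 fun g _ => h g

section map

variable {Γ' : Type*} [Group Γ'] {ε' : Γ' →* Γ' →* ℤˣ} (L' : TwAlg ε' s) {φ : A →⋆ₐ[ℂ] C}
  (hφ : TP t s φ) {j : Γ → Γ'} (h : ∀ g, ∃ a : ℂ, φ (L.u g) = a • L'.u (j g))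

include hφ h

lemma m_map (x : A) (E : Set Γ') : L'.m (φ x) E = L.m x (j ⁻¹' E) := by
  obtain ⟨V, hV, hV'⟩ := hφ.exists_clm
  have : (L'.PE E).comp V = V.comp (L.PE (j ⁻¹' E)) := L.ext_u fun g => by
    obtain ⟨a, ha⟩ := h g
    by_cases hg : j g ∈ E
    · simp [hV, ha, L'.PE_u_mem hg, L.PE_u_mem (E := j ⁻¹' E) hg]
    · simp [hV, ha, L'.PE_u_not hg, L.PE_u_not (E := j ⁻¹' E) hg]
  rw [m, ← hV, m, ← hV' (L.PE _ _)]
  exact congrArg (fun T : t.L2 →L[ℂ] s.L2 => ‖T (t.Λ x)‖) this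

lemma in_map {x : A} {E : Set Γ} (hx : L.In x E) {E' : Set Γ'} (hE : ∀ g ∈ E, j g ∈ E') :
    L'.In (φ x) E' := by
  rw [in_iff_m, L.m_map L' hφ h, Set.preimage_compl, ← in_iff_m]
  exact hx.mono hE

lemma exists_preimage [t.W] [s.W] {y : C} (hy : L'.In y (Set.range j)) : ∃ x, φ x = y := by
  wlog h1 : ‖y‖ ≤ 1 generalizing y
  · have h0 : (‖y‖ : ℂ) ≠ 0 := by
      have : 0 < ‖y‖ := by linarith
      exact_mod_cast this.ne'
    obtain ⟨a, ha⟩ := this (hy.smul (‖y‖ : ℂ)⁻¹) (by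
      rw [norm_smul, norm_inv, Complex.norm_real, norm_norm]
      exact inv_mul_le_one_of_le₀ le_rfl (norm_nonneg _))
    exact ⟨(‖y‖ : ℂ) • a, by rw [map_smul, ha, smul_inv_smul₀ h0]⟩
  obtain ⟨V, hV, hV'⟩ := hφ.exists_clm
  have hi : Isometry V := AddMonoidHomClass.isometry_of_norm V hV'
  have hc : IsClosed (φ.range : Set C) :=
    (AddMonoidHomClass.isometry_of_norm φ hφ.norm).isClosedEmbedding.isClosed_range
  have h2 : s.Λ y ∈ closure (s.Λ '' φ.range) := by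
    refine mem_closure_of_tendsto (L'.hasSum_c y) (Eventually.of_forall fun F =>
      ⟨∑ g ∈ F, L'.c y g • L'.u g, sum_mem fun g _ => ?_, by simp⟩)
    by_cases hg : g ∈ Set.range j
    · obtain ⟨k, rfl⟩ := hg
      obtain ⟨a, ha⟩ := h k
      have h0 : a ≠ 0 := by
        rintro rfl
        have := hφ.n2 (L.u k)
        rw [ha, zero_smul, s.n2_zero, L.n2_u] at this
        exact zero_ne_one this
      exact ⟨(L'.c y (j k) * a⁻¹) • L.u k, by
        change φ _ = _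
        rw [map_smul, ha, smul_smul, inv_mul_cancel_right₀ h0]⟩
    · rw [hy g hg, zero_smul]; exact zero_mem _
  have h3 := s.kaplansky _ hc h1 h2
  have h4 : IsClosed (V '' (t.Λ '' Metric.closedBall 0 1)) :=
    hi.isClosedEmbedding.isClosedMap _ TrState.W.closed
  obtain ⟨_, ⟨x, -, rfl⟩, hx⟩ := h4.closure_subset_iff.2 (by
    rintro _ ⟨_, ⟨⟨a, rfl⟩, ha⟩, rfl⟩
    exact ⟨_, ⟨a, by simpa [← hφ.norm] using ha, rfl⟩, hV a⟩) h3
  exact ⟨x, s.Λ_injective ((hV x).symm.trans hx)⟩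

end map

/-- Transport along an isomorphism. -/
noncomputable def transport (e : A ≃⋆ₐ[ℂ] C) (he : ∀ a, s.τ (e a) = t.τ a) : TwAlg ε s where
  u g := e (L.u g)
  unit g := map_unitary (e : A →⋆ₐ[ℂ] C) (L.unit g)
  u_one := by rw [L.u_one, map_one]
  u_mul g h := by rw [← map_mul, L.u_mul, map_smul]
  τ_u g hg := by rw [he, L.τ_u g hg]
  dense x δ hδ := by
    obtain ⟨x, rfl⟩ := EquivLike.surjective e x
    obtain ⟨p, hp, h⟩ := L.dense x δ hδ
    refine ⟨e p, ?_, ?_⟩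
    · have := Submodule.apply_mem_span_image_of_mem_span
        (e : A →⋆ₐ[ℂ] C).toAlgHom.toLinearMap hp
      rwa [← Set.range_comp] at this
    · rw [← map_sub]
      exact (s.n2_map (e : A →⋆ₐ[ℂ] C) he _).trans_le h

end TwAlg

section construction

variable {G H : Type} [Group G] [NormedAddCommGroup H] [InnerProductSpace ℂ H] [CompleteSpace H]
  (b : HilbertBasis G ℂ H)

omit [Group G] [CompleteSpace H] in
lemma orth_sg (σ : G ≃ G) (f : G → ℂ) (hf : ∀ g, f g * f g = 1 ∧ conj (f g) = f g) :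
    Orthonormal ℂ fun g => f g • b (σ g) := by
  classical
  rw [orthonormal_iff_ite]
  intro g h
  rw [inner_smul_left, inner_smul_right, orthonormal_iff_ite.1 b.orthonormal, (hf g).2]
  by_cases e : g = h
  · simp [e, (hf h).1]
  · simp [e]

/-- A signed permutation of a Hilbert basis. -/
noncomputable def sperm (σ : G ≃ G) (f : G → ℂ) (hf : ∀ g, f g * f g = 1 ∧ conj (f g) = f g) :
    H →L[ℂ] H := (exists_isom b (orth_sg b σ f hf)).choose.toContinuousLinearMap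

omit [Group G] in
lemma sperm_apply (σ : G ≃ G) (f : G → ℂ) (hf : ∀ g, f g * f g = 1 ∧ conj (f g) = f g) (g : G) :
    sperm b σ f hf (b g) = f g • b (σ g) := (exists_isom b (orth_sg b σ f hf)).choose_spec g

variable (ε : G →* G →* ℤˣ)

/-- Twisted right translations. -/
noncomputable def rho (g : G) : H →L[ℂ] H :=
  sperm b (Equiv.mulRight g) (fun h => sg ε h g) fun _ => ⟨sg_mul_self _ _ _, conj_sg _ _ _⟩

/-- Twisted left translations. -/
noncomputable def lam0 (g : G) : H →L[ℂ] H :=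
  sperm b (Equiv.mulLeft g) (fun h => sg ε g h) fun _ => ⟨sg_mul_self _ _ _, conj_sg _ _ _⟩

lemma rho_apply (g h : G) : rho b ε g (b h) = sg ε h g • b (h * g) := sperm_apply b _ _ _ h

lemma lam0_apply (g h : G) : lam0 b ε g (b h) = sg ε g h • b (g * h) := sperm_apply b _ _ _ h

lemma star_rho (g : G) : star (rho b ε g) = sg ε g g • rho b ε g⁻¹ := by
  classical
  refine hb_ext b fun i => hb_ext_inner b fun j => ?_
  rw [ContinuousLinearMap.star_eq_adjoint, ContinuousLinearMap.adjoint_inner_right, rho_apply,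
    smul_apply, rho_apply, inner_smul_left, inner_smul_right, inner_smul_right,
    orthonormal_iff_ite.1 b.orthonormal, orthonormal_iff_ite.1 b.orthonormal, conj_sg]
  by_cases h : j * g = i
  · subst h
    simp [sg_mul_left, sg_inv_right, mul_left_comm (sg ε g g), sg_mul_self]
  · simp [h, eq_mul_inv_iff_mul_eq]

lemma star_lam0 (g : G) : star (lam0 b ε g) = sg ε g g • lam0 b ε g⁻¹ := by
  classical
  refine hb_ext b fun i => hb_ext_inner b fun j => ?_
  rw [ContinuousLinearMap.star_eq_adjoint, ContinuousLinearMap.adjoint_inner_right, lam0_apply,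
    smul_apply, lam0_apply, inner_smul_left, inner_smul_right, inner_smul_right,
    orthonormal_iff_ite.1 b.orthonormal, orthonormal_iff_ite.1 b.orthonormal, conj_sg]
  by_cases h : g * j = i
  · subst h
    simp [sg_mul_right, sg_inv_left, ← mul_assoc (sg ε g g), sg_mul_self]
  · simp [h, eq_inv_mul_iff_mul_eq]

lemma lam0_rho (g h : G) : rho b ε h * lam0 b ε g = lam0 b ε g * rho b ε h :=
  hb_ext b fun k => by
    simp only [mul_apply_eq_comp, rho_apply, lam0_apply, map_smul, smul_smul, sg_mul_left,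
      sg_mul_right, mul_assoc]
    rw [mul_left_comm (sg ε k h), mul_comm (sg ε k h)]

/-- The twisted group von Neumann algebra. -/
noncomputable def tvn : VonNeumannAlgebra H where
  toStarSubalgebra := StarSubalgebra.centralizer ℂ (Set.range (rho b ε))
  centralizer_centralizer' := Set.centralizer_centralizer_centralizer _

lemma tvn_apply (T : VNAlg (tvn b ε)) (g : G) : T.op (b g) = rho b ε g (T.op (b 1)) := by
  have := (((StarSubalgebra.mem_centralizer_iff ℂ).1 T.2) _ ⟨g, rfl⟩).1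
  have h := congrArg (fun S : H →L[ℂ] H => S (b 1)) this
  simp only [mul_apply_eq_comp, rho_apply, sg_one_left, one_smul, one_mul] at h
  exact h.symm

lemma tinner_star_op (S T : VNAlg (tvn b ε)) :
    ⟪b 1, (star S * T).op (b 1)⟫_ℂ = ⟪S.op (b 1), T.op (b 1)⟫_ℂ :=
  ContinuousLinearMap.adjoint_inner_right S.op (b 1) (T.op (b 1))

lemma thasSum_tr (S T : VNAlg (tvn b ε)) :
    HasSum (fun g => sg ε g g * (⟪b g⁻¹, S.op (b 1)⟫_ℂ * ⟪b g, T.op (b 1)⟫_ℂ))
      ⟪b 1, (S * T).op (b 1)⟫_ℂ := by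
  have := b.hasSum_inner_mul_inner ((star S).op (b 1)) (T.op (b 1))
  rw [← tinner_star_op, star_star] at this
  suffices h : ∀ g, ⟪(star S).op (b 1), b g⟫_ℂ = sg ε g g * ⟪b g⁻¹, S.op (b 1)⟫_ℂ by
    simpa only [h, mul_assoc] using this
  intro g
  change ⟪ContinuousLinearMap.adjoint S.op _, _⟫_ℂ = _
  rw [ContinuousLinearMap.adjoint_inner_left, tvn_apply b ε S g,
    ← ContinuousLinearMap.adjoint_inner_left (rho b ε _), ← ContinuousLinearMap.star_eq_adjoint,
    star_rho, smul_apply, rho_apply, inner_smul_left, conj_sg]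
  simp

/-- The vector trace. -/
noncomputable def tvtr : TrState (VNAlg (tvn b ε)) where
  τ :=
    { toFun T := ⟪b 1, T.op (b 1)⟫_ℂ
      map_add' _ _ := inner_add_right _ _ _
      map_smul' _ _ := inner_smul_right _ _ _ }
  map_one := by
    change ⟪b 1, b 1⟫_ℂ = 1
    simp [b.orthonormal.1 1]
  nonneg T := by
    change 0 ≤ ⟪b 1, (star T * T).op (b 1)⟫_ℂ
    rw [tinner_star_op, inner_self_eq_norm_sq_to_K]
    exact pow_nonneg (Complex.zero_le_real.2 (norm_nonneg (T.op (b 1)))) 2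
  trace S T := (thasSum_tr b ε S T).unique (by
    have := (Equiv.inv G).hasSum_iff.2 (thasSum_tr b ε T S)
    simp only [Function.comp_def, Equiv.inv_apply, sg_inv_left, sg_inv_right, inv_inv] at this
    simp only [mul_comm ⟪b _⁻¹, S.op (b 1)⟫_ℂ]
    exact this)

lemma tvtr_τ (T : VNAlg (tvn b ε)) : (tvtr b ε).τ T = ⟪b 1, T.op (b 1)⟫_ℂ := rfl

lemma tvtr_n2 (T : VNAlg (tvn b ε)) : (tvtr b ε).n2 T = ‖T.op (b 1)‖ := by
  rw [← sq_eq_sq₀ (TrState.n2_nonneg _ _) (norm_nonneg _), TrState.n2_sq, tvtr_τ, tinner_star_op,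
    @InnerProductSpace.norm_sq_eq_re_inner ℂ]
  rfl

lemma tvtr_faithful : (tvtr b ε).Faithful := fun T hT => by
  rw [tvtr_τ, tinner_star_op, inner_self_eq_zero] at hT
  refine Subtype.ext (hb_ext b fun g => ?_)
  exact (tvn_apply b ε T g).trans (by rw [hT, map_zero]; rfl)

lemma tvtr_normal : IsNormalFun (VNAlg.op (M := tvn b ε)) (tvtr b ε).τ := fun _ _ _ h => h _ _

/-- The twisted left regular representation. -/
noncomputable def tlam (g : G) : VNAlg (tvn b ε) :=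
  ⟨lam0 b ε g, (StarSubalgebra.mem_centralizer_iff ℂ).2 (by
    rintro _ ⟨h, rfl⟩
    exact ⟨lam0_rho b ε g h, by rw [star_rho, smul_mul_assoc, mul_smul_comm, lam0_rho]⟩)⟩

lemma lam0_mul (g h : G) : lam0 b ε g * lam0 b ε h = sg ε g h • lam0 b ε (g * h) :=
  hb_ext b fun k => by
    simp only [mul_apply_eq_comp, lam0_apply, map_smul, smul_smul, sg_mul_left, smul_apply,
      sg_mul_right, mul_assoc]
    rw [mul_comm (sg ε h k), mul_assoc]

lemma lam0_one : lam0 b ε 1 = 1 := hb_ext b fun k => by simp [lam0_apply]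

/-- The twisted group algebra structure. -/
noncomputable def tlg : TwAlg ε (tvtr b ε) where
  u := tlam b ε
  unit g := ⟨Subtype.ext (by
      change star (lam0 b ε g) * lam0 b ε g = 1
      rw [star_lam0, smul_mul_assoc, lam0_mul, smul_smul, sg_inv_left, sg_mul_self,
        inv_mul_cancel, lam0_one, one_smul]), Subtype.ext (by
      change lam0 b ε g * star (lam0 b ε g) = 1
      rw [star_lam0, mul_smul_comm, lam0_mul, smul_smul, sg_inv_right, sg_mul_self,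
        mul_inv_cancel, lam0_one, one_smul])⟩
  u_one := Subtype.ext (lam0_one b ε)
  u_mul g h := Subtype.ext (lam0_mul b ε g h)
  τ_u g hg := by
    change ⟪b 1, lam0 b ε g (b 1)⟫_ℂ = 0
    rw [lam0_apply, mul_one, inner_smul_right, b.orthonormal.2 hg.symm, mul_zero]
  dense T δ hδ := by
    obtain ⟨F, hF⟩ := (Metric.tendsto_nhds.1 (b.hasSum_repr (T.op (b 1))) _ hδ).exists
    refine ⟨∑ g ∈ F, b.repr (T.op (b 1)) g • tlam b ε g, Submodule.sum_mem _ fun g _ =>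
      Submodule.smul_mem _ _ (Submodule.subset_span ⟨g, rfl⟩), ?_⟩
    let ev : VNAlg (tvn b ε) →ₗ[ℂ] H :=
      { toFun T := T.op (b 1)
        map_add' _ _ := rfl
        map_smul' _ _ := rfl }
    have h1 : ∀ g, ev (tlam b ε g) = b g := fun g => (lam0_apply b ε g 1).trans (by simp)
    rw [dist_comm, dist_eq_norm] at hF
    rw [tvtr_n2]
    change ‖ev (T - ∑ g ∈ F, b.repr (T.op (b 1)) g • tlam b ε g)‖ ≤ δ
    simp only [map_sub, map_sum, map_smul, h1]
    exact hF.le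

theorem exists_twAlg : ∃ (A : Type) (_ : CStarAlgebra A) (t : TrState A) (_ : t.W),
    Nonempty (TwAlg ε t) := by
  let b : HilbertBasis G ℂ (lp (fun _ : G => ℂ) 2) := default
  exact ⟨_, _, tvtr b ε, W_of_normal _ _ (tvtr_faithful b ε) (tvtr_normal b ε), ⟨tlg b ε⟩⟩

theorem exists_twII1 (h : ∀ (A : Type) [CStarAlgebra A] (t : TrState A) [t.W],
    TwAlg ε t → IsInfFactor A) : ∃ N : II1Factor.{0}, Nonempty (TwAlg ε N.tr) := by
  let b : HilbertBasis G ℂ (lp (fun _ : G => ℂ) 2) := default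
  have := W_of_normal _ _ (tvtr_faithful b ε) (tvtr_normal b ε)
  exact ⟨⟨_, tvn b ε, tvtr b ε, tvtr_faithful b ε, tvtr_normal b ε, h _ _ (tlg b ε)⟩, ⟨tlg b ε⟩⟩

end construction

end Pool.Agent.P.MP_a6af55_an
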