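import Pool.Agent.P.MP_a6af55_an.SMPushA
import Pool.Agent.P.MP_a6af55_an.SMPauli2

namespace Pool.Agent.P.MP_a6af55_an

open Pool.Agent.Lib.Tracial
open scoped ComplexOrder InnerProductSpace ComplexConjugate Pointwise Real
open Filter Topology

section aux

variable {A : Type*} [CStarAlgebra A] {t : TrState A}

lemma pu_quad {b : A} (hb : ‖b‖ ≤ 1) (x : A) : (t.τ (star x * (b * x))).re ≤ t.n2 x ^ 2 := by
  have h1 := t.norm_τ_mul_le (star x) (b * x)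
  have h2 := mul_le_mul_of_nonneg_left (t.n2_mul_le_of_le hb x) (t.n2_nonneg x)
  rw [t.n2_star] at h1
  have h3 := Complex.re_le_norm (t.τ (star x * (b * x)))
  rw [sq]
  linarith

lemma pu_col {ι : Type*} (s : Finset ι) (ω : ι → A) (h : ‖∑ i ∈ s, star (ω i) * ω i‖ ≤ 1)
    (x : A) : ∑ i ∈ s, t.n2 (ω i * x) ^ 2 ≤ t.n2 x ^ 2 := by
  refine le_trans (le_of_eq ?_) (pu_quad h x)
  rw [Finset.sum_mul, Finset.mul_sum, map_sum, Complex.re_sum]
  exact Finset.sum_congr rfl fun i _ => by rw [t.n2_sq, star_mul, mul_assoc, mul_assoc]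

lemma pu_sub_sq (a b : A) :
    t.n2 (a - b) ^ 2 = t.n2 a ^ 2 - 2 * (t.τ (star b * a)).re + t.n2 b ^ 2 := by
  rw [t.n2_sub_comm, ← t.norm_Λ, map_sub, @norm_sub_sq ℂ, t.inner_Λ, t.norm_Λ, t.norm_Λ]
  simp only [RCLike.re_to_complex]
  ring

lemma pu_defect {ι : Type*} (s : Finset ι) (a w : ι → A)
    (h : ‖∑ i ∈ s, star (w i) * w i‖ ≤ 1) :
    ∑ i ∈ s, t.n2 (a i - (∑ j ∈ s, a j * w j) * star (w i)) ^ 2 ≤
      ∑ i ∈ s, t.n2 (a i) ^ 2 - t.n2 (∑ j ∈ s, a j * w j) ^ 2 := by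
  set u := ∑ j ∈ s, a j * w j with hu
  have h1 : ∑ i ∈ s, (t.τ (star (u * star (w i)) * a i)).re = t.n2 u ^ 2 := by
    rw [t.n2_sq, ← Complex.re_sum, ← map_sum]
    nth_rewrite 3 [hu]
    rw [Finset.mul_sum, map_sum, map_sum]
    exact congrArg _ (Finset.sum_congr rfl fun i _ => by
      rw [star_mul, star_star, mul_assoc, t.trace, mul_assoc])
  have h2 : ∑ i ∈ s, t.n2 (u * star (w i)) ^ 2 ≤ t.n2 u ^ 2 := by
    have := pu_col (t := t) s w h (star u)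
    rw [t.n2_star] at this
    refine le_trans (le_of_eq (Finset.sum_congr rfl fun i _ => ?_)) this
    rw [← t.n2_star, star_mul, star_star]
  simp only [pu_sub_sq, Finset.sum_add_distrib, Finset.sum_sub_distrib, ← Finset.mul_sum]
  linarith

lemma pu_PE_sum {Γ : Type*} [Group Γ] {ε : Γ →* Γ →* ℤˣ} (L : TwAlg ε t) {ι : Type*}
    (s : Finset ι) (E : ι → Set Γ) (h : ∀ i ∈ s, ∀ j ∈ s, i ≠ j → Disjoint (E i) (E j))
    (ξ : t.L2) : ∑ i ∈ s, L.PE (E i) ξ = L.PE (⋃ i ∈ s, E i) ξ := by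
  classical
  induction s using Finset.induction_on with
  | empty => simp [L.PE_empty]
  | insert a s ha ih =>
    rw [Finset.sum_insert ha, Finset.set_biUnion_insert, L.PE_union,
      ih fun i hi j hj => h i (Finset.mem_insert_of_mem hi) j (Finset.mem_insert_of_mem hj)]
    simp only [Set.disjoint_iUnion_right]
    exact fun i hi => h a (Finset.mem_insert_self a s) i (Finset.mem_insert_of_mem hi)
      fun e => ha (e ▸ hi)

lemma pu_ext {ι n M B : Type*} [Fintype n] [AddCommMonoid M] [Zero B] {F : Finset ι} (e : F ↪ n)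
    {a : n → B} (a0 : ∀ i ∉ Set.range e, a i = 0) (f : ι → M) (g : n → M)
    (h : ∀ i, a i = 0 → g i = 0) (h' : ∀ c : F, f c = g (e c)) : ∑ c ∈ F, f c = ∑ i, g i := by
  rw [← Finset.sum_coe_sort]
  exact Fintype.sum_of_injective e e.injective _ _ (fun i hi => h i (a0 i hi)) h'

end aux

variable {L0 : Type} {Γ0 : SimpleGraph L0} {A : Type*} [CStarAlgebra A] {t : TrState A} [t.W]
  {L : TwAlg (εP (HT Γ0)) t} (D : Deform L)

/-- A coset of the small group. -/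
def puC (c : HT Γ0) : Set (HT Γ0 × SG) := {g | c⁻¹ * g.1 ∈ GR Γ0}

lemma pu_le : (((GR Γ0).prod (⊤ : Subgroup SG) : Subgroup (HT Γ0 × SG)) : Set (HT Γ0 × SG)) ⊆
    ((HR Γ0).prod (⊤ : Subgroup SG) : Subgroup (HT Γ0 × SG)) :=
  fun _ h => ⟨Subgroup.map_le_range _ _ h.1, trivial⟩

lemma IsReps.disj {F : Finset (HT Γ0)} (hF : IsReps F) :
    ∀ c ∈ F, ∀ d ∈ F, c ≠ d → Disjoint (puC c) (puC d) := fun c hc d hd hne =>
  Set.disjoint_left.2 fun g h1 h2 => hne (hF.2 c hc d hd (by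
    simpa using (GR Γ0).mul_mem h1 ((GR Γ0).inv_mem h2)))

lemma IsReps.extend {F : Finset (HT Γ0)} (hF : IsReps F) (S : Finset (HT Γ0 × SG))
    (hS : ∀ g ∈ S, g.1 ∈ HR Γ0) :
    ∃ F', IsReps F' ∧ F ⊆ F' ∧ ∀ g ∈ S, ∃ c ∈ F', g ∈ puC c := by
  classical
  induction S using Finset.induction_on with
  | empty => exact ⟨F, hF, le_rfl, by simp⟩
  | insert g S _ ih =>
    obtain ⟨F', h1, h2, h3⟩ := ih fun k hk => hS k (Finset.mem_insert_of_mem hk)
    by_cases h : ∃ c ∈ F', g ∈ puC c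
    · exact ⟨F', h1, h2, (Finset.forall_mem_insert _ _ _).2 ⟨h, h3⟩⟩
    · refine ⟨insert g.1 F', ⟨(Finset.forall_mem_insert _ _ _).2
        ⟨hS g (Finset.mem_insert_self _ _), h1.1⟩, fun c hc d hd e => ?_⟩,
        h2.trans (Finset.subset_insert _ _), (Finset.forall_mem_insert _ _ _).2
          ⟨⟨g.1, Finset.mem_insert_self _ _, by simp [puC]⟩, fun k hk => ?_⟩⟩
      · rcases Finset.mem_insert.1 hc with rfl | hc <;> rcases Finset.mem_insert.1 hd with rfl | hd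
        · rfl
        · exact (h ⟨d, hd, by simpa [puC] using (GR Γ0).inv_mem e⟩).elim
        · exact (h ⟨c, hc, e⟩).elim
        · exact h1.2 c hc d hd e
      · obtain ⟨c, hc, e⟩ := h3 k hk
        exact ⟨c, Finset.mem_insert_of_mem hc, e⟩

variable (L) in
/-- The coefficient along a coset. -/
noncomputable def puO (Y : A) (c : HT Γ0) : A :=
  L.cE ((GR Γ0).prod (⊤ : Subgroup SG)) (star (L.U c) * Y)

lemma pu_Λ (Y : A) (c : HT Γ0) : t.Λ (L.U c * puO L Y c) = L.PE (puC c) (t.Λ Y) := by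
  have h := (L.in_u (E := {(c, 1)}) rfl).PE_π (E' := puC c)
    (E := ((GR Γ0).prod (⊤ : Subgroup SG) : Subgroup (HT Γ0 × SG))) (by
      rintro _ rfl g
      simp [puC, Subgroup.mem_prod]) (t.Λ (star (L.U c) * Y))
  rw [t.π_Λ, ← L.Λ_cE, t.π_Λ, TwRep.U_apply, ← mul_assoc, (L.unit _).2, one_mul] at h
  exact h.symm

lemma pu_bessel {F : Finset (HT Γ0)} (hF : IsReps F) (Y : A) :
    ∑ c ∈ F, t.n2 (puO L Y c) ^ 2 ≤ t.n2 Y ^ 2 := by
  have h := L.sum_m_le F puC (F := Set.univ) (fun _ _ => Set.subset_univ _) hF.disj Y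
  rw [L.m_univ] at h
  refine le_trans (le_of_eq (Finset.sum_congr rfl fun c _ => ?_)) h
  rw [TwAlg.m, ← pu_Λ, t.norm_Λ, TwRep.U_apply, t.n2_unitary_mul (L.unit _)]

lemma pu_approx {F : Finset (HT Γ0)} (hF : IsReps F) {Y : A}
    (hY : L.In Y ((HR Γ0).prod (⊤ : Subgroup SG))) {η : ℝ} (hη : 0 < η) :
    ∃ F', IsReps F' ∧ F ⊆ F' ∧ t.n2 (Y - ∑ c ∈ F', L.U c * puO L Y c) ≤ η := by
  obtain ⟨S, h1, h2⟩ := L.exists_fin_PE
    (((HR Γ0).prod (⊤ : Subgroup SG) : Subgroup (HT Γ0 × SG)) : Set (HT Γ0 × SG)) (t.Λ Y) hη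
  obtain ⟨F', k1, k2, k3⟩ := hF.extend S fun g hg => (h1 g hg).1
  refine ⟨F', k1, k2, le_trans ?_ h2⟩
  rw [← t.norm_Λ, map_sub, map_sum]
  simp only [pu_Λ]
  rw [pu_PE_sum L F' puC k1.disj, sub_eq_of_eq_add' (L.PE_add_compl _ (t.Λ Y)).symm]
  refine (hY.m_eq _).trans_le (L.m_mono Y fun g hg => ⟨hg.2, fun hS => hg.1 ?_⟩)
  obtain ⟨c, hc, e⟩ := k3 g hS
  exact Set.mem_biUnion hc e

lemma pu_O_mul (Y : A) (c : HT Γ0) {x : A} (hx : L.In x ((GR Γ0).prod (⊤ : Subgroup SG))) :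
    puO L (Y * x) c = puO L Y c * x := by
  rw [puO, puO, ← mul_assoc, hx.cE_mul']

lemma pu_col_n2 {F : Finset (HT Γ0)} (hF : IsReps F) (w : HT Γ0 → A)
    (h1 : ∀ c ∈ F, L.In (w c) ((GR Γ0).prod (⊤ : Subgroup SG))) :
    t.n2 (∑ c ∈ F, L.U c * w c) ^ 2 = ∑ c ∈ F, t.n2 (w c) ^ 2 := by
  rw [t.n2_sq, star_sum, Finset.sum_mul, map_sum, Complex.re_sum]
  refine Finset.sum_congr rfl fun c hc => ?_
  rw [Finset.mul_sum, map_sum, Finset.sum_eq_single_of_mem c hc fun d hd hne => ?_, t.n2_sq,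
    star_mul, mul_assoc, ← mul_assoc (star (L.U c)), TwRep.U_apply, (L.unit _).1, one_mul]
  rw [star_mul, mul_assoc, ← mul_assoc (star (L.U c)), L.star_U, ← map_mul,
    ← L.τ_cE ((GR Γ0).prod (⊤ : Subgroup SG)), (h1 c hc).kstar.cE_mul, (h1 d hd).cE_mul',
    TwRep.U_apply, (L.in_u (E := {(c⁻¹ * d, 1)}) rfl).cE_eq_zero, zero_mul, mul_zero, map_zero]
  rintro _ rfl h
  exact hne (hF.2 c hc d hd h.1).symm

lemma Deform.pu_T_mul (v x : A) {w : A} (hw : L.In w ((GR Γ0).prod (⊤ : Subgroup SG))) :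
    D.T v (x * w) = D.T v x * w := by
  rw [Deform.T, Deform.T, map_mul (D.α _), D.α_fix _ _ hw, ← mul_assoc, (hw.mono pu_le).cE_mul']

lemma Deform.pu_T_sub (v x y : A) : D.T v (x - y) = D.T v x - D.T v y := by
  simp only [Deform.T, map_sub, mul_sub]

lemma Deform.pu_T_sum (v : A) (F : Finset (HT Γ0)) (w : HT Γ0 → A)
    (h1 : ∀ c ∈ F, L.In (w c) ((GR Γ0).prod (⊤ : Subgroup SG))) :
    D.T v (∑ c ∈ F, L.U c * w c) = ∑ c ∈ F, D.T v (L.U c) * w c := by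
  rw [← Finset.sum_congr rfl fun c hc => D.pu_T_mul v (L.U c) (h1 c hc)]
  simp only [Deform.T, map_sum, Finset.mul_sum]

lemma Deform.pu_T_n2 {v : A} (hv : ‖v‖ ≤ 1) (x : A) : t.n2 (D.T v x) ≤ t.n2 x :=
  (L.n2_cE_le _ _).trans ((t.n2_mul_le_of_le hv _).trans_eq ((D.tp_α _).n2 x))

theorem Deform.column_bound {F : Finset (HT Γ0)} (hF : IsReps F) {v : A} (hv : ‖v‖ ≤ 1)
    (w : HT Γ0 → A) (h1 : ∀ c ∈ F, L.In (w c) ((GR Γ0).prod (⊤ : Subgroup SG)))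
    (h2 : ‖∑ c ∈ F, star (w c) * w c‖ ≤ 1) {y : A} (hy : ‖y‖ ≤ 1)
    (hy' : L.In y ((HR Γ0).prod (⊤ : Subgroup SG))) :
    ∃ m, ‖m‖ ≤ 1 ∧ L.In m ((GR Γ0).prod (⊤ : Subgroup SG)) ∧
      t.n2 (y * (∑ c ∈ F, D.T v (L.U c) * w c) - (∑ c ∈ F, D.T v (L.U c) * w c) * m) ≤
        t.n2 (y * v - v * D.α (π / 2) y) + √(1 - t.n2 (∑ c ∈ F, D.T v (L.U c) * w c) ^ 2) := by
  classical
  set u := ∑ c ∈ F, D.T v (L.U c) * w c with hu
  set Y := y * ∑ c ∈ F, L.U c * w c with hY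
  have oM : ∀ c, L.In (puO L Y c) ((GR Γ0).prod (⊤ : Subgroup SG)) := fun c => L.cE_in _ _
  have YN : L.In Y ((HR Γ0).prod (⊤ : Subgroup SG)) := hy'.kmul (L.in_sum F fun c hc =>
    TwAlg.In.kmul (L.in_u (h := (c, 1)) ⟨hF.1 c hc, trivial⟩) ((h1 c hc).mono pu_le))
  have a1 : ∀ F', IsReps F' → ∀ x, L.In x ((GR Γ0).prod (⊤ : Subgroup SG)) →
      ∑ c ∈ F', t.n2 (puO L Y c * x) ^ 2 ≤ t.n2 x ^ 2 := by
    intro F' hF' x hx
    simp only [← pu_O_mul Y _ hx]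
    refine (pu_bessel hF' _).trans (le_trans ?_ (pu_col F w h2 x))
    rw [← pu_col_n2 hF (fun c => w c * x) fun c hc => (h1 c hc).kmul hx, hY, mul_assoc,
      Finset.sum_mul]
    simp only [mul_assoc]
    exact pow_le_pow_left₀ (t.n2_nonneg _) (t.n2_mul_le_of_le hy _) 2
  have mM : L.In (∑ c ∈ F, star (w c) * puO L Y c) ((GR Γ0).prod (⊤ : Subgroup SG)) :=
    L.in_sum F fun c hc => (h1 c hc).kstar.kmul (oM c)
  refine ⟨∑ c ∈ F, star (w c) * puO L Y c, L.norm_le_of_alg mM zero_le_one fun x hx => ?_, mM, ?_⟩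
  · have b1 := row_col (t := t) F (fun c => star (puO L Y c * x)) w h2
    simp only [t.n2_star] at b1
    rw [one_mul, ← t.n2_star, Finset.sum_mul, star_sum]
    simp only [mul_assoc, star_mul (star (w _)), star_star]
    exact le_of_sq_le_sq (b1.trans (a1 F hF x hx)) (t.n2_nonneg _)
  have a2 : t.n2 (y * u - D.T v Y) ≤ t.n2 (y * v - v * D.α (π / 2) y) := by
    have e : y * u - D.T v Y = ∑ c ∈ F, D.T (y * v - v * D.α (π / 2) y) (L.U c) * w c := by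
      rw [← D.pu_T_sum _ F w h1, hu, ← D.pu_T_sum _ F w h1, hY]
      simp only [Deform.T, map_mul, sub_mul, map_sub, mul_assoc, hy'.cE_mul]
    rw [e]
    exact le_of_sq_le_sq ((row_col F _ w h2).trans (D.bessel hF _)) (t.n2_nonneg _)
  refine (t.n2_triangle _ (D.T v Y) _).trans (add_le_add a2 (le_of_forall_pos_le_add fun η hη => ?_))
  obtain ⟨F', k1, k2, k3⟩ := pu_approx hF YN hη
  set w' : HT Γ0 → A := fun c => if c ∈ F then w c else 0 with hw'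
  have ext : ∀ f : HT Γ0 → A → A, (∀ c, f c 0 = 0) →
      ∑ c ∈ F', f c (w' c) = ∑ c ∈ F, f c (w c) := fun f hf => by
    rw [← Finset.sum_subset k2 fun c _ hc => by simp only [hw', if_neg hc, hf]]
    exact Finset.sum_congr rfl fun c hc => by simp only [hw', if_pos hc]
  have e1 := ext (fun c x => D.T v (L.U c) * x) fun _ => mul_zero _
  have e2 := ext (fun _ x => star x * x) fun _ => mul_zero _
  have e3 := ext (fun c x => star x * puO L Y c) fun _ => by simp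
  have b1 := pu_defect (t := t) F' (fun c => D.T v (L.U c)) w' (e2 ▸ h2)
  rw [e1, ← hu] at b1
  have b2 := row_col (t := t) F' (fun c => D.T v (L.U c) - u * star (w' c)) (puO L Y)
    (norm_sum_le_of_alg L F' _ (fun c _ => oM c) (a1 F' k1))
  have b3 := D.bessel k1 v
  have b4 := pow_le_one₀ (t.n2_nonneg v) ((t.n2_le_norm v).trans hv) (n := 2)
  have e4 : D.T v Y - u * ∑ c ∈ F, star (w c) * puO L Y c =
      ∑ c ∈ F', (D.T v (L.U c) - u * star (w' c)) * puO L Y c +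
        D.T v (Y - ∑ c ∈ F', L.U c * puO L Y c) := by
    rw [D.pu_T_sub, D.pu_T_sum _ F' _ fun c _ => oM c, ← e3, Finset.mul_sum]
    simp only [sub_mul, Finset.sum_sub_distrib, mul_assoc]
    abel
  rw [e4]
  exact (t.n2_add_le _ _).trans (add_le_add (Real.le_sqrt_of_sq_le (by linarith))
    ((D.pu_T_n2 hv _).trans k3))

lemma pu_factor (hicc : ∀ g ∈ Hm Γ0 0, g ≠ 1 → Esc (Hm Γ0 0) g) :
    IsInfFactor (L.alg ((GR Γ0).prod (⊤ : Subgroup SG))) := by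
  refine L.isInfFactor_alg _ (fun g hg h1 => ?_) (Set.infinite_of_injective_forall_mem
    (f := fun n => ((1 : HT Γ0), px n)) (fun a b h => px_injective (congrArg Prod.snd h))
    fun n => ⟨one_mem (GR Γ0), trivial⟩)
  by_cases hs : g.2 = 1
  · obtain ⟨k, hk, e⟩ := hg.1
    have hk1 : k ≠ 1 := fun h => h1 (Prod.ext (by rw [← e, h, map_one]; rfl) hs)
    exact Or.inl (Esc.prod (K := GR Γ0) (e ▸ esc_map (hicc k hk hk1)) fun k hk => ⟨hk, trivial⟩)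
  · exact tesc_of_site (J := Set.univ)
      (fun s _ => Subgroup.mem_prod.2 ⟨one_mem _, Subgroup.mem_top _⟩)
      (by rwa [Set.compl_univ, SJ_empty, Subgroup.mem_bot])

omit [t.W] in
lemma pu_mul_sub {a b a' b' : A} (ha : ‖a‖ ≤ 1) (hb : ‖b'‖ ≤ 1) :
    t.n2 (a * b - a' * b') ≤ t.n2 (a - a') + t.n2 (b - b') := by
  have e : a * b - a' * b' = (a - a') * b' + a * (b - b') := by noncomm_ring
  rw [e]
  exact (t.n2_add_le _ _).trans
    (add_le_add (t.n2_mul_le_of_le' _ hb) (t.n2_mul_le_of_le ha _))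

theorem Deform.push (hicc : ∀ g ∈ Hm Γ0 0, g ≠ 1 → Esc (Hm Γ0 0) g) {v : A} (hv : ‖v‖ ≤ 1)
    {δ : ℝ} (hδ : 0 < δ) (h1 : t.n2 (star v * v - 1) ≤ δ)
    (h2 : L.m v ((DC (HR Γ0) ((HR Γ0).map (φT Γ0)))ᶜ ×ˢ Set.univ) ≤ δ)
    (h3 : L.m (D.μ (star (D.E 0 v) * D.E 1 v))
      ((DC (HR Γ0) ((HR Γ0).map (ψT Γ0)))ᶜ ×ˢ Set.univ) ≤ δ) :
    ∃ u, ‖u‖ ≤ 1 ∧ L.In u ((HR Γ0).prod (⊤ : Subgroup SG)) ∧ 1 - 200 * δ ≤ t.n2 u ^ 2 ∧
      ∀ y, ‖y‖ ≤ 1 → L.In y ((HR Γ0).prod (⊤ : Subgroup SG)) →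
        ∃ m, ‖m‖ ≤ 1 ∧ L.In m ((GR Γ0).prod (⊤ : Subgroup SG)) ∧
          t.n2 (y * u - u * m) ≤ t.n2 (y * v - v * D.α (π / 2) y) + 2 * δ + √(200 * δ) := by
  classical
  obtain ⟨k, hk⟩ := L.exists_level v (E := Set.univ)
    (fun n => ((⊤ : Subgroup (HT Γ0)).prod (SJ (lo n)) : Subgroup (HT Γ0 × SG)))
    (fun a b h g hg => ⟨trivial, SJ_mono (lo_mono h) hg.2⟩)
    (fun g _ => (exists_lo g.2).imp fun n hn => ⟨trivial, hn⟩) hδ
  set v' := L.cE ((⊤ : Subgroup (HT Γ0)).prod (SJ (lo k))) v with hv'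
  have p0 : t.n2 (v - v') ≤ δ := by
    rw [hv', L.n2_sub_cE, Set.compl_eq_univ_sdiff]
    exact hk k le_rfl
  have p0' : t.n2 (v' - v) ≤ δ := by rwa [t.n2_sub_comm]
  have p1 : ‖v'‖ ≤ 1 := (L.norm_cE_le _ _).trans hv
  have p2 : t.n2 (star v' * v' - 1) ≤ 3 * δ := by
    have b1 := t.n2_triangle (star v' * v') (star v * v) 1
    have b2 := pu_mul_sub (t := t) (a := star v') (b := v') (a' := star v) (by rwa [norm_star]) hv
    rw [← star_sub, t.n2_star] at b2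
    linarith
  have p3 : L.m (D.μ (star (D.E 0 v') * D.E 1 v'))
      ((DC (HR Γ0) ((HR Γ0).map (ψT Γ0)))ᶜ ×ˢ Set.univ) ≤ 3 * δ := by
    have b1 := L.m_le_add (D.μ (star (D.E 0 v') * D.E 1 v')) (D.μ (star (D.E 0 v) * D.E 1 v))
      ((DC (HR Γ0) ((HR Γ0).map (ψT Γ0)))ᶜ ×ˢ Set.univ)
    have b2 := pu_mul_sub (t := t) (a := star (D.E 0 v')) (b := D.E 1 v') (a' := star (D.E 0 v))
      (by rw [norm_star]; exact hom_norm_le _ p1) (hom_norm_le (D.E 1) hv)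
    rw [← star_sub, t.n2_star, ← map_sub, ← map_sub, (D.tp_E 0 (by norm_num)).n2,
      (D.tp_E 1 (by norm_num)).n2] at b2
    rw [← map_sub, D.tp_μ.n2] at b1
    linarith
  obtain ⟨F, hF, p4⟩ := D.exists_reps v' hδ
  have p5 := D.second hF p1 p2 (p4.trans (by
    linarith [L.m_le_add v' v ((DC (HR Γ0) ((HR Γ0).map (φT Γ0)))ᶜ ×ˢ Set.univ)])) p3
  obtain ⟨φ, hφ, -⟩ := L.exists_pauli (mid k (k + F.card)) (Fin (2 ^ (mid k (k + F.card)).card))
    (Fintype.card_fin _)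
  obtain ⟨e⟩ : Nonempty (F ↪ Fin (2 ^ (mid k (k + F.card)).card)) :=
    Function.Embedding.nonempty_of_card_le (by
      rw [Fintype.card_coe, Fintype.card_fin, card_mid]
      exact le_trans (by omega) Nat.lt_two_pow_self.le)
  set a : Fin (2 ^ (mid k (k + F.card)).card) → A :=
    Function.extend e (fun c => D.T v' (L.U c)) 0 with ha
  have a0 : ∀ i ∉ Set.range e, a i = 0 := fun i hi => Function.extend_apply' _ _ _ hi
  have a1 : ∀ c : F, a (e c) = D.T v' (L.U c) := fun c => e.injective.extend_apply _ _ c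
  have a2 : ∀ i M, Commute (φ M) (a i) := fun i M => by
    by_cases hi : i ∈ Set.range e
    · obtain ⟨c, rfl⟩ := hi
      obtain ⟨z, hz⟩ := D.α_end (c.1, 1)
      refine (hφ M).comm_prod (K' := ⊤) (J' := lo k) ?_
        (fun g hg _ _ => by rw [Subgroup.mem_bot.1 hg]; exact Commute.one_left _)
        (Set.disjoint_left.2 fun p hp hp' => absurd hp' (not_lt.2 (mem_mid.1 hp).1))
      rw [a1, Deform.T, TwRep.U_apply, hz]
      exact (((L.cE_in _ v).kmul (TwAlg.In.smul (L.in_u (Subgroup.mem_prod.2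
        ⟨Subgroup.mem_top _, one_mem _⟩)) z)).cE _).mono Set.inter_subset_left
    · rw [a0 i hi]
      exact Commute.zero_right _
  have : Nonempty (Fin (2 ^ (mid k (k + F.card)).card)) := ⟨⟨0, Nat.two_pow_pos _⟩⟩
  obtain ⟨w, w1, w2, w3, w4⟩ := exists_column L (pu_factor hicc) φ
    (fun M => (hφ M).mono fun g hg =>
      ⟨by rw [Subgroup.mem_bot.1 hg.1]; exact one_mem (GR Γ0), trivial⟩) a a2
    (by
      rw [← pu_ext e a0 (fun c => D.T v' (L.U c) * star (D.T v' (L.U c)))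
        (fun i => a i * star (a i)) (fun i hi => by rw [hi, zero_mul]) fun c => by rw [a1]]
      exact D.row_le hF p1) (σ := 10 * (3 * δ))
    (p5.trans_eq (pu_ext e a0 _ _ (fun i hi => by simp [hi]) fun c =>
      pu_ext e a0 _ _ (fun i hi => by simp [hi]) fun d => by rw [a1, a1]))
  set w' : HT Γ0 → A := fun c => if h : c ∈ F then w (e ⟨c, h⟩) else 0 with hw'
  have q1 : ∀ c : F, w' c = w (e c) := fun c => dif_pos c.2
  have q2 : ∀ c ∈ F, L.In (w' c) ((GR Γ0).prod (⊤ : Subgroup SG)) := fun c hc =>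
    q1 ⟨c, hc⟩ ▸ w1 _
  have q3 : ∑ c ∈ F, D.T v' (L.U c) * w' c = ∑ i, a i * w i :=
    pu_ext e a0 _ _ (fun i hi => by rw [hi, zero_mul]) fun c => by rw [a1, q1]
  have q4 : ‖∑ c ∈ F, star (w' c) * w' c‖ ≤ 1 := norm_sum_le_of_alg L F w' q2 fun x _ => by
    refine le_trans ?_ (pu_col Finset.univ w w2 x)
    rw [← Finset.sum_coe_sort]
    simp only [q1]
    rw [← Finset.sum_map Finset.univ e fun i => t.n2 (w i * x) ^ 2]
    exact Finset.sum_le_sum_of_subset_of_nonneg (Finset.subset_univ _) fun _ _ _ => sq_nonneg _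
  refine ⟨∑ i, a i * w i, w3, ?_, by linarith, fun y hy hy' => ?_⟩
  · rw [← q3]
    exact L.in_sum F fun c hc => (L.cE_in _ _).kmul ((q2 c hc).mono pu_le)
  obtain ⟨m, m1, m2, m3⟩ := D.column_bound hF p1 w' q2 q4 hy hy'
  rw [q3] at m3
  refine ⟨m, m1, m2, m3.trans (add_le_add ?_ (Real.sqrt_le_sqrt (by linarith)))⟩
  have e : y * v' - v' * D.α (π / 2) y =
      (y * v - v * D.α (π / 2) y) + (y * (v' - v) + (v - v') * D.α (π / 2) y) := by noncomm_ring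
  have b1 := t.n2_mul_le_of_le hy (v' - v)
  have b2 := t.n2_mul_le_of_le' (v - v') (hom_norm_le (D.α (π / 2)) hy)
  rw [e]
  refine (t.n2_add_le _ _).trans (add_le_add le_rfl ((t.n2_add_le _ _).trans ?_))
  linarith

end Pool.Agent.P.MP_a6af55_an
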