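import Pool.Agent.P.MP_a6af55_an.SMUltra2
import Pool.Agent.P.MP_a6af55_an.SMGap
import Pool.Agent.P.MP_a6af55_an.SMPush
import Pool.Agent.P.MP_a6af55_an.SMDouble

namespace Pool.Agent.P.MP_a6af55_an

open Pool.Agent.Lib.Tracial
open scoped ComplexOrder InnerProductSpace ComplexConjugate Pointwise Real
open Filter Topology

variable {I : Type*} {U : Ultrafilter I}

theorem gapU {X : Type} [Group X] {C : Type*} [CStarAlgebra C] {s : TrState C} [s.W]
    (L : TwAlg (εP X) s) {N K K' : Subgroup X} (T : Tails N) (hK : K ≤ N) {D : Set X}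
    (hD : FreeOn K K' D) {b b' : Fin 2 → BB I C}
    (hb : ∀ k (i : I), ‖b k i‖ ≤ 1 ∧ L.In (b k i) (K.prod (⊤ : Subgroup SG)))
    (hb' : ∀ k (i : I), ‖b' k i‖ ≤ 1 ∧ L.In (b' k i) (K'.prod (⊤ : Subgroup SG)))
    (h : ∀ δ > 0, ∀ᶠ i : I in U, NM s (L.alg (N.prod ⊤)) δ fun k => b k i) {z : BB I C}
    (hz : ∀ i : I, ‖z i‖ ≤ 1) {η : ℝ}
    (h1 : ∀ k, (upTr s U).n2 (mkU s U (b k) * mkU s U z - mkU s U z * mkU s U (b' k)) ≤ η)
    (h2 : ∀ k, (upTr s U).n2 (star (mkU s U (b k)) * mkU s U z -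
      mkU s U z * star (mkU s U (b' k))) ≤ η) {η' : ℝ} (hη : 10 ^ 6 * η < η') :
    ∀ᶠ i : I in U, L.m (z i) (D ×ˢ Set.univ) ≤ η' := by
  obtain ⟨δ, hδ, e⟩ : ∃ δ > 0, 10 ^ 6 * (η + δ + δ) = η' :=
    ⟨(η' - 10 ^ 6 * η) / (2 * 10 ^ 6), div_pos (sub_pos.2 hη) (by norm_num), by ring⟩
  have e1 : ∀ k, ∀ᶠ i : I in U, s.n2 (b k i * z i - z i * b' k i) < η + δ := fun k =>
    eventually_n2_lt s U (x := b k * z - z * b' k) (by
      rw [map_sub, map_mul, map_mul]; linarith [h1 k])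
  have e2 : ∀ k, ∀ᶠ i : I in U, s.n2 (star (b k i) * z i - z i * star (b' k i)) < η + δ :=
    fun k => eventually_n2_lt s U (x := star (b k) * z - z * star (b' k)) (by
      rw [map_sub, map_mul, map_mul, map_star, map_star]; linarith [h2 k])
  filter_upwards [h δ hδ, eventually_all.2 e1, eventually_all.2 e2] with i a1 a2 a3
  exact (gapL L T hK hD (fun k => hb k i) (fun k => hb' k i) (hz i) hδ.le a1
    (fun k => (a2 k).le) fun k => (a3 k).le).trans_eq e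

lemma kur_star {B : Type*} [CStarAlgebra B] {a a' z : B} (ha : a ∈ unitary B)
    (ha' : a' ∈ unitary B) (h : a * z = z * a') : star a * z = z * star a' := by
  calc star a * z = star a * (z * a') * star a' := by rw [mul_assoc, mul_assoc, ha'.2, mul_one]
    _ = z * star a' := by rw [← h, ← mul_assoc, ha.1, one_mul]

theorem gapU0 {X : Type} [Group X] {C : Type*} [CStarAlgebra C] {s : TrState C} [s.W]
    (L : TwAlg (εP X) s) {N K K' : Subgroup X} (T : Tails N) (hK : K ≤ N) {D : Set X}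
    (hD : FreeOn K K' D) {b b' : Fin 2 → BB I C}
    (hb : ∀ k (i : I), ‖b k i‖ ≤ 1 ∧ L.In (b k i) (K.prod (⊤ : Subgroup SG)))
    (hb' : ∀ k (i : I), ‖b' k i‖ ≤ 1 ∧ L.In (b' k i) (K'.prod (⊤ : Subgroup SG)))
    (h : ∀ δ > 0, ∀ᶠ i : I in U, NM s (L.alg (N.prod ⊤)) δ fun k => b k i) {z : BB I C}
    (hz : ∀ i : I, ‖z i‖ ≤ 1) (hu : ∀ k, mkU s U (b k) ∈ unitary (Ultrapower s U))
    (hu' : ∀ k, mkU s U (b' k) ∈ unitary (Ultrapower s U))
    (h1 : ∀ k, mkU s U (b k) * mkU s U z = mkU s U z * mkU s U (b' k)) :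
    Tendsto (fun i : I => L.m (z i) (D ×ˢ Set.univ)) U (𝓝 0) := by
  refine tendsto_order.2 ⟨fun a ha => Eventually.of_forall fun i => ha.trans_le (L.m_nonneg _ _),
    fun a ha => ?_⟩
  refine (gapU L T hK hD hb hb' h hz (η := 0) (fun k => ?_) (fun k => ?_)
    (η' := a / 2) (by linarith)).mono fun i hi => by linarith
  · rw [h1, sub_self, TrState.n2_zero]
  · rw [kur_star (hu k) (hu' k) (h1 k), sub_self, TrState.n2_zero]

lemma kur_compl {X : Type} [Group X] (K : Subgroup X) :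
    ((K.prod (⊤ : Subgroup SG) : Subgroup (X × SG)) : Set (X × SG))ᶜ =
      (K : Set X)ᶜ ×ˢ Set.univ := by
  ext g
  simp [Subgroup.mem_prod]

lemma kur_unitary {B : Type*} [CStarAlgebra B] (r : TrState B) [r.W] {u : B} (hu : ‖u‖ ≤ 1)
    (h : 1 ≤ r.n2 u ^ 2) : u ∈ unitary B := by
  have key : ∀ u : B, ‖u‖ ≤ 1 → 1 ≤ r.n2 u ^ 2 → star u * u = 1 := fun u hu h => by
    have h1 : r.n2 (star u * u) ≤ r.n2 u := r.n2_mul_le_of_le (by rwa [norm_star]) u
    have h2 := norm_sub_sq (𝕜 := ℂ) (r.Λ 1) (r.Λ (star u * u))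
    rw [← map_sub, r.inner_Λ, star_one, one_mul, r.norm_Λ, r.norm_Λ, r.norm_Λ, r.n2_one,
      RCLike.re_to_complex, ← r.n2_sq] at h2
    have h3 := pow_le_pow_left₀ (r.n2_nonneg _) h1 2
    exact (r.eq_of_n2 (pow_eq_zero_iff two_ne_zero |>.1
      (le_antisymm (by linarith) (sq_nonneg _)))).symm
  exact ⟨key u hu h, by simpa using key (star u) (by rwa [norm_star]) (by rwa [r.n2_star])⟩

variable {L0 : Type} {Γ0 : SimpleGraph L0} {A : Type*} [CStarAlgebra A] {t : TrState A} [t.W]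
  (L : TwAlg (εP (HH Γ0)) t)

/-- The commutant of the pair has trivial centre. -/
def FacComm {B : Type*} [CStarAlgebra B] (b : Fin 2 → B) : Prop :=
  ∀ z : B, (∀ i, Commute (b i) z) → (∀ y, (∀ i, Commute (b i) y) → Commute y z) → ∃ c : ℂ, z = c • 1

theorem conc_of_intertwine {b b' : Fin 2 → Ultrapower t U}
    (hb : ∀ k, b k ∈ unitary (Ultrapower t U) ∧
      L.Conc U (b k) fun _ => (Hm Γ0 0).prod (⊤ : Subgroup SG))
    (hb' : ∀ k, b' k ∈ unitary (Ultrapower t U) ∧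
      L.Conc U (b' k) fun _ => (Hm Γ0 0).prod (⊤ : Subgroup SG))
    (h : NM (upTr t U) Set.univ 0 b) {z : Ultrapower t U} (hz : ‖z‖ ≤ 1)
    (h1 : ∀ k, b k * z = z * b' k) : L.Conc U z fun _ => (Hm Γ0 0).prod (⊤ : Subgroup SG) := by
  choose β e hβ using fun k => (hb k).2.rep
  choose β' e' hβ' using fun k => (hb' k).2.rep
  obtain rfl : b = fun k => mkU t U (β k) := funext fun k => (e k).symm
  obtain rfl : b' = fun k => mkU t U (β' k) := funext fun k => (e' k).symm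
  obtain ⟨z, rfl, hz'⟩ := exists_ball t U z hz
  obtain ⟨T⟩ := tails_top (Γ0 := Γ0)
  refine L.conc_mk ?_
  rw [kur_compl]
  exact gapU0 L T le_top (freeOn_Hm 0)
    (fun k i => ⟨(hβ k i).1.trans (norm_unitary_le (hb k).1), (hβ k i).2⟩)
    (fun k i => ⟨(hβ' k i).1.trans (norm_unitary_le (hb' k).1), (hβ' k i).2⟩)
    (fun δ hδ => (NM.down U h hδ).mono fun i hi w _ hw c hc =>
      hi w trivial hw c fun k => ⟨trivial, (hc k).2⟩) hz' (fun k => (hb k).1)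
    (fun k => (hb' k).1) h1

section

variable {C : Type*} [CStarAlgebra C] {s : TrState C} [s.W] (L' : TwAlg (εP (HT Γ0)) s)
  (D : Deform L') (ι : A →⋆ₐ[ℂ] C) (hι : TP t s ι) (hu : ∀ g, ι (L.u g) = L'.u (ιH Γ0 g.1, g.2))

/-- The ultraproduct of the deformation along a family of angles. -/
noncomputable abbrev kurA (θ : I → ℝ) : Ultrapower s U →⋆ₐ[ℂ] Ultrapower s U :=
  upMap U (fun i => D.α (θ i)) fun _ => D.tp_α _

/-- The defect of an approximate intertwiner. -/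
noncomputable def kurD {B : Type*} [CStarAlgebra B] (r : TrState B) (a a' : Fin 2 → B) (v : B) : ℝ :=
  r.n2 (star v * v - 1) + ∑ k, r.n2 (a k * v - v * a' k)

omit [s.W] in
lemma kur_tendsto (a a' : Fin 2 → BB I C) (v : BB I C) :
    Tendsto (fun i : I => kurD s (fun k => a k i) (fun k => a' k i) (v i)) U
      (𝓝 (kurD (upTr s U) (fun k => mkU s U (a k)) (fun k => mkU s U (a' k)) (mkU s U v))) := by
  have h1 := tendsto_n2 s U (star v * v - 1)
  rw [map_sub, map_mul, map_star, map_one] at h1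
  refine h1.add (tendsto_finsetSum _ fun k _ => ?_)
  have h2 := tendsto_n2 s U (a k * v - v * a' k)
  rwa [map_sub, map_mul, map_mul] at h2

omit [s.W] in
lemma kurA_kurA (θ θ' : I → ℝ) (z : Ultrapower s U) :
    kurA L' D θ (kurA L' D θ' z) = kurA L' D (fun i => θ i + θ' i) z := by
  obtain ⟨z, rfl⟩ := mkU_surjective s U z
  simp only [kurA, upMap_mkU]
  congr 1
  ext i
  exact D.α_add _ _ _

omit [s.W] in
lemma kurA_zero {θ : I → ℝ} (h : ∀ i, θ i = 0) (z : Ultrapower s U) : kurA L' D θ z = z := by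
  obtain ⟨z, rfl⟩ := mkU_surjective s U z
  simp only [kurA, upMap_mkU]
  congr 1
  ext i
  exact (congrArg (fun a => D.α a (z i)) (h i)).trans (D.α_zero _)

include hι hu

omit [t.W] [s.W] in
lemma kur_in (x : A) : L'.In (ι x) ((HR Γ0).prod (⊤ : Subgroup SG)) :=
  L.in_map L' hι (j := fun g => (ιH Γ0 g.1, g.2)) (fun g => ⟨1, by rw [hu, one_smul]⟩)
    (L.in_univ x) fun g _ => ⟨⟨g.1, rfl⟩, trivial⟩

lemma kur_pre {y : C} (hy : L'.In y ((HR Γ0).prod (⊤ : Subgroup SG))) : ∃ x, ι x = y :=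
  L.exists_preimage L' hι (j := fun g => (ιH Γ0 g.1, g.2)) (fun g => ⟨1, by rw [hu, one_smul]⟩)
    (hy.mono (by rintro ⟨_, a⟩ ⟨⟨g, rfl⟩, -⟩; exact ⟨(g, a), rfl⟩))

omit [t.W] [s.W] in
lemma kur_in_of {x : A} (h : L'.In (ι x) ((GR Γ0).prod (⊤ : Subgroup SG))) :
    L.In x ((Hm Γ0 0).prod (⊤ : Subgroup SG)) := by
  rw [TwAlg.in_iff_m, L.m_map L' hι (j := fun g => (ιH Γ0 g.1, g.2))
    (fun g => ⟨1, by rw [hu, one_smul]⟩), Set.preimage_compl, ← TwAlg.in_iff_m] at h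
  exact h.mono fun g hg => ⟨(Subgroup.mem_map_iff_mem ιH_injective).1 hg.1, trivial⟩

lemma kur_nm {β : Fin 2 → BB I A} (h : NM (upTr t U) Set.univ 0 fun k => mkU t U (β k)) :
    ∀ δ > 0, ∀ᶠ i : I in U, NM s (L'.alg ((HR Γ0).prod ⊤)) δ
      fun k => bbMap (fun _ => ι) (β k) i := fun _ hδ =>
  (NM.down U h hδ).mono fun _ hi => NM.map hι (fun _ hy => kur_pre L L' ι hι hu hy) hi

lemma kur_near {b : Fin 2 → Ultrapower t U} (hb : ∀ k, b k ∈ unitary (Ultrapower t U))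
    (h1 : NM (upTr t U) Set.univ 0 b) (z : Ultrapower s U) (hz : ‖z‖ ≤ 1) :
    ∃ a, (upTr s U).n2 (z - upMap U (fun _ => ι) (fun _ => hι) a) ≤
      10 ^ 6 * ∑ k, (upTr s U).cm (upMap U (fun _ => ι) (fun _ => hι) (b k)) z := by
  choose β e hβ using fun k => exists_ball t U (b k) (norm_unitary_le (hb k))
  obtain rfl : b = fun k => mkU t U (β k) := funext fun k => (e k).symm
  obtain ⟨z, rfl, hz'⟩ := exists_ball s U z hz
  obtain ⟨T⟩ := tails_HR (Γ0 := Γ0)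
  choose a ha using fun i : I => kur_pre L L' ι hι hu (L'.cE_in ((HR Γ0).prod ⊤) (z i))
  have ha' : ∀ i : I, ‖a i‖ ≤ 1 := fun i => by
    rw [← hι.norm, ha]; exact (L'.norm_cE_le _ _).trans (hz' i)
  refine ⟨mkU t U (BB.mk a 1 ha'), le_of_forall_gt_imp_ge_of_dense fun η hη => ?_⟩
  have hk : ∀ k, (upTr s U).cm (upMap U (fun _ => ι) (fun _ => hι) (mkU t U (β k))) (mkU s U z) ≤
      ∑ k, (upTr s U).cm (upMap U (fun _ => ι) (fun _ => hι) (mkU t U (β k))) (mkU s U z) :=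
    fun k => Finset.single_le_sum (f := fun k => (upTr s U).cm
      (upMap U (fun _ => ι) (fun _ => hι) (mkU t U (β k))) (mkU s U z))
      (fun _ _ => TrState.cm_nonneg _ _ _) (Finset.mem_univ k)
  have hb' : ∀ k (i : I), ‖bbMap (fun _ => ι) (β k) i‖ ≤ 1 ∧
      L'.In (bbMap (fun _ => ι) (β k) i) ((HR Γ0).prod (⊤ : Subgroup SG)) := fun k i =>
    ⟨hom_norm_le ι (hβ k i), kur_in L L' ι hι hu _⟩
  have := gapU L' T le_rfl freeOn_HR hb' hb' (kur_nm L L' ι hι hu h1) hz'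
    (fun k => by rw [← upMap_mkU U _ fun _ => hι]; exact hk k)
    (fun k => by
      rw [← upMap_mkU U _ fun _ => hι]
      exact ((upTr s U).cm_star_unitary (map_unitary _ (hb k)) _).trans_le (hk k)) hη
  rw [upMap_mkU, ← map_sub]
  refine n2_mkU_le s U (this.mono fun i hi => ?_)
  change s.n2 (z i - ι (a i)) ≤ η
  rwa [ha, L'.n2_sub_cE, kur_compl]

lemma kur_dbl {b x : Fin 2 → Ultrapower t U} (hb : ∀ k, b k ∈ unitary (Ultrapower t U))
    (hx : ∀ k, x k ∈ unitary (Ultrapower t U)) (hc : ∀ k l, Commute (b k) (x l))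
    (h1 : NM (upTr t U) Set.univ 0 b) (h2 : NM (upTr t U) Set.univ 0 x) (h3 : FacComm b)
    (θ : I → ℝ) {v : Ultrapower s U} (hv : ‖v‖ ≤ 1)
    (h : kurD (upTr s U) (fun k => upMap U (fun _ => ι) (fun _ => hι) (b k))
      (fun k => kurA L' D θ (upMap U (fun _ => ι) (fun _ => hι) (b k))) v ≤ 1 / (5 * 10 ^ 6)) :
    ∃ w ∈ unitary (Ultrapower s U), ∀ y, (∀ k, Commute (b k) y) →
      upMap U (fun _ => ι) (fun _ => hι) y * w =
        w * kurA L' D (fun i => θ i + θ i) (upMap U (fun _ => ι) (fun _ => hι) y) := by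
  have hγ : ∀ a, upMap U (fun _ => D.γ) (fun _ => D.tp_γ) (upMap U (fun _ => ι) (fun _ => hι) a) =
      upMap U (fun _ => ι) (fun _ => hι) a := fun a => by
    obtain ⟨a, rfl⟩ := mkU_surjective t U a
    simp only [upMap_mkU]
    congr 1
    ext i
    exact D.γ_fix _ (kur_in L L' ι hι hu _)
  simp only [← kurA_kurA]
  refine doubling _ (tp_upMap U _ _) (kurA L' D θ) (kurA L' D fun i => -θ i)
    (upMap U (fun _ => D.γ) fun _ => D.tp_γ) (tp_upMap U _ _) (tp_upMap U _ _)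
    (fun z => by rw [kurA_kurA, kurA_zero L' D fun i => add_neg_cancel _])
    (fun z => by rw [kurA_kurA, kurA_zero L' D fun i => neg_add_cancel _]) hγ (fun a => ?_) b hb h3
    (C := 10 ^ 6) (by norm_num) (kur_near L L' ι hι hu hb h1) (fun z hz => ?_) (by norm_num) hv h
  · conv_rhs => rw [← hγ]
    obtain ⟨z, hz⟩ := mkU_surjective s U (upMap U (fun _ => ι) (fun _ => hι) a)
    rw [← hz]
    simp only [kurA, upMap_mkU]
    congr 1
    ext i
    exact D.γ_α _ _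
  · have hp : 0 < ‖z‖ + 1 := by positivity
    have h0 : ((‖z‖ + 1 : ℝ) : ℂ) ≠ 0 := by exact_mod_cast hp.ne'
    obtain ⟨a, ha⟩ := kur_near L L' ι hι hu hx h2 (((‖z‖ + 1 : ℝ) : ℂ)⁻¹ • z) (by
      rw [norm_smul, norm_inv, Complex.norm_real, Real.norm_of_nonneg hp.le, inv_mul_le_iff₀ hp]
      linarith)
    rw [Finset.sum_eq_zero fun l _ => by
      rw [TrState.cm, ((hz _ fun k => hc k l).smul_right _).eq, sub_self, TrState.n2_zero],
      mul_zero] at ha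
    refine ⟨((‖z‖ + 1 : ℝ) : ℂ) • a, ?_⟩
    rw [map_smul, ← (upTr s U).eq_of_n2 (ha.antisymm (TrState.n2_nonneg _ _)), smul_inv_smul₀ h0]

omit hu [t.W] [s.W] in
lemma kur_up (β : Fin 2 → BB I A) (θ : I → ℝ) {δ : ℝ} (h : ∀ᶠ i : I in U, ∃ v : C, ‖v‖ ≤ 1 ∧
      kurD s (fun k => ι (β k i)) (fun k => D.α (θ i) (ι (β k i))) v < δ) :
    ∃ v : Ultrapower s U, ‖v‖ ≤ 1 ∧
      kurD (upTr s U) (fun k => upMap U (fun _ => ι) (fun _ => hι) (mkU t U (β k)))
        (fun k => kurA L' D θ (upMap U (fun _ => ι) (fun _ => hι) (mkU t U (β k)))) v ≤ δ := by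
  have h' : ∀ i : I, ∃ v : C, ‖v‖ ≤ 1 ∧ ((∃ v : C, ‖v‖ ≤ 1 ∧
      kurD s (fun k => ι (β k i)) (fun k => D.α (θ i) (ι (β k i))) v < δ) →
      kurD s (fun k => ι (β k i)) (fun k => D.α (θ i) (ι (β k i))) v < δ) := fun i => by
    by_cases e : ∃ v : C, ‖v‖ ≤ 1 ∧
      kurD s (fun k => ι (β k i)) (fun k => D.α (θ i) (ι (β k i))) v < δ
    · obtain ⟨v, h1, h2⟩ := e
      exact ⟨v, h1, fun _ => h2⟩
    · exact ⟨0, by simp, fun e' => (e e').elim⟩
  choose v hv hv' using h'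
  refine ⟨mkU s U (BB.mk v 1 hv), norm_mkU_le_one s U hv, ?_⟩
  simp only [kurA, upMap_mkU]
  exact le_of_tendsto (kur_tendsto _ _ _) (h.mono fun i hi => (hv' i hi).le)

omit hu [t.W] [s.W] in
lemma kur_down (β : Fin 2 → BB I A) (θ : I → ℝ) {δ : ℝ} (hδ : 0 < δ) {w : Ultrapower s U}
    (hw : w ∈ unitary (Ultrapower s U))
    (h : ∀ k, upMap U (fun _ => ι) (fun _ => hι) (mkU t U (β k)) * w =
      w * kurA L' D θ (upMap U (fun _ => ι) (fun _ => hι) (mkU t U (β k)))) :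
    ∀ᶠ i : I in U, ∃ v : C, ‖v‖ ≤ 1 ∧
      kurD s (fun k => ι (β k i)) (fun k => D.α (θ i) (ι (β k i))) v < δ := by
  obtain ⟨v, rfl, hv⟩ := exists_ball s U w (norm_unitary_le hw)
  simp only [kurA, upMap_mkU] at h
  have := kur_tendsto (s := s) (U := U) (fun k => bbMap (fun _ => ι) (β k))
    (fun k => bbMap (fun i => D.α (θ i)) (bbMap (fun _ => ι) (β k))) v
  rw [kurD, hw.1] at this
  simp only [h, sub_self, TrState.n2_zero, Finset.sum_const_zero, add_zero] at this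
  exact (this.eventually (gt_mem_nhds hδ)).mono fun i hi => ⟨v i, hv i, hi⟩

theorem overspill {b x : Fin 2 → Ultrapower t U} (hb : ∀ k, b k ∈ unitary (Ultrapower t U))
    (hx : ∀ k, x k ∈ unitary (Ultrapower t U)) (hc : ∀ k l, Commute (b k) (x l))
    (h1 : NM (upTr t U) Set.univ 0 b) (h2 : NM (upTr t U) Set.univ 0 x) (h3 : FacComm b)
    (h4 : FacComm x) : ∃ v ∈ unitary (Ultrapower s U), ∀ y, (∀ k, Commute (b k) y) →
      upMap U (fun _ => ι) (fun _ => hι) y * v =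
        v * upMap U (fun _ => D.α (π / 2)) (fun _ => D.tp_α _)
          (upMap U (fun _ => ι) (fun _ => hι) y) := by
  choose β e using fun k => mkU_surjective t U (b k)
  choose ξ e' using fun k => mkU_surjective t U (x k)
  obtain rfl : b = fun k => mkU t U (β k) := funext fun k => (e k).symm
  obtain rfl : x = fun k => mkU t U (ξ k) := funext fun k => (e' k).symm
  have hδ : (0 : ℝ) < 1 / (5 * 10 ^ 6) := by norm_num
  let P : I → ℝ → Prop := fun i θ => ∃ v : C, ‖v‖ ≤ 1 ∧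
    kurD s (fun k => ι (β k i)) (fun k => D.α θ (ι (β k i))) v < 1 / (5 * 10 ^ 6)
  have hP : ∀ i, ∃ j : ℕ, P i (π / 4 * (1 / 4) ^ j) := fun i => by
    have a1 : Tendsto (fun j : ℕ => π / 4 * (1 / 4 : ℝ) ^ j) atTop (𝓝 0) := by
      simpa using (tendsto_pow_atTop_nhds_zero_of_lt_one (r := (1 / 4 : ℝ)) (by norm_num)
        (by norm_num)).const_mul (π / 4)
    have a2 := tendsto_finsetSum Finset.univ fun k _ => (D.α_cont (ι (β k i))).comp a1
    rw [Finset.sum_const_zero] at a2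
    obtain ⟨j, hj⟩ := (a2.eventually (gt_mem_nhds hδ)).exists
    refine ⟨j, 1, by have := s.nontrivial; simp, ?_⟩
    simpa only [kurD, star_one, mul_one, one_mul, sub_self, TrState.n2_zero, zero_add,
      Function.comp_def, s.n2_sub_comm (ι _)] using hj
  classical
  let θ : I → ℝ := fun i => π / 4 * (1 / 4) ^ Nat.find (hP i)
  obtain ⟨v, hv, a1⟩ := kur_up L' D ι hι (U := U) β θ
    (Eventually.of_forall fun i => Nat.find_spec (hP i))
  obtain ⟨w, hw, a2⟩ := kur_dbl L L' D ι hι hu hb hx hc h1 h2 h3 θ hv a1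
  obtain ⟨v, hv, a1⟩ := kur_up L' D ι hι ξ _
    (kur_down L' D ι hι ξ _ hδ hw fun l => a2 _ fun k => hc k l)
  obtain ⟨w, hw, a2⟩ := kur_dbl L L' D ι hι hu hx hb (fun k l => (hc l k).symm) h2 h1 h4 _ hv a1
  have a3 := kur_down L' D ι hι β _ hδ hw fun l => a2 _ fun k => (hc l k).symm
  have a4 : ∀ᶠ i : I in U, P i (π / 4) := a3.mono fun i hi => by
    rcases Nat.eq_zero_or_eq_succ_pred (Nat.find (hP i)) with h0 | h0
    · simpa only [h0, pow_zero, mul_one] using Nat.find_spec (hP i)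
    · refine (Nat.find_min (hP i) (m := (Nat.find (hP i)).pred) (by omega) ?_).elim
      have : θ i + θ i + (θ i + θ i) = π / 4 * (1 / 4) ^ (Nat.find (hP i)).pred := by
        simp only [θ]
        conv_lhs => rw [h0, pow_succ]
        ring
      exact this ▸ hi
  obtain ⟨v, hv, a1⟩ := kur_up L' D ι hι β (fun _ => π / 4) a4
  obtain ⟨w, hw, a2⟩ := kur_dbl L L' D ι hι hu hb hx hc h1 h2 h3 _ hv a1
  rw [show (fun _ : I => π / 4 + π / 4) = fun _ => π / 2 from funext fun _ => by ring] at a2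
  exact ⟨w, hw, a2⟩

lemma kur_masses {x : Fin 2 → Ultrapower t U} (hx : ∀ k, x k ∈ unitary (Ultrapower t U))
    (h2 : NM (upTr t U) Set.univ 0 x) {v : BB I C} (hv' : ∀ i : I, ‖v i‖ ≤ 1)
    (hv : mkU s U v ∈ unitary (Ultrapower s U))
    (h : ∀ k, upMap U (fun _ => ι) (fun _ => hι) (x k) * mkU s U v =
        mkU s U v * upMap U (fun _ => D.α (π / 2)) (fun _ => D.tp_α _)
          (upMap U (fun _ => ι) (fun _ => hι) (x k))) :
    Tendsto (fun i : I => L'.m (v i) ((DC (HR Γ0) ((HR Γ0).map (φT Γ0)))ᶜ ×ˢ Set.univ)) U (𝓝 0) ∧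
    Tendsto (fun i : I => L'.m (D.μ (star (D.E 0 (v i)) * D.E 1 (v i)))
      ((DC (HR Γ0) ((HR Γ0).map (ψT Γ0)))ᶜ ×ˢ Set.univ)) U (𝓝 0) := by
  choose ξ e hξ using fun k => exists_ball t U (x k) (norm_unitary_le (hx k))
  obtain rfl : x = fun k => mkU t U (ξ k) := funext fun k => (e k).symm
  obtain ⟨T⟩ := tails_HR (Γ0 := Γ0)
  have hb : ∀ k (i : I), ‖bbMap (fun _ => ι) (ξ k) i‖ ≤ 1 ∧
      L'.In (bbMap (fun _ => ι) (ξ k) i) ((HR Γ0).prod (⊤ : Subgroup SG)) := fun k i =>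
    ⟨hom_norm_le ι (hξ k i), kur_in L L' ι hι hu _⟩
  have hb' : ∀ k (i : I), L'.In (D.α (π / 2) (ι (ξ k i)))
      (((HR Γ0).map (φT Γ0)).prod (⊤ : Subgroup SG)) := fun k i =>
    L'.in_map L' (D.tp_α _) (j := fun g => (φT Γ0 g.1, g.2)) D.α_end (hb k i).2
      fun g hg => ⟨⟨g.1, hg.1, rfl⟩, trivial⟩
  have u1 := fun k => map_unitary (upMap U (fun _ => ι) fun _ => hι) (hx k)
  have u2 := fun k => map_unitary (upMap U (fun _ => D.α (π / 2)) fun _ => D.tp_α _) (u1 k)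
  have u3 := fun k => map_unitary (upMap U (fun _ => D.μ) fun _ => D.tp_μ)
    (map_unitary (upMap U (fun _ => D.E 1) fun _ => D.tp_E 1 one_lt_two) (u2 k))
  have u4 := map_unitary (upMap U (fun _ => D.E 0) fun _ => D.tp_E 0 two_pos) hv
  simp only [upMap_mkU] at h u1 u2 u3 u4
  refine ⟨gapU0 L' T le_rfl freeOn_φ hb
    (b' := fun k => bbMap (fun _ => D.α (π / 2)) (bbMap (fun _ => ι) (ξ k)))
    (fun k i => ⟨hom_norm_le _ (hb k i).1, hb' k i⟩) (kur_nm L L' ι hι hu h2) hv' u1 u2 h, ?_⟩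
  refine gapU0 L' T le_rfl freeOn_ψ hb (b' := fun k => bbMap (fun _ => D.μ)
    (bbMap (fun _ => D.E 1) (bbMap (fun _ => D.α (π / 2)) (bbMap (fun _ => ι) (ξ k)))))
    (fun k i => ⟨hom_norm_le _ (hom_norm_le _ (hom_norm_le _ (hb k i).1)), ?_⟩)
    (kur_nm L L' ι hι hu h2) (z := bbMap (fun _ => D.μ)
      (star (bbMap (fun _ => D.E 0) v) * bbMap (fun _ => D.E 1) v)) (fun i => hom_norm_le _ ?_)
    u1 u3 fun k => ?_
  · refine L'.in_map L' D.tp_μ (j := fun g => (μT Γ0 g.1, g.2)) D.μ_u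
      (L'.in_map L' (D.tp_E 1 one_lt_two) (j := fun g => (εT Γ0 1 g.1, g.2))
        (fun g => ⟨1, by rw [D.E_u 1 one_lt_two, one_smul]⟩) (hb' k i)
        (E' := {g | ∃ a ∈ HR Γ0, εT Γ0 1 (φT Γ0 a) = g.1}) ?_) ?_
    · rintro g ⟨⟨a, ha, e⟩, -⟩
      exact ⟨a, ha, congrArg _ e⟩
    · rintro g ⟨a, ha, e⟩
      exact ⟨⟨a, ha, congrArg _ e⟩, trivial⟩
  · exact (norm_mul_le _ _).trans (mul_le_one₀ ((norm_star _).trans_le (hom_norm_le _ (hv' i)))
      (norm_nonneg _) (hom_norm_le _ (hv' i)))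
  · have hE : ∀ e < 2, bbMap (fun _ => D.E e) (bbMap (fun _ => ι) (ξ k)) =
        bbMap (fun _ => ι) (ξ k) := fun e he => by
      ext i
      exact (hb k i).2.hom_eq (D.tp_E e he) (ψ := StarAlgHom.id ℂ C) (fun _ => rfl)
        fun g hg => by rw [D.E_u e he, εT_of_mem e hg.1]; rfl
    have hμ : bbMap (fun _ => D.μ) (bbMap (fun _ => D.E 0) (bbMap (fun _ => D.α (π / 2))
        (bbMap (fun _ => ι) (ξ k)))) = bbMap (fun _ => ι) (ξ k) := by
      ext i
      exact D.μ_E _ (hb k i).2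
    have a0 := congrArg (upMap U (fun _ => D.E 0) fun _ => D.tp_E 0 two_pos) (h k)
    have a1 := congrArg (upMap U (fun _ => D.E 1) fun _ => D.tp_E 1 one_lt_two) (h k)
    simp only [map_mul, upMap_mkU, hE 0 two_pos, hE 1 one_lt_two] at a0 a1
    have a2 : ∀ a a' a'' w w' : Ultrapower s U, w ∈ unitary _ → a * w = w * a' →
        a * w' = w' * a'' → a' * (star w * w') = star w * w' * a'' := fun a a' a'' w w' hw p q => by
      rw [mul_assoc, ← q, ← one_mul a', ← hw.1, mul_assoc _ w, ← p, mul_assoc, mul_assoc,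
        ← mul_assoc w, hw.2, one_mul]
    have a3 := congrArg (upMap U (fun _ => D.μ) fun _ => D.tp_μ) (a2 _ _ _ _ _ u4 a0 a1)
    rw [← map_star, ← map_mul (mkU s U)] at a3
    simpa only [map_mul (upMap U _ _), upMap_mkU, hμ] using a3

theorem push_ultra (hicc : ∀ g ∈ Hm Γ0 0, g ≠ 1 → Esc (Hm Γ0 0) g) {r : I → ℕ}
    (hr : Tendsto r U atTop) {x : Fin 2 → Ultrapower t U}
    (hx : ∀ k, x k ∈ unitary (Ultrapower t U)) (h2 : NM (upTr t U) Set.univ 0 x)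
    {v : Ultrapower s U} (hv : v ∈ unitary (Ultrapower s U)) (Q : Set (Ultrapower t U))
    (hQ : ∀ k, x k ∈ Q) (h : ∀ y ∈ Q, upMap U (fun _ => ι) (fun _ => hι) y * v =
        v * upMap U (fun _ => D.α (π / 2)) (fun _ => D.tp_α _)
          (upMap U (fun _ => ι) (fun _ => hι) y)) :
    ∃ u ∈ unitary (Ultrapower t U), ∀ y ∈ Q, ‖y‖ ≤ 1 →
      L.Conc U (star u * y * u) fun _ => (Hm Γ0 0).prod (⊤ : Subgroup SG) := by
  obtain ⟨v, rfl, hv'⟩ := exists_ball s U v (norm_unitary_le hv)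
  obtain ⟨m2, m3⟩ := kur_masses L L' D ι hι hu hx h2 hv' hv fun k => h _ (hQ k)
  have m1 := tendsto_n2 s U (star v * v - 1)
  rw [map_sub, map_mul, map_star, map_one, hv.1, sub_self, TrState.n2_zero] at m1
  obtain ⟨δ, hδ, d0, d1, d2, d3⟩ : ∃ δ : I → ℝ, Tendsto δ U (𝓝 0) ∧ (∀ i, 0 < δ i) ∧
      (∀ i : I, s.n2 (star (v i) * v i - 1) ≤ δ i) ∧
      (∀ i : I, L'.m (v i) ((DC (HR Γ0) ((HR Γ0).map (φT Γ0)))ᶜ ×ˢ Set.univ) ≤ δ i) ∧
      ∀ i : I, L'.m (D.μ (star (D.E 0 (v i)) * D.E 1 (v i)))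
        ((DC (HR Γ0) ((HR Γ0).map (ψT Γ0)))ᶜ ×ˢ Set.univ) ≤ δ i := by
    have := ((m1.add m2).add m3).add (tendsto_one_div_add_atTop_nhds_zero_nat.comp hr)
    simp only [add_zero] at this
    refine ⟨fun i => s.n2 (star (v i) * v i - 1) + _ + _ + 1 / ((r i : ℝ) + 1), this,
      fun i => ?_, fun i => ?_, fun i => ?_, fun i => ?_⟩ <;>
    · have a1 := s.n2_nonneg (star (v i) * v i - 1)
      have a2 := L'.m_nonneg (v i) ((DC (HR Γ0) ((HR Γ0).map (φT Γ0)))ᶜ ×ˢ Set.univ)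
      have a3 := L'.m_nonneg (D.μ (star (D.E 0 (v i)) * D.E 1 (v i)))
        ((DC (HR Γ0) ((HR Γ0).map (ψT Γ0)))ᶜ ×ˢ Set.univ)
      have a4 : (0 : ℝ) < 1 / (r i + 1) := Nat.one_div_pos_of_nat
      linarith
  choose u u1 u2 u3 u4 using fun i : I => D.push hicc (hv' i) (d0 i) (d1 i) (d2 i) (d3 i)
  choose u' e using fun i : I => kur_pre L L' ι hι hu (u2 i)
  obtain rfl : u = fun i => ι (u' i) := funext fun i => (e i).symm
  simp only [hι.norm, hι.n2] at u1 u3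
  have hU : mkU t U (BB.mk u' 1 u1) ∈ unitary (Ultrapower t U) := by
    refine kur_unitary (upTr t U) (norm_mkU_le_one t U u1) ?_
    have := (hδ.const_mul 200).const_sub 1
    rw [mul_zero, sub_zero] at this
    exact le_of_tendsto_of_tendsto' this ((tendsto_n2 t U (BB.mk u' 1 u1)).pow 2) u3
  refine ⟨_, hU, fun y hy hy1 => ?_⟩
  obtain ⟨y, rfl, hy'⟩ := exists_ball t U y hy1
  choose m p1 p2 p3 using fun i : I => u4 i (ι (y i)) (hom_norm_le ι (hy' i))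
    (kur_in L L' ι hι hu _)
  choose m' e' using fun i : I => kur_pre L L' ι hι hu
    ((p2 i).mono fun g hg => ⟨Subgroup.map_le_range _ _ hg.1, trivial⟩)
  obtain rfl : m = fun i => ι (m' i) := funext fun i => (e' i).symm
  simp only [hι.norm] at p1
  have q1 := h _ hy
  simp only [upMap_mkU, ← map_mul, mkU_eq_iff] at q1
  have q2 := (q1.add (hδ.const_mul 2)).add (hδ.const_mul 200).sqrt
  simp only [mul_zero, Real.sqrt_zero, add_zero] at q2
  have q3 : mkU t U y * mkU t U (BB.mk u' 1 u1) =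
      mkU t U (BB.mk u' 1 u1) * mkU t U (BB.mk m' 1 p1) := by
    rw [← map_mul, ← map_mul, mkU_eq_iff]
    refine squeeze_zero (fun _ => t.n2_nonneg _) (fun i => le_trans ?_ (p3 i)) q2
    rw [← map_mul, ← map_mul, ← map_sub, hι.n2]
    exact le_rfl
  rw [mul_assoc, q3, ← mul_assoc, hU.1, one_mul]
  exact L.conc_of_in fun i => kur_in_of L L' ι hι hu (p2 i)

end

theorem kurosh (hicc : ∀ g ∈ Hm Γ0 0, g ≠ 1 → Esc (Hm Γ0 0) g) {r : I → ℕ}
    (hr : Tendsto r U atTop) {b x : Fin 2 → Ultrapower t U}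
    (hb : ∀ k, b k ∈ unitary (Ultrapower t U)) (hx : ∀ k, x k ∈ unitary (Ultrapower t U))
    (hc : ∀ k l, Commute (b k) (x l)) (h1 : NM (upTr t U) Set.univ 0 b)
    (h2 : NM (upTr t U) Set.univ 0 x) (h3 : FacComm b) (h4 : FacComm x) :
    ∃ u ∈ unitary (Ultrapower t U), ∀ y, (∀ k, Commute (b k) y) → ‖y‖ ≤ 1 →
      L.Conc U (star u * y * u) fun _ => (Hm Γ0 0).prod (⊤ : Subgroup SG) := by
  obtain ⟨C, _, s, _, ⟨L'⟩⟩ := exists_twAlg (εP (HT Γ0))
  obtain ⟨D⟩ := exists_deform L'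
  obtain ⟨ι, hι, hu⟩ := L.exists_hom (L'.toTwRep.twist (εP (HH Γ0))
    ((ιH Γ0).prodMap (MonoidHom.id SG)) (ιH_injective.prodMap Function.injective_id)
    (fun _ _ => rfl) 1 fun _ => norm_one)
  have hu' : ∀ g, ι (L.u g) = L'.u (ιH Γ0 g.1, g.2) := fun g => (hu g).trans (one_smul _ _)
  obtain ⟨v, hv, h⟩ := overspill L L' D ι hι hu' hb hx hc h1 h2 h3 h4
  exact push_ultra L L' D ι hι hu' hicc hr hx h2 hv {y | ∀ k, Commute (b k) y}
    (fun k l => hc l k) h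

end Pool.Agent.P.MP_a6af55_an
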