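import Pool.Agent.P.MP_a6af55_an.SMUltra
import Pool.Agent.P.MP_a6af55_an.SMPauli2
import Pool.Agent.P.MP_a6af55_an.SMDefs

namespace Pool.Agent.P.MP_a6af55_an

open Pool.Agent.Lib.Tracial
open scoped ComplexOrder InnerProductSpace ComplexConjugate Pointwise
open Filter Topology

universe u

lemma exists_twRep_fin {C : Type*} [CStarAlgebra C] (s : TrState C) [s.W] (hC : IsInfFactor C)
    {Q : Type*} [Group Q] [Finite Q] (ε : Q →* Q →* ℤˣ) : Nonempty (TwRep ε s) := by
  classical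
  let _ := Fintype.ofFinite Q
  obtain ⟨ψ⟩ := s.exists_matrix hC Q
  let M : Q → Matrix Q Q ℂ := fun g => Matrix.of fun i j => if i = g * j then sg ε g j else 0
  have h1 : M 1 = 1 := by
    ext i j
    simp [M, Matrix.one_apply]
  have h2 : ∀ g h, M g * M h = sg ε g h • M (g * h) := fun g h => by
    ext i j
    simp [M, Matrix.mul_apply, mul_assoc, sg_mul_left, sg_mul_right]
  have h3 : ∀ g, star (M g) = sg ε g g • M g⁻¹ := fun g => by
    ext i j
    by_cases e : j = g * i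
    · simp [M, e, conj_sg, sg_inv_left, sg_mul_right, ← mul_assoc (sg ε g g), sg_mul_self]
    · simp [M, e, eq_inv_mul_iff_mul_eq, Ne.symm e]
  refine ⟨⟨fun g => ψ (M g), fun g => map_unitary ψ ⟨?_, ?_⟩, by rw [h1, map_one],
    fun g h => by rw [← map_mul, h2, map_smul], fun g hg => ?_⟩⟩
  · rw [h3, smul_mul_assoc, h2, smul_smul, sg_inv_left, sg_mul_self, inv_mul_cancel, h1, one_smul]
  · rw [h3, mul_smul_comm, h2, smul_smul, sg_inv_right, sg_mul_self, mul_inv_cancel, h1, one_smul]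
  · rw [Matrix.matrix_eq_sum_single (M g)]
    simp only [map_sum]
    refine Finset.sum_eq_zero fun i _ => Finset.sum_eq_zero fun j _ => ?_
    by_cases h : i = j
    · simp [M, h, hg]
    · have e : ∀ c : ℂ, Matrix.single i j c = Matrix.single i i 1 * Matrix.single i j c := by simp
      rw [e, map_mul, s.trace, ← map_mul, Matrix.single_mul_single_of_ne _ _ _ _ (Ne.symm h),
        map_zero, map_zero]

lemma finite_SJ (n : ℕ) : Finite (SJ (lo n)) := by
  refine Finite.of_injective (fun s => (fun i : mid 0 n => s.1.toAdd.1 i,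
    fun i : mid 0 n => s.1.toAdd.2 i)) fun s s' e => Subtype.ext (Multiplicative.toAdd.injective
      (Prod.ext (Finsupp.ext fun i => ?_) (Finsupp.ext fun i => ?_)))
  · by_cases hi : i ∈ lo n
    · exact congrFun (congrArg Prod.fst e) ⟨i, mem_mid.2 ⟨Nat.zero_le _, hi⟩⟩
    · rw [(s.2 i hi).1, (s'.2 i hi).1]
  · by_cases hi : i ∈ lo n
    · exact congrFun (congrArg Prod.snd e) ⟨i, mem_mid.2 ⟨Nat.zero_le _, hi⟩⟩
    · rw [(s.2 i hi).2, (s'.2 i hi).2]

lemma eventually_lo (s : SG) : ∀ᶠ n in atTop, s ∈ SJ (lo n) := by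
  obtain ⟨n, hn⟩ := exists_lo s
  exact (eventually_ge_atTop n).mono fun m hm => SJ_mono (lo_mono hm) hn

lemma eq_one_of_SJ {J : Set Site} {s : SG} (h : s ∈ SJ J) (h' : s ∈ SJ Jᶜ) : s = 1 := by
  have := mem_SJ_inter h h'
  rwa [Set.inter_compl_self, SJ_empty] at this

variable {X : Type} [Group X] {A : Type u} [CStarAlgebra A] {t : TrState A} [t.W]
  (L : TwAlg (εP X) t) {a b : X}

include L

theorem tw_isInfFactor (h : PP a b ({1} : Set X)ᶜ) : IsInfFactor A := by
  refine L.isInfFactor fun g hg => ?_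
  by_cases h1 : g.1 = 1
  · exact tesc_of_site (J := Set.univ) (fun _ _ => Subgroup.mem_top _) fun h2 =>
      hg (Prod.ext h1 (eq_one_of_SJ (fun _ hi => (hi trivial).elim) h2))
  · exact Or.inl (Esc.prod (K := ⊤) ⟨a, trivial, b, trivial, _, h, h1⟩ fun _ _ => trivial)

theorem tw_stronglyMcDuff [Infinite X] (h : PP a b ({1} : Set X)ᶜ) : StronglyMcDuff t := by
  have h0 : ∀ s ∈ SJ ∅, s = 1 := fun s hs => by rwa [SJ_empty] at hs
  have hu : ∀ s, s ∈ SJ Set.univ := fun _ _ hi => (hi trivial).elim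
  have hs : ∀ {x : A} {δ : ℝ}, 0 < δ → t.n2 x ≤ √(δ / 2) → nsq t x < δ := fun hδ hx => by
    rw [nsq, t.norm_τ_star_mul]
    exact ((Real.le_sqrt (t.n2_nonneg _) (half_pos hδ).le).1 hx).trans_lt (half_lt_self hδ)
  refine ⟨L.alg ((⊤ : Subgroup X).prod (SJ ∅)), L.alg ((⊥ : Subgroup X).prod (SJ Set.univ)),
    isII1_of_W (L.trK _) (L.isInfFactor_alg _ (fun g hg h1 => ?_) ?_),
    isII1_of_W (L.trK _) (L.isInfFactor_alg _ (fun g hg h1 => ?_) ?_), fun hG => ?_,
    fun F hF δ hδ => ?_, fun p hp r hr => ⟨?_, ?_⟩, fun x δ hδ => ?_⟩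
  · exact Or.inl (Esc.prod (K := ⊤) ⟨a, trivial, b, trivial, _, h,
      fun e => h1 (Prod.ext e (h0 _ hg.2))⟩ fun _ _ => ⟨trivial, one_mem _⟩)
  · exact Set.infinite_of_injective_forall_mem (f := fun x : X => (x, 1))
      (fun _ _ e => congrArg Prod.fst e) fun _ => ⟨trivial, one_mem _⟩
  · exact tesc_of_site (J := Set.univ) (fun _ hs => Subgroup.mem_prod.2 ⟨one_mem _, hs⟩) fun h2 =>
      h1 (Prod.ext hg.1 (eq_one_of_SJ (hu _) h2))
  · exact Set.infinite_of_injective_forall_mem (f := fun s : SG => (1, s))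
      (fun _ _ e => congrArg Prod.snd e) fun _ => ⟨one_mem _, hu _⟩
  · classical
    obtain ⟨v, hv, h1, h2, h3⟩ := hG {L.u (a, 1), L.u (b, 1)} (fun x hx => by
      rcases Finset.mem_insert.1 hx with rfl | hx
      · exact L.in_u ⟨trivial, one_mem _⟩
      · rw [Finset.mem_singleton.1 hx]
        exact L.in_u ⟨trivial, one_mem _⟩) ((1 / 15) ^ 2) (by norm_num)
    have h4 : ∀ x ∈ ({L.u (a, 1), L.u (b, 1)} : Finset A), t.cm x v < 1 / 15 := fun x hx => by
      have := h3 x hx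
      rw [nsq, t.norm_τ_star_mul] at this
      rw [t.cm_comm]
      exact lt_of_pow_lt_pow_left₀ 2 (by norm_num) this
    have h5 := L.pp (PP.comap (MonoidHom.fst X SG) (a := (a, 1)) (b := (b, 1)) h) v
    have h6 := L.dev_le_m v
    rw [TrState.dev, h2, zero_smul, sub_zero, ← mul_one v, t.n2_unitary_mul h1, t.n2_one, mul_one,
      TwAlg.In.m_eq hv] at h6
    have h7 := h6.trans ((L.m_mono v (by
      exact fun g hg e => hg.1 (Prod.ext e (h0 _ hg.2.2)))).trans h5)
    linarith [h4 _ (Finset.mem_insert_self _ _),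
      h4 _ (Finset.mem_insert_of_mem (Finset.mem_singleton_self _))]
  · choose n hn using fun x => L.exists_level x (E := (⊥ : Subgroup X).prod (SJ Set.univ))
      (fun n => (⊥ : Subgroup X).prod (SJ (mid 0 n)))
      (fun m n hmn g hg => ⟨hg.1, SJ_mono (by simpa only [coe_mid_zero] using lo_mono hmn) hg.2⟩)
      (fun g hg => (exists_lo g.2).imp fun n hn => ⟨hg.1, (coe_mid_zero n).symm ▸ hn⟩)
      (Real.sqrt_pos.2 (half_pos hδ))
    obtain ⟨φ, h1, h2⟩ := L.exists_pauli (mid 0 (F.sup n)) (Fin _) (Fintype.card_fin _)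
    refine ⟨_, φ, fun M => (h1 M).mono fun g hg => ⟨hg.1, hu _⟩, fun x hx => ?_⟩
    obtain ⟨M, hM⟩ := h2 _ (L.cE_in _ x)
    refine ⟨M, hs hδ ?_⟩
    rw [hM, L.n2_sub_cE, TwAlg.In.m_eq (hF x hx), Set.inter_comm]
    exact hn x _ (Finset.le_sup hx)
  · exact (TwAlg.In.comm_prod hp hr (fun k _ k' hk' => by
      rw [Subgroup.mem_bot.1 hk']
      exact Commute.one_right _) (Set.empty_disjoint _)).eq
  · exact TwAlg.In.τ_mul hp hr fun g hg hg' => Prod.ext hg'.1 (h0 _ hg.2)
  · obtain ⟨p, hp, h1⟩ := L.dense x _ (Real.sqrt_pos.2 (half_pos hδ))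
    refine ⟨p, Submodule.span_mono ?_ hp, hs hδ h1⟩
    rintro _ ⟨g, rfl⟩
    exact ⟨_, L.in_u ⟨trivial, one_mem _⟩, _, L.in_u ⟨one_mem _, hu _⟩, (L.u_prod g.1 g.2).symm⟩

omit [t.W] in
lemma uu_mem_cent (U : Ultrafilter ℕ) {f : ℕ → ℕ} (hf : Tendsto f U atTop) {k : ℕ → X × SG}
    (hk : ∀ i, k i ∈ (⊥ : Subgroup X).prod (SJ (lo (f i))ᶜ)) :
    L.uu U k ∈ StarSubalgebra.centralizer ℂ (Set.range (Ultrapower.diag t U)) := by
  refine (mem_cent_iff t U).2 fun x => ((comm_mkU U (t := t)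
    (x := BoundedContinuousFunction.const _ x) (y := BB.mk (fun i => L.u (k i)) 1
      fun _ => L.norm_u _)).2 (Metric.tendsto_nhds.2 fun δ hδ => ?_)).eq
  obtain ⟨F, -, hF⟩ := L.exists_fin (L.in_univ x) (half_pos hδ)
  filter_upwards [(eventually_all_finset F).2 fun g _ => hf.eventually (eventually_lo g.2)]
    with i hi
  rw [Real.dist_0_eq_abs, abs_of_nonneg (t.cm_nonneg _ _), t.cm_comm]
  refine (hF _ (L.norm_u (k i)) fun g hg => L.comm_u (Prod.ext ?_ (mul_comm _ _)) ?_).trans_lt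
    (half_lt_self hδ)
  · rw [Prod.fst_mul, Prod.fst_mul, Subgroup.mem_bot.1 (hk i).1, mul_one, one_mul]
  · rw [εP_apply, εP_apply, εS_eq_one disjoint_compl_right (hi g hg) (hk i).2,
      εS_eq_one disjoint_compl_left (hk i).2 (hi g hg)]

theorem tw_superMcDuff [Countable X] (h : PP a b ({1} : Set X)ᶜ) (U : Ultrafilter ℕ)
    (hU : ∀ n, U ≠ pure n) : SuperMcDuff t U := by
  have hU' := le_atTop U hU
  refine (commutantIsII1_iff (upTr t U) _).2
    ⟨isFac_of_ball ((upTr t U).cent _) fun z hz hc => ?_, fun hfin => ?_⟩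
  · obtain ⟨Z, hZ⟩ := mkU_surjective t U z.1
    have h1 : ∀ y, Commute (mkU t U (BoundedContinuousFunction.const _ y)) (mkU t U Z) := fun y =>
      hZ ▸ (mem_cent_iff t U).1 z.2 y
    let P : ℕ → ℕ → Prop := fun i n =>
      L.m (Z i) ((⊤ : Subgroup X).prod (SJ (lo n)ᶜ) : Set (X × SG))ᶜ ≤ 1 / ((n : ℝ) + 1)
    have hev : ∀ n, ∀ᶠ i in (U : Filter ℕ), n ≤ i ∧ P i n := fun n => by
      obtain ⟨y, -, hy⟩ := L.exists_tests 0 n
      have h2 := (tendsto_finsetSum Finset.univ fun j _ => (comm_mkU U).1 (h1 (y j))).const_mul 34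
      rw [Finset.sum_const_zero, mul_zero] at h2
      filter_upwards [hU' (eventually_ge_atTop n),
        h2.eventually (ge_mem_nhds (Nat.one_div_pos_of_nat (n := n)))] with i h3 h4
      exact ⟨h3, (coe_mid_zero n ▸ hy (Z i)).trans h4⟩
    classical
    have hf : Tendsto (fun i => Nat.findGreatest (P i) i) U atTop := tendsto_atTop.2 fun n =>
      (hev n).mono fun i hi => Nat.le_findGreatest hi.1 hi.2
    have h2 : L.Conc U z.1 fun i => (⊤ : Subgroup X).prod (SJ (lo (Nat.findGreatest (P i) i))ᶜ) :=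
      hZ ▸ L.conc_mk (squeeze_zero' (Eventually.of_forall fun _ => L.m_nonneg _ _)
        ((hev 0).mono fun i hi => Nat.findGreatest_spec hi.1 hi.2)
        (tendsto_one_div_add_atTop_nhds_zero_nat.comp hf))
    have h3 := TwAlg.Conc.fc (L := L) (U := U) (r := id) hU' (z := z.1) hz (H := fun _ => ⊤)
      (K := fun i => (⊥ : Subgroup X).prod (SJ (lo (Nat.findGreatest (P i) i))ᶜ))
      (E := fun i => {g | g.2 ∈ SJ (lo (Nat.findGreatest (P i) i))ᶜᶜ})
      (hZ ▸ L.conc_of_in fun i => L.in_univ _) (fun _ => le_top)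
      (fun i g _ hg => tesc_of_site (fun s hs => Subgroup.mem_prod.2 ⟨one_mem _, hs⟩) hg)
      fun k hk => (congrArg Subtype.val (hc ⟨_, uu_mem_cent L U hf hk⟩)).symm
    have h4 := TwAlg.conc_pp (L := L) (U := U) (z := z.1)
      (fun _ => PP.comap (MonoidHom.fst X SG) (a := (a, 1)) (b := (b, 1)) h)
      (hZ ▸ h1 _) (hZ ▸ h1 _)
    have h5 := (((h2.inter h3).inter h4).mono (F := fun _ => {1}) fun i g hg =>
      Prod.ext (not_not.1 hg.2) (eq_one_of_SJ hg.1.1.2 hg.1.2)).eq_smul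
    rw [dev_cent, TrState.dev, ← h5, sub_self, TrState.n2_zero]
  · let W : ℕ → StarSubalgebra.centralizer ℂ (Set.range (Ultrapower.diag t U)) := fun j =>
      ⟨L.uu U fun i => (1, px (i + j)), uu_mem_cent L U (f := id) hU' fun i =>
        ⟨one_mem _, px_mem fun e => absurd e (Nat.not_lt.2 (Nat.le_add_right i j))⟩⟩
    have h3 : Orthonormal ℂ fun j => ((upTr t U).cent _).Λ (W j) := by
      refine orthonormal_iff_ite.2 fun i j => ?_
      rw [TrState.inner_Λ]
      refine tendsto_nhds_unique (tendsto_τ_mul t U _ _) (tendsto_const_nhds.congr fun n => ?_)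
      simp [L.τ_star_mul, px_injective.eq_iff]
    exact (LinearIndependent.of_comp _ h3.linearIndependent).finite.not_infinite inferInstance

theorem tw_embedsUltra {C : Type u} [CStarAlgebra C] (s : TrState C) [s.W] (hC : IsInfFactor C)
    [Countable X] (hX : ∀ g : X, g ≠ 1 → Det g) (U : Ultrafilter ℕ) (hU : ∀ n, U ≠ pure n) :
    EmbedsUltra t s U := by
  classical
  have hU' := le_atTop U hU
  obtain ⟨e, he⟩ := exists_surjective_nat X
  choose N h1 h2 h3 using fun n : ℕ => exists_common (e '' {i | i ≤ n} \ {1})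
    (((Set.finite_le_nat n).image _).subset Set.sdiff_subset) fun g hg => hX g hg.2
  have := finite_SJ
  let j : ∀ n, (X ⧸ N n) × SJ (lo n) →* SG := fun n => (SJ (lo n)).subtype.comp (MonoidHom.snd _ _)
  have T : ∀ n, TwRep ((εS.comp (j n)).compl₂ (j n)) s := fun n => (exists_twRep_fin s hC _).some
  let r : ∀ n, X × SG → (X ⧸ N n) × SJ (lo n) := fun n g =>
    (g.1, if h : g.2 ∈ SJ (lo n) then ⟨g.2, h⟩ else 1)
  have hr : ∀ g, ∀ᶠ n in (U : Filter ℕ), ((r n g).2 : SG) = g.2 := fun g =>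
    ((eventually_lo g.2).filter_mono hU').mono fun n hn => by simp only [r, dif_pos hn]
  have hu : ∀ g (n : ℕ), (T n).u (r n g) ∈ unitary C := fun g n => (T n).unit _
  have ho : ∀ n : ℕ, (T n).u (r n 1) = 1 := fun n =>
    (congrArg (T n).u (show r n 1 = 1 from Prod.ext rfl (dif_pos (one_mem _)))).trans (T n).u_one
  let R : TwRep (εP X) (upTr s U) :=
    { u g := mkU s U (BB.mk (fun n => (T n).u (r n g)) 1 fun n => (T n).norm_u _)
      unit g := map_unitary (mkU s U)
        ⟨by ext n; exact (hu g n).1, by ext n; exact (hu g n).2⟩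
      u_one := by
        rw [← map_one (mkU s U)]
        congr 1
        ext n
        exact ho n
      u_mul g h := by
        rw [← map_mul, ← map_smul, mkU_eq_iff]
        refine tendsto_const_nhds.congr' ?_
        filter_upwards [hr g, hr h, hr (g * h)] with n e1 e2 e3
        have e4 : r n g * r n h = r n (g * h) :=
          Prod.ext rfl (Subtype.ext (by rw [e3, Prod.snd_mul, Prod.snd_mul, Subgroup.coe_mul, e1, e2]))
        have e5 := (T n).u_mul (r n g) (r n h)
        have e6 : sg ((εS.comp (j n)).compl₂ (j n)) (r n g) (r n h) = sg (εP X) g h := by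
          rw [sg, sg, εP_apply, ← e1, ← e2]
          rfl
        rw [e4, e6] at e5
        exact ((congrArg s.n2 (sub_eq_zero.2 e5)).trans s.n2_zero).symm
      τ_u g hg := by
        refine tendsto_nhds_unique (tendsto_τ s U _) (tendsto_const_nhds.congr' ?_)
        obtain ⟨i, hi⟩ := he g.1
        filter_upwards [hr g, hU' (eventually_ge_atTop i)] with n e1 hn
        refine ((T n).τ_u _ fun e2 => hg (Prod.ext (by_contra fun e3 => ?_) ?_)).symm
        · exact h3 n _ ⟨⟨i, hn, hi⟩, e3⟩ ((QuotientGroup.eq_one_iff _).1 (congrArg Prod.fst e2))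
        · rw [← e1, e2]
          rfl }
  obtain ⟨φ, hφ, -⟩ := L.exists_hom R
  refine ⟨φ, hφ.injective, fun a x hx => ?_⟩
  obtain ⟨y, h4, h5⟩ := mkQ_eq s U x
  rw [← hφ a, hx, ← h5]
  exact (tendsto_τ s U y).congr fun n => congrArg _ (h4 n)

end Pool.Agent.P.MP_a6af55_an
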