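import Pool.Agent.P.MP_a6af55_an.SMSys
import Pool.Agent.P.MP_a6af55_an.Tree

namespace Pool.Agent.P.MP_a6af55_an

open scoped Classical

/-- The tree graph joined with two free pairs. -/
def G0 (β : ℕ → Bool) : SimpleGraph (Lt β ⊕ Fin 2 × Fin 2) where
  Adj
    | .inl l, .inl l' => (Gr β).Adj l l'
    | .inl _, .inr _ => True
    | .inr _, .inl _ => True
    | .inr p, .inr q => p.1 ≠ q.1
  symm := ⟨by
    rintro (l | p) (l' | q) h
    exacts [(Gr β).adj_symm h, trivial, trivial, Ne.symm h]⟩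
  loopless := ⟨by
    rintro (l | p) h
    exacts [(Gr β).irrefl h, h rfl]⟩

theorem exists_pair {L : Type} {Γ : SimpleGraph L} (a : Fin 2 → L) (h : a 0 ≠ a 1) {K : Set L}
    (h1 : ∀ i l, Γ.Adj l (a i) ↔ l ∈ K) (h2 : a 1 ∉ K) :
    ∃ q : Pair (RG Γ), (∀ i, q.g i = gen Γ (a i)) ∧ q.K = sub Γ K := by
  have h0 : a 0 ∉ K := fun hk => Γ.irrefl ((h1 0 _).2 hk)
  let π : RG Γ →* FreeGroup (Fin 2) := rlift
    (fun l => if l = a 0 then FreeGroup.of 0 else if l = a 1 then FreeGroup.of 1 else 1)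
    fun x y hxy => by
      split_ifs <;> subst_vars <;>
        first | exact Commute.refl _ | exact Commute.one_left _ | exact Commute.one_right _
              | exact (h0 ((h1 1 _).1 hxy)).elim | exact (h2 ((h1 0 _).1 hxy)).elim
  refine ⟨⟨fun i => gen Γ (a i), sub Γ K, pp_gen h (h1 0) (h1 1) h2, π, fun i => ?_,
    fun k hk => ?_, fun i => ?_⟩, fun _ => rfl, rfl⟩
  · fin_cases i
    · simp [π]
    · simp [π, h.symm]
  · refine eq_on_sub (g := 1) (fun l hl => ?_) hk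
    have b0 : l ≠ a 0 := fun e => h0 (e ▸ hl)
    have b1 : l ≠ a 1 := fun e => h2 (e ▸ hl)
    simp [π, b0, b1]
  · exact comm_sub (A := {a i}) (fun x hx l hl => Or.inr (hx ▸ ((h1 i l).2 hl).symm)) _
      (gen_mem rfl)

/-- The inclusion of the tree group. -/
def treeJ (β : ℕ → Bool) : RG (Gr β) →* HH (G0 β) :=
  rlift (fun l => gen _ (Sum.inl (Sum.inl l))) fun _ _ h => gen_comm h

/-- The retraction onto the tree group. -/
def treeR (β : ℕ → Bool) : HH (G0 β) →* RG (Gr β) :=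
  rlift (Sum.elim (Sum.elim (gen _) fun _ => 1) fun _ => 1) (by
    rintro ((a | a) | a) ((b | b) | b) h <;>
      first | exact Commute.one_left _ | exact Commute.one_right _ | exact gen_comm h)

/-- The letters of the tree group. -/
def treeB (β : ℕ → Bool) : Set ((Lt β ⊕ Fin 2 × Fin 2) ⊕ ℕ) :=
  Set.range fun l => Sum.inl (Sum.inl l)

lemma treeJ_R {β : ℕ → Bool} (g : HH (G0 β)) : treeJ β (treeR β g) = ret _ (treeB β) g :=
  DFunLike.congr_fun (rg_ext (f := (treeJ β).comp (treeR β)) (g := ret _ (treeB β)) (by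
    rintro ((a | a) | a) <;> simp [treeJ, treeR, treeB, ret_gen])) g

lemma treeR_J {β : ℕ → Bool} (g : RG (Gr β)) : treeR β (treeJ β g) = g :=
  DFunLike.congr_fun (rg_ext (f := (treeR β).comp (treeJ β)) (g := MonoidHom.id _) (by
    intro a
    simp [treeJ, treeR])) g

lemma treeJ_mem {β : ℕ → Bool} (g : RG (Gr β)) : treeJ β g ∈ sub (HG (G0 β)) (treeB β) := by
  rw [← treeR_J g, treeJ_R]
  exact ret_mem _ _

theorem exists_setup {β : ℕ → Bool} (h0 : β 0 = false) (h1 : β 1 = false) :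
    Nonempty (Setup (G0 β) (RG (Gr β)) fun n => β (n + 1)) := by
  have hp : ∀ e : Fin 2, ∃ q : Pair (HH (G0 β)),
      (∀ i, q.g i = gen _ (Sum.inl (Sum.inr (e, i)))) ∧
        q.K = sub _ {l | (HG (G0 β)).Adj l (Sum.inl (Sum.inr (e, 0)))} := fun e =>
    exists_pair (fun i => Sum.inl (Sum.inr (e, i))) (by simp)
      (by rintro i ((l | l) | l) <;> exact Iff.rfl) fun h => h rfl
  choose p p1 p2 using hp
  refine ⟨⟨treeSys h0 h1, treeJ β, treeR β, treeR_J, fun g => sub_mono ?_ (treeJ_mem g),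
    fun g hg h hc => ?_, p, fun e i => ?_, fun e e' he i => ?_, fun e g => ?_, fun g hg => ?_,
    fun n => ?_⟩⟩
  · rintro _ ⟨l, rfl⟩ j hj
    exact nomatch hj
  · have hcm : ∀ a ∈ treeB β, ∀ b ∈ (treeB β)ᶜ ∩ {l | ∀ j, l = Sum.inr j → j < 0},
        Cm (HG (G0 β)) a b := by
      rintro _ ⟨a, rfl⟩ ((b | b) | b) ⟨hb, hb'⟩
      · exact (hb ⟨b, rfl⟩).elim
      · exact Or.inr trivial
      · exact (Nat.not_lt_zero _ (hb' b rfl)).elim
    rw [split (B := treeB β) (fun a ha => hcm a ha.1) hg, ← treeJ_R]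
    exact (hc.map _).mul_left (comm_sub hcm _ (treeJ_mem h) _ (ret_mem_inter _ hg)).symm
  · rw [p1]
    exact gen_mem fun j hj => nomatch hj
  · rw [p1, p2]
    exact gen_mem he
  · rw [p2]
    refine sub_mono ?_ (treeJ_mem g)
    rintro _ ⟨l, rfl⟩
    exact trivial
  · have a0 := hg 0
    have a1 := hg 1
    rw [p2] at a0 a1
    refine ⟨treeR β g, (treeJ_R g).trans (ret_eq (sub_mono ?_ (mem_inter a0 a1)))⟩
    rintro ((l | ⟨e, i⟩) | l) ⟨b0, b1⟩
    · exact ⟨l, rfl⟩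
    · have c0 : e ≠ 0 := b0
      have c1 : e ≠ 1 := b1
      omega
    · have c0 : (HG (G0 β)).Adj (Sum.inr l) (Sum.inl (Sum.inr (0, 0))) := b0
      exact (not_adj_inr _ _ c0.symm).elim
  · obtain ⟨q, q1, -⟩ := exists_pair (Γ := HG (G0 β))
      (fun i => Sum.inl (Sum.inl (xl [n] 0 (decide (i = 0))))) (by simp [xl])
      (K := {l | (HG (G0 β)).Adj l (Sum.inl (Sum.inl (xl [n] 0 true)))})
      (by
        rintro i ((l | l) | l)
        · exact (adj_x _ _ _ l).trans (adj_x _ _ _ l).symm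
        · exact Iff.rfl
        · exact Iff.rfl)
      fun h => xl_not_mem _ _ _ ((adj_x [n] 0 true _).1 h)
    refine ⟨q, fun i => ⟨gen _ (xl [n] 0 (decide (i = 0))),
      gen_mem (Or.inl ⟨[], by simp [treeSys], n, le_rfl, List.suffix_rfl⟩), ?_⟩⟩
    rw [q1]
    exact rlift_gen _ _ _

end Pool.Agent.P.MP_a6af55_an
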