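import Pool.Agent.P.MP_a6af55_an.SMKur
import Pool.Agent.P.MP_a6af55_an.SMTree
import Pool.Agent.P.MP_a6af55_an.SMProps

namespace Pool.Agent.P.MP_a6af55_an

open Pool.Agent.Lib.Tracial
open scoped ComplexOrder InnerProductSpace ComplexConjugate Pointwise
open Filter Topology

universe u w

section setup

variable {L0 : Type} {Γ0 : SimpleGraph L0} {G : Type} [Group G] {bit : ℕ → Bool}
  (Z : Setup Γ0 G bit)

lemma Setup.esc {K : Subgroup (HH Γ0)} (h1 : ∀ g, Z.j g ∈ K) {g : HH Γ0} (hg : g ≠ 1)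
    (h2 : ∀ e, g ∈ (Z.p e).K ∨ ∀ i, (Z.p e).g i ∈ K) : Esc K g := by
  by_cases h : ∀ e, g ∈ (Z.p e).K
  · obtain ⟨k, rfl⟩ := Z.inter g h
    have hk : k ≠ 1 := fun e => hg (by rw [e, map_one])
    obtain ⟨a, b, B, h3, h4⟩ : ∃ a b B, PP a b B ∧ k ∈ B := by
      by_cases h5 : k ∈ Z.S.tail Z.S.top 0
      · obtain ⟨a, -, b, -, B, h⟩ := Z.S.icc 0 k h5 hk
        exact ⟨a, b, B, h⟩
      · obtain ⟨a, -, b, -, B, h6, h7⟩ := Z.S.gap Z.S.top 0
        exact ⟨a, b, B, h6, h7 k (by rw [Z.S.grp_top]; trivial) h5⟩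
    exact ⟨_, h1 a, _, h1 b, _, PP.comap Z.ρ (by rwa [Z.ρ_j, Z.ρ_j]), by
      rwa [Set.mem_preimage, Z.ρ_j]⟩
  · obtain ⟨e, he⟩ := not_forall.1 h
    have h3 := (h2 e).resolve_left he
    exact ⟨_, h3 0, _, h3 1, _, (Z.p e).pp, he⟩

include Z in
lemma Setup.icc : ∀ g ∈ Hm Γ0 0, g ≠ 1 → Esc (Hm Γ0 0) g := fun _ _ hg =>
  Z.esc Z.j_mem hg fun e => Or.inr (Z.p_mem e)

lemma Setup.icc_K (e : Fin 2) : ∀ g ∈ (Z.p e).K, g ≠ 1 → Esc (Z.p e).K g := fun _ h hg =>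
  Z.esc (Z.j_K e) hg fun e' => by
    by_cases he : e' = e
    exacts [Or.inl (he ▸ h), Or.inr (Z.p_K e' e he)]

end setup

section pair

variable {X : Type} [Group X] {A : Type*} [CStarAlgebra A] {t : TrState A} [t.W]
  (L : TwAlg (εP X) t) {I : Type*} (U : Ultrafilter I)

/-- The pair of unitaries of a family of free pairs. -/
noncomputable def pairU (q : I → Pair X) (k : Fin 2) : Ultrapower t U :=
  L.uu U fun i => ((q i).g k, 1)

lemma pairU_nm (q : I → Pair X) : NM (upTr t U) Set.univ 0 (pairU L U q) :=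
  NM.up U (b := fun k => BB.mk (fun i => L.u ((q i).g k, 1)) 1 fun _ => L.norm_u _) fun i =>
    nm_of_pp L (fun k => ((q i).g k, 1)) ((q i).K.comap (MonoidHom.fst X SG))
      (PP.comap (MonoidHom.fst X SG) (a := ((q i).g 0, 1)) (b := ((q i).g 1, 1)) (q i).pp)
      ((q i).π.comp (MonoidHom.fst X SG)) (q i).π_g fun k hk => (q i).π_K _ hk

omit [t.W] in
lemma main_comm_u {g : X} {k : X × SG} (h : Commute g k.1) : Commute (L.u (g, 1)) (L.u k) :=
  L.comm_u (Prod.ext h (mul_comm _ _)) (by simp [εP_apply])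

omit [t.W] in
lemma main_comm_uu {g : I → X} {k : I → X × SG} (h : ∀ i, Commute (g i) (k i).1) :
    Commute (L.uu U fun i => (g i, 1)) (L.uu U k) := by
  refine Commute.map ?_ (mkU t U)
  ext i
  exact (main_comm_u L (h i)).eq

variable {U}

lemma pairU_fac {r : I → ℕ} (hr : Tendsto r U atTop) (q : Pair X)
    (hq : ∀ g ∈ q.K, g ≠ 1 → Esc q.K g) : FacComm (pairU L U fun _ => q) := by
  intro z h1 h2
  wlog hz : ‖z‖ ≤ 1 generalizing z
  · have h0 : (‖z‖ : ℂ) ≠ 0 := by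
      have : 0 < ‖z‖ := by linarith
      exact_mod_cast this.ne'
    obtain ⟨c, hc⟩ := this ((‖z‖ : ℂ)⁻¹ • z) (fun i => (h1 i).smul_right _)
      (fun y hy => (h2 y hy).smul_right _) (by
        rw [norm_smul, norm_inv, Complex.norm_real, norm_norm]
        exact inv_mul_le_one_of_le₀ le_rfl (norm_nonneg _))
    exact ⟨‖z‖ * c, by rw [mul_smul, ← hc, smul_inv_smul₀ h0]⟩
  have h3 : L.Conc U z fun _ => q.K.prod (⊤ : Subgroup SG) :=
    (TwAlg.conc_pp (fun _ => PP.comap (MonoidHom.fst X SG) (a := (q.g 0, 1)) (b := (q.g 1, 1)) q.pp)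
      (h1 0) (h1 1)).mono fun _ g hg => ⟨not_not.1 hg, trivial⟩
  refine ⟨_, (h3.fc hr hz (fun _ => le_rfl) (E := fun _ => {1}) (fun _ g hg hne => ?_)
    fun k hk => h2 _ fun i => main_comm_uu L U fun n => q.comm i _ (hk n).1).eq_smul⟩
  by_cases h4 : g.2 = 1
  · exact Or.inl (Esc.prod (hq _ hg.1 fun h5 => hne (Prod.ext h5 h4)) fun k hk => ⟨hk, trivial⟩)
  · refine tesc_of_site (K := q.K.prod ⊤) (J := Set.univ) (fun s _ => ⟨one_mem q.K, trivial⟩) ?_
    rwa [Set.compl_univ, SJ_empty, Subgroup.mem_bot]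

end pair

lemma FacComm.map {B C : Type*} [CStarAlgebra B] [CStarAlgebra C] (θ : B ≃⋆ₐ[ℂ] C) {b : Fin 2 → B}
    (h : FacComm b) : FacComm fun k => θ (b k) := by
  intro z h1 h2
  obtain ⟨z, rfl⟩ := EquivLike.surjective θ z
  obtain ⟨c, rfl⟩ := h z (fun i => Commute.of_map (EquivLike.injective θ) (h1 i)) fun y hy =>
    Commute.of_map (EquivLike.injective θ) (h2 _ fun i => (hy i).map θ)
  exact ⟨c, by simp⟩

lemma main_norm_conj {B : Type*} [CStarAlgebra B] {u y : B} (hu : u ∈ unitary B) (hy : ‖y‖ ≤ 1) :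
    ‖star u * y * u‖ ≤ 1 := by
  rwa [CStarRing.norm_mul_mem_unitary _ hu, CStarRing.norm_mem_unitary_mul _ (Unitary.star_mem hu)]

/-- Conjugation by a unitary. -/
def conjU {B : Type*} [CStarAlgebra B] {u : B} (hu : u ∈ unitary B) : B →* B where
  toFun y := star u * y * u
  map_one' := by rw [mul_one, hu.1]
  map_mul' x y := by
    simp only [mul_assoc]
    rw [← mul_assoc u, hu.2, one_mul]

section half

variable {L0 L0' : Type} {Γ0 : SimpleGraph L0} {Γ0' : SimpleGraph L0'} {G G' : Type}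
  [Group G] [Group G'] {bit bit' : ℕ → Bool} (Z : Setup Γ0 G bit) (Z' : Setup Γ0' G' bit')
  {A A' : Type*} [CStarAlgebra A] [CStarAlgebra A'] {t : TrState A} {t' : TrState A'} [t.W]
  [t'.W] (L : TwAlg (εP (HH Γ0)) t) (L' : TwAlg (εP (HH Γ0')) t') {I J : Type*}
  {U : Ultrafilter I} {V : Ultrafilter J} {r : I → ℕ} {r' : J → ℕ}

lemma Setup.exists_tail (hr : Tendsto r U atTop) {y : Ultrapower t U}
    (hy : L.Conc U y fun _ => (Hm Γ0 0).prod (⊤ : Subgroup SG)) :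
    ∃ q : I → Pair (HH Γ0), (∀ i k, (q i).g k ∈ (Z.p 0).K) ∧ ∀ k, Commute (pairU L U q k) y := by
  obtain ⟨x, rfl, hx⟩ := hy.rep
  choose F hF hF' using fun i => L.exists_fin (hx i).2 (Nat.one_div_pos_of_nat (n := r i))
  choose m hm using fun g => Z.S.loc Z.S.top g (by rw [Z.S.grp_top]; trivial)
  choose q hq using Z.tail
  refine ⟨fun i => q ((F i).sup fun g => m (Z.ρ g.1)), fun i k => ?_, fun k => (comm_mkU U).2 ?_⟩
  · obtain ⟨h, -, e⟩ := hq ((F i).sup fun g => m (Z.ρ g.1)) k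
    rw [← e]
    exact Z.j_K 0 h
  refine squeeze_zero (fun _ => t.cm_nonneg _ _) (fun i => hF' i _ (L.norm_u _) fun g hg => ?_)
    (tendsto_one_div_add_atTop_nhds_zero_nat.comp hr)
  obtain ⟨h, hh, e⟩ := hq ((F i).sup fun g => m (Z.ρ g.1)) k
  refine (main_comm_u L ?_).symm
  rw [← e]
  exact (Z.loc _ (hF i g hg).1 h
    (hm _ _ _ (Finset.le_sup (f := fun g : HH Γ0 × SG => m (Z.ρ g.1)) hg) h hh)).symm

include Z Z' in
theorem main_half (hr : Tendsto r U atTop) (hr' : Tendsto r' V atTop)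
    (θ : Ultrapower t U ≃⋆ₐ[ℂ] Ultrapower t' V) (hθ : ∀ a, (upTr t' V).τ (θ a) = (upTr t U).τ a) :
    ∃ u ∈ unitary (Ultrapower t' V), ∀ y, ‖y‖ ≤ 1 →
      (L.Conc U y fun _ => (Hm Γ0 0).prod (⊤ : Subgroup SG)) →
      L'.Conc V (star u * θ y * u) fun _ => (Hm Γ0' 0).prod (⊤ : Subgroup SG) := by
  have hun : ∀ q k, θ (pairU L U q k) ∈ unitary (Ultrapower t' V) := fun q k =>
    dbl_unit (φ := (θ : Ultrapower t U →⋆ₐ[ℂ] Ultrapower t' V)) (L.uu_unitary _)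
  have hnm : ∀ q, NM (upTr t' V) Set.univ 0 fun k => θ (pairU L U q k) := fun q =>
    NM.map (φ := (θ : Ultrapower t U →⋆ₐ[ℂ] Ultrapower t' V)) hθ
      (fun y _ => EquivLike.surjective θ y) (pairU_nm L U q)
  obtain ⟨u, hu, h⟩ := kurosh L' Z'.icc hr' (hun fun _ => Z.p 0) (hun fun _ => Z.p 1)
    (fun k l => (main_comm_uu L U fun _ => (Z.p 0).comm k _ (Z.p_K 1 0 (by decide) l)).map θ)
    (hnm _) (hnm _) ((pairU_fac L hr _ (Z.icc_K 0)).map θ) ((pairU_fac L hr _ (Z.icc_K 1)).map θ)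
  refine ⟨u, hu, fun y hy hy' => ?_⟩
  obtain ⟨q, hq, hq'⟩ := Z.exists_tail L hr hy'
  have hc : ∀ k, star u * θ (pairU L U q k) * u ∈ unitary (Ultrapower t' V) ∧
      L'.Conc V (star u * θ (pairU L U q k) * u) fun _ => (Hm Γ0' 0).prod (⊤ : Subgroup SG) :=
    fun k => ⟨mul_mem (mul_mem (Unitary.star_mem hu) (hun q k)) hu, h _
      (fun l => (main_comm_uu L U fun i => (Z.p 0).comm l _ (hq i k)).map θ)
      (norm_unitary_le (hun q k))⟩
  exact conc_of_intertwine L' hc hc ((hnm q).conj hu) (main_norm_conj hu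
    (hom_norm_le (θ : Ultrapower t U →⋆ₐ[ℂ] Ultrapower t' V) hy)) fun k =>
      (((hq' k).map θ).map (conjU hu)).eq

end half

theorem bit_eq_tw {L0 L0' : Type} {Γ0 : SimpleGraph L0} {Γ0' : SimpleGraph L0'} {G G' : Type}
    [Group G] [Group G'] {bit bit' : ℕ → Bool} (Z : Setup Γ0 G bit) (Z' : Setup Γ0' G' bit')
    {A A' : Type u} [CStarAlgebra A] [CStarAlgebra A'] {t : TrState A} {t' : TrState A'} [t.W]
    [t'.W] (L : TwAlg (εP (HH Γ0)) t) (L' : TwAlg (εP (HH Γ0')) t') (h : ElemEquiv.{u, w} t t') :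
    bit = bit' := by
  obtain ⟨I, J, U, V, r, r', θ, hr, hr', hθ⟩ := exists_iso (tw_isInfFactor L (pp_tj 0)) h
  obtain ⟨u, hu, h1⟩ := main_half Z Z' L L' hr hr' θ hθ
  obtain ⟨u', hu', h2⟩ := main_half Z' Z L' L hr' hr θ.symm fun a => by
    rw [← hθ, θ.apply_symm_apply]
  have hn : ∀ y, ‖y‖ ≤ 1 → ‖θ y‖ ≤ 1 := fun y =>
    hom_norm_le (θ : Ultrapower t U →⋆ₐ[ℂ] Ultrapower t' V)
  have hn' : ∀ y, ‖y‖ ≤ 1 → ‖θ.symm y‖ ≤ 1 := fun y =>
    hom_norm_le (θ.symm : Ultrapower t' V →⋆ₐ[ℂ] Ultrapower t U)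
  have hv : θ.symm u ∈ unitary (Ultrapower t U) :=
    dbl_unit (φ := (θ.symm : Ultrapower t' V →⋆ₐ[ℂ] Ultrapower t U)) hu
  have hz : θ.symm u * u' ∈ unitary (Ultrapower t U) := mul_mem hv hu'
  have hb : ∀ k, pairU L U (fun _ => Z.p 0) k ∈ unitary (Ultrapower t U) ∧
      L.Conc U (pairU L U (fun _ => Z.p 0) k) fun _ => (Hm Γ0 0).prod (⊤ : Subgroup SG) :=
    fun k => ⟨L.uu_unitary _, L.conc_uu fun _ => ⟨Z.p_mem 0 k, trivial⟩⟩
  have e1 : ∀ y, star u' * θ.symm (star u * θ y * u) * u' =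
      star (θ.symm u * u') * y * (θ.symm u * u') := fun y => by
    simp only [map_mul, map_star, θ.symm_apply_apply, star_mul, mul_assoc]
  have h3 := conc_of_intertwine L hb
    (b' := fun k => star (θ.symm u * u') * pairU L U (fun _ => Z.p 0) k * (θ.symm u * u'))
    (fun k => ⟨mul_mem (mul_mem (Unitary.star_mem hz) (hb k).1) hz, by
      have n1 := norm_unitary_le (hb k).1
      rw [← e1]
      exact h2 _ (main_norm_conj hu (hn _ n1)) (h1 _ n1 (hb k).2)⟩) (pairU_nm L U _)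
    (norm_unitary_le hz) fun k => by
      rw [mul_assoc (star _), ← mul_assoc (θ.symm u * u'), hz.2, one_mul]
  obtain ⟨S, hS⟩ := Z.exists_jsys L hr
  obtain ⟨S', hS'⟩ := Z'.exists_jsys L' hr'
  let f : Ultrapower t U →* Ultrapower t' V := (conjU hu).comp (θ : Ultrapower t U →* Ultrapower t' V)
  have hf : ∀ y, f y = star u * θ y * u := fun _ => rfl
  have hf' : ∀ y, f (θ.symm u * θ.symm y * star (θ.symm u)) = y := fun y => by
    simp only [hf, map_mul, map_star, θ.apply_symm_apply, ← mul_assoc, hu.1, one_mul]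
    rw [mul_assoc, hu.1, mul_one]
  have hi : Function.Injective f := fun x y hxy => EquivLike.injective θ (by
    have := congrArg (fun z => u * z * star u) hxy
    simp only [hf, ← mul_assoc, hu.2, one_mul] at this
    simpa only [mul_assoc, hu.2, mul_one] using this)
  rw [← hS, ← hS']
  refine JSys.bit_eq' (S.map f hi) S' (Set.Subset.antisymm ?_ fun y hy => ⟨_, ⟨?_, ?_⟩, hf' y⟩)
  · rintro _ ⟨y, hy, rfl⟩
    exact ⟨main_norm_conj hu (hn _ hy.1), h1 y hy.1 hy.2⟩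
  · simpa using main_norm_conj (Unitary.star_mem hv) (hn' _ hy.1)
  · have := (h3.mul (h2 y hy.1 hy.2)).mul h3.star
    simp only [star_mul, ← mul_assoc] at this
    rwa [mul_assoc _ u' (star u'), hu'.2, mul_one, mul_assoc _ u' (star u'), hu'.2, mul_one] at this

end Pool.Agent.P.MP_a6af55_an
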