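import Pool.Agent.P.MP_a6af55_an.SMHom

namespace Pool.Agent.P.MP_a6af55_an

open Pool.Agent.Lib.Tracial
open scoped ComplexOrder InnerProductSpace ComplexConjugate Pointwise
open Filter Topology

variable {A : Type*} [CStarAlgebra A]

/-- A pair that cannot be moved into its own commutant. -/
def NM (t : TrState A) (S : Set A) (δ : ℝ) (b : Fin 2 → A) : Prop :=
  ∀ w ∈ S, ‖w‖ ≤ 1 → ∀ c : Fin 2 → A, (∀ i, c i ∈ S ∧ ‖c i‖ ≤ 1) →
    t.n2 w ≤ 21 * (∑ i, t.n2 (b i * w - w * c i) + ∑ i, ∑ j, t.cm (b j) (c i)) + δ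

/-- Existence of free matrix units of every size. -/
def FreeUnits (t : TrState A) (S B : StarSubalgebra ℂ A) (e : A) (n : ℕ) : Prop :=
  ∀ (I : Type) [Fintype I] [DecidableEq I] [Nonempty I] (N₀ M₀ : ℕ) (τ : I → Fin N₀), N₀ ≤ M₀ →
    Fintype.card I ≤ n * M₀ → ∃ (f : Fin N₀ → A) (w : Fin 2 → I → A), (∀ s a, w s a ∈ S) ∧
      (∀ p, star (f p) = f p) ∧ (∀ p q, f p * f q = if p = q then f p else 0) ∧
      (∀ p, e * f p = f p) ∧ (∀ s a b, w s a * star (w s b) = if a = b then f (τ a) else 0) ∧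
      ∑ a, star (w 0 a) * w 0 a = ∑ a, star (w 1 a) * w 1 a ∧
      (∀ a b c d, Commute (star (w 0 a) * w 0 b) (star (w 1 c) * w 1 d)) ∧
      (∀ p, ∀ x ∈ B, e * x * e = x → t.τ (x * f p) = t.τ x / M₀) ∧
      ∀ p q, ∀ x ∈ B, e * x * e = x → t.τ x = 0 → t.n2 (f p * x * f q) ≤ t.n2 x / M₀

variable {t : TrState A}

lemma NM.perturb {S : Set A} {δ η : ℝ} {b b' : Fin 2 → A} (h : NM t S δ b)
    (hb : ∀ i, t.n2 (b i - b' i) ≤ η) : NM t S (δ + 210 * η) b' := by
  intro w hw h1 c hc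
  have e1 : ∀ i, t.n2 (b i * w - w * c i) ≤ t.n2 (b' i * w - w * c i) + η := fun i => by
    have : b i * w - w * c i = (b' i * w - w * c i) + (b i - b' i) * w := by noncomm_ring
    rw [this]
    exact (t.n2_add_le _ _).trans (add_le_add le_rfl ((t.n2_mul_le_of_le' _ h1).trans (hb i)))
  have e2 : ∀ i j, t.cm (b j) (c i) ≤ t.cm (b' j) (c i) + 2 * η := fun i j => by
    rw [t.cm_comm, t.cm_comm (b' j)]
    linarith [t.cm_le_add (hc i).2 (b j) (b' j), hb j]
  have := h w hw h1 c hc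
  simp only [Fin.sum_univ_two] at this ⊢
  linarith [e1 0, e1 1, e2 0 0, e2 0 1, e2 1 0, e2 1 1]

theorem nm_of_pp {Γ : Type*} [Group Γ] {ε : Γ →* Γ →* ℤˣ} (L : TwAlg ε t) [t.W] (g : Fin 2 → Γ)
    (K : Subgroup Γ) (h : PP (g 0) (g 1) (K : Set Γ)ᶜ) (π : Γ →* FreeGroup (Fin 2))
    (hπ : ∀ i, π (g i) = FreeGroup.of i) (hK : ∀ k ∈ K, π k = 1) :
    NM t Set.univ 0 fun i => L.u (g i) := by
  intro w _ h1 c hc
  let E : Fin 2 × Bool → Set Γ := fun p => π ⁻¹' FreeGroup.startsWith p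
  let D : Fin 2 → ℝ := fun i => t.n2 (L.u (g i) * w - w * c i) +
    7 * (t.cm (L.u (g 0)) (c i) + t.cm (L.u (g 1)) (c i))
  have D0 : ∀ i, 0 ≤ D i := fun i => add_nonneg (t.n2_nonneg _)
    (mul_nonneg (by norm_num) (add_nonneg (t.cm_nonneg _ _) (t.cm_nonneg _ _)))
  have e1 : ∀ i, L.m w (E (i, false))ᶜ ≤ L.m w (E (i, true)) + D i := fun i => by
    have a1 : L.m w (E (i, false))ᶜ ≤ L.m (L.u (g i) * w) (E (i, true)) := by
      rw [L.m_u_mul]
      refine L.m_mono w fun x hx => ?_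
      change π (g i * x) ∈ FreeGroup.startsWith (i, true)
      rw [map_mul, hπ]
      exact FreeGroup.startsWith_mk_mul (w := (i, true)) (π x) hx
    have a2 := L.m_le_add (L.u (g i) * w) (w * L.cE K (c i)) (E (i, true))
    have a3 := (L.cE_in K (c i)).m_mul_le' ((L.norm_cE_le K _).trans (hc i).2)
      (E := E (i, true)) (E' := E (i, true)) (fun k hk x => by
        simp only [E, Set.mem_preimage, map_mul, hK k hk, mul_one]) w
    have a4 := t.n2_triangle (L.u (g i) * w) (w * c i) (w * L.cE K (c i))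
    have a5 := t.n2_mul_le_of_le h1 (c i - L.cE K (c i))
    rw [mul_sub, L.n2_sub_cE] at a5
    have a6 := L.pp h (c i)
    simp only [D]
    linarith
  have e2 := L.sum_m_le Finset.univ E (F := Set.univ) (fun _ _ => Set.subset_univ _)
    (fun p _ q _ hpq => (FreeGroup.startsWith.disjoint_iff_ne.2 hpq).preimage π) w
  rw [L.m_univ, Fintype.sum_prod_type] at e2
  simp only [Fin.sum_univ_two, Fintype.sum_bool] at e2 ⊢
  have e3 : ∀ i, t.n2 w ^ 2 ≤ L.m w (E (i, true)) ^ 2 + L.m w (E (i, false)) ^ 2 +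
      2 * t.n2 w * D i + D i ^ 2 := fun i => by
    have a1 := L.m_sq_add_compl w (E (i, false))
    have a2 := pow_le_pow_left₀ (L.m_nonneg _ _) (e1 i) 2
    nlinarith [mul_le_mul_of_nonneg_right (L.m_le_n2 w (E (i, true))) (D0 i)]
  have e4 : t.n2 w ≤ 3 * (D 0 + D 1) := by
    by_contra hlt
    push Not at hlt
    nlinarith [e3 0, e3 1, D0 0, D0 1, mul_nonneg (D0 0) (D0 1)]
  simp only [D] at e4
  linarith [t.n2_nonneg (L.u (g 0) * w - w * c 0), t.n2_nonneg (L.u (g 1) * w - w * c 1)]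

theorem trunc (S : StarSubalgebra ℂ A) [IsClosed (S : Set A)] {u f : A} (hu : u ∈ S)
    (hf : IsStarProjection f) (h : u * f = u) : ∃ v ∈ S, ‖v‖ ≤ 1 ∧
      t.n2 (u - v) ≤ t.n2 (star u * u - f) ∧ t.n2 (star v * v - f) ≤ t.n2 (star u * u - f) := by
  have hsa : IsSelfAdjoint (star u * u) := IsSelfAdjoint.star_mul_self u
  have hh : star u * u ∈ S := mul_mem (star_mem hu) hu
  let g : ℝ → ℝ := fun s => (√(max 1 s))⁻¹
  let k : ℝ → ℝ := fun s => max (s - 1) 0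
  have g0 : ∀ s : ℝ, 0 < √(max 1 s) := fun s => Real.sqrt_pos.2 (lt_max_of_lt_left one_pos)
  have hg : Continuous g := Continuous.inv₀ (by fun_prop) fun s => (g0 s).ne'
  have hk : Continuous k := by fun_prop
  have g1 : ∀ s, s ≤ 1 → g s = 1 ∧ k s = 0 := fun s hs => by
    simp [g, k, hs]
  have g2 : ∀ s, 1 ≤ s → g s * s * g s = 1 ∧ k s = s - 1 ∧ 0 < g s ∧ g s ≤ 1 := fun s hs => by
    have a1 := g0 s
    have a2 : √(max 1 s) * √(max 1 s) = s := by
      rw [max_eq_right hs]; exact Real.mul_self_sqrt (by linarith)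
    refine ⟨?_, max_eq_left (by linarith), inv_pos.2 a1, inv_le_one_of_one_le₀ (by nlinarith)⟩
    simp only [g]
    field_simp
    linarith
  have g3 : ∀ s, g s * s * g s = s - k s := fun s => by
    rcases le_total s 1 with hs | hs
    · simp [g1 s hs]
    · rw [(g2 s hs).1, (g2 s hs).2.1]; ring
  have kf : cfc k (star u * u) * f = cfc k (star u * u) := by
    have hq : Continuous fun s : ℝ => k s / max 1 s :=
      hk.div (by fun_prop) fun s => (lt_max_of_lt_left one_pos).ne'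
    have : cfc k (star u * u) = cfc (fun s : ℝ => k s / max 1 s) (star u * u) * (star u * u) := by
      have e := cfcC_mul (star u * u) hq continuous_id'
      rw [cfc_id' ℝ _ hsa] at e
      rw [← e]
      congr 1
      funext s
      rcases le_total s 1 with hs | hs
      · simp [(g1 s hs).2]
      · rw [max_eq_right hs]; field_simp
    rw [this, mul_assoc, mul_assoc, h]
  have kk : star (cfc k (star u * u)) * (star u * u - f) =
      star (cfc k (star u * u)) * cfc k (star u * u) := by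
    have e := cfcC_mul (star u * u) hk continuous_id'
    rw [cfc_id' ℝ _ hsa] at e
    rw [cfc_star_eq, mul_sub, kf, ← e, ← cfcC_mul _ hk hk, ← cfcC_sub _ (by fun_prop) hk]
    congr 1
    funext s
    rcases le_total s 1 with hs | hs
    · simp [(g1 s hs).2]
    · rw [(g2 s hs).2.1]; ring
  have i1 : (⟪t.Λ (cfc k (star u * u)), t.Λ (star u * u - f)⟫_ℂ).re =
      t.n2 (cfc k (star u * u)) ^ 2 := by rw [t.inner_Λ, kk, t.n2_sq]
  have i2 := norm_sub_sq (𝕜 := ℂ) (t.Λ (cfc k (star u * u))) (t.Λ (star u * u - f))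
  rw [← map_sub, t.norm_Λ, t.norm_Λ, t.norm_Λ, RCLike.re_to_complex, i1, t.n2_sub_comm] at i2
  refine ⟨u * cfc g (star u * u), mul_mem hu (cfc_mem _ hh), norm_mul_cfc_le u g hg zero_le_one
    fun s hs => ?_, ?_, ?_⟩
  · rcases le_total s 1 with h1 | h1
    · simpa [(g1 s h1).1] using h1
    · simp [(g2 s h1).1]
  · have e : u - u * cfc g (star u * u) = u * cfc (fun s => 1 - g s) (star u * u) := by
      rw [cfcC_sub _ continuous_const hg, cfcC_const hsa, mul_sub]; simp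
    have hc : Continuous fun s => 1 - g s := by fun_prop
    refine le_of_sq_le_sq (le_trans ?_ (show t.n2 (cfc k (star u * u)) ^ 2 ≤ _ by
      nlinarith [sq_nonneg (t.n2 (star u * u - f - cfc k (star u * u)))])) (t.n2_nonneg _)
    rw [e, t.n2_sq, t.n2_sq, star_mul_cfc u _ _ hc hc, cfc_star_eq, ← cfcC_mul _ hk hk]
    refine t.τ_cfc_mono _ _ (by fun_prop) (by fun_prop) fun s _ => ?_
    rcases le_total s 1 with h1 | h1
    · simp [g1 s h1]
    · obtain ⟨a1, a2, a3, a4⟩ := g2 s h1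
      have a5 : 1 ≤ g s * s := by nlinarith
      have a6 : g s * s ≤ s := by nlinarith
      have a7 : s = g s * s * (g s * s) := by linear_combination (-s) * a1
      rw [a2]
      nlinarith [mul_nonneg (sub_nonneg.2 a5) (sub_nonneg.2 a6)]
  · rw [star_mul_cfc u _ _ hg hg, funext g3, cfcC_sub _ continuous_id' hk, cfc_id' ℝ _ hsa,
      sub_right_comm]
    exact le_of_sq_le_sq (by nlinarith [sq_nonneg (t.n2 (cfc k (star u * u)))]) (t.n2_nonneg _)

theorem six (S : StarSubalgebra ℂ A) {δ Δ : ℝ} {b : Fin 2 → A} (h : NM t S δ b) {f : A}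
    (hf : IsStarProjection f) (u : Fin 2 → A) (hu : ∀ s, u s ∈ S ∧ ‖u s‖ ≤ 1)
    (Φ : Fin 2 → Fin 2 → A) (hΦ : ∀ s k, Φ s k ∈ S ∧ ‖Φ s k‖ ≤ 1) (h1 : ∀ k, f * Φ 0 k = Φ 0 k)
    (h2 : ∀ k l, Commute (Φ 0 k) (Φ 1 l)) (h3 : ∀ s, t.n2 (star (u s) * u s - f) ≤ Δ)
    (h4 : ∀ s k, t.n2 (b k * u s - u s * Φ s k) ≤ Δ)
    (h5 : ∀ s k, t.n2 (star (b k) * u s - u s * star (Φ s k)) ≤ Δ) : t.n2 f ≤ 254 * Δ + δ := by
  have hs : ∀ s, ‖star (u s)‖ ≤ 1 := fun s => by rw [norm_star]; exact (hu s).2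
  have mm : ∀ {x y : A}, ‖x‖ ≤ 1 → ‖y‖ ≤ 1 → ‖x * y‖ ≤ 1 := fun hx hy =>
    (norm_mul_le _ _).trans (mul_le_one₀ hx (norm_nonneg _) hy)
  have h0 : star (u 1) ∈ S := star_mem (hu 1).1
  have e0 := h (u 0 * star (u 1)) (S.mul_mem (hu 0).1 h0) (mm (hu 0).2 (hs 1))
    (fun i => u 1 * Φ 0 i * star (u 1)) fun i =>
      ⟨S.mul_mem (S.mul_mem (hu 1).1 (hΦ 0 i).1) h0, mm (mm (hu 1).2 (hΦ 0 i).2) (hs 1)⟩
  have e1 : ∀ i, t.n2 (b i * (u 0 * star (u 1)) -
      u 0 * star (u 1) * (u 1 * Φ 0 i * star (u 1))) ≤ 2 * Δ := fun i => by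
    have : b i * (u 0 * star (u 1)) - u 0 * star (u 1) * (u 1 * Φ 0 i * star (u 1)) =
        (b i * u 0 - u 0 * Φ 0 i) * star (u 1) -
          u 0 * ((star (u 1) * u 1 - f) * (Φ 0 i * star (u 1))) := by
      have : f * (Φ 0 i * star (u 1)) = Φ 0 i * star (u 1) := by rw [← mul_assoc, h1]
      rw [sub_mul (star (u 1) * u 1), this]
      noncomm_ring
    rw [this]
    linarith [t.n2_sub_le ((b i * u 0 - u 0 * Φ 0 i) * star (u 1))
      (u 0 * ((star (u 1) * u 1 - f) * (Φ 0 i * star (u 1)))),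
      t.n2_mul_le_of_le' (b i * u 0 - u 0 * Φ 0 i) (hs 1), h4 0 i, h3 1,
      t.n2_mul_le_of_le (hu 0).2 ((star (u 1) * u 1 - f) * (Φ 0 i * star (u 1))),
      t.n2_mul_le_of_le' (star (u 1) * u 1 - f) (mm (hΦ 0 i).2 (hs 1))]
  have e2 : ∀ i j, t.cm (b j) (u 1 * Φ 0 i * star (u 1)) ≤ 2 * Δ := fun i j => by
    have : b j * (u 1 * Φ 0 i * star (u 1)) - u 1 * Φ 0 i * star (u 1) * b j =
        (b j * u 1 - u 1 * Φ 1 j) * (Φ 0 i * star (u 1)) -
          u 1 * Φ 0 i * star (star (b j) * u 1 - u 1 * star (Φ 1 j)) := by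
      have : Φ 1 j * (Φ 0 i * star (u 1)) = Φ 0 i * (Φ 1 j * star (u 1)) := by
        rw [← mul_assoc, ← (h2 i j).eq, mul_assoc]
      rw [star_sub, star_mul, star_mul, star_star, star_star, sub_mul, mul_assoc (u 1) (Φ 1 j), this]
      noncomm_ring
    rw [TrState.cm, this]
    linarith [t.n2_sub_le ((b j * u 1 - u 1 * Φ 1 j) * (Φ 0 i * star (u 1)))
      (u 1 * Φ 0 i * star (star (b j) * u 1 - u 1 * star (Φ 1 j))),
      t.n2_mul_le_of_le' (b j * u 1 - u 1 * Φ 1 j) (mm (hΦ 0 i).2 (hs 1)), h4 1 j, h5 1 j,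
      t.n2_mul_le_of_le (mm (hu 1).2 (hΦ 0 i).2) (star (star (b j) * u 1 - u 1 * star (Φ 1 j))),
      t.n2_star (star (b j) * u 1 - u 1 * star (Φ 1 j))]
  have e3 : t.n2 f ≤ t.n2 (u 0 * star (u 1)) + 2 * Δ := by
    have : f = star (u 0) * (u 0 * star (u 1) * u 1) - (star (u 0) * u 0 - f) * f -
        star (u 0) * u 0 * (star (u 1) * u 1 - f) := by
      rw [sub_mul (star (u 0) * u 0), hf.isIdempotentElem.eq]
      noncomm_ring
    have a1 := t.n2_sub_le (star (u 0) * (u 0 * star (u 1) * u 1) - (star (u 0) * u 0 - f) * f)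
      (star (u 0) * u 0 * (star (u 1) * u 1 - f))
    rw [← this] at a1
    linarith [t.n2_sub_le (star (u 0) * (u 0 * star (u 1) * u 1)) ((star (u 0) * u 0 - f) * f),
      t.n2_mul_le_of_le (hs 0) (u 0 * star (u 1) * u 1),
      t.n2_mul_le_of_le' (u 0 * star (u 1)) (hu 1).2, h3 0, h3 1,
      t.n2_mul_le_of_le' (star (u 0) * u 0 - f) hf.norm_le,
      t.n2_mul_le_of_le (mm (hs 0) (hu 0).2) (star (u 1) * u 1 - f)]
  simp only [Fin.sum_univ_two] at e0
  linarith [e1 0, e1 1, e2 0 0, e2 0 1, e2 1 0, e2 1 1]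

end Pool.Agent.P.MP_a6af55_an
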