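import Pool.Agent.P.MP_a6af55_an.SMPushB
import Pool.Agent.P.MP_a6af55_an.SMDef

namespace Pool.Agent.P.MP_a6af55_an

open Pool.Agent.Lib.Tracial
open scoped ComplexOrder InnerProductSpace ComplexConjugate Pointwise Real
open Filter Topology

section general

lemma pa_norm_sum {H ι : Type*} [NormedAddCommGroup H] [InnerProductSpace ℂ H] (s : Finset ι)
    (ξ : ι → H) (h : ∀ i ∈ s, ∀ j ∈ s, i ≠ j → ⟪ξ i, ξ j⟫_ℂ = 0) :
    ‖∑ i ∈ s, ξ i‖ ^ 2 = ∑ i ∈ s, ‖ξ i‖ ^ 2 := by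
  classical
  induction s using Finset.induction_on with
  | empty => simp
  | insert a s ha ih =>
    have h0 : ⟪ξ a, ∑ i ∈ s, ξ i⟫_ℂ = 0 := by
      rw [inner_sum]
      exact Finset.sum_eq_zero fun i hi => h a (Finset.mem_insert_self a s) i
        (Finset.mem_insert_of_mem hi) fun e => ha (e ▸ hi)
    rw [Finset.sum_insert ha, Finset.sum_insert ha, ← ih fun i hi j hj =>
      h i (Finset.mem_insert_of_mem hi) j (Finset.mem_insert_of_mem hj), sq,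
      norm_add_sq_eq_norm_sq_add_norm_sq_of_inner_eq_zero _ _ h0, sq, sq]

variable {A : Type*} [CStarAlgebra A] {t : TrState A} {Γ : Type*} [Group Γ] {ε : Γ →* Γ →* ℤˣ}

lemma pa_n2_swap (t : TrState A) (v : A) : t.n2 (v * star v - 1) = t.n2 (star v * v - 1) := by
  rw [← sq_eq_sq₀ (t.n2_nonneg _) (t.n2_nonneg _), t.n2_sq, t.n2_sq]
  congr 1
  have h1 : t.τ (v * star v * (v * star v)) = t.τ (star v * v * (star v * v)) := by
    rw [mul_assoc v, t.trace v]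
    simp only [mul_assoc]
  simp only [star_sub, star_mul, star_star, star_one, sub_mul, mul_sub, one_mul, mul_one, map_sub,
    h1, t.trace v (star v)]

lemma pa_row (t : TrState A) {ι : Type*} (s : Finset ι) (a : ι → A)
    (h : ‖∑ i ∈ s, a i * star (a i)‖ ≤ 1) (y : A) :
    ∑ i ∈ s, t.n2 (y * a i) ^ 2 ≤ t.n2 y ^ 2 := by
  have h1 : ((∑ i ∈ s, t.n2 (y * a i) ^ 2 : ℝ) : ℂ) =
      t.τ ((y * ∑ i ∈ s, a i * star (a i)) * star y) := by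
    rw [Complex.ofReal_sum, Finset.mul_sum, Finset.sum_mul, map_sum]
    refine Finset.sum_congr rfl fun i _ => ?_
    rw [t.n2_sq', t.trace, star_mul]
    simp only [mul_assoc]
  have h2 := t.norm_τ_mul_le (y * ∑ i ∈ s, a i * star (a i)) (star y)
  rw [← h1, Complex.norm_real, t.n2_star] at h2
  have h3 := mul_le_mul_of_nonneg_right (t.n2_mul_le_of_le' y h) (t.n2_nonneg y)
  rw [sq (t.n2 y)]
  exact (le_abs_self _).trans (h2.trans h3)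

lemma TwAlg.pa_m_sum (L : TwAlg ε t) {ι : Type*} (s : Finset ι) (x : ι → A) (R : ι → Set Γ)
    (P : Set Γ) (h1 : ∀ i ∈ s, L.In (x i) (R i))
    (h2 : ∀ i ∈ s, ∀ j ∈ s, i ≠ j → Disjoint (P ∩ R i) (P ∩ R j)) :
    L.m (∑ i ∈ s, x i) P ^ 2 = ∑ i ∈ s, L.m (x i) P ^ 2 := by
  rw [TwAlg.m, map_sum, map_sum]
  refine pa_norm_sum s _ fun i hi j hj hij => ?_
  rw [← L.in_iff_PE.1 (h1 i hi), ← L.in_iff_PE.1 (h1 j hj), L.PE_PE, L.PE_PE]
  exact L.inner_PE_disj (h2 i hi j hj hij) _ _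

lemma TwAlg.pa_PE_sum (L : TwAlg ε t) {ι : Type*} (s : Finset ι) (E : ι → Set Γ)
    (h : ∀ i ∈ s, ∀ j ∈ s, i ≠ j → Disjoint (E i) (E j)) (ξ : t.L2) :
    L.PE {g | ∃ i ∈ s, g ∈ E i} ξ = ∑ i ∈ s, L.PE (E i) ξ := by
  classical
  induction s using Finset.induction_on with
  | empty => simp [L.PE_empty]
  | insert a s ha ih =>
    have h0 : {g | ∃ i ∈ insert a s, g ∈ E i} = E a ∪ {g | ∃ i ∈ s, g ∈ E i} := by
      ext g
      simp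
    rw [h0, L.PE_union, Finset.sum_insert ha, ih fun i hi j hj =>
      h i (Finset.mem_insert_of_mem hi) j (Finset.mem_insert_of_mem hj)]
    refine Set.disjoint_left.2 ?_
    rintro g hg ⟨i, hi, hg'⟩
    exact Set.disjoint_left.1 (h a (Finset.mem_insert_self a s) i (Finset.mem_insert_of_mem hi)
      fun e => ha (e ▸ hi)) hg hg'

end general

variable {L0 : Type} {Γ0 : SimpleGraph L0} {A : Type*} [CStarAlgebra A] {t : TrState A} [t.W]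
  {L : TwAlg (εP (HT Γ0)) t} (D : Deform L)

/-- The push-down map. -/
noncomputable def Deform.T (v y : A) : A :=
  L.cE ((HR Γ0).prod (⊤ : Subgroup SG)) (v * D.α (π / 2) y)

/-- Finite sets of representatives of distinct cosets. -/
def IsReps (F : Finset (HT Γ0)) : Prop :=
  (∀ c ∈ F, c ∈ HR Γ0) ∧ ∀ c ∈ F, ∀ d ∈ F, c⁻¹ * d ∈ GR Γ0 → c = d

lemma pa_GR_le : GR Γ0 ≤ HR Γ0 := Subgroup.map_le_range _ _

lemma pa_mem {K : Subgroup (HT Γ0)} {g : HT Γ0 × SG} :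
    g ∈ ((K.prod (⊤ : Subgroup SG) : Subgroup (HT Γ0 × SG)) : Set (HT Γ0 × SG)) ↔ g.1 ∈ K :=
  ⟨fun h => h.1, fun h => ⟨h, trivial⟩⟩

omit [t.W] in
lemma Deform.pa_W (c : HT Γ0) :
    ∃ a : ℂ, ‖a‖ = 1 ∧ D.α (π / 2) (L.U c) = a • L.u (φT Γ0 c, 1) := by
  obtain ⟨a, ha⟩ := D.α_end (c, 1)
  refine ⟨a, ?_, ha⟩
  have := (D.tp_α (π / 2)).n2 (L.u (c, 1))
  rwa [ha, t.n2_smul, L.n2_u, L.n2_u, mul_one] at this

omit [t.W] in
lemma Deform.pa_unit (c : HT Γ0) : D.α (π / 2) (L.U c) ∈ unitary A :=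
  map_unitary _ (L.unit (c, 1))

omit [t.W] in
lemma Deform.pa_in (c : HT Γ0) : L.In (D.α (π / 2) (L.U c)) {(φT Γ0 c, 1)} := by
  obtain ⟨a, -, ha⟩ := D.pa_W c
  rw [ha]
  exact (L.in_u (E := {(φT Γ0 c, 1)}) rfl).smul a

lemma Deform.pa_T_in (v y : A) : L.In (D.T v y) ((HR Γ0).prod (⊤ : Subgroup SG)) := L.cE_in _ _

lemma Deform.pa_Λ (v : A) (c : HT Γ0) : t.Λ (D.T v (L.U c) * star (D.α (π / 2) (L.U c))) =
    L.PE {g | g.1 * φT Γ0 c ∈ HR Γ0} (t.Λ v) := by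
  rw [← t.rmul_Λ, Deform.T, L.Λ_cE, ← t.rmul_Λ,
    (D.pa_in c).PE_rmul (E := {g | g.1 * φT Γ0 c ∈ HR Γ0}) (by
      rintro _ rfl g
      exact pa_mem)]
  have : (t.rmul (star (D.α (π / 2) (L.U c)))).comp (t.rmul (D.α (π / 2) (L.U c))) =
      ContinuousLinearMap.id ℂ _ := t.ext_Λ fun a => by
    simp [mul_assoc, (D.pa_unit c).2]
  exact congrArg (fun T : t.L2 →L[ℂ] t.L2 => T _) this

lemma pa_disj {F : Finset (HT Γ0)} (hF : IsReps F) : ∀ c ∈ F, ∀ d ∈ F, c ≠ d →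
    Disjoint {g : HT Γ0 × SG | g.1 * φT Γ0 c ∈ HR Γ0} {g | g.1 * φT Γ0 d ∈ HR Γ0} :=
  fun c hc d hd hcd => Set.disjoint_left.2 fun g h1 h2 => hcd (hF.2 c hc d hd (mem_GR_of_φT
    (mul_mem (inv_mem (hF.1 c hc)) (hF.1 d hd)) (by
      have := mul_mem (inv_mem (show g.1 * φT Γ0 c ∈ HR Γ0 from h1))
        (show g.1 * φT Γ0 d ∈ HR Γ0 from h2)
      simpa [mul_assoc] using this)))

theorem Deform.bessel {F : Finset (HT Γ0)} (hF : IsReps F) (v : A) :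
    ∑ c ∈ F, t.n2 (D.T v (L.U c)) ^ 2 ≤ t.n2 v ^ 2 := by
  have h := L.sum_m_le F (fun c => {g | g.1 * φT Γ0 c ∈ HR Γ0}) (F := Set.univ)
    (fun _ _ => Set.subset_univ _) (pa_disj hF) v
  rw [L.m_univ] at h
  refine le_trans (le_of_eq (Finset.sum_congr rfl fun c _ => ?_)) h
  rw [TwAlg.m, ← D.pa_Λ, t.norm_Λ, t.n2_mul_unitary _ (Unitary.star_mem (D.pa_unit c))]

theorem Deform.row_le {F : Finset (HT Γ0)} (hF : IsReps F) {v : A} (hv : ‖v‖ ≤ 1) :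
    ‖∑ c ∈ F, D.T v (L.U c) * star (D.T v (L.U c))‖ ≤ 1 := by
  have := norm_sum_le_of_alg L (K := (HR Γ0).prod (⊤ : Subgroup SG)) F
    (fun c => star (D.T v (L.U c))) (fun c _ => (D.pa_T_in v _).kstar) fun x hx => by
      have h1 := D.bessel hF (star x * v)
      have h2 := pow_le_pow_left₀ (t.n2_nonneg _) (t.n2_mul_le_of_le' (star x) hv) 2
      rw [t.n2_star] at h2
      refine le_trans (le_of_eq (Finset.sum_congr rfl fun c _ => ?_)) (h1.trans h2)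
      rw [← t.n2_star, star_mul, star_star, Deform.T, Deform.T, mul_assoc, hx.kstar.cE_mul]
  simpa only [star_star] using this

theorem Deform.exists_reps (v : A) {δ : ℝ} (hδ : 0 < δ) : ∃ F, IsReps F ∧
    t.n2 (v - ∑ c ∈ F, D.T v (L.U c) * star (D.α (π / 2) (L.U c))) ≤
      L.m v ((DC (HR Γ0) ((HR Γ0).map (φT Γ0)))ᶜ ×ˢ Set.univ) + δ := by
  classical
  obtain ⟨T, h1, h2⟩ := L.exists_fin_PE (DC (HR Γ0) ((HR Γ0).map (φT Γ0)) ×ˢ Set.univ) (t.Λ v) hδ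
  have h3 : ∀ g ∈ T, ∃ c ∈ HR Γ0, g.1 * φT Γ0 c ∈ HR Γ0 := fun g hg => by
    obtain ⟨k, hk, _, ⟨k', hk', rfl⟩, e⟩ := (h1 g hg).1
    exact ⟨k'⁻¹, inv_mem hk', by simpa [e] using hk⟩
  choose! f hf hf' using h3
  let rep : HT Γ0 → HT Γ0 := fun c => (QuotientGroup.mk c : HT Γ0 ⧸ GR Γ0).out
  have r1 : ∀ c, c⁻¹ * rep c ∈ GR Γ0 := fun c => QuotientGroup.eq.1 (QuotientGroup.out_eq' _).symm
  have hF : IsReps (T.image fun g => rep (f g)) := by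
    constructor
    · intro c hc
      obtain ⟨g, hg, rfl⟩ := Finset.mem_image.1 hc
      simpa using mul_mem (hf g hg) (pa_GR_le (r1 (f g)))
    · intro c hc d hd h
      obtain ⟨g, -, rfl⟩ := Finset.mem_image.1 hc
      obtain ⟨g', -, rfl⟩ := Finset.mem_image.1 hd
      have := QuotientGroup.eq.2 h
      simp only [rep, QuotientGroup.out_eq'] at this ⊢
      rw [this]
  refine ⟨_, hF, ?_⟩
  rw [← t.norm_Λ, map_sub, map_sum, Finset.sum_congr rfl fun c _ => D.pa_Λ v c,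
    ← L.pa_PE_sum _ _ (pa_disj hF), sub_eq_of_eq_add' (L.PE_add_compl _ (t.Λ v)).symm]
  refine le_trans ((L.m_mono v ?_).trans (L.m_union_le v _ _)) (add_le_add le_rfl h2)
  intro g hg
  by_cases h : g.1 ∈ DC (HR Γ0) ((HR Γ0).map (φT Γ0))
  · refine Or.inr ⟨⟨h, trivial⟩, fun hT => hg ⟨_, Finset.mem_image_of_mem _ hT, ?_⟩⟩
    have := mul_mem (hf' g hT) (pa_GR_le (r1 (f g)))
    rw [← φT_of_mem (r1 (f g)), mul_assoc, ← map_mul, mul_inv_cancel_left] at this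
    exact this
  · exact Or.inl ⟨h, trivial⟩

lemma pa_group {x g d : HT Γ0} (hd : d ∈ HR Γ0)
    (hx : μT Γ0 x ∈ DC (HR Γ0) ((HR Γ0).map (ψT Γ0)))
    (h : x * εT Γ0 1 (φT Γ0 d) = εT Γ0 0 g) :
    g ∈ (HR Γ0).map (φT Γ0) ∧ ∀ g' d', d' ∈ HR Γ0 → x * εT Γ0 1 (φT Γ0 d') = εT Γ0 0 g' →
      d⁻¹ * d' ∈ GR Γ0 := by
  obtain ⟨k, hk, _, ⟨k', hk', rfl⟩, e⟩ := hx
  have e1 : x = εT Γ0 0 (φT Γ0 k) * εT Γ0 1 (φT Γ0 k') := by
    have e2 : μT Γ0 k = εT Γ0 0 (φT Γ0 k) := by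
      rw [← μT_μT (εT Γ0 0 (φT Γ0 k)), μT_εT_φT hk]
    rw [← μT_μT x, e, map_mul, e2]
    exact congrArg _ (μT_μT _)
  have key : ∀ g d, d ∈ HR Γ0 → x * εT Γ0 1 (φT Γ0 d) = εT Γ0 0 g →
      εT Γ0 1 (φT Γ0 (k' * d)) = εT Γ0 0 ((φT Γ0 k)⁻¹ * g) := fun g d _ h => by
    simp only [map_mul, map_inv, ← h, e1, mul_assoc, inv_mul_cancel_left]
  have h1 := key g d hd h
  have h2 := mem_GR_of_εT (mul_mem hk' hd) h1
  refine ⟨⟨k * (k' * d), mul_mem hk (mul_mem hk' hd), ?_⟩, fun g' d' hd' h' => ?_⟩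
  · rw [φT_of_mem h2, εT_of_mem 1 (pa_GR_le h2), ← εT_of_mem 0 (pa_GR_le h2)] at h1
    rw [map_mul, φT_of_mem h2, εT_injective two_pos h1, mul_inv_cancel_left]
  · have h3 := mem_GR_of_εT (mul_mem hk' hd') (key g' d' hd' h')
    simpa [mul_assoc] using mul_mem (inv_mem h2) h3

omit [t.W] in
lemma Deform.pa_key {F : Finset (HT Γ0)} (hF : IsReps F) (y : HT Γ0 → A) :
    L.m (∑ d ∈ F, D.E 0 (y d) * star (D.E 1 (D.α (π / 2) (L.U d))))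
        {g | μT Γ0 g.1 ∈ DC (HR Γ0) ((HR Γ0).map (ψT Γ0))} ^ 2 ≤
      ∑ d ∈ F, L.m (y d) {g | g.1 ∈ (HR Γ0).map (φT Γ0)} ^ 2 := by
  have hW : ∀ d, ∃ a : ℂ, ‖a‖ = 1 ∧
      D.E 1 (D.α (π / 2) (L.U d)) = a • L.u (εT Γ0 1 (φT Γ0 d), 1) := fun d => by
    obtain ⟨a, h1, h2⟩ := D.pa_W d
    exact ⟨a, h1, by rw [h2, map_smul, D.E_u 1 one_lt_two]⟩
  have hE : ∀ g, ∃ a : ℂ, D.E 0 (L.u g) = a • L.u (εT Γ0 0 g.1, g.2) := fun g =>
    ⟨1, by rw [D.E_u 0 two_pos, one_smul]⟩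
  rw [L.pa_m_sum F _ (fun d => {g | ∃ k, g.1 * εT Γ0 1 (φT Γ0 d) = εT Γ0 0 k})]
  · refine Finset.sum_le_sum fun d hd => pow_le_pow_left₀ (L.m_nonneg _ _) ?_ 2
    obtain ⟨a, h1, h2⟩ := hW d
    rw [h2, star_smul, mul_smul_comm, L.m_smul, norm_star, h1, one_mul, L.m_mul_star_u,
      L.m_map L (D.tp_E 0 two_pos) hE]
    exact L.m_mono _ fun g hg => (pa_group (hF.1 d hd) hg (inv_mul_cancel_right _ _)).1
  · intro d _
    obtain ⟨a, -, h2⟩ := hW d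
    rw [h2, star_smul, mul_smul_comm]
    refine TwAlg.In.smul ?_ _
    refine ((L.in_map L (D.tp_E 0 two_pos) hE (L.in_univ (y d))
      (E' := {g | ∃ k, g.1 = εT Γ0 0 k}) fun g _ => ⟨g.1, rfl⟩).mul
      (L.in_u (E := {(εT Γ0 1 (φT Γ0 d), 1)}) rfl).star).mono ?_
    rintro _ ⟨g, ⟨k, hk⟩, h, hh, rfl⟩
    obtain rfl : h = (εT Γ0 1 (φT Γ0 d), 1)⁻¹ := by simpa [inv_eq_iff_eq_inv] using hh
    exact ⟨k, by simp [hk]⟩
  · intro c hc d hd hcd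
    refine Set.disjoint_left.2 ?_
    rintro g ⟨h1, k, hk⟩ ⟨-, k', hk'⟩
    exact hcd (hF.2 c hc d hd ((pa_group (hF.1 c hc) h1 hk).2 k' d (hF.1 d hd) hk'))

lemma Deform.pa_col {F : Finset (HT Γ0)} (hF : IsReps F) (b : HT Γ0 → A)
    (hb : ∀ c, L.In (b c) ((HR Γ0).prod (⊤ : Subgroup SG))) :
    L.m (∑ c ∈ F, D.α (π / 2) (L.U c) * b c) {g | g.1 ∈ (HR Γ0).map (φT Γ0)} ^ 2 ≤
      ∑ c ∈ F, t.n2 (L.cE ((GR Γ0).prod (⊤ : Subgroup SG)) (b c)) ^ 2 := by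
  rw [L.pa_m_sum F _ (fun c => {g | (φT Γ0 c)⁻¹ * g.1 ∈ HR Γ0})]
  · refine Finset.sum_le_sum fun c hc => pow_le_pow_left₀ (L.m_nonneg _ _) ?_ 2
    obtain ⟨a, h1, h2⟩ := D.pa_W c
    rw [h2, smul_mul_assoc, L.m_smul, h1, one_mul, L.m_u_mul, (hb c).m_eq, L.n2_cE]
    refine L.m_mono _ ?_
    rintro g ⟨⟨k, hk, e⟩, hg⟩
    have e1 : φT Γ0 (c⁻¹ * k) = g.1 := by
      rw [map_mul, map_inv, e]
      exact inv_mul_cancel_left _ _
    have h3 := mem_GR_of_φT (mul_mem (inv_mem (hF.1 c hc)) hk) (e1 ▸ pa_mem.1 hg)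
    rw [φT_of_mem h3] at e1
    exact pa_mem.2 (e1 ▸ h3)
  · intro c _
    refine ((D.pa_in c).mul (hb c)).mono ?_
    rintro _ ⟨_, rfl, g, hg, rfl⟩
    simpa using pa_mem.1 hg
  · intro c hc d hd hcd
    refine Set.disjoint_left.2 ?_
    rintro g ⟨-, h1⟩ ⟨-, h2⟩
    refine hcd (hF.2 c hc d hd (mem_GR_of_φT (mul_mem (inv_mem (hF.1 c hc)) (hF.1 d hd)) ?_))
    have := mul_mem (show (φT Γ0 c)⁻¹ * g.1 ∈ HR Γ0 from h1)
      (inv_mem (show (φT Γ0 d)⁻¹ * g.1 ∈ HR Γ0 from h2))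
    simpa [mul_assoc] using this

theorem Deform.second {F : Finset (HT Γ0)} (hF : IsReps F) {v : A} (hv : ‖v‖ ≤ 1) {δ : ℝ}
    (h1 : t.n2 (star v * v - 1) ≤ δ)
    (h2 : t.n2 (v - ∑ c ∈ F, D.T v (L.U c) * star (D.α (π / 2) (L.U c))) ≤ δ)
    (h3 : L.m (D.μ (star (D.E 0 v) * D.E 1 v))
      ((DC (HR Γ0) ((HR Γ0).map (ψT Γ0)))ᶜ ×ˢ Set.univ) ≤ δ) :
    1 - 10 * δ ≤ ∑ c ∈ F, ∑ d ∈ F,
      t.n2 (L.cE ((GR Γ0).prod (⊤ : Subgroup SG)) (star (D.T v (L.U c)) * D.T v (L.U d))) ^ 2 := by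
  set v0 := ∑ c ∈ F, D.T v (L.U c) * star (D.α (π / 2) (L.U c)) with hv0
  set P : Set (HT Γ0 × SG) := {g | μT Γ0 g.1 ∈ DC (HR Γ0) ((HR Γ0).map (ψT Γ0))} with hP
  have hδ : 0 ≤ δ := (t.n2_nonneg _).trans h1
  have hx : ‖D.E 0 v‖ ≤ 1 := hom_norm_le _ hv
  have hx' : ‖star (D.E 0 v)‖ ≤ 1 := by rwa [norm_star]
  have hy : ‖D.E 1 v‖ ≤ 1 := hom_norm_le _ hv
  have a1 : 1 - δ ≤ t.n2 (D.E 1 v) := by
    have := t.n2_triangle 1 (star v * v) 0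
    rw [sub_zero, sub_zero, t.n2_one, t.n2_sub_comm] at this
    have h4 := t.n2_mul_le_of_le (show ‖star v‖ ≤ 1 by rwa [norm_star]) v
    rw [(D.tp_E 1 one_lt_two).n2]
    linarith
  have a2 : 1 - 2 * δ ≤ t.n2 (star (D.E 0 v) * D.E 1 v) := by
    have h4 := t.n2_triangle (D.E 1 v) (D.E 0 v * (star (D.E 0 v) * D.E 1 v)) 0
    have h5 := t.n2_mul_le_of_le hx (star (D.E 0 v) * D.E 1 v)
    have h6 := t.n2_mul_le_of_le' (D.E 0 (v * star v - 1)) hy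
    rw [(D.tp_E 0 two_pos).n2, pa_n2_swap, map_sub, map_mul, map_star, map_one, sub_mul, one_mul,
      mul_assoc, t.n2_sub_comm] at h6
    rw [sub_zero, sub_zero] at h4
    linarith
  have a3 : 1 - 3 * δ ≤ L.m (star (D.E 0 v) * D.E 1 v) P := by
    rw [L.m_map L D.tp_μ D.μ_u] at h3
    have h4 := L.m_union_le (star (D.E 0 v) * D.E 1 v) P Pᶜ
    rw [Set.union_compl_self, L.m_univ] at h4
    have h5 : L.m (star (D.E 0 v) * D.E 1 v) Pᶜ ≤ δ := by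
      refine le_trans (L.m_mono _ ?_) h3
      intro g hg
      exact ⟨hg, trivial⟩
    linarith
  have a4 : 1 - 4 * δ ≤ L.m (star (D.E 0 v) * D.E 1 v0) P := by
    have h4 := L.m_le_add (star (D.E 0 v) * D.E 1 v) (star (D.E 0 v) * D.E 1 v0) P
    have h5 := t.n2_mul_le_of_le hx' (D.E 1 (v - v0))
    rw [(D.tp_E 1 one_lt_two).n2, map_sub, mul_sub] at h5
    linarith
  have hfix : ∀ d, D.E 1 (D.T v (L.U d)) = D.E 0 (D.T v (L.U d)) := fun d =>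
    (D.pa_T_in v _).hom_eq (D.tp_E 1 one_lt_two) (D.tp_E 0 two_pos) fun g hg => by
      rw [D.E_u 1 one_lt_two, D.E_u 0 two_pos, εT_of_mem 1 (pa_mem.1 hg),
        εT_of_mem 0 (pa_mem.1 hg)]
  have a5 : star (D.E 0 v) * D.E 1 v0 =
      ∑ d ∈ F, D.E 0 (star v0 * D.T v (L.U d)) * star (D.E 1 (D.α (π / 2) (L.U d))) +
      ∑ d ∈ F, D.E 0 (star (v - v0) * D.T v (L.U d)) * star (D.E 1 (D.α (π / 2) (L.U d))) := by
    rw [← Finset.sum_add_distrib]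
    conv_lhs => rw [hv0, map_sum, Finset.mul_sum]
    refine Finset.sum_congr rfl fun d _ => ?_
    rw [← add_mul, ← map_add, ← add_mul, ← star_add, add_sub_cancel, map_mul, map_mul, map_star,
      map_star, hfix, mul_assoc]
  have a6 : L.m (∑ d ∈ F, D.E 0 (star (v - v0) * D.T v (L.U d)) *
      star (D.E 1 (D.α (π / 2) (L.U d)))) P ≤ δ := by
    refine le_of_sq_le_sq ((D.pa_key hF _).trans ?_) hδ
    refine (Finset.sum_le_sum fun d _ =>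
      pow_le_pow_left₀ (L.m_nonneg _ _) (L.m_le_n2 _ _) 2).trans ?_
    refine (pa_row t F _ (D.row_le hF hv) _).trans ?_
    rw [t.n2_star]
    exact pow_le_pow_left₀ (t.n2_nonneg _) h2 2
  have a7 := (D.pa_key hF fun d => star v0 * D.T v (L.U d)).trans
    (Finset.sum_le_sum (g := fun d => ∑ c ∈ F, t.n2 (L.cE ((GR Γ0).prod (⊤ : Subgroup SG))
      (star (D.T v (L.U c)) * D.T v (L.U d))) ^ 2) fun d _ => by
      refine le_trans (le_of_eq ?_) (D.pa_col hF (fun c => star (D.T v (L.U c)) * D.T v (L.U d))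
        fun c => (D.pa_T_in v _).kstar.kmul (D.pa_T_in v _))
      rw [hv0, star_sum, Finset.sum_mul]
      simp only [star_mul, star_star, mul_assoc])
  rw [Finset.sum_comm]
  rw [a5] at a4
  have a8 := a4.trans (L.m_add_le _ _ P)
  have a9 := L.m_nonneg (∑ d ∈ F, D.E 0 (star v0 * D.T v (L.U d)) *
    star (D.E 1 (D.α (π / 2) (L.U d)))) P
  refine le_trans ?_ a7
  nlinarith [sq_nonneg (L.m (∑ d ∈ F, D.E 0 (star v0 * D.T v (L.U d)) *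
    star (D.E 1 (D.α (π / 2) (L.U d)))) P - 1)]

end Pool.Agent.P.MP_a6af55_an
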