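import Pool.Agent.P.MP_a6af55_an.SMHom

namespace Pool.Agent.P.MP_a6af55_an

open Pool.Agent.Lib.Tracial
open scoped ComplexOrder InnerProductSpace ComplexConjugate Pointwise
open Filter Topology

variable {A : Type*} [CStarAlgebra A] {t : TrState A}

namespace PushB

lemma tr_mul_le (t : TrState A) (a b : A) : t.tr (a * b) ≤ t.n2 a * t.n2 b :=
  (Complex.re_le_norm _).trans (t.norm_τ_mul_le a b)

lemma tr_half (t : TrState A) (a b : A) :
    t.tr (star a * b) ≤ (t.n2 a ^ 2 + t.n2 b ^ 2) / 2 := by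
  have := tr_mul_le t (star a) b
  rw [t.n2_star] at this
  nlinarith [sq_nonneg (t.n2 a - t.n2 b)]

lemma sum_sq_eq (t : TrState A) {ι : Type*} (s : Finset ι) (ω : ι → A) (x : A) :
    ∑ i ∈ s, t.n2 (ω i * x) ^ 2 = t.tr (star x * ((∑ i ∈ s, star (ω i) * ω i) * x)) := by
  rw [Finset.sum_mul, Finset.mul_sum, t.tr_sum]
  exact Finset.sum_congr rfl fun i _ => by
    rw [← t.tr_star_mul, star_mul, mul_assoc, mul_assoc]

lemma sum_sq_le (t : TrState A) {ι : Type*} (s : Finset ι) (ω : ι → A)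
    (h : ‖∑ i ∈ s, star (ω i) * ω i‖ ≤ 1) (x : A) :
    ∑ i ∈ s, t.n2 (ω i * x) ^ 2 ≤ t.n2 x ^ 2 := by
  rw [sum_sq_eq]
  refine (tr_mul_le t _ _).trans ?_
  rw [t.n2_star, sq]
  exact mul_le_mul_of_nonneg_left (t.n2_mul_le_of_le h x) (t.n2_nonneg x)

lemma tr_two (t : TrState A) (a : A) : t.tr ((2 : ℂ) • a) = 2 * t.tr a := by
  rw [two_smul, t.tr_add, two_mul]

lemma norm_two_sub (t : TrState A) {x : A} (hx : ‖x‖ ≤ 1) :
    ‖(2 : ℂ) • (star x * x) - 1‖ ≤ 1 := by
  have := t.nontrivial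
  have h := IsSelfAdjoint.star_mul_self x
  have : (2 : ℂ) • (star x * x) - 1 = cfc (fun s : ℝ => 2 * s - 1) (star x * x) := by
    rw [cfcC_sub _ (by fun_prop) (by fun_prop), cfc_const_mul _ _ _ (by fun_prop),
      cfc_const_one ℝ _ h, cfc_id' ℝ _ h]
    norm_cast
  rw [this]
  refine norm_cfc_le zero_le_one fun s hs => ?_
  have h1 := spectrum.norm_le_norm_of_mem hs
  have h2 := spec_nonneg x s hs
  rw [CStarRing.norm_star_mul_self, Real.norm_eq_abs, abs_of_nonneg h2] at h1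
  have h3 : ‖x‖ * ‖x‖ ≤ 1 := mul_le_one₀ hx (norm_nonneg _) hx
  rw [Real.norm_eq_abs, abs_le]
  constructor <;> linarith

lemma tr_sq_le (t : TrState A) {P c : A} (hc : P = star c * c) (h : ‖P‖ ≤ 1) :
    t.tr (P * P) ≤ t.tr P := by
  have h1 : t.tr (P * P) = t.tr (c * (P * star c)) := by
    nth_rw 2 [hc]
    rw [← mul_assoc, t.tr_comm]
  have h2 := tr_mul_le t c (P * star c)
  have h3 := mul_le_mul_of_nonneg_left (t.n2_mul_le_of_le h (star c)) (t.n2_nonneg c)
  rw [t.n2_star, ← sq, ← t.tr_star_mul, ← hc] at h3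
  linarith

lemma tr_sq_le_proj (t : TrState A) {P e : A} (hP : IsSelfAdjoint P) (he : IsStarProjection e)
    (h : ‖P‖ ≤ 1) (h1 : P * e = P) : t.tr (P * P) ≤ t.tr e := by
  have h2 := t.tr_star_mul P
  rw [hP.star_eq] at h2
  rw [h2, t.tr_proj he]
  refine pow_le_pow_left₀ (t.n2_nonneg _) ?_ 2
  nth_rw 1 [← h1]
  exact t.n2_mul_le_of_le h e

lemma exists_cut (t : TrState A) [t.W] (hf : IsFac A) {S p : A} (hS : IsSelfAdjoint S)
    (h1 : ‖(2 : ℂ) • S - 1‖ ≤ 1) (hp : IsStarProjection p) (h2 : t.tr S ≤ t.tr p) :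
    ∃ w, ‖w‖ ≤ 1 ∧ w * p = w ∧ 2 * t.tr (S * S) - t.tr p ≤ t.tr (star w * (S * w)) := by
  let _ := CStarAlgebra.spectralOrder A
  let _ := CStarAlgebra.spectralOrderedRing A
  obtain ⟨k, hk⟩ : ∃ k, k = (2 : ℂ) • S - 1 := ⟨_, rfl⟩
  have hks : IsSelfAdjoint k := by
    rw [hk, two_smul]
    exact (hS.add hS).sub (IsSelfAdjoint.one A)
  rw [← hk] at h1
  obtain ⟨e, he, hek, he'⟩ := t.exists_range k⁺
  have a1 := he' _ (CFC.negPart_mul_posPart k)
  have a2 := sa_mul_eq he.isSelfAdjoint (posPart_sa k) hek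
  have a3 := CFC.posPart_sub_negPart k hks
  have a4 := CFC.negPart_mul_posPart k
  have a5 := CFC.posPart_mul_negPart k
  have n1 : ‖k⁺‖ ≤ 1 := (CStarAlgebra.norm_posPart_le k).trans h1
  have n2 : ‖k⁻‖ ≤ 1 := (CStarAlgebra.norm_negPart_le k).trans h1
  have s1 := posPart_sa k
  have s2 := negPart_sa k
  obtain ⟨c, hc⟩ := CStarAlgebra.nonneg_iff_eq_star_mul_self.1 (CFC.posPart_nonneg k)
  obtain ⟨d, hd⟩ := CStarAlgebra.nonneg_iff_eq_star_mul_self.1 (CFC.negPart_nonneg k)
  obtain ⟨g, hg⟩ := CStarAlgebra.nonneg_iff_eq_star_mul_self.1 (sub_nonneg.2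
    ((CStarAlgebra.norm_le_one_iff_of_nonneg _ (CFC.posPart_nonneg k)).1 n1))
  generalize k⁺ = P at *
  generalize k⁻ = N at *
  have b1 := tr_sq_le t hc n1
  have b2 := tr_sq_le t hd n2
  have b3 := tr_sq_le_proj t s1 he n1 a2
  have b4 := tr_sq_le_proj t s2 he.one_sub n2 (by rw [mul_sub, a1, mul_one, sub_zero])
  rw [t.tr_sub, t.tr_one] at b4
  have a6 : e * N = 0 := by
    simpa [he.isSelfAdjoint.star_eq, s2.star_eq] using congrArg star a1
  have e0 : (2 : ℂ) • S = 1 + (P - N) := by rw [a3, hk]; abel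
  have c1 : 2 * t.tr S = 1 + (t.tr P - t.tr N) := by
    rw [← tr_two, e0, t.tr_add, t.tr_sub, t.tr_one]
  have c2 : 2 * (2 * t.tr (S * S)) =
      1 + 2 * (t.tr P - t.tr N) + (t.tr (P * P) + t.tr (N * N)) := by
    have : (2 : ℂ) • (2 : ℂ) • (S * S) = 1 + ((P - N) + (P - N)) + (P * P + N * N) := by
      rw [← mul_smul_comm, ← smul_mul_assoc, e0]
      simp only [add_mul, mul_add, sub_mul, mul_sub, a4, a5, one_mul, mul_one]
      abel
    rw [← tr_two, ← tr_two, this, t.tr_add, t.tr_add, t.tr_add, t.tr_add, t.tr_sub, t.tr_one]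
    ring
  rcases le_total (t.tr e) (t.tr p) with h | h
  · obtain ⟨v, hv, hv'⟩ := t.exists_sub hf he hp h
    have h3 := pi_mul_of_proj (hv ▸ he)
    refine ⟨star v, by rw [norm_star]; exact norm_le_of_pi h3, ?_, ?_⟩
    · simpa [hp.isSelfAdjoint.star_eq] using congrArg star hv'
    · have c3 : 2 * t.tr (e * S) = t.tr e + t.tr P := by
        rw [← tr_two, ← mul_smul_comm, e0, mul_add, mul_sub, hek, a6, mul_one, sub_zero, t.tr_add]
      rw [star_star, ← mul_assoc, t.tr_comm (v * S), ← mul_assoc, hv]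
      linarith
  · obtain ⟨v, hv, hv'⟩ := t.exists_sub hf hp he h
    have h3 := pi_mul_of_proj (hv ▸ hp)
    refine ⟨v, norm_le_of_pi h3, by rw [← hv, h3], ?_⟩
    have h4 : star v * e = star v := by
      simpa [he.isSelfAdjoint.star_eq] using congrArg star hv'
    have c3 : star (g * e) * (g * e) = e - P := by
      rw [star_mul, he.isSelfAdjoint.star_eq, mul_assoc, ← mul_assoc (star g), ← hg, sub_mul,
        mul_sub, one_mul, a2, hek, he.isIdempotentElem.eq]
    have c4 : star (g * e * v) * (g * e * v) = p - star v * (P * v) := by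
      rw [star_mul, mul_assoc, ← mul_assoc (star (g * e)), c3, sub_mul, mul_sub, hv', hv]
    have c5 : (2 : ℂ) • (star v * (S * v)) = p + star v * (P * v) := by
      rw [← mul_smul_comm, ← smul_mul_assoc, e0, add_mul, sub_mul, mul_add, mul_sub, one_mul, hv,
        ← hv', ← mul_assoc N, a1, zero_mul, mul_zero, sub_zero]
    have c6 := congrArg t.tr c5
    have c7 := congrArg t.tr c4
    have c8 := congrArg t.tr c3
    rw [tr_two, t.tr_add] at c6
    rw [t.tr_star_mul, t.tr_sub] at c7 c8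
    have c9 := pow_le_pow_left₀ (t.n2_nonneg _) (t.n2_mul_le_of_le' (g * e) (norm_le_of_pi h3)) 2
    linarith

end PushB

open PushB

/-- Rows against columns. -/
theorem row_col {ι : Type*} (s : Finset ι) (ζ ω : ι → A) (h : ‖∑ i ∈ s, star (ω i) * ω i‖ ≤ 1) :
    t.n2 (∑ i ∈ s, ζ i * ω i) ^ 2 ≤ ∑ i ∈ s, t.n2 (ζ i) ^ 2 := by
  obtain ⟨y, hy⟩ : ∃ y, y = ∑ i ∈ s, ζ i * ω i := ⟨_, rfl⟩
  have h1 := sum_sq_le t s ω h (star y)
  have h2 : t.n2 y ^ 2 = ∑ i ∈ s, t.tr (star (star (ω i * star y)) * ζ i) := by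
    rw [← t.tr_star_mul]
    nth_rw 2 [hy]
    rw [Finset.mul_sum, t.tr_sum]
    exact Finset.sum_congr rfl fun i _ => by
      rw [star_star, ← mul_assoc, t.tr_comm, mul_assoc]
  have h3 := Finset.sum_le_sum fun i (_ : i ∈ s) => tr_half t (star (ω i * star y)) (ζ i)
  simp only [t.n2_star] at h1 h3
  rw [← Finset.sum_div, Finset.sum_add_distrib] at h3
  rw [← hy]
  linarith

variable [t.W] {Γ : Type*} [Group Γ] {ε : Γ →* Γ →* ℤˣ}

theorem norm_sum_le_of_alg (L : TwAlg ε t) {K : Subgroup Γ} {ι : Type*} (s : Finset ι) (ω : ι → A)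
    (h1 : ∀ i ∈ s, L.In (ω i) K)
    (h2 : ∀ x, L.In x K → ∑ i ∈ s, t.n2 (ω i * x) ^ 2 ≤ t.n2 x ^ 2) :
    ‖∑ i ∈ s, star (ω i) * ω i‖ ≤ 1 := by
  have hT : L.In (∑ i ∈ s, star (ω i) * ω i) K :=
    L.in_sum s fun i hi => (h1 i hi).kstar.kmul (h1 i hi)
  refine L.norm_le_of_alg hT zero_le_one fun x hx => ?_
  obtain ⟨y, hy⟩ : ∃ y, y = (∑ i ∈ s, star (ω i) * ω i) * x := ⟨_, rfl⟩
  have h3 := h2 x hx
  have h4 := h2 y (hy ▸ hT.kmul hx)
  have h5 : t.n2 y ^ 2 = ∑ i ∈ s, t.tr (star (ω i * y) * (ω i * x)) := by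
    rw [← t.tr_star_mul]
    nth_rw 2 [hy]
    rw [Finset.sum_mul, Finset.mul_sum, t.tr_sum]
    exact Finset.sum_congr rfl fun i _ => by rw [star_mul, mul_assoc, mul_assoc]
  have h6 := Finset.sum_le_sum fun i (_ : i ∈ s) => tr_half t (ω i * y) (ω i * x)
  rw [← Finset.sum_div, Finset.sum_add_distrib] at h6
  rw [← hy, one_mul]
  exact le_of_sq_le_sq (by linarith) (t.n2_nonneg x)

namespace PushB

lemma norm_amp (t : TrState A) [t.W] {n : Type} [Fintype n] (r : n → A)
    (hr : ∑ i, r i * star (r i) = 1) {X : A} (hX : ‖X‖ ≤ 1) :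
    ‖∑ i, r i * (X * star (r i))‖ ≤ 1 := by
  have := t.nontrivial
  have h0 : ‖∑ i, star (star (r i)) * star (r i)‖ ≤ 1 := by
    simp only [star_star, hr, norm_one, le_refl]
  refine norm_le_of_n2 t zero_le_one fun x => ?_
  have h1 := row_col (t := t) Finset.univ (fun i => star (X * (star (r i) * x)))
    (fun i => star (r i)) h0
  have h2 := sum_sq_le t Finset.univ _ h0 x
  have h3 : ∑ i, star (X * (star (r i) * x)) * star (r i) =
      star ((∑ i, r i * (X * star (r i))) * x) := by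
    rw [Finset.sum_mul, star_sum]
    exact Finset.sum_congr rfl fun i _ => by rw [← star_mul, mul_assoc, mul_assoc]
  simp only [h3, t.n2_star] at h1
  have h4 := Finset.sum_le_sum fun i (_ : i ∈ Finset.univ) =>
    pow_le_pow_left₀ (t.n2_nonneg _) (t.n2_mul_le_of_le hX (star (r i) * x)) 2
  rw [one_mul]
  exact le_of_sq_le_sq (by linarith) (t.n2_nonneg x)

end PushB

/-- An almost projection of trace one over a factor comes from a column. -/
theorem exists_column (L : TwAlg ε t) {K : Subgroup Γ} (hK : IsInfFactor (L.alg K)) {n : Type}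
    [Fintype n] [DecidableEq n] [Nonempty n] (φ : Matrix n n ℂ →⋆ₐ[ℂ] A) (hφ : ∀ M, L.In (φ M) K)
    (a : n → A) (h1 : ∀ i M, Commute (φ M) (a i)) (h2 : ‖∑ i, a i * star (a i)‖ ≤ 1) {σ : ℝ}
    (h3 : 1 - σ ≤ ∑ i, ∑ j, t.n2 (L.cE K (star (a i) * a j)) ^ 2) :
    ∃ w : n → A, (∀ i, L.In (w i) K) ∧ ‖∑ i, star (w i) * w i‖ ≤ 1 ∧ ‖∑ i, a i * w i‖ ≤ 1 ∧
      1 - 5 * σ ≤ t.n2 (∑ i, a i * w i) ^ 2 := by
  obtain ⟨o⟩ := ‹Nonempty n›
  obtain ⟨E, hE⟩ : ∃ E : n → n → A, ∀ i j, E i j = φ (Matrix.single i j 1) := ⟨_, fun _ _ => rfl⟩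
  have Es : ∀ i j, star (E i j) = E j i := fun i j => by
    rw [hE, hE, ← map_star, Matrix.star_eq_conjTranspose, Matrix.conjTranspose_single, star_one]
  have Em : ∀ i j k l, E i j * E k l = if j = k then E i l else 0 := fun i j k l => by
    rw [hE, hE, hE, ← map_mul]
    split_ifs with h
    · subst h; simp
    · rw [Matrix.single_mul_single_of_ne _ _ _ _ h, map_zero]
  have Em' : ∀ i j k l x, E i j * (E k l * x) = if j = k then E i l * x else 0 :=
    fun i j k l x => by rw [← mul_assoc, Em, ite_mul, zero_mul]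
  have E1 : ∑ i, E i i = 1 := by
    have : ∑ j : n, Matrix.single j j (1 : ℂ) = 1 := by
      ext a b
      simp [Matrix.sum_apply, Matrix.single_apply, Matrix.one_apply, ite_and]
    simp only [hE]
    rw [← map_sum, this, map_one]
  have Ein : ∀ i j, L.In (E i j) K := fun i j => hE i j ▸ hφ _
  have h1' : ∀ i M, Commute (φ M) (star (a i)) := fun i M => by
    have := (h1 i (star M)).star_star
    rwa [map_star, star_star] at this
  have hN : (0 : ℝ) < Fintype.card n := by exact_mod_cast Fintype.card_pos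
  have Et : ∀ i j b, (∀ M, Commute (φ M) b) →
      (Fintype.card n : ℝ) * t.tr (E i j * b) = if i = j then t.tr b else 0 := by
    intro i j b hb
    split_ifs with h
    · subst h
      have := congrArg Complex.re (t.τ_single_mul φ (fun M => (hb M).eq) i)
      rw [hE]
      simpa [TrState.tr] using this
    · have e1 : E i j * b = E i i * (E i j * b) := by rw [Em', if_pos rfl]
      have e2 : b * E i i = E i i * b := by rw [hE]; exact (hb _).eq.symm
      rw [e1, t.tr_comm, mul_assoc, e2, Em', if_neg (Ne.symm h), t.tr_zero, mul_zero]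
  have hp : IsStarProjection (E o o) := ⟨by rw [IsIdempotentElem, Em, if_pos rfl], Es o o⟩
  have Ea : ∀ i j k, a k * E i j = E i j * a k := fun i j k => by rw [hE]; exact (h1 k _).eq.symm
  have Ea' : ∀ i j k x, a k * (E i j * x) = E i j * (a k * x) := fun i j k x => by
    rw [← mul_assoc, Ea, mul_assoc]
  have Eb' : ∀ i j k x, star (a k) * (E i j * x) = E i j * (star (a k) * x) := fun i j k x => by
    rw [← mul_assoc, ← mul_assoc, hE, (h1' k _).eq]
  obtain ⟨X, hX⟩ : ∃ X, X = ∑ c, E o c * a c := ⟨_, rfl⟩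
  have X1 : X * star X = E o o * ∑ i, a i * star (a i) := by
    rw [hX, star_sum, Finset.sum_mul_sum, Finset.mul_sum]
    refine Finset.sum_congr rfl fun c _ => ?_
    rw [Finset.sum_eq_single c]
    · rw [star_mul, Es, ← mul_one (E c o), Eb', mul_assoc, Ea', Em', if_pos rfl, mul_one]
    · intro d _ hd
      rw [star_mul, Es, ← mul_one (E d o), Eb', mul_assoc, Ea', Em', if_neg (Ne.symm hd)]
    · simp
  have X2 : ‖X‖ ≤ 1 := by
    have h4 : ‖X‖ * ‖X‖ ≤ 1 := by
      rw [← CStarRing.norm_self_mul_star, X1]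
      exact (norm_mul_le _ _).trans (mul_le_one₀ (hp.norm_le _) (norm_nonneg _) h2)
    nlinarith [norm_nonneg X]
  have X3 : E o o * X = X := by
    rw [hX, Finset.mul_sum]
    exact Finset.sum_congr rfl fun c _ => by rw [Em', if_pos rfl]
  obtain ⟨Y, hY⟩ : ∃ Y : n → n → A, ∀ i j, Y i j = L.cE K (star (a i) * a j) :=
    ⟨_, fun _ _ => rfl⟩
  have Yc : ∀ i j M, Commute (φ M) (Y i j) := fun i j M => by
    rw [hY, Commute, SemiconjBy, ← (hφ M).cE_mul, ← (hφ M).cE_mul',
      ((h1' i M).mul_right (h1 j M)).eq]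
  have Ys : ∀ i j, star (Y i j) = Y j i := fun i j => by
    rw [hY, hY, ← L.cE_star, star_mul, star_star]
  obtain ⟨S, hS⟩ : ∃ S, S = L.cE K (star X * X) := ⟨_, rfl⟩
  have S1 : S = ∑ i, ∑ j, E i j * Y i j := by
    rw [hS, hX, star_sum, Finset.sum_mul_sum, map_sum]
    refine Finset.sum_congr rfl fun i _ => ?_
    rw [map_sum]
    refine Finset.sum_congr rfl fun j _ => ?_
    rw [star_mul, Es, mul_assoc, Em', if_pos rfl, Eb', (Ein i j).cE_mul, hY]
  have S2 : star S = S := by rw [hS, ← L.cE_star, star_mul, star_star]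
  have S3 : ‖(2 : ℂ) • S - 1‖ ≤ 1 := by
    rw [hS, ← (L.in_one K).cE_eq, ← map_smul, ← map_sub]
    exact (L.norm_cE_le _ _).trans (norm_two_sub t X2)
  have p1 : (Fintype.card n : ℝ) * t.tr (E o o) = 1 := by
    have := Et o o 1 fun M => Commute.one_right _
    rwa [mul_one, if_pos rfl, t.tr_one] at this
  have S4 : t.tr S ≤ t.tr (E o o) := by
    refine le_of_mul_le_mul_left ?_ hN
    have e1 : t.tr S = t.tr (X * star X) := by
      rw [hS, t.tr_comm, TrState.tr, TrState.tr, L.τ_cE]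
    rw [p1, e1, X1, Et o o _ fun M => Commute.sum_right _ _ _ fun i _ =>
      (h1 i M).mul_right (h1' i M), if_pos rfl]
    exact ((Complex.re_le_norm _).trans (t.norm_τ_le _)).trans h2
  have S5 : (Fintype.card n : ℝ) * t.tr (S * S) = ∑ i, ∑ j, t.n2 (Y i j) ^ 2 := by
    have e1 : S * S = ∑ i, ∑ j, ∑ l, E i l * (Y i j * Y j l) := by
      nth_rw 1 [S1]
      rw [Finset.sum_mul]
      refine Finset.sum_congr rfl fun i _ => ?_
      rw [Finset.sum_mul]
      refine Finset.sum_congr rfl fun j _ => ?_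
      have e2 : ∀ k l, E i j * Y i j * (E k l * Y k l) =
          if j = k then E i l * (Y i j * Y k l) else 0 := fun k l => by
        rw [mul_assoc, ← mul_assoc (Y i j), hE k l, ← (Yc i j _).eq, ← hE, mul_assoc, Em']
      rw [S1, Finset.mul_sum, Finset.sum_eq_single j]
      · rw [Finset.mul_sum]
        exact Finset.sum_congr rfl fun l _ => by rw [e2, if_pos rfl]
      · intro k _ hk
        rw [Finset.mul_sum]
        exact Finset.sum_eq_zero fun l _ => by rw [e2, if_neg (Ne.symm hk)]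
      · simp
    rw [e1, t.tr_sum, Finset.mul_sum]
    refine Finset.sum_congr rfl fun i _ => ?_
    rw [t.tr_sum, Finset.mul_sum]
    refine Finset.sum_congr rfl fun j _ => ?_
    rw [t.tr_sum, Finset.mul_sum, Finset.sum_eq_single i]
    · rw [Et _ _ _ fun M => (Yc i j M).mul_right (Yc j i M), if_pos rfl, ← Ys j i, t.tr_star_mul,
        Ys, ← t.n2_star, Ys]
    · intro l _ hl
      rw [Et _ _ _ fun M => (Yc i j M).mul_right (Yc j l M), if_neg (Ne.symm hl)]
    · simp
  obtain ⟨⟨v, hv⟩, v1, v2, v3⟩ := exists_cut (L.trK K) hK.1 (S := ⟨S, hS ▸ L.cE_in K _⟩)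
    (p := ⟨E o o, Ein o o⟩) (Subtype.ext S2) S3
    ⟨Subtype.ext hp.isIdempotentElem.eq, Subtype.ext (Es o o)⟩ S4
  replace hv : L.In v K := hv
  replace v1 : ‖v‖ ≤ 1 := v1
  replace v2 : v * E o o = v := congrArg Subtype.val v2
  replace v3 : 2 * t.tr (S * S) - t.tr (E o o) ≤ t.tr (star v * (S * v)) := v3
  have hr : ∑ i, E i o * star (E i o) = 1 := by
    rw [← E1]
    exact Finset.sum_congr rfl fun i _ => by rw [Es, Em, if_pos rfl]
  have u1 : ∑ c, a c * ∑ i, E i c * (v * E o i) = ∑ i, E i o * (X * v * star (E i o)) := by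
    simp only [Finset.mul_sum]
    rw [Finset.sum_comm]
    refine Finset.sum_congr rfl fun i _ => ?_
    rw [hX, Finset.sum_mul, Finset.sum_mul, Finset.mul_sum]
    refine Finset.sum_congr rfl fun c _ => ?_
    rw [Es, Ea', mul_assoc, mul_assoc, Em', if_pos rfl]
  have u2 : ‖X * v‖ ≤ 1 := (norm_mul_le _ _).trans (mul_le_one₀ X2 (norm_nonneg _) v1)
  have u3 := norm_amp t (fun i => E i o) hr u2
  have u4 : t.n2 (∑ i, E i o * (X * v * star (E i o))) ^ 2 =
      Fintype.card n * t.tr (star v * (S * v)) := by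
    have e1 : t.tr (star v * (S * v)) = t.tr (star (X * v) * (X * v)) := by
      rw [hS, ← hv.cE_mul', ← hv.kstar.cE_mul, TrState.tr, TrState.tr, L.τ_cE, star_mul,
        mul_assoc, mul_assoc]
    have e2 : E o o * (X * v) = X * v := by rw [← mul_assoc, X3]
    have e3 : X * v * E o o = X * v := by rw [mul_assoc, v2]
    rw [e1]
    generalize X * v = Z at e2 e3
    rw [← t.tr_star_mul, star_sum, Finset.sum_mul_sum, t.tr_sum,
      Finset.sum_congr rfl (g := fun _ => t.tr (star Z * Z)), Finset.sum_const, Finset.card_univ,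
      nsmul_eq_mul]
    intro i _
    rw [Finset.sum_eq_single i]
    · rw [star_mul, star_mul, star_star, Es, mul_assoc, Em', if_pos rfl, ← mul_assoc (E o o), e2,
        mul_assoc, t.tr_comm, mul_assoc, mul_assoc, Em, if_pos rfl, e3]
    · intro j _ hj
      rw [star_mul, Es, mul_assoc, Em', if_neg (Ne.symm hj), mul_zero]
    · simp
  refine ⟨fun c => ∑ i, E i c * (v * E o i),
    fun c => L.in_sum _ fun i _ => (Ein i c).kmul (hv.kmul (Ein o i)), ?_, ?_, ?_⟩
  · have e1 : ∑ c, star (∑ i, E i c * (v * E o i)) * ∑ i, E i c * (v * E o i) =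
        ∑ i, E i o * (star v * v * star (E i o)) := by
      have e2 : ∀ c, star (∑ i, E i c * (v * E o i)) * ∑ i, E i c * (v * E o i) =
          ∑ i, E i o * (star v * (E c c * (v * E o i))) := fun c => by
        rw [star_sum, Finset.sum_mul_sum]
        refine Finset.sum_congr rfl fun i _ => ?_
        rw [Finset.sum_eq_single i]
        · rw [star_mul, star_mul, Es, Es, mul_assoc, Em', if_pos rfl, mul_assoc]
        · intro j _ hj
          rw [star_mul, Es, mul_assoc, Em', if_neg (Ne.symm hj), mul_zero]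
        · simp
      simp only [e2]
      rw [Finset.sum_comm]
      refine Finset.sum_congr rfl fun i _ => ?_
      rw [← Finset.mul_sum, ← Finset.mul_sum, ← Finset.sum_mul, E1, one_mul, Es, mul_assoc]
    rw [e1]
    refine norm_amp t (fun i => E i o) hr ?_
    rw [CStarRing.norm_star_mul_self]
    exact mul_le_one₀ v1 (norm_nonneg _) v1
  · rw [u1]; exact u3
  · rw [u1]
    have h4 := pow_le_pow_left₀ (t.n2_nonneg _) ((t.n2_le_norm _).trans u3) 2
    have h5 := mul_le_mul_of_nonneg_left v3 hN.le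
    simp only [← hY] at h3
    rw [← S5] at h3
    rw [← u4] at h5
    nlinarith

end Pool.Agent.P.MP_a6af55_an
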