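import Pool.Agent.P.MP_a6af55_an.SMUltra
import Pool.Agent.P.MP_a6af55_an.SMPauli2
import Pool.Agent.P.MP_a6af55_an.SMSand
import Pool.Agent.P.MP_a6af55_an.SMGrp

namespace Pool.Agent.P.MP_a6af55_an

open Pool.Agent.Lib.Tracial
open scoped ComplexOrder InnerProductSpace ComplexConjugate Pointwise
open Filter Topology

universe w

/-- A free pair with spectral gap. -/
structure Pair (X : Type*) [Group X] where
  g : Fin 2 → X
  K : Subgroup X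
  pp : PP (g 0) (g 1) (K : Set X)ᶜ
  π : X →* FreeGroup (Fin 2)
  π_g : ∀ i, π (g i) = FreeGroup.of i
  π_K : ∀ k ∈ K, π k = 1
  comm : ∀ i, ∀ k ∈ K, Commute (g i) k

/-- A system of pieces inside the first free factor. -/
structure Setup {L0 : Type} (Γ0 : SimpleGraph L0) (G : Type) [Group G] (bit : ℕ → Bool) where
  S : Sys G bit
  j : G →* HH Γ0
  ρ : HH Γ0 →* G
  ρ_j : ∀ g, ρ (j g) = g
  j_mem : ∀ g, j g ∈ Hm Γ0 0
  loc : ∀ g ∈ Hm Γ0 0, ∀ h, Commute (ρ g) h → Commute g (j h)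
  p : Fin 2 → Pair (HH Γ0)
  p_mem : ∀ e i, (p e).g i ∈ Hm Γ0 0
  p_K : ∀ e e', e ≠ e' → ∀ i, (p e).g i ∈ (p e').K
  j_K : ∀ e g, j g ∈ (p e).K
  inter : ∀ g, (∀ e, g ∈ (p e).K) → ∃ h, j h = g
  tail : ∀ n, ∃ q : Pair (HH Γ0), ∀ i, q.g i ∈ (S.tail S.top n).map j

variable {L0 : Type} {Γ0 : SimpleGraph L0} {G : Type} [Group G] {bit : ℕ → Bool}
  (Z : Setup Γ0 G bit) {A : Type*} [CStarAlgebra A] {t : TrState A} [t.W]
  (L : TwAlg (εP (HH Γ0)) t) {I : Type w} {U : Ultrafilter I}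

/-- The sites of a tail. -/
def JT (l n : ℕ) : Set Site := if l = 0 then (lo n)ᶜ else ∅

/-- The sites of a piece. -/
def JA (l a b : ℕ) : Set Site := if l = 0 then Set.univ else mid a b

lemma JT_anti (l : ℕ) {n n' : ℕ} (h : n ≤ n') : JT l n' ⊆ JT l n := by
  unfold JT
  split_ifs
  exacts [Set.compl_subset_compl.2 (lo_mono h), le_rfl]

lemma JT_sub (l n a b : ℕ) : JT l n ⊆ JA l a b := by
  unfold JT JA
  split_ifs
  exacts [Set.subset_univ _, Set.empty_subset _]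

lemma disjoint_JT (l : ℕ) {n n' : ℕ} (h : n ≤ n') : Disjoint (lo n) (JT l n') := by
  unfold JT
  split_ifs
  exacts [disjoint_compl_right.mono_left (lo_mono h), Set.disjoint_empty _]

lemma exists_mid (l n a b : ℕ) : ∃ a' b', (mid a' b' : Set Site) ⊆ JA l a b ∧
    JA l a b ∩ (mid a' b' : Set Site)ᶜ ⊆ JT l n := by
  unfold JT JA
  split_ifs
  · exact ⟨0, n, Set.subset_univ _, by rw [coe_mid_zero]; exact Set.inter_subset_right⟩
  · exact ⟨a, b, le_rfl, by simp⟩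

lemma exists_blk (l n n' : ℕ) : ∃ b, JA (l + 1) n b ⊆ JT l n ∧
    Disjoint (JA (l + 1) n b) (JT l n') ∧ JT l n ∩ (JT l n')ᶜ ⊆ JA (l + 1) n b := by
  simp only [JA, JT, if_neg l.succ_ne_zero]
  split_ifs
  · exact ⟨n', fun p hp => not_lt.2 (mem_mid.1 hp).1,
      Set.disjoint_left.2 fun p hp h => h (mem_mid.1 hp).2,
      fun p hp => mem_mid.2 ⟨not_lt.1 hp.1, not_not.1 hp.2⟩⟩
  · exact ⟨n, fun p hp => ((mem_mid.1 hp).2.not_ge (mem_mid.1 hp).1).elim, Set.disjoint_empty _,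
      by simp⟩

namespace Setup

lemma pp_j {a b : G} {B : Set G} (h : PP a b B) : PP (Z.j a) (Z.j b) (Z.ρ ⁻¹' B) :=
  PP.comap Z.ρ (by rwa [Z.ρ_j, Z.ρ_j])

lemma tesc {T T' C : Subgroup G} {J J' J'' : Set Site} (hC : ∀ g ∈ T, g ∉ C → Esc T' g)
    (hJ : J ∩ J'ᶜ ⊆ J'') : ∀ g ∈ (T.map Z.j).prod (SJ J), g ∉ (C.map Z.j).prod (SJ J'') →
      TEsc (εP (HH Γ0)) ((T'.map Z.j).prod (SJ J')) g := by
  rintro ⟨_, s⟩ ⟨⟨g, hg, rfl⟩, hs⟩ h
  by_cases h1 : g ∈ C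
  · exact tesc_of_site (J := J') (fun _ h => Subgroup.mem_prod.2 ⟨one_mem _, h⟩)
      fun h2 => h ⟨⟨g, h1, rfl⟩, SJ_mono hJ (mem_SJ_inter hs h2)⟩
  · obtain ⟨a, ha, b, hb, B, h2, h3⟩ := hC g hg h1
    exact Or.inl (Esc.prod (K := T'.map Z.j) ⟨_, ⟨a, ha, rfl⟩, _, ⟨b, hb, rfl⟩, _, Z.pp_j h2,
      by simpa [Z.ρ_j] using h3⟩ fun k hk => ⟨hk, one_mem _⟩)

/-- The group of a piece. -/
def KA {l : ℕ} (X : Z.S.Pc l) : Subgroup (HH Γ0) :=
  if l = 0 then Hm Γ0 0 else (Z.S.grp X).map Z.j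

lemma j_mem_KA {l : ℕ} {X : Z.S.Pc l} {g : G} (h : g ∈ Z.S.grp X) : Z.j g ∈ Z.KA X := by
  unfold KA
  split_ifs
  exacts [Z.j_mem g, ⟨g, h, rfl⟩]

lemma comm_KA {l : ℕ} {X : Z.S.Pc l} (hX : l = 0 → Z.S.grp X = ⊤) {k : HH Γ0} (h : k ∈ Z.KA X) :
    Z.ρ k ∈ Z.S.grp X ∧ ∀ g, Commute (Z.ρ k) g → Commute k (Z.j g) := by
  unfold KA at h
  split_ifs at h with h0
  · exact ⟨hX h0 ▸ Subgroup.mem_top _, Z.loc k h⟩
  · obtain ⟨g, hg, rfl⟩ := h
    exact ⟨by rwa [Z.ρ_j], Z.loc _ (Z.j_mem g)⟩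

/-- The full group of a piece. -/
noncomputable def pA {l : ℕ} (X : Z.S.Pc l × ℕ × ℕ) : Subgroup (HH Γ0 × SG) :=
  (Z.KA X.1).prod (SJ (JA l X.2.1 X.2.2))

/-- The full group of a tail. -/
noncomputable def pT {l : ℕ} (X : Z.S.Pc l) (n : ℕ) : Subgroup (HH Γ0 × SG) :=
  ((Z.S.tail X n).map Z.j).prod (SJ (JT l n))

end Setup

lemma comm_eps {X : Type*} [Group X] {g k : X × SG} {J J' : Set Site} (h : Commute g.1 k.1)
    (hJ : Disjoint J J') (hg : g.2 ∈ SJ J) (hk : k.2 ∈ SJ J') :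
    Commute g k ∧ εP X g k = εP X k g :=
  ⟨Prod.ext h (mul_comm _ _), by
    rw [εP_apply, εP_apply, εS_eq_one hJ hg hk, εS_eq_one hJ.symm hk hg]⟩

lemma Setup.loc_alg {l : ℕ} {X' : Z.S.Pc l × ℕ × ℕ} (hX : l = 0 → Z.S.grp X'.1 = ⊤) {y : A}
    (hy : L.In y (Z.pA X')) {δ : ℝ} (hδ : 0 < δ) : ∃ m0, ∀ (X : Z.S.Pc l) m, m0 ≤ m →
      ∀ z, ‖z‖ ≤ 1 → L.In z (Z.pT X m) → t.cm z y ≤ δ := by
  obtain ⟨F, hF, h⟩ := L.exists_fin hy hδ
  choose! m hm using Z.S.loc X'.1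
  choose n hn using exists_lo
  refine ⟨F.sup fun g => m (Z.ρ g.1) ⊔ n g.2, fun X k hk z hz hz' => h z hz fun g hg =>
    (hz'.comm_of_u ?_).symm⟩
  rintro ⟨_, s⟩ ⟨⟨a, ha, rfl⟩, hs⟩
  have h1 := sup_le_iff.1 ((Finset.le_sup (f := fun g => m (Z.ρ g.1) ⊔ n g.2) hg).trans hk)
  have h2 := Z.comm_KA hX (hF g hg).1
  have h3 := comm_eps (g := g) (k := (Z.j a, s)) (h2.2 a (hm _ h2.1 X k h1.1 a ha))
    (disjoint_JT l h1.2) (hn _) hs
  exact (L.comm_u h3.1 h3.2).symm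

variable (U) in
/-- Internal unit balls. -/
def iBall (K : I → Subgroup (HH Γ0 × SG)) : Set (Ultrapower t U) :=
  {y | ‖y‖ ≤ 1 ∧ L.Conc U y fun i => K i}

omit [t.W] in
variable {L} in
lemma iBall_mono {K K' : I → Subgroup (HH Γ0 × SG)} (h : ∀ i, K i ≤ K' i) :
    iBall L U K ⊆ iBall L U K' := fun _ hy => ⟨hy.1, hy.2.mono h⟩

omit [t.W] in
variable {L} in
lemma uu_mem_iBall {K : I → Subgroup (HH Γ0 × SG)} {g : I → HH Γ0 × SG} (h : ∀ i, g i ∈ K i) :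
    L.uu U g ∈ iBall L U K := ⟨L.norm_uu g, L.conc_uu h⟩

omit [t.W] in
lemma Setup.gap_K {l : ℕ} (X : I → Z.S.Pc l × ℕ × ℕ) : ∃ s : Set (Ultrapower t U), s.Finite ∧
    s ⊆ iBall L U (fun i => Z.pA (X i)) ∧ ∀ x ∈ iBall L U (fun i => Z.pA (X i)),
      (∀ a ∈ s, Commute a x) → L.Conc U x fun _ => {g | ∃ h, Z.j h = g.1} := by
  by_cases h0 : l = 0
  · refine ⟨Set.range fun q : Fin 2 × Fin 2 => L.uu U fun _ => ((Z.p q.1).g q.2, 1),
      Set.finite_range _, ?_, fun x _ h => ?_⟩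
    · rintro _ ⟨q, rfl⟩
      exact uu_mem_iBall fun i => ⟨by rw [Setup.KA, if_pos h0]; exact Z.p_mem _ _, one_mem _⟩
    · have h1 := fun e => TwAlg.conc_pp (L := L) (fun _ => PP.comap (MonoidHom.fst _ SG)
        (a := (_, 1)) (b := (_, 1)) (Z.p e).pp) (h _ ⟨(e, 0), rfl⟩) (h _ ⟨(e, 1), rfl⟩)
      exact ((h1 0).inter (h1 1)).mono fun _ g hg => Z.inter _
        (Fin.forall_fin_two.2 ⟨not_not.1 hg.1, not_not.1 hg.2⟩)
  · refine ⟨∅, Set.finite_empty, Set.empty_subset _, fun x hx _ => hx.2.mono fun i g hg => ?_⟩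
    have h1 : g.1 ∈ Z.KA (X i).1 := hg.1
    rw [Setup.KA, if_neg h0] at h1
    exact h1.imp fun _ h => h.2

lemma gap_S (a b : I → ℕ) : ∃ s : Set (Ultrapower t U), s.Finite ∧
    s ⊆ iBall L U (fun i => (⊥ : Subgroup (HH Γ0)).prod (SJ (mid (a i) (b i)))) ∧ ∀ x,
      (∀ y ∈ s, Commute y x) → L.Conc U x fun i => {g | g.2 ∈ SJ (mid (a i) (b i) : Set Site)ᶜ} := by
  choose y hy h using fun i => L.exists_tests (a i) (b i)
  refine ⟨Set.range fun j => mkU t U (BB.mk (fun i => y i j) 1 fun i => (hy i j).1),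
    Set.finite_range _, ?_, ?_⟩
  · rintro _ ⟨j, rfl⟩
    exact ⟨(NonUnitalStarAlgHom.norm_apply_le _ _).trans (BB.norm_mk_le _ zero_le_one _),
      L.conc_of_in fun i => (hy i j).2⟩
  · rintro _ hc x rfl
    have := (tendsto_finsetSum Finset.univ fun j _ => (comm_mkU U).1 (hc _ ⟨j, rfl⟩)).const_mul 34
    rw [Finset.sum_const_zero, mul_zero] at this
    refine squeeze_zero (fun _ => L.m_nonneg _ _) (fun i => le_trans (L.m_mono _ ?_) (h i _)) this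
    exact Set.compl_subset_compl.2 fun g hg => (Subgroup.mem_prod.1 hg).2

/-- The internal system. -/
noncomputable def Setup.jsys {r : I → ℕ} (hr : Tendsto r U atTop) : JSys.{w} (Ultrapower t U)
    {y | ‖y‖ ≤ 1 ∧ L.Conc U y fun _ => (Hm Γ0 0).prod (⊤ : Subgroup SG)} where
  bit := bit
  N := I → ℕ
  le := (· ≤ ·)
  le_refl := le_refl
  dir a b := ⟨a ⊔ b, fun _ => sup_le_iff.1⟩
  n0 := 0
  P l := {X : I → Z.S.Pc l × ℕ × ℕ // ∀ i, l = 0 → Z.S.grp (X i).1 = ⊤}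
  alg X := iBall L U fun i => Z.pA (X.1 i)
  T X n := iBall L U fun i => Z.pT (X.1 i).1 (n i)
  top := ⟨fun _ => (Z.S.top, 0, 0), fun _ _ => Z.S.grp_top⟩
  alg_top := by simp only [iBall, Setup.pA, Setup.KA, JA, if_true, SJ_univ]
  T_sub X n := iBall_mono fun i => Subgroup.prod_mono (by
    rintro _ ⟨g, hg, rfl⟩
    exact Z.j_mem_KA (Z.S.tail_le _ _ hg)) (SJ_mono (JT_sub _ _ _ _))
  gap {l} X n := by
    choose a ha b hb C h hC using fun i => Z.S.gap (X.1 i).1 (n i)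
    choose a' b' h1 h2 using fun i => exists_mid l (n i) (X.1 i).2.1 (X.1 i).2.2
    obtain ⟨s, s1, s2, s3⟩ := Z.gap_K L (U := U) X.1
    obtain ⟨s', s4, s5, s6⟩ := gap_S L (U := U) a' b'
    refine ⟨insert (L.uu U fun i => (Z.j (a i), 1)) (insert (L.uu U fun i => (Z.j (b i), 1))
      (s ∪ s')), ((s1.union s4).insert _).insert _, ?_, fun x hx hc => ⟨hx.1, ?_⟩⟩
    · exact Set.insert_subset (uu_mem_iBall fun i => ⟨Z.j_mem_KA (ha i), one_mem _⟩)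
        (Set.insert_subset (uu_mem_iBall fun i => ⟨Z.j_mem_KA (hb i), one_mem _⟩) (Set.union_subset s2
          (s5.trans (iBall_mono fun i => Subgroup.prod_mono bot_le (SJ_mono (h1 i))))))
    · have h3 := TwAlg.conc_pp (L := L) (fun i => PP.comap (MonoidHom.fst _ SG)
        (a := (_, 1)) (b := (_, 1)) (Z.pp_j (h i))) (hc _ (Or.inl rfl)) (hc _ (Or.inr (Or.inl rfl)))
      refine (((hx.2.inter h3).inter (s3 x hx fun y hy => hc y (Or.inr (Or.inr (Or.inl hy))))).inter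
        (s6 x fun y hy => hc y (Or.inr (Or.inr (Or.inr hy))))).mono fun i => ?_
      rintro ⟨_, s⟩ ⟨⟨⟨h4, h5⟩, g, rfl⟩, h6⟩
      refine ⟨⟨g, by_contra fun h7 => h5 ?_, rfl⟩, SJ_mono (h2 i) (mem_SJ_inter h4.2 h6)⟩
      have h8 := (Z.comm_KA (X.2 i) h4.1).1
      rw [Z.ρ_j] at h8
      simpa [Z.ρ_j] using hC i g h8 h7
  loc X' y hy := by
    obtain ⟨y, rfl, hy⟩ := hy.2.rep
    choose m0 hm using fun i => Z.loc_alg L (X'.2 i) (hy i).2 (Nat.one_div_pos_of_nat (n := r i))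
    refine ⟨m0, fun X m h x hx => ?_⟩
    obtain ⟨x, rfl, hx'⟩ := hx.2.rep
    exact ((comm_mkU U).2 (squeeze_zero (fun _ => t.cm_nonneg _ _)
      (fun i => hm i _ (m i) (h i) _ ((hx' i).1.trans hx.1) (hx' i).2)
      (tendsto_one_div_add_atTop_nhds_zero_nat.comp hr))).symm
  blk {l} X n m0 := by
    choose b h1 h2 h3 using fun i => exists_blk l (n i) (n i + m0 i + 1)
    have e : ∀ Y : Z.S.Pc (l + 1), Z.KA Y = (Z.S.grp Y).map Z.j := fun _ => if_neg l.succ_ne_zero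
    refine ⟨fun i => n i + m0 i + 1, fun i => by simp only; omega,
      ⟨fun i => (Z.S.block (X.1 i).1 (n i) (m0 i), n i, b i), fun _ h => (l.succ_ne_zero h).elim⟩,
      iBall_mono fun i => Subgroup.prod_mono ((e _).trans_le (Subgroup.map_mono (Z.S.block_le _ _ _)))
        (SJ_mono (h1 i)), fun X' y hy x hx => hy.2.comm hx.2 fun i g hg k hk => ?_,
      fun x hx h => ⟨hx.1, hx.2.fc hr hx.1 (K := fun i => Z.pT (X.1 i).1 (n i + m0 i + 1))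
        (fun i => Subgroup.prod_mono (Subgroup.map_mono (Z.S.tail_anti _ (by omega)))
          (SJ_mono (JT_anti l (by omega)))) (fun i g hg hg' => ?_)
        fun k hk => (h _ (uu_mem_iBall hk)).symm⟩⟩
    · obtain ⟨a, ha, ha'⟩ := (e _).le hg.1
      obtain ⟨c, hc, hc'⟩ := hk.1
      exact comm_eps (ha' ▸ hc' ▸ (Z.S.block_comm _ _ _ _ a ha c hc).map Z.j) (h2 i) hg.2 hk.2
    · exact Z.tesc (Z.S.fc _ _ _) (h3 i) g hg fun h => hg' ⟨(e _).ge h.1, h.2⟩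
  bit_true hl X n := by
    choose z hz h y hy hzy using fun i => Z.S.bit_true hl (X.1 i).1 (n i)
    refine ⟨_, uu_mem_iBall (g := fun i => (Z.j (z i), 1)) fun i => ⟨⟨_, hz i, rfl⟩, one_mem _⟩,
      fun X' m x hx => ?_, _, uu_mem_iBall (g := fun i => (Z.j (y i), 1))
        fun i => ⟨Z.j_mem_KA (hy i), one_mem _⟩, fun hc => ?_⟩
    · obtain ⟨x, rfl, hx'⟩ := hx.2.rep
      refine Commute.map ?_ (mkU t U)
      ext i
      refine ((L.in_u (E := {(Z.j (z i), 1)}) rfl).comm (hx' i).2 ?_).eq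
      rintro _ rfl ⟨_, s⟩ ⟨⟨k, hk, rfl⟩, hs⟩
      exact comm_eps ((h i _ _ k hk).map Z.j) (Set.empty_disjoint _) (one_mem _) hs
    · refine not_lt.2 (ge_of_tendsto' ((comm_mkU U).1 hc) fun i => L.one_le_cm fun h => hzy i ?_)
        one_pos
      simpa [Z.ρ_j] using h.map (Z.ρ.comp (MonoidHom.fst _ SG))
  bit_false hl X n z hz h y hy := by
    choose C h1 h2 using fun i => Z.S.bit_false hl (X.1 i).1 (n i)
    refine TwAlg.Conc.comm (K := fun i => ((C i).map Z.j).prod (SJ ∅)) (hz.2.fc hr hz.1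
      (fun _ => le_rfl) (fun i => Z.tesc (h2 i) (by simp)) fun k hk => (h _ (uu_mem_iBall hk)).symm)
      hy.2 fun i => ?_
    rintro ⟨_, s⟩ ⟨⟨g, hg, rfl⟩, hs⟩ k hk
    have h3 := Z.comm_KA (X.2 i) hk.1
    exact comm_eps (h3.2 g (h1 i g hg _ h3.1).symm).symm (Set.empty_disjoint _) hs hk.2

include Z in
theorem Setup.exists_jsys {r : I → ℕ} (hr : Tendsto r U atTop) :
    ∃ S : JSys.{w} (Ultrapower t U)
      {y | ‖y‖ ≤ 1 ∧ L.Conc U y fun _ => (Hm Γ0 0).prod (⊤ : Subgroup SG)}, S.bit = bit :=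
  ⟨Z.jsys L hr, rfl⟩

end Pool.Agent.P.MP_a6af55_an
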