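import Pool.Agent.P.MP_a6af55_an.LG

namespace Pool.Agent.P.MP_a6af55_an

open Pool.Agent.Lib.Tracial
open scoped ComplexOrder InnerProductSpace ComplexConjugate Pointwise
open Filter Topology

variable {A : Type*} [CStarAlgebra A] {Γ : Type*} [Group Γ]

/-- The sign of a bicharacter as a complex number. -/
noncomputable def sg (ε : Γ →* Γ →* ℤˣ) (g h : Γ) : ℂ := ((ε g h : ℤ) : ℂ)

section sg

variable (ε : Γ →* Γ →* ℤˣ)

lemma sg_mul_self (g h : Γ) : sg ε g h * sg ε g h = 1 := by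
  rw [sg, ← Int.cast_mul, ← Units.val_mul, Int.units_mul_self]; simp

lemma norm_sg (g h : Γ) : ‖sg ε g h‖ = 1 := by
  rcases Int.units_eq_one_or (ε g h) with h | h <;> simp [sg, h]

lemma conj_sg (g h : Γ) : conj (sg ε g h) = sg ε g h := by simp [sg]

lemma sg_ne_zero (g h : Γ) : sg ε g h ≠ 0 := fun h0 => by simpa [h0] using sg_mul_self ε g h

@[simp] lemma sg_one_left (h : Γ) : sg ε 1 h = 1 := by simp [sg]

@[simp] lemma sg_one_right (g : Γ) : sg ε g 1 = 1 := by simp [sg]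

lemma sg_mul_left (g g' h : Γ) : sg ε (g * g') h = sg ε g h * sg ε g' h := by simp [sg]

lemma sg_mul_right (g h h' : Γ) : sg ε g (h * h') = sg ε g h * sg ε g h' := by simp [sg]

lemma sg_inv_left (g h : Γ) : sg ε g⁻¹ h = sg ε g h := by simp [sg]

lemma sg_inv_right (g h : Γ) : sg ε g h⁻¹ = sg ε g h := by simp [sg]

lemma sg_eq_neg {g h g' h' : Γ} (hne : ε g h ≠ ε g' h') : sg ε g h = -sg ε g' h' := by
  rcases Int.units_eq_one_or (ε g h) with h1 | h1 <;>
    rcases Int.units_eq_one_or (ε g' h') with h2 | h2 <;> simp_all [sg]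

end sg

/-- A projective unitary representation with the regular trace. -/
structure TwRep (ε : Γ →* Γ →* ℤˣ) (t : TrState A) where
  u : Γ → A
  unit : ∀ g, u g ∈ unitary A
  u_one : u 1 = 1
  u_mul : ∀ g h, u g * u h = sg ε g h • u (g * h)
  τ_u : ∀ g, g ≠ 1 → t.τ (u g) = 0

/-- A projective unitary representation with the regular trace and dense span. -/
structure TwAlg (ε : Γ →* Γ →* ℤˣ) (t : TrState A) extends TwRep ε t where
  dense : ∀ x, ∀ δ > 0, ∃ p ∈ Submodule.span ℂ (Set.range u), t.n2 (x - p) ≤ δ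

/-- Escaping by ping-pong or by a sign. -/
def TEsc (ε : Γ →* Γ →* ℤˣ) (K : Subgroup Γ) (g : Γ) : Prop :=
  Esc K g ∨ ∃ k ∈ K, Commute k g ∧ ε k g ≠ ε g k

lemma PP.comap {G H : Type*} [Group G] [Group H] (r : H →* G) {a b : H} {B : Set G}
    (h : PP (r a) (r b) B) : PP a b (r ⁻¹' B) := by
  obtain ⟨h1, h2, S, P, M, h3, h4, h5, h6, h7, h8, h9⟩ := h
  refine ⟨fun g => by simpa using h1 (r g), fun g => by simpa using h2 (r g), r ⁻¹' S, r ⁻¹' P,
    r ⁻¹' M, Set.preimage_mono h3, fun g hg => h4 hg, fun g hg => h5 hg, h6.preimage r,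
    fun g hg => by simpa using h7 (r g) hg, fun g hg => by simpa using h8 (r g) hg,
    fun g hg => by simpa using h9 (r g) hg⟩

lemma norm_le_of_n2 (t : TrState A) [t.W] {a : A} {C : ℝ} (hC : 0 ≤ C)
    (h : ∀ x, t.n2 (a * x) ≤ C * t.n2 x) : ‖a‖ ≤ C := by
  rw [← NonUnitalStarAlgHom.norm_map t.π t.π_injective a]
  exact t.opNorm_le_of_Λ _ hC fun x => by rw [t.π_Λ]; exact h x

variable {ε : Γ →* Γ →* ℤˣ} {t : TrState A}

namespace TwRep

variable (L : TwRep ε t)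

lemma norm_u (g : Γ) : ‖L.u g‖ ≤ 1 := norm_unitary_le (L.unit g)

lemma star_u (g : Γ) : star (L.u g) = sg ε g g • L.u g⁻¹ := by
  have h := L.u_mul g g⁻¹
  rw [mul_inv_cancel, L.u_one, sg_inv_right] at h
  calc star (L.u g) = star (L.u g) * ((sg ε g g * sg ε g g) • 1) := by rw [sg_mul_self]; simp
    _ = sg ε g g • (star (L.u g) * (L.u g * L.u g⁻¹)) := by
      rw [h, mul_smul, mul_smul_comm]
    _ = _ := by rw [← mul_assoc, (L.unit g).1, one_mul]

lemma u_mul' (g h : Γ) : L.u (g * h) = sg ε g h • (L.u g * L.u h) := by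
  rw [L.u_mul, smul_smul, sg_mul_self, one_smul]

open Classical in
lemma τ_star_mul (g h : Γ) : t.τ (star (L.u g) * L.u h) = if g = h then 1 else 0 := by
  split_ifs with hgh
  · rw [hgh, (L.unit h).1, t.map_one]
  · rw [L.star_u, smul_mul_assoc, L.u_mul, map_smul, map_smul,
      L.τ_u _ (by rwa [ne_eq, inv_mul_eq_one]), smul_zero, smul_zero]

lemma orth : Orthonormal ℂ fun g => t.Λ (L.u g) := by
  classical
  rw [orthonormal_iff_ite]
  intro g h
  rw [t.inner_Λ, L.τ_star_mul]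

lemma n2_u (g : Γ) : t.n2 (L.u g) = 1 := L.orth.1 g

lemma comm_u {g h : Γ} (hc : Commute g h) (he : ε g h = ε h g) : Commute (L.u g) (L.u h) := by
  rw [Commute, SemiconjBy, L.u_mul, L.u_mul, hc.eq, sg, sg, he]

lemma one_le_cm {g h : Γ} (hgh : ¬ Commute g h) : 1 ≤ t.cm (L.u g) (L.u h) := by
  have := t.norm_τ_mul_le (star (L.u (g * h))) (L.u g * L.u h - L.u h * L.u g)
  rw [L.u_mul, L.u_mul, mul_sub, map_sub, mul_smul_comm, mul_smul_comm, map_smul, map_smul,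
    L.τ_star_mul, L.τ_star_mul, if_pos rfl, if_neg (show ¬ g * h = h * g from hgh), t.n2_star,
    L.n2_u, ← L.u_mul, ← L.u_mul] at this
  simpa [TrState.cm, norm_sg] using this

/-- Pulling back along an injective homomorphism and twisting by a character. -/
def twist {Γ' : Type*} [Group Γ'] (ε' : Γ' →* Γ' →* ℤˣ) (j : Γ' →* Γ)
    (hj : Function.Injective j) (hε : ∀ g h, ε (j g) (j h) = ε' g h) (χ : Γ' →* ℂ)
    (hχ : ∀ g, ‖χ g‖ = 1) : TwRep ε' t where
  u g := χ g • L.u (j g)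
  unit g := by
    have h : conj (χ g) * χ g = 1 := by
      rw [Complex.conj_mul', hχ]; simp
    constructor
    · rw [star_smul, smul_mul_smul_comm, (L.unit _).1, RCLike.star_def, h, one_smul]
    · rw [star_smul, smul_mul_smul_comm, (L.unit _).2, RCLike.star_def, mul_comm, h, one_smul]
  u_one := by simp [L.u_one]
  u_mul g h := by
    rw [smul_mul_smul_comm, L.u_mul, map_mul, map_mul, smul_comm, sg, sg, hε]
  τ_u g hg := by
    rw [map_smul, L.τ_u _ ((map_ne_one_iff j hj).2 hg), smul_zero]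

end TwRep

namespace TwAlg

variable (L : TwAlg ε t)

lemma dense' : ⊤ ≤ (Submodule.span ℂ (Set.range fun g => t.Λ (L.u g))).topologicalClosure := by
  intro ξ _
  refine t.denseRange_Λ.induction_on ξ (Submodule.isClosed_topologicalClosure _) fun x => ?_
  refine Metric.mem_closure_iff.2 fun δ hδ => ?_
  obtain ⟨p, hp, h⟩ := L.dense x (δ / 2) (half_pos hδ)
  refine ⟨t.Λ p, ?_, ?_⟩
  · have := Submodule.apply_mem_span_image_of_mem_span t.Λ hp
    rwa [← Set.range_comp] at this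
  · rw [dist_eq_norm, ← map_sub, t.norm_Λ]; linarith

/-- The canonical Hilbert basis. -/
noncomputable def basis : HilbertBasis Γ ℂ t.L2 := HilbertBasis.mk L.orth L.dense'

lemma basis_apply (g : Γ) : L.basis g = t.Λ (L.u g) := congrFun (HilbertBasis.coe_mk _ _) g

lemma ext_u {H : Type*} [NormedAddCommGroup H] [InnerProductSpace ℂ H] {S T : t.L2 →L[ℂ] H}
    (h : ∀ g, S (t.Λ (L.u g)) = T (t.Λ (L.u g))) : S = T :=
  hb_ext L.basis fun g => by rw [L.basis_apply, h]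

/-- Fourier coefficients. -/
noncomputable def c (x : A) (g : Γ) : ℂ := t.τ (star (L.u g) * x)

lemma c_eq (x : A) (g : Γ) : L.c x g = ⟪t.Λ (L.u g), t.Λ x⟫_ℂ := (t.inner_Λ _ _).symm

lemma hasSum_c (x : A) : HasSum (fun g => L.c x g • t.Λ (L.u g)) (t.Λ x) := by
  simpa only [HilbertBasis.repr_apply_apply, basis_apply, ← c_eq] using L.basis.hasSum_repr (t.Λ x)

/-- The projection onto the span of a set of basis vectors. -/
noncomputable def PE (E : Set Γ) : t.L2 →L[ℂ] t.L2 :=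
  (Submodule.span ℂ ((fun g => t.Λ (L.u g)) '' E)).topologicalClosure.starProjection

lemma PE_u_mem {E : Set Γ} {g : Γ} (h : g ∈ E) : L.PE E (t.Λ (L.u g)) = t.Λ (L.u g) :=
  Submodule.starProjection_eq_self_iff.2
    (Submodule.le_topologicalClosure _ (Submodule.subset_span ⟨g, h, rfl⟩))

lemma PE_u_not {E : Set Γ} {g : Γ} (h : g ∉ E) : L.PE E (t.Λ (L.u g)) = 0 := by
  rw [PE, Submodule.starProjection_apply_eq_zero_iff, Submodule.orthogonal_closure]
  refine (Submodule.isOrtho_span (s := {t.Λ (L.u g)})).2 ?_ (Submodule.subset_span rfl)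
  rintro _ rfl _ ⟨k, hk, rfl⟩
  exact L.orth.2 fun e : g = k => h (e ▸ hk)

lemma inner_PE (E : Set Γ) (ξ η : t.L2) : ⟪L.PE E ξ, η⟫_ℂ = ⟪ξ, L.PE E η⟫_ℂ :=
  Submodule.inner_starProjection_left_eq_right _ _ _

lemma norm_PE_le (E : Set Γ) (ξ : t.L2) : ‖L.PE E ξ‖ ≤ ‖ξ‖ :=
  Submodule.norm_starProjection_apply_le _ _

lemma PE_PE (E F : Set Γ) (ξ : t.L2) : L.PE E (L.PE F ξ) = L.PE (E ∩ F) ξ := by
  have : (L.PE E).comp (L.PE F) = L.PE (E ∩ F) := L.ext_u fun g => by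
    by_cases h1 : g ∈ E <;> by_cases h2 : g ∈ F <;> simp [PE_u_mem, PE_u_not, h1, h2]
  exact congrArg (fun T : t.L2 →L[ℂ] t.L2 => T ξ) this

lemma PE_univ (ξ : t.L2) : L.PE Set.univ ξ = ξ := by
  have : L.PE Set.univ = ContinuousLinearMap.id ℂ _ := L.ext_u fun g => by simp [PE_u_mem]
  rw [this]; rfl

lemma PE_empty (ξ : t.L2) : L.PE ∅ ξ = 0 := by
  have : L.PE ∅ = 0 := L.ext_u fun g => by simp [PE_u_not]
  rw [this]; rfl

lemma PE_union {E F : Set Γ} (h : Disjoint E F) (ξ : t.L2) :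
    L.PE (E ∪ F) ξ = L.PE E ξ + L.PE F ξ := by
  have : L.PE (E ∪ F) = L.PE E + L.PE F := L.ext_u fun g => by
    have : g ∈ E → g ∉ F := fun hg => Set.disjoint_left.1 h hg
    by_cases h1 : g ∈ E <;> by_cases h2 : g ∈ F <;> simp_all [PE_u_mem, PE_u_not]
  rw [this]; rfl

lemma PE_add_compl (E : Set Γ) (ξ : t.L2) : L.PE E ξ + L.PE Eᶜ ξ = ξ := by
  rw [← L.PE_union disjoint_compl_right, Set.union_compl_self, PE_univ]

lemma inner_PE_disj {E F : Set Γ} (h : Disjoint E F) (ξ η : t.L2) :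
    ⟪L.PE E ξ, L.PE F η⟫_ℂ = 0 := by
  rw [inner_PE, PE_PE, h.inter_eq, PE_empty, inner_zero_right]

lemma norm_PE_union {E F : Set Γ} (h : Disjoint E F) (ξ : t.L2) :
    ‖L.PE (E ∪ F) ξ‖ ^ 2 = ‖L.PE E ξ‖ ^ 2 + ‖L.PE F ξ‖ ^ 2 := by
  rw [L.PE_union h, sq, norm_add_sq_eq_norm_sq_add_norm_sq_of_inner_eq_zero _ _
    (L.inner_PE_disj h ξ ξ), sq, sq]

lemma norm_PE_mono {E F : Set Γ} (h : E ⊆ F) (ξ : t.L2) : ‖L.PE E ξ‖ ≤ ‖L.PE F ξ‖ := by
  rw [← Set.inter_eq_left.2 h, ← PE_PE]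
  exact L.norm_PE_le _ _

lemma sum_PE_le {ι : Type*} (s : Finset ι) (E : ι → Set Γ) {F : Set Γ} (hF : ∀ i ∈ s, E i ⊆ F)
    (h : ∀ i ∈ s, ∀ j ∈ s, i ≠ j → Disjoint (E i) (E j)) (ξ : t.L2) :
    ∑ i ∈ s, ‖L.PE (E i) ξ‖ ^ 2 ≤ ‖L.PE F ξ‖ ^ 2 := by
  classical
  induction s using Finset.induction_on generalizing F with
  | empty => simp
  | insert a s ha ih =>
    rw [Finset.sum_insert ha, ← Set.union_sdiff_cancel (hF a (Finset.mem_insert_self a s)),
      L.norm_PE_union Set.disjoint_sdiff_right]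
    refine add_le_add le_rfl (ih (fun i hi => ?_) fun i hi j hj =>
      h i (Finset.mem_insert_of_mem hi) j (Finset.mem_insert_of_mem hj))
    exact Set.subset_sdiff.2 ⟨hF i (Finset.mem_insert_of_mem hi),
      h i (Finset.mem_insert_of_mem hi) a (Finset.mem_insert_self a s) fun e => ha (e ▸ hi)⟩

lemma exists_fin_PE (E : Set Γ) (ξ : t.L2) {δ : ℝ} (hδ : 0 < δ) :
    ∃ F : Finset Γ, (∀ g ∈ F, g ∈ E) ∧ ‖L.PE (E \ F) ξ‖ ≤ δ := by
  classical
  obtain ⟨F, hF⟩ := (Metric.tendsto_nhds.1 (L.basis.hasSum_repr ξ) _ hδ).exists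
  refine ⟨F.filter (· ∈ E), fun g hg => (Finset.mem_filter.1 hg).2, ?_⟩
  have h0 : L.PE (E \ (F.filter (· ∈ E) : Finset Γ)) (∑ g ∈ F, L.basis.repr ξ g • L.basis g) = 0 := by
    rw [map_sum]
    refine Finset.sum_eq_zero fun g hg => ?_
    rw [map_smul, basis_apply, L.PE_u_not (by simp [hg]), smul_zero]
  rw [← sub_zero (L.PE _ ξ), ← h0, ← map_sub]
  rw [dist_comm, dist_eq_norm] at hF
  exact (L.norm_PE_le _ _).trans hF.le

/-- Fourier support in a set. -/
def In (x : A) (E : Set Γ) : Prop := ∀ g ∉ E, L.c x g = 0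

/-- The two norm of the part supported in a set. -/
noncomputable def m (x : A) (E : Set Γ) : ℝ := ‖L.PE E (t.Λ x)‖

variable {L} in
lemma In.map_eq_zero {x : A} {E : Set Γ} (h : L.In x E) {H : Type*} [NormedAddCommGroup H]
    [NormedSpace ℂ H] (T : t.L2 →L[ℂ] H) (hT : ∀ g ∈ E, T (t.Λ (L.u g)) = 0) : T (t.Λ x) = 0 := by
  refine ((L.hasSum_c x).mapL T).unique ?_
  have : (fun g => T (L.c x g • t.Λ (L.u g))) = fun _ => 0 := funext fun g => by
    by_cases hg : g ∈ E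
    · rw [map_smul, hT g hg, smul_zero]
    · rw [h g hg, zero_smul, map_zero]
  rw [this]
  exact hasSum_zero

lemma in_iff_m {x : A} {E : Set Γ} : L.In x E ↔ L.m x Eᶜ = 0 := by
  rw [m, norm_eq_zero]
  refine ⟨fun h => h.map_eq_zero _ fun g hg => L.PE_u_not (by simpa using hg), fun h g hg => ?_⟩
  rw [c_eq, ← L.PE_u_mem (E := Eᶜ) hg, inner_PE, h, inner_zero_right]

lemma in_iff_PE {x : A} {E : Set Γ} : L.In x E ↔ L.PE E (t.Λ x) = t.Λ x := by
  rw [in_iff_m, m, norm_eq_zero]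
  have := L.PE_add_compl E (t.Λ x)
  exact ⟨fun h => by simpa [h] using this, fun h => by simpa [h] using this⟩

variable {L} in
lemma In.mono {x : A} {E F : Set Γ} (h : L.In x E) (hEF : E ⊆ F) : L.In x F :=
  fun g hg => h g fun h' => hg (hEF h')

variable {L} in
lemma In.inter {x : A} {E F : Set Γ} (h : L.In x E) (h' : L.In x F) : L.In x (E ∩ F) :=
  fun g hg => (not_and_or.1 hg).elim (h g) (h' g)

lemma in_univ (x : A) : L.In x Set.univ := fun _ hg => (hg trivial).elim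

lemma in_u {E : Set Γ} {h : Γ} (hh : h ∈ E) : L.In (L.u h) E := L.in_iff_PE.2 (L.PE_u_mem hh)

lemma in_zero (E : Set Γ) : L.In 0 E := fun g _ => by simp [c]

variable {L} in
lemma In.add {x y : A} {E : Set Γ} (h : L.In x E) (h' : L.In y E) : L.In (x + y) E :=
  fun g hg => by rw [c, mul_add, map_add, ← c, ← c, h g hg, h' g hg, add_zero]

variable {L} in
lemma In.smul {x : A} {E : Set Γ} (h : L.In x E) (a : ℂ) : L.In (a • x) E :=
  fun g hg => by rw [c, mul_smul_comm, map_smul, ← c, h g hg, smul_zero]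

variable {L} in
lemma In.sub {x y : A} {E : Set Γ} (h : L.In x E) (h' : L.In y E) : L.In (x - y) E :=
  fun g hg => by rw [c, mul_sub, map_sub, ← c, ← c, h g hg, h' g hg, sub_zero]

lemma in_sum {ι : Type*} (s : Finset ι) {x : ι → A} {E : Set Γ} (h : ∀ i ∈ s, L.In (x i) E) :
    L.In (∑ i ∈ s, x i) E := fun g hg => by
  rw [c, Finset.mul_sum, map_sum]
  exact Finset.sum_eq_zero fun i hi => h i hi g hg

variable {L} in
lemma In.PE_π {a : A} {X E E' : Set Γ} (ha : L.In a X) (h : ∀ k ∈ X, ∀ g, k * g ∈ E' ↔ g ∈ E)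
    (ξ : t.L2) : L.PE E' (t.π a ξ) = t.π a (L.PE E ξ) := by
  have : (L.PE E').comp (t.π a) = (t.π a).comp (L.PE E) := L.ext_u fun g => by
    by_cases hg : g ∈ E
    · have := ha.map_eq_zero ((L.PE E').comp (t.rmul (L.u g)) - t.rmul (L.u g)) fun k hk => by
        simp [L.u_mul, L.PE_u_mem ((h k hk g).2 hg)]
      simpa [L.PE_u_mem hg, sub_eq_zero] using this
    · have := ha.map_eq_zero ((L.PE E').comp (t.rmul (L.u g))) fun k hk => by
        simp [L.u_mul, L.PE_u_not (mt (h k hk g).1 hg)]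
      simpa [L.PE_u_not hg] using this
  exact congrArg (fun T : t.L2 →L[ℂ] t.L2 => T ξ) this

variable {L} in
lemma In.PE_rmul {a : A} {X E E' : Set Γ} (ha : L.In a X) (h : ∀ k ∈ X, ∀ g, g * k ∈ E' ↔ g ∈ E)
    (ξ : t.L2) : L.PE E' (t.rmul a ξ) = t.rmul a (L.PE E ξ) := by
  have : (L.PE E').comp (t.rmul a) = (t.rmul a).comp (L.PE E) := L.ext_u fun g => by
    by_cases hg : g ∈ E
    · have := ha.map_eq_zero ((L.PE E').comp (t.π (L.u g)) - t.π (L.u g)) fun k hk => by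
        simp [L.u_mul, L.PE_u_mem ((h k hk g).2 hg)]
      simpa [L.PE_u_mem hg, sub_eq_zero] using this
    · have := ha.map_eq_zero ((L.PE E').comp (t.π (L.u g))) fun k hk => by
        simp [L.u_mul, L.PE_u_not (mt (h k hk g).1 hg)]
      simpa [L.PE_u_not hg] using this
  exact congrArg (fun T : t.L2 →L[ℂ] t.L2 => T ξ) this

variable {L} in
lemma In.mul {x y : A} {E F : Set Γ} (hx : L.In x E) (hy : L.In y F) : L.In (x * y) (E * F) := by
  intro g hg
  have := hy.map_eq_zero ((innerSL ℂ (t.Λ (L.u g))).comp (t.π x)) fun k hk => by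
    have := hx.map_eq_zero ((innerSL ℂ (t.Λ (L.u g))).comp (t.rmul (L.u k))) fun h hh => by
      have hne : g ≠ h * k := fun e => hg (e ▸ Set.mul_mem_mul hh hk)
      simp [L.u_mul, t.inner_Λ, L.τ_star_mul, hne]
    simpa using this
  rw [c_eq]
  simpa using this

lemma c_star (x : A) (g : Γ) : L.c (star x) g = sg ε g g * conj (L.c x g⁻¹) := by
  rw [c, c, ← t.map_star, star_mul, star_star, L.star_u, smul_mul_assoc, map_smul, t.trace,
    smul_eq_mul]

variable {L} in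
lemma In.star {x : A} {E : Set Γ} (h : L.In x E) : L.In (star x) E⁻¹ := fun g hg => by
  rw [c_star, h _ (by simpa using hg), map_zero, mul_zero]

/-- The algebra of a subgroup. -/
def alg (K : Subgroup Γ) : StarSubalgebra ℂ A where
  carrier := {x | L.In x K}
  mul_mem' hx hy := (hx.mul hy).mono (by rintro _ ⟨a, ha, b, hb, rfl⟩; exact K.mul_mem ha hb)
  add_mem' := In.add
  algebraMap_mem' a := by
    rw [Algebra.algebraMap_eq_smul_one, ← L.u_one]
    exact (L.in_u K.one_mem).smul a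
  star_mem' hx := hx.star.mono fun g hg => by simpa using hg

lemma mem_alg {K : Subgroup Γ} {x : A} : x ∈ L.alg K ↔ L.In x K := Iff.rfl

variable {L} in
lemma In.kmul {x y : A} {K : Subgroup Γ} (hx : L.In x K) (hy : L.In y K) : L.In (x * y) K :=
  (L.alg K).mul_mem hx hy

variable {L} in
lemma In.kstar {x : A} {K : Subgroup Γ} (hx : L.In x K) : L.In (Star.star x) K :=
  (L.alg K).star_mem' hx

lemma in_one (K : Subgroup Γ) : L.In 1 K := (L.alg K).one_mem

lemma isClosed_In (E : Set Γ) : IsClosed {ξ : t.L2 | L.PE Eᶜ ξ = 0} :=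
  isClosed_eq (by fun_prop) continuous_const

instance (K : Subgroup Γ) : IsClosed (L.alg K : Set A) := by
  have := (L.isClosed_In K).preimage (GrpAlg.cont_Λ t)
  refine (Set.ext fun x => ?_ : (L.alg K : Set A) = _) ▸ this
  rw [SetLike.mem_coe, mem_alg, in_iff_m, m, norm_eq_zero]
  rfl

lemma m_nonneg (x : A) (E : Set Γ) : 0 ≤ L.m x E := norm_nonneg _

lemma m_le_n2 (x : A) (E : Set Γ) : L.m x E ≤ t.n2 x := L.norm_PE_le _ _

lemma m_univ (x : A) : L.m x Set.univ = t.n2 x := by rw [m, PE_univ, t.norm_Λ]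

lemma m_mono (x : A) {E F : Set Γ} (h : E ⊆ F) : L.m x E ≤ L.m x F := L.norm_PE_mono h _

lemma m_add_le (x y : A) (E : Set Γ) : L.m (x + y) E ≤ L.m x E + L.m y E := by
  rw [m, map_add, map_add]; exact norm_add_le _ _

lemma m_le_add (x y : A) (E : Set Γ) : L.m x E ≤ L.m y E + t.n2 (x - y) := by
  have := L.m_add_le y (x - y) E
  rw [add_sub_cancel] at this
  linarith [L.m_le_n2 (x - y) E]

lemma m_smul (a : ℂ) (x : A) (E : Set Γ) : L.m (a • x) E = ‖a‖ * L.m x E := by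
  rw [m, map_smul, map_smul, norm_smul, m]

lemma m_sq_union (x : A) {E F : Set Γ} (h : Disjoint E F) :
    L.m x (E ∪ F) ^ 2 = L.m x E ^ 2 + L.m x F ^ 2 := L.norm_PE_union h _

lemma m_sq_add_compl (x : A) (E : Set Γ) : L.m x E ^ 2 + L.m x Eᶜ ^ 2 = t.n2 x ^ 2 := by
  rw [← L.m_sq_union x disjoint_compl_right, Set.union_compl_self, m_univ]

lemma m_union_le (x : A) (E F : Set Γ) : L.m x (E ∪ F) ≤ L.m x E + L.m x F := by
  rw [← Set.union_sdiff_self, m, L.PE_union Set.disjoint_sdiff_right]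
  exact (norm_add_le _ _).trans (add_le_add le_rfl (L.m_mono x Set.sdiff_subset))

lemma sum_m_le {ι : Type*} (s : Finset ι) (E : ι → Set Γ) {F : Set Γ} (hF : ∀ i ∈ s, E i ⊆ F)
    (h : ∀ i ∈ s, ∀ j ∈ s, i ≠ j → Disjoint (E i) (E j)) (x : A) :
    ∑ i ∈ s, L.m x (E i) ^ 2 ≤ L.m x F ^ 2 := L.sum_PE_le s E hF h _

variable {L} in
lemma In.m_eq {x : A} {E : Set Γ} (h : L.In x E) (F : Set Γ) : L.m x F = L.m x (F ∩ E) := by
  rw [m, m, ← PE_PE, L.in_iff_PE.1 h]

variable {L} in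
lemma In.m_self {x : A} {E : Set Γ} (h : L.In x E) : L.m x E = t.n2 x := by
  rw [m, L.in_iff_PE.1 h, t.norm_Λ]

lemma norm_c_le {E : Set Γ} {g : Γ} (hg : g ∈ E) (x : A) : ‖L.c x g‖ ≤ L.m x E := by
  rw [c_eq, ← L.PE_u_mem hg, inner_PE]
  simpa [t.norm_Λ, L.n2_u, m] using norm_inner_le_norm (𝕜 := ℂ) (t.Λ (L.u g)) (L.PE E (t.Λ x))

variable {L} in
lemma In.m_mul_le {a : A} {X E E' : Set Γ} (ha : L.In a X) (h1 : ‖a‖ ≤ 1)
    (h : ∀ k ∈ X, ∀ g, k * g ∈ E' ↔ g ∈ E) (x : A) : L.m (a * x) E' ≤ L.m x E := by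
  rw [m, ← t.π_Λ, ha.PE_π h]
  exact ((t.π a).le_opNorm _).trans (mul_le_of_le_one_left (norm_nonneg _)
    ((NonUnitalStarAlgHom.norm_apply_le t.π a).trans h1))

lemma norm_rmul_le (t : TrState A) (a : A) (ξ : t.L2) : ‖t.rmul a ξ‖ ≤ ‖a‖ * ‖ξ‖ :=
  ((t.rmul a).le_opNorm _).trans (mul_le_mul_of_nonneg_right (t.opNorm_le_of_Λ _ (norm_nonneg a)
    fun x => by rw [t.rmul_Λ, mul_comm]; exact t.n2_mul_le' x a) (norm_nonneg _))

variable {L} in
lemma In.m_mul_le' {a : A} {X E E' : Set Γ} (ha : L.In a X) (h1 : ‖a‖ ≤ 1)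
    (h : ∀ k ∈ X, ∀ g, g * k ∈ E' ↔ g ∈ E) (x : A) : L.m (x * a) E' ≤ L.m x E := by
  rw [m, ← t.rmul_Λ, ha.PE_rmul h]
  exact (norm_rmul_le t a _).trans (mul_le_of_le_one_left (norm_nonneg _) h1)

lemma m_u_mul (k : Γ) (x : A) (E : Set Γ) : L.m (L.u k * x) E = L.m x {g | k * g ∈ E} := by
  refine le_antisymm ((L.in_u (E := {k}) rfl).m_mul_le (L.norm_u k) (by simp) x) ?_
  have := (L.in_u (E := {k}) rfl).star.m_mul_le (E := E) (E' := {g | k * g ∈ E})
    (by rw [norm_star]; exact L.norm_u k) (by simp) (L.u k * x)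
  rwa [← mul_assoc, (L.unit k).1, one_mul] at this

lemma m_mul_u (k : Γ) (x : A) (E : Set Γ) : L.m (x * L.u k) E = L.m x {g | g * k ∈ E} := by
  refine le_antisymm ((L.in_u (E := {k}) rfl).m_mul_le' (L.norm_u k) (by simp) x) ?_
  have := (L.in_u (E := {k}) rfl).star.m_mul_le' (E := E) (E' := {g | g * k ∈ E})
    (by rw [norm_star]; exact L.norm_u k) (by simp) (x * L.u k)
  rwa [mul_assoc, (L.unit k).2, mul_one] at this

lemma m_star_u_mul (k : Γ) (x : A) (E : Set Γ) :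
    L.m (star (L.u k) * x) E = L.m x {g | k⁻¹ * g ∈ E} := by
  rw [L.star_u, smul_mul_assoc, m_smul, norm_sg, one_mul, m_u_mul]

lemma m_mul_star_u (k : Γ) (x : A) (E : Set Γ) :
    L.m (x * star (L.u k)) E = L.m x {g | g * k⁻¹ ∈ E} := by
  rw [L.star_u, mul_smul_comm, m_smul, norm_sg, one_mul, m_mul_u]

end TwAlg

end Pool.Agent.P.MP_a6af55_an
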