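import Pool.Agent.P.MP_a6af55_an.SMTw
import Pool.Agent.P.MP_a6af55_an.Super
import Pool.Agent.P.MP_a6af55_an.Embed

namespace Pool.Agent.P.MP_a6af55_an

open Pool.Agent.Lib.Tracial
open scoped ComplexOrder InnerProductSpace ComplexConjugate Pointwise
open Filter Topology

variable {A : Type*} [CStarAlgebra A] {Γ : Type*} [Group Γ] {ε : Γ →* Γ →* ℤˣ} {t : TrState A}

namespace TwAlg

variable (L : TwAlg ε t)

lemma m_conj (k : Γ) (x : A) {E F : Set Γ} (h : ∀ g ∈ E, k * g * k⁻¹ ∈ F) :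
    L.m x E ≤ L.m x F + t.cm (L.u k) x := by
  have h1 := L.m_le_add (L.u k * x * star (L.u k)) x F
  rw [m_mul_star_u, m_u_mul, t.n2_conj_sub (L.unit k)] at h1
  exact (L.m_mono x h).trans h1

lemma pp {a b : Γ} {B : Set Γ} (h : PP a b B) (x : A) :
    L.m x B ≤ 7 * (t.cm (L.u a) x + t.cm (L.u b) x) := by
  obtain ⟨-, -, S, P, M, h1, h2, h3, h4, h5, h6, h7⟩ := h
  have e1 := L.m_conj a x h5
  have e2 := L.m_conj b x h6
  have e3 := L.m_conj b⁻¹ x (F := M) (by simpa using h7)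
  have e0 : t.cm (L.u b⁻¹) x = t.cm (L.u b) x := by
    rw [← t.cm_star_unitary (L.unit b), L.star_u, TrState.cm, TrState.cm, smul_mul_assoc,
      mul_smul_comm, ← smul_sub, t.n2_smul, norm_sg, one_mul]
  rw [e0] at e3
  have e4 := pow_le_pow_left₀ (L.m_nonneg _ _) (L.m_mono x (Set.union_subset h2 h3)) 2
  rw [L.m_sq_union x h4] at e4
  have e5 := L.m_sq_union x (Set.disjoint_sdiff_right (s := S) (t := B))
  rw [Set.union_sdiff_cancel h1] at e5
  have ha := t.cm_nonneg (L.u a) x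
  have hb := t.cm_nonneg (L.u b) x
  have k0 : ∀ {p q d : ℝ}, 0 ≤ p → p ≤ q + d → p ^ 2 ≤ 6 / 5 * q ^ 2 + 6 * d ^ 2 :=
    fun {p q d} hp h => by nlinarith [pow_le_pow_left₀ hp h 2, sq_nonneg (q - 5 * d)]
  have k1 := k0 (L.m_nonneg _ _) e1
  have k2 := k0 (L.m_nonneg _ _) e2
  have k3 := k0 (L.m_nonneg _ _) e3
  refine le_of_sq_le_sq ?_ (by positivity)
  nlinarith [mul_nonneg ha hb, sq_nonneg (t.cm (L.u a) x), sq_nonneg (t.cm (L.u b) x)]

lemma anti (k : Γ) (x : A) : L.m x {g | Commute k g ∧ ε k g ≠ ε g k} ≤ t.cm (L.u k) x := by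
  set E := {g | Commute k g ∧ ε k g ≠ ε g k}
  have h1 : (t.π (L.u k) * t.rmul (star (L.u k))).comp (L.PE E) = -L.PE E := L.ext_u fun g => by
    by_cases hg : g ∈ E
    · have e : L.u k * L.u g = -(L.u g * L.u k) := by
        rw [L.u_mul, L.u_mul, hg.1.eq, sg_eq_neg ε hg.2, neg_smul]
      simp [L.PE_u_mem hg, ← mul_assoc, e, mul_assoc (L.u g), (L.unit k).2]
    · simp [L.PE_u_not hg]
  have h2 : ∀ g, k * g * k⁻¹ ∈ E ↔ g ∈ E := fun g => by
    have : Commute k (k * g * k⁻¹) ↔ Commute k g := by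
      simp only [Commute, SemiconjBy, mul_assoc, inv_mul_cancel, mul_one, mul_right_inj]
      rw [← mul_assoc, mul_inv_eq_iff_eq_mul]
    refine ⟨fun h => ?_, fun h => ?_⟩
    · have hc := this.1 h.1
      rwa [hc.eq, mul_inv_cancel_right] at h
    · rwa [h.1.eq, mul_inv_cancel_right]
  have h3 : L.PE E (t.Λ (L.u k * x * star (L.u k))) = -L.PE E (t.Λ x) := by
    rw [mul_assoc, ← t.π_Λ, (L.in_u (E := {k}) rfl).PE_π (E := {g | k * g ∈ E}) (by simp),
      ← t.rmul_Λ, (L.in_u (E := {k}) rfl).star.PE_rmul (E := E) (by simpa [mul_assoc] using h2)]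
    exact congrArg (fun T : t.L2 →L[ℂ] t.L2 => T (t.Λ x)) h1
  have h4 := L.m_le_n2 (L.u k * x * star (L.u k) - x) E
  rw [t.n2_conj_sub (L.unit k), m, map_sub, map_sub, h3, ← neg_add', norm_neg, ← two_smul ℂ,
    norm_smul] at h4
  have h5 : ‖(2 : ℂ)‖ = 2 := by simp
  rw [h5] at h4
  have := L.m_nonneg x E
  rw [m] at this ⊢
  rw [TrState.cm]
  linarith

lemma c_eq_zero_of_tesc {K : Subgroup Γ} {g : Γ} (hg : TEsc ε K g) {y : A}
    (hy : ∀ k ∈ K, L.u k * y = y * L.u k) : L.c y g = 0 := by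
  rw [← norm_le_zero_iff]
  rcases hg with ⟨a, ha, b, hb, B, h, hg⟩ | ⟨k, hk, h⟩
  · simpa [TrState.cm, hy a ha, hy b hb] using (L.norm_c_le hg y).trans (L.pp h y)
  · simpa [TrState.cm, hy k hk] using (L.norm_c_le (E := {g | Commute k g ∧ ε k g ≠ ε g k}) h y).trans
      (L.anti k y)

lemma exists_fin {y : A} {K : Set Γ} (hy : L.In y K) {δ : ℝ} (hδ : 0 < δ) :
    ∃ F : Finset Γ, (∀ g ∈ F, g ∈ K) ∧ ∀ z, ‖z‖ ≤ 1 → (∀ g ∈ F, Commute (L.u g) z) →
      t.cm z y ≤ δ := by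
  classical
  obtain ⟨F, hF⟩ := (Metric.tendsto_nhds.1 (L.hasSum_c y) _ (half_pos hδ)).exists
  refine ⟨F.filter (· ∈ K), fun g hg => (Finset.mem_filter.1 hg).2, fun z hz h => ?_⟩
  have h1 := t.cm_le_add hz y (∑ g ∈ F, L.c y g • L.u g)
  have h2 : Commute z (∑ g ∈ F, L.c y g • L.u g) := Commute.sum_right _ _ _ fun g hg => by
    by_cases hK : g ∈ K
    · exact (h g (Finset.mem_filter.2 ⟨hg, hK⟩)).symm.smul_right _
    · rw [hy g hK, zero_smul]; exact Commute.zero_right _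
  rw [dist_comm, dist_eq_norm] at hF
  simp only [← map_smul, ← map_sum, ← map_sub, t.norm_Λ] at hF
  rw [TrState.cm, TrState.cm, h2.eq, sub_self, t.n2_zero] at h1
  rw [TrState.cm]
  linarith

lemma exists_level (x : A) {E : Set Γ} (F : ℕ → Set Γ) (hF : Monotone F)
    (h : ∀ g ∈ E, ∃ n, g ∈ F n) {δ : ℝ} (hδ : 0 < δ) : ∃ n₀, ∀ n ≥ n₀, L.m x (E \ F n) ≤ δ := by
  obtain ⟨T, h1, h2⟩ := L.exists_fin_PE E (t.Λ x) hδ
  choose! f hf using h
  refine ⟨T.sup f, fun n hn => (L.m_mono x (F := E \ T) fun g hg => ⟨hg.1, fun hT => hg.2 ?_⟩).trans h2⟩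
  exact hF ((Finset.le_sup hT).trans hn) (hf g hg.1)

include L in
lemma separable [Countable Γ] : t.Separable := by
  have h1 : TopologicalSpace.IsSeparable (Set.range t.Λ) := by
    refine ((Set.countable_range fun g => t.Λ (L.u g)).isSeparable.span (R := ℂ)).closure.mono ?_
    exact fun ξ _ => L.dense' Submodule.mem_top
  obtain ⟨s, hs, hs', h⟩ := h1.exists_countable_dense_subset
  choose! f hf using fun ξ (hξ : ξ ∈ s) => hs hξ
  refine ⟨f '' s, hs'.image _, fun x δ hδ => ?_⟩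
  obtain ⟨ξ, hξ, h1⟩ := Metric.mem_closure_iff.1 (h ⟨x, rfl⟩) _ (Real.sqrt_pos.2 hδ)
  refine ⟨_, ⟨ξ, hξ, rfl⟩, ?_⟩
  rw [← hf ξ hξ, dist_eq_norm, ← map_sub, t.norm_Λ] at h1
  rw [t.norm_τ_star_mul]
  exact (Real.lt_sqrt (t.n2_nonneg _)).1 h1

variable [t.W]

lemma ext_c {x y : A} (h : ∀ g, L.c x g = L.c y g) : x = y :=
  t.Λ_injective ((L.hasSum_c x).unique (by simpa only [h] using L.hasSum_c y))

variable {L} in
lemma In.eq_smul {x : A} (h : L.In x {1}) : x = t.τ x • 1 := L.ext_c fun g => by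
  by_cases hg : g = 1
  · simp [hg, c, t.map_one, L.u_one]
  · rw [h g hg, ← L.u_one, c, mul_smul_comm, map_smul, L.τ_star_mul, if_neg hg, smul_zero]

variable {L} in
lemma In.comm_of_u {y z : A} {K : Set Γ} (hy : L.In y K) (hz : ∀ k ∈ K, Commute (L.u k) z) :
    Commute y z := by
  have := hy.map_eq_zero (t.rmul z - t.π z) fun k hk => by simp [(hz k hk).eq]
  exact t.Λ_injective (by simpa [sub_eq_zero] using this)

variable {L} in
lemma In.comm {x y : A} {H K : Set Γ} (hx : L.In x H) (hy : L.In y K)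
    (h : ∀ g ∈ H, ∀ k ∈ K, Commute g k ∧ ε g k = ε k g) : Commute x y :=
  hx.comm_of_u fun g hg => (hy.comm_of_u fun k hk =>
    (L.comm_u (h g hg k hk).1 (h g hg k hk).2).symm).symm

lemma exists_cE (K : Subgroup Γ) (x : A) : ∃ y, t.Λ y = L.PE K (t.Λ x) ∧ ‖y‖ ≤ ‖x‖ := by
  wlog hx : ‖x‖ ≤ 1 ∧ 1 ≤ ‖x‖ generalizing x
  · rcases eq_or_ne x 0 with rfl | h0
    · exact ⟨0, by simp, le_rfl⟩
    have h1 : (‖x‖ : ℂ) ≠ 0 := by simpa using h0
    have h2 : ‖(‖x‖ : ℂ)⁻¹ • x‖ = 1 := by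
      rw [norm_smul, norm_inv, Complex.norm_real, norm_norm, inv_mul_cancel₀ (by simpa using h0)]
    obtain ⟨a, ha, ha'⟩ := this _ ⟨h2.le, h2.ge⟩
    refine ⟨(‖x‖ : ℂ) • a, by rw [map_smul, ha, map_smul, map_smul, smul_inv_smul₀ h1], ?_⟩
    rw [norm_smul, Complex.norm_real, norm_norm]
    exact mul_le_of_le_one_right (norm_nonneg _) (h2 ▸ ha')
  obtain ⟨y, hy, h1, h2⟩ := t.exists_condExp (L.alg K) inferInstance hx.1
  have h3 : L.In y K := by
    rw [in_iff_m, m, norm_eq_zero]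
    refine (L.isClosed_In K).closure_subset_iff.2 ?_ h1
    rintro _ ⟨a, ha, rfl⟩
    exact norm_eq_zero.1 (L.in_iff_m.1 ha)
  refine ⟨y, hb_ext_inner L.basis fun g => ?_, hy.trans hx.2⟩
  rw [basis_apply, ← inner_PE]
  by_cases hg : g ∈ K
  · rw [L.PE_u_mem hg, t.inner_Λ, t.inner_Λ, h2 _ (L.in_u hg)]
  · rw [L.PE_u_not hg, inner_zero_left, ← c_eq, h3 g hg]

/-- The conditional expectation onto the algebra of a subgroup. -/
noncomputable def cE (K : Subgroup Γ) : A →ₗ[ℂ] A where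
  toFun x := (L.exists_cE K x).choose
  map_add' x y := t.Λ_injective (by
    rw [(L.exists_cE K _).choose_spec.1, t.Λ.map_add, t.Λ.map_add, (L.exists_cE K _).choose_spec.1,
      (L.exists_cE K _).choose_spec.1, map_add])
  map_smul' a x := t.Λ_injective (by
    rw [(L.exists_cE K _).choose_spec.1, t.Λ.map_smul, t.Λ.map_smul,
      (L.exists_cE K _).choose_spec.1, map_smul, RingHom.id_apply])

lemma Λ_cE (K : Subgroup Γ) (x : A) : t.Λ (L.cE K x) = L.PE K (t.Λ x) :=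
  (L.exists_cE K x).choose_spec.1

lemma norm_cE_le (K : Subgroup Γ) (x : A) : ‖L.cE K x‖ ≤ ‖x‖ := (L.exists_cE K x).choose_spec.2

lemma m_cE (K : Subgroup Γ) (x : A) (E : Set Γ) : L.m (L.cE K x) E = L.m x (E ∩ K) := by
  rw [m, Λ_cE, PE_PE, m]

lemma n2_cE (K : Subgroup Γ) (x : A) : t.n2 (L.cE K x) = L.m x K := by
  rw [← t.norm_Λ, Λ_cE, m]

lemma n2_cE_le (K : Subgroup Γ) (x : A) : t.n2 (L.cE K x) ≤ t.n2 x :=
  (L.n2_cE K x).trans_le (L.m_le_n2 _ _)

lemma n2_sub_cE (K : Subgroup Γ) (x : A) : t.n2 (x - L.cE K x) = L.m x (K : Set Γ)ᶜ := by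
  rw [← t.norm_Λ, map_sub, Λ_cE, m, sub_eq_of_eq_add' (L.PE_add_compl K (t.Λ x)).symm]

lemma cE_in (K : Subgroup Γ) (x : A) : L.In (L.cE K x) K := by
  rw [in_iff_PE, Λ_cE, PE_PE, Set.inter_self]

variable {L} in
lemma In.cE {x : A} {E : Set Γ} (h : L.In x E) (K : Subgroup Γ) : L.In (L.cE K x) (E ∩ K) := by
  rw [in_iff_PE, Λ_cE, PE_PE, Set.inter_assoc, Set.inter_self, Set.inter_comm, ← PE_PE,
    L.in_iff_PE.1 h]

variable {L} in
lemma In.cE_eq {x : A} {K : Subgroup Γ} (h : L.In x K) : L.cE K x = x :=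
  t.Λ_injective (by rw [Λ_cE, L.in_iff_PE.1 h])

variable {L} in
lemma In.cE_mul {a : A} {K : Subgroup Γ} (h : L.In a K) (x : A) :
    L.cE K (a * x) = a * L.cE K x :=
  t.Λ_injective (by
    rw [Λ_cE, ← t.π_Λ, ← t.π_Λ, Λ_cE, h.PE_π fun k hk g => K.mul_mem_cancel_left hk])

variable {L} in
lemma In.cE_mul' {a : A} {K : Subgroup Γ} (h : L.In a K) (x : A) :
    L.cE K (x * a) = L.cE K x * a :=
  t.Λ_injective (by
    rw [Λ_cE, ← t.rmul_Λ, ← t.rmul_Λ, Λ_cE, h.PE_rmul fun k hk g => K.mul_mem_cancel_right hk])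

lemma c_cE_mem {K : Subgroup Γ} {g : Γ} (hg : g ∈ K) (x : A) : L.c (L.cE K x) g = L.c x g := by
  rw [c_eq, Λ_cE, ← inner_PE, L.PE_u_mem hg, c_eq]

lemma τ_cE (K : Subgroup Γ) (x : A) : t.τ (L.cE K x) = t.τ x := by
  simpa [c, L.u_one] using L.c_cE_mem K.one_mem x

lemma cE_star (K : Subgroup Γ) (x : A) : L.cE K (star x) = star (L.cE K x) := L.ext_c fun g => by
  by_cases hg : g ∈ K
  · rw [L.c_cE_mem hg, c_star, c_star, L.c_cE_mem (K.inv_mem hg)]
  · rw [L.cE_in K _ g hg, c_star, L.cE_in K _ _ (by simpa using hg), map_zero, mul_zero]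

lemma cE_cE {K K' : Subgroup Γ} (h : K ≤ K') (x : A) : L.cE K (L.cE K' x) = L.cE K x :=
  t.Λ_injective (by rw [Λ_cE, Λ_cE, Λ_cE, PE_PE, Set.inter_eq_left.2 h])

variable {L} in
lemma In.cE_eq_zero {x : A} {E : Set Γ} (h : L.In x E) {K : Subgroup Γ} (hK : ∀ g ∈ E, g ∉ K) :
    L.cE K x = 0 :=
  t.eq_zero_of_n2 (by
    rw [n2_cE, h.m_eq, Set.eq_empty_of_forall_notMem (s := (K : Set Γ) ∩ E)
      fun g hg => hK g hg.2 hg.1, m, PE_empty, norm_zero])

lemma fc {H K : Subgroup Γ} (hK : K ≤ H) {C : Set Γ} (hC : ∀ g ∈ H, g ∉ C → TEsc ε K g) {x : A}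
    (hx : ‖x‖ ≤ 1) (hH : L.In x H) {δ : ℝ} (hδ : 0 < δ) :
    ∃ k ∈ K, L.m x Cᶜ ≤ t.cm (L.u k) x + δ := by
  let S : Set A := {v | ∃ k ∈ K, ∃ a : ℂ, conj a * a = 1 ∧ v = a • L.u k}
  have hS : ∀ k, ∀ a : ℂ, conj a * a = 1 → ∀ z : A,
      a • L.u k * z * star (a • L.u k) = L.u k * z * star (L.u k) := fun k a ha z => by
    rw [star_smul, smul_mul_assoc, smul_mul_smul_comm, RCLike.star_def, mul_comm a, ha, one_smul]
  obtain ⟨y, hy, h1, h2⟩ := t.exists_avg S (by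
      rintro _ ⟨k, -, a, ha, rfl⟩
      constructor
      · rw [star_smul, smul_mul_smul_comm, (L.unit _).1, RCLike.star_def, ha, one_smul]
      · rw [star_smul, smul_mul_smul_comm, (L.unit _).2, RCLike.star_def, mul_comm, ha, one_smul])
    (by
      rintro _ ⟨k, hk, a, ha, rfl⟩ _ ⟨k', hk', a', ha', rfl⟩
      refine ⟨_, K.mul_mem hk hk', a * a' * sg ε k k', ?_, ?_⟩
      · rw [map_mul, map_mul, conj_sg]
        linear_combination (conj a' * a' * (sg ε k k' * sg ε k k')) * ha +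
          (sg ε k k' * sg ε k k') * ha' + sg_mul_self ε k k'
      · rw [smul_mul_smul_comm, L.u_mul, smul_smul])
    ⟨_, 1, K.one_mem, 1, by simp, rfl⟩ hx
  have h3 : L.In y H := by
    rw [in_iff_m, m, norm_eq_zero]
    refine h2 _ (L.isClosed_In H) ((cvxC_singleton 0).preimage _) ?_
    rintro _ ⟨k, hk, a, ha, rfl⟩
    rw [hS k a ha]
    exact norm_eq_zero.1 (L.in_iff_m.1 (((L.in_u (hK hk)).kmul hH).kmul (L.in_u (hK hk)).kstar))
  have h4 : L.In y C := fun g hg => by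
    by_cases hg' : g ∈ H
    · exact L.c_eq_zero_of_tesc (hC g hg' hg) fun k hk => h1 _ ⟨k, hk, 1, by simp, by simp⟩
    · exact h3 g hg'
  have h5 := L.m_le_add x y Cᶜ
  rw [L.in_iff_m.1 h4, zero_add] at h5
  by_contra hne
  push Not at hne
  have := h2 (Metric.closedBall (t.Λ x) (t.n2 (x - y) - δ)) Metric.isClosed_closedBall
    (cvxC_closedBall _ _) (by
      rintro _ ⟨k, hk, a, ha, rfl⟩
      rw [hS k a ha, mem_closedBall_iff_norm, ← map_sub, t.norm_Λ, t.n2_conj_sub (L.unit k)]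
      have := hne k hk
      rw [TrState.cm] at this
      linarith)
  rw [mem_closedBall_iff_norm, ← map_sub, t.norm_Λ, t.n2_sub_comm] at this
  linarith

lemma dev_le_m (x : A) : t.dev x ≤ L.m x {1}ᶜ := by
  have h := (L.cE_in ⊥ x).eq_smul
  have := dev_le t x (t.τ (L.cE ⊥ x))
  rwa [← h, n2_sub_cE] at this

/-- The trace of the algebra of a subgroup. -/
noncomputable abbrev trK (K : Subgroup Γ) : TrState (L.alg K) := t.comap (L.alg K).subtype

instance (K : Subgroup Γ) : (L.trK K).W := by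
  refine t.W_comap _ Subtype.val_injective fun x a _ h => ⟨⟨a, ?_⟩, rfl⟩
  rw [mem_alg, in_iff_m]
  refine le_antisymm (ge_of_tendsto' h fun n => ?_) (L.m_nonneg _ _)
  have := L.m_le_add a (x n).1 (K : Set Γ)ᶜ
  rwa [L.in_iff_m.1 (x n).2, zero_add, t.n2_sub_comm] at this

omit [t.W] in
lemma n2_trK (K : Subgroup Γ) (x : L.alg K) : (L.trK K).n2 x = t.n2 x.1 := t.comap_n2 _ _

lemma norm_le_of_alg {K : Subgroup Γ} {a : A} (ha : L.In a K) {C : ℝ} (hC : 0 ≤ C)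
    (h : ∀ x, L.In x K → t.n2 (a * x) ≤ C * t.n2 x) : ‖a‖ ≤ C :=
  norm_le_of_n2 (L.trK K) (a := ⟨a, ha⟩) hC fun x => by
    rw [n2_trK, n2_trK]; exact h _ x.2

theorem isInfFactor_alg (K : Subgroup Γ) (hK : ∀ g ∈ K, g ≠ 1 → TEsc ε K g)
    (hi : (K : Set Γ).Infinite) : IsInfFactor (L.alg K) := by
  refine ⟨fun x hx => ⟨t.τ x.1, Subtype.ext (In.eq_smul (L := L) fun g hg => ?_)⟩, fun h => ?_⟩
  · by_cases hg' : g ∈ K
    · exact L.c_eq_zero_of_tesc (hK g hg' hg) fun k hk =>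
        (congrArg Subtype.val (hx ⟨L.u k, L.in_u hk⟩)).symm
    · exact x.2 g hg'
  · have : Infinite K := hi.to_subtype
    have h1 := (L.orth.comp (Subtype.val : K → Γ) Subtype.val_injective).linearIndependent
    exact (LinearIndependent.of_comp (v := fun k : K => (⟨L.u k, L.in_u k.2⟩ : L.alg K))
      (t.Λ.comp (L.alg K).subtype.toAlgHom.toLinearMap) h1).finite.not_infinite this

include L in
theorem isInfFactor (hK : ∀ g, g ≠ 1 → TEsc ε ⊤ g) [Infinite Γ] : IsInfFactor A := by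
  refine ⟨fun x hx => ⟨t.τ x, In.eq_smul (L := L) fun g hg => ?_⟩, fun h => ?_⟩
  · exact L.c_eq_zero_of_tesc (hK g hg) fun k _ => (hx _).symm
  · exact (LinearIndependent.of_comp t.Λ L.orth.linearIndependent).finite.not_infinite ‹_›

variable {L} in
lemma In.τ_mul {x y : A} {K K' : Subgroup Γ} (hx : L.In x K) (hy : L.In y K')
    (h : ∀ g ∈ K, g ∈ K' → g = 1) : t.τ (x * y) = t.τ x * t.τ y := by
  have h1 := ((hy.cE K).mono (F := {1}) fun g hg => h g hg.2 hg.1).eq_smul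
  rw [← L.τ_cE K, hx.cE_mul, h1, τ_cE, mul_smul_comm, mul_one, map_smul, smul_eq_mul, mul_comm]

omit [t.W] in
variable {L} in
lemma In.n2_mul {a z : A} {K : Subgroup Γ} {Z : Set Γ} (ha : L.In a K) (hz : L.In z Z)
    (h : ∀ g ∈ Z, ∀ g' ∈ Z, g * g'⁻¹ ∈ K → g = g') : t.n2 (a * z) = t.n2 a * t.n2 z := by
  have hb : L.In (Star.star a * a) K := ha.kstar.kmul ha
  have h1 := hz.map_eq_zero ((L.PE Z).comp (t.π (Star.star a * a)) -
      t.τ (Star.star a * a) • ContinuousLinearMap.id ℂ _) fun g hg => by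
    have h2 := hb.map_eq_zero ((L.PE (Z \ {g})).comp (t.rmul (L.u g))) fun k hk => by
      have : k * g ∉ Z \ {g} := fun h' => h'.2 (h _ h'.1 g hg (by simpa using hk))
      simp [L.u_mul, L.PE_u_not this]
    have h3 : L.PE {g} (t.Λ (Star.star a * a * L.u g)) = t.τ (Star.star a * a) • t.Λ (L.u g) := by
      refine hb_ext_inner L.basis fun k => ?_
      rw [basis_apply, ← inner_PE, inner_smul_right, t.inner_Λ, L.τ_star_mul]
      split_ifs with e
      · rw [e, L.PE_u_mem (Set.mem_singleton g), t.inner_Λ, t.trace, mul_assoc, (L.unit g).2, mul_one, mul_one]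
      · rw [L.PE_u_not (E := {g}) e, inner_zero_left, mul_zero]
    have h4 := L.PE_union (Set.disjoint_sdiff_right (s := {g}) (t := Z))
      (t.Λ (Star.star a * a * L.u g))
    rw [Set.union_sdiff_cancel (Set.singleton_subset_iff.2 hg), h3] at h4
    simp only [ContinuousLinearMap.comp_apply, t.rmul_Λ] at h2
    rw [h2, add_zero] at h4
    simp only [sub_apply, ContinuousLinearMap.comp_apply, t.π_Λ, h4]
    simp
  have h5 : t.τ (Star.star (a * z) * (a * z)) = t.τ (Star.star a * a) * t.τ (Star.star z * z) := by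
    have := congrArg (fun ξ => ⟪t.Λ z, ξ⟫_ℂ) h1
    simp only [sub_apply, ContinuousLinearMap.comp_apply, t.π_Λ,
      smul_apply, ContinuousLinearMap.id_apply, inner_sub_right,
      inner_smul_right, inner_zero_right, ← inner_PE, L.in_iff_PE.1 hz, t.inner_Λ] at this
    rw [star_mul, mul_assoc, ← mul_assoc (Star.star a), ← sub_eq_zero, this]
  rw [← t.n2_sq', ← t.n2_sq', ← t.n2_sq', ← Complex.ofReal_mul, Complex.ofReal_inj, ← mul_pow] at h5
  exact (pow_left_inj₀ (t.n2_nonneg _) (mul_nonneg (t.n2_nonneg _) (t.n2_nonneg _)) two_ne_zero).1 h5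

omit [t.W] in
variable {L} in
lemma In.n2_mul' {a z : A} {K : Subgroup Γ} {Z : Set Γ} (ha : L.In a K) (hz : L.In z Z)
    (h : ∀ g ∈ Z, ∀ g' ∈ Z, g⁻¹ * g' ∈ K → g = g') : t.n2 (z * a) = t.n2 z * t.n2 a := by
  rw [← t.n2_star, star_mul, In.n2_mul ha.kstar hz.star
    fun g hg g' hg' e => inv_injective (h _ hg _ hg' (by simpa using e)), t.n2_star, t.n2_star,
    mul_comm]

end TwAlg

end Pool.Agent.P.MP_a6af55_an
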