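import Pool.Agent.P.MP_a6af55_an.SMNM
import Pool.Agent.P.MP_a6af55_an.Model

namespace Pool.Agent.P.MP_a6af55_an

open Pool.Agent.Lib.Tracial
open scoped ComplexOrder InnerProductSpace ComplexConjugate Pointwise
open Filter Topology

variable {A C : Type*} [CStarAlgebra A] [CStarAlgebra C] {t : TrState A} {s : TrState C}
  {I : Type*} (U : Ultrafilter I)

lemma mkU_eq_iff {x y : BB I A} :
    mkU t U x = mkU t U y ↔ Tendsto (fun i : I => t.n2 (x i - y i)) U (𝓝 0) := by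
  rw [← sub_eq_zero, ← map_sub]
  have h := tendsto_n2 t U (x - y)
  exact ⟨fun h0 => by rwa [h0, TrState.n2_zero] at h,
    fun h0 => upTr_faithful t U _ (by
      rw [← TrState.n2_sq', tendsto_nhds_unique h h0]; simp)⟩

lemma comm_mkU {x y : BB I A} :
    Commute (mkU t U x) (mkU t U y) ↔ Tendsto (fun i : I => t.cm (x i) (y i)) U (𝓝 0) := by
  rw [Commute, SemiconjBy, ← map_mul, ← map_mul, mkU_eq_iff]
  rfl

/-- The entrywise image of a bounded family. -/
noncomputable def bbMap (φ : I → A →⋆ₐ[ℂ] C) : BB I A →⋆ₐ[ℂ] BB I C where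
  toFun x := BB.mk (fun i => φ i (x i)) ‖x‖ fun i =>
    (NonUnitalStarAlgHom.norm_apply_le (φ i) _).trans (x.norm_apply_le i)
  map_one' := by ext k; exact map_one (φ k)
  map_mul' x y := by ext k; exact map_mul (φ k) _ _
  map_zero' := by ext k; exact map_zero (φ k)
  map_add' x y := by ext k; exact map_add (φ k) _ _
  commutes' c := by ext k; exact AlgHomClass.commutes (φ k) c
  map_star' x := by ext k; exact map_star (φ k) _

lemma bbMap_apply (φ : I → A →⋆ₐ[ℂ] C) (x : BB I A) (i : I) : bbMap φ x i = φ i (x i) := rfl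

/-- The ultraproduct of trace preserving homomorphisms. -/
noncomputable def upMap (φ : I → A →⋆ₐ[ℂ] C) (hφ : ∀ i, TP t s (φ i)) :
    Ultrapower t U →⋆ₐ[ℂ] Ultrapower s U :=
  liftHom (mkU t U) (mkU_surjective t U) ((mkU s U).comp (bbMap φ)) fun x hx => by
    rw [← map_zero (mkU t U), mkU_eq_iff] at hx
    rw [StarAlgHom.comp_apply, ← map_zero (mkU s U), mkU_eq_iff]
    refine hx.congr fun i => ?_
    change t.n2 (x i - 0) = s.n2 (φ i (x i) - 0)
    rw [sub_zero, sub_zero, (hφ i).n2]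

lemma upMap_mkU (φ : I → A →⋆ₐ[ℂ] C) (hφ : ∀ i, TP t s (φ i)) (x : BB I A) :
    upMap U φ hφ (mkU t U x) = mkU s U (bbMap φ x) := liftHom_apply _ _ _ _ _

lemma tp_upMap (φ : I → A →⋆ₐ[ℂ] C) (hφ : ∀ i, TP t s (φ i)) :
    TP (upTr t U) (upTr s U) (upMap U φ hφ) := fun q => by
  obtain ⟨x, rfl⟩ := mkU_surjective t U q
  rw [upMap_mkU]
  exact tendsto_nhds_unique (tendsto_τ s U _) ((tendsto_τ t U x).congr fun i => (hφ i _).symm)

variable {Γ : Type*} [Group Γ] {ε : Γ →* Γ →* ℤˣ}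

namespace TwAlg

variable (L : TwAlg ε t)

/-- Concentration of an element of the ultrapower on a family of sets. -/
def Conc (z : Ultrapower t U) (E : I → Set Γ) : Prop :=
  ∀ x : BB I A, mkU t U x = z → Tendsto (fun i : I => L.m (x i) (E i)ᶜ) U (𝓝 0)

/-- A family of group elements. -/
noncomputable def uu (g : I → Γ) : Ultrapower t U :=
  mkU t U (BB.mk (fun i => L.u (g i)) 1 fun _ => L.norm_u _)

variable {U}

lemma conc_mk {x : BB I A} {E : I → Set Γ}
    (h : Tendsto (fun i : I => L.m (x i) (E i)ᶜ) U (𝓝 0)) : L.Conc U (mkU t U x) E := by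
  intro y hy
  have := h.add ((mkU_eq_iff U).1 hy)
  rw [add_zero] at this
  exact squeeze_zero (fun _ => L.m_nonneg _ _) (fun _ => L.m_le_add _ _ _) this

lemma conc_of_in {x : BB I A} {E : I → Set Γ} (h : ∀ i : I, L.In (x i) (E i)) :
    L.Conc U (mkU t U x) E :=
  L.conc_mk (tendsto_const_nhds.congr fun i => (L.in_iff_m.1 (h i)).symm)

lemma conc_uu {g : I → Γ} {E : I → Set Γ} (h : ∀ i, g i ∈ E i) : L.Conc U (L.uu U g) E :=
  L.conc_of_in fun i => L.in_u (h i)

lemma uu_unitary (g : I → Γ) : L.uu U g ∈ unitary (Ultrapower t U) :=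
  map_unitary (mkU t U) ⟨by ext i; exact (L.unit _).1, by ext i; exact (L.unit _).2⟩

lemma norm_uu (g : I → Γ) : ‖L.uu U g‖ ≤ 1 := norm_unitary_le (L.uu_unitary g)

variable {L}

lemma Conc.mono {z : Ultrapower t U} {E F : I → Set Γ} (h : L.Conc U z E) (hE : ∀ i, E i ⊆ F i) :
    L.Conc U z F := fun x hx =>
  squeeze_zero (fun _ => L.m_nonneg _ _) (fun i => L.m_mono _ (Set.compl_subset_compl.2 (hE i)))
    (h x hx)

lemma Conc.inter {z : Ultrapower t U} {E F : I → Set Γ} (h : L.Conc U z E) (h' : L.Conc U z F) :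
    L.Conc U z fun i => E i ∩ F i := fun x hx => by
  have := (h x hx).add (h' x hx)
  rw [add_zero] at this
  refine squeeze_zero (fun _ => L.m_nonneg _ _) (fun i => ?_) this
  rw [Set.compl_inter]
  exact L.m_union_le _ _ _

lemma conc_pp {z : Ultrapower t U} {a b : I → Γ} {B : I → Set Γ} (h : ∀ i, PP (a i) (b i) (B i))
    (ha : Commute (L.uu U a) z) (hb : Commute (L.uu U b) z) : L.Conc U z fun i => (B i)ᶜ := by
  rintro x rfl
  have := (((comm_mkU U).1 ha).add ((comm_mkU U).1 hb)).const_mul 7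
  rw [add_zero, mul_zero] at this
  refine squeeze_zero (fun _ => L.m_nonneg _ _) (fun i => ?_) this
  rw [compl_compl]
  exact L.pp (h i) _

variable [t.W]

lemma Conc.rep {z : Ultrapower t U} {K : I → Subgroup Γ} (h : L.Conc U z fun i => K i) :
    ∃ x : BB I A, mkU t U x = z ∧ ∀ i : I, ‖x i‖ ≤ ‖z‖ ∧ L.In (x i) (K i) := by
  obtain ⟨x, rfl, hx⟩ := exists_mkU t U z
  have h1 : ∀ i : I, ‖L.cE (K i) (x i)‖ ≤ ‖mkU t U x‖ := fun i =>
    (L.norm_cE_le _ _).trans ((x.norm_apply_le i).trans hx)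
  refine ⟨BB.mk _ _ h1, ((mkU_eq_iff U).2 ?_).symm, fun i => ⟨h1 i, L.cE_in _ _⟩⟩
  exact (h x rfl).congr fun i => (L.n2_sub_cE _ _).symm

lemma Conc.mul {y z : Ultrapower t U} {K : I → Subgroup Γ} (h : L.Conc U y fun i => K i)
    (h' : L.Conc U z fun i => K i) : L.Conc U (y * z) fun i => K i := by
  obtain ⟨x, rfl, hx⟩ := h.rep
  obtain ⟨x', rfl, hx'⟩ := h'.rep
  rw [← map_mul]
  exact L.conc_of_in fun i => (hx i).2.kmul (hx' i).2

lemma Conc.star {z : Ultrapower t U} {K : I → Subgroup Γ} (h : L.Conc U z fun i => K i) :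
    L.Conc U (star z) fun i => K i := by
  obtain ⟨x, rfl, hx⟩ := h.rep
  rw [← map_star]
  exact L.conc_of_in fun i => (hx i).2.kstar

lemma Conc.comm {y z : Ultrapower t U} {K K' : I → Subgroup Γ} (h : L.Conc U y fun i => K i)
    (h' : L.Conc U z fun i => K' i)
    (hc : ∀ i, ∀ g ∈ K i, ∀ k ∈ K' i, Commute g k ∧ ε g k = ε k g) : Commute y z := by
  obtain ⟨x, rfl, hx⟩ := h.rep
  obtain ⟨x', rfl, hx'⟩ := h'.rep
  refine Commute.map ?_ (mkU t U)
  ext i
  exact ((hx i).2.comm (hx' i).2 (hc i)).eq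

lemma Conc.fc {r : I → ℕ} (hr : Tendsto r U atTop) {z : Ultrapower t U} (hz : ‖z‖ ≤ 1)
    {H K : I → Subgroup Γ} (h : L.Conc U z fun i => H i) (hK : ∀ i, K i ≤ H i) {E : I → Set Γ}
    (hE : ∀ i, ∀ g ∈ H i, g ∉ E i → TEsc ε (K i) g)
    (hc : ∀ k : I → Γ, (∀ i, k i ∈ K i) → Commute (L.uu U k) z) : L.Conc U z E := by
  obtain ⟨x, rfl, hx⟩ := h.rep
  choose k hk h3 using fun i => L.fc (hK i) (hE i) ((hx i).1.trans hz) (hx i).2
    (Nat.one_div_pos_of_nat (n := r i))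
  have := ((comm_mkU U).1 (hc k hk)).add (tendsto_one_div_add_atTop_nhds_zero_nat.comp hr)
  rw [add_zero] at this
  exact L.conc_mk (squeeze_zero (fun _ => L.m_nonneg _ _) h3 this)

lemma Conc.eq_smul {z : Ultrapower t U} (h : L.Conc U z fun _ => {1}) :
    z = (upTr t U).τ z • 1 := by
  obtain ⟨x, rfl⟩ := mkU_surjective t U z
  exact (upTr t U).eq_of_n2 (le_antisymm (le_of_tendsto_of_tendsto' (tendsto_dev t U x) (h x rfl)
    fun i => L.dev_le_m _) (TrState.n2_nonneg _ _))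

end TwAlg

end Pool.Agent.P.MP_a6af55_an
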