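import Pool.Agent.P.MP_a6af55_an.SMUltra

namespace Pool.Agent.P.MP_a6af55_an

open Pool.Agent.Lib.Tracial
open scoped ComplexOrder InnerProductSpace ComplexConjugate Pointwise
open Filter Topology

universe u w

variable {A C : Type*} [CStarAlgebra A] [CStarAlgebra C] {t : TrState A} {s : TrState C}
  {I : Type*} (U : Ultrafilter I)

lemma tendsto_nm (b c : Fin 2 → BB I A) (x : BB I A) : Tendsto (fun i : I =>
    21 * (∑ k, t.n2 (b k i * x i - x i * c k i) + ∑ k, ∑ j, t.cm (b j i) (c k i))) U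
    (𝓝 (21 * (∑ k, (upTr t U).n2 (mkU t U (b k) * mkU t U x - mkU t U x * mkU t U (c k)) +
      ∑ k, ∑ j, (upTr t U).cm (mkU t U (b j)) (mkU t U (c k))))) := by
  refine ((tendsto_finsetSum _ fun k _ => ?_).add (tendsto_finsetSum _ fun k _ =>
    tendsto_finsetSum _ fun j _ => tendsto_cm t U (b j) (c k))).const_mul 21
  have := tendsto_n2 t U (b k * x - x * c k)
  rwa [map_sub, map_mul, map_mul] at this

lemma NM.up {b : Fin 2 → BB I A} (h : ∀ i : I, NM t Set.univ 0 fun k => b k i) :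
    NM (upTr t U) Set.univ 0 fun k => mkU t U (b k) := by
  intro y _ hy c hc
  obtain ⟨x, rfl, hx⟩ := exists_ball t U y hy
  choose z hz hz' using fun k => exists_ball t U (c k) (hc k).2
  obtain rfl : c = fun k => mkU t U (z k) := funext fun k => (hz k).symm
  exact le_of_tendsto_of_tendsto' (tendsto_n2 t U x) ((tendsto_nm U b z x).add_const 0)
    fun i => h i (x i) trivial (hx i) (fun k => z k i) fun k => ⟨trivial, hz' k i⟩

lemma NM.down {b : Fin 2 → BB I A} (h : NM (upTr t U) Set.univ 0 fun k => mkU t U (b k)) {δ : ℝ}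
    (hδ : 0 < δ) : ∀ᶠ i : I in U, NM t Set.univ δ fun k => b k i := by
  by_contra hn
  have key : ∀ i : I, ∃ (y : A) (c : Fin 2 → A), ‖y‖ ≤ 1 ∧ (∀ k, ‖c k‖ ≤ 1) ∧
      (¬ NM t Set.univ δ (fun k => b k i) → 21 * (∑ k, t.n2 (b k i * y - y * c k) +
        ∑ k, ∑ j, t.cm (b j i) (c k)) + δ ≤ t.n2 y) := fun i => by
    by_cases h1 : NM t Set.univ δ fun k => b k i
    · exact ⟨0, 0, by simp, by simp, fun h2 => absurd h1 h2⟩
    · simp only [NM, not_forall, not_le] at h1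
      obtain ⟨y, -, h2, c, h3, h4⟩ := h1
      exact ⟨y, c, h2, fun k => (h3 k).2, fun _ => h4.le⟩
  choose y c h1 h2 h3 using key
  have h4 := h _ trivial (norm_mkU_le_one t U (x := BB.mk y 1 h1) h1)
    (fun k => mkU t U (BB.mk (fun i => c i k) 1 fun i => h2 i k))
    fun k => ⟨trivial, norm_mkU_le_one t U fun i => h2 i k⟩
  have h5 := le_of_tendsto_of_tendsto
    ((tendsto_nm (t := t) U b (fun k => BB.mk (fun i => c i k) 1 fun i => h2 i k)
      (BB.mk y 1 h1)).add_const δ) (tendsto_n2 t U (BB.mk y 1 h1))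
    ((Ultrafilter.eventually_not.2 hn).mono h3)
  linarith

lemma NM.map [t.W] {φ : A →⋆ₐ[ℂ] C} (hφ : TP t s φ) {S : Set C} (hS : ∀ y ∈ S, ∃ x, φ x = y)
    {δ : ℝ} {b : Fin 2 → A} (h : NM t Set.univ δ b) : NM s S δ fun k => φ (b k) := by
  intro y hy hy' c hc
  obtain ⟨x, rfl⟩ := hS y hy
  choose z hz using fun k => hS _ (hc k).1
  obtain rfl : c = fun k => φ (z k) := funext fun k => (hz k).symm
  simp only [← map_mul, ← map_sub, hφ.n2, hφ.cm]
  exact h x trivial (hφ.norm x ▸ hy') z fun k => ⟨trivial, hφ.norm (z k) ▸ (hc k).2⟩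

lemma NM.conj {u : A} (hu : u ∈ unitary A) {δ : ℝ} {b : Fin 2 → A} (h : NM t Set.univ δ b) :
    NM t Set.univ δ fun k => star u * b k * u := by
  intro y _ hy c hc
  have h1 : ∀ a : A, ‖a‖ ≤ 1 → ‖u * a * star u‖ ≤ 1 := fun a ha => by
    rwa [CStarRing.norm_mul_mem_unitary _ (Unitary.star_mem hu),
      CStarRing.norm_mem_unitary_mul _ hu]
  have e1 : ∀ a : A, u * (star u * a) = a := fun a => by
    rw [← mul_assoc, Unitary.mul_star_self_of_mem hu, one_mul]
  have e2 : ∀ a : A, star u * (u * a) = a := fun a => by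
    rw [← mul_assoc, Unitary.star_mul_self_of_mem hu, one_mul]
  have e3 := Unitary.mul_star_self_of_mem hu
  have h2 := h (u * y * star u) trivial (h1 y hy) (fun k => u * c k * star u)
    fun k => ⟨trivial, h1 _ (hc k).2⟩
  rw [t.n2_conj hu] at h2
  refine h2.trans (le_of_eq ?_)
  congr 3
  · refine Finset.sum_congr rfl fun k _ => ?_
    rw [← t.n2_conj hu (star u * b k * u * y - _)]
    simp only [mul_sub, sub_mul, mul_assoc, e1, e2]
  · refine Finset.sum_congr rfl fun k _ => Finset.sum_congr rfl fun j _ => ?_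
    rw [TrState.cm, TrState.cm, ← t.n2_conj hu (star u * b j * u * c k - _)]
    simp only [mul_sub, sub_mul, mul_assoc, e1, e3, mul_one]

lemma UModel.exists_equiv (M : UModel.{w} t C) : Nonempty (Ultrapower t M.U ≃⋆ₐ[ℂ] C) := by
  have h0 : ∀ x, mkU t M.U x = 0 ↔ M.π x = 0 := fun x => by
    rw [M.ker, ← map_zero (mkU t M.U), mkU_eq_iff]
    exact tendsto_congr fun i => congrArg t.n2 (sub_zero (x i))
  refine ⟨StarAlgEquiv.ofBijective (liftHom (mkU t M.U) (mkU_surjective t M.U) M.π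
    fun x => (h0 x).1) ⟨(injective_iff_map_eq_zero _).2 fun q hq => ?_, fun c => ?_⟩⟩
  · obtain ⟨x, rfl⟩ := mkU_surjective t M.U q
    rw [liftHom_apply] at hq
    exact (h0 x).2 hq
  · obtain ⟨x, rfl⟩ := M.surj c
    exact ⟨_, liftHom_apply _ _ _ _ x⟩

theorem exists_iso {A A' : Type u} [CStarAlgebra A] [CStarAlgebra A'] {t : TrState A}
    {t' : TrState A'} [t.W] [t'.W] (hA : IsInfFactor A) (h : ElemEquiv.{u, w} t t') :
    ∃ (I J : Type w) (U : Ultrafilter I) (V : Ultrafilter J) (r : I → ℕ) (r' : J → ℕ)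
      (θ : Ultrapower t U ≃⋆ₐ[ℂ] Ultrapower t' V), Tendsto r U atTop ∧ Tendsto r' V atTop ∧
      ∀ a, (upTr t' V).τ (θ a) = (upTr t U).τ a := by
  obtain ⟨I, J, U, V, ⟨e⟩⟩ := h
  have hτ := τ_equiv (upTr t U) (isInfFactor_up t U hA) (upTr t' V) e
  obtain ⟨M⟩ := exists_model (t := t) (upTr t' V) U
    ((e : Ultrapower t U →⋆ₐ[ℂ] Ultrapower t' V).comp (mkU t U))
    ((EquivLike.surjective e).comp (mkU_surjective t U)) fun x => by
      rw [StarAlgHom.comp_apply, TrState.n2_map _ _ hτ]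
      exact tendsto_n2 t U x
  obtain ⟨M'⟩ := exists_model (t := t') (upTr t' V) V (mkU t' V) (mkU_surjective t' V)
    (tendsto_n2 t' V)
  obtain ⟨e1⟩ := M.exists_equiv
  obtain ⟨e2⟩ := M'.exists_equiv
  exact ⟨M.I, M'.I, M.U, M'.U, M.r, M'.r, e1.trans e2.symm, M.hr, M'.hr,
    τ_equiv (upTr t M.U) (isInfFactor_up t M.U hA) (upTr t' M'.U) _⟩

end Pool.Agent.P.MP_a6af55_an
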