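import Pool.Agent.P.MP_a6af55_an.SMMain

open Pool.Agent.Lib.Tracial Pool.Agent.P.MP_a6af55_an

universe v

theorem Pool.Agent.P.MP_a6af55_an.variantStrongly :
    ∃ N : (ℕ → Bool) → II1Factor.{0},
      (∀ α, (N α).tr.Separable ∧ StronglyMcDuff (N α).tr ∧ ∀ U : Ultrafilter ℕ, (∀ n, U ≠ pure n) →
        SuperMcDuff (N α).tr U ∧ ∀ R : II1Factor.{0}, EmbedsUltra (N α).tr R.tr U) ∧
      ∀ α β, α ≠ β → ¬ ElemEquiv.{0, v} (N α).tr (N β).tr := by
  let b : (ℕ → Bool) → ℕ → Bool := fun α n => Nat.rec false (fun m _ => Nat.rec false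
    (fun k _ => α k) m) n
  choose N hN using fun α => exists_twII1 (εP (HH (G0 (b α)))) fun _ _ _ _ L =>
    tw_isInfFactor L (pp_tj 0)
  refine ⟨N, fun α => ?_, fun α β hne h => hne ?_⟩
  · obtain ⟨L⟩ := hN α
    have : Infinite (HH (G0 (b α))) := Set.infinite_univ_iff.1
      ((sub_infinite (A := Set.univ) (a := Sum.inr 0) trivial).mono (Set.subset_univ _))
    exact ⟨L.separable, tw_stronglyMcDuff L (pp_tj 0), fun U hU => ⟨tw_superMcDuff L (pp_tj 0) U hU,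
      fun R => tw_embedsUltra L R.tr R.isInfFactor det_all U hU⟩⟩
  · obtain ⟨L⟩ := hN α
    obtain ⟨L'⟩ := hN β
    obtain ⟨Z⟩ := exists_setup (β := b α) rfl rfl
    obtain ⟨Z'⟩ := exists_setup (β := b β) rfl rfl
    exact funext fun k => congrFun (bit_eq_tw Z Z' L L' h) (k + 1)
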